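import Pool.Agent.RS.CurvesB

/-!
# RS module AsmA: the drawing of a closed flag walk is an embedding
-/

set_option autoImplicit false

namespace Pool.Agent.RS

section

variable {V : Type} {rk : V → ℕ} {Cov : V → V → Prop} {n N : ℕ} (F : FlagWalk rk Cov n N)

theorem FlagWalk.ends (hN : 0 < N) (hn : 2 ≤ n) (u v : V) (h : F.H u v) :
    F.x v = F.x u + (F.δ u v : AddCircle (1 : ℝ)) := by
  obtain ⟨j, h1, h2, h3, h4⟩ := h
  obtain ⟨r, hr⟩ : ∃ r, r = rk u := ⟨_, rfl⟩
  rw [h1] at h4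
  rw [← hr] at h2 h3 h4
  rw [← h3, ← h4, F.x_ch hN hn j h2.le, F.x_ch hN hn j (show r + 1 ≤ n from h2),
    F.δ_ch hN hn j h2, ← AddCircle.coe_add]
  congr 1
  ring

theorem FlagWalk.inj (hN : 0 < N) (hn : 2 ≤ n) (u v : V) (h : rk u = rk v) (hx : F.x u = F.x v) :
    u = v := by
  obtain ⟨i, hi⟩ := F.exists_ch u
  obtain ⟨j, hj⟩ := F.exists_ch v
  obtain ⟨r, hr⟩ : ∃ r, r = rk u := ⟨_, rfl⟩
  have hrn : r ≤ n := by
    rw [hr]
    exact F.le u
  rw [← h] at hj
  rw [← hr] at hi hj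
  have h1 : F.x u = ((F.P i r : ℝ) : AddCircle (1 : ℝ)) := by
    rw [← hi]
    exact F.x_ch hN hn i hrn
  have h2 : F.x v = ((F.P j r : ℝ) : AddCircle (1 : ℝ)) := by
    rw [← hj]
    exact F.x_ch hN hn j hrn
  have h3 : prj (F.P j r) 0 = prj (F.P i r) 0 := by
    show (((F.P j r : ℝ) : AddCircle (1 : ℝ)), (0 : ℝ)) = (((F.P i r : ℝ) : AddCircle (1 : ℝ)), 0)
    rw [← h1, ← h2, hx]
  obtain ⟨-, m, hm⟩ := prj_eq.1 h3
  rw [← hi, ← hj]
  exact F.P_ch hN hn hrn hm

/-- the curve at an integer height -/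
private theorem FlagWalk.c_nat_aux (hn : 2 ≤ n) (j : ℤ) {t : ℕ} (ht : t ≤ n) :
    F.c j (t : ℝ) = F.P j t := by
  rcases Nat.lt_or_ge t n with h | h
  · rw [F.c_lin h le_rfl (by linarith)]
    ring
  · obtain ⟨s, rfl⟩ : ∃ s, t = s + 1 := ⟨t - 1, by omega⟩
    rw [F.c_lin (r := s) (by omega) (by push_cast; linarith) (by push_cast; exact le_rfl)]
    push_cast
    ring

/-- an element of the chain of time `i` of rank `t`, as a point -/
private theorem FlagWalk.pt_aux (hN : 0 < N) (hn : 2 ≤ n) (i : ℤ) {t : ℕ} (ht : t ≤ n) :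
    prj (F.c i t) t = (F.x (F.ch i t), (rk (F.ch i t) : ℝ)) := by
  rw [F.c_nat_aux hn i ht, F.x_ch hN hn i ht, F.rank i t ht]
  rfl

/-- two edges meet only in a common end vertex. Over the same interval `[r, r + 1]`: two linear
functions `P i r + t (P i (r+1) - P i r) ≤ P j r + t (P j (r+1) - P j r)` (monotone family, after a
shift by a multiple of `N`), equal for some `0 < t < 1`, are equal, so both end vertices coincide
(`P_ch`). Over different intervals the common height is an integer: `inj`. -/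
theorem FlagWalk.cross (hN : 0 < N) (hn : 2 ≤ n) (u v u' v' : V) (h : F.H u v) (h' : F.H u' v')
    (hne : (u, v) ≠ (u', v')) :
    ∀ p ∈ seg (F.x u) (rk u) (F.δ u v), p ∈ seg (F.x u') (rk u') (F.δ u' v') →
      ∃ c, (c = u ∨ c = v) ∧ (c = u' ∨ c = v') ∧ p = (F.x c, (rk c : ℝ)) := by
  intro p hp hp'
  obtain ⟨i, h1, h2, h3, h4⟩ := h
  obtain ⟨j, h1', h2', h3', h4'⟩ := h'
  obtain ⟨r, hr⟩ : ∃ r, r = rk u := ⟨_, rfl⟩
  obtain ⟨s, hs⟩ : ∃ s, s = rk u' := ⟨_, rfl⟩
  rw [h1] at h4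
  rw [← hr] at h2 h3 h4
  rw [h1'] at h4'
  rw [← hs] at h2' h3' h4'
  rw [← h3, ← h4, F.seg_eq hN hn i h2] at hp
  rw [← h3', ← h4', F.seg_eq hN hn j h2'] at hp'
  obtain ⟨y, ⟨hy0, hy1⟩, hy⟩ := hp
  obtain ⟨y', ⟨hy0', hy1'⟩, hy'⟩ := hp'
  have hyy : prj (F.c i y) y = prj (F.c j y') y' := hy.trans hy'.symm
  obtain ⟨e1, m, hm⟩ := prj_eq.1 hyy
  subst e1
  -- shift the second time
  obtain ⟨k, hk⟩ : ∃ k : ℤ, k = j + (-m) * N := ⟨_, rfl⟩
  have hP : ∀ t, F.P k t = F.P j t + ((-m : ℤ) : ℝ) := fun t => by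
    rw [hk]
    exact F.P_add_mul hN hn j (-m) t
  have hch : ∀ t ≤ n, F.ch k t = F.ch j t := fun t ht => F.P_ch hN hn ht (hP t)
  have hc : F.c k y = F.c i y := by
    rw [hk, F.c_add_mul hN hn, hm]
    push_cast
    ring
  rw [← hch s h2'.le] at h3'
  rw [← hch (s + 1) h2'] at h4'
  by_cases hint : ∃ t : ℕ, y = t
  · obtain ⟨t, rfl⟩ := hint
    have hr0 : r ≤ t := by exact_mod_cast hy0
    have hr1 : t ≤ r + 1 := by exact_mod_cast hy1
    have hs0 : s ≤ t := by exact_mod_cast hy0'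
    have hs1 : t ≤ s + 1 := by exact_mod_cast hy1'
    have htn : t ≤ n := by omega
    have hPe : F.P i t = F.P k t + ((0 : ℤ) : ℝ) := by
      rw [F.c_nat_aux hn k htn, F.c_nat_aux hn i htn] at hc
      rw [hc]
      simp
    have hce : F.ch i t = F.ch k t := F.P_ch hN hn htn hPe
    refine ⟨F.ch i t, ?_, ?_, ?_⟩
    · rcases Nat.lt_or_ge r t with h5 | h5
      · right
        rw [← h4, show t = r + 1 by omega]
      · left
        rw [← h3, show t = r by omega]
    · rw [hce]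
      rcases Nat.lt_or_ge s t with h5 | h5
      · right
        rw [← h4', show t = s + 1 by omega]
      · left
        rw [← h3', show t = s by omega]
    · rw [← hy]
      exact F.pt_aux hN hn i htn
  · exfalso
    have hrlt : (r : ℝ) < y := lt_of_le_of_ne hy0 fun h => hint ⟨r, h.symm⟩
    have hrlt' : y < r + 1 := lt_of_le_of_ne hy1 fun h => hint ⟨r + 1, by rw [h]; push_cast; rfl⟩
    have hslt : (s : ℝ) < y := lt_of_le_of_ne hy0' fun h => hint ⟨s, h.symm⟩
    have hslt' : y < s + 1 := lt_of_le_of_ne hy1' fun h => hint ⟨s + 1, by rw [h]; push_cast; rfl⟩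
    have hrs : s = r := by
      have a1 : (s : ℝ) < r + 1 := hslt.trans hrlt'
      have a2 : (r : ℝ) < s + 1 := hrlt.trans hslt'
      have a3 : s < r + 1 := by exact_mod_cast a1
      have a4 : r < s + 1 := by exact_mod_cast a2
      omega
    rw [hrs] at h3' h4'
    rw [F.c_lin h2 hrlt.le hrlt'.le, F.c_lin h2 hrlt.le hrlt'.le] at hc
    obtain ⟨θ, hθ⟩ : ∃ θ : ℝ, θ = y - r := ⟨_, rfl⟩
    have hθ0 : 0 < θ := by rw [hθ]; linarith
    have hθ1 : θ < 1 := by rw [hθ]; linarith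
    rw [← hθ] at hc
    have key : ∀ a b : ℤ, a ≤ b →
        F.P a r + θ * (F.P a (r + 1) - F.P a r) = F.P b r + θ * (F.P b (r + 1) - F.P b r) →
        F.P a r = F.P b r ∧ F.P a (r + 1) = F.P b (r + 1) := by
      intro a b hab he
      have b1 : F.P a r ≤ F.P b r := F.P_mono hN hn r hab
      have b2 : F.P a (r + 1) ≤ F.P b (r + 1) := F.P_mono hN hn (r + 1) hab
      have b3 : (1 - θ) * (F.P b r - F.P a r) + θ * (F.P b (r + 1) - F.P a (r + 1)) = 0 := by
        linarith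
      have b4 : 0 ≤ (1 - θ) * (F.P b r - F.P a r) :=
        mul_nonneg (by linarith) (by linarith)
      have b5 : 0 ≤ θ * (F.P b (r + 1) - F.P a (r + 1)) := mul_nonneg hθ0.le (by linarith)
      have b6 : (1 - θ) * (F.P b r - F.P a r) = 0 := by linarith
      have b7 : θ * (F.P b (r + 1) - F.P a (r + 1)) = 0 := by linarith
      rcases mul_eq_zero.1 b6 with b8 | b8
      · linarith
      · rcases mul_eq_zero.1 b7 with b9 | b9
        · linarith
        · exact ⟨by linarith, by linarith⟩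
    have hPP : F.P i r = F.P k r ∧ F.P i (r + 1) = F.P k (r + 1) := by
      rcases le_total i k with h5 | h5
      · exact key i k h5 hc.symm
      · obtain ⟨h6, h7⟩ := key k i h5 hc
        exact ⟨h6.symm, h7.symm⟩
    have c1 : F.ch i r = F.ch k r :=
      F.P_ch hN hn h2.le (m := 0) (by rw [hPP.1]; simp)
    have c2 : F.ch i (r + 1) = F.ch k (r + 1) :=
      F.P_ch hN hn (show r + 1 ≤ n from h2) (m := 0) (by rw [hPP.2]; simp)
    refine hne ?_
    rw [← h3, ← h4, ← h3', ← h4', c1, c2]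

end

end Pool.Agent.RS
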