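import Pool.Agent.RS.Region

/-!
# RS module RegionB: the region which contains the lower end of the cylinder
-/

set_option autoImplicit false

namespace Pool.Agent.RS

open Set

namespace RegionBAux

/-- the map which sends the strip to the part between the two curves -/
noncomputable def mp (f g : ℝ → ℝ) (p : ℝ × ℝ) : ℝ × ℝ := ((1 - p.2) * f p.1 + p.2 * g p.1, p.1)

theorem mp_continuous {f g : ℝ → ℝ} (hf : Continuous f) (hg : Continuous g) :
    Continuous (mp f g) := by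
  unfold mp
  fun_prop

theorem mem_mp {f g : ℝ → ℝ} {x h : ℝ} (h1 : f h < x) (h2 : x < g h) :
    ∃ θ, 0 < θ ∧ θ < 1 ∧ mp f g (h, θ) = (x, h) := by
  have h3 : 0 < g h - f h := by linarith
  refine ⟨(x - f h) / (g h - f h), div_pos (by linarith) h3, (div_lt_one h3).2 (by linarith), ?_⟩
  unfold mp
  simp only []
  refine Prod.ext ?_ rfl
  show (1 - (x - f h) / (g h - f h)) * f h + (x - f h) / (g h - f h) * g h = x
  have h4 : g h - f h ≠ 0 := h3.ne'
  field_simp
  ring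

theorem mp_between {f g : ℝ → ℝ} {h θ : ℝ} (h0 : 0 < θ) (h1 : θ < 1) (hlt : f h < g h) :
    f h < (mp f g (h, θ)).1 ∧ (mp f g (h, θ)).1 < g h := by
  unfold mp
  simp only []
  constructor <;> nlinarith

end RegionBAux

open RegionBAux

/-- the region which contains the lower end of the cylinder: `f = m`, `g = m + 1` below the height
`0`. The region is the part between the curves below the height `h1`, together with all points of
negative height. -/
theorem region_bottom {f g : ℝ → ℝ} {h1 : ℝ} {m : ℤ} {D : Set Cyl} (hf : Continuous f)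
    (hg : Continuous g) (h01 : 0 < h1) (hf0 : ∀ h ≤ 0, f h = m) (hg0 : ∀ h ≤ 0, g h = m + 1)
    (hlt : ∀ h, h < h1 → f h < g h) (he1 : f h1 = g h1)
    (hD : ∀ h, 0 ≤ h → h ≤ h1 → prj (f h) h ∈ D ∧ prj (g h) h ∈ D)
    (hdis : ∀ x h, 0 ≤ h → h < h1 → f h < x → x < g h → prj x h ∉ D)
    (hneg : ∀ x h : ℝ, h < 0 → prj x h ∉ D)
    {x h : ℝ} (hp : h < 0 ∨ (h < h1 ∧ f h < x ∧ x < g h)) :
    frontier (connectedComponentIn Dᶜ (prj x h)) =
      (fun y => prj (f y) y) '' Icc 0 h1 ∪ (fun y => prj (g y) y) '' Icc 0 h1 := by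
  obtain ⟨P, hP⟩ : ∃ P : ℝ × ℝ → Cyl, P = fun p => prj p.1 p.2 := ⟨_, rfl⟩
  have hPc : Continuous P := hP ▸ prj_continuous
  have hPo : IsOpenMap P := hP ▸ prj_open
  obtain ⟨U1, hU1⟩ : ∃ U : Set (ℝ × ℝ), U = {p | p.2 < 0} := ⟨_, rfl⟩
  obtain ⟨U2, hU2⟩ : ∃ U : Set (ℝ × ℝ), U = {p | p.2 < h1 ∧ f p.2 < p.1 ∧ p.1 < g p.2} :=
    ⟨_, rfl⟩
  obtain ⟨R, hR⟩ : ∃ R : Set Cyl, R = P '' (U1 ∪ U2) := ⟨_, rfl⟩
  have hRo : IsOpen R := by
    rw [hR]
    refine hPo _ (IsOpen.union ?_ ?_)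
    · rw [hU1]
      exact isOpen_lt continuous_snd continuous_const
    · rw [hU2]
      have h2 : {p : ℝ × ℝ | p.2 < h1 ∧ f p.2 < p.1 ∧ p.1 < g p.2}
          = {p | p.2 < h1} ∩ ({p | f p.2 < p.1} ∩ {p | p.1 < g p.2}) := rfl
      rw [h2]
      exact (isOpen_lt continuous_snd continuous_const).inter
        ((isOpen_lt (hf.comp continuous_snd) continuous_fst).inter
          (isOpen_lt continuous_fst (hg.comp continuous_snd)))
  have hU2' : U2 = mp f g '' (Iio h1 ×ˢ Ioo 0 1) := by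
    rw [hU2]
    ext ⟨a, b⟩
    constructor
    · rintro ⟨h2, h3, h4⟩
      obtain ⟨θ, h5, h6, h7⟩ := mem_mp h3 h4
      exact ⟨(b, θ), ⟨h2, h5, h6⟩, h7⟩
    · rintro ⟨⟨b', θ⟩, ⟨h2, h5, h6⟩, h7⟩
      have h8 := mp_between h5 h6 (hlt b' h2)
      have h9 : b' = b := congrArg Prod.snd h7
      have h10 : (mp f g (b', θ)).1 = a := congrArg Prod.fst h7
      rw [h10, h9] at h8
      exact ⟨h9 ▸ h2, h8⟩
  have hRc : IsPreconnected R := by
    rw [hR]
    refine IsPreconnected.image ?_ _ hPc.continuousOn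
    refine IsPreconnected.union ((m : ℝ) + 1 / 2, -1) ?_ ?_ ?_ ?_
    · rw [hU1]
      show (-1 : ℝ) < 0
      norm_num
    · rw [hU2]
      refine ⟨by show (-1 : ℝ) < h1; linarith, ?_, ?_⟩
      · show f (-1) < (m : ℝ) + 1 / 2
        rw [hf0 _ (by norm_num)]
        linarith
      · show (m : ℝ) + 1 / 2 < g (-1)
        rw [hg0 _ (by norm_num)]
        linarith
    · rw [hU1]
      have : Convex ℝ {p : ℝ × ℝ | p.2 < 0} := by
        have h2 : {p : ℝ × ℝ | p.2 < 0} = (LinearMap.snd ℝ ℝ ℝ) ⁻¹' (Iio 0) := rfl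
        rw [h2]
        exact (convex_Iio (0 : ℝ)).linear_preimage _
      exact this.isPreconnected
    · rw [hU2']
      exact IsPreconnected.image (isPreconnected_Iio.prod isPreconnected_Ioo) _
        (mp_continuous hf hg).continuousOn
  have hRd : Disjoint R D := by
    rw [Set.disjoint_left, hR]
    rintro _ ⟨⟨a, b⟩, h2, rfl⟩
    rw [hP]
    show prj a b ∉ D
    rcases h2 with h3 | h3
    · rw [hU1] at h3
      exact hneg a b h3
    · rw [hU2] at h3
      obtain ⟨h4, h5, h6⟩ := h3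
      by_cases h7 : b < 0
      · exact hneg a b h7
      · exact hdis a b (not_lt.1 h7) h4 h5 h6
  -- the curves lie in the closure
  have hcl : ∀ c : ℝ → ℝ, Continuous c → (∀ y, 0 ≤ y → y < h1 → P (c y, y) ∈ closure R) →
      ∀ y, 0 ≤ y → y ≤ h1 → P (c y, y) ∈ closure R := by
    intro c hc hcy y hy0 hy1
    have h2 : Continuous fun y => P (c y, y) := hPc.comp (hc.prodMk continuous_id)
    have h3 : y ∈ closure (Ico (0 : ℝ) h1) := by
      rw [closure_Ico h01.ne]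
      exact ⟨hy0, hy1⟩
    have h4 : (fun y => P (c y, y)) y ∈ closure ((fun y => P (c y, y)) '' Ico 0 h1) :=
      image_closure_subset_closure_image h2 ⟨y, h3, rfl⟩
    have h5 : closure ((fun y => P (c y, y)) '' Ico 0 h1) ⊆ closure R := by
      refine closure_minimal ?_ isClosed_closure
      rintro _ ⟨t, ⟨ht0, ht1⟩, rfl⟩
      exact hcy t ht0 ht1
    exact h5 h4
  have hclf : ∀ y, 0 ≤ y → y ≤ h1 → P (f y, y) ∈ closure R := by
    refine hcl f hf fun y hy0 hy1 => ?_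
    have h2 : Continuous fun t : ℝ => P (t, y) := hPc.comp (continuous_id.prodMk continuous_const)
    have h3 : f y ∈ closure (Ioo (f y) (g y)) := by
      rw [closure_Ioo (hlt y hy1).ne]
      exact ⟨le_rfl, (hlt y hy1).le⟩
    have h4 := image_closure_subset_closure_image h2 ⟨f y, h3, rfl⟩
    refine closure_mono ?_ h4
    rintro _ ⟨t, ⟨ht0, ht1⟩, rfl⟩
    rw [hR]
    refine ⟨(t, y), Or.inr ?_, rfl⟩
    rw [hU2]
    exact ⟨hy1, ht0, ht1⟩
  have hclg : ∀ y, 0 ≤ y → y ≤ h1 → P (g y, y) ∈ closure R := by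
    refine hcl g hg fun y hy0 hy1 => ?_
    have h2 : Continuous fun t : ℝ => P (t, y) := hPc.comp (continuous_id.prodMk continuous_const)
    have h3 : g y ∈ closure (Ioo (f y) (g y)) := by
      rw [closure_Ioo (hlt y hy1).ne]
      exact ⟨(hlt y hy1).le, le_rfl⟩
    have h4 := image_closure_subset_closure_image h2 ⟨g y, h3, rfl⟩
    refine closure_mono ?_ h4
    rintro _ ⟨t, ⟨ht0, ht1⟩, rfl⟩
    rw [hR]
    refine ⟨(t, y), Or.inr ?_, rfl⟩
    rw [hU2]
    exact ⟨hy1, ht0, ht1⟩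
  -- a closed set which contains `R`
  obtain ⟨K, hK⟩ : ∃ K : Set Cyl, K = P '' (mp f g '' (Icc 0 h1 ×ˢ Icc 0 1)) := ⟨_, rfl⟩
  have hKc : IsClosed K := by
    rw [hK]
    exact ((isCompact_Icc.prod isCompact_Icc).image (mp_continuous hf hg)).image hPc |>.isClosed
  have hRK : R ⊆ {p : Cyl | p.2 ≤ 0} ∪ K := by
    rw [hR]
    rintro _ ⟨⟨a, b⟩, h2, rfl⟩
    by_cases h7 : b < 0
    · left
      rw [hP]
      exact h7.le
    · right
      rcases h2 with h3 | h3
      · rw [hU1] at h3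
        exact absurd h3 h7
      · rw [hU2] at h3
        obtain ⟨h4, h5, h6⟩ := h3
        obtain ⟨θ, h8, h9, h10⟩ := mem_mp h5 h6
        rw [hK]
        exact ⟨(a, b), ⟨(b, θ), ⟨⟨not_lt.1 h7, le_of_lt h4⟩, h8.le, h9.le⟩, h10⟩, rfl⟩
  have hclR : closure R ⊆ {p : Cyl | p.2 ≤ 0} ∪ K :=
    closure_minimal hRK ((isClosed_le continuous_snd continuous_const).union hKc)
  -- the points of height `≤ 0`
  have hlow : ∀ p : Cyl, p.2 ≤ 0 → p ∈ R ∨ ∃ y ∈ Icc (0 : ℝ) h1, P (f y, y) = p := by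
    rintro ⟨c, b⟩ hb
    obtain ⟨t, rfl⟩ := QuotientAddGroup.mk_surjective c
    rcases lt_or_eq_of_le (show b ≤ 0 from hb) with h2 | h2
    · left
      rw [hR]
      refine ⟨(t, b), Or.inl ?_, ?_⟩
      · rw [hU1]
        exact h2
      · rw [hP]
        rfl
    · -- move `t` into `[m, m + 1)`
      obtain ⟨s, hs0, hs1, hst⟩ : ∃ s : ℝ, (m : ℝ) ≤ s ∧ s < m + 1 ∧ prj s b = prj t b := by
        refine ⟨t - ⌊t - m⌋, ?_, ?_, ?_⟩
        · have := Int.floor_le (t - m)
          linarith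
        · have := Int.lt_floor_add_one (t - m)
          linarith
        · rw [prj_eq]
          exact ⟨rfl, ⌊t - m⌋, by ring⟩
      have hst' : ((QuotientAddGroup.mk t : AddCircle (1 : ℝ)), b) = prj s b := hst.symm
      rw [hst']
      rcases lt_or_eq_of_le hs0 with h3 | h3
      · left
        rw [hR]
        refine ⟨(s, b), Or.inr ?_, by rw [hP]⟩
        rw [hU2]
        refine ⟨by show b < h1; linarith, ?_, ?_⟩
        · show f b < s
          rw [hf0 b hb]
          exact h3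
        · show s < g b
          rw [hg0 b hb]
          exact hs1
      · right
        refine ⟨0, ⟨le_rfl, h01.le⟩, ?_⟩
        rw [hP, h2]
        show prj (f 0) 0 = prj s 0
        rw [hf0 0 le_rfl, h3]
  have hKR : ∀ p ∈ K, p ∈ R ∨ (∃ y ∈ Icc (0 : ℝ) h1, P (f y, y) = p) ∨
      ∃ y ∈ Icc (0 : ℝ) h1, P (g y, y) = p := by
    rw [hK]
    rintro _ ⟨_, ⟨⟨b, θ⟩, ⟨hb, hθ⟩, rfl⟩, rfl⟩
    have hb' : b ∈ Icc 0 h1 := hb
    have hθ' : θ ∈ Icc (0 : ℝ) 1 := hθ
    rcases eq_or_lt_of_le hθ'.1 with h2 | h2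
    · right
      left
      refine ⟨b, hb', ?_⟩
      unfold mp
      rw [← h2]
      simp
    rcases eq_or_lt_of_le hθ'.2 with h3 | h3
    · right
      right
      refine ⟨b, hb', ?_⟩
      unfold mp
      rw [h3]
      simp
    rcases eq_or_lt_of_le hb'.2 with h4 | h4
    · right
      left
      refine ⟨b, hb', ?_⟩
      unfold mp
      simp only []
      rw [h4, ← he1]
      congr 2
      ring
    · left
      rw [hR]
      refine ⟨_, Or.inr ?_, rfl⟩
      rw [hU2']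
      exact ⟨(b, θ), ⟨h4, h2, h3⟩, rfl⟩
  -- the frontier of `R`
  have hDf : ∀ y, 0 ≤ y → y ≤ h1 → P (f y, y) ∈ D := fun y hy0 hy1 => by
    rw [hP]
    exact (hD y hy0 hy1).1
  have hDg : ∀ y, 0 ≤ y → y ≤ h1 → P (g y, y) ∈ D := fun y hy0 hy1 => by
    rw [hP]
    exact (hD y hy0 hy1).2
  have hfr : frontier R =
      (fun y => prj (f y) y) '' Icc 0 h1 ∪ (fun y => prj (g y) y) '' Icc 0 h1 := by
    have hPf : ∀ c : ℝ → ℝ, (fun y => prj (c y) y) = fun y => P (c y, y) := fun c => by rw [hP]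
    rw [hPf f, hPf g, hRo.frontier_eq]
    apply Subset.antisymm
    · rintro p ⟨h2, h3⟩
      rcases hclR h2 with h4 | h4
      · rcases hlow p h4 with h5 | ⟨y, hy, h5⟩
        · exact absurd h5 h3
        · exact Or.inl ⟨y, hy, h5⟩
      · rcases hKR p h4 with h5 | ⟨y, hy, h5⟩ | ⟨y, hy, h5⟩
        · exact absurd h5 h3
        · exact Or.inl ⟨y, hy, h5⟩
        · exact Or.inr ⟨y, hy, h5⟩
    · rintro p (⟨y, hy, rfl⟩ | ⟨y, hy, rfl⟩)
      · exact ⟨hclf y hy.1 hy.2, fun hc => Set.disjoint_left.1 hRd hc (hDf y hy.1 hy.2)⟩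
      · exact ⟨hclg y hy.1 hy.2, fun hc => Set.disjoint_left.1 hRd hc (hDg y hy.1 hy.2)⟩
  have hfD : frontier R ⊆ D := by
    rw [hfr]
    rintro p (⟨y, hy, rfl⟩ | ⟨y, hy, rfl⟩)
    · exact (hD y hy.1 hy.2).1
    · exact (hD y hy.1 hy.2).2
  have hpR : prj x h ∈ R := by
    rw [hR]
    refine ⟨(x, h), ?_, by rw [hP]⟩
    rcases hp with h2 | h2
    · left
      rw [hU1]
      exact h2
    · right
      rw [hU2]
      exact h2
  rw [component_eq hRo hRc hRd hfD hpR, hfr]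

end Pool.Agent.RS
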