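import Pool.Agent.RS.Region

/-!
# RS module RegionT: the region which contains the upper end of the cylinder
-/

set_option autoImplicit false

namespace Pool.Agent.RS

open Set

namespace RegionTAux

/-- the parametrised point between the two curves -/
private noncomputable def Phi (f g : ℝ → ℝ) (q : ℝ × ℝ) : Cyl :=
  prj ((1 - q.1) * f q.2 + q.1 * g q.2) q.2

private theorem Phi_continuous {f g : ℝ → ℝ} (hf : Continuous f) (hg : Continuous g) :
    Continuous (Phi f g) := by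
  unfold Phi
  exact prj_continuous.comp
    (((((continuous_const.sub continuous_fst).mul (hf.comp continuous_snd)).add
      (continuous_fst.mul (hg.comp continuous_snd)))).prodMk continuous_snd)

private theorem cyl_rep (p : Cyl) (m : ℤ) :
    ∃ x : ℝ, (m : ℝ) ≤ x ∧ x < m + 1 ∧ p = prj x p.2 := by
  obtain ⟨a, h⟩ := p
  obtain ⟨y, rfl⟩ := QuotientAddGroup.mk_surjective a
  refine ⟨m + Int.fract y, by linarith [Int.fract_nonneg y], by linarith [Int.fract_lt_one y], ?_⟩
  show prj y h = prj (m + Int.fract y) h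
  rw [prj_eq]
  refine ⟨rfl, m - ⌊y⌋, ?_⟩
  push_cast
  have := Int.self_sub_floor y
  linarith

end RegionTAux

open RegionTAux in
/-- the region which contains the upper end of the cylinder -/
theorem region_top {f g : ℝ → ℝ} {h0 n : ℝ} {m : ℤ} {D : Set Cyl} (hf : Continuous f)
    (hg : Continuous g) (h01 : h0 < n) (hf0 : ∀ h, n ≤ h → f h = m)
    (hg0 : ∀ h, n ≤ h → g h = m + 1)
    (hlt : ∀ h, h0 < h → f h < g h) (he0 : f h0 = g h0)
    (hD : ∀ h, h0 ≤ h → h ≤ n → prj (f h) h ∈ D ∧ prj (g h) h ∈ D)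
    (hdis : ∀ x h, h0 < h → h ≤ n → f h < x → x < g h → prj x h ∉ D)
    (hpos : ∀ x h : ℝ, n < h → prj x h ∉ D)
    {x h : ℝ} (hp : n < h ∨ (h0 < h ∧ f h < x ∧ x < g h)) :
    frontier (connectedComponentIn Dᶜ (prj x h)) =
      (fun y => prj (f y) y) '' Icc h0 n ∪ (fun y => prj (g y) y) '' Icc h0 n := by
  -- the two open pieces upstairs
  set U : Set (ℝ × ℝ) := {q | n < q.2 ∨ (h0 < q.2 ∧ f q.2 < q.1 ∧ q.1 < g q.2)} with hU
  set R : Set Cyl := (fun q : ℝ × ℝ => prj q.1 q.2) '' U with hR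
  set S : Set Cyl := (fun y => prj (f y) y) '' Icc h0 n ∪ (fun y => prj (g y) y) '' Icc h0 n
    with hS
  have hUo : IsOpen U := by
    have h1 : IsOpen {q : ℝ × ℝ | n < q.2} := isOpen_lt continuous_const continuous_snd
    have h2 : IsOpen {q : ℝ × ℝ | h0 < q.2} := isOpen_lt continuous_const continuous_snd
    have h3 : IsOpen {q : ℝ × ℝ | f q.2 < q.1} :=
      isOpen_lt (hf.comp continuous_snd) continuous_fst
    have h4 : IsOpen {q : ℝ × ℝ | q.1 < g q.2} :=
      isOpen_lt continuous_fst (hg.comp continuous_snd)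
    exact h1.union (h2.inter (h3.inter h4))
  have hRo : IsOpen R := prj_open U hUo
  have hSD : S ⊆ D := by
    rintro p (⟨y, hy, rfl⟩ | ⟨y, hy, rfl⟩)
    · exact (hD y hy.1 hy.2).1
    · exact (hD y hy.1 hy.2).2
  have hdisR : Disjoint R D := by
    rw [Set.disjoint_left]
    rintro p ⟨q, hq, rfl⟩
    rcases hq with hq | ⟨hq1, hq2, hq3⟩
    · exact hpos _ _ hq
    · by_cases hn : q.2 ≤ n
      · exact hdis _ _ hq1 hn hq2 hq3
      · exact hpos _ _ (not_le.mp hn)
  -- the part between the curves as an image of a rectangle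
  set P : Set (ℝ × ℝ) := Ioo 0 1 ×ˢ Ioi h0 with hP
  have hΦ : Continuous (Phi f g) := Phi_continuous hf hg
  have hPR : Phi f g '' P ⊆ R := by
    rintro p ⟨⟨θ, y⟩, ⟨⟨hθ0, hθ1⟩, hy⟩, rfl⟩
    simp only [mem_Ioi] at hθ0 hθ1 hy
    refine ⟨((1 - θ) * f y + θ * g y, y), Or.inr ⟨hy, ?_, ?_⟩, rfl⟩
    · have := hlt y hy
      show f y < (1 - θ) * f y + θ * g y
      nlinarith
    · have := hlt y hy
      show (1 - θ) * f y + θ * g y < g y
      nlinarith
  have hReq : R = Phi f g '' P ∪ (fun q : ℝ × ℝ => prj q.1 q.2) '' (univ ×ˢ Ioi n) := by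
    apply Subset.antisymm
    · rintro p ⟨q, hq, rfl⟩
      rcases hq with hq | ⟨hq1, hq2, hq3⟩
      · exact Or.inr ⟨q, ⟨mem_univ _, hq⟩, rfl⟩
      · refine Or.inl ⟨((q.1 - f q.2) / (g q.2 - f q.2), q.2), ⟨⟨?_, ?_⟩, hq1⟩, ?_⟩
        · exact div_pos (by linarith) (by linarith)
        · show (q.1 - f q.2) / (g q.2 - f q.2) < 1
          rw [div_lt_one (by linarith)]
          linarith
        · have hne : g q.2 - f q.2 ≠ 0 := by
            have : f q.2 < g q.2 := by linarith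
            linarith
          show prj _ _ = prj _ _
          congr 1
          show (1 - (q.1 - f q.2) / (g q.2 - f q.2)) * f q.2
            + (q.1 - f q.2) / (g q.2 - f q.2) * g q.2 = q.1
          field_simp
          ring
    · rintro p (hp' | ⟨q, hq, rfl⟩)
      · exact hPR hp'
      · exact ⟨q, Or.inl hq.2, rfl⟩
  have hconn : IsPreconnected R := by
    rw [hReq]
    have c1 : IsPreconnected (Phi f g '' P) :=
      (((convex_Ioo (0 : ℝ) 1).prod (convex_Ioi h0)).isPreconnected).image _ hΦ.continuousOn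
    have c2 : IsPreconnected ((fun q : ℝ × ℝ => prj q.1 q.2) '' (univ ×ˢ Ioi n)) :=
      ((convex_univ.prod (convex_Ioi n)).isPreconnected).image _ prj_continuous.continuousOn
    refine IsPreconnected.union (prj ((1 - 1 / 2) * f (n + 1) + 1 / 2 * g (n + 1)) (n + 1))
      ?_ ?_ c1 c2
    · refine ⟨(1 / 2, n + 1), ⟨⟨by norm_num, by norm_num⟩, ?_⟩, rfl⟩
      show h0 < n + 1
      linarith
    · refine ⟨((1 - 1 / 2) * f (n + 1) + 1 / 2 * g (n + 1), n + 1), ⟨mem_univ _, ?_⟩, rfl⟩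
      show n < n + 1
      linarith
  -- the closure
  have hSclos : S ⊆ closure R := by
    have hcl : Icc (0 : ℝ) 1 ×ˢ Ici h0 ⊆ closure P := by
      rw [hP, closure_prod_eq, closure_Ioo (by norm_num : (0 : ℝ) ≠ 1), closure_Ioi]
    have hmap : ∀ q ∈ closure P, Phi f g q ∈ closure R := fun q hq =>
      closure_mono hPR (image_closure_subset_closure_image hΦ ⟨q, hq, rfl⟩)
    rintro p (⟨y, hy, rfl⟩ | ⟨y, hy, rfl⟩)
    · have := hmap (0, y) (hcl ⟨⟨le_refl _, zero_le_one⟩, hy.1⟩)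
      simpa [Phi] using this
    · have := hmap (1, y) (hcl ⟨⟨zero_le_one, le_refl _⟩, hy.1⟩)
      simpa [Phi] using this
  have hclos : closure R ⊆ R ∪ S := by
    set K : Set Cyl := Phi f g '' (Icc (0 : ℝ) 1 ×ˢ Icc h0 n) with hK
    have hKc : IsClosed K := ((isCompact_Icc.prod isCompact_Icc).image hΦ).isClosed
    have hTc : IsClosed {p : Cyl | n ≤ p.2} := isClosed_le continuous_const continuous_snd
    have h1 : R ⊆ K ∪ {p : Cyl | n ≤ p.2} := by
      rw [hReq]
      rintro p (⟨⟨θ, y⟩, ⟨⟨hθ0, hθ1⟩, hy⟩, rfl⟩ | ⟨q, hq, rfl⟩)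
      · by_cases hn : y ≤ n
        · exact Or.inl ⟨(θ, y), ⟨⟨hθ0.le, hθ1.le⟩, ⟨le_of_lt hy, hn⟩⟩, rfl⟩
        · exact Or.inr (le_of_lt (not_le.mp hn))
      · refine Or.inr ?_
        show n ≤ q.2
        exact le_of_lt hq.2
    have h2 : closure R ⊆ K ∪ {p : Cyl | n ≤ p.2} :=
      closure_minimal h1 (hKc.union hTc)
    intro p hp'
    rcases h2 hp' with ⟨⟨θ, y⟩, ⟨⟨hθ0, hθ1⟩, ⟨hy0, hyn⟩⟩, rfl⟩ | hpn
    · simp only at hθ0 hθ1 hy0 hyn
      rcases eq_or_lt_of_le hy0 with hy | hy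
      · refine Or.inr (Or.inl ⟨h0, ⟨le_refl _, h01.le⟩, ?_⟩)
        subst hy
        show prj (f h0) h0 = prj ((1 - θ) * f h0 + θ * g h0) h0
        rw [← he0]
        congr 1
        ring
      rcases eq_or_lt_of_le hθ0 with h0' | h0'
      · refine Or.inr (Or.inl ⟨y, ⟨hy0, hyn⟩, ?_⟩)
        subst h0'
        show prj (f y) y = prj ((1 - 0) * f y + 0 * g y) y
        congr 1
        ring
      rcases eq_or_lt_of_le hθ1 with h1' | h1'
      · refine Or.inr (Or.inr ⟨y, ⟨hy0, hyn⟩, ?_⟩)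
        subst h1'
        show prj (g y) y = prj ((1 - 1) * f y + 1 * g y) y
        congr 1
        ring
      exact Or.inl (hPR ⟨(θ, y), ⟨⟨h0', h1'⟩, hy⟩, rfl⟩)
    · have hpn' : n ≤ p.2 := hpn
      obtain ⟨z, hz0, hz1, hz⟩ := cyl_rep p m
      rcases eq_or_lt_of_le hpn' with hn | hn
      · rcases eq_or_lt_of_le hz0 with hzm | hzm
        · refine Or.inr (Or.inl ⟨n, ⟨h01.le, le_refl _⟩, ?_⟩)
          rw [hz, ← hn, ← hzm]
          show prj (f n) n = prj (m : ℝ) n
          rw [hf0 n (le_refl _)]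
        · refine Or.inl ⟨(z, p.2), Or.inr ⟨?_, ?_, ?_⟩, hz.symm⟩
          · show h0 < p.2
            linarith
          · show f p.2 < z
            rw [hf0 _ hpn']
            exact hzm
          · show z < g p.2
            rw [hg0 _ hpn']
            exact hz1
      · exact Or.inl ⟨(z, p.2), Or.inl hn, hz.symm⟩
  have hfr : frontier R = S := by
    rw [hRo.frontier_eq]
    apply Subset.antisymm
    · rintro p ⟨hp1, hp2⟩
      rcases hclos hp1 with h' | h'
      · exact absurd h' hp2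
      · exact h'
    · intro p hp'
      exact ⟨hSclos hp', fun hpR => Set.disjoint_left.mp hdisR hpR (hSD hp')⟩
  have hpR : prj x h ∈ R := ⟨(x, h), hp, rfl⟩
  rw [component_eq hRo hconn hdisR (hfr ▸ hSD) hpR, hfr]

end Pool.Agent.RS
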