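import Pool.Agent.RS.CurvesB
import Pool.Agent.RS.RegionB
import Pool.Agent.RS.RegionT

/-!
# RS module AsmB: the faces of the drawing of a closed flag walk
-/

set_option autoImplicit false

namespace Pool.Agent.RS

section

variable {V : Type} {rk : V → ℕ} {Cov : V → V → Prop} {n N : ℕ} (F : FlagWalk rk Cov n N)

private theorem FlagWalk.asmB_H (i : ℤ) {r : ℕ} (hr : r < n) :
    F.H (F.ch i r) (F.ch i (r + 1)) := by
  refine ⟨i, ?_, ?_, ?_, ?_⟩
  · rw [F.rank i r hr.le, F.rank i (r + 1) hr]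
  · rw [F.rank i r hr.le]; exact hr
  · rw [F.rank i r hr.le]
  · rw [F.rank i (r + 1) hr]

private theorem FlagWalk.asmB_low (i : ℤ) {y : ℝ} (hy : y ≤ 0) : F.c i y = F.P i 0 := by
  unfold FlagWalk.c
  rw [if_pos hy]

private theorem FlagWalk.asmB_high (hn : 0 < n) (i : ℤ) {y : ℝ} (hy : (n : ℝ) ≤ y) :
    F.c i y = F.P i n := by
  unfold FlagWalk.c
  have h0 : (0 : ℝ) < n := by exact_mod_cast hn
  rw [if_neg (by linarith), if_pos hy]

private theorem FlagWalk.asmB_up {i j : ℤ} {r0 : ℕ} (hr : r0 ≤ n)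
    (h : ∀ r, r0 ≤ r → r ≤ n → F.P i r = F.P j r) {y : ℝ} (hy : (r0 : ℝ) ≤ y) :
    F.c i y = F.c j y := by
  unfold FlagWalk.c
  split_ifs with h1 h2
  · have h3 : (r0 : ℝ) ≤ 0 := hy.trans h1
    have h4 : r0 = 0 := by
      have : r0 ≤ 0 := by exact_mod_cast h3
      omega
    exact h 0 (by omega) (by omega)
  · exact h n hr le_rfl
  · push Not at h1 h2
    have h5 : r0 ≤ ⌊y⌋₊ := Nat.le_floor hy
    have h6 : ⌊y⌋₊ < n := (Nat.floor_lt h1.le).2 h2
    rw [h _ h5 h6.le, h _ (by omega) h6]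

private theorem FlagWalk.asmB_down {i j : ℤ} {r0 : ℕ} (hr : r0 < n)
    (h : ∀ r, r ≤ r0 → F.P i r = F.P j r) {y : ℝ} (hy : y ≤ (r0 : ℝ)) :
    F.c i y = F.c j y := by
  unfold FlagWalk.c
  have hrn : (r0 : ℝ) < n := by exact_mod_cast hr
  split_ifs with h1 h2
  · exact h 0 (by omega)
  · linarith
  · push Not at h1 h2
    have h5 : ⌊y⌋₊ ≤ r0 := by
      have := Nat.floor_mono hy
      rwa [Nat.floor_natCast] at this
    rcases Nat.lt_or_ge ⌊y⌋₊ r0 with h6 | h6
    · rw [h _ h5, h _ (by omega)]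
    · have h7 : ⌊y⌋₊ = r0 := le_antisymm h5 h6
      have h8 : y = r0 := by
        apply le_antisymm hy
        have := Nat.floor_le h1.le
        rw [h7] at this
        exact this
      rw [h7, h _ le_rfl, h8]
      simp

private theorem FlagWalk.asmB_mem (hN : 0 < N) (hn : 2 ≤ n) (i : ℤ) {y : ℝ} (h0 : 0 ≤ y)
    (h1 : y ≤ n) : prj (F.c i y) y ∈ drawing rk F.H F.x F.δ := by
  rw [F.drawing_eq hN hn]
  exact ⟨i, y, h0, h1, rfl⟩

private theorem FlagWalk.asmB_nmem (hN : 0 < N) (hn : 2 ≤ n) {j : ℤ} {x h : ℝ}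
    (h0 : F.c (j - 1) h < x) (h1 : x < F.c j h) : prj x h ∉ drawing rk F.H F.x F.δ := by
  rw [F.drawing_eq hN hn]
  rintro ⟨i, y, -, -, he⟩
  have hy : h = y := (prj_eq.1 he).1
  subst hy
  exact F.not_on hN hn h0 h1 i he

private theorem FlagWalk.asmB_neg (hN : 0 < N) (hn : 2 ≤ n) (x : ℝ) {h : ℝ}
    (hh : h < 0) : prj x h ∉ drawing rk F.H F.x F.δ := by
  rw [F.drawing_eq hN hn]
  rintro ⟨i, y, hy0, -, he⟩
  have hy : h = y := (prj_eq.1 he).1
  linarith

private theorem FlagWalk.asmB_pos (hN : 0 < N) (hn : 2 ≤ n) (x : ℝ) {h : ℝ}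
    (hh : (n : ℝ) < h) : prj x h ∉ drawing rk F.H F.x F.δ := by
  rw [F.drawing_eq hN hn]
  rintro ⟨i, y, -, hy0, he⟩
  have hy : h = y := (prj_eq.1 he).1
  linarith

private theorem FlagWalk.asmB_fin (hN : 0 < N) (hn : 3 ≤ n) (p : Cyl) (j : ℤ) (k : ℕ)
    (hk : F.ρ j = k + 1) (hkn : k + 2 ≤ n)
    (hf : frontier (connectedComponentIn (drawing rk F.H F.x F.δ)ᶜ p) =
      (fun y => prj (F.c (j - 1) y) y) '' Set.Icc (k : ℝ) (k + 2) ∪
        (fun y => prj (F.c j y) y) '' Set.Icc (k : ℝ) (k + 2)) :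
    ∃ a b c d, a ≠ c ∧ F.H b a ∧ F.H b c ∧ F.H a d ∧ F.H c d ∧
    rk a = rk b + 1 ∧ rk c = rk a ∧ rk d = rk a + 1 ∧
    frontier (connectedComponentIn (drawing rk F.H F.x F.δ)ᶜ p) =
      seg (F.x b) (rk b) (F.δ b a) ∪ seg (F.x b) (rk b) (F.δ b c) ∪
        seg (F.x a) (rk a) (F.δ a d) ∪ seg (F.x c) (rk c) (F.δ c d) := by
  have hb : F.ch j k = F.ch (j - 1) k := F.same j k (by omega)
  have hd : F.ch j (k + 1 + 1) = F.ch (j - 1) (k + 1 + 1) := F.same j (k + 1 + 1) (by omega)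
  have hac : F.ch j (k + 1) ≠ F.ch (j - 1) (k + 1) := by
    have := F.diff j
    rwa [hk] at this
  have hsplit : Set.Icc (k : ℝ) (k + 2) = Set.Icc (k : ℝ) (k + 1) ∪
      Set.Icc ((k + 1 : ℕ) : ℝ) ((k + 1 : ℕ) + 1) := by
    have : ((k + 1 : ℕ) : ℝ) + 1 = k + 2 := by push_cast; ring
    rw [this]
    push_cast
    rw [Set.Icc_union_Icc_eq_Icc (by linarith) (by linarith)]
  have s1 := F.seg_eq hN (by omega) (j - 1) (r := k) (by omega)
  have s2 := F.seg_eq hN (by omega) (j - 1) (r := k + 1) (by omega)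
  have s3 := F.seg_eq hN (by omega) j (r := k) (by omega)
  have s4 := F.seg_eq hN (by omega) j (r := k + 1) (by omega)
  refine ⟨F.ch (j - 1) (k + 1), F.ch j k, F.ch j (k + 1), F.ch j (k + 1 + 1), hac.symm, ?_,
    F.asmB_H j (by omega), ?_, F.asmB_H j (by omega), ?_, ?_, ?_, ?_⟩
  · rw [hb]; exact F.asmB_H (j - 1) (by omega)
  · rw [hd]; exact F.asmB_H (j - 1) (by omega)
  · rw [F.rank _ _ (by omega), F.rank _ _ (by omega)]
  · rw [F.rank _ _ (by omega), F.rank _ _ (by omega)]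
  · rw [F.rank _ _ (by omega), F.rank _ _ (by omega)]
  · rw [hf, s3, s4, hb, hd, s1, s2, hsplit, Set.image_union, Set.image_union]
    ext q
    simp only [Set.mem_union]
    tauto

/-- the face of step `j`: `a = ch (j-1) ρ`, `c = ch j ρ`, `b = ch j (ρ-1)`, `d = ch j (ρ+1)`. If the
end points of the two curves coincide: `region_generic`; if `P j 0 = P (j-1) 0 + 1` (then `ρ j = 1`,
and the upper end points coincide since `3 ≤ n`): `region_bottom`; if `P j n = P (j-1) n + 1`:
`region_top`. -/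
theorem FlagWalk.face (hN : 0 < N) (hn : 3 ≤ n) (p : Cyl) (hp : p ∉ drawing rk F.H F.x F.δ) :
    ∃ a b c d, a ≠ c ∧ F.H b a ∧ F.H b c ∧ F.H a d ∧ F.H c d ∧
    rk a = rk b + 1 ∧ rk c = rk a ∧ rk d = rk a + 1 ∧
    frontier (connectedComponentIn (drawing rk F.H F.x F.δ)ᶜ p) =
      seg (F.x b) (rk b) (F.δ b a) ∪ seg (F.x b) (rk b) (F.δ b c) ∪
        seg (F.x a) (rk a) (F.δ a d) ∪ seg (F.x c) (rk c) (F.δ c d) := by
  have hn2 : 2 ≤ n := by omega
  obtain ⟨xq, h⟩ := p
  obtain ⟨x, rfl⟩ := QuotientAddGroup.mk_surjective xq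
  change prj x h ∉ _ at hp
  change ∃ a b c d, a ≠ c ∧ F.H b a ∧ F.H b c ∧ F.H a d ∧ F.H c d ∧
    rk a = rk b + 1 ∧ rk c = rk a ∧ rk d = rk a + 1 ∧
    frontier (connectedComponentIn (drawing rk F.H F.x F.δ)ᶜ (prj x h)) =
      seg (F.x b) (rk b) (F.δ b a) ∪ seg (F.x b) (rk b) (F.δ b c) ∪
        seg (F.x a) (rk a) (F.δ a d) ∪ seg (F.x c) (rk c) (F.δ c d)
  obtain ⟨j, hj0, hj1⟩ := F.exists_between hN hn2 x h
  obtain ⟨hρ0, hρ1⟩ := F.ρpos j
  obtain ⟨k, hk⟩ : ∃ k, F.ρ j = k + 1 := ⟨F.ρ j - 1, by omega⟩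
  have hkn : k + 2 ≤ n := by omega
  have hkn' : (k : ℝ) + 2 ≤ n := by exact_mod_cast hkn
  have hk0 : (0 : ℝ) ≤ k := Nat.cast_nonneg k
  have hkr : (F.ρ j : ℝ) = k + 1 := by rw [hk]; push_cast; ring
  have hlt : F.c (j - 1) h < F.c j h := lt_of_le_of_lt hj0 hj1
  -- in the range of heights of the drawing the point lies strictly between
  have hstrict : 0 ≤ h → h ≤ n → F.c (j - 1) h < x := by
    intro h0 h1
    refine lt_of_le_of_ne hj0 ?_
    intro he
    apply hp
    rw [← he]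
    exact F.asmB_mem hN hn2 (j - 1) h0 h1
  obtain ⟨⟨m0, hm0⟩, hb⟩ := F.P_int hN hn2 (j - 1) (r := 0) (Or.inl rfl)
  obtain ⟨⟨m1, hm1⟩, ht⟩ := F.P_int hN hn2 (j - 1) (r := n) (Or.inr rfl)
  obtain ⟨-, hb⟩ := F.P_int hN hn2 j (r := 0) (Or.inl rfl)
  obtain ⟨-, ht⟩ := F.P_int hN hn2 j (r := n) (Or.inr rfl)
  -- positions which do not change
  have hsucc : ∀ r, r ≤ n → r ≠ F.ρ j → (r = 0 → F.ρ j ≠ 1) → (r = n → F.ρ j ≠ n - 1) →
      F.P j r = F.P (j - 1) r := fun r h1 h2 h3 h4 => F.P_succ hN h2 h3 h4 h1 hn2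
  rcases hb with hb | hb
  · rcases ht with ht | ht
    · -- generic
      have h0 : (k : ℝ) < h := by
        by_contra hcon
        push Not at hcon
        have := F.c_eq hN hn2 hb ht (h := h) (Or.inl (by rw [hkr]; linarith))
        linarith
      have h1 : h < (k : ℝ) + 2 := by
        by_contra hcon
        push Not at hcon
        have := F.c_eq hN hn2 hb ht (h := h) (Or.inr (by rw [hkr]; linarith))
        linarith
      apply F.asmB_fin hN hn (prj x h) j k hk hkn
      apply region_generic (F.c_cont (j - 1)) (F.c_cont j) (by linarith)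
      · intro y hy0 hy1
        exact F.c_lt hN hn2 (by rw [hkr]; linarith) (by rw [hkr]; linarith)
      · exact (F.c_eq hN hn2 hb ht (Or.inl (by rw [hkr]; linarith))).symm
      · exact (F.c_eq hN hn2 hb ht (Or.inr (by rw [hkr]; linarith))).symm
      · intro y hy0 hy1
        exact ⟨F.asmB_mem hN hn2 _ (by linarith) (by linarith),
          F.asmB_mem hN hn2 _ (by linarith) (by linarith)⟩
      · intro x' y hy0 hy1 hx0 hx1
        exact F.asmB_nmem hN hn2 hx0 hx1
      · exact h0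
      · exact h1
      · exact hstrict (by linarith) (by linarith)
      · exact hj1
    · -- top
      have hρ : F.ρ j = n - 1 := by
        by_contra hcon
        have := hsucc n le_rfl (by omega) (by omega) (fun _ => hcon)
        linarith
      have hkn1 : k + 2 = n := by omega
      have hkn2 : (k : ℝ) + 2 = n := by exact_mod_cast hkn1
      have heq : ∀ y : ℝ, y ≤ (k : ℝ) → F.c j y = F.c (j - 1) y := by
        intro y hy
        exact F.asmB_down (r0 := k) (by omega)
          (fun r hr => hsucc r (by omega) (by omega) (by omega) (by omega)) hy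
      have h0 : (k : ℝ) < h := by
        by_contra hcon
        push Not at hcon
        have := heq h hcon
        linarith
      apply F.asmB_fin hN hn (prj x h) j k hk hkn
      rw [hkn2]
      apply region_top (m := m1) (F.c_cont (j - 1)) (F.c_cont j) (by linarith)
      · intro y hy
        rw [F.asmB_high (by omega) _ hy, hm1]
      · intro y hy
        rw [F.asmB_high (by omega) _ hy, ht, hm1]
      · intro y hy0
        rcases le_or_gt (n : ℝ) y with hy | hy
        · rw [F.asmB_high (by omega) _ hy, F.asmB_high (by omega) _ hy, ht]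
          linarith
        · exact F.c_lt hN hn2 (by rw [hkr]; linarith) (by rw [hkr]; linarith)
      · exact (heq k le_rfl).symm
      · intro y hy0 hy1
        exact ⟨F.asmB_mem hN hn2 _ (by linarith) (by linarith),
          F.asmB_mem hN hn2 _ (by linarith) (by linarith)⟩
      · intro x' y hy0 hy1 hx0 hx1
        exact F.asmB_nmem hN hn2 hx0 hx1
      · intro x' y hy
        exact F.asmB_pos hN hn2 x' hy
      · rcases le_or_gt h (n : ℝ) with hy | hy
        · exact Or.inr ⟨h0, hstrict (by linarith) hy, hj1⟩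
        · exact Or.inl hy
  · -- bottom
    have hρ : F.ρ j = 1 := by
      by_contra hcon
      have := hsucc 0 (by omega) (by omega) (fun _ => hcon) (by omega)
      linarith
    have hk1 : k = 0 := by omega
    subst hk1
    have heq : ∀ y : ℝ, (2 : ℝ) ≤ y → F.c j y = F.c (j - 1) y := by
      intro y hy
      exact F.asmB_up (r0 := 2) (by omega)
        (fun r hr hr' => hsucc r hr' (by omega) (by omega) (by omega)) (by exact_mod_cast hy)
    have h1 : h < 2 := by
      by_contra hcon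
      push Not at hcon
      have := heq h hcon
      linarith
    have hn' : (2 : ℝ) ≤ n := by exact_mod_cast hn2
    apply F.asmB_fin hN hn (prj x h) j 0 hk hkn
    have e0 : ((0 : ℕ) : ℝ) = 0 := Nat.cast_zero
    rw [e0, zero_add]
    rw [e0] at hkr
    apply region_bottom (m := m0) (F.c_cont (j - 1)) (F.c_cont j) (by norm_num)
    · intro y hy
      rw [F.asmB_low _ hy, hm0]
    · intro y hy
      rw [F.asmB_low _ hy, hb, hm0]
    · intro y hy1
      rcases le_or_gt y 0 with hy | hy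
      · rw [F.asmB_low _ hy, F.asmB_low _ hy, hb]
        linarith
      · exact F.c_lt hN hn2 (by rw [hkr]; linarith) (by rw [hkr]; linarith)
    · exact (heq 2 le_rfl).symm
    · intro y hy0 hy1
      exact ⟨F.asmB_mem hN hn2 _ (by linarith) (by linarith),
        F.asmB_mem hN hn2 _ (by linarith) (by linarith)⟩
    · intro x' y hy0 hy1 hx0 hx1
      exact F.asmB_nmem hN hn2 hx0 hx1
    · intro x' y hy
      exact F.asmB_neg hN hn2 x' hy
    · rcases lt_or_ge h (0 : ℝ) with hy | hy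
      · exact Or.inl hy
      · exact Or.inr ⟨h1, hstrict hy (by linarith), hj1⟩

end

end Pool.Agent.RS
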