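import Pool.Agent.RS.AsmA
import Pool.Agent.RS.AsmB

/-!
# RS module Assemble: a closed flag walk gives a rhombic strip
-/

set_option autoImplicit false

namespace Pool.Agent.RS

section

variable {V : Type} {rk : V → ℕ} {Cov : V → V → Prop} {n N : ℕ} (F : FlagWalk rk Cov n N)

theorem AssembleAux.sub (u v : V) (h : F.H u v) : Cov u v := by
  obtain ⟨j, h1, h2, h3, h4⟩ := h
  have h5 := F.cov j (rk u) h2
  rw [← h1, h3, h4] at h5
  exact h5

include F in
theorem FlagWalk.rhombic (hN : 0 < N) (hn : 3 ≤ n) : Nonempty (RhombicStrip rk Cov) :=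
  ⟨{ H := F.H
     x := F.x
     δ := F.δ
     sub := AssembleAux.sub F
     ends := F.ends hN (by omega)
     inj := F.inj hN (by omega)
     cross := F.cross hN (by omega)
     face := F.face hN hn }⟩

end

end Pool.Agent.RS
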