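import Pool.Agent.RS.Phase

/-!
# RS: blocks of a configuration, facts, certificates: definitions
-/

set_option autoImplicit false

namespace Pool.Agent.RS

open Finset

/-- the positions of the blocks `(a, k)` in the list `bl` -/
def pos (bl : List (ℕ × ℕ)) : List ℕ := bl.flatMap (fun p => (List.range p.2).map (fun i => p.1 + i))

/-- the letters of the blocks -/
def segs (w : List ℕ) (bl : List (ℕ × ℕ)) : List (List ℕ) :=
  bl.map (fun p => (w.drop p.1).take p.2)

/-- rearrangement of every piece -/
def appT (t l : List (List ℕ)) : List (List ℕ) :=
  List.zipWith (fun τ m => τ.map (fun i => m.getD i 0)) t l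

/-- `bl` is a list of components from left to right (blocks of size `0` are allowed and mean
nothing) which contains all components of size `≥ 2` -/
structure Blk (Pi : Finset ℕ) (X : Fl) (bl : List (ℕ × ℕ)) : Prop where
  comp : ∀ p ∈ bl, 1 ≤ p.2 → IsComp Pi X p.1 p.2
  cover : ∀ b ∈ Pi, ∃ p ∈ bl, p.1 < b ∧ b < p.1 + p.2
  sorted : bl.Pairwise (fun p q => p.1 + p.2 ≤ q.1)

/-- a fact: for configurations with the components `ks` (sizes, from left to right), the bottom bar
of the start of class `cls` (`none`: an ε-bar; `some b`: the bar with label `b`, i.e. the bar before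
the `b`-th letter of the components) one can end with the arrangement `t` of the letters of the
components (indices into the arrangement of the start) and the bar with label `tp` on the top -/
structure Fact where
  ks : List ℕ
  cls : Option ℕ
  t : List (List ℕ)
  tp : ℕ
  five : Bool
deriving DecidableEq

/-- class of the bottom bar -/
def Cls (Pi : Finset ℕ) (X : Fl) (bl : List (ℕ × ℕ)) : Option ℕ → Prop
  | none => HeadEps Pi X
  | some b => X.s.head? = some ((pos bl).getD b 0)

/-- the fact is true for configurations with at least `D` bars, with prescribed lowest bars -/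
def HoldsAt (D : ℕ) (f : Fact) : Prop :=
  ∀ (Pi : Finset ℕ) (X : Fl) (bl : List (ℕ × ℕ)), Good Pi X → Blk Pi X bl →
    bl.map Prod.snd = f.ks → D ≤ X.s.length → Pi.card < X.s.length → Cls Pi X bl f.cls →
    ∀ low, Low Pi X low →
      ∃ Y, Strip Pi X Y ∧ low <+: Y.s ∧ segs Y.w bl = appT f.t (segs X.w bl) ∧
        Y.s.getLast? = some ((pos bl).getD f.tp 0)

/-- labels with a movable bar, for the sizes `ks` of the components, starting at `off` -/
def movL : ℕ → List ℕ → List ℕ
  | _, [] => []
  | off, k :: ks => (List.range (k - 1)).map (fun i => off + 1 + i) ++ movL (off + k) ks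

/-- well formed facts -/
def okF (f : Fact) : Bool :=
  (f.ks.all (fun k => decide (2 ≤ k))) && (f.t.map List.length == f.ks) &&
  f.t.all (fun τ => (List.range τ.length).all (fun i => τ.contains i)) &&
  (movL 0 f.ks).contains f.tp &&
  (match f.cls with
    | none => true
    | some b => (movL 0 f.ks).contains b)

/-- the fact is well formed and true (for at least five bars if `f.five`) -/
def Holds (f : Fact) : Prop := okF f = true ∧ HoldsAt (if f.five then 5 else 6) f

/-- apply the words of a fact to the pieces of size `≥ 2` -/
def appF : List (List ℕ) → List (List ℕ) → List (List ℕ)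
  | _, [] => []
  | t, p :: ps => if p.length < 2 then p :: appF t ps else
      match t with
      | [] => p :: appF [] ps
      | τ :: t' => (τ.map (fun i => p.getD i 0)) :: appF t' ps

/-- sizes of the pieces of size `≥ 2` -/
def sizes2 (P : List (List ℕ)) : List ℕ := (P.map List.length).filter (fun k => 2 ≤ k)

/-- code of a set of indices -/
def mask (A : List ℕ) : ℕ := (A.map (fun i => 2 ^ i)).sum

/-- state of a path check: pieces (the pieces `p` and `p + 1` are the letters before and after `z`),
codes of the visited sets, first phase?, was the last transition of type L? -/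
structure PS where
  P : List (List ℕ)
  vis : List ℕ
  first : Bool
  lastL : Bool

/-- the fact `f` may be used in the present phase -/
def usable (c1 : Option ℕ) (s : PS) (f : Fact) : Bool :=
  (f.ks == sizes2 s.P) && (if s.first then f.cls == c1 else (f.cls == none && f.five))

/-- transition U at the end of the phase -/
def stepU (p : ℕ) (c1 : Option ℕ) (fr : Bool) (s : PS) (f : Fact) : Option PS :=
  let ok : Bool := if sizes2 s.P == [] then !(s.lastL || (s.first && fr)) else usable c1 s f
  if ok then
    let P' := if sizes2 s.P == [] then s.P else appF f.t s.P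
    match P'.getD (p + 1) [] with
    | [] => none
    | x :: B =>
      let A := P'.getD p [] ++ [x]
      if s.vis.contains (mask A) then none
      else some ⟨(P'.set p A).set (p + 1) B, mask A :: s.vis, false, false⟩
  else none

/-- transition L at the end of the phase -/
def stepL (p q : ℕ) (c1 : Option ℕ) (s : PS) (f : Fact) : Option PS :=
  if usable c1 s f then
    let P' := appF f.t s.P
    let A := P'.getD p []
    if 2 ≤ A.length ∧ f.tp = q + (A.length - 1) then
      if s.vis.contains (mask A.dropLast) then none
      else some ⟨(P'.set p A.dropLast).set (p + 1) (A.getLastD 0 :: P'.getD (p + 1) []),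
        mask A.dropLast :: s.vis, false, true⟩
    else none
  else none

/-- the path; `(true, f)`: transition U -/
def runP (p q : ℕ) (c1 : Option ℕ) (fr : Bool) : List (Bool × Fact) → PS → Option PS
  | [], s => some s
  | (b, f) :: l, s =>
    match (if b then stepU p c1 fr s f else stepL p q c1 s f) with
    | none => none
    | some s' => runP p q c1 fr l s'

/-- start of the path for the component with index `K` -/
def initP (ks : List ℕ) (K : ℕ) : PS :=
  ⟨(ks.take K).map List.range ++ ([] :: (List.range (ks.getD K 0)).tail ::
    (ks.drop (K + 1)).map List.range), [0], true, false⟩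

/-- class of the bottom bar in the first phase -/
def subCls (q k : ℕ) : Option ℕ → Option ℕ
  | none => none
  | some b => if b < q then some b else if b = q + 1 then none else if b < q + k then some (b - 1)
      else some (b - (if k = 2 then 2 else 1))

/-- last phase: final arrangement of the whole component `z = 0` -/
def glue (p : ℕ) (P : List (List ℕ)) : List (List ℕ) :=
  P.take p ++ ((P.getD p [] ++ 0 :: P.getD (p + 1) []) :: P.drop (p + 2))

/-- the complete check of a derivation -/
def checkP (f : Fact) (K : ℕ) (l : List (Bool × Fact)) (fin : Fact) : Bool :=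
  let k := f.ks.getD K 0
  let q := (f.ks.take K).sum
  decide (2 ≤ k) && (f.ks.all (fun k => decide (2 ≤ k))) &&
  match runP K q (subCls q k f.cls) (f.cls == some (q + 1)) l (initP f.ks K) with
  | none => false
  | some s => (s.vis.length == 2 ^ (k - 1)) && !s.first &&
      (if sizes2 s.P == [] then (s.lastL && (glue K s.P == f.t))
       else (usable none s fin && (glue K (appF fin.t s.P) == f.t))) &&
      (f.tp == q + (s.P.getD K []).length)

/-- mirrored words -/
def mirT (t : List (List ℕ)) : List (List ℕ) :=
  t.reverse.map (fun τ => τ.reverse.map (fun i => τ.length - 1 - i))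

/-- mirrored fact -/
def mirF (f : Fact) : Fact :=
  ⟨f.ks.reverse, f.cls.map (fun b => f.ks.sum - b), mirT f.t, f.ks.sum - f.tp, f.five⟩

/-- a fact of the data base `db`: `c = (64 * group + index) * 2 + type` -/
def lookup (db : List (List Fact)) (c : ℕ) : Bool × Fact :=
  (c % 2 == 1, (db.getD (c / 128) []).getD (c / 2 % 64) ⟨[], none, [], 0, false⟩)

/-- `n` steps of a path, digits base `2 ^ 13` -/
def stepsD (db : List (List Fact)) : ℕ → ℕ → List (Bool × Fact)
  | 0, _ => []
  | n + 1, c => lookup db (c % 8192) :: stepsD db n (c / 8192)

/-- a derivation: mirrored?, index of the component, number of steps, steps, last fact -/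
structure Der where
  mir : Bool
  K : ℕ
  n : ℕ
  code : ℕ
  fin : ℕ

def checkD (db : List (List Fact)) (f : Fact) (d : Der) : Bool :=
  okF f && checkP (if d.mir then mirF f else f) d.K (stepsD db d.n d.code) (lookup db d.fin).2

/-- all lists of numbers `≥ 2` with `∑ (k - 1) = V` -/
def compsL : ℕ → ℕ → List (List ℕ)
  | _, 0 => [[]]
  | 0, _ => []
  | n + 1, V => (List.range V).flatMap (fun f => (compsL n (V - (f + 1))).map (fun l => (f + 2) :: l))

/-- the facts `fs` give all prescribed ends for the sizes `ks` and the class `c` -/
def reqOK (fs : List Fact) (ks : List ℕ) (c : Option ℕ) : Bool :=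
  (List.range ks.length).all (fun j =>
    (List.range (ks.getD j 0)).all (fun x => fs.any (fun f =>
      (f.ks == ks) && (f.cls == c) && ((f.t.getD j []).getD 0 0 == x))) &&
    (List.range (ks.getD j 0 - 1)).all (fun y => fs.any (fun f =>
      (f.ks == ks) && (f.cls == c) && ((f.t.getD j []).getD (ks.getD j 0 - 1) 0 == y) &&
      ((f.t.getD j []).getD (ks.getD j 0 - 2) 0 == ks.getD j 0 - 1) &&
      (f.tp == (ks.take j).sum + (ks.getD j 0 - 1)))))

end Pool.Agent.RS
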