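import Pool.Agent.RS.Blk

/-!
# RS module BlkA: blocks of a configuration
-/

set_option autoImplicit false

namespace Pool.Agent.RS

open Finset

namespace BlkAAux

/-- the set of the bars inside the blocks -/
def U : List (ℕ × ℕ) → Finset ℕ
  | [] => ∅
  | p :: l => Finset.Ioo p.1 (p.1 + p.2) ∪ U l

theorem mem_U {l : List (ℕ × ℕ)} {b : ℕ} : b ∈ U l ↔ ∃ p ∈ l, p.1 < b ∧ b < p.1 + p.2 := by
  induction l with
  | nil => simp [U]
  | cons p l ih =>
    rw [U, Finset.mem_union, ih, Finset.mem_Ioo]
    constructor
    · rintro (h | ⟨q, hq, h⟩)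
      · exact ⟨p, List.mem_cons_self, h⟩
      · exact ⟨q, List.mem_cons_of_mem _ hq, h⟩
    · rintro ⟨q, hq, h⟩
      rcases List.mem_cons.1 hq with rfl | hq
      · exact Or.inl h
      · exact Or.inr ⟨q, hq, h⟩

theorem card_U {l : List (ℕ × ℕ)} (h : l.Pairwise (fun p q => p.1 + p.2 ≤ q.1)) :
    (U l).card = (l.map (fun p => p.2 - 1)).sum := by
  induction l with
  | nil => rfl
  | cons p l ih =>
    rw [List.pairwise_cons] at h
    rw [U, Finset.card_union_of_disjoint, ih h.2, List.map_cons, List.sum_cons, Nat.card_Ioo]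
    · congr 1
      omega
    · rw [Finset.disjoint_left]
      intro b hb hb'
      rw [Finset.mem_Ioo] at hb
      obtain ⟨q, hq, hq1, _⟩ := mem_U.1 hb'
      have := h.1 q hq
      omega

theorem pos_cons {p : ℕ × ℕ} {l : List (ℕ × ℕ)} :
    pos (p :: l) = (List.range p.2).map (fun i => p.1 + i) ++ pos l := by
  unfold pos
  rw [List.flatMap_cons]

theorem mem_pos {l : List (ℕ × ℕ)} {x : ℕ} :
    x ∈ pos l ↔ ∃ p ∈ l, p.1 ≤ x ∧ x < p.1 + p.2 := by
  unfold pos
  rw [List.mem_flatMap]
  constructor
  · rintro ⟨p, hp, hx⟩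
    obtain ⟨i, hi, rfl⟩ := List.mem_map.1 hx
    rw [List.mem_range] at hi
    exact ⟨p, hp, by omega, by omega⟩
  · rintro ⟨p, hp, h1, h2⟩
    refine ⟨p, hp, List.mem_map.2 ⟨x - p.1, ?_, by omega⟩⟩
    rw [List.mem_range]
    omega

theorem pos_nodup {l : List (ℕ × ℕ)} (h : l.Pairwise (fun p q => p.1 + p.2 ≤ q.1)) :
    (pos l).Nodup := by
  induction l with
  | nil => exact List.nodup_nil
  | cons p l ih =>
    rw [List.pairwise_cons] at h
    rw [pos_cons, List.nodup_append]
    refine ⟨?_, ih h.2, ?_⟩
    · refine List.Nodup.map (fun i j hij => ?_) List.nodup_range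
      simpa using hij
    · intro x hx y hy hxy
      subst hxy
      obtain ⟨i, hi, rfl⟩ := List.mem_map.1 hx
      rw [List.mem_range] at hi
      obtain ⟨q, hq, hq1, _⟩ := mem_pos.1 hy
      have := h.1 q hq
      omega

theorem mem_movL {ks : List ℕ} : ∀ {off b : ℕ},
    b ∈ movL off ks ↔ ∃ c i, i ≠ 0 ∧ i < ks.getD c 0 ∧ b = off + (ks.take c).sum + i := by
  induction ks with
  | nil =>
    intro off b
    simp [movL]
  | cons k ks ih =>
    intro off b
    rw [movL, List.mem_append, ih, List.mem_map]
    constructor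
    · rintro (⟨i, hi, rfl⟩ | ⟨c, i, h0, hi, rfl⟩)
      · rw [List.mem_range] at hi
        refine ⟨0, i + 1, by omega, ?_, ?_⟩
        · rw [List.getD_cons_zero]
          omega
        · simp only [List.take_zero, List.sum_nil]
          omega
      · refine ⟨c + 1, i, h0, ?_, ?_⟩
        · rw [List.getD_cons_succ]
          exact hi
        · rw [List.take_succ_cons, List.sum_cons]
          omega
    · rintro ⟨c, i, h0, hi, rfl⟩
      cases c with
      | zero =>
        left
        rw [List.getD_cons_zero] at hi
        refine ⟨i - 1, ?_, ?_⟩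
        · rw [List.mem_range]
          omega
        · simp only [List.take_zero, List.sum_nil]
          omega
      | succ c =>
        right
        rw [List.getD_cons_succ] at hi
        refine ⟨c, i, h0, hi, ?_⟩
        rw [List.take_succ_cons, List.sum_cons]
        omega

end BlkAAux

section

variable {Pi : Finset ℕ} {X Y X' : Fl} {bl : List (ℕ × ℕ)}

/-- every configuration has a list of blocks of sizes `≥ 2` (from `exists_comp`) -/
theorem exists_blk (g : Good Pi X) : ∃ bl, Blk Pi X bl ∧ ∀ p ∈ bl, 2 ≤ p.2 := by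
  have key : ∀ m : ℕ, ∃ bl : List (ℕ × ℕ),
      (∀ p ∈ bl, IsComp Pi X p.1 p.2 ∧ 2 ≤ p.2 ∧ p.1 < m) ∧
      (∀ a k, IsComp Pi X a k → 2 ≤ k → a < m → (a, k) ∈ bl) ∧
      bl.Pairwise (fun p q => p.1 + p.2 ≤ q.1) := by
    intro m
    induction m with
    | zero => exact ⟨[], by simp, by intro a k _ _ h; omega, List.Pairwise.nil⟩
    | succ m ih =>
      obtain ⟨bl, h1, h2, h3⟩ := ih
      by_cases hm : ∃ k, IsComp Pi X m k ∧ 2 ≤ k
      · obtain ⟨k, hk, hk2⟩ := hm
        refine ⟨bl ++ [(m, k)], ?_, ?_, ?_⟩
        · intro p hp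
          rcases List.mem_append.1 hp with hp | hp
          · obtain ⟨a1, a2, a3⟩ := h1 p hp
            exact ⟨a1, a2, by omega⟩
          · rw [List.mem_singleton] at hp
            subst hp
            exact ⟨hk, hk2, by simp⟩
        · intro a k' hk' hk2' ha
          rcases Nat.lt_or_ge a m with ham | ham
          · exact List.mem_append_left _ (h2 a k' hk' hk2' ham)
          · have ham' : a = m := by omega
            subst ham'
            have := comp_unique g hk' hk
            subst this
            exact List.mem_append_right _ (List.mem_singleton_self _)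
        · rw [List.pairwise_append]
          refine ⟨h3, List.pairwise_singleton _ _, ?_⟩
          intro p hp q hq
          rw [List.mem_singleton] at hq
          subst hq
          obtain ⟨a1, a2, a3⟩ := h1 p hp
          by_contra hcon
          have hcon' : m < p.1 + p.2 := by
            simpa using hcon
          exact hk.left (a1.mem m a3 hcon')
      · refine ⟨bl, ?_, ?_, h3⟩
        · intro p hp
          obtain ⟨a1, a2, a3⟩ := h1 p hp
          exact ⟨a1, a2, by omega⟩
        · intro a k' hk' hk2' ha
          rcases Nat.lt_or_ge a m with ham | ham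
          · exact h2 a k' hk' hk2' ham
          · have ham' : a = m := by omega
            subst ham'
            exact absurd ⟨k', hk', hk2'⟩ hm
  obtain ⟨bl, h1, h2, h3⟩ := key X.w.length
  refine ⟨bl, ⟨fun p hp _ => (h1 p hp).1, ?_, h3⟩, fun p hp => (h1 p hp).2.1⟩
  intro b hb
  obtain ⟨a, k, hc, hab, hbk⟩ := exists_comp g hb
  have hlt := g.lt b (g.sub b hb)
  exact ⟨(a, k), h2 a k hc (by omega) (by omega), hab, hbk⟩

theorem Blk.filter (hb : Blk Pi X bl) : Blk Pi X (bl.filter (fun p => 2 ≤ p.2)) := by
  refine ⟨?_, ?_, ?_⟩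
  · intro p hp h1
    exact hb.comp p (List.mem_of_mem_filter hp) h1
  · intro b hbP
    obtain ⟨p, hp, h1, h2⟩ := hb.cover b hbP
    refine ⟨p, List.mem_filter.2 ⟨hp, ?_⟩, h1, h2⟩
    simp only [decide_eq_true_eq]
    omega
  · exact hb.sorted.sublist List.filter_sublist

theorem Blk.same (hb : Blk Pi X bl) (h : Same Pi X Y) : Blk Pi Y bl := by
  refine ⟨?_, hb.cover, hb.sorted⟩
  intro p hp h1
  have c := hb.comp p hp h1
  refine ⟨c.one, ?_, c.left, c.right, c.mem⟩
  rw [h.w.length_eq]
  exact c.le

theorem Blk.card (hb : Blk Pi X bl) : (bl.map (fun p => p.2 - 1)).sum = Pi.card := by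
  rw [← BlkAAux.card_U hb.sorted]
  congr 1
  ext b
  rw [BlkAAux.mem_U]
  constructor
  · rintro ⟨p, hp, h1, h2⟩
    exact (hb.comp p hp (by omega)).mem b h1 h2
  · intro h
    exact hb.cover b h

theorem Blk.mem_of_comp (g : Good Pi X) (hb : Blk Pi X bl) {a k : ℕ} (c : IsComp Pi X a k)
    (hk : 2 ≤ k) : (a, k) ∈ bl := by
  obtain ⟨p, hp, h1, h2⟩ := hb.cover (a + 1) (c.mem (a + 1) (by omega) (by omega))
  have cp := hb.comp p hp (by omega)
  have hpa : p.1 = a := by
    by_contra hne
    exact c.left (cp.mem a (by omega) (by omega))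
  obtain ⟨p1, p2⟩ := p
  simp only at hpa cp
  subst hpa
  have := comp_unique g cp c
  subst this
  exact hp

theorem Blk.pos_nodup (hb : Blk Pi X bl) : (pos bl).Nodup := BlkAAux.pos_nodup hb.sorted

/-- positions are positions of letters -/
theorem Blk.pos_lt (hb : Blk Pi X bl) {p : ℕ} (hp : p ∈ pos bl) : p < X.w.length := by
  obtain ⟨q, hq, h1, h2⟩ := BlkAAux.mem_pos.1 hp
  have := (hb.comp q hq (by omega)).le
  omega

theorem pos_length : (pos bl).length = (bl.map Prod.snd).sum := by
  induction bl with
  | nil => rfl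
  | cons p l ih =>
    rw [BlkAAux.pos_cons, List.length_append, ih, List.length_map, List.length_range,
      List.map_cons, List.sum_cons]

/-- the `i`-th position of the block with index `c` -/
theorem pos_getD {c i a k : ℕ} (hc : bl[c]? = some (a, k)) (hi : i < k) :
    (pos bl).getD (((bl.take c).map Prod.snd).sum + i) 0 = a + i := by
  induction bl generalizing c with
  | nil => simp at hc
  | cons p l ih =>
    rw [BlkAAux.pos_cons]
    cases c with
    | zero =>
      simp only [List.getElem?_cons_zero, Option.some.injEq] at hc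
      subst hc
      rw [List.take_zero, List.map_nil, List.sum_nil, Nat.zero_add,
        List.getD_append _ _ _ _ (by rw [List.length_map, List.length_range]; exact hi)]
      rw [List.getD_eq_getElem?_getD, List.getElem?_map, List.getElem?_range hi]
      rfl
    | succ c =>
      rw [List.getElem?_cons_succ] at hc
      rw [List.take_succ_cons, List.map_cons, List.sum_cons,
        List.getD_append_right _ _ _ _ (by rw [List.length_map, List.length_range]; omega),
        List.length_map, List.length_range,
        show p.2 + ((l.take c).map Prod.snd).sum + i - p.2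
          = ((l.take c).map Prod.snd).sum + i by omega]
      exact ih hc

/-- the `i`-th letter of the block with index `c` -/
theorem segs_getElem {w : List ℕ} {c i a k : ℕ} (hc : bl[c]? = some (a, k)) (hi : i < k)
    (hw : a + k ≤ w.length) : ((segs w bl).getD c []).getD i 0 = w.getD (a + i) 0 := by
  have h1 : (segs w bl).getD c [] = (w.drop a).take k := by
    unfold segs
    rw [List.getD_eq_getElem?_getD, List.getElem?_map, hc]
    rfl
  rw [h1, List.getD_eq_getElem?_getD, List.getElem?_take_of_lt hi, List.getElem?_drop,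
    List.getD_eq_getElem?_getD]

theorem segs_length {w : List ℕ} (hw : ∀ p ∈ bl, p.1 + p.2 ≤ w.length) :
    (segs w bl).map List.length = bl.map Prod.snd := by
  unfold segs
  rw [List.map_map]
  apply List.map_congr_left
  intro p hp
  have := hw p hp
  simp only [Function.comp, List.length_take, List.length_drop]
  omega

/-- the labels of the bars inside the components -/
theorem mem_movL {ks : List ℕ} {b : ℕ} :
    b ∈ movL 0 ks ↔ ∃ c i, i ≠ 0 ∧ i < ks.getD c 0 ∧ b = (ks.take c).sum + i := by
  rw [BlkAAux.mem_movL]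
  simp only [Nat.zero_add]

end

end Pool.Agent.RS
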