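import Pool.Agent.RS.BlkA

/-!
# RS module BlkL: blocks in a phase
-/

set_option autoImplicit false

namespace Pool.Agent.RS

open Finset

section

variable {Pi : Finset ℕ} {X Y X' : Fl} {bl : List (ℕ × ℕ)}

/-- the bars of `Pi` are the positions of the labels in `movL` (for `Pi`-components of size `≥ 2`
and other blocks of size `≥ 1`) -/
theorem mem_Pi_iff (hb : Blk Pi X bl) {b : ℕ} :
    b ∈ Pi ↔ ∃ m ∈ movL 0 (bl.map Prod.snd), b = (pos bl).getD m 0 := by
  have hget : ∀ {c a k : ℕ}, bl[c]? = some (a, k) → (bl.map Prod.snd).getD c 0 = k := by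
    intro c a k hc
    rw [List.getD_eq_getElem?_getD, List.getElem?_map, hc]
    rfl
  constructor
  · intro hbP
    obtain ⟨p, hp, h1, h2⟩ := hb.cover b hbP
    obtain ⟨c, hc⟩ := List.mem_iff_getElem?.1 hp
    obtain ⟨a, k⟩ := p
    simp only at h1 h2
    refine ⟨((bl.map Prod.snd).take c).sum + (b - a), mem_movL.2 ⟨c, b - a, by omega, ?_, rfl⟩, ?_⟩
    · rw [hget hc]
      omega
    · rw [← List.map_take, pos_getD hc (by omega)]
      omega
  · rintro ⟨m, hm, rfl⟩
    obtain ⟨c, i, h0, hi, rfl⟩ := mem_movL.1 hm
    cases hc : bl[c]? with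
    | none =>
      rw [List.getD_eq_getElem?_getD, List.getElem?_map, hc] at hi
      exact absurd hi (Nat.not_lt_zero _)
    | some p =>
      obtain ⟨a, k⟩ := p
      rw [hget hc] at hi
      rw [← List.map_take, pos_getD hc hi]
      exact (hb.comp (a, k) (List.mem_of_getElem? hc) (by simp only; omega)).mem _ (by simp only; omega)
        (by simp only; omega)

/-- blocks in a phase of the component with index `K` -/
def subBl (bl : List (ℕ × ℕ)) (K n : ℕ) : List (ℕ × ℕ) :=
  bl.take K ++ (((bl.getD K (0, 0)).1, n) ::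
    ((bl.getD K (0, 0)).1 + n + 1, (bl.getD K (0, 0)).2 - 1 - n) :: bl.drop (K + 1))

theorem Blk.phase (g : Good Pi X) (hb : Blk Pi X bl) {K a k z : ℕ} (hK : bl[K]? = some (a, k))
    (hk : 1 ≤ k) {A : Finset ℕ} (hp : PhaseAt Pi X a k z A X') :
    Blk (subPi Pi a A.card) X' (subBl bl K A.card) := by
  have hlen : X'.w.length = X.w.length := hp.same.w.length_eq
  have hlt := hp.lt
  have hgetD : bl.getD K (0, 0) = (a, k) := by
    rw [List.getD_eq_getElem?_getD, hK]
    rfl
  obtain ⟨hKl, hKe⟩ := List.getElem?_eq_some_iff.1 hK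
  have hsplit : bl = bl.take K ++ (a, k) :: bl.drop (K + 1) := by
    conv_lhs => rw [← List.take_append_drop K bl]
    rw [List.drop_eq_getElem_cons hKl, hKe]
  have hsub : subBl bl K A.card = bl.take K ++ ((a, A.card) :: (a + A.card + 1, k - 1 - A.card) ::
      bl.drop (K + 1)) := by
    unfold subBl
    rw [hgetD]
  generalize bl.take K = L at hsplit hsub
  generalize bl.drop (K + 1) = R at hsplit hsub
  rw [hsub]
  subst hsplit
  set n := A.card with hn
  have hc : IsComp Pi X a k := hb.comp (a, k) (by simp) hk
  have hs := hb.sorted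
  rw [List.pairwise_append, List.pairwise_cons] at hs
  obtain ⟨s1, ⟨s2, s3⟩, s4⟩ := hs
  have hmem : ∀ b, b ∈ subPi Pi a n ↔ b ≠ a + n + 1 ∧ b ≠ a + n ∧ b ∈ Pi := by
    intro b
    unfold subPi
    rw [Finset.mem_erase, Finset.mem_erase]
  refine ⟨?_, ?_, ?_⟩
  · intro p hp' h1
    rw [List.mem_append, List.mem_cons, List.mem_cons] at hp'
    rcases hp' with h | h | h | h
    · have c := hb.comp p (by simp [h]) h1
      have h2 := s4 p h (a, k) (by simp)
      simp only at h2
      refine ⟨c.one, by rw [hlen]; exact c.le, ?_, ?_, ?_⟩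
      · rw [hmem]
        exact fun h => c.left h.2.2
      · rw [hmem]
        exact fun h => c.right h.2.2
      · intro b hb1 hb2
        rw [hmem]
        exact ⟨by omega, by omega, c.mem b hb1 hb2⟩
    · subst h
      simp only at h1
      have := hc.le
      refine ⟨h1, by rw [hlen]; simp only; omega, ?_, ?_, ?_⟩
      · rw [hmem]
        exact fun h => hc.left h.2.2
      · rw [hmem]
        exact fun h => h.2.1 rfl
      · intro b hb1 hb2
        rw [hmem]
        simp only at hb1 hb2
        exact ⟨by omega, by omega, hc.mem b hb1 (by omega)⟩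
    · subst h
      simp only at h1
      have := hc.le
      refine ⟨h1, by rw [hlen]; simp only; omega, ?_, ?_, ?_⟩
      · rw [hmem]
        exact fun h => h.1 rfl
      · rw [hmem]
        intro h
        apply hc.right
        have he : a + n + 1 + (k - 1 - n) = a + k := by omega
        simp only [he] at h
        exact h.2.2
      · intro b hb1 hb2
        rw [hmem]
        simp only at hb1 hb2
        exact ⟨by omega, by omega, hc.mem b (by omega) (by omega)⟩
    · have c := hb.comp p (by simp [h]) h1
      have h2 := s2 p h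
      simp only at h2
      refine ⟨c.one, by rw [hlen]; exact c.le, ?_, ?_, ?_⟩
      · rw [hmem]
        exact fun h => c.left h.2.2
      · rw [hmem]
        exact fun h => c.right h.2.2
      · intro b hb1 hb2
        rw [hmem]
        exact ⟨by omega, by omega, c.mem b hb1 hb2⟩
  · intro b hbP
    rw [hmem] at hbP
    obtain ⟨p, hp', h1, h2⟩ := hb.cover b hbP.2.2
    rw [List.mem_append, List.mem_cons] at hp'
    rcases hp' with h | h | h
    · exact ⟨p, by simp [h], h1, h2⟩
    · subst h
      simp only at h1 h2
      rcases Nat.lt_or_ge b (a + n) with h3 | h3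
      · exact ⟨(a, n), by simp, h1, h3⟩
      · refine ⟨(a + n + 1, k - 1 - n), by simp, ?_, ?_⟩
        · simp only
          omega
        · simp only
          omega
    · exact ⟨p, by simp [h], h1, h2⟩
  · rw [List.pairwise_append, List.pairwise_cons, List.pairwise_cons]
    refine ⟨s1, ⟨?_, ?_, s3⟩, ?_⟩
    · intro q hq
      rw [List.mem_cons] at hq
      rcases hq with rfl | hq
      · simp only
        omega
      · have := s2 q hq
        simp only at this ⊢
        omega
    · intro q hq
      have := s2 q hq
      simp only at this ⊢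
      omega
    · intro p hp' q hq
      rw [List.mem_cons, List.mem_cons] at hq
      have h1 := s4 p hp' (a, k) (by simp)
      simp only at h1
      rcases hq with rfl | rfl | hq
      · simp only
        omega
      · simp only
        omega
      · exact s4 p hp' q (by simp [hq])

/-- a letter between two fixed bars -/
theorem BlkLAux.letter (g : Good Pi X) (h : Same Pi X Y) {a : ℕ} (ha : a ∉ Pi)
    (ha' : a + 1 ∉ Pi) : Y.w[a]? = X.w[a]? := by
  have hY : Y.w.Nodup := h.w.nodup_iff.2 g.wn
  have hlen := h.w.length_eq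
  have hsd : pre Y.w (a + 1) \ pre Y.w a = pre X.w (a + 1) \ pre X.w a := by
    rw [h.fix a ha, h.fix (a + 1) ha']
  rcases Nat.lt_or_ge a Y.w.length with hlt | hge
  · have h1 : Y.w[a]? = some Y.w[a] := List.getElem?_eq_getElem hlt
    have h2 : Y.w[a] ∈ pre Y.w (a + 1) \ pre Y.w a :=
      (PhaseAux.mem_sdiff_pre hY).2 ⟨0, Nat.zero_lt_one, h1⟩
    rw [hsd, PhaseAux.mem_sdiff_pre g.wn] at h2
    obtain ⟨i, hi, hx⟩ := h2
    have hi0 : i = 0 := by omega
    subst hi0
    rw [h1, ← hx]
    rfl
  · rw [List.getElem?_eq_none hge, List.getElem?_eq_none (by omega)]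

theorem BlkLAux.piece_length {w : List ℕ} {p : ℕ × ℕ} (h : 1 ≤ p.2 → p.1 + p.2 ≤ w.length) :
    ((w.drop p.1).take p.2).length = p.2 := by
  rw [List.length_take, List.length_drop]
  rcases Nat.eq_zero_or_pos p.2 with h0 | h0
  · omega
  · have := h h0
    omega

theorem BlkLAux.small (g : Good Pi X) (h : Same Pi X Y) {p : ℕ × ℕ}
    (hp : 1 ≤ p.2 → IsComp Pi X p.1 p.2) (h2 : p.2 < 2) :
    (Y.w.drop p.1).take p.2 = (X.w.drop p.1).take p.2 := by
  rcases Nat.eq_zero_or_pos p.2 with h0 | h0
  · rw [h0, List.take_zero, List.take_zero]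
  · have h1 : p.2 = 1 := by omega
    have c := hp h0
    have hr := c.right
    rw [h1] at hr ⊢
    have hl := BlkLAux.letter g h c.left hr
    rw [List.take_one, List.take_one, List.head?_drop, List.head?_drop, hl]

/-- the words after a fact is applied to the blocks of size `≥ 2` (`ht` implies that `t` has at
least as many entries as there are such blocks) -/
theorem segs_appF (g : Good Pi X) (hb : Blk Pi X bl) (h : Same Pi X Y) {t : List (List ℕ)}
    (ht : segs Y.w (bl.filter (fun p => 2 ≤ p.2)) =
      appT t (segs X.w (bl.filter (fun p => 2 ≤ p.2)))) :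
    segs Y.w bl = appF t (segs X.w bl) := by
  have hcomp := hb.comp
  clear hb
  induction bl generalizing t with
  | nil =>
    cases t <;> rfl
  | cons p bl ih =>
    have hp := hcomp p (by simp)
    have hlen := BlkLAux.piece_length (w := X.w) (p := p) (fun h1 => (hp h1).le)
    have hcomp' : ∀ q ∈ bl, 1 ≤ q.2 → IsComp Pi X q.1 q.2 := fun q hq =>
      hcomp q (List.mem_cons_of_mem _ hq)
    by_cases h2 : 2 ≤ p.2
    · rw [List.filter_cons_of_pos (by simpa using h2)] at ht
      unfold segs at ht
      rw [List.map_cons, List.map_cons] at ht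
      cases t with
      | nil => exact absurd ht (by unfold appT; simp)
      | cons τ t =>
        unfold appT at ht
        rw [List.zipWith_cons_cons, List.cons.injEq] at ht
        have h3 := ih ht.2 hcomp'
        unfold segs at h3 ⊢
        rw [List.map_cons, List.map_cons, h3, ht.1, appF, if_neg (by rw [hlen]; omega)]
    · rw [List.filter_cons_of_neg (by simpa using h2)] at ht
      have h3 := ih ht hcomp'
      unfold segs at h3 ⊢
      rw [List.map_cons, List.map_cons, h3, BlkLAux.small g h hp (by omega)]
      cases t <;> rw [appF, if_pos (by rw [hlen]; omega)]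

/-- two flags of the same configuration with the same words in the blocks have the same word -/
theorem eq_of_segs (g : Good Pi X) (hb : Blk Pi X bl) (h : Same Pi X Y)
    (hs : segs Y.w bl = segs X.w bl) : Y.w = X.w := by
  refine List.ext_getElem? (fun j => ?_)
  by_cases hj : ∃ p ∈ bl, p.1 ≤ j ∧ j < p.1 + p.2
  · obtain ⟨p, hp, h1, h2⟩ := hj
    have hpc : (Y.w.drop p.1).take p.2 = (X.w.drop p.1).take p.2 := by
      unfold segs at hs
      exact List.map_inj_left.1 hs p hp
    have hx : ((Y.w.drop p.1).take p.2)[j - p.1]? = ((X.w.drop p.1).take p.2)[j - p.1]? := by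
      rw [hpc]
    rw [List.getElem?_take_of_lt (by omega), List.getElem?_take_of_lt (by omega),
      List.getElem?_drop, List.getElem?_drop] at hx
    have he : p.1 + (j - p.1) = j := by omega
    rwa [he] at hx
  · refine BlkLAux.letter g h ?_ ?_
    · intro hP
      obtain ⟨p, hp, h1, h2⟩ := hb.cover j hP
      exact hj ⟨p, hp, by omega, h2⟩
    · intro hP
      obtain ⟨p, hp, h1, h2⟩ := hb.cover (j + 1) hP
      exact hj ⟨p, hp, by omega, by omega⟩

end

end Pool.Agent.RS
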