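import Pool.Agent.RS.CertDefs

/-!
# RS module CertA: the kernel run computes `evalC`
-/

set_option autoImplicit false

namespace Pool.Agent.RS

theorem goS_true {r : ℕ} {L : List (ℕ × ℕ)} {k : List (ℕ × ℕ) → ℕ → Bool}
    (h : goS r L k = true) : ∃ e1 e2 L2, L.drop r = e1 :: e2 :: L2 ∧
      k (L.take r ++ (e2.1, e1.2) :: (e1.1, (e1.2 + (L2.headD (0, 0)).2) - e2.2) :: L2)
        ((e1.2 + (L2.headD (0, 0)).2) - e2.2) = true := by
  induction r generalizing L k with
  | zero =>
    cases L with
    | nil => exact absurd h Bool.false_ne_true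
    | cons e1 L1 =>
      cases L1 with
      | nil => exact absurd h Bool.false_ne_true
      | cons e2 L2 =>
        refine ⟨e1, e2, L2, rfl, ?_⟩
        cases L2 with
        | nil => exact h
        | cons e3 L3 => exact h
  | succ r ih =>
    cases L with
    | nil => exact absurd h Bool.false_ne_true
    | cons e L1 =>
      have h' : goS r L1 (fun L' s => k (e :: L') s) = true := h
      obtain ⟨e1, e2, L2, h1, h2⟩ := ih h'
      exact ⟨e1, e2, L2, by rw [List.drop_succ_cons, h1], by
        rw [List.take_succ_cons, List.cons_append]; exact h2⟩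

theorem goW_true {r : ℕ} {W : List ℕ} {k : List ℕ → ℕ → ℕ → Bool}
    (h : goW r W k = true) : ∃ x y v, W.drop r = x :: y :: v ∧
      k (W.take r ++ y :: x :: v) x y = true := by
  induction r generalizing W k with
  | zero =>
    cases W with
    | nil => exact absurd h Bool.false_ne_true
    | cons x W1 =>
      cases W1 with
      | nil => exact absurd h Bool.false_ne_true
      | cons y v => exact ⟨x, y, v, rfl, h⟩
  | succ r ih =>
    cases W with
    | nil => exact absurd h Bool.false_ne_true
    | cons e W1 =>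
      have h' : goW r W1 (fun W' x y => k (e :: W') x y) = true := h
      obtain ⟨x, y, v, h1, h2⟩ := ih h'
      exact ⟨x, y, v, by rw [List.drop_succ_cons, h1], by
        rw [List.take_succ_cons, List.cons_append]; exact h2⟩

theorem chk_true {V s : ℕ} {t : ℕ → Bool} (h : chk V s t = true) :
    V.testBit s = false ∧ t (V ||| 1 <<< s) = true := by
  have h0 : chk V s t = Bool.rec false (t (V ||| 1 <<< s)) (Nat.beq ((V >>> s) &&& 1) 0) := rfl
  rw [h0] at h
  cases hb : Nat.beq ((V >>> s) &&& 1) 0 with
  | false =>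
    rw [hb] at h
    exact absurd h Bool.false_ne_true
  | true =>
    rw [hb] at h
    have hz : (V >>> s) &&& 1 = 0 := Nat.eq_of_beq_eq_true hb
    refine ⟨?_, h⟩
    have h1 : V.testBit s = (1 &&& (V >>> s) != 0) := rfl
    rw [h1, Nat.land_comm, hz]
    rfl

namespace CertAAux

/-- one move of `runG` -/
theorem step_true {ck : ℕ → ℕ → (ℕ → Bool) → Bool} {k : List ℕ → ℕ → List (ℕ × ℕ) → Bool}
    {n mv : ℕ} {W : List ℕ} {V : ℕ} {L : List (ℕ × ℕ)} (h : runG ck k (n + 1) mv W V L = true) :
    ∃ W' L' s, evalStep (mv % 8) W L = some (W', L', s) ∧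
      ck V s (fun V => runG ck k n (mv / 8) W' V L') = true := by
  have h0 : runG ck k (n + 1) mv W V L =
      Nat.rec (motive := fun _ => Bool)
        (List.rec false (fun e L1 _ => goW (e.1 - 1) W fun W x y =>
          (fun s => ck V s fun V => runG ck k n (mv / 8) W V ((e.1, s) :: L1)) ((e.2 + y) - x)) L)
        (fun r _ => goS r L fun L s => ck V s fun V => runG ck k n (mv / 8) W V L) (mv % 8) := rfl
  rw [h0] at h
  cases hd : mv % 8 with
  | zero =>
    rw [hd] at h
    cases L with
    | nil => exact absurd h Bool.false_ne_true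
    | cons e L1 =>
      have h' : goW (e.1 - 1) W (fun W x y => ck V ((e.2 + y) - x) fun V =>
          runG ck k n (mv / 8) W V ((e.1, (e.2 + y) - x) :: L1)) = true := h
      obtain ⟨x, y, v, h1, h2⟩ := goW_true h'
      refine ⟨_, _, _, ?_, h2⟩
      show (match W.drop (e.1 - 1) with
        | x :: y :: v => some (W.take (e.1 - 1) ++ y :: x :: v, (e.1, (e.2 + y) - x) :: L1,
            (e.2 + y) - x)
        | _ => none) = _
      rw [h1]
  | succ r =>
    rw [hd] at h
    have h' : goS r L (fun L s => ck V s fun V => runG ck k n (mv / 8) W V L) = true := h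
    obtain ⟨e1, e2, L2, h1, h2⟩ := goS_true h'
    refine ⟨_, _, _, ?_, h2⟩
    show (match L.drop r with
      | e1 :: e2 :: L2 => some (W, L.take r ++ (e2.1, e1.2) ::
            (e1.1, (e1.2 + (L2.headD (0, 0)).2) - e2.2) :: L2,
            (e1.2 + (L2.headD (0, 0)).2) - e2.2)
      | _ => none) = _
    rw [h1]

theorem evalC_succ {n mv : ℕ} {W W' W'' : List ℕ} {L L' L'' : List (ℕ × ℕ)} {s : ℕ} {cs : List ℕ}
    (h : evalStep (mv % 8) W L = some (W', L', s))
    (h' : evalC n (mv / 8) W' L' = some (W'', L'', cs)) :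
    evalC (n + 1) mv W L = some (W'', L'', s :: cs) := by
  rw [evalC, h]
  show (match evalC n (mv / 8) W' L' with
      | none => none
      | some (W'', L'', cs) => some (W'', L'', s :: cs)) = _
  rw [h']

theorem testBit_or_self (V s : ℕ) : (V ||| 1 <<< s).testBit s = true := by
  rw [Nat.testBit_or, Nat.testBit_shiftLeft]
  simp

theorem testBit_or_false {V s s' : ℕ} (h : (V ||| 1 <<< s).testBit s' = false) :
    V.testBit s' = false ∧ s' ≠ s := by
  refine ⟨?_, ?_⟩
  · rw [Nat.testBit_or] at h
    exact (Bool.or_eq_false_iff.1 h).1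
  · rintro rfl
    rw [testBit_or_self] at h
    exact absurd h.symm Bool.false_ne_true

end CertAAux

open CertAAux

/-- soundness with all codes tested -/
theorem runG_chk {k : List ℕ → ℕ → List (ℕ × ℕ) → Bool} {n mv : ℕ} {W : List ℕ} {V : ℕ}
    {L : List (ℕ × ℕ)} (h : runG chk k n mv W V L = true) :
    ∃ W' L' cs V', evalC n mv W L = some (W', L', cs) ∧ cs.length = n ∧ cs.Nodup ∧
      (∀ s ∈ cs, V.testBit s = false) ∧ k W' V' L' = true := by
  induction n generalizing mv W V L with
  | zero => exact ⟨W, L, [], V, rfl, rfl, List.nodup_nil, by simp, h⟩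
  | succ n ih =>
    obtain ⟨W₁, L₁, s, h1, h2⟩ := step_true h
    obtain ⟨h3, h4⟩ := chk_true h2
    obtain ⟨W', L', cs, V', h5, h6, h7, h8, h9⟩ := ih h4
    refine ⟨W', L', s :: cs, V', evalC_succ h1 h5, by rw [List.length_cons, h6],
      List.nodup_cons.2 ⟨fun hs => (testBit_or_false (h8 s hs)).2 rfl, h7⟩, ?_, h9⟩
    intro s' hs'
    rcases List.mem_cons.1 hs' with rfl | hs'
    · exact h3
    · exact (testBit_or_false (h8 s' hs')).1

/-- soundness with the codes `≡ q` mod `m` tested -/
theorem runG_chkM {m q : ℕ} (hm : 0 < m) {k : List ℕ → ℕ → List (ℕ × ℕ) → Bool} {n mv : ℕ}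
    {W : List ℕ} {V : ℕ} {L : List (ℕ × ℕ)} (h : runG (chkM m q) k n mv W V L = true) :
    ∃ W' L' cs V', evalC n mv W L = some (W', L', cs) ∧ cs.length = n ∧
      (cs.filter (fun s => s % m == q)).Nodup ∧ k W' V' L' = true := by
  have _ := hm
  have key : ∀ (n mv : ℕ) (W : List ℕ) (V : ℕ) (L : List (ℕ × ℕ)),
      runG (chkM m q) k n mv W V L = true →
      ∃ W' L' cs V', evalC n mv W L = some (W', L', cs) ∧ cs.length = n ∧
        (cs.filter (fun s => s % m == q)).Nodup ∧
        (∀ s ∈ cs, s % m = q → V.testBit (s / m) = false) ∧ k W' V' L' = true := by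
    intro n
    induction n with
    | zero => exact fun mv W V L h => ⟨W, L, [], V, rfl, rfl, List.nodup_nil, by simp, h⟩
    | succ n ih =>
      intro mv W V L h
      obtain ⟨W₁, L₁, s, h1, h2⟩ := step_true h
      have h20 : chkM m q V s (fun V => runG (chkM m q) k n (mv / 8) W₁ V L₁) =
          Bool.rec (runG (chkM m q) k n (mv / 8) W₁ V L₁)
            (chk V (s / m) (fun V => runG (chkM m q) k n (mv / 8) W₁ V L₁))
            (Nat.beq (s % m) q) := rfl
      rw [h20] at h2
      cases hb : Nat.beq (s % m) q with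
      | false =>
        rw [hb] at h2
        have hne : s % m ≠ q := fun he => by
          rw [he, Nat.beq_refl] at hb
          exact absurd hb.symm Bool.false_ne_true
        obtain ⟨W', L', cs, V', h5, h6, h7, h8, h9⟩ := ih _ _ _ _ h2
        refine ⟨W', L', s :: cs, V', evalC_succ h1 h5, by rw [List.length_cons, h6], ?_, ?_, h9⟩
        · rw [List.filter_cons_of_neg (by simpa using hne)]
          exact h7
        · intro s' hs' hq
          rcases List.mem_cons.1 hs' with rfl | hs'
          · exact absurd hq hne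
          · exact h8 s' hs' hq
      | true =>
        rw [hb] at h2
        have he : s % m = q := Nat.eq_of_beq_eq_true hb
        obtain ⟨h3, h4⟩ := chk_true h2
        obtain ⟨W', L', cs, V', h5, h6, h7, h8, h9⟩ := ih _ _ _ _ h4
        refine ⟨W', L', s :: cs, V', evalC_succ h1 h5, by rw [List.length_cons, h6], ?_, ?_, h9⟩
        · rw [List.filter_cons_of_pos (by simpa using he)]
          refine List.nodup_cons.2 ⟨fun hs => ?_, h7⟩
          exact (testBit_or_false (h8 s (List.mem_of_mem_filter hs) he)).2 rfl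
        · intro s' hs' hq
          rcases List.mem_cons.1 hs' with rfl | hs'
          · exact h3
          · exact (testBit_or_false (h8 s' hs' hq)).1
  obtain ⟨W', L', cs, V', h5, h6, h7, _, h9⟩ := key n mv W V L h
  exact ⟨W', L', cs, V', h5, h6, h7, h9⟩

theorem insC_true {L : List (ℕ × ℕ)} {V : ℕ} {k : ℕ → Bool} (h : insC L V k = true) :
    ∃ V', (L.map Prod.snd).Nodup ∧ (∀ s ∈ L.map Prod.snd, V.testBit s = false ∧
      V'.testBit s = true) ∧ (∀ s, V.testBit s = true → V'.testBit s = true) ∧ k V' = true := by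
  induction L generalizing V with
  | nil => exact ⟨V, List.nodup_nil, by simp, fun s hs => hs, h⟩
  | cons e L ih =>
    have h' : chk V e.2 (fun V => insC L V k) = true := h
    obtain ⟨h1, h2⟩ := chk_true h'
    obtain ⟨V', h3, h4, h5, h6⟩ := ih h2
    refine ⟨V', ?_, ?_, ?_, h6⟩
    · rw [List.map_cons, List.nodup_cons]
      exact ⟨fun hs => (testBit_or_false (h4 _ hs).1).2 rfl, h3⟩
    · intro s hs
      rw [List.map_cons] at hs
      rcases List.mem_cons.1 hs with rfl | hs
      · exact ⟨h1, h5 _ (testBit_or_self V e.2)⟩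
      · exact ⟨(testBit_or_false (h4 s hs).1).1, (h4 s hs).2⟩
    · intro s hs
      refine h5 s ?_
      rw [Nat.testBit_or, hs, Bool.true_or]

/-- all parts together -/
theorem nodup_of_parts {m : ℕ} (hm : 0 < m) {cs : List ℕ}
    (h : ∀ q, q < m → (cs.filter (fun s => s % m == q)).Nodup) : cs.Nodup := by
  induction cs with
  | nil => exact List.nodup_nil
  | cons s cs ih =>
    refine List.nodup_cons.2 ⟨fun hs => ?_, ih fun q hq => ?_⟩
    · have h1 := h (s % m) (Nat.mod_lt s hm)
      rw [List.filter_cons_of_pos (by simp)] at h1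
      exact (List.nodup_cons.1 h1).1 (List.mem_filter.2 ⟨hs, by simp⟩)
    · exact ((List.sublist_cons_self s cs).filter _).nodup (h q hq)

end Pool.Agent.RS
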