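import Pool.Agent.RS.CertD0
import Pool.Agent.RS.CertD1
import Pool.Agent.RS.CertD2
import Pool.Agent.RS.CertD3
import Pool.Agent.RS.CertD4
import Pool.Agent.RS.CertD5
import Pool.Agent.RS.CertD6
import Pool.Agent.RS.CertD7
import Pool.Agent.RS.CertD8
import Pool.Agent.RS.CertD9
import Pool.Agent.RS.CertD10
import Pool.Agent.RS.CertD11
import Pool.Agent.RS.CertD12
import Pool.Agent.RS.CertD13
import Pool.Agent.RS.CertD14
import Pool.Agent.RS.CertD15
import Pool.Agent.RS.CertD16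
import Pool.Agent.RS.CertD17

/-!
# RS: all certificates, ordered by shape
-/

set_option autoImplicit false

namespace Pool.Agent.RS

/-- certificates for the sizes `[6]`, 0 fixed bars -/
def cs6_e0 : List Cer := cd6e0_0.map CerD.cer ++ (cd6e0_1.map CerD.cer ++ (cd6e0_2.map CerD.cer ++ (cd6e0_3.map CerD.cer ++ (cd6e0_4.map CerD.cer))))

theorem cs6_e0_ok : AllCer [6] 0 cs6_e0 := (allCer_of_check (by norm_num) cd6e0_0_chk).append ((allCer_of_check (by norm_num) cd6e0_1_chk).append ((allCer_of_check (by norm_num) cd6e0_2_chk).append ((allCer_of_check (by norm_num) cd6e0_3_chk).append (allCer_of_check (by norm_num) cd6e0_4_chk))))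

/-- certificates for the sizes `[2,2,2,2]`, 1 fixed bars -/
def cs2_2_2_2_e1 : List Cer := cd2_2_2_2e1_0.map CerD.cer

theorem cs2_2_2_2_e1_ok : AllCer [2,2,2,2] 1 cs2_2_2_2_e1 := allCer_of_check (by norm_num) cd2_2_2_2e1_0_chk

/-- certificates for the sizes `[2,2,3]`, 1 fixed bars -/
def cs2_2_3_e1 : List Cer := cd2_2_3e1_0.map CerD.cer

theorem cs2_2_3_e1_ok : AllCer [2,2,3] 1 cs2_2_3_e1 := allCer_of_check (by norm_num) cd2_2_3e1_0_chk

/-- certificates for the sizes `[2,3,2]`, 1 fixed bars -/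
def cs2_3_2_e1 : List Cer := cd2_3_2e1_0.map CerD.cer

theorem cs2_3_2_e1_ok : AllCer [2,3,2] 1 cs2_3_2_e1 := allCer_of_check (by norm_num) cd2_3_2e1_0_chk

/-- certificates for the sizes `[2,4]`, 1 fixed bars -/
def cs2_4_e1 : List Cer := cd2_4e1_0.map CerD.cer ++ (cd2_4e1_1.map CerD.cer)

theorem cs2_4_e1_ok : AllCer [2,4] 1 cs2_4_e1 := (allCer_of_check (by norm_num) cd2_4e1_0_chk).append (allCer_of_check (by norm_num) cd2_4e1_1_chk)

/-- certificates for the sizes `[3,2,2]`, 1 fixed bars -/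
def cs3_2_2_e1 : List Cer := cd3_2_2e1_0.map CerD.cer

theorem cs3_2_2_e1_ok : AllCer [3,2,2] 1 cs3_2_2_e1 := allCer_of_check (by norm_num) cd3_2_2e1_0_chk

/-- certificates for the sizes `[3,3]`, 1 fixed bars -/
def cs3_3_e1 : List Cer := cd3_3e1_0.map CerD.cer ++ (cd3_3e1_1.map CerD.cer)

theorem cs3_3_e1_ok : AllCer [3,3] 1 cs3_3_e1 := (allCer_of_check (by norm_num) cd3_3e1_0_chk).append (allCer_of_check (by norm_num) cd3_3e1_1_chk)

/-- certificates for the sizes `[4,2]`, 1 fixed bars -/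
def cs4_2_e1 : List Cer := cd4_2e1_0.map CerD.cer ++ (cd4_2e1_1.map CerD.cer ++ (cd4_2e1_2.map CerD.cer))

theorem cs4_2_e1_ok : AllCer [4,2] 1 cs4_2_e1 := (allCer_of_check (by norm_num) cd4_2e1_0_chk).append ((allCer_of_check (by norm_num) cd4_2e1_1_chk).append (allCer_of_check (by norm_num) cd4_2e1_2_chk))

/-- certificates for the sizes `[5]`, 1 fixed bars -/
def cs5_e1 : List Cer := cd5e1_0.map CerD.cer ++ (cd5e1_1.map CerD.cer ++ (cd5e1_2.map CerD.cer ++ (cd5e1_3.map CerD.cer ++ (cd5e1_4.map CerD.cer ++ (cd5e1_5.map CerD.cer ++ (cd5e1_6.map CerD.cer ++ (cd5e1_7.map CerD.cer ++ (cd5e1_8.map CerD.cer ++ (cd5e1_9.map CerD.cer ++ (cd5e1_10.map CerD.cer ++ (cd5e1_11.map CerD.cer)))))))))))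

theorem cs5_e1_ok : AllCer [5] 1 cs5_e1 := (allCer_of_check (by norm_num) cd5e1_0_chk).append ((allCer_of_check (by norm_num) cd5e1_1_chk).append ((allCer_of_check (by norm_num) cd5e1_2_chk).append ((allCer_of_check (by norm_num) cd5e1_3_chk).append ((allCer_of_check (by norm_num) cd5e1_4_chk).append ((allCer_of_check (by norm_num) cd5e1_5_chk).append ((allCer_of_check (by norm_num) cd5e1_6_chk).append ((allCer_of_check (by norm_num) cd5e1_7_chk).append ((allCer_of_check (by norm_num) cd5e1_8_chk).append ((allCer_of_check (by norm_num) cd5e1_9_chk).append ((allCer_of_check (by norm_num) cd5e1_10_chk).append (allCer_of_check (by norm_num) cd5e1_11_chk)))))))))))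

/-- certificates for the sizes `[2,2,2]`, 2 fixed bars -/
def cs2_2_2_e2 : List Cer := cd2_2_2e2_0.map CerD.cer ++ (cd2_2_2e2_1.map CerD.cer)

theorem cs2_2_2_e2_ok : AllCer [2,2,2] 2 cs2_2_2_e2 := (allCer_of_check (by norm_num) cd2_2_2e2_0_chk).append (allCer_of_check (by norm_num) cd2_2_2e2_1_chk)

/-- certificates for the sizes `[2,3]`, 2 fixed bars -/
def cs2_3_e2 : List Cer := cd2_3e2_0.map CerD.cer ++ (cd2_3e2_1.map CerD.cer)

theorem cs2_3_e2_ok : AllCer [2,3] 2 cs2_3_e2 := (allCer_of_check (by norm_num) cd2_3e2_0_chk).append (allCer_of_check (by norm_num) cd2_3e2_1_chk)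

/-- certificates for the sizes `[3,2]`, 2 fixed bars -/
def cs3_2_e2 : List Cer := cd3_2e2_0.map CerD.cer ++ (cd3_2e2_1.map CerD.cer)

theorem cs3_2_e2_ok : AllCer [3,2] 2 cs3_2_e2 := (allCer_of_check (by norm_num) cd3_2e2_0_chk).append (allCer_of_check (by norm_num) cd3_2e2_1_chk)

/-- certificates for the sizes `[4]`, 2 fixed bars -/
def cs4_e2 : List Cer := cd4e2_0.map CerD.cer ++ (cd4e2_1.map CerD.cer ++ (cd4e2_2.map CerD.cer))

theorem cs4_e2_ok : AllCer [4] 2 cs4_e2 := (allCer_of_check (by norm_num) cd4e2_0_chk).append ((allCer_of_check (by norm_num) cd4e2_1_chk).append (allCer_of_check (by norm_num) cd4e2_2_chk))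

/-- certificates for the sizes `[2,2]`, 3 fixed bars -/
def cs2_2_e3 : List Cer := cd2_2e3_0.map CerD.cer

theorem cs2_2_e3_ok : AllCer [2,2] 3 cs2_2_e3 := allCer_of_check (by norm_num) cd2_2e3_0_chk

/-- certificates for the sizes `[3]`, 3 fixed bars -/
def cs3_e3 : List Cer := cd3e3_0.map CerD.cer

theorem cs3_e3_ok : AllCer [3] 3 cs3_e3 := allCer_of_check (by norm_num) cd3e3_0_chk

/-- certificates for the sizes `[2]`, 4 fixed bars -/
def cs2_e4 : List Cer := cd2e4_0.map CerD.cer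

theorem cs2_e4_ok : AllCer [2] 4 cs2_e4 := allCer_of_check (by norm_num) cd2e4_0_chk

/-- certificates for the sizes `[]`, 5 fixed bars -/
def cs_e5 : List Cer := cde5_0.map CerD.cer

theorem cs_e5_ok : AllCer [] 5 cs_e5 := allCer_of_check (by norm_num) cde5_0_chk

end Pool.Agent.RS
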