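import Pool.Agent.RS.Blk

/-!
# RS: certificates (definitions)

Labels of the bars: the bar before the `b`-th letter of the components has label `b`
(`0 < b < K`, `K` the number of letters of the components, `b` not between two components), the
ε-bars have the labels `K, K + 1, …, K + e - 1`. The code of a set with label `b < K` is the sum of
`B ^ p` over the letters `p` of its component in it (letters are numbered by their position in the
start arrangement), the code of the ε-bar `K + j` is `B ^ K * 2 ^ j`; the code of a face is the sum
of the codes of its sets. The functions below are written with recursors for fast evaluation by the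
kernel.
-/

set_option autoImplicit false
set_option linter.unusedVariables false

namespace Pool.Agent.RS

/-- exchange of the entries at positions `r`, `r + 1` of a list of (label, code of the suffix which
starts here); the new code is handed over -/
noncomputable def goS (r : ℕ) : List (ℕ × ℕ) → (List (ℕ × ℕ) → ℕ → Bool) → Bool :=
  Nat.rec (motive := fun _ => List (ℕ × ℕ) → (List (ℕ × ℕ) → ℕ → Bool) → Bool)
    (fun L k => List.rec false (fun e1 L1 _ => List.rec false (fun e2 L2 _ =>
      (fun s => k ((e2.1, e1.2) :: (e1.1, s) :: L2) s)
        ((e1.2 + (List.rec 0 (fun e3 _ _ => e3.2) L2)) - e2.2)) L1) L)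
    (fun _ ih L k => List.rec false (fun e L1 _ => ih L1 (fun L' s => k (e :: L') s)) L) r

/-- exchange of the letters at positions `r`, `r + 1` (letters are given by their weights) -/
noncomputable def goW (r : ℕ) : List ℕ → (List ℕ → ℕ → ℕ → Bool) → Bool :=
  Nat.rec (motive := fun _ => List ℕ → (List ℕ → ℕ → ℕ → Bool) → Bool)
    (fun L k => List.rec false (fun x L1 _ => List.rec false (fun y L2 _ =>
      k (y :: x :: L2) x y) L1) L)
    (fun _ ih L k => List.rec false (fun e L1 _ => ih L1 (fun L' x y => k (e :: L') x y)) L) r

/-- the code `s` is new (bit `s` of `V` is `0`); it is added to `V` -/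
noncomputable def chk (V s : ℕ) (t : ℕ → Bool) : Bool :=
  Bool.rec false (t (Nat.lor V (Nat.shiftLeft 1 s))) (Nat.beq (Nat.land (Nat.shiftRight V s) 1) 0)

/-- run of the moves `mv` (digits base `8`; `0`: exchange of the letters at the bottom bar, `r + 1`:
exchange of the bars at positions `r`, `r + 1` of the order), `fuel` = number of moves; `ck` is the
test of the new codes -/
noncomputable def runG (ck : ℕ → ℕ → (ℕ → Bool) → Bool) (k : List ℕ → ℕ → List (ℕ × ℕ) → Bool)
    (fuel : ℕ) : ℕ → List ℕ → ℕ → List (ℕ × ℕ) → Bool :=
  Nat.rec (motive := fun _ => ℕ → List ℕ → ℕ → List (ℕ × ℕ) → Bool)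
    (fun mv W V L => k W V L)
    (fun _ ih mv W V L =>
      Nat.rec (motive := fun _ => Bool)
        (List.rec false (fun e L1 _ => goW (e.1 - 1) W fun W x y =>
          (fun s => ck V s fun V => ih (mv / 8) W V ((e.1, s) :: L1)) ((e.2 + y) - x)) L)
        (fun r _ => goS r L fun L s => ck V s fun V => ih (mv / 8) W V L) (mv % 8)) fuel

/-- only the codes `≡ q` mod `m` are tested -/
noncomputable def chkM (m q V s : ℕ) (t : ℕ → Bool) : Bool :=
  Bool.rec (t V) (chk V (s / m) t) (Nat.beq (s % m) q)

/-- one move: new words, new list of labels and codes, code of the new face -/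
def evalStep (d : ℕ) (W : List ℕ) (L : List (ℕ × ℕ)) : Option (List ℕ × List (ℕ × ℕ) × ℕ) :=
  match d with
  | 0 =>
    match L with
    | [] => none
    | e :: L1 =>
      match W.drop (e.1 - 1) with
      | x :: y :: v => some (W.take (e.1 - 1) ++ y :: x :: v, (e.1, (e.2 + y) - x) :: L1,
          (e.2 + y) - x)
      | _ => none
  | r + 1 =>
    match L.drop r with
    | e1 :: e2 :: L2 => some (W, L.take r ++ (e2.1, e1.2) ::
          (e1.1, (e1.2 + (L2.headD (0, 0)).2) - e2.2) :: L2, (e1.2 + (L2.headD (0, 0)).2) - e2.2)
    | _ => none

/-- `n` moves: final words, final list, list of the codes of the new faces -/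
def evalC : ℕ → ℕ → List ℕ → List (ℕ × ℕ) → Option (List ℕ × List (ℕ × ℕ) × List ℕ)
  | 0, _, W, L => some (W, L, [])
  | n + 1, mv, W, L =>
    match evalStep (mv % 8) W L with
    | none => none
    | some (W', L', s) =>
      match evalC n (mv / 8) W' L' with
      | none => none
      | some (W'', L'', cs) => some (W'', L'', s :: cs)

/-- insert the codes of the start flag -/
noncomputable def insC (L : List (ℕ × ℕ)) : ℕ → (ℕ → Bool) → Bool :=
  List.rec (motive := fun _ => ℕ → (ℕ → Bool) → Bool) (fun V k => k V)
    (fun e _ ih V k => chk V e.2 (fun V => ih V k)) L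

/-- start of the component of the letter / bar `b` -/
def offL : ℕ → List ℕ → ℕ → ℕ
  | off, [], _ => off
  | off, k :: ks, b => if b < off + k then off else offL (off + k) ks b

/-- code of the bar `b` in the start arrangement -/
def codeL (B : ℕ) (ks : List ℕ) (b : ℕ) : ℕ :=
  if b < ks.sum then ((List.range (b - offL 0 ks b)).map (fun i => B ^ (offL 0 ks b + i))).sum
  else B ^ ks.sum * 2 ^ (b - ks.sum)

/-- list of (label, code of the suffix) of the start order `o` -/
def startL (B : ℕ) (ks : List ℕ) : List ℕ → List (ℕ × ℕ)
  | [] => []
  | b :: o => (b, codeL B ks b + ((startL B ks o).headD (0, 0)).2) :: startL B ks o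

/-- weights of the letters of the end arrangement `t` -/
def flatT (B : ℕ) : ℕ → List (List ℕ) → List ℕ
  | _, [] => []
  | off, τ :: t => τ.map (fun i => B ^ (off + i)) ++ flatT B (off + τ.length) t

/-- number of chains (including the empty one) of proper nonempty subsets of a set with `k`
elements -/
def fubT : List ℕ := [1, 1, 3, 13, 75, 541, 4683, 47293]

/-- number of faces plus one -/
def numF (ks : List ℕ) (e : ℕ) : ℕ := (ks.map (fun k => fubT.getD k 0)).prod * 2 ^ e

/-- `t` is an arrangement of the pieces of sizes `ks` -/
def okT (ks : List ℕ) (t : List (List ℕ)) : Bool :=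
  (t.map List.length == ks) && t.all (fun τ => (List.range τ.length).all (fun i => τ.contains i))

/-- the check of a certificate: `B` base, `n` number of moves, `mv` the moves -/
noncomputable def checkE (B : ℕ) (ks : List ℕ) (e : ℕ) (o : List ℕ) (t : List (List ℕ))
    (o' : List ℕ) (n mv : ℕ) : Bool :=
  (ks.all (fun k => decide (2 ≤ k) && decide (k ≤ 7))) && okT ks t &&
  (o.length == (movL 0 ks).length + e) && ((movL 0 ks).all (fun b => o.contains b)) &&
  ((List.range e).all (fun j => o.contains (ks.sum + j))) &&
  (n + o.length + 1 == numF ks e) &&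
  insC (startL B ks o) 0 (fun V =>
    runG chk (fun W _ L => (W == flatT B 0 t) && (L.map Prod.fst == o')) n mv
      ((List.range ks.sum).map (fun i => B ^ i)) V (startL B ks o))

/-- there is a strip from the start order `o` to the end `(t, o')`, for every configuration with
components of the sizes `ks` (from left to right) and `e` ε-bars; the order of the ε-bars in the
list `E` is arbitrary -/
def EHolds (ks : List ℕ) (e : ℕ) (o : List ℕ) (t : List (List ℕ)) (o' : List ℕ) : Prop :=
  ∀ (Pi : Finset ℕ) (X : Fl) (bl : List (ℕ × ℕ)) (E : List ℕ), Good Pi X → Blk Pi X bl →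
    bl.map Prod.snd = ks → E.Nodup → E.length = e → (∀ b, b ∈ E ↔ b ∈ X.s ∧ b ∉ Pi) →
    X.s = o.map (fun b => (pos bl ++ E).getD b 0) →
    ∃ Y, Strip Pi X Y ∧ Y.s = o'.map (fun b => (pos bl ++ E).getD b 0) ∧
      segs Y.w bl = appT t (segs X.w bl)

/-- closed certificate for the full configuration with `M` letters -/
noncomputable def checkC (B M : ℕ) (o : List ℕ) (n mv : ℕ) : Bool :=
  (o.length + 1 == M) && ((List.range M).tail.all (fun b => o.contains b)) &&
  decide (M ≤ 7) && (n + 1 == fubT.getD M 0) &&
  runG chk (fun W _ L => (W == (List.range M).map (fun i => B ^ i)) && (L.map Prod.fst == o)) n mv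
      ((List.range M).map (fun i => B ^ i)) 0 (startL B [M] o)

/-- part `q` of the closed certificate for `M`: only the codes `≡ q` mod `B` are tested -/
noncomputable def checkQ (B M q : ℕ) (o : List ℕ) (n mv : ℕ) : Bool :=
  (o.length + 1 == M) && ((List.range M).tail.all (fun b => o.contains b)) &&
  decide (M ≤ 7) && (n + 1 == fubT.getD M 0) &&
  runG (chkM B q) (fun W _ L => (W == (List.range M).map (fun i => B ^ i)) &&
      (L.map Prod.fst == o)) n mv
      ((List.range M).map (fun i => B ^ i)) 0 (startL B [M] o)

end Pool.Agent.RS
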