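import Pool.Agent.RS.CertDefs
import Pool.Agent.RS.BlkL

/-!
# RS module CertN: an upper bound for the number of faces

* For a finite set `K` of sets let `chains K` be the set of the chains (pairwise comparable subsets
  of `K`, including `∅`). `|chains (K₁ ∪ K₂)| ≤ |chains K₁| * |chains K₂|` (`F ↦ (F ∩ K₁, F ∩ K₂)`).
* For `K` = all sets `S` with `base ⊂ S ⊂ base ∪ U`, `|U| = k`: `|chains K| ≤ c k` with
  `c k = 1 + ∑_{0 < j < k} (k choose j) * c j` (largest set of the chain), and `c k = fubT[k]` for
  `k ≤ 7` (`c 0 = c 1 = 1`, `3, 13, 75, 541, 4683, 47293`).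
* The sets allowed in the faces (`OKS`) are the sets of an ε-bar (one set for each, two chains) and
  the sets between `pre X.w a` and `pre X.w (a + k)` for the blocks `(a, k)`.
-/

set_option autoImplicit false

namespace Pool.Agent.RS

open Finset

namespace CertNAux

/-- the chains in `K` -/
def chains (K : Finset (Finset ℕ)) : Finset (Finset (Finset ℕ)) :=
  K.powerset.filter (fun F => ∀ S ∈ F, ∀ T ∈ F, S ⊆ T ∨ T ⊆ S)

lemma mem_chains {K : Finset (Finset ℕ)} {F : Finset (Finset ℕ)} :
    F ∈ chains K ↔ F ⊆ K ∧ ∀ S ∈ F, ∀ T ∈ F, S ⊆ T ∨ T ⊆ S := by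
  unfold chains
  rw [Finset.mem_filter, Finset.mem_powerset]

lemma chains_union (K₁ K₂ : Finset (Finset ℕ)) :
    (chains (K₁ ∪ K₂)).card ≤ (chains K₁).card * (chains K₂).card := by
  rw [← Finset.card_product]
  have hsub : chains (K₁ ∪ K₂) ⊆ (chains K₁ ×ˢ chains K₂).image (fun p => p.1 ∪ p.2) := by
    intro F hF
    rw [mem_chains] at hF
    rw [Finset.mem_image]
    refine ⟨(F ∩ K₁, F ∩ K₂), ?_, ?_⟩
    · rw [Finset.mem_product, mem_chains, mem_chains]
      exact ⟨⟨Finset.inter_subset_right, fun S hS T hT =>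
        hF.2 S (Finset.mem_inter.1 hS).1 T (Finset.mem_inter.1 hT).1⟩,
        ⟨Finset.inter_subset_right, fun S hS T hT =>
        hF.2 S (Finset.mem_inter.1 hS).1 T (Finset.mem_inter.1 hT).1⟩⟩
    · show F ∩ K₁ ∪ F ∩ K₂ = F
      rw [← Finset.inter_union_distrib_left]
      exact Finset.inter_eq_left.2 hF.1
  exact (Finset.card_le_card hsub).trans Finset.card_image_le

lemma chains_empty : (chains ∅).card = 1 := by
  have : chains ∅ = {∅} := by
    ext F
    rw [mem_chains, Finset.mem_singleton]
    constructor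
    · rintro ⟨h, -⟩
      exact Finset.subset_empty.1 h
    · rintro rfl
      exact ⟨Finset.Subset.refl _, fun S hS => absurd hS (Finset.notMem_empty S)⟩
  rw [this, Finset.card_singleton]

lemma chains_pow (K : Finset (Finset ℕ)) : (chains K).card ≤ 2 ^ K.card := by
  rw [← Finset.card_powerset]
  exact Finset.card_le_card (Finset.filter_subset _ _)

lemma chains_Ioo (A B : Finset ℕ) :
    (chains (Finset.Ioo A B)).card ≤ 1 + ∑ V ∈ Finset.Ioo A B, (chains (Finset.Ioo A V)).card := by
  have hsub : chains (Finset.Ioo A B) ⊆ {∅} ∪ (Finset.Ioo A B).biUnion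
      (fun V => (chains (Finset.Ioo A V)).image (insert V)) := by
    intro F hF
    rw [mem_chains] at hF
    rw [Finset.mem_union, Finset.mem_singleton]
    rcases Finset.eq_empty_or_nonempty F with h | h
    · exact Or.inl h
    · right
      obtain ⟨V, hV, hmax⟩ := Finset.exists_max_image F Finset.card h
      have hle : ∀ S ∈ F, S ⊆ V := by
        intro S hS
        rcases hF.2 S hS V hV with h1 | h1
        · exact h1
        · exact (Finset.eq_of_subset_of_card_le h1 (hmax S hS)).symm.subset
      rw [Finset.mem_biUnion]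
      refine ⟨V, hF.1 hV, ?_⟩
      rw [Finset.mem_image]
      refine ⟨F.erase V, ?_, Finset.insert_erase hV⟩
      rw [mem_chains]
      constructor
      · intro S hS
        rw [Finset.mem_erase] at hS
        rw [Finset.mem_Ioo]
        refine ⟨(Finset.mem_Ioo.1 (hF.1 hS.2)).1, ?_⟩
        exact lt_of_le_of_ne (hle S hS.2) hS.1
      · intro S hS T hT
        exact hF.2 S (Finset.mem_of_mem_erase hS) T (Finset.mem_of_mem_erase hT)
  refine (Finset.card_le_card hsub).trans ((Finset.card_union_le _ _).trans ?_)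
  rw [Finset.card_singleton]
  refine Nat.add_le_add_left (Finset.card_biUnion_le.trans ?_) 1
  exact Finset.sum_le_sum (fun V _ => Finset.card_image_le)

lemma sum_Ioo (A B : Finset ℕ) (f : ℕ → ℕ) :
    ∑ V ∈ Finset.Ioo A B, f (V \ A).card ≤
      ∑ m ∈ Finset.range ((B \ A).card + 1),
        (B \ A).card.choose m * (if 0 < m ∧ m < (B \ A).card then f m else 0) := by
  have h1 : ∑ V ∈ Finset.Ioo A B, f (V \ A).card =
      ∑ W ∈ (Finset.Ioo A B).image (fun V => V \ A),
        (if 0 < W.card ∧ W.card < (B \ A).card then f W.card else 0) := by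
    rw [Finset.sum_image]
    · refine Finset.sum_congr rfl (fun V hV => ?_)
      rw [Finset.mem_Ioo] at hV
      have h2 : A ⊆ V := hV.1.le
      have h3 : V ⊆ B := hV.2.le
      have h4 : 0 < (V \ A).card := by
        rw [Finset.card_pos]
        by_contra hne
        rw [Finset.not_nonempty_iff_eq_empty, Finset.sdiff_eq_empty_iff_subset] at hne
        exact hV.1.ne (Finset.Subset.antisymm h2 hne)
      have h5 : (V \ A).card < (B \ A).card := by
        have h6 := Finset.card_lt_card hV.2
        rw [Finset.card_sdiff_of_subset h2, Finset.card_sdiff_of_subset (h2.trans h3)]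
        have h7 := Finset.card_le_card h2
        omega
      show f (V \ A).card = (if 0 < (V \ A).card ∧ (V \ A).card < (B \ A).card then
        f (V \ A).card else 0)
      rw [if_pos ⟨h4, h5⟩]
    · intro V hV V' hV' h
      have hV1 := Finset.mem_Ioo.1 (Finset.mem_coe.1 hV)
      have hV2 := Finset.mem_Ioo.1 (Finset.mem_coe.1 hV')
      have h' : V \ A = V' \ A := h
      rw [← Finset.sdiff_union_of_subset hV1.1.le, h', Finset.sdiff_union_of_subset hV2.1.le]
  have h2 : (Finset.Ioo A B).image (fun V => V \ A) ⊆ (B \ A).powerset := by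
    intro W hW
    rw [Finset.mem_image] at hW
    obtain ⟨V, hV, rfl⟩ := hW
    rw [Finset.mem_powerset]
    exact Finset.sdiff_subset_sdiff (Finset.mem_Ioo.1 hV).2.le (Finset.Subset.refl A)
  rw [h1]
  refine (Finset.sum_le_sum_of_subset h2).trans ?_
  rw [Finset.sum_powerset_apply_card
    (fun m => if 0 < m ∧ m < (B \ A).card then f m else 0) (x := B \ A)]
  refine Finset.sum_le_sum (fun m _ => ?_)
  rw [smul_eq_mul]

lemma fub_rec (k : ℕ) (hk : k ≤ 7) : 1 + ∑ m ∈ Finset.range (k + 1),
    k.choose m * (if 0 < m ∧ m < k then fubT.getD m 0 else 0) ≤ fubT.getD k 0 := by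
  interval_cases k <;> decide

lemma chains_fub (k : ℕ) : k ≤ 7 → ∀ A B : Finset ℕ, (B \ A).card = k →
    (chains (Finset.Ioo A B)).card ≤ fubT.getD k 0 := by
  induction k using Nat.strong_induction_on with
  | _ k ih =>
    intro hk A B hAB
    refine (chains_Ioo A B).trans ((Nat.add_le_add_left ?_ 1).trans (fub_rec k hk))
    have h1 : ∑ V ∈ Finset.Ioo A B, (chains (Finset.Ioo A V)).card ≤
        ∑ V ∈ Finset.Ioo A B, fubT.getD (V \ A).card 0 := by
      refine Finset.sum_le_sum (fun V hV => ?_)
      rw [Finset.mem_Ioo] at hV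
      have h2 : A ⊆ V := hV.1.le
      have h3 : V ⊆ B := hV.2.le
      have h5 : (V \ A).card < k := by
        have h6 := Finset.card_lt_card hV.2
        rw [← hAB, Finset.card_sdiff_of_subset h2, Finset.card_sdiff_of_subset (h2.trans h3)]
        have h7 := Finset.card_le_card h2
        omega
      exact ih _ h5 (by omega) A V rfl
    refine h1.trans ((sum_Ioo A B (fun m => fubT.getD m 0)).trans ?_)
    rw [hAB]

/-- the sets of the blocks -/
def Ks (w : List ℕ) : List (ℕ × ℕ) → Finset (Finset ℕ)
  | [] => ∅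
  | p :: bl => Finset.Ioo (pre w p.1) (pre w (p.1 + p.2)) ∪ Ks w bl

lemma mem_Ks {w : List ℕ} {bl : List (ℕ × ℕ)} {p : ℕ × ℕ} (hp : p ∈ bl) {S : Finset ℕ}
    (hS : S ∈ Finset.Ioo (pre w p.1) (pre w (p.1 + p.2))) : S ∈ Ks w bl := by
  induction bl with
  | nil => cases hp
  | cons q bl ih =>
    unfold Ks
    rw [Finset.mem_union]
    rcases List.mem_cons.1 hp with rfl | h
    · exact Or.inl hS
    · exact Or.inr (ih h)

lemma pre_mono {w : List ℕ} {a b : ℕ} (h : a ≤ b) : pre w a ⊆ pre w b := by
  intro x hx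
  unfold pre at hx ⊢
  rw [List.mem_toFinset] at hx ⊢
  exact (List.take_prefix_take_left h).subset hx

lemma card_pre' {w : List ℕ} (hw : w.Nodup) {b : ℕ} (hb : b ≤ w.length) : (pre w b).card = b := by
  unfold pre
  rw [List.toFinset_card_of_nodup (hw.sublist (List.take_sublist b w)), List.length_take,
    min_eq_left hb]

lemma chains_Ks {w : List ℕ} (hw : w.Nodup) (bl : List (ℕ × ℕ)) (h7 : ∀ p ∈ bl, p.2 ≤ 7)
    (hle : ∀ p ∈ bl, 1 ≤ p.2 → p.1 + p.2 ≤ w.length) :
    (chains (Ks w bl)).card ≤ ((bl.map Prod.snd).map (fun k => fubT.getD k 0)).prod := by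
  induction bl with
  | nil =>
    show (chains ∅).card ≤ 1
    rw [chains_empty]
  | cons p bl ih =>
    unfold Ks
    rw [List.map_cons, List.map_cons, List.prod_cons]
    refine (chains_union _ _).trans (Nat.mul_le_mul ?_ ?_)
    · apply chains_fub p.2 (h7 p List.mem_cons_self)
      rcases Nat.eq_zero_or_pos p.2 with h | h
      · rw [h, Nat.add_zero, Finset.sdiff_self, Finset.card_empty]
      · have h1 := hle p List.mem_cons_self h
        rw [Finset.card_sdiff_of_subset (pre_mono (Nat.le_add_right _ _)), card_pre' hw h1,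
          card_pre' hw (by omega)]
        omega
    · exact ih (fun q hq => h7 q (List.mem_cons_of_mem _ hq))
        (fun q hq => hle q (List.mem_cons_of_mem _ hq))

lemma oks_mem {Pi : Finset ℕ} {X : Fl} {bl : List (ℕ × ℕ)} {E : List ℕ} (g : Good Pi X)
    (hb : Blk Pi X bl) (hEs : ∀ b, b ∈ E ↔ b ∈ X.s ∧ b ∉ Pi) {S : Finset ℕ}
    (hS : OKS Pi X S) : S ∈ (E.map (pre X.w)).toFinset ∪ Ks X.w bl := by
  obtain ⟨h1, h2, h3⟩ := hS
  rw [Finset.mem_union]
  have hlt := g.lt _ h1
  by_cases hc : S.card ∈ Pi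
  · right
    obtain ⟨p, hp, hp1, hp2⟩ := hb.cover _ hc
    have hcomp := hb.comp p hp (by omega)
    apply mem_Ks hp
    have hle := hcomp.le
    have hA : pre X.w p.1 ⊆ S := by
      rcases h3 p.1 hcomp.left with h | h
      · have := Finset.card_le_card h
        rw [card_pre' g.wn (by omega)] at this
        omega
      · exact h
    have hB : S ⊆ pre X.w (p.1 + p.2) := by
      rcases h3 (p.1 + p.2) hcomp.right with h | h
      · exact h
      · have := Finset.card_le_card h
        rw [card_pre' g.wn (by omega)] at this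
        omega
    rw [Finset.mem_Ioo]
    constructor
    · refine lt_of_le_of_ne hA ?_
      intro he
      rw [← he, card_pre' g.wn (by omega)] at hp1
      omega
    · refine lt_of_le_of_ne hB ?_
      intro he
      rw [he, card_pre' g.wn (by omega)] at hp2
      omega
  · left
    rw [List.mem_toFinset, List.mem_map]
    refine ⟨S.card, (hEs _).2 ⟨h1, hc⟩, ?_⟩
    have hcard := card_pre' g.wn hlt.le
    rcases h3 S.card hc with h | h
    · exact (Finset.eq_of_subset_of_card_le h (by omega)).symm
    · exact Finset.eq_of_subset_of_card_le h (by omega)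

end CertNAux

open CertNAux in
theorem AF_count {Pi : Finset ℕ} {X : Fl} {bl : List (ℕ × ℕ)} {E : List ℕ} (g : Good Pi X)
    (hb : Blk Pi X bl) (h7 : ∀ p ∈ bl, p.2 ≤ 7) (hE : E.Nodup)
    (hEs : ∀ b, b ∈ E ↔ b ∈ X.s ∧ b ∉ Pi) {L : List Face} (hn : L.Nodup)
    (hL : ∀ F ∈ L, AF Pi X F) : L.length + 1 ≤ numF (bl.map Prod.snd) E.length := by
  have h1 : insert ∅ L.toFinset ⊆ chains ((E.map (pre X.w)).toFinset ∪ Ks X.w bl) := by
    intro F hF
    rw [mem_chains]
    rcases Finset.mem_insert.1 hF with rfl | h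
    · exact ⟨Finset.empty_subset _, fun S hS => absurd hS (Finset.notMem_empty S)⟩
    · have hF' := hL F (List.mem_toFinset.1 h)
      exact ⟨fun S hS => oks_mem g hb hEs (hF'.2.1 S hS), hF'.2.2⟩
  have h2 : (insert ∅ L.toFinset).card = L.length + 1 := by
    rw [Finset.card_insert_of_notMem, List.toFinset_card_of_nodup hn]
    intro h
    have := (hL ∅ (List.mem_toFinset.1 h)).1
    exact Finset.not_nonempty_empty this
  rw [← h2]
  refine (Finset.card_le_card h1).trans ((chains_union _ _).trans ?_)
  unfold numF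
  rw [Nat.mul_comm]
  refine Nat.mul_le_mul (chains_Ks g.wn bl h7 (fun p hp h => (hb.comp p hp h).le)) ?_
  refine (chains_pow _).trans (Nat.pow_le_pow_right (by norm_num) ?_)
  exact (List.toFinset_card_le _).trans (by rw [List.length_map])

end Pool.Agent.RS
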