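import Pool.Agent.RS.CertDefs
import Pool.Agent.RS.BlkL

/-!
# RS module CertW: soundness of the certificates

Code of a set `S` in a labelled configuration with start `X`: if `S.card` is the bar with label
`b < K` then the sum of `B ^ i` over the labels `i` of the letters (`X.w[pos bl [i]]`) of the
component of `b` which lie in `S`; if `S.card = E[j]` then `B ^ K * 2 ^ j`; code of a face = sum of
the codes of its sets. It is a function of the face, so faces with different codes are different.
Simulation: `Y.s = (L.map fst).map bar`, `W` = weights of the letters of `Y.w` at the positions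
`pos bl`, and the second entries of `L` are the codes of the suffixes. Each move of `evalC` is a
`Step` (a word step at a label `b < K`, `b` never between two components since all labels come from
`o`; for a label `≥ K` there are no two letters at the positions `b - 1`, `b` of `W`), the new code is
the code of the new face. -/

set_option autoImplicit false

namespace Pool.Agent.RS

open Finset

namespace CertWAux

/-- list of labels with the codes of the suffixes -/
def mkL (f : ℕ → ℕ) : List ℕ → List (ℕ × ℕ)
  | [] => []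
  | b :: o => (b, f b + ((mkL f o).headD (0, 0)).2) :: mkL f o

lemma mkL_hd (f : ℕ → ℕ) (o : List ℕ) : ((mkL f o).headD (0, 0)).2 = (o.map f).sum := by
  induction o with
  | nil => rfl
  | cons b o ih =>
    rw [mkL, List.headD_cons, List.map_cons, List.sum_cons, ih]

lemma mkL_cons (f : ℕ → ℕ) (b : ℕ) (o : List ℕ) :
    mkL f (b :: o) = (b, ((b :: o).map f).sum) :: mkL f o := by
  rw [mkL, mkL_hd, List.map_cons, List.sum_cons]

lemma mkL_fst (f : ℕ → ℕ) (o : List ℕ) : (mkL f o).map Prod.fst = o := by
  induction o with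
  | nil => rfl
  | cons b o ih => rw [mkL_cons, List.map_cons, ih]

lemma mkL_congr {f f' : ℕ → ℕ} {o : List ℕ} (h : ∀ b ∈ o, f b = f' b) : mkL f o = mkL f' o := by
  induction o with
  | nil => rfl
  | cons b o ih =>
    have h1 : ∀ c ∈ o, f c = f' c := fun c hc => h c (List.mem_cons_of_mem _ hc)
    rw [mkL_cons, mkL_cons, ih h1, List.map_congr_left h]

lemma mkL_drop (f : ℕ → ℕ) (o : List ℕ) (r : ℕ) : (mkL f o).drop r = mkL f (o.drop r) := by
  induction r generalizing o with
  | zero => rfl
  | succ r ih =>
    cases o with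
    | nil => rfl
    | cons b o => rw [mkL_cons, List.drop_succ_cons, List.drop_succ_cons, ih]

lemma mkL_exch (f : ℕ → ℕ) (t s s' : List ℕ) (h : (s.map f).sum = (s'.map f).sum) :
    mkL f (t ++ s') = (mkL f (t ++ s)).take t.length ++ mkL f s' := by
  induction t with
  | nil => simp
  | cons c t ih =>
    rw [List.cons_append, List.cons_append, mkL_cons, mkL_cons, List.length_cons,
      List.take_succ_cons, ih, List.cons_append]
    congr 2
    rw [List.map_cons, List.map_cons, List.sum_cons, List.sum_cons, List.map_append,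
      List.map_append, List.sum_append, List.sum_append, h]

lemma startL_eq {B : ℕ} {ks : List ℕ} {f : ℕ → ℕ} {o : List ℕ}
    (h : ∀ b ∈ o, codeL B ks b = f b) : startL B ks o = mkL f o := by
  induction o with
  | nil => rfl
  | cons b o ih =>
    rw [startL, mkL, ih (fun c hc => h c (List.mem_cons_of_mem _ hc)), h b List.mem_cons_self]

lemma offL_eq : ∀ (ks : List ℕ) (off c i : ℕ), i < ks.getD c 0 →
    offL off ks (off + (ks.take c).sum + i) = off + (ks.take c).sum := by
  intro ks
  induction ks with
  | nil => intro off c i h; simp at h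
  | cons k ks ih =>
    intro off c i h
    cases c with
    | zero =>
      have hk : i < k := by simpa using h
      rw [List.take_zero, List.sum_nil, offL, if_pos (by omega)]
      omega
    | succ c =>
      have h1 : i < ks.getD c 0 := by simpa using h
      rw [List.take_succ_cons, List.sum_cons, offL, if_neg (by omega)]
      have := ih (off + k) c i h1
      have e1 : off + (k + (ks.take c).sum) + i = off + k + (ks.take c).sum + i := by omega
      rw [e1, this]
      omega

lemma lt_sum {ks : List ℕ} {c i : ℕ} (h : i < ks.getD c 0) : (ks.take c).sum + i < ks.sum := by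
  induction ks generalizing c with
  | nil => simp at h
  | cons k ks ih =>
    cases c with
    | zero =>
      have hk : i < k := by simpa using h
      rw [List.take_zero, List.sum_nil, List.sum_cons]
      omega
    | succ c =>
      have h1 : i < ks.getD c 0 := by simpa using h
      have := ih h1
      rw [List.take_succ_cons, List.sum_cons, List.sum_cons]
      omega

lemma sum_pre_sdiff {w : List ℕ} (hn : w.Nodup) {a b : ℕ} (hab : a ≤ b) (f : ℕ → ℕ) :
    ∑ x ∈ pre w b \ pre w a, f x = (((w.take b).drop a).map f).sum := by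
  have h1 : w.take b = w.take a ++ (w.take b).drop a := by
    conv_lhs => rw [← List.take_append_drop a (w.take b)]
    rw [List.take_take, min_eq_left hab]
  have h2 : (w.take b).Nodup := hn.sublist (List.take_sublist _ _)
  have h3 : pre w b \ pre w a = ((w.take b).drop a).toFinset := by
    unfold pre
    ext x
    rw [Finset.mem_sdiff, List.mem_toFinset, List.mem_toFinset, List.mem_toFinset]
    rw [h1] at h2
    constructor
    · rintro ⟨h4, h5⟩
      rw [h1, List.mem_append] at h4
      tauto
    · intro h4
      refine ⟨?_, fun h5 => (List.nodup_append.1 h2).2.2 x h5 x h4 rfl⟩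
      rw [h1, List.mem_append]
      exact Or.inr h4
  rw [h3, List.sum_toFinset]
  exact h2.sublist (List.drop_sublist _ _)

/-- code of a set -/
noncomputable def cS (B K : ℕ) (E : List ℕ) (wt : ℕ → ℕ) (base : ℕ → Finset ℕ)
    (S : Finset ℕ) : ℕ :=
  if S.card ∈ E then B ^ K * 2 ^ (E.idxOf S.card) else ∑ x ∈ S \ base S.card, wt x

/-- code of a face -/
noncomputable def cF (c : Finset ℕ → ℕ) (F : Face) : ℕ := ∑ S ∈ F, c S

lemma pre_inj {w : List ℕ} (hw : w.Nodup) {b c : ℕ} (hb : b ≤ w.length) (hc : c ≤ w.length)
    (h : pre w b = pre w c) : b = c := by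
  rw [← pre_card hw hb, ← pre_card hw hc, h]

lemma cF_fc (c : Finset ℕ → ℕ) {w s : List ℕ} (hw : w.Nodup) (hs : s.Nodup)
    (hl : ∀ b ∈ s, b ≤ w.length) : cF c (fc w s) = (s.map (fun b => c (pre w b))).sum := by
  unfold cF fc
  rw [List.sum_toFinset]
  · rw [List.map_map]
    rfl
  · exact (List.nodup_map_iff_inj_on hs).2 fun x hx y hy h => pre_inj hw (hl x hx) (hl y hy) h

lemma faces_code (c : Finset ℕ → ℕ) (bar : ℕ → ℕ) {w : List ℕ} (hw : w.Nodup) :
    ∀ (o : List ℕ), (o.map bar).Nodup → (∀ b ∈ o.map bar, b ≤ w.length) →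
    (faces w (o.map bar)).map (cF c) = (mkL (fun b => c (pre w (bar b))) o).map Prod.snd := by
  intro o
  induction o with
  | nil => intro _ _; rfl
  | cons b o ih =>
    intro h1 h2
    rw [List.map_cons] at h1 h2
    rw [List.map_cons, faces, List.map_cons, mkL_cons, List.map_cons, cF_fc c hw h1 h2,
      ih (List.nodup_cons.1 h1).2 (fun x hx => h2 x (List.mem_cons_of_mem _ hx))]
    congr 1
    rw [← List.map_cons, List.map_map]
    rfl

/-- start of the component of the bar `b` -/
def stt (bl : List (ℕ × ℕ)) (b : ℕ) : ℕ :=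
  ((bl.find? (fun p => decide (p.1 < b ∧ b < p.1 + p.2))).getD (0, 0)).1

lemma stt_eq {Pi : Finset ℕ} {X : Fl} {bl : List (ℕ × ℕ)} (hb : Blk Pi X bl) {a k b : ℕ}
    (h : (a, k) ∈ bl) (h1 : a < b) (h2 : b < a + k) : stt bl b = a := by
  unfold stt
  rcases hf : bl.find? (fun p => decide (p.1 < b ∧ b < p.1 + p.2)) with _ | q
  · rw [List.find?_eq_none] at hf
    exact absurd (decide_eq_true (show (a, k).1 < b ∧ b < (a, k).1 + (a, k).2 from ⟨h1, h2⟩))
      (hf _ h)
  · have h3' := List.find?_some hf
    have h3 : q.1 < b ∧ b < q.1 + q.2 := of_decide_eq_true h3'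
    have h4 := List.mem_of_find?_eq_some hf
    show ((bl.find? (fun p => decide (p.1 < b ∧ b < p.1 + p.2))).getD (0, 0)).1 = a
    rw [hf, Option.getD_some]
    by_contra hne
    obtain ⟨i, hi, hi2⟩ := List.mem_iff_getElem.1 h4
    obtain ⟨j, hj, hj2⟩ := List.mem_iff_getElem.1 h
    have hp := List.pairwise_iff_getElem.1 hb.sorted
    rcases lt_trichotomy i j with hij | hij | hij
    · have := hp i j hi hj hij
      rw [hi2, hj2] at this
      simp only at this
      omega
    · subst hij
      exact hne (by rw [← hi2, hj2])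
    · have := hp j i hj hi hij
      rw [hi2, hj2] at this
      simp only at this
      omega

/-- the letters of the components -/
def ltr (X : Fl) (bl : List (ℕ × ℕ)) : List ℕ := (pos bl).map (fun p => X.w.getD p 0)

/-- weights of the letters -/
def wt (B : ℕ) (X : Fl) (bl : List (ℕ × ℕ)) (x : ℕ) : ℕ :=
  if x ∈ ltr X bl then B ^ ((ltr X bl).idxOf x) else 0

section

variable {B : ℕ} {Pi : Finset ℕ} {X : Fl} {bl : List (ℕ × ℕ)}

lemma ltr_nodup (g : Good Pi X) (hb : Blk Pi X bl) : (ltr X bl).Nodup := by
  unfold ltr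
  refine (List.nodup_map_iff_inj_on hb.pos_nodup).2 ?_
  intro p hp q hq h
  have h1 := hb.pos_lt hp
  have h2 := hb.pos_lt hq
  rw [List.getD_eq_getElem _ _ h1, List.getD_eq_getElem _ _ h2] at h
  exact (List.Nodup.getElem_inj_iff g.wn).1 h

lemma ltr_length : (ltr X bl).length = (pos bl).length := List.length_map _

lemma ltr_getD {i : ℕ} (hi : i < (pos bl).length) :
    (ltr X bl).getD i 0 = X.w.getD ((pos bl).getD i 0) 0 := by
  have h1 : i < (ltr X bl).length := by rw [ltr_length]; exact hi
  rw [List.getD_eq_getElem _ _ h1, List.getD_eq_getElem _ _ hi]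
  simp only [ltr, List.getElem_map]

lemma wt_pos (g : Good Pi X) (hb : Blk Pi X bl) {i : ℕ} (hi : i < (pos bl).length) :
    wt B X bl (X.w.getD ((pos bl).getD i 0) 0) = B ^ i := by
  have h1 : i < (ltr X bl).length := by rw [ltr_length]; exact hi
  rw [← ltr_getD hi, List.getD_eq_getElem _ _ h1, wt, if_pos (List.getElem_mem h1),
    (ltr_nodup g hb).idxOf_getElem]

lemma wt_inv (hB : 2 ≤ B) {x j : ℕ} (hj : j < (pos bl).length) (h : wt B X bl x = B ^ j) :
    x = X.w.getD ((pos bl).getD j 0) 0 := by
  unfold wt at h
  split_ifs at h with hx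
  · have h1 := Nat.pow_right_injective hB h
    have h2 : j < (ltr X bl).length := by rw [ltr_length]; exact hj
    rw [← ltr_getD hj, List.getD_eq_getElem _ _ h2]
    subst h1
    exact (List.getElem_idxOf h2).symm
  · have : 0 < B ^ j := Nat.pow_pos (by omega)
    omega

end


section

variable {B : ℕ} {Pi : Finset ℕ} {X : Fl} {bl : List (ℕ × ℕ)} {E : List ℕ}

/-- the bar with label `b` -/
def bar (bl : List (ℕ × ℕ)) (E : List ℕ) (b : ℕ) : ℕ := (pos bl ++ E).getD b 0

/-- the code of the sets -/
noncomputable def cc (B : ℕ) (X : Fl) (bl : List (ℕ × ℕ)) (E : List ℕ) (S : Finset ℕ) : ℕ :=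
  cS B (pos bl).length E (wt B X bl) (fun b => pre X.w (stt bl b)) S

/-- admissible labels -/
def ok (bl : List (ℕ × ℕ)) (E : List ℕ) (b : ℕ) : Prop :=
  b ∈ movL 0 (bl.map Prod.snd) ∨ ((pos bl).length ≤ b ∧ b < (pos bl).length + E.length)

lemma mov_split {b : ℕ} (h : b ∈ movL 0 (bl.map Prod.snd)) :
    ∃ c i a k, bl[c]? = some (a, k) ∧ i ≠ 0 ∧ i < k ∧
      b = ((bl.take c).map Prod.snd).sum + i ∧ b < (pos bl).length ∧
      ((bl.map Prod.snd).getD c 0 = k) := by
  obtain ⟨c, i, h0, h1, h2⟩ := mem_movL.1 h
  have hs := lt_sum h1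
  rcases hc : bl[c]? with _ | ⟨a, k⟩
  · rw [List.getD_eq_getElem?_getD, List.getElem?_map, hc] at h1
    simp at h1
  · have hk : (bl.map Prod.snd).getD c 0 = k := by
      rw [List.getD_eq_getElem?_getD, List.getElem?_map, hc]
      rfl
    refine ⟨c, i, a, k, hc, h0, by omega, ?_, ?_, hk⟩
    · rw [h2, List.map_take]
    · rw [pos_length, h2]
      exact hs

/-- the positions around a movable bar -/
lemma pos_split {b : ℕ} (h : b ∈ movL 0 (bl.map Prod.snd)) :
    ∃ P1 q P2, pos bl = P1 ++ q :: (q + 1) :: P2 ∧ P1.length + 1 = b ∧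
      (pos bl).getD b 0 = q + 1 := by
  obtain ⟨c, i, a, k, hc, h0, h1, h2, h3, _⟩ := mov_split h
  have e1 : (pos bl).getD b 0 = a + i := by rw [h2]; exact pos_getD hc h1
  have e2 : (pos bl).getD (b - 1) 0 = a + (i - 1) := by
    have : b - 1 = ((bl.take c).map Prod.snd).sum + (i - 1) := by omega
    rw [this]
    exact pos_getD hc (by omega)
  have h4 : b - 1 < (pos bl).length := by omega
  refine ⟨(pos bl).take (b - 1), a + (i - 1), (pos bl).drop (b + 1), ?_, ?_, ?_⟩
  · conv_lhs => rw [← List.take_append_drop (b - 1) (pos bl)]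
    congr 1
    rw [List.drop_eq_getElem_cons h4]
    have h5 : b - 1 + 1 = b := by omega
    rw [h5, List.drop_eq_getElem_cons h3]
    rw [List.getD_eq_getElem _ _ h4] at e2
    rw [List.getD_eq_getElem _ _ h3] at e1
    rw [e1, e2]
    congr 2
    omega
  · rw [List.length_take]
    omega
  · rw [e1]
    omega

lemma bar_mov {b : ℕ} (h : b ∈ movL 0 (bl.map Prod.snd)) :
    bar bl E b = (pos bl).getD b 0 := by
  obtain ⟨c, i, a, k, hc, h0, h1, h2, h3, _⟩ := mov_split h
  unfold bar
  rw [List.getD_eq_getElem?_getD, List.getD_eq_getElem?_getD, List.getElem?_append_left h3]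

lemma bar_eps {b : ℕ} (h : (pos bl).length ≤ b) :
    bar bl E b = E.getD (b - (pos bl).length) 0 := by
  unfold bar
  rw [List.getD_eq_getElem?_getD, List.getD_eq_getElem?_getD, List.getElem?_append_right h]

/-- code of the set of a movable bar -/
lemma cc_mov (g : Good Pi X) (hb : Blk Pi X bl) (hEs : ∀ b, b ∈ E ↔ b ∈ X.s ∧ b ∉ Pi) {Y : Fl}
    (h : Same Pi X Y) {c i a k : ℕ} (hc : bl[c]? = some (a, k)) (h0 : i ≠ 0) (h1 : i < k) :
    cc B X bl E (pre Y.w (a + i)) = (((Y.w.take (a + i)).drop a).map (wt B X bl)).sum := by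
  have gY := h.good g
  have hm : (a, k) ∈ bl := List.mem_of_getElem? hc
  have hcomp := hb.comp (a, k) hm (by simp only; omega)
  simp only at hcomp
  have hPi : a + i ∈ Pi := hcomp.mem _ (by omega) (by omega)
  have hlen : Y.w.length = X.w.length := h.w.length_eq
  have hle := hcomp.le
  have hcard : (pre Y.w (a + i)).card = a + i := pre_card gY.wn (by omega)
  unfold cc cS
  rw [hcard, if_neg (fun h => ((hEs _).1 h).2 hPi)]
  show ∑ x ∈ pre Y.w (a + i) \ pre X.w (stt bl (a + i)), wt B X bl x = _
  rw [stt_eq hb hm (by omega) (by omega), ← h.fix a hcomp.left]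
  exact sum_pre_sdiff gY.wn (by omega) _

lemma cc_eps (g : Good Pi X) (hE : E.Nodup) (hEs : ∀ b, b ∈ E ↔ b ∈ X.s ∧ b ∉ Pi) {Y : Fl}
    (h : Same Pi X Y) {j : ℕ} (hj : j < E.length) :
    cc B X bl E (pre Y.w (E.getD j 0)) = B ^ (pos bl).length * 2 ^ j := by
  have gY := h.good g
  have hlen : Y.w.length = X.w.length := h.w.length_eq
  rw [List.getD_eq_getElem _ _ hj]
  have hm : E[j] ∈ E := List.getElem_mem hj
  have hlt := g.lt _ ((hEs _).1 hm).1
  have hcard : (pre Y.w E[j]).card = E[j] := pre_card gY.wn (by omega)
  unfold cc cS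
  rw [hcard, if_pos hm, hE.idxOf_getElem]

lemma bar_mem (hb : Blk Pi X bl) {b : ℕ} (h : b ∈ movL 0 (bl.map Prod.snd)) : bar bl E b ∈ Pi := by
  rw [bar_mov h]
  exact (mem_Pi_iff hb).2 ⟨b, h, rfl⟩

/-- the codes of the start -/
lemma codeL_eq (g : Good Pi X) (hb : Blk Pi X bl) (hE : E.Nodup)
    (hEs : ∀ b, b ∈ E ↔ b ∈ X.s ∧ b ∉ Pi) {b : ℕ} (h : ok bl E b) :
    codeL B (bl.map Prod.snd) b = cc B X bl E (pre X.w (bar bl E b)) := by
  have hK : (pos bl).length = (bl.map Prod.snd).sum := pos_length
  rcases h with h | ⟨h1, h2⟩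
  · obtain ⟨c, i, a, k, hc, h0, h1, h2, h3, h4⟩ := mov_split h
    have hoff := offL_eq (bl.map Prod.snd) 0 c i (by rw [h4]; exact h1)
    rw [Nat.zero_add, ← List.map_take, ← h2] at hoff
    have e1 : bar bl E b = a + i := by rw [bar_mov h, h2]; exact pos_getD hc h1
    have hm : (a, k) ∈ bl := List.mem_of_getElem? hc
    have hcomp := hb.comp (a, k) hm (by simp only; omega)
    simp only at hcomp
    have hle := hcomp.le
    rw [e1, cc_mov g hb hEs (Same.refl X) hc h0 h1, codeL, if_pos (by omega), hoff]
    have e2 : b - ((bl.take c).map Prod.snd).sum = i := by omega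
    rw [e2]
    congr 1
    apply List.ext_getElem
    · rw [List.length_map, List.length_map, List.length_drop, List.length_take,
        List.length_range]
      omega
    · intro j hj1 hj2
      rw [List.length_map, List.length_range] at hj1
      rw [List.getElem_map, List.getElem_map, List.getElem_range, List.getElem_drop,
        List.getElem_take]
      have hp : (pos bl).getD (((bl.take c).map Prod.snd).sum + j) 0 = a + j :=
        pos_getD hc (by omega)
      have hw := wt_pos (B := B) g hb (i := ((bl.take c).map Prod.snd).sum + j) (by omega)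
      rw [hp, List.getD_eq_getElem _ _ (by omega)] at hw
      exact hw.symm
  · rw [codeL, if_neg (by omega), bar_eps h1, cc_eps g hE hEs (Same.refl X) (by omega), hK]

/-- weights of the letters of `Y` -/
def WY (B : ℕ) (X : Fl) (bl : List (ℕ × ℕ)) (Y : Fl) : List ℕ :=
  (pos bl).map (fun p => wt B X bl (Y.w.getD p 0))

/-- labels and codes of `Y` -/
noncomputable def LY (B : ℕ) (X : Fl) (bl : List (ℕ × ℕ)) (E : List ℕ) (Y : Fl) (o : List ℕ) :
    List (ℕ × ℕ) :=
  mkL (fun b => cc B X bl E (pre Y.w (bar bl E b))) o

lemma getD_swap {u v : List ℕ} {x y p : ℕ} (h1 : p ≠ u.length) (h2 : p ≠ u.length + 1) :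
    (u ++ y :: x :: v).getD p 0 = (u ++ x :: y :: v).getD p 0 := by
  rw [List.getD_eq_getElem?_getD, List.getD_eq_getElem?_getD]
  congr 1
  rcases lt_or_ge p u.length with h | h
  · rw [List.getElem?_append_left h, List.getElem?_append_left h]
  · rw [List.getElem?_append_right h, List.getElem?_append_right h]
    obtain ⟨j, rfl⟩ : ∃ j, p = u.length + (j + 2) := ⟨p - u.length - 2, by omega⟩
    have : u.length + (j + 2) - u.length = j + 2 := by omega
    rw [this]
    rfl

lemma getD_at {u v : List ℕ} {x y : ℕ} :
    (u ++ x :: y :: v).getD u.length 0 = x ∧ (u ++ x :: y :: v).getD (u.length + 1) 0 = y := by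
  constructor
  · rw [List.getD_eq_getElem?_getD, List.getElem?_append_right le_rfl, Nat.sub_self]
    rfl
  · rw [List.getD_eq_getElem?_getD, List.getElem?_append_right (by omega),
      Nat.add_sub_cancel_left]
    rfl

lemma pre_swap {u v : List ℕ} {x y p : ℕ} (h : p ≠ u.length + 1) :
    pre (u ++ y :: x :: v) p = pre (u ++ x :: y :: v) p := by
  unfold pre
  rcases le_or_gt p u.length with h1 | h1
  · rw [List.take_append_of_le_length h1, List.take_append_of_le_length h1]
  · obtain ⟨j, rfl⟩ : ∃ j, p = u.length + (j + 2) := ⟨p - u.length - 2, by omega⟩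
    rw [List.take_length_add_append, List.take_length_add_append, List.take_succ_cons,
      List.take_succ_cons, List.take_succ_cons, List.take_succ_cons]
    ext z
    simp only [List.mem_toFinset, List.mem_append, List.mem_cons]
    tauto

/-- the exchange changes the code of the bar between the letters -/
lemma cc_swap (g : Good Pi X) (hb : Blk Pi X bl) (hEs : ∀ b, b ∈ E ↔ b ∈ X.s ∧ b ∉ Pi)
    {u v s : List ℕ} {x y b : ℕ} (hm : b ∈ movL 0 (bl.map Prod.snd))
    (hbar : (pos bl).getD b 0 = u.length + 1) {s' : List ℕ}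
    (h : Same Pi X ⟨u ++ x :: y :: v, s⟩) (h' : Same Pi X ⟨u ++ y :: x :: v, s'⟩) :
    cc B X bl E (pre (u ++ y :: x :: v) (u.length + 1)) + wt B X bl x =
      cc B X bl E (pre (u ++ x :: y :: v) (u.length + 1)) + wt B X bl y := by
  obtain ⟨c, i, a, k, hc, h0, h1, h2, h3, h4⟩ := mov_split hm
  have e1 : a + i = u.length + 1 := by
    rw [← hbar, h2]
    exact (pos_getD hc h1).symm
  have f1 := cc_mov (B := B) g hb hEs h hc h0 h1
  have f2 := cc_mov (B := B) g hb hEs h' hc h0 h1
  simp only [e1] at f1 f2
  rw [f1, f2]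
  have t1 : ∀ x y : ℕ, (u ++ x :: y :: v).take (u.length + 1) = u ++ [x] := by
    intro x y
    rw [List.take_length_add_append]
    rfl
  rw [t1, t1, List.drop_append_of_le_length (by omega), List.drop_append_of_le_length (by omega),
    List.map_append, List.map_append, List.sum_append, List.sum_append]
  simp only [List.map_cons, List.map_nil, List.sum_cons, List.sum_nil]
  omega

/-- one move -/
lemma step_sim (g : Good Pi X) (hb : Blk Pi X bl) (hE : E.Nodup)
    (hEs : ∀ b, b ∈ E ↔ b ∈ X.s ∧ b ∉ Pi) {Y : Fl} (h : Same Pi X Y) {o : List ℕ}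
    (hs : Y.s = o.map (bar bl E)) (ho : ∀ b ∈ o, ok bl E b) {d : ℕ} {W' : List ℕ}
    {L' : List (ℕ × ℕ)} {s : ℕ}
    (he : evalStep d (WY B X bl Y) (LY B X bl E Y o) = some (W', L', s)) :
    ∃ (Z : Fl) (o' : List ℕ) (F : Face), Step Pi Y Z F ∧ cF (cc B X bl E) F = s ∧
      Z.s = o'.map (bar bl E) ∧ (∀ b ∈ o', ok bl E b) ∧ W' = WY B X bl Z ∧
      L' = LY B X bl E Z o' := by
  have gY := h.good g
  have hsn := gY.sn
  have hsl : ∀ b ∈ Y.s, b ≤ Y.w.length := fun b hb => (gY.lt b hb).le
  rcases d with _ | r
  · -- exchange of letters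
    rcases o with _ | ⟨b, o⟩
    · simp [evalStep, LY, mkL] at he
    · unfold LY at he
      rw [mkL_cons] at he
      simp only [evalStep] at he
      rcases ho b List.mem_cons_self with hm | ⟨h1, h2⟩
      · obtain ⟨P1, q, P2, hp, hl, hq⟩ := pos_split hm
        have hbq : bar bl E b = q + 1 := by rw [bar_mov hm, hq]
        have hPi : q + 1 ∈ Pi := by rw [← hbq]; exact bar_mem hb hm
        have hqs : q + 1 ∈ Y.s := gY.sub _ hPi
        have hql := gY.lt _ hqs
        -- the word of `Y`
        obtain ⟨u, x, y, v, hw, hu⟩ : ∃ u x y v, Y.w = u ++ x :: y :: v ∧ u.length = q := by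
          refine ⟨Y.w.take q, Y.w[q], Y.w[q + 1], Y.w.drop (q + 2), ?_, ?_⟩
          · conv_lhs => rw [← List.take_append_drop q Y.w]
            rw [List.drop_eq_getElem_cons (by omega : q < Y.w.length),
              List.drop_eq_getElem_cons hql]
          · rw [List.length_take]; omega
        have hnd := hb.pos_nodup
        rw [hp] at hnd
        have hnd1 : ∀ p ∈ P1, p ≠ q ∧ p ≠ q + 1 := by
          intro p hp1
          have := (List.nodup_append.1 hnd).2.2 p hp1
          exact ⟨this q List.mem_cons_self,
            this (q + 1) (List.mem_cons_of_mem _ List.mem_cons_self)⟩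
        have hnd2 : ∀ p ∈ P2, p ≠ q ∧ p ≠ q + 1 := by
          intro p hp1
          have h5 := (List.nodup_append.1 hnd).2.1
          rw [List.nodup_cons, List.nodup_cons] at h5
          exact ⟨fun h6 => h5.1 (List.mem_cons_of_mem _ (h6 ▸ hp1)), fun h6 => h5.2.1 (h6 ▸ hp1)⟩
        -- the weights
        have hWY : WY B X bl Y = P1.map (fun p => wt B X bl (Y.w.getD p 0)) ++
            wt B X bl x :: wt B X bl y :: P2.map (fun p => wt B X bl (Y.w.getD p 0)) := by
          unfold WY
          rw [hp, List.map_append, List.map_cons, List.map_cons]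
          rw [hw, ← hu, (getD_at (u := u) (v := v) (x := x) (y := y)).1,
            (getD_at (u := u) (v := v) (x := x) (y := y)).2]
        have hl1 : (P1.map (fun p => wt B X bl (Y.w.getD p 0))).length = b - 1 := by
          rw [List.length_map]; omega
        rw [hWY, ← hl1, List.drop_left, List.take_left] at he
        simp only [Option.some.injEq, Prod.mk.injEq] at he
        obtain ⟨e1, e2, e3⟩ := he
        have hbs : Y.s = (u.length + 1) :: o.map (bar bl E) := by
          rw [hs, List.map_cons, hbq, hu]
        have hYe : Y = ⟨u ++ x :: y :: v, (u.length + 1) :: o.map (bar bl E)⟩ := by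
          ext1
          · exact hw
          · exact hbs
        have hst : Step Pi Y ⟨u ++ y :: x :: v, (u.length + 1) :: o.map (bar bl E)⟩
            (fc (u ++ y :: x :: v) ((u.length + 1) :: o.map (bar bl E))) := by
          rw [hYe]
          exact Step.word u v _ x y (by rw [hu]; exact hPi)
        have hsZ := Step.same gY hst
        have gZ := hsZ.good gY
        have hXZ := h.trans hsZ
        have hsw := cc_swap (B := B) g hb hEs (u := u) (v := v) (x := x) (y := y) hm
          (by rw [hq, hu]) (hYe ▸ h) hXZ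
        have hne : ∀ c ∈ o, bar bl E c ≠ u.length + 1 := by
          intro c hc h6
          rw [hbs, List.nodup_cons] at hsn
          exact hsn.1 (h6 ▸ List.mem_map_of_mem hc)
        have hsame : ∀ c ∈ o, cc B X bl E (pre Y.w (bar bl E c)) =
            cc B X bl E (pre (u ++ y :: x :: v) (bar bl E c)) := by
          intro c hc
          rw [hw, pre_swap (hne c hc)]
        have hmap : o.map (fun c => cc B X bl E (pre Y.w (bar bl E c))) =
            o.map (fun c => cc B X bl E (pre (u ++ y :: x :: v) (bar bl E c))) :=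
          List.map_congr_left hsame
        have hval : (((b :: o).map (fun c => cc B X bl E (pre Y.w (bar bl E c)))).sum +
            wt B X bl y) - wt B X bl x = ((b :: o).map
              (fun c => cc B X bl E (pre (u ++ y :: x :: v) (bar bl E c)))).sum := by
          rw [List.map_cons, List.map_cons, List.sum_cons, List.sum_cons, hmap, hbq, ← hu]
          rw [← hw] at hsw
          omega
        refine ⟨⟨u ++ y :: x :: v, (u.length + 1) :: o.map (bar bl E)⟩, b :: o,
          fc (u ++ y :: x :: v) ((u.length + 1) :: o.map (bar bl E)), hst, ?_, ?_, ho, ?_, ?_⟩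
        · rw [cF_fc _ gZ.wn gZ.sn (fun c hc => (gZ.lt c hc).le), ← e3, hval]
          rw [List.map_cons, List.map_cons, List.map_map, hbq, hu]
          rfl
        · rw [List.map_cons, hbq, hu]
        · rw [← e1]
          unfold WY
          rw [hp, List.map_append, List.map_cons, List.map_cons]
          simp only
          rw [← hu, (getD_at (u := u) (v := v) (x := y) (y := x)).1,
            (getD_at (u := u) (v := v) (x := y) (y := x)).2, hw]
          congr 1
          · apply List.map_congr_left
            intro p hp1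
            rw [getD_swap (by rw [hu]; exact (hnd1 p hp1).1) (by rw [hu]; exact (hnd1 p hp1).2)]
          · congr 2
            apply List.map_congr_left
            intro p hp1
            rw [getD_swap (by rw [hu]; exact (hnd2 p hp1).1) (by rw [hu]; exact (hnd2 p hp1).2)]
        · rw [← e2, hval]
          unfold LY
          rw [mkL_cons, mkL_congr hsame]
      · exfalso
        have h3 : (WY B X bl Y).length = (pos bl).length := List.length_map _
        have h4 : ((WY B X bl Y).drop (b - 1)).length ≤ 1 := by
          rw [List.length_drop]; omega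
        rcases h5 : (WY B X bl Y).drop (b - 1) with _ | ⟨x, _ | ⟨y, v⟩⟩
        · rw [h5] at he; simp at he
        · rw [h5] at he; simp at he
        · rw [h5] at h4; simp at h4
  · -- exchange of bars
    unfold LY at he
    simp only [evalStep] at he
    rw [mkL_drop] at he
    rcases hd : o.drop r with _ | ⟨b1, _ | ⟨b2, o2⟩⟩
    · rw [hd] at he
      simp [mkL] at he
    · rw [hd] at he
      simp [mkL] at he
    · rw [hd, mkL_cons, mkL_cons] at he
      simp only [mkL_hd, Option.some.injEq, Prod.mk.injEq] at he
      obtain ⟨e1, e2, e3⟩ := he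
      have hr : r ≤ o.length := by
        by_contra h7
        rw [List.drop_eq_nil_of_le (by omega)] at hd
        simp at hd
      obtain ⟨t, ht, hot⟩ : ∃ t, t.length = r ∧ o = t ++ b1 :: b2 :: o2 :=
        ⟨o.take r, by rw [List.length_take]; omega, by rw [← hd, List.take_append_drop]⟩
      have hYe : Y = ⟨Y.w, t.map (bar bl E) ++ bar bl E b1 :: bar bl E b2 ::
          o2.map (bar bl E)⟩ := by
        ext1
        · rfl
        · rw [hs, hot, List.map_append, List.map_cons, List.map_cons]
      have hst : Step Pi Y ⟨Y.w, t.map (bar bl E) ++ bar bl E b2 :: bar bl E b1 ::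
          o2.map (bar bl E)⟩ (fc Y.w (bar bl E b1 :: o2.map (bar bl E))) := by
        have hgen : ∀ (Y' Z' : Fl) (F : Face), Y = Y' → Step Pi Y' Z' F → Step Pi Y Z' F :=
          fun Y' Z' F h k => h ▸ k
        exact hgen _ _ _ hYe (Step.order Y.w _ _ _ _)
      have hsZ := Step.same gY hst
      have gZ := hsZ.good gY
      have hsub : (bar bl E b1 :: o2.map (bar bl E)).Sublist
          (t.map (bar bl E) ++ bar bl E b2 :: bar bl E b1 :: o2.map (bar bl E)) :=
        ((List.sublist_cons_self _ _).trans (List.sublist_append_right _ _))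
      have hval : ((b1 :: b2 :: o2).map (fun c => cc B X bl E (pre Y.w (bar bl E c)))).sum +
          (o2.map (fun c => cc B X bl E (pre Y.w (bar bl E c)))).sum -
          ((b2 :: o2).map (fun c => cc B X bl E (pre Y.w (bar bl E c)))).sum =
          ((b1 :: o2).map (fun c => cc B X bl E (pre Y.w (bar bl E c)))).sum := by
        simp only [List.map_cons, List.sum_cons]
        omega
      have hsum : ((b1 :: b2 :: o2).map (fun c => cc B X bl E (pre Y.w (bar bl E c)))).sum =
          ((b2 :: b1 :: o2).map (fun c => cc B X bl E (pre Y.w (bar bl E c)))).sum := by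
        simp only [List.map_cons, List.sum_cons]
        omega
      refine ⟨⟨Y.w, t.map (bar bl E) ++ bar bl E b2 :: bar bl E b1 :: o2.map (bar bl E)⟩,
        t ++ b2 :: b1 :: o2, _, hst, ?_, ?_, ?_, ?_, ?_⟩
      · rw [cF_fc _ gY.wn (gZ.sn.sublist hsub)
          (fun c hc => (gZ.lt c (hsub.subset hc)).le), ← e3, hval]
        rw [List.map_cons, List.map_cons, List.map_map]
        rfl
      · rw [List.map_append, List.map_cons, List.map_cons]
      · intro b hb1
        apply ho
        rw [hot]
        simp only [List.mem_append, List.mem_cons] at hb1 ⊢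
        tauto
      · rw [← e1]
        rfl
      · rw [← e2, hval, hot, ← ht]
        unfold LY
        simp only
        rw [mkL_exch _ t _ _ hsum, mkL_cons _ b2, mkL_cons _ b1, hsum]

/-- simulation of the run -/
lemma sim (g : Good Pi X) (hb : Blk Pi X bl) (hE : E.Nodup)
    (hEs : ∀ b, b ∈ E ↔ b ∈ X.s ∧ b ∉ Pi) :
    ∀ (n mv : ℕ) (Y : Fl) (o : List ℕ), Same Pi X Y → Y.s = o.map (bar bl E) →
    (∀ b ∈ o, ok bl E b) → ∀ (W' : List ℕ) (L' : List (ℕ × ℕ)) (cs : List ℕ),
    evalC n mv (WY B X bl Y) (LY B X bl E Y o) = some (W', L', cs) →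
    ∃ (Z : Fl) (o' : List ℕ) (Lf : List Face), Walk Pi Y Z Lf ∧
      Lf.map (cF (cc B X bl E)) = cs ∧ Z.s = o'.map (bar bl E) ∧ Same Pi X Z ∧
      W' = WY B X bl Z ∧ L'.map Prod.fst = o' := by
  intro n
  induction n with
  | zero =>
    intro mv Y o h hs ho W' L' cs he
    simp only [evalC, Option.some.injEq, Prod.mk.injEq] at he
    obtain ⟨e1, e2, e3⟩ := he
    refine ⟨Y, o, [], Walk.nil Y, ?_, hs, h, e1.symm, ?_⟩
    · rw [← e3]
      rfl
    · rw [← e2]
      exact mkL_fst _ _
  | succ n ih =>
    intro mv Y o h hs ho W' L' cs he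
    rw [evalC] at he
    rcases h1 : evalStep (mv % 8) (WY B X bl Y) (LY B X bl E Y o) with _ | ⟨W1, L1, s1⟩
    · rw [h1] at he
      simp at he
    · rw [h1] at he
      simp only at he
      obtain ⟨Y1, o1, F, k1, k2, k3, k4, k5, k6⟩ := step_sim g hb hE hEs h hs ho h1
      rcases h2 : evalC n (mv / 8) W1 L1 with _ | ⟨W2, L2, cs2⟩
      · rw [h2] at he
        simp at he
      · rw [h2] at he
        simp only [Option.some.injEq, Prod.mk.injEq] at he
        obtain ⟨e1, e2, e3⟩ := he
        have hXY1 := h.trans (Step.same (h.good g) k1)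
        rw [k5, k6] at h2
        obtain ⟨Z, o', Lf, j1, j2, j3, j4, j5, j6⟩ := ih (mv / 8) Y1 o1 hXY1 k3 k4 W2 L2 cs2 h2
        refine ⟨Z, o', F :: Lf, Walk.cons k1 j1, ?_, j3, j4, ?_, ?_⟩
        · rw [List.map_cons, k2, j2, e3]
        · rw [← e1, j5]
        · rw [← e2, j6]

/-- the weights of an arrangement -/
lemma flat_getD {B : ℕ} : ∀ (t : List (List ℕ)) (off c i : ℕ), i < (t.getD c []).length →
    (flatT B off t).getD (((t.take c).map List.length).sum + i) 0 =
      B ^ (off + ((t.take c).map List.length).sum + (t.getD c []).getD i 0) := by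
  intro t
  induction t with
  | nil => intro off c i h; simp at h
  | cons τ t ih =>
    intro off c i h
    cases c with
    | zero =>
      have hi : i < τ.length := by simpa using h
      rw [flatT, List.take_zero, List.map_nil, List.sum_nil, Nat.zero_add, Nat.add_zero,
        List.getD_cons_zero, List.getD_eq_getElem?_getD, List.getElem?_append_left
          (by rw [List.length_map]; exact hi), List.getElem?_map, List.getElem?_eq_getElem hi,
        List.getD_eq_getElem _ _ hi]
      rfl
    | succ c =>
      have hi : i < (t.getD c []).length := by simpa using h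
      rw [flatT, List.take_succ_cons, List.map_cons, List.sum_cons, List.getD_cons_succ,
        List.getD_eq_getElem?_getD, List.getElem?_append_right
          (by rw [List.length_map]; omega), List.length_map]
      have e1 : τ.length + ((t.take c).map List.length).sum + i - τ.length =
          ((t.take c).map List.length).sum + i := by omega
      rw [e1, ← List.getD_eq_getElem?_getD, ih _ _ _ hi]
      congr 1
      omega

lemma mem_lt {τ : List ℕ} (h : (List.range τ.length).all (fun i => τ.contains i) = true) {x : ℕ}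
    (hx : x ∈ τ) : x < τ.length := by
  have h1 : List.range τ.length ⊆ τ := by
    intro i hi
    have := List.all_eq_true.1 h i hi
    simpa using this
  have h2 : (List.range τ.length).Perm τ :=
    (List.subperm_of_subset List.nodup_range h1).perm_of_length_le (by rw [List.length_range])
  exact List.mem_range.1 (h2.mem_iff.2 hx)

/-- the words at the end -/
lemma segs_end (hb : Blk Pi X bl) (hB : 2 ≤ B) {Y : Fl} (h : Same Pi X Y)
    (hk2 : ∀ k ∈ bl.map Prod.snd, 2 ≤ k)
    {t : List (List ℕ)} (ht : okT (bl.map Prod.snd) t = true) (hW : WY B X bl Y = flatT B 0 t) :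
    segs Y.w bl = appT t (segs X.w bl) := by
  unfold okT at ht
  rw [Bool.and_eq_true, beq_iff_eq] at ht
  obtain ⟨ht1, ht2⟩ := ht
  have htl : t.length = bl.length := by
    have := congrArg List.length ht1
    rwa [List.length_map, List.length_map] at this
  have hYl : Y.w.length = X.w.length := h.w.length_eq
  unfold segs appT
  apply List.ext_getElem
  · rw [List.length_map, List.length_zipWith, List.length_map, htl, min_self]
  · intro c hc1 hc2
    rw [List.length_map] at hc1
    have hct : c < t.length := by omega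
    rw [List.getElem_map, List.getElem_zipWith, List.getElem_map]
    rcases hbc : bl[c] with ⟨a, k⟩
    have hm : (a, k) ∈ bl := hbc ▸ List.getElem_mem hc1
    have hk : 2 ≤ k := hk2 k (List.mem_map.2 ⟨(a, k), hm, rfl⟩)
    have hcomp := hb.comp (a, k) hm (by simp only; omega)
    simp only at hcomp
    have hle := hcomp.le
    have hbc' : bl[c]? = some (a, k) := by rw [List.getElem?_eq_getElem hc1, hbc]
    have hτ : (t[c]).length = k := by
      have h1 : (t.map List.length)[c]'(by rw [List.length_map]; exact hct) =
          (bl.map Prod.snd)[c]'(by rw [List.length_map]; exact hc1) := by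
        simp only [ht1]
      rw [List.getElem_map, List.getElem_map, hbc] at h1
      exact h1
    have hall : (List.range (t[c]).length).all (fun i => (t[c]).contains i) = true :=
      List.all_eq_true.1 ht2 _ (List.getElem_mem hct)
    simp only
    apply List.ext_getElem
    · rw [List.length_take, List.length_drop, List.length_map, hτ]
      omega
    · intro i hi1 hi2
      rw [List.length_map, hτ] at hi2
      have hi3 : i < (t[c]).length := by omega
      rw [List.getElem_take, List.getElem_drop, List.getElem_map]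
      have hlt : (t[c])[i] < k := by rw [← hτ]; exact mem_lt hall (List.getElem_mem hi3)
      have hsum : ((t.take c).map List.length).sum = ((bl.take c).map Prod.snd).sum := by
        rw [List.map_take, List.map_take, ht1]
      have hp : (pos bl).getD (((bl.take c).map Prod.snd).sum + i) 0 = a + i :=
        pos_getD hbc' hi2
      have hbd : ∀ j, j < k → ((bl.take c).map Prod.snd).sum + j < (pos bl).length := by
        intro j hj
        rw [pos_length, List.map_take]
        apply lt_sum
        rw [List.getD_eq_getElem?_getD, List.getElem?_map, hbc']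
        exact hj
      have f1 := flat_getD (B := B) t 0 c i (by rw [List.getD_eq_getElem _ _ hct]; exact hi3)
      rw [← hW, hsum, Nat.zero_add, List.getD_eq_getElem _ _ hct,
        List.getD_eq_getElem _ _ hi3] at f1
      have f2 : (WY B X bl Y).getD (((bl.take c).map Prod.snd).sum + i) 0 =
          wt B X bl (Y.w.getD (a + i) 0) := by
        unfold WY
        have h5 := hbd i hi2
        rw [List.getD_eq_getElem _ _ (by rw [List.length_map]; exact h5), List.getElem_map,
          ← List.getD_eq_getElem _ 0 h5, hp]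
      rw [f2] at f1
      have f3 := wt_inv hB (hbd _ hlt) f1
      rw [pos_getD hbc' hlt, List.getD_eq_getElem _ _ (by omega : a + i < Y.w.length),
        List.getD_eq_getElem _ _ (by omega : a + (t[c])[i] < X.w.length)] at f3
      rw [f3, List.getD_eq_getElem _ _ (by rw [List.length_take, List.length_drop]; omega),
        List.getElem_take, List.getElem_drop]

end

end CertWAux

open CertWAux

/-- the walk of a certificate: labelled configuration, start order `o`, arbitrary start codes -/
theorem walk_of_eval {B : ℕ} {ks : List ℕ} {o : List ℕ} {n mv : ℕ} {Pi : Finset ℕ} {X : Fl}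
    {bl : List (ℕ × ℕ)} {E : List ℕ} (g : Good Pi X) (hb : Blk Pi X bl)
    (hbk : bl.map Prod.snd = ks) (hk2 : ∀ k ∈ ks, 2 ≤ k) (hE : E.Nodup)
    (hEs : ∀ b, b ∈ E ↔ b ∈ X.s ∧ b ∉ Pi)
    (hs : X.s = o.map (fun b => (pos bl ++ E).getD b 0))
    (ho : ∀ b ∈ o, b ∈ movL 0 ks ∨ (ks.sum ≤ b ∧ b < ks.sum + E.length))
    {W' : List ℕ} {L' : List (ℕ × ℕ)} {cs : List ℕ}
    (h : evalC n mv ((List.range ks.sum).map (fun i => B ^ i)) (startL B ks o) =
      some (W', L', cs)) :
    ∃ (code : Face → ℕ) (Y : Fl) (Lf : List Face), Walk Pi X Y Lf ∧ Lf.map code = cs ∧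
      (faces X.w X.s).map code = (startL B ks o).map Prod.snd ∧
      Y.s = (L'.map Prod.fst).map (fun b => (pos bl ++ E).getD b 0) ∧
      ∀ t : List (List ℕ), okT ks t = true → 2 ≤ B → W' = flatT B 0 t →
        segs Y.w bl = appT t (segs X.w bl) := by
  subst hbk
  have hK : (pos bl).length = (bl.map Prod.snd).sum := pos_length
  have ho' : ∀ b ∈ o, ok bl E b := by
    intro b hb1
    rcases ho b hb1 with h1 | h1
    · exact Or.inl h1
    · exact Or.inr (by rw [hK]; exact h1)
  have hs' : X.s = o.map (bar bl E) := hs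
  have hst : startL B (bl.map Prod.snd) o = LY B X bl E X o :=
    startL_eq fun b hb1 => codeL_eq g hb hE hEs (ho' b hb1)
  have hW0 : (List.range (bl.map Prod.snd).sum).map (fun i => B ^ i) = WY B X bl X := by
    unfold WY
    apply List.ext_getElem
    · rw [List.length_map, List.length_range, List.length_map, hK]
    · intro i hi1 hi2
      rw [List.length_map, List.length_range, ← hK] at hi1
      rw [List.getElem_map, List.getElem_range]
      rw [List.getElem_map, ← List.getD_eq_getElem _ 0 hi1, wt_pos g hb hi1]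
  rw [hst, hW0] at h
  obtain ⟨Z, o', Lf, h1, h2, h3, h4, h5, h6⟩ :=
    sim g hb hE hEs n mv X o (Same.refl X) hs' ho' W' L' cs h
  refine ⟨cF (cc B X bl E), Z, Lf, h1, h2, ?_, ?_, ?_⟩
  · rw [hst, hs']
    unfold LY
    exact faces_code _ _ g.wn o (hs' ▸ g.sn) (fun b hb1 => (g.lt b (hs' ▸ hb1)).le)
  · rw [h3, h6]
    rfl
  · intro t ht hB hWt
    exact segs_end hb hB h4 hk2 ht (h5 ▸ hWt)

end Pool.Agent.RS
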