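import Pool.Agent.RS.CertA
import Pool.Agent.RS.CertN
import Pool.Agent.RS.CertW

/-!
# RS module CertE: soundness of the certificates

The codes of the faces of the start flag and of the new faces are different, so the faces are
different; their number is `numF ks e - 1` (`numF [M] 0 - 1` for closed certificates), so by
`AF_count` all faces are met.
-/

set_option autoImplicit false

namespace Pool.Agent.RS

open Finset

namespace CertEAux

theorem faces_length (w s : List ℕ) : (faces w s).length = s.length := by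
  induction s with
  | nil => rfl
  | cons b s ih => simp [faces, ih]

theorem all_faces {Pi : Finset ℕ} {X : Fl} {bl : List (ℕ × ℕ)} {E : List ℕ} (g : Good Pi X)
    (hb : Blk Pi X bl) (h7 : ∀ p ∈ bl, p.2 ≤ 7) (hE : E.Nodup)
    (hEs : ∀ b, b ∈ E ↔ b ∈ X.s ∧ b ∉ Pi) {L : List Face} (hn : L.Nodup)
    (hL : ∀ F ∈ L, AF Pi X F) (hc : numF (bl.map Prod.snd) E.length ≤ L.length + 1) :
    ∀ F, F ∈ L ↔ AF Pi X F := by
  intro F
  refine ⟨hL F, fun hF => ?_⟩
  by_contra hn'
  have hL' : ∀ F' ∈ F :: L, AF Pi X F' := by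
    intro F' hF'
    rcases List.mem_cons.1 hF' with h | h
    · exact h ▸ hF
    · exact hL F' h
  have := AF_count g hb h7 hE hEs (L := F :: L) (List.nodup_cons.2 ⟨hn', hn⟩) hL'
  rw [List.length_cons] at this
  omega

theorem movL_mem {b : ℕ} : ∀ {ks : List ℕ} {off : ℕ}, b ∈ movL off ks →
    off < b ∧ b < off + ks.sum
  | [], _, h => by simp [movL] at h
  | k :: ks, off, h => by
    rw [movL, List.mem_append] at h
    rcases h with h | h
    · obtain ⟨i, hi, rfl⟩ := List.mem_map.1 h
      rw [List.mem_range] at hi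
      rw [List.sum_cons]
      omega
    · have := movL_mem h
      rw [List.sum_cons]
      omega

theorem movL_nodup : ∀ {ks : List ℕ} {off : ℕ}, (movL off ks).Nodup
  | [], _ => by simp [movL]
  | k :: ks, off => by
    rw [movL, List.nodup_append']
    refine ⟨?_, movL_nodup, ?_⟩
    · refine List.Nodup.map ?_ List.nodup_range
      intro i j hij
      simpa using hij
    · intro b hb hb'
      obtain ⟨i, hi, rfl⟩ := List.mem_map.1 hb
      rw [List.mem_range] at hi
      have := movL_mem hb'
      omega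

theorem perm_of {l o : List ℕ} (h : l.Nodup) (hs : ∀ b ∈ l, b ∈ o) (hl : o.length ≤ l.length) :
    l.Perm o :=
  (List.subperm_of_subset h hs).perm_of_length_le hl

end CertEAux

open CertEAux

/-- a checked certificate is true -/
theorem EHolds_of_check {B : ℕ} (hB : 2 ≤ B) {ks : List ℕ} {e : ℕ} {o : List ℕ}
    {t : List (List ℕ)} {o' : List ℕ} {n mv : ℕ} (h : checkE B ks e o t o' n mv = true) :
    EHolds ks e o t o' := by
  unfold checkE at h
  simp only [Bool.and_eq_true, beq_iff_eq, List.all_eq_true, decide_eq_true_eq,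
    List.contains_iff_mem, List.mem_range] at h
  obtain ⟨⟨⟨⟨⟨⟨h1, h2⟩, h3⟩, h4⟩, h5⟩, h6⟩, h7⟩ := h
  have hperm : (movL 0 ks ++ (List.range e).map (fun j => ks.sum + j)).Perm o := by
    refine perm_of ?_ ?_ ?_
    · rw [List.nodup_append']
      refine ⟨movL_nodup, ?_, ?_⟩
      · refine List.Nodup.map ?_ List.nodup_range
        intro i j hij
        simpa using hij
      · intro b hb hb'
        obtain ⟨i, hi, rfl⟩ := List.mem_map.1 hb'
        have := movL_mem hb
        omega
    · intro b hb
      rcases List.mem_append.1 hb with hb | hb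
      · exact h4 b hb
      · obtain ⟨i, hi, rfl⟩ := List.mem_map.1 hb
        exact h5 i (List.mem_range.1 hi)
    · simp [h3]
  intro Pi X bl E g hb hbk hE hEe hEs hs
  obtain ⟨V', i1, i2, -, i4⟩ := insC_true h7
  obtain ⟨W', L', cs, V'', r1, r2, r3, r4, r5⟩ := runG_chk i4
  rw [Bool.and_eq_true, beq_iff_eq, beq_iff_eq] at r5
  obtain ⟨code, Y, Lf, w1, w2, w3, w4, w5⟩ := walk_of_eval g hb hbk (fun k hk => (h1 k hk).1) hE hEs
    hs (fun b hbo => by
      rcases List.mem_append.1 (hperm.mem_iff.2 hbo) with h | h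
      · exact Or.inl h
      · obtain ⟨i, hi, rfl⟩ := List.mem_map.1 h
        rw [List.mem_range] at hi
        right
        rw [hEe]
        constructor <;> omega) r1
  have hnd : (faces X.w X.s ++ Lf).Nodup := by
    refine List.Nodup.of_map code ?_
    rw [List.map_append, w2, w3, List.nodup_append']
    refine ⟨i1, r3, ?_⟩
    intro s hs hs'
    have := (i2 s hs).2
    rw [r4 s hs'] at this
    exact absurd this (by simp)
  have hsl : X.s.length = o.length := by rw [hs, List.length_map]
  refine ⟨Y, ⟨Lf, w1, hnd, all_faces g hb ?_ hE hEs hnd ?_ ?_⟩, ?_, w5 t h2 hB r5.1⟩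
  · intro p hp
    refine (h1 p.2 ?_).2
    rw [← hbk]
    exact List.mem_map_of_mem hp
  · intro F hF
    rcases List.mem_append.1 hF with h | h
    · exact faces_AF g h
    · exact Walk.AF g w1 F h
  · have hlf : Lf.length = n := by
      rw [← r2, ← w2, List.length_map]
    rw [hbk, hEe, ← h6, List.length_append, faces_length, hsl, hlf]
    omega
  · rw [w4, r5.2]

/-- common part of the two checks of closed certificates -/
theorem CertEAux.closed {B M : ℕ} (hB : 2 ≤ B) (hM : 2 ≤ M) {o : List ℕ} {n mv : ℕ}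
    (h1 : o.length + 1 = M) (h2 : ∀ b ∈ (List.range M).tail, b ∈ o) (h3 : M ≤ 7)
    (h4 : n + 1 = fubT.getD M 0) {W' : List ℕ} {L' : List (ℕ × ℕ)} {cs : List ℕ}
    (he : evalC n mv ((List.range M).map (fun i => B ^ i)) (startL B [M] o) = some (W', L', cs))
    (hl : cs.length = n) (hc : cs.Nodup) (hW : W' = (List.range M).map (fun i => B ^ i))
    (hL : L'.map Prod.fst = o) : Closed (Ioo 0 M) ⟨List.range M, o⟩ := by
  have hperm : (List.range M).tail.Perm o := by
    refine perm_of (List.nodup_range.tail) h2 ?_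
    rw [List.length_tail, List.length_range]
    omega
  have hmem : ∀ b, b ∈ o ↔ 0 < b ∧ b < M := by
    intro b
    rw [← hperm.mem_iff]
    obtain ⟨m, rfl⟩ : ∃ m, M = m + 1 := ⟨M - 1, by omega⟩
    rw [List.range_succ_eq_map, List.tail_cons, List.mem_map]
    constructor
    · rintro ⟨i, hi, rfl⟩
      rw [List.mem_range] at hi
      omega
    · rintro ⟨hb, hb'⟩
      exact ⟨b - 1, by rw [List.mem_range]; omega, by omega⟩
  have g : Good (Ioo 0 M) ⟨List.range M, o⟩ := by
    refine ⟨List.nodup_range, hperm.nodup_iff.1 List.nodup_range.tail, ?_, ?_, ?_⟩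
    · intro b hb
      rw [Finset.mem_Ioo] at hb
      exact (hmem b).2 hb
    · intro b hb
      exact ((hmem b).1 hb).1
    · intro b hb
      show b < (List.range M).length
      rw [List.length_range]
      exact ((hmem b).1 hb).2
  have hb : Blk (Ioo 0 M) ⟨List.range M, o⟩ [(0, M)] := by
    refine ⟨?_, ?_, ?_⟩
    · intro p hp _
      rw [List.mem_singleton] at hp
      subst hp
      refine ⟨?_, ?_, ?_, ?_, ?_⟩
      · show 1 ≤ M
        omega
      · show 0 + M ≤ (List.range M).length
        rw [List.length_range]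
        omega
      · simp
      · simp
      · intro b hb1 hb2
        rw [Finset.mem_Ioo]
        change b < 0 + M at hb2
        change 0 < b at hb1
        omega
    · intro b hb
      rw [Finset.mem_Ioo] at hb
      exact ⟨(0, M), by simp, hb.1, by show b < 0 + M; omega⟩
    · exact List.pairwise_singleton _ _
  have hpos : pos [(0, M)] = List.range M := by
    simp [pos]
  have hgetD : ∀ b, b < M → (pos [(0, M)] ++ []).getD b 0 = b := by
    intro b hbM
    rw [List.append_nil, hpos, List.getD_eq_getElem?_getD, List.getElem?_range hbM]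
    rfl
  have hmap : o.map (fun b => (pos [(0, M)] ++ []).getD b 0) = o := by
    conv_rhs => rw [← List.map_id o]
    refine List.map_congr_left ?_
    intro b hbo
    exact hgetD b ((hmem b).1 hbo).2
  have hE : ∀ b, b ∈ ([] : List ℕ) ↔ b ∈ (⟨List.range M, o⟩ : Fl).s ∧ b ∉ Ioo 0 M := by
    intro b
    constructor
    · intro h
      simp at h
    · rintro ⟨h, h'⟩
      exact absurd (Finset.mem_Ioo.2 ((hmem b).1 h)) h'
  have hks : ([M] : List ℕ).sum = M := by simp
  obtain ⟨code, Y, Lf, w1, w2, -, w4, w5⟩ := walk_of_eval (B := B) (ks := [M]) (o := o) (n := n)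
    (mv := mv) (E := []) g hb rfl
    (fun k hk => by
      rw [List.mem_singleton] at hk
      omega) List.nodup_nil hE hmap.symm
    (fun b hbo => by
      left
      have := (hmem b).1 hbo
      simp only [movL, List.append_nil, List.mem_map, List.mem_range]
      exact ⟨b - 1, by omega, by omega⟩) (W' := W') (L' := L') (cs := cs) (by rw [hks]; exact he)
  have hnd : Lf.Nodup := by
    refine List.Nodup.of_map code ?_
    rw [w2]
    exact hc
  have hAF : ∀ F, F ∈ Lf ↔ AF (Ioo 0 M) ⟨List.range M, o⟩ F := by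
    refine all_faces g hb ?_ List.nodup_nil hE hnd (Walk.AF g w1) ?_
    · intro p hp
      rw [List.mem_singleton] at hp
      subst hp
      exact h3
    · have hlf : Lf.length = n := by
        rw [← hl, ← w2, List.length_map]
      rw [hlf, h4]
      simp [numF]
  have hsegs : segs Y.w [(0, M)] = segs (List.range M) [(0, M)] := by
    have e1 : segs (List.range M) [(0, M)] = [List.range M] := by
      simp only [segs, List.map_cons, List.map_nil, List.drop_zero]
      rw [List.take_of_length_le (by simp)]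
    rw [w5 [List.range M] ?_ hB ?_, e1]
    · simp only [appT, List.zipWith_cons_cons, List.zipWith_nil_left]
      congr 1
      conv_rhs => rw [← List.map_id (List.range M)]
      refine List.map_congr_left ?_
      intro b hbM
      rw [List.mem_range] at hbM
      rw [List.getD_eq_getElem?_getD, List.getElem?_range hbM]
      rfl
    · simp [okT]
    · rw [hW]
      simp [flatT]
  have hYw : Y.w = List.range M := eq_of_segs g hb (Walk.same g w1) hsegs
  have hYs : Y.s = o := by rw [w4, hL, hmap]
  have hY : Y = ⟨List.range M, o⟩ := by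
    cases Y
    simp only at hYw hYs
    rw [hYw, hYs]
  rw [hY] at w1
  exact ⟨Lf, w1, hnd, hAF⟩

/-- closed certificates -/
theorem Closed_of_check {B M : ℕ} (hB : 2 ≤ B) (hM : 2 ≤ M) {o : List ℕ} {n mv : ℕ}
    (h : checkC B M o n mv = true) : Closed (Ioo 0 M) ⟨List.range M, o⟩ := by
  unfold checkC at h
  simp only [Bool.and_eq_true, beq_iff_eq, List.all_eq_true, decide_eq_true_eq,
    List.contains_iff_mem] at h
  obtain ⟨⟨⟨⟨h1, h2⟩, h3⟩, h4⟩, h5⟩ := h
  obtain ⟨W', L', cs, V', r1, r2, r3, -, r5⟩ := runG_chk h5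
  rw [Bool.and_eq_true, beq_iff_eq, beq_iff_eq] at r5
  exact CertEAux.closed hB hM h1 h2 h3 h4 r1 r2 r3 r5.1 r5.2

/-- closed certificates in parts -/
theorem Closed_of_parts {B M : ℕ} (hB : 2 ≤ B) (hM : 2 ≤ M) {o : List ℕ} {n mv : ℕ}
    (h : ∀ q, q < B → checkQ B M q o n mv = true) : Closed (Ioo 0 M) ⟨List.range M, o⟩ := by
  have key : ∀ q, q < B → o.length + 1 = M ∧ (∀ b ∈ (List.range M).tail, b ∈ o) ∧ M ≤ 7 ∧
      n + 1 = fubT.getD M 0 ∧ ∃ W' L' cs,
        evalC n mv ((List.range M).map (fun i => B ^ i)) (startL B [M] o) = some (W', L', cs) ∧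
        cs.length = n ∧ (cs.filter (fun s => s % B == q)).Nodup ∧
        W' = (List.range M).map (fun i => B ^ i) ∧ L'.map Prod.fst = o := by
    intro q hq
    have h' := h q hq
    unfold checkQ at h'
    simp only [Bool.and_eq_true, beq_iff_eq, List.all_eq_true, decide_eq_true_eq,
      List.contains_iff_mem] at h'
    obtain ⟨⟨⟨⟨h1, h2⟩, h3⟩, h4⟩, h5⟩ := h'
    obtain ⟨W', L', cs, V', r1, r2, r3, r5⟩ := runG_chkM (by omega) h5
    rw [Bool.and_eq_true, beq_iff_eq, beq_iff_eq] at r5
    exact ⟨h1, h2, h3, h4, W', L', cs, r1, r2, r3, r5.1, r5.2⟩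
  obtain ⟨h1, h2, h3, h4, W', L', cs, r1, r2, r3, r5, r6⟩ := key 0 (by omega)
  refine CertEAux.closed hB hM h1 h2 h3 h4 r1 r2 (nodup_of_parts (m := B) (by omega) ?_) r5 r6
  intro q hq
  obtain ⟨-, -, -, -, W2, L2, cs2, q1, -, q3, -, -⟩ := key q hq
  rw [r1] at q1
  simp only [Option.some.injEq, Prod.mk.injEq] at q1
  rw [q1.2.2]
  exact q3

end Pool.Agent.RS
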