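import Pool.Agent.RS.Defs

/-!
# RS module Inv: parity of arrangements
-/

set_option autoImplicit false

namespace Pool.Agent.RS

namespace InvAux

theorem inv_append_single (l : List ℕ) (m : ℕ) :
    inv (l ++ [m]) = inv l + l.countP (fun y => decide (m < y)) := by
  induction l with
  | nil => simp [inv]
  | cons x l ih =>
    simp only [List.cons_append, inv, List.countP_append, List.countP_cons, List.countP_nil, ih]
    omega

theorem inv_append_perm {l l' : List ℕ} (h : l.Perm l') (v : List ℕ) :
    (inv (l ++ v) + inv (l' ++ v) + inv l + inv l') % 2 = 0 := by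
  induction v using List.reverseRecOn with
  | nil => simp only [List.append_nil]; omega
  | append_singleton v m ih =>
    rw [← List.append_assoc, ← List.append_assoc, inv_append_single, inv_append_single]
    have h1 : (l ++ v).countP (fun y => decide (m < y)) = (l' ++ v).countP (fun y => decide (m < y)) :=
      (h.append_right v).countP_eq _
    rw [h1]
    omega

theorem inv_map_perm {f : ℕ → ℕ} {o o' : List ℕ} (h : o.Perm o') (hn : o.Nodup)
    (hf : ∀ a ∈ o, ∀ b ∈ o, f a = f b → a = b) :
    (inv (o.map f) + inv o + inv (o'.map f) + inv o') % 2 = 0 := by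
  induction h with
  | nil => simp [inv]
  | @cons x l₁ l₂ hp ih =>
    have hn' := (List.nodup_cons.1 hn).2
    have ih' := ih hn' (fun a ha b hb => hf a (List.mem_cons_of_mem _ ha) b (List.mem_cons_of_mem _ hb))
    simp only [List.map_cons, inv]
    have h1 := hp.countP_eq (fun y => decide (y < x))
    have h2 := (hp.map f).countP_eq (fun y => decide (y < f x))
    rw [h1, h2]
    omega
  | swap x y l =>
    have hxy : y ≠ x := by
      intro h
      apply (List.nodup_cons.1 hn).1
      simp [h]
    have hfxy : f y ≠ f x := by
      intro h
      exact hxy (hf y (by simp) x (by simp) h)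
    simp only [List.map_cons, inv, List.countP_cons]
    have e1 : (if decide (x < y) = true then 1 else 0) + (if decide (y < x) = true then 1 else 0) = 1 := by
      rcases lt_or_gt_of_ne hxy with h | h
      · simp [h, not_lt.2 h.le]
      · simp [h, not_lt.2 h.le]
    have e2 : (if decide (f x < f y) = true then 1 else 0) + (if decide (f y < f x) = true then 1 else 0) = 1 := by
      rcases lt_or_gt_of_ne hfxy with h | h
      · simp [h, not_lt.2 h.le]
      · simp [h, not_lt.2 h.le]
    omega
  | @trans l₁ l₂ l₃ h12 h23 ih1 ih2 =>
    have i1 := ih1 hn hf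
    have i2 := ih2 (h12.nodup_iff.1 hn)
      (fun a ha b hb => hf a (h12.mem_iff.2 ha) b (h12.mem_iff.2 hb))
    omega

end InvAux

theorem inv_swap {t s : List ℕ} {a b : ℕ} (h : a ≠ b) :
    (inv (t ++ a :: b :: s) + inv (t ++ b :: a :: s)) % 2 = 1 := by
  induction t with
  | nil =>
    simp only [List.nil_append, inv, List.countP_cons]
    have e1 : (if decide (b < a) = true then 1 else 0) + (if decide (a < b) = true then 1 else 0) = 1 := by
      rcases lt_or_gt_of_ne h with h | h
      · simp [h, not_lt.2 h.le]
      · simp [h, not_lt.2 h.le]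
    omega
  | cons x t ih =>
    simp only [List.cons_append, inv]
    have hp : (t ++ a :: b :: s).Perm (t ++ b :: a :: s) :=
      List.Perm.append_left t (List.Perm.swap b a s)
    have h1 := hp.countP_eq (fun y => decide (y < x))
    rw [h1]
    omega

/-- moving the first element to the end -/
theorem inv_rotate {l : List ℕ} {m : ℕ} (h : (m :: l).Nodup) :
    (inv (m :: l) + inv (l ++ [m]) + l.length) % 2 = 0 := by
  rw [InvAux.inv_append_single]
  simp only [inv]
  have hm : m ∉ l := (List.nodup_cons.1 h).1
  have h1 : l.countP (fun y => decide (y < m)) + l.countP (fun y => decide (m < y)) = l.length := by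
    clear h
    induction l with
    | nil => simp
    | cons x l ih =>
      have hx : m ≠ x := fun hh => hm (by simp [hh])
      have := ih (fun hh => hm (List.mem_cons_of_mem _ hh))
      simp only [List.countP_cons, List.length_cons]
      have e1 : (if decide (x < m) = true then 1 else 0) + (if decide (m < x) = true then 1 else 0) = 1 := by
        rcases lt_or_gt_of_ne hx with h | h
        · simp [h, not_lt.2 h.le]
        · simp [h, not_lt.2 h.le]
      omega
  omega

/-- a common last element -/
theorem inv_snoc {l l' : List ℕ} {m : ℕ} (h : l.Perm l') :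
    (inv (l ++ [m]) + inv (l' ++ [m]) + inv l + inv l') % 2 = 0 :=
  InvAux.inv_append_perm h [m]

/-- a common first element -/
theorem inv_cons {l l' : List ℕ} {m : ℕ} (h : l.Perm l') :
    (inv (m :: l) + inv (m :: l') + inv l + inv l') % 2 = 0 := by
  simp only [inv]
  have h1 := h.countP_eq (fun y => decide (y < m))
  rw [h1]
  omega

/-- a common prefix and a common suffix -/
theorem inv_mid {u v l l' : List ℕ} (h : l.Perm l') :
    (inv (u ++ (l ++ v)) + inv (u ++ (l' ++ v)) + inv l + inv l') % 2 = 0 := by
  induction u with
  | nil => simpa using InvAux.inv_append_perm h v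
  | cons x u ih =>
    have := inv_cons (m := x) ((h.append_right v).append_left u)
    simp only [List.cons_append]
    omega

/-- parity is multiplicative -/
theorem inv_comp {s o : List ℕ} (hs : s.Nodup) (ho : o.Perm (List.range s.length)) :
    (inv (o.map (fun i => s.getD i 0)) + inv o + inv s) % 2 = 0 := by
  have h1 := InvAux.inv_map_perm (f := fun i => s.getD i 0) ho
    (ho.nodup_iff.2 List.nodup_range)
    (by
      intro a ha b hb hab
      have ha' : a < s.length := by simpa using ho.mem_iff.1 ha
      have hb' : b < s.length := by simpa using ho.mem_iff.1 hb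
      simp only [List.getD_eq_getElem?_getD, List.getElem?_eq_getElem ha',
        List.getElem?_eq_getElem hb', Option.getD_some] at hab
      exact (hs.getElem_inj_iff).1 hab)
  have h2 : (List.range s.length).map (fun i => s.getD i 0) = s := by
    apply List.ext_getElem
    · simp
    · intro n h₁ h₂
      simp [List.getElem?_eq_getElem h₂]
  have h3 : inv (List.range s.length) = 0 := by
    generalize s.length = n
    induction n with
    | zero => simp [inv]
    | succ n ih =>
      rw [List.range_succ, InvAux.inv_append_single, ih]
      simp only [zero_add]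
      rw [List.countP_eq_zero]
      intro a ha
      simp only [List.mem_range] at ha
      simp; omega
  rw [h2, h3] at h1
  omega

namespace InvAux

/-- exchanging two letters changes the parity -/
theorem inv_map_swap {l : List ℕ} {a c : ℕ} (hn : l.Nodup) (ha : a ∈ l) (hc : c ∈ l) (hac : a ≠ c) :
    (inv (l.map (Equiv.swap a c)) + inv l) % 2 = 1 := by
  obtain ⟨r, hr⟩ : ∃ r, l.Perm (a :: c :: r) := by
    refine ⟨(l.erase a).erase c, ?_⟩
    have h1 := List.perm_cons_erase ha
    have hc' : c ∈ l.erase a := (List.mem_erase_of_ne hac.symm).2 hc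
    exact h1.trans ((List.perm_cons_erase hc').cons a)
  have h1 := inv_map_perm (f := Equiv.swap a c) hr hn
    (fun x _ y _ h => (Equiv.swap a c).injective h)
  have hnr : (a :: c :: r).Nodup := hr.nodup_iff.1 hn
  have e : (a :: c :: r).map (Equiv.swap a c) = c :: a :: r := by
    simp only [List.map_cons, Equiv.swap_apply_left, Equiv.swap_apply_right, List.cons.injEq,
      true_and]
    rw [List.nodup_cons, List.nodup_cons] at hnr
    conv_rhs => rw [← List.map_id r]
    apply List.map_congr_left
    intro x hx
    apply Equiv.swap_apply_of_ne_of_ne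
    · rintro rfl; exact hnr.1 (List.mem_cons_of_mem _ hx)
    · rintro rfl; exact hnr.2.1 hx
  rw [e] at h1
  have h2 := inv_swap (t := []) (s := r) hac
  simp only [List.nil_append] at h2
  omega

end InvAux

/-- an arrangement of at least three free elements `fr` with given ends `q`, `p`, prescribed parity
and two forbidden places: first free element `≠ x0`, last free element `≠ y0` -/
theorem exists_mid {fr : List ℕ} {q p x0 y0 : ℕ} (par : ℕ) (hf : (q :: (fr ++ [p])).Nodup)
    (h3 : 3 ≤ fr.length) :
    ∃ l, l.Perm fr ∧ l.head? ≠ some x0 ∧ l.getLast? ≠ some y0 ∧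
      (inv (q :: (l ++ [p])) + par) % 2 = 0 := by
  have hfr : fr.Nodup := by
    rw [List.nodup_cons, List.nodup_append] at hf
    exact hf.2.1
  -- two arrangements with different parities suffice
  have key : ∀ l l' : List ℕ, l.Perm fr → l.head? ≠ some x0 → l.getLast? ≠ some y0 →
      l'.Perm fr → l'.head? ≠ some x0 → l'.getLast? ≠ some y0 →
      (inv (q :: (l ++ [p])) + inv (q :: (l' ++ [p]))) % 2 = 1 →
      ∃ l, l.Perm fr ∧ l.head? ≠ some x0 ∧ l.getLast? ≠ some y0 ∧
      (inv (q :: (l ++ [p])) + par) % 2 = 0 := by
    intro l l' h1 h2 h3 h1' h2' h3' hpar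
    by_cases hp : (inv (q :: (l ++ [p])) + par) % 2 = 0
    · exact ⟨l, h1, h2, h3, hp⟩
    · exact ⟨l', h1', h2', h3', by omega⟩
  by_cases hxy : x0 ∈ fr ∧ y0 ∈ fr ∧ x0 ≠ y0
  · obtain ⟨hx, hy, hne⟩ := hxy
    obtain ⟨r, hr⟩ : ∃ r, fr.Perm (y0 :: x0 :: r) := by
      refine ⟨(fr.erase y0).erase x0, ?_⟩
      have h1 := List.perm_cons_erase hy
      have hc' : x0 ∈ fr.erase y0 := (List.mem_erase_of_ne hne).2 hx
      exact h1.trans ((List.perm_cons_erase hc').cons y0)
    have hlen := hr.length_eq
    cases r with
    | nil => simp only [List.length_cons, List.length_nil] at hlen; omega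
    | cons c r =>
      have hnd := hr.nodup_iff.1 hfr
      simp only [List.nodup_cons, List.mem_cons, not_or] at hnd
      refine key (y0 :: (r ++ [c, x0])) (y0 :: (r ++ [x0, c])) ?_ ?_ ?_ ?_ ?_ ?_ ?_
      · refine List.Perm.trans ?_ hr.symm
        refine List.Perm.cons y0 ?_
        refine List.perm_append_comm.trans ?_
        exact List.Perm.swap x0 c r
      · simpa using hne.symm
      · simp only [← List.cons_append]
        rw [show y0 :: r ++ [c, x0] = (y0 :: r ++ [c]) ++ [x0] by simp, List.getLast?_concat]
        simpa using hne
      · refine List.Perm.trans ?_ hr.symm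
        refine List.Perm.cons y0 ?_
        exact List.perm_append_comm
      · simpa using hne.symm
      · simp only [← List.cons_append]
        rw [show y0 :: r ++ [x0, c] = (y0 :: r ++ [x0]) ++ [c] by simp, List.getLast?_concat]
        simpa using fun h => hnd.1.2.1 h.symm
      · have := inv_swap (t := q :: y0 :: r) (s := [p]) (a := c) (b := x0) (fun h => hnd.2.1.1 h.symm)
        simpa using this
  · -- there is `m` such that all other elements are free
    obtain ⟨m, hm, hm'⟩ : ∃ m ∈ fr, ∀ x ∈ fr, x ≠ m → x ≠ x0 ∧ x ≠ y0 := by
      by_cases hx : x0 ∈ fr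
      · refine ⟨x0, hx, fun x hx' hne => ⟨hne, ?_⟩⟩
        rintro rfl
        exact hxy ⟨hx, hx', hne.symm⟩
      · by_cases hy : y0 ∈ fr
        · refine ⟨y0, hy, fun x hx' hne => ⟨?_, hne⟩⟩
          rintro rfl
          exact hx hx'
        · cases fr with
          | nil => simp at h3
          | cons a fr =>
            refine ⟨a, by simp, fun x hx' _ => ⟨?_, ?_⟩⟩
            · rintro rfl; exact hx hx'
            · rintro rfl; exact hy hx'
    have hr := List.perm_cons_erase hm
    have hlen := hr.length_eq
    generalize fr.erase m = r at hr hlen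
    match r, hr, hlen with
    | [], _, hlen => simp only [List.length_cons, List.length_nil] at hlen; omega
    | [_], _, hlen => simp only [List.length_cons, List.length_nil] at hlen; omega
    | h :: t :: r, hr, hlen =>
      have hnd := hr.nodup_iff.1 hfr
      simp only [List.nodup_cons, List.mem_cons, not_or] at hnd
      have hh := hm' h (hr.mem_iff.2 (by simp)) (fun e => hnd.1.1 e.symm)
      have ht := hm' t (hr.mem_iff.2 (by simp)) (fun e => hnd.1.2.1 e.symm)
      have hp1 : (h :: (m :: r ++ [t])).Perm fr := by
        refine List.Perm.trans ?_ hr.symm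
        have : (m :: r ++ [t]).Perm (m :: t :: r) := by
          simp only [List.cons_append]
          exact List.Perm.cons m (List.perm_append_comm)
        refine (this.cons h).trans ?_
        exact (List.Perm.swap m h (t :: r))
      have hp2 : (t :: (m :: r ++ [h])).Perm fr := by
        refine List.Perm.trans ?_ hr.symm
        have : (m :: r ++ [h]).Perm (m :: h :: r) := by
          simp only [List.cons_append]
          exact List.Perm.cons m (List.perm_append_comm)
        refine (this.cons t).trans ?_
        refine (List.Perm.swap m t (h :: r)).trans ?_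
        exact (List.Perm.swap h t r).cons m
      refine key (h :: (m :: r ++ [t])) (t :: (m :: r ++ [h])) hp1 ?_ ?_ hp2 ?_ ?_ ?_
      · simpa using hh.1
      · rw [← List.cons_append, List.getLast?_concat]
        simpa using ht.2
      · simpa using ht.1
      · rw [← List.cons_append, List.getLast?_concat]
        simpa using hh.2
      · have hq : q ∉ fr ∧ p ∉ fr := by
          rw [List.nodup_cons, List.nodup_append] at hf
          refine ⟨fun h => hf.1 (by simp [h]), fun h => ?_⟩
          exact hf.2.2.2 p h p (by simp) rfl
        have hl : (q :: (h :: (m :: r ++ [t]) ++ [p])).Nodup := by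
          have : (q :: (h :: (m :: r ++ [t]) ++ [p])).Perm (q :: (fr ++ [p])) :=
            (hp1.append_right [p]).cons q
          exact this.nodup_iff.2 hf
        have := InvAux.inv_map_swap (a := h) (c := t) hl (by simp) (by simp)
          (fun e => hnd.2.1.1 e)
        have e : (q :: (h :: (m :: r ++ [t]) ++ [p])).map (Equiv.swap h t)
            = q :: (t :: (m :: r ++ [h]) ++ [p]) := by
          have hfix : ∀ x, x ≠ h → x ≠ t → Equiv.swap h t x = x := fun x h1 h2 =>
            Equiv.swap_apply_of_ne_of_ne h1 h2
          have hh' : h ∈ fr := hr.mem_iff.2 (by simp)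
          have ht' : t ∈ fr := hr.mem_iff.2 (by simp)
          simp only [List.map_cons, List.map_append, List.map_nil, Equiv.swap_apply_left,
            Equiv.swap_apply_right, List.cons_append]
          rw [hfix q (fun e => hq.1 (e ▸ hh')) (fun e => hq.1 (e ▸ ht')),
            hfix p (fun e => hq.2 (e ▸ hh')) (fun e => hq.2 (e ▸ ht')),
            hfix m (fun e => hnd.1.1 e) (fun e => hnd.1.2.1 e)]
          have : r.map (Equiv.swap h t) = r := by
            conv_rhs => rw [← List.map_id r]
            apply List.map_congr_left
            intro x hx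
            apply hfix
            · rintro rfl; exact hnd.2.1.2 hx
            · rintro rfl; exact hnd.2.2.1 hx
          rw [this]
        rw [e] at this
        omega

/-- an arrangement of the free elements `fr` between a prefix `u` and a last element `m` with
prescribed parity; if there are at least three free elements then the last one can be chosen
different from `y0` -/
theorem exists_mid' {u fr : List ℕ} {m y0 : ℕ} (par : ℕ) (hf : (u ++ (fr ++ [m])).Nodup)
    (h2 : 2 ≤ fr.length) :
    ∃ l, l.Perm fr ∧ (3 ≤ fr.length → l.getLast? ≠ some y0) ∧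
      (inv (u ++ (l ++ [m])) + par) % 2 = 0 := by
  have hfr : fr.Nodup := by
    rw [List.nodup_append, List.nodup_append] at hf
    exact hf.2.1.1
  have key : ∀ l l' : List ℕ, l.Perm fr → (3 ≤ fr.length → l.getLast? ≠ some y0) →
      l'.Perm fr → (3 ≤ fr.length → l'.getLast? ≠ some y0) →
      (inv (u ++ (l ++ [m])) + inv (u ++ (l' ++ [m]))) % 2 = 1 →
      ∃ l, l.Perm fr ∧ (3 ≤ fr.length → l.getLast? ≠ some y0) ∧
      (inv (u ++ (l ++ [m])) + par) % 2 = 0 := by
    intro l l' h1 h3 h1' h3' hpar
    by_cases hp : (inv (u ++ (l ++ [m])) + par) % 2 = 0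
    · exact ⟨l, h1, h3, hp⟩
    · exact ⟨l', h1', h3', by omega⟩
  by_cases hy : y0 ∈ fr
  · have hr := List.perm_cons_erase hy
    have hlen := hr.length_eq
    generalize fr.erase y0 = r at hr hlen
    match r, hr, hlen with
    | [], _, hlen => simp only [List.length_cons, List.length_nil] at hlen; omega
    | [a], hr, hlen =>
      have hnd := hr.nodup_iff.1 hfr
      simp only [List.nodup_cons, List.mem_cons, not_or] at hnd
      refine key [y0, a] [a, y0] hr.symm (fun h => ?_) ((List.Perm.swap y0 a []).trans hr.symm)
        (fun h => ?_) ?_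
      · simp only [List.length_cons, List.length_nil] at hlen; omega
      · simp only [List.length_cons, List.length_nil] at hlen; omega
      · exact inv_swap (t := u) (s := [m]) hnd.1.1
    | a :: b :: r, hr, hlen =>
      have hnd := hr.nodup_iff.1 hfr
      simp only [List.nodup_cons, List.mem_cons, not_or] at hnd
      have hp1 : (y0 :: a :: (r ++ [b])).Perm fr := by
        refine List.Perm.trans ?_ hr.symm
        exact ((List.perm_append_comm (l₁ := r) (l₂ := [b])).cons a).cons y0
      have hp2 : (a :: y0 :: (r ++ [b])).Perm fr :=
        (List.Perm.swap y0 a _).trans hp1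
      refine key (y0 :: a :: (r ++ [b])) (a :: y0 :: (r ++ [b])) hp1 (fun _ => ?_) hp2
        (fun _ => ?_) ?_
      · rw [← List.cons_append, ← List.cons_append, List.getLast?_concat]
        simpa using fun h => hnd.1.2.1 h.symm
      · rw [← List.cons_append, ← List.cons_append, List.getLast?_concat]
        simpa using fun h => hnd.1.2.1 h.symm
      · exact inv_swap (t := u) (s := (r ++ [b]) ++ [m]) hnd.1.1
  · match fr, h2, hfr, hy, key with
    | [], h2, _, _, _ => simp at h2
    | [_], h2, _, _, _ => simp at h2
    | a :: b :: r, _, hfr, hy, key =>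
      have hab : a ≠ b := by
        intro h
        exact (List.nodup_cons.1 hfr).1 (by simp [h])
      have hl : ∀ l : List ℕ, l.Perm (a :: b :: r) → l.getLast? ≠ some y0 := by
        intro l hl h
        exact hy (hl.mem_iff.1 (List.mem_of_getLast? h))
      refine key (a :: b :: r) (b :: a :: r) (List.Perm.refl _) (fun _ => hl _ (List.Perm.refl _))
        (List.Perm.swap a b r) (fun _ => hl _ (List.Perm.swap a b r)) ?_
      exact inv_swap (t := u) (s := r ++ [m]) hab

end Pool.Agent.RS
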