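import Pool.Agent.RS.CertDefs
import Pool.Agent.RS.BlkL
import Pool.Agent.RS.Inv

/-!
# RS module Five: facts for five bars from certificates
-/

set_option autoImplicit false

namespace Pool.Agent.RS

open Finset

/-- all ways to insert `x` -/
def insAll (x : ℕ) : List ℕ → List (List ℕ)
  | [] => [[x]]
  | y :: l => (x :: y :: l) :: (insAll x l).map (fun m => y :: m)

/-- all arrangements of a list -/
def permsL : List ℕ → List (List ℕ)
  | [] => [[]]
  | x :: l => (permsL l).flatMap (insAll x)

private theorem mem_insAll {x : ℕ} {l m : List ℕ} :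
    m ∈ insAll x l ↔ ∃ a b, l = a ++ b ∧ m = a ++ x :: b := by
  induction l generalizing m with
  | nil =>
    unfold insAll
    rw [List.mem_singleton]
    constructor
    · rintro rfl
      exact ⟨[], [], rfl, rfl⟩
    · rintro ⟨a, b, h1, h2⟩
      obtain ⟨rfl, rfl⟩ := List.append_eq_nil_iff.1 h1.symm
      exact h2
  | cons y l ih =>
    unfold insAll
    rw [List.mem_cons, List.mem_map]
    constructor
    · rintro (rfl | ⟨m', h1, rfl⟩)
      · exact ⟨[], y :: l, rfl, rfl⟩
      · obtain ⟨a, b, rfl, rfl⟩ := ih.1 h1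
        exact ⟨y :: a, b, rfl, rfl⟩
    · rintro ⟨a, b, h1, rfl⟩
      rcases a with _ | ⟨c, a⟩
      · left
        rw [List.nil_append] at h1
        rw [h1]
        rfl
      · right
        rw [List.cons_append, List.cons.injEq] at h1
        obtain ⟨rfl, h1⟩ := h1
        exact ⟨a ++ x :: b, ih.2 ⟨a, b, h1, rfl⟩, rfl⟩

theorem mem_permsL {l l' : List ℕ} : l' ∈ permsL l ↔ l'.Perm l := by
  induction l generalizing l' with
  | nil =>
    unfold permsL
    rw [List.mem_singleton, List.perm_nil]
  | cons x l ih =>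
    unfold permsL
    rw [List.mem_flatMap]
    constructor
    · rintro ⟨l1, h1, h2⟩
      obtain ⟨a, b, rfl, rfl⟩ := mem_insAll.1 h2
      exact List.perm_middle.trans ((ih.1 h1).cons x)
    · intro h
      have hx : x ∈ l' := h.mem_iff.2 List.mem_cons_self
      obtain ⟨a, b, rfl⟩ := List.append_of_mem hx
      refine ⟨a ++ b, ih.2 ?_, mem_insAll.2 ⟨a, b, rfl, rfl⟩⟩
      exact (List.perm_cons x).1 (List.perm_middle.symm.trans h)

/-- a certificate: start order, words of the end, end order -/
structure Cer where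
  o : List ℕ
  t : List (List ℕ)
  o' : List ℕ

/-- the pairs of different ε-labels (one label if there is only one) -/
def lowsL (K e : ℕ) : List (List ℕ) :=
  if e ≤ 1 then [[K]] else
    (List.range e).flatMap (fun i => ((List.range e).filter (fun j => i ≠ j)).map
      (fun j => [K + i, K + j]))

/-- start orders: the ε-labels occur in increasing order; `bot`: an ε-label at the bottom -/
def startsL (ks : List ℕ) (e : ℕ) (bot : Bool) : List (List ℕ) :=
  (permsL (movL 0 ks ++ (List.range e).map (fun j => ks.sum + j))).filter (fun o =>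
    (o.filter (fun b => ks.sum ≤ b) == (List.range e).map (fun j => ks.sum + j)) &&
      (!bot || decide (ks.sum ≤ o.headD 0)))

/-- the certificates cover all start orders and all prescribed lowest bars -/
def cover5 (ks : List ℕ) (e : ℕ) (cs : List Cer) (t : List (List ℕ)) (tp : ℕ) : Bool :=
  (startsL ks e true).all (fun o => (lowsL ks.sum e).all (fun lo => cs.any (fun c =>
    (c.o == o) && (c.t == t) && (c.o'.take lo.length == lo) && (c.o'.getLast? == some tp))))

namespace FiveAux

theorem movL_range {off b : ℕ} {ks : List ℕ} (h : b ∈ movL off ks) :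
    off < b ∧ b < off + ks.sum := by
  induction ks generalizing off with
  | nil => simp [movL] at h
  | cons k ks ih =>
    unfold movL at h
    rw [List.mem_append, List.mem_map] at h
    rw [List.sum_cons]
    rcases h with ⟨i, hi, rfl⟩ | h
    · rw [List.mem_range] at hi
      omega
    · have := ih h
      omega

theorem movL_nodup {off : ℕ} {ks : List ℕ} : (movL off ks).Nodup := by
  induction ks generalizing off with
  | nil => simp [movL]
  | cons k ks ih =>
    unfold movL
    rw [List.nodup_append]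
    refine ⟨List.Nodup.map (fun a b h => by simpa using h) List.nodup_range, ih, ?_⟩
    intro a ha b hb hab
    rw [List.mem_map] at ha
    obtain ⟨i, hi, rfl⟩ := ha
    rw [List.mem_range] at hi
    have := movL_range hb
    omega

theorem getD_idxOf {l : List ℕ} {b : ℕ} (h : b ∈ l) : l.getD (l.idxOf b) 0 = b := by
  have h1 := List.idxOf_lt_length_iff.2 h
  rw [List.getD_eq_getElem _ _ h1, List.getElem_idxOf]

theorem idxOf_getD {l : List ℕ} (hl : l.Nodup) {i : ℕ} (hi : i < l.length) :
    l.idxOf (l.getD i 0) = i := by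
  rw [List.getD_eq_getElem _ _ hi]
  exact hl.idxOf_getElem i hi

theorem getD_left {l l' : List ℕ} {i : ℕ} (h : i < l.length) :
    (l ++ l').getD i 0 = l.getD i 0 := List.getD_append _ _ _ _ h

theorem getD_right {l l' : List ℕ} {i : ℕ} :
    (l ++ l').getD (l.length + i) 0 = l'.getD i 0 := by
  rw [List.getD_append_right _ _ _ _ (Nat.le_add_right _ _), Nat.add_sub_cancel_left]

end FiveAux

open FiveAux

/-- normal form of the start: label the ε-bars in the order in which they occur in `X.s` -/
theorem exists_labels {Pi : Finset ℕ} {X : Fl} {bl : List (ℕ × ℕ)} {e : ℕ} (g : Good Pi X)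
    (hb : Blk Pi X bl) (h2 : ∀ p ∈ bl, 2 ≤ p.2) (he : Pi.card + e = X.s.length) :
    ∃ E : List ℕ, ∃ o : List ℕ, E.Nodup ∧ E.length = e ∧ (∀ b, b ∈ E ↔ b ∈ X.s ∧ b ∉ Pi) ∧
      X.s = o.map (fun b => (pos bl ++ E).getD b 0) ∧
      o ∈ startsL (bl.map Prod.snd) e false ∧
      (HeadEps Pi X → o ∈ startsL (bl.map Prod.snd) e true) := by
  classical
  have _ := h2
  have hK : (pos bl).length = (bl.map Prod.snd).sum := pos_length
  obtain ⟨E, hE⟩ : ∃ E : List ℕ, E = X.s.filter (fun b => b ∉ Pi) := ⟨_, rfl⟩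
  have hEn : E.Nodup := by rw [hE]; exact g.sn.filter _
  have hEm : ∀ b, b ∈ E ↔ b ∈ X.s ∧ b ∉ Pi := by
    intro b
    rw [hE, List.mem_filter, decide_eq_true_iff]
  have hPl : (X.s.filter (fun b => b ∈ Pi)).length = Pi.card := by
    have h3 : (X.s.filter (fun b => b ∈ Pi)).toFinset = Pi := by
      ext b
      rw [List.mem_toFinset, List.mem_filter, decide_eq_true_iff]
      exact ⟨fun h => h.2, fun h => ⟨g.sub b h, h⟩⟩
    rw [← List.toFinset_card_of_nodup (g.sn.filter _), h3]
  have hEl : E.length = e := by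
    have h3 := X.s.length_eq_length_filter_add (fun b => decide (b ∈ Pi))
    have h4 : X.s.filter (fun b => !decide (b ∈ Pi)) = E := by
      rw [hE]
      refine List.filter_congr fun b _ => ?_
      by_cases hb : b ∈ Pi <;> simp [hb]
    rw [h4, hPl] at h3
    omega
  obtain ⟨lab, hlab⟩ : ∃ lab : ℕ → ℕ, lab = fun b =>
    if b ∈ Pi then (pos bl).idxOf b else (bl.map Prod.snd).sum + E.idxOf b := ⟨_, rfl⟩
  have hlabP : ∀ b ∈ Pi, lab b ∈ movL 0 (bl.map Prod.snd) ∧ (pos bl).getD (lab b) 0 = b := by
    intro b hbP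
    obtain ⟨m, hm, hbm⟩ := (mem_Pi_iff hb).1 hbP
    have h3 := movL_range hm
    have h4 : (pos bl).idxOf b = m := by
      rw [hbm]
      exact idxOf_getD hb.pos_nodup (by omega)
    rw [hlab]
    show (if b ∈ Pi then (pos bl).idxOf b else _) ∈ _ ∧ (pos bl).getD (if b ∈ Pi then _ else _) 0 = b
    rw [if_pos hbP, h4]
    exact ⟨hm, hbm.symm⟩
  have hlabE : ∀ b ∈ X.s, b ∉ Pi → lab b = (bl.map Prod.snd).sum + E.idxOf b ∧ E.idxOf b < e := by
    intro b hb1 hb2
    have h3 : b ∈ E := (hEm b).2 ⟨hb1, hb2⟩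
    have h4 := List.idxOf_lt_length_iff.2 h3
    rw [hlab]
    show (if b ∈ Pi then _ else _) = _ ∧ _
    rw [if_neg hb2]
    exact ⟨rfl, by omega⟩
  have hge : ∀ b ∈ X.s, ((bl.map Prod.snd).sum ≤ lab b ↔ b ∉ Pi) := by
    intro b hb1
    by_cases hb2 : b ∈ Pi
    · have h3 := movL_range (hlabP b hb2).1
      constructor
      · intro h4
        omega
      · exact fun h4 => absurd hb2 h4
    · have h3 := (hlabE b hb1 hb2).1
      exact ⟨fun _ => hb2, fun _ => by omega⟩
  have hinv : ∀ b ∈ X.s, (pos bl ++ E).getD (lab b) 0 = b := by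
    intro b hb1
    by_cases hb2 : b ∈ Pi
    · obtain ⟨h3, h4⟩ := hlabP b hb2
      have h5 := movL_range h3
      rw [getD_left (by omega), h4]
    · rw [(hlabE b hb1 hb2).1, ← hK, getD_right]
      exact getD_idxOf ((hEm b).2 ⟨hb1, hb2⟩)
  have hinj : ∀ b ∈ X.s, ∀ b' ∈ X.s, lab b = lab b' → b = b' := by
    intro b hb1 b' hb1' h3
    rw [← hinv b hb1, ← hinv b' hb1', h3]
  have hEmap : E.map lab = (List.range e).map (fun j => (bl.map Prod.snd).sum + j) := by
    apply List.ext_getElem
    · rw [List.length_map, List.length_map, List.length_range, hEl]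
    · intro i h3 h4
      rw [List.getElem_map, List.getElem_map, List.getElem_range]
      have h5 : i < E.length := by rwa [List.length_map] at h3
      have h6 : E[i] ∈ E := List.getElem_mem h5
      obtain ⟨h7, h8⟩ := (hEm _).1 h6
      rw [(hlabE _ h7 h8).1, hEn.idxOf_getElem i h5]
  have hfil : (X.s.map lab).filter (fun b => decide ((bl.map Prod.snd).sum ≤ b)) =
      (List.range e).map (fun j => (bl.map Prod.snd).sum + j) := by
    rw [List.filter_map, ← hEmap, hE]
    congr 1
    refine List.filter_congr fun b hb1 => ?_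
    show decide ((bl.map Prod.snd).sum ≤ lab b) = decide (b ∉ Pi)
    rw [decide_eq_decide]
    exact hge b hb1
  have hperm : (X.s.map lab).Perm (movL 0 (bl.map Prod.snd) ++
      (List.range e).map (fun j => (bl.map Prod.snd).sum + j)) := by
    rw [List.perm_ext_iff_of_nodup]
    · intro m
      rw [List.mem_map, List.mem_append, List.mem_map]
      constructor
      · rintro ⟨b, hb1, rfl⟩
        by_cases hb2 : b ∈ Pi
        · exact Or.inl (hlabP b hb2).1
        · obtain ⟨h3, h4⟩ := hlabE b hb1 hb2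
          exact Or.inr ⟨_, List.mem_range.2 h4, h3.symm⟩
      · rintro (h3 | ⟨j, hj, rfl⟩)
        · have h4 : (pos bl).getD m 0 ∈ Pi := (mem_Pi_iff hb).2 ⟨m, h3, rfl⟩
          have h5 := movL_range h3
          refine ⟨(pos bl).getD m 0, g.sub _ h4, ?_⟩
          rw [hlab]
          show (if (pos bl).getD m 0 ∈ Pi then _ else _) = m
          rw [if_pos h4]
          exact idxOf_getD hb.pos_nodup (by omega)
        · rw [List.mem_range] at hj
          have h5 : j < E.length := by omega
          have h6 : E[j] ∈ E := List.getElem_mem h5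
          obtain ⟨h7, h8⟩ := (hEm _).1 h6
          refine ⟨E[j], h7, ?_⟩
          rw [(hlabE _ h7 h8).1, hEn.idxOf_getElem j h5]
    · exact List.Nodup.map_on (fun a ha b hb hab => hinj a ha b hb hab) g.sn
    · rw [List.nodup_append]
      refine ⟨movL_nodup, List.Nodup.map (fun a b h => by simpa using h) List.nodup_range, ?_⟩
      intro a ha b hb' hab
      rw [List.mem_map] at hb'
      obtain ⟨j, -, rfl⟩ := hb'
      have := movL_range ha
      omega
  have hmem : X.s.map lab ∈ startsL (bl.map Prod.snd) e false := by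
    unfold startsL
    rw [List.mem_filter]
    refine ⟨mem_permsL.2 hperm, ?_⟩
    rw [hfil]
    simp
  refine ⟨E, X.s.map lab, hEn, hEl, hEm, ?_, hmem, ?_⟩
  · rw [List.map_map]
    conv_lhs => rw [← List.map_id X.s]
    exact List.map_congr_left fun b hb1 => (hinv b hb1).symm
  · rintro ⟨b, s, h3, h4⟩
    have hmem' := hmem
    unfold startsL at hmem' ⊢
    rw [List.mem_filter] at hmem' ⊢
    refine ⟨hmem'.1, ?_⟩
    rw [hfil]
    have h5 : (bl.map Prod.snd).sum ≤ (X.s.map lab).headD 0 := by
      rw [h3]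
      show _ ≤ lab b
      exact (hge b (by rw [h3]; exact List.mem_cons_self)).2 h4
    simp only [beq_self_eq_true, Bool.not_true, Bool.false_or, Bool.true_and]
    exact decide_eq_true h5

/-- prescribed lowest bars as labels -/
private theorem exists_low {Pi : Finset ℕ} {X : Fl} {P E : List ℕ} {e K : ℕ} (hE : E.Nodup)
    (hEl : E.length = e) (he1 : 1 ≤ e) (hEm : ∀ b, b ∈ E ↔ b ∈ X.s ∧ b ∉ Pi)
    (hK : P.length = K) {low : List ℕ} (hl : Low Pi X low) :
    ∃ lo ∈ lowsL K e, low <+: lo.map (fun b => (P ++ E).getD b 0) := by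
  have hget : ∀ i, (P ++ E).getD (K + i) 0 = E.getD i 0 := by
    intro i
    rw [← hK, getD_right]
  have hidx : ∀ b ∈ low, b = E.getD (E.idxOf b) 0 ∧ E.idxOf b < e := by
    intro b hb
    have h1 : b ∈ E := (hEm b).2 (hl.mem b hb)
    have h2 := List.idxOf_lt_length_iff.2 h1
    exact ⟨(getD_idxOf h1).symm, by omega⟩
  have hpair : ∀ i j, i < e → j < e → i ≠ j → [K + i, K + j] ∈ lowsL K e := by
    intro i j hi hj hij
    unfold lowsL
    rw [if_neg (by omega), List.mem_flatMap]
    refine ⟨i, List.mem_range.2 hi, List.mem_map.2 ⟨j, ?_, rfl⟩⟩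
    rw [List.mem_filter]
    exact ⟨List.mem_range.2 hj, by simpa using hij⟩
  have hone : ∀ i, i < e → ∃ lo ∈ lowsL K e, ∃ r, lo = (K + i) :: r := by
    intro i hi
    rcases Nat.lt_or_ge 1 e with h1 | h1
    · obtain ⟨j, hj, hij⟩ : ∃ j, j < e ∧ i ≠ j := by
        rcases Nat.eq_zero_or_pos i with h2 | h2
        · exact ⟨1, h1, by omega⟩
        · exact ⟨0, by omega, by omega⟩
      exact ⟨_, hpair i j hi hj hij, _, rfl⟩
    · refine ⟨[K], ?_, [], ?_⟩
      · unfold lowsL
        rw [if_pos h1]
        exact List.mem_singleton_self _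
      · rw [show i = 0 by omega, Nat.add_zero]
  rcases low with _ | ⟨b, low⟩
  · obtain ⟨lo, h1, -⟩ := hone 0 (by omega)
    exact ⟨lo, h1, List.nil_prefix⟩
  · obtain ⟨h1, h2⟩ := hidx b List.mem_cons_self
    rcases low with _ | ⟨b', low⟩
    · obtain ⟨lo, h3, r, rfl⟩ := hone _ h2
      refine ⟨_, h3, ?_⟩
      rw [List.map_cons, hget, ← h1]
      exact ⟨_, rfl⟩
    · rcases low with _ | ⟨b'', low⟩
      · obtain ⟨h3, h4⟩ := hidx b' (by simp)
        have hne : E.idxOf b ≠ E.idxOf b' := by
          intro h5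
          have h6 := hl.nd
          rw [List.nodup_cons] at h6
          apply h6.1
          rw [h1, h5, ← h3]
          exact List.mem_singleton_self _
        refine ⟨_, hpair _ _ h2 h4 hne, ?_⟩
        rw [List.map_cons, List.map_cons, hget, hget, ← h1, ← h3]
        exact ⟨[], rfl⟩
      · have := hl.len
        simp at this

/-- the fact is true for exactly five bars -/
theorem five_of_cover {f : Fact} {e : ℕ} {cs : List Cer} (hf : okF f = true)
    (hn : f.cls = none) (he : (f.ks.map (fun k => k - 1)).sum + e = 5) (he1 : 1 ≤ e)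
    (hcs : ∀ c ∈ cs, EHolds f.ks e c.o c.t c.o')
    (hc : cover5 f.ks e cs f.t f.tp = true) :
    ∀ (Pi : Finset ℕ) (X : Fl) (bl : List (ℕ × ℕ)), Good Pi X → Blk Pi X bl →
      bl.map Prod.snd = f.ks → X.s.length = 5 → HeadEps Pi X → ∀ low, Low Pi X low →
      ∃ Y, Strip Pi X Y ∧ low <+: Y.s ∧ segs Y.w bl = appT f.t (segs X.w bl) ∧
        Y.s.getLast? = some ((pos bl).getD f.tp 0) := by
  have _ := hn
  intro Pi X bl g hb hks hlen hhead low hlow
  unfold okF at hf
  simp only [Bool.and_eq_true] at hf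
  obtain ⟨⟨⟨⟨hf1, hf2⟩, hf3⟩, hf4⟩, hf5⟩ := hf
  rw [List.all_eq_true] at hf1
  have h2 : ∀ p ∈ bl, 2 ≤ p.2 := by
    intro p hp
    have h3 := hf1 p.2 (by rw [← hks]; exact List.mem_map_of_mem hp)
    simpa using h3
  have hcard : (f.ks.map (fun k => k - 1)).sum = Pi.card := by
    rw [← hb.card, ← hks, List.map_map]
    rfl
  have hPe : Pi.card + e = X.s.length := by omega
  obtain ⟨E, o, hE, hEl, hEm, hXs, -, ho⟩ := exists_labels g hb h2 hPe
  have hoS := ho hhead
  rw [hks] at hoS
  have hK : (pos bl).length = f.ks.sum := by rw [← hks]; exact pos_length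
  obtain ⟨lo, hlo, hlo2⟩ := exists_low (P := pos bl) hE hEl he1 hEm hK hlow
  unfold cover5 at hc
  rw [List.all_eq_true] at hc
  have hc1 := hc o hoS
  rw [List.all_eq_true] at hc1
  have hc2 := hc1 lo hlo
  rw [List.any_eq_true] at hc2
  obtain ⟨c, hcc, hc3⟩ := hc2
  simp only [Bool.and_eq_true, beq_iff_eq] at hc3
  obtain ⟨⟨⟨g1, g2⟩, g3⟩, g4⟩ := hc3
  rw [← g1] at hXs
  obtain ⟨Y, hY1, hY2, hY3⟩ := hcs c hcc Pi X bl E g hb hks hE hEl hEm hXs
  refine ⟨Y, hY1, ?_, by rw [hY3, g2], ?_⟩
  · refine hlo2.trans ?_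
    rw [hY2, ← g3, List.map_take]
    exact List.take_prefix _ _
  · rw [hY2, List.getLast?_map, g4]
    rw [List.contains_iff_mem] at hf4
    have h5 := movL_range hf4
    show some ((pos bl ++ E).getD f.tp 0) = _
    rw [getD_left (by omega)]

/-- together with a derivation for at least six bars -/
theorem Holds_of_five {f : Fact} {e : ℕ} {cs : List Cer} (hf : okF f = true)
    (h5 : f.five = true) (hn : f.cls = none) (he : (f.ks.map (fun k => k - 1)).sum + e = 5)
    (he1 : 1 ≤ e) (hcs : ∀ c ∈ cs, EHolds f.ks e c.o c.t c.o')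
    (hc : cover5 f.ks e cs f.t f.tp = true) (h6 : HoldsAt 6 f) : Holds f := by
  refine ⟨hf, ?_⟩
  rw [if_pos h5]
  intro Pi X bl g hb hks hlen hPi hcls low hlow
  rcases Nat.lt_or_ge 5 X.s.length with h7 | h7
  · exact h6 Pi X bl g hb hks h7 hPi hcls low hlow
  · refine five_of_cover hf hn he he1 hcs hc Pi X bl g hb hks (by omega) ?_ low hlow
    rw [hn] at hcls
    exact hcls

/-- `D05` from the certificates without movable bars: all ends `o'` of the right parity with the
bottom bar `0` of the start on the top (`inv_comp`: parity of the arrangement `o'.map`) -/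
theorem D05_of_cert (cs : List (List ℕ)) (hcs : ∀ o' ∈ cs, EHolds [] 5 [0, 1, 2, 3, 4] [] o')
    (hc : ((permsL [0, 1, 2, 3, 4]).filter (fun o' => (o'.getLast? == some 0) &&
      (inv o' % 2 == 0))).all (fun o' => cs.contains o') = true) :
    ∀ (w s t : List ℕ) (m : ℕ), Good ∅ ⟨w, s⟩ → s.length = 5 → t.Perm s →
      s.head? = some m → t.getLast? = some m → (inv s + inv t) % 2 = 0 →
      Strip ∅ ⟨w, s⟩ ⟨w, t⟩ := by
  intro w s t m g hs ht h1 h2 hp
  have hsn : s.Nodup := g.sn
  have htn : t.Nodup := ht.nodup_iff.2 hsn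
  obtain ⟨o', ho'⟩ : ∃ o' : List ℕ, o' = t.map (fun b => s.idxOf b) := ⟨_, rfl⟩
  have hmap : o'.map (fun i => s.getD i 0) = t := by
    rw [ho', List.map_map]
    conv_rhs => rw [← List.map_id t]
    exact List.map_congr_left fun b hb => getD_idxOf (ht.mem_iff.1 hb)
  have hrange : o'.Perm (List.range s.length) := by
    rw [List.perm_ext_iff_of_nodup]
    · intro i
      rw [ho', List.mem_map, List.mem_range]
      constructor
      · rintro ⟨b, hb, rfl⟩
        exact List.idxOf_lt_length_iff.2 (ht.mem_iff.1 hb)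
      · intro hi
        refine ⟨s.getD i 0, ht.mem_iff.2 ?_, idxOf_getD hsn hi⟩
        rw [List.getD_eq_getElem _ _ hi]
        exact List.getElem_mem hi
    · rw [ho']
      refine List.Nodup.map_on (fun a ha b hb hab => ?_) htn
      rw [← getD_idxOf (ht.mem_iff.1 ha), ← getD_idxOf (ht.mem_iff.1 hb), hab]
    · exact List.nodup_range
  have hlast : o'.getLast? = some 0 := by
    rw [ho', List.getLast?_map, h2]
    show some (s.idxOf m) = some 0
    rcases s with _ | ⟨x, s⟩
    · simp at h1
    · rw [List.head?_cons, Option.some.injEq] at h1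
      rw [h1, List.idxOf_cons_self]
  have hinv : inv o' % 2 = 0 := by
    have h3 := inv_comp hsn hrange
    rw [hmap] at h3
    omega
  have hmem : o' ∈ cs := by
    rw [List.all_eq_true] at hc
    have h3 := hc o' (by
      rw [List.mem_filter]
      refine ⟨mem_permsL.2 ?_, ?_⟩
      · rw [hs] at hrange
        exact hrange
      · rw [hlast, hinv]
        rfl)
    rwa [List.contains_iff_mem] at h3
  have hblk : Blk ∅ ⟨w, s⟩ [] :=
    ⟨fun p hp => absurd hp List.not_mem_nil, fun b hb => absurd hb (Finset.notMem_empty b),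
      List.Pairwise.nil⟩
  have hs5 : s = [0, 1, 2, 3, 4].map (fun b => (pos [] ++ s).getD b 0) := by
    have h3 : pos [] ++ s = s := rfl
    rw [h3]
    match s, hs with
    | [a, b, c, d, e], _ => rfl
  obtain ⟨Y, hY1, hY2, -⟩ := hcs o' hmem ∅ ⟨w, s⟩ [] s g hblk rfl hsn hs
    (fun b => ⟨fun h => ⟨h, Finset.notMem_empty b⟩, fun h => h.1⟩) hs5
  have hYs : Y.s = t := by
    rw [hY2]
    exact hmap
  have hYw : Y.w = w := eq_of_segs g hblk (hY1.same g) rfl
  have hY : Y = ⟨w, t⟩ := Fl.ext hYw hYs
  rw [← hY]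
  exact hY1

end Pool.Agent.RS
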