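import Pool.Agent.RS.CertE
import Pool.Agent.RS.Five

/-!
# RS: lists of certificates
-/

set_option autoImplicit false

namespace Pool.Agent.RS

/-- a certificate with its moves: start order, words of the end, end order, number of moves, moves -/
structure CerD where
  o : List ℕ
  t : List (List ℕ)
  o' : List ℕ
  n : ℕ
  mv : ℕ

def CerD.cer (c : CerD) : Cer := ⟨c.o, c.t, c.o'⟩

/-- check of a list of certificates -/
noncomputable def checkL (B : ℕ) (ks : List ℕ) (e : ℕ) (l : List CerD) : Bool :=
  l.all (fun c => checkE B ks e c.o c.t c.o' c.n c.mv)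

/-- a list of true certificates for the shape `(ks, e)` -/
def AllCer (ks : List ℕ) (e : ℕ) (cs : List Cer) : Prop := ∀ c ∈ cs, EHolds ks e c.o c.t c.o'

theorem allCer_of_check {B : ℕ} (hB : 2 ≤ B) {ks : List ℕ} {e : ℕ} {l : List CerD}
    (h : checkL B ks e l = true) : AllCer ks e (l.map CerD.cer) := by
  intro c hc
  obtain ⟨d, hd, rfl⟩ := List.mem_map.1 hc
  have h1 := (List.all_eq_true.1 h) d hd
  exact EHolds_of_check hB h1

theorem AllCer.append {ks : List ℕ} {e : ℕ} {l l' : List Cer} (h : AllCer ks e l)
    (h' : AllCer ks e l') : AllCer ks e (l ++ l') := by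
  intro c hc
  rcases List.mem_append.1 hc with hc | hc
  · exact h c hc
  · exact h' c hc

end Pool.Agent.RS
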