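import Pool.Agent.RS.CertM7

/-!
# RS: closed certificate for seven letters, part 0
-/

set_option autoImplicit false
set_option maxRecDepth 100000

namespace Pool.Agent.RS

theorem chk7_0 : checkQ 7 7 0 [1,5,2,6,4,3] 47292 mv7 = true := by decide +kernel

end Pool.Agent.RS
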