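import Pool.Agent.RS.CertE
import Pool.Agent.RS.CertM7_0
import Pool.Agent.RS.CertM7_1
import Pool.Agent.RS.CertM7_2
import Pool.Agent.RS.CertM7_3
import Pool.Agent.RS.CertM7_4
import Pool.Agent.RS.CertM7_5
import Pool.Agent.RS.CertM7_6

/-!
# RS: closed strip for seven letters
-/

set_option autoImplicit false

namespace Pool.Agent.RS

open Finset

theorem closed7 : ∃ s : List ℕ, s.Perm (List.range 7).tail ∧ Closed (Ioo 0 7) ⟨List.range 7, s⟩ := by
  refine ⟨[1,5,2,6,4,3], by decide, Closed_of_parts (B := 7) (n := 47292) (mv := mv7) (by norm_num) (by norm_num) ?_⟩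
  intro q hq
  interval_cases q
  · exact chk7_0
  · exact chk7_1
  · exact chk7_2
  · exact chk7_3
  · exact chk7_4
  · exact chk7_5
  · exact chk7_6

end Pool.Agent.RS
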