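import Pool.Agent.RS.Five
import Pool.Agent.RS.Inv

/-!
# RS module Cov5: consequences of certificates for five bars
-/

set_option autoImplicit false

namespace Pool.Agent.RS

open Finset

/-- all start orders (with property `Q`) have a certificate with property `P` -/
def coverP (ks : List ℕ) (e : ℕ) (bot : Bool) (Q : List ℕ → Bool) (cs : List Cer)
    (P : Cer → Bool) : Bool :=
  ((startsL ks e bot).filter Q).all (fun o => cs.any (fun c => (c.o == o) && P c))

/-- the end of a strip with property `P` -/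
theorem ends_of_cover {ks : List ℕ} {e : ℕ} {bot : Bool} {Q : List ℕ → Bool} {cs : List Cer}
    {P : Cer → Bool} (hcs : ∀ c ∈ cs, EHolds ks e c.o c.t c.o')
    (hc : coverP ks e bot Q cs P = true) {Pi : Finset ℕ} {X : Fl} {bl : List (ℕ × ℕ)}
    (g : Good Pi X) (hb : Blk Pi X bl) (h2 : ∀ p ∈ bl, 2 ≤ p.2) (hks : bl.map Prod.snd = ks)
    (he : Pi.card + e = X.s.length) (hbot : bot = true → HeadEps Pi X) :
    ∃ (E o : List ℕ), E.Nodup ∧ E.length = e ∧ (∀ b, b ∈ E ↔ b ∈ X.s ∧ b ∉ Pi) ∧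
      X.s = o.map (fun b => (pos bl ++ E).getD b 0) ∧ o ∈ startsL ks e bot ∧
      (Q o = true → ∃ c ∈ cs, P c = true ∧ c.o = o ∧ ∃ Y, Strip Pi X Y ∧
        Y.s = c.o'.map (fun b => (pos bl ++ E).getD b 0) ∧
        segs Y.w bl = appT c.t (segs X.w bl)) := by
  obtain ⟨E, o, hE, hEl, hEm, hXs, hf, ht⟩ := exists_labels g hb h2 he
  rw [hks] at hf ht
  have ho : o ∈ startsL ks e bot := by
    cases bot with
    | false => exact hf
    | true => exact ht (hbot rfl)
  refine ⟨E, o, hE, hEl, hEm, hXs, ho, ?_⟩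
  intro hQ
  unfold coverP at hc
  rw [List.all_eq_true] at hc
  have h1 := hc o (List.mem_filter.2 ⟨ho, hQ⟩)
  rw [List.any_eq_true] at h1
  obtain ⟨c, hcc, hc2⟩ := h1
  rw [Bool.and_eq_true, beq_iff_eq] at hc2
  obtain ⟨hco, hP⟩ := hc2
  have hXs' : X.s = c.o.map (fun b => (pos bl ++ E).getD b 0) := by rw [hco]; exact hXs
  obtain ⟨Y, hY1, hY2, hY3⟩ := hcs c hcc Pi X bl E g hb hks hE hEl hEm hXs'
  exact ⟨c, hcc, hP, hco, Y, hY1, hY2, hY3⟩

/-- parity of two arrangements under an injective relabelling -/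
theorem inv_map_pair {l l' : List ℕ} {f : ℕ → ℕ} (h : l'.Perm l) (hl : l.Nodup)
    (hf : ∀ x ∈ l, ∀ y ∈ l, f x = f y → x = y) :
    (inv (l.map f) + inv (l'.map f) + inv l + inv l') % 2 = 0 := by
  have h1 := InvAux.inv_map_perm h.symm hl hf
  omega

end Pool.Agent.RS
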