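import Pool.Agent.RS.Defs

/-!
# RS: prescribed end flags (definitions)
-/

set_option autoImplicit false

namespace Pool.Agent.RS

open Finset

/-- highest bars of the end order, for a component of size `k` at the position `a` -/
def ordT : ℕ → ℕ → List ℕ
  | 0, _ => []
  | 1, _ => []
  | 2, _ => []
  | 3, a => [a + 1]
  | 4, a => [a + 3, a + 1]
  | 5, a => [a + 1, a + 3]
  | k + 6, a => ordT (k + 4) (a + 2) ++ [a + 1]

/-- the bar just below the bars `ordT k a` in the end order -/
def spc : ℕ → ℕ → ℕ
  | 0, a => a
  | 1, a => a
  | 2, a => a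
  | 3, a => a + 2
  | 4, a => a + 2
  | 5, a => a + 2
  | k + 6, a => spc (k + 4) (a + 2)

/-- condition on the start arrangement `s` and the end arrangement `t` of the component -/
def WC (k : ℕ) (s t : List ℕ) : Prop :=
  if k = 3 then t[0]? = s[1]? ∧ t[1]? = s[0]?
  else if k = 4 then t[0]? = s[3]? ∧ t[1]? = s[0]? ∧ t[2]? = s[1]?
  else if k = 5 then t[3]? = s[0]?
  else t[1]? = s[0]?

/-- Configurations with one component `(a, k)` of size `k`, `P` true for the number of bars, and an
ε-bar at the bottom of the start: there is a strip to every end flag with arrangement `t` of the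
component and order `ω ++ ordT k a`, if the condition `WC`, the condition on the last bar of `ω` and
the two parity conditions hold. -/
def GLp (k : ℕ) (P : ℕ → Prop) : Prop :=
  ∀ (Pi : Finset ℕ) (X : Fl) (a : ℕ) (t ω : List ℕ), Good Pi X → IsComp Pi X a k →
    (∀ b ∈ Pi, a < b ∧ b < a + k) → HeadEps Pi X → P X.s.length →
    t.Perm ((X.w.drop a).take k) → WC k ((X.w.drop a).take k) t →
    (ω ++ ordT k a).Perm X.s → ω.getLast? = some (spc k a) →
    (inv ((X.w.drop a).take k) + inv t) % 2 = 1 →
    (inv X.s + inv (ω ++ ordT k a) + X.s.length) % 2 = 0 →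
    Strip Pi X ⟨X.w.take a ++ (t ++ X.w.drop (a + k)), ω ++ ordT k a⟩

/-- at least `D` bars -/
def GLs (k D : ℕ) : Prop := GLp k (fun d => D ≤ d)

/-- the bars `ordT`, `spc` are different bars of the component -/
theorem ordT_spec {k a : ℕ} (hk : 3 ≤ k) :
    (spc k a :: ordT k a).Nodup ∧ ∀ b ∈ spc k a :: ordT k a, a < b ∧ b < a + k := by
  induction k using Nat.strong_induction_on generalizing a with
  | _ k ih =>
    match k, hk, ih with
    | 3, _, _ =>
      refine ⟨by simp [spc, ordT], ?_⟩
      intro b hb
      simp only [spc, ordT, List.mem_cons, List.not_mem_nil, or_false] at hb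
      omega
    | 4, _, _ =>
      refine ⟨by simp [spc, ordT], ?_⟩
      intro b hb
      simp only [spc, ordT, List.mem_cons, List.not_mem_nil, or_false] at hb
      omega
    | 5, _, _ =>
      refine ⟨by simp [spc, ordT], ?_⟩
      intro b hb
      simp only [spc, ordT, List.mem_cons, List.not_mem_nil, or_false] at hb
      omega
    | m + 6, _, ih =>
      obtain ⟨h1, h2⟩ := ih (m + 4) (by omega) (a := a + 2) (by omega)
      have h3 : spc (m + 6) a :: ordT (m + 6) a =
          (spc (m + 4) (a + 2) :: ordT (m + 4) (a + 2)) ++ [a + 1] := by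
        rw [spc, ordT, List.cons_append]
      rw [h3]
      constructor
      · rw [List.nodup_append]
        refine ⟨h1, List.nodup_singleton _, ?_⟩
        intro x hx y hy hxy
        rw [List.mem_singleton] at hy
        have := h2 x hx
        omega
      · intro b hb
        rw [List.mem_append, List.mem_singleton] at hb
        rcases hb with hb | hb
        · have := h2 b hb
          omega
        · omega

end Pool.Agent.RS
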