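import Pool.Agent.RS.Cov5
import Pool.Agent.RS.GDefs

/-!
# RS module Cov5B: prescribed ends for five bars from certificates
-/

set_option autoImplicit false

namespace Pool.Agent.RS

open Finset

/-- certificates for all start orders and all end orders (with a given end part) of the right
parity: `k = 3` -/
def coverG3 (cs : List Cer) : Bool :=
  (startsL [3] 3 true).all (fun o => ((permsL [1, 2, 3, 4, 5]).filter (fun o' =>
    (o'.drop 3 == [2, 1]) && ((inv o + inv o' + 5) % 2 == 0))).all (fun o' => cs.any (fun c =>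
      (c.o == o) && (c.t == [[1, 0, 2]]) && (c.o' == o'))))

/-- `k = 4`: the end order is `ω ++ [a + 3, a + 1]`, `ω.getLast? = some (a + 2)` -/
def coverG4 (cs : List Cer) : Bool :=
  (startsL [4] 2 true).all (fun o => ((permsL [1, 2, 3, 4, 5]).filter (fun o' =>
    (o'.drop 2 == [2, 3, 1]) && ((inv o + inv o' + 5) % 2 == 0))).all (fun o' => cs.any (fun c =>
      (c.o == o) && (c.t == [[3, 0, 1, 2]]) && (c.o' == o'))))

namespace Cov5BAux

theorem exists_of_perm_map {f : ℕ → ℕ} {Z W : List ℕ} (h : Z.Perm W) :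
    ∀ o : List ℕ, W = o.map f → ∃ o' : List ℕ, o'.Perm o ∧ o'.map f = Z := by
  induction h with
  | nil =>
    intro o ho
    have : o = [] := by
      cases o with
      | nil => rfl
      | cons y o => simp at ho
    subst this
    exact ⟨[], List.Perm.refl _, rfl⟩
  | cons x h ih =>
    intro o ho
    cases o with
    | nil => simp at ho
    | cons y o =>
      rw [List.map_cons, List.cons.injEq] at ho
      obtain ⟨o', h1, h2⟩ := ih o ho.2
      exact ⟨y :: o', h1.cons y, by rw [List.map_cons, h2, ho.1]⟩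
  | swap x y l =>
    intro o ho
    cases o with
    | nil => simp at ho
    | cons p o =>
      cases o with
      | nil => simp at ho
      | cons q o =>
        rw [List.map_cons, List.map_cons, List.cons.injEq, List.cons.injEq] at ho
        refine ⟨q :: p :: o, List.Perm.swap _ _ _, ?_⟩
        rw [List.map_cons, List.map_cons, ← ho.1, ← ho.2.1, ← ho.2.2]
  | trans h1 h2 ih1 ih2 =>
    intro o ho
    obtain ⟨o2, h3, h4⟩ := ih2 o ho
    obtain ⟨o1, h5, h6⟩ := ih1 o2 h4.symm
    exact ⟨o1, h5.trans h3, h6⟩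

theorem word_eq {w w' : List ℕ} {a k : ℕ} (hl : w'.length = w.length) (hak : a + k ≤ w.length)
    (h : ∀ p, (p < a ∨ a + k ≤ p) → w'[p]? = w[p]?) :
    w' = w.take a ++ ((w'.drop a).take k ++ w.drop (a + k)) := by
  apply List.ext_getElem?
  intro p
  rcases Nat.lt_or_ge p a with hp | hp
  · rw [h p (Or.inl hp), List.getElem?_append_left (by rw [List.length_take]; omega),
      List.getElem?_take_of_lt hp]
  · have h1 : (w.take a).length = a := by
      rw [List.length_take]
      omega
    rw [List.getElem?_append_right (by omega), h1]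
    have h2 : ((w'.drop a).take k).length = k := by
      rw [List.length_take, List.length_drop]
      omega
    rcases Nat.lt_or_ge p (a + k) with hp2 | hp2
    · rw [List.getElem?_append_left (by omega), List.getElem?_take_of_lt (by omega),
        List.getElem?_drop, show a + (p - a) = p by omega]
    · rw [List.getElem?_append_right (by omega), h2, List.getElem?_drop,
        show a + k + (p - a - k) = p by omega]
      exact h p (Or.inr hp2)

theorem core {k e : ℕ} {cs : List Cer} (hcs : ∀ c ∈ cs, EHolds [k] e c.o c.t c.o')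
    {Pi : Finset ℕ} {X : Fl} {a : ℕ} (g : Good Pi X) (c : IsComp Pi X a k) (hk : 2 ≤ k)
    (hPi : ∀ b ∈ Pi, a < b ∧ b < a + k) (hh : HeadEps Pi X) (he : (k - 1) + e = X.s.length)
    {Z : List ℕ} (hZ : Z.Perm X.s) :
    ∃ (f : ℕ → ℕ) (o o' : List ℕ), o ∈ startsL [k] e true ∧
      o'.Perm (movL 0 [k] ++ (List.range e).map (fun j => [k].sum + j)) ∧ Z = o'.map f ∧
      (inv X.s + inv Z + inv o + inv o') % 2 = 0 ∧ (∀ i < k, f i = a + i) ∧
      (∀ x ∈ o', ∀ y ∈ o', f x = f y → x = y) ∧
      ∀ (τ : List ℕ), (∃ c ∈ cs, c.o = o ∧ c.t = [τ] ∧ c.o' = o') →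
        Strip Pi X ⟨X.w.take a ++ ((τ.map (fun i => ((X.w.drop a).take k).getD i 0)) ++
          X.w.drop (a + k)), Z⟩ := by
  have hb : Blk Pi X [(a, k)] := by
    refine ⟨?_, ?_, List.pairwise_singleton _ _⟩
    · intro p hp _
      rw [List.mem_singleton] at hp
      subst hp
      exact c
    · intro b hbP
      exact ⟨(a, k), List.mem_singleton_self _, hPi b hbP⟩
  have h2 : ∀ p ∈ [(a, k)], 2 ≤ p.2 := by
    intro p hp
    rw [List.mem_singleton] at hp
    subst hp
    exact hk
  have hcard : k - 1 = Pi.card := by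
    have := hb.card
    simpa using this
  obtain ⟨E, o, hE1, hE2, hE3, hXs, _, ho⟩ := exists_labels (e := e) g hb h2 (by omega)
  have ho1 := ho hh
  have hop : o.Perm (movL 0 [k] ++ (List.range e).map (fun j => [k].sum + j)) := by
    have h3 : o ∈ startsL [k] e true := ho1
    unfold startsL at h3
    exact mem_permsL.1 (List.mem_of_mem_filter h3)
  rw [hXs] at hZ
  obtain ⟨o', ho'1, ho'2⟩ := exists_of_perm_map hZ o rfl
  have hinj : ∀ x ∈ o, ∀ y ∈ o, (pos [(a, k)] ++ E).getD x 0 = (pos [(a, k)] ++ E).getD y 0 →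
      x = y := by
    intro x hx y hy hxy
    have hn := g.sn
    rw [hXs] at hn
    exact List.inj_on_of_nodup_map hn hx hy hxy
  have hon : o.Nodup := by
    have hn := g.sn
    rw [hXs] at hn
    exact List.Nodup.of_map _ hn
  refine ⟨fun b => (pos [(a, k)] ++ E).getD b 0, o, o', ho1, ho'1.trans hop, ho'2.symm, ?_, ?_,
    ?_, ?_⟩
  · have h3 := inv_map_pair ho'1 hon hinj
    rw [ho'2, ← hXs] at h3
    omega
  · intro i hi
    show (pos [(a, k)] ++ E).getD i 0 = a + i
    have h3 : (pos [(a, k)]).length = k := by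
      rw [pos_length]
      simp
    rw [FiveAux.getD_left (by omega)]
    have h4 := pos_getD (bl := [(a, k)]) (c := 0) (i := i) (a := a) (k := k) rfl hi
    simpa using h4
  · intro x hx y hy hxy
    exact hinj x (ho'1.mem_iff.1 hx) y (ho'1.mem_iff.1 hy) hxy
  · rintro τ ⟨ce, hce, hco, hct, hco'⟩
    obtain ⟨Y, hY1, hY2, hY3⟩ := hcs ce hce Pi X [(a, k)] E g hb rfl hE1 hE2 hE3
      (by rw [hco]; exact hXs)
    have hsame : Same Pi X Y := hY1.same g
    have hseg : (Y.w.drop a).take k = τ.map (fun i => ((X.w.drop a).take k).getD i 0) := by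
      have h3 : segs Y.w [(a, k)] = [(Y.w.drop a).take k] := rfl
      have h4 : segs X.w [(a, k)] = [(X.w.drop a).take k] := rfl
      rw [h3, h4, hct] at hY3
      have h5 : appT [τ] [(X.w.drop a).take k] =
          [τ.map (fun i => ((X.w.drop a).take k).getD i 0)] := rfl
      rw [h5] at hY3
      exact List.singleton_injective hY3
    have hw : Y.w = X.w.take a ++ ((Y.w.drop a).take k ++ X.w.drop (a + k)) := by
      refine word_eq hsame.w.length_eq c.le ?_
      intro p hp
      refine hsame.getElem g ?_ ?_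
      · intro hpP
        have := hPi p hpP
        omega
      · intro hpP
        have := hPi (p + 1) hpP
        omega
    have hYeq : Y = ⟨X.w.take a ++ ((τ.map (fun i => ((X.w.drop a).take k).getD i 0)) ++
          X.w.drop (a + k)), Z⟩ := by
      refine Fl.ext ?_ ?_
      · show Y.w = _
        rw [← hseg]
        exact hw
      · show Y.s = Z
        rw [hY2, hco', ← ho'2]
    rw [← hYeq]
    exact hY1

end Cov5BAux

open Cov5BAux

theorem gl3_five {cs : List Cer} (hcs : ∀ c ∈ cs, EHolds [3] 3 c.o c.t c.o')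
    (hc : coverG3 cs = true) : GLp 3 (fun d => d = 5) := by
  intro Pi X a t ω g c hPi hh hlen ht hwc hperm hlast hpt hps
  have hlen' : X.s.length = 5 := hlen
  have hord : ordT 3 a = [a + 1] := rfl
  have hspc : spc 3 a = a + 2 := rfl
  rw [hord] at hperm hps ⊢
  rw [hspc] at hlast
  obtain ⟨f, o, o', ho, ho', hZ, hpar, hf, hinj, hstrip⟩ :=
    core hcs g c (by omega) hPi hh (by omega) hperm
  have ho'5 : o'.Perm [1, 2, 3, 4, 5] := ho'
  -- the end part
  have hdrop : o'.drop 3 = [2, 1] := by
    obtain ⟨ω', rfl⟩ : ∃ ω', ω = ω' ++ [a + 2] := by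
      rw [List.getLast?_eq_some_iff] at hlast
      exact hlast
    have hl5 := ho'5.length_eq
    have hω' : ω'.length = 3 := by
      have h1 := congrArg List.length hZ
      simp only [List.length_append, List.length_map, List.length_cons, List.length_nil] at h1 hl5
      omega
    have h2 : (o'.drop 3).map f = [a + 2, a + 1] := by
      rw [List.map_drop, ← hZ, List.append_assoc, List.drop_append_of_le_length (by omega),
        List.drop_of_length_le (by omega)]
      rfl
    have h3 : (o'.drop 3).length = 2 := by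
      rw [List.length_drop, hl5]
      rfl
    obtain ⟨u, v, huv⟩ := List.length_eq_two.1 h3
    rw [huv] at h2
    simp only [List.map_cons, List.map_nil, List.cons.injEq, and_true] at h2
    have hu : u ∈ o' := List.mem_of_mem_drop (by rw [huv]; simp)
    have hv : v ∈ o' := List.mem_of_mem_drop (by rw [huv]; simp)
    have hu2 : u = 2 := hinj u hu 2 (ho'5.mem_iff.2 (by simp)) (by rw [h2.1, hf 2 (by omega)])
    have hv1 : v = 1 := hinj v hv 1 (ho'5.mem_iff.2 (by simp)) (by rw [h2.2, hf 1 (by omega)])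
    rw [huv, hu2, hv1]
  have hex : ∃ c ∈ cs, c.o = o ∧ c.t = [[1, 0, 2]] ∧ c.o' = o' := by
    unfold coverG3 at hc
    have h1 := List.all_eq_true.1 hc o ho
    have h2 := List.all_eq_true.1 h1 o' (by
      rw [List.mem_filter]
      refine ⟨mem_permsL.2 ho'5, ?_⟩
      rw [hdrop]
      have h3 : (inv o + inv o' + 5) % 2 = 0 := by omega
      rw [h3]
      rfl)
    obtain ⟨ce, hce, h3⟩ := List.any_eq_true.1 h2
    simp only [Bool.and_eq_true, beq_iff_eq] at h3
    exact ⟨ce, hce, h3.1.1, h3.1.2, h3.2⟩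
  have hres := hstrip [1, 0, 2] hex
  -- the word
  have hs3 : ((X.w.drop a).take 3).length = 3 := by
    have := c.le
    rw [List.length_take, List.length_drop]
    omega
  obtain ⟨s0, s1, s2, hs⟩ := List.length_eq_three.1 hs3
  rw [hs] at hres ht hwc
  obtain ⟨t0, t1, t2, rfl⟩ := List.length_eq_three.1 ht.length_eq
  have hwc' : t0 = s1 ∧ t1 = s0 := by
    unfold WC at hwc
    rw [if_pos rfl] at hwc
    simpa using hwc
  obtain ⟨rfl, rfl⟩ := hwc'
  have ht2 : t2 = s2 := by
    have h1 : [t1, t0, t2].Perm [t1, t0, s2] := (List.Perm.swap _ _ _).trans ht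
    have h2 := (List.perm_cons _).1 ((List.perm_cons _).1 h1)
    exact List.singleton_injective (List.perm_singleton.1 h2)
  subst ht2
  exact hres

theorem gl4_five {cs : List Cer} (hcs : ∀ c ∈ cs, EHolds [4] 2 c.o c.t c.o')
    (hc : coverG4 cs = true) : GLp 4 (fun d => d = 5) := by
  intro Pi X a t ω g c hPi hh hlen ht hwc hperm hlast hpt hps
  have hlen' : X.s.length = 5 := hlen
  have hord : ordT 4 a = [a + 3, a + 1] := rfl
  have hspc : spc 4 a = a + 2 := rfl
  rw [hord] at hperm hps ⊢
  rw [hspc] at hlast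
  obtain ⟨f, o, o', ho, ho', hZ, hpar, hf, hinj, hstrip⟩ :=
    core hcs g c (by omega) hPi hh (by omega) hperm
  have ho'5 : o'.Perm [1, 2, 3, 4, 5] := ho'
  -- the end part
  have hdrop : o'.drop 2 = [2, 3, 1] := by
    obtain ⟨ω', rfl⟩ : ∃ ω', ω = ω' ++ [a + 2] := by
      rw [List.getLast?_eq_some_iff] at hlast
      exact hlast
    have hl5 := ho'5.length_eq
    have hω' : ω'.length = 2 := by
      have h1 := congrArg List.length hZ
      simp only [List.length_append, List.length_map, List.length_cons, List.length_nil] at h1 hl5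
      omega
    have h2 : (o'.drop 2).map f = [a + 2, a + 3, a + 1] := by
      rw [List.map_drop, ← hZ, List.append_assoc, List.drop_append_of_le_length (by omega),
        List.drop_of_length_le (by omega)]
      rfl
    have h3 : (o'.drop 2).length = 3 := by
      rw [List.length_drop, hl5]
      rfl
    obtain ⟨u, v, r, huv⟩ := List.length_eq_three.1 h3
    rw [huv] at h2
    simp only [List.map_cons, List.map_nil, List.cons.injEq, and_true] at h2
    have hu : u ∈ o' := List.mem_of_mem_drop (by rw [huv]; simp)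
    have hv : v ∈ o' := List.mem_of_mem_drop (by rw [huv]; simp)
    have hr : r ∈ o' := List.mem_of_mem_drop (by rw [huv]; simp)
    have hu2 : u = 2 := hinj u hu 2 (ho'5.mem_iff.2 (by simp)) (by rw [h2.1, hf 2 (by omega)])
    have hv1 : v = 3 := hinj v hv 3 (ho'5.mem_iff.2 (by simp)) (by rw [h2.2.1, hf 3 (by omega)])
    have hr1 : r = 1 := hinj r hr 1 (ho'5.mem_iff.2 (by simp)) (by rw [h2.2.2, hf 1 (by omega)])
    rw [huv, hu2, hv1, hr1]
  have hex : ∃ c ∈ cs, c.o = o ∧ c.t = [[3, 0, 1, 2]] ∧ c.o' = o' := by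
    unfold coverG4 at hc
    have h1 := List.all_eq_true.1 hc o ho
    have h2 := List.all_eq_true.1 h1 o' (by
      rw [List.mem_filter]
      refine ⟨mem_permsL.2 ho'5, ?_⟩
      rw [hdrop]
      have h3 : (inv o + inv o' + 5) % 2 = 0 := by omega
      rw [h3]
      rfl)
    obtain ⟨ce, hce, h3⟩ := List.any_eq_true.1 h2
    simp only [Bool.and_eq_true, beq_iff_eq] at h3
    exact ⟨ce, hce, h3.1.1, h3.1.2, h3.2⟩
  have hres := hstrip [3, 0, 1, 2] hex
  -- the word
  have hs4 : ((X.w.drop a).take 4).length = 4 := by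
    have := c.le
    rw [List.length_take, List.length_drop]
    omega
  obtain ⟨s0, s1, s2, s3, hs⟩ : ∃ s0 s1 s2 s3, (X.w.drop a).take 4 = [s0, s1, s2, s3] := by
    match (X.w.drop a).take 4, hs4 with
    | [s0, s1, s2, s3], _ => exact ⟨s0, s1, s2, s3, rfl⟩
  rw [hs] at hres ht hwc
  obtain ⟨t0, t1, t2, t3, rfl⟩ : ∃ t0 t1 t2 t3, t = [t0, t1, t2, t3] := by
    match t, ht.length_eq with
    | [s0, s1, s2, s3], _ => exact ⟨s0, s1, s2, s3, rfl⟩
  have hwc' : t0 = s3 ∧ t1 = s0 ∧ t2 = s1 := by
    unfold WC at hwc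
    rw [if_neg (by omega), if_pos rfl] at hwc
    simpa using hwc
  obtain ⟨rfl, rfl, rfl⟩ := hwc'
  have ht3 : t3 = s2 := by
    have h0 : [t1, t2, s2, t0].Perm [t0, t1, t2, s2] :=
      List.perm_append_comm (l₁ := [t1, t2, s2]) (l₂ := [t0])
    have h1 : [t0, t1, t2, t3].Perm [t0, t1, t2, s2] := ht.trans h0
    have h2 := (List.perm_cons _).1 ((List.perm_cons _).1 ((List.perm_cons _).1 h1))
    exact List.singleton_injective (List.perm_singleton.1 h2)
  subst ht3
  exact hres

theorem gl_join {k : ℕ} (h5 : GLp k (fun d => d = 5)) (h6 : GLs k 6) : GLs k 5 := by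
  intro Pi X a t ω g c hPi hh hlen
  have hlen' : 5 ≤ X.s.length := hlen
  rcases Nat.eq_or_lt_of_le hlen' with h | h
  · exact h5 Pi X a t ω g c hPi hh h.symm
  · exact h6 Pi X a t ω g c hPi hh h

end Pool.Agent.RS
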