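import Pool.Agent.RS.Z7Defs

/-!
# RS module Cov7: statements for five bars from certificates (`ends_of_cover`)
-/

set_option autoImplicit false

namespace Pool.Agent.RS

open Finset

namespace Cov7Aux

variable {Pi : Finset ℕ} {X Y : Fl} {bl : List (ℕ × ℕ)}

theorem comp_le (hb : Blk Pi X bl) {c a k : ℕ} (hc : bl[c]? = some (a, k)) (hk : 1 ≤ k) :
    a + k ≤ X.w.length :=
  (hb.comp (a, k) (List.mem_of_getElem? hc) hk).le

theorem getD_eq {w : List ℕ} {i : ℕ} (h : i < w.length) : w[i]? = some (w.getD i 0) := by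
  rw [List.getD_eq_getElem _ _ h, List.getElem?_eq_getElem h]

/-- the letters of the end -/
theorem word_of (hb : Blk Pi X bl) (hbY : Blk Pi Y bl)
    {t : List (List ℕ)} (ht : segs Y.w bl = appT t (segs X.w bl)) {c a k : ℕ}
    (hc : bl[c]? = some (a, k)) {i j : ℕ} (hi : i < k) (hj : (t.getD c []).getD i 0 = j)
    (hjk : j < k) : Y.w[a + i]? = X.w[a + j]? := by
  have hk : 1 ≤ k := by omega
  have hX := comp_le hb hc hk
  have hY := comp_le hbY hc hk
  have hcl : c < bl.length := by
    by_contra h
    rw [List.getElem?_eq_none (by omega)] at hc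
    simp at hc
  have hlen : bl.length ≤ t.length := by
    have h := congrArg List.length ht
    rw [appT, List.length_zipWith, segs, segs, List.length_map, List.length_map] at h
    omega
  have h1 : (segs Y.w bl).getD c [] =
      (t.getD c []).map (fun i => ((segs X.w bl).getD c []).getD i 0) := by
    have hl : c < (segs X.w bl).length := by rw [segs, List.length_map]; exact hcl
    have hz : c < (appT t (segs X.w bl)).length := by
      rw [appT, List.length_zipWith]
      omega
    rw [ht, List.getD_eq_getElem _ _ hz, List.getD_eq_getElem _ _ (show c < t.length by omega),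
      List.getD_eq_getElem _ _ hl]
    simp only [appT, List.getElem_zipWith]
  have h3 : ((segs Y.w bl).getD c []).length = k := by
    have hl : c < (segs Y.w bl).length := by rw [segs, List.length_map]; exact hcl
    rw [List.getD_eq_getElem _ _ hl]
    have hc' : bl[c] = (a, k) := by
      rw [List.getElem?_eq_getElem hcl, Option.some.injEq] at hc
      exact hc
    simp only [segs, List.getElem_map, hc', List.length_take, List.length_drop]
    omega
  have h4 : (t.getD c []).length = k := by
    rw [h1, List.length_map] at h3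
    exact h3
  have h5 : ((segs Y.w bl).getD c []).getD i 0 = ((segs X.w bl).getD c []).getD j 0 := by
    rw [h1, List.getD_eq_getElem _ _ (by rw [List.length_map]; omega), List.getElem_map]
    rw [List.getD_eq_getElem _ _ (show i < (t.getD c []).length by omega)] at hj
    rw [hj]
  rw [segs_getElem hc hi hY, segs_getElem hc hjk hX] at h5
  rw [getD_eq (show a + i < Y.w.length by omega), getD_eq (show a + j < X.w.length by omega), h5]

theorem lab_left {E : List ℕ} {ks : List ℕ} (hks : bl.map Prod.snd = ks) {c a k i : ℕ}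
    (hc : bl[c]? = some (a, k)) (hi : i < k) :
    (pos bl ++ E).getD ((ks.take c).sum + i) 0 = a + i := by
  have hcl : c < bl.length := by
    by_contra h
    rw [List.getElem?_eq_none (by omega)] at hc
    simp at hc
  have hlt : (ks.take c).sum + i < (pos bl).length := by
    rw [pos_length, hks]
    have h1 : ks[c]? = some k := by
      rw [← hks, List.getElem?_map, hc]
      rfl
    have hcl' : c < ks.length := by rw [← hks, List.length_map]; exact hcl
    have h2 : ks[c] = k := by
      rw [List.getElem?_eq_getElem hcl', Option.some.injEq] at h1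
      exact h1
    have h3 : ks = ks.take c ++ ks[c] :: ks.drop (c + 1) := by
      rw [← List.drop_eq_getElem_cons hcl', List.take_append_drop]
    conv_rhs => rw [h3]
    rw [List.sum_append, List.sum_cons, h2]
    omega
  rw [List.getD_append _ _ _ _ hlt, ← hks, ← List.map_take]
  exact pos_getD hc hi

theorem lab_right {E : List ℕ} {ks : List ℕ} (hks : bl.map Prod.snd = ks) {j : ℕ} :
    (pos bl ++ E).getD (ks.sum + j) 0 = E.getD j 0 := by
  rw [List.getD_append_right _ _ _ _ (by rw [pos_length, hks]; omega), pos_length, hks,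
    Nat.add_sub_cancel_left]

theorem take_two {l : List ℕ} {x y : ℕ} (h : l.take 2 = [x, y]) : ∃ r, l = x :: y :: r := by
  match l, h with
  | [], h => simp at h
  | [_], h => simp at h
  | a :: b :: r, h =>
    simp only [List.take_succ_cons, List.take_zero, List.cons.injEq, and_true] at h
    exact ⟨r, by rw [h.1, h.2]⟩

theorem single_of_length {E : List ℕ} (h : E.length = 1) : ∃ β, E = [β] :=
  List.length_eq_one_iff.1 h

theorem h2_of {ks : List ℕ} (h2 : ∀ k ∈ ks, 2 ≤ k) (hks : bl.map Prod.snd = ks) :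
    ∀ p ∈ bl, 2 ≤ p.2 := fun p hp => h2 p.2 (by rw [← hks]; exact List.mem_map_of_mem hp)

end Cov7Aux

open Cov7Aux

theorem UEs_of_cover {ks : List ℕ} (h2 : ∀ k ∈ ks, 2 ≤ k) {cs : List Cer}
    (hcs : ∀ c ∈ cs, EHolds ks 1 c.o c.t c.o') (hc : coverUE ks cs = true) : UEs ks := by
  intro Pi X bl g hb hks hl5 hP4 hhead p hp x ⟨i, hi, hx⟩
  have h2' := h2_of h2 hks
  obtain ⟨a, k⟩ := p
  simp only at hi hx ⊢
  have hne : bl ≠ [] := by
    rintro rfl
    simp at hp
  have hpos : 0 < bl.length := List.length_pos_iff.2 hne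
  have hbc : bl[bl.length - 1]? = some (a, k) := by
    rw [← List.getLast?_eq_getElem?]
    exact hp
  have hk : 2 ≤ k := h2' _ (List.mem_of_getElem? hbc)
  have hlast : ks.getLastD 0 = k := by
    rw [← hks, List.getLastD_eq_getLast?, List.getLast?_map, hp]
    rfl
  unfold coverUE at hc
  rw [List.all_eq_true] at hc
  have hc1 := hc i (by rw [List.mem_range, hlast]; exact hi)
  obtain ⟨E, o, -, hEl, hEm, -, -, hQ⟩ := ends_of_cover hcs hc1 g hb h2' hks (by omega)
    (fun _ => hhead)
  obtain ⟨c, -, hPc, -, Y, hY1, hY2, hY3⟩ := hQ rfl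
  rw [Bool.and_eq_true, beq_iff_eq, beq_iff_eq] at hPc
  obtain ⟨g1, g2⟩ := hPc
  obtain ⟨r, hr⟩ := take_two g1
  obtain ⟨β, rfl⟩ := single_of_length hEl
  have hbY : Blk Pi Y bl := hb.same (hY1.same g)
  refine ⟨Y, r.map (fun b => (pos bl ++ [β]).getD b 0), β, hY1,
    ((hEm β).1 List.mem_cons_self).2, ?_, ?_⟩
  · rw [hY2, hr, List.map_cons, List.map_cons]
    have e1 : (pos bl ++ [β]).getD ks.sum 0 = β := by
      have := lab_right (E := [β]) hks (j := 0)
      rw [Nat.add_zero] at this
      rw [this]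
      rfl
    have e2 : (pos bl ++ [β]).getD (ks.dropLast.sum + 1) 0 = a + 1 := by
      have h3 : ks.dropLast = ks.take (bl.length - 1) := by
        rw [List.dropLast_eq_take, ← hks, List.length_map]
      rw [h3]
      exact lab_left hks hbc (by omega)
    rw [e1, e2]
  · have h4 : ks.length - 1 = bl.length - 1 := by rw [← hks, List.length_map]
    rw [h4] at g2
    have := word_of hb hbY hY3 hbc (i := 0) (by omega) g2 hi
    rw [Nat.add_zero] at this
    rw [this, hx]

theorem ELs_of_cover {ks : List ℕ} (h2 : ∀ k ∈ ks, 2 ≤ k) {cs : List Cer}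
    (hcs : ∀ c ∈ cs, EHolds ks 1 c.o c.t c.o') (hc : coverEL ks cs = true) : ELs ks := by
  intro Pi X bl g hb hks hl5 hP4 hhead p hp y low ⟨i, hi, hy⟩ hlow
  have h2' := h2_of h2 hks
  obtain ⟨a, k⟩ := p
  simp only at hi hy ⊢
  have hbc : bl[0]? = some (a, k) := by
    rw [← List.head?_eq_getElem?]
    exact hp
  have hk : 2 ≤ k := h2' _ (List.mem_of_getElem? hbc)
  have hhd : ks.headD 0 = k := by
    rw [← hks, List.headD_eq_head?_getD, List.head?_map, hp]
    rfl
  unfold coverEL at hc
  rw [List.all_eq_true] at hc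
  have hc1 := hc i (by rw [List.mem_range, hhd]; omega)
  obtain ⟨E, o, -, hEl, hEm, -, -, hQ⟩ := ends_of_cover hcs hc1 g hb h2' hks (by omega)
    (fun _ => hhead)
  obtain ⟨c, -, hPc, -, Y, hY1, hY2, hY3⟩ := hQ rfl
  simp only [Bool.and_eq_true, beq_iff_eq, hhd] at hPc
  obtain ⟨⟨⟨g1, g2⟩, g3⟩, g4⟩ := hPc
  obtain ⟨β, rfl⟩ := single_of_length hEl
  have hbY : Blk Pi Y bl := hb.same (hY1.same g)
  have e1 : (pos bl ++ [β]).getD ks.sum 0 = β := by
    have := lab_right (E := [β]) hks (j := 0)
    rw [Nat.add_zero] at this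
    rw [this]
    rfl
  refine ⟨Y, hY1, ?_, ?_, ?_, ?_⟩
  · obtain ⟨b0, r, hr⟩ : ∃ b0 r, c.o' = b0 :: r := by
      rcases h : c.o' with _ | ⟨b0, r⟩
      · rw [h] at g2
        simp at g2
      · exact ⟨b0, r, rfl⟩
    rw [hr, List.headD_cons] at g1
    rw [hY2, hr, List.map_cons, g1, e1]
    have hmem : ∀ b ∈ low, b = β := by
      intro b hb'
      have h3 := (hEm b).2 (hlow.mem b hb')
      simpa using h3
    rcases low with _ | ⟨b, low⟩
    · exact List.nil_prefix
    · have hb1 := hmem b List.mem_cons_self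
      rcases low with _ | ⟨b', low⟩
      · rw [hb1]
        exact ⟨_, rfl⟩
      · exfalso
        have hb2 := hmem b' (by simp)
        have h3 := hlow.nd
        rw [hb1, hb2] at h3
        simp at h3
  · rw [hY2, List.getLast?_map, g2]
    have e2 := lab_left (E := [β]) hks hbc (i := k - 1) (by omega)
    rw [List.take_zero, List.sum_nil, Nat.zero_add] at e2
    show some ((pos bl ++ [β]).getD (k - 1) 0) = _
    rw [e2, Nat.add_sub_assoc (by omega)]
  · have := word_of hb hbY hY3 hbc (i := k - 1) (by omega) g3 (by omega)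
    rw [Nat.add_sub_assoc (by omega), this, hy]
  · have := word_of hb hbY hY3 hbc (i := k - 2) (by omega) g4 (by omega)
    rw [Nat.add_sub_assoc (by omega), Nat.add_sub_assoc (by omega), this]

theorem N1s_of_cover {cs : List Cer} (hcs : ∀ c ∈ cs, EHolds [5] 1 c.o c.t c.o')
    (hc : coverN1 cs = true) : N1s := by
  intro Pi X a g hcomp hl5 hP4
  have hPi : Finset.Ioo a (a + 5) = Pi := by
    apply Finset.eq_of_subset_of_card_le
    · intro b hb
      rw [Finset.mem_Ioo] at hb
      exact hcomp.mem b hb.1 hb.2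
    · rw [hP4, Nat.card_Ioo]
      omega
  have hb : Blk Pi X [(a, 5)] := by
    refine ⟨?_, ?_, List.pairwise_singleton _ _⟩
    · intro p hp _
      rw [List.mem_singleton] at hp
      subst hp
      exact hcomp
    · intro b hb
      rw [← hPi, Finset.mem_Ioo] at hb
      exact ⟨(a, 5), List.mem_singleton_self _, hb.1, hb.2⟩
  have h2' : ∀ p ∈ [(a, 5)], 2 ≤ p.2 := by
    intro p hp
    rw [List.mem_singleton] at hp
    subst hp
    norm_num
  unfold coverN1 at hc
  obtain ⟨E, o, -, hEl, hEm, -, -, hQ⟩ := ends_of_cover hcs hc g hb h2' rfl (by omega)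
    (fun h => absurd h (by simp))
  obtain ⟨c, -, hPc, -, Y, hY1, hY2, -⟩ := hQ rfl
  rw [beq_iff_eq] at hPc
  obtain ⟨r, hr⟩ := take_two hPc
  obtain ⟨β, rfl⟩ := single_of_length hEl
  have hbY : Blk Pi Y [(a, 5)] := hb.same (hY1.same g)
  have hYl : a + 5 ≤ Y.w.length := comp_le (c := 0) hbY rfl (by norm_num)
  refine ⟨Y, r.map (fun b => (pos [(a, 5)] ++ [β]).getD b 0), β, Y.w.getD a 0, hY1,
    ((hEm β).1 List.mem_cons_self).2, ?_, getD_eq (by omega)⟩
  rw [hY2, hr, List.map_cons, List.map_cons]
  have e1 : (pos [(a, 5)] ++ [β]).getD 5 0 = β :=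
    lab_right (bl := [(a, 5)]) (E := [β]) (ks := [5]) rfl (j := 0)
  have e2 : (pos [(a, 5)] ++ [β]).getD 1 0 = a + 1 :=
    lab_left (bl := [(a, 5)]) (E := [β]) (ks := [5]) rfl (c := 0) (i := 1) (k := 5) rfl
      (by norm_num)
  rw [e1, e2]

theorem Z6s_of_cover {cs : List Cer} (hcs : ∀ c ∈ cs, EHolds [6] 0 c.o c.t c.o')
    (hc : coverZ6 cs = true) : Z6s := by
  intro Pi X a g hcomp hbars hlast
  have hPi : Pi = Finset.Ioo a (a + 6) := by
    ext b
    rw [Finset.mem_Ioo]
    exact ⟨fun h => hbars b (g.sub b h), fun h => hcomp.mem b h.1 h.2⟩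
  have hXs : X.s.toFinset = Finset.Ioo a (a + 6) := by
    ext b
    rw [List.mem_toFinset, Finset.mem_Ioo]
    exact ⟨fun h => hbars b h, fun h => g.sub b (hcomp.mem b h.1 h.2)⟩
  have hcard : Pi.card + 0 = X.s.length := by
    rw [Nat.add_zero, hPi, ← hXs, List.toFinset_card_of_nodup g.sn]
  have hb : Blk Pi X [(a, 6)] := by
    refine ⟨?_, ?_, List.pairwise_singleton _ _⟩
    · intro p hp _
      rw [List.mem_singleton] at hp
      subst hp
      exact hcomp
    · intro b hb
      rw [hPi, Finset.mem_Ioo] at hb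
      exact ⟨(a, 6), List.mem_singleton_self _, hb.1, hb.2⟩
  have h2' : ∀ p ∈ [(a, 6)], 2 ≤ p.2 := by
    intro p hp
    rw [List.mem_singleton] at hp
    subst hp
    norm_num
  unfold coverZ6 at hc
  obtain ⟨E, o, -, hEl, -, hXo, ho, hQ⟩ := ends_of_cover hcs hc g hb h2' rfl hcard
    (fun h => absurd h (by simp))
  have hlab : ∀ b, b < 6 → (pos [(a, 6)] ++ E).getD b 0 = a + b := by
    intro b hb6
    have := lab_left (bl := [(a, 6)]) (E := E) (ks := [6]) rfl (c := 0) (i := b) (k := 6) rfl hb6
    rw [List.take_zero, List.sum_nil, Nat.zero_add] at this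
    exact this
  have hQo : (o.getLast? == some 5) = true := by
    rw [hXo, List.getLast?_map] at hlast
    rcases h : o.getLast? with _ | b
    · rw [h] at hlast
      simp at hlast
    · rw [h, Option.map_some, Option.some.injEq] at hlast
      have hbo : b ∈ o := List.mem_of_getLast? h
      have hb6 : b < 6 := by
        unfold startsL at ho
        rw [List.mem_filter, mem_permsL] at ho
        have h3 := ho.1.mem_iff.1 hbo
        rw [List.mem_append] at h3
        rcases h3 with h3 | h3
        · have := FiveAux.movL_range h3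
          simpa using this.2
        · simp at h3
      rw [hlab b hb6] at hlast
      have : b = 5 := by omega
      rw [this]
      rfl
  obtain ⟨c, -, hPc, -, Y, hY1, hY2, hY3⟩ := hQ hQo
  simp only [Bool.and_eq_true, beq_iff_eq] at hPc
  obtain ⟨⟨g1, g2⟩, g3⟩ := hPc
  have hbY : Blk Pi Y [(a, 6)] := hb.same (hY1.same g)
  refine ⟨Y, hY1, ?_, ?_, ?_⟩
  · rw [hY2, List.getLast?_map, g1]
    show some ((pos [(a, 6)] ++ E).getD 5 0) = _
    rw [hlab 5 (by norm_num)]
  · have := word_of hb hbY hY3 (c := 0) (a := a) (k := 6) rfl (i := 5) (by norm_num) g2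
      (by norm_num)
    rw [this, Nat.add_zero]
  · exact word_of hb hbY hY3 (c := 0) (a := a) (k := 6) rfl (i := 4) (by norm_num) g3
      (by norm_num)

end Pool.Agent.RS
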