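import Pool.Agent.RS.Blk

/-!
# RS: data base of facts (components with at most four bars)
-/

set_option autoImplicit false
set_option maxRecDepth 100000

namespace Pool.Agent.RS

/-- facts for the sizes [2] -/
def fb2 : List Fact := [
  ⟨[2],none,[[1,0]],1,true⟩]

/-- facts for the sizes [3] -/
def fb3 : List Fact := [
  ⟨[3],none,[[0,2,1]],2,true⟩,
  ⟨[3],none,[[1,0,2]],1,true⟩,
  ⟨[3],some 1,[[1,0,2]],1,false⟩,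
  ⟨[3],some 2,[[0,2,1]],2,false⟩]

def fb3_d : List Der := [
  ⟨true,0,3,0x3f02001,8065⟩,
  ⟨false,0,3,0x3f02001,8065⟩,
  ⟨false,0,3,0x3f02001,8065⟩,
  ⟨true,0,3,0x3f02001,8065⟩]

/-- facts for the sizes [2,2] -/
def fb2_2 : List Fact := [
  ⟨[2,2],none,[[0,1],[1,0]],3,true⟩,
  ⟨[2,2],none,[[1,0],[0,1]],1,true⟩,
  ⟨[2,2],some 1,[[1,0],[0,1]],1,false⟩,
  ⟨[2,2],some 3,[[0,1],[1,0]],3,false⟩]

def fb2_2_d : List Der := [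
  ⟨false,1,1,0x1,1⟩,
  ⟨false,0,1,0x1,1⟩,
  ⟨false,0,1,0x1,1⟩,
  ⟨false,1,1,0x1,1⟩]

/-- facts for the sizes [4] -/
def fb4 : List Fact := [
  ⟨[4],none,[[1,2,3,0]],3,true⟩,
  ⟨[4],none,[[2,3,1,0]],3,true⟩,
  ⟨[4],none,[[3,0,1,2]],1,true⟩,
  ⟨[4],none,[[3,2,0,1]],1,true⟩,
  ⟨[4],none,[[3,1,2,0]],1,false⟩,
  ⟨[4],none,[[3,1,2,0]],3,false⟩,
  ⟨[4],some 1,[[1,2,3,0]],3,false⟩,
  ⟨[4],some 1,[[2,3,1,0]],3,false⟩,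
  ⟨[4],some 1,[[3,0,1,2]],1,false⟩,
  ⟨[4],some 2,[[1,2,3,0]],3,false⟩,
  ⟨[4],some 2,[[2,3,1,0]],3,false⟩,
  ⟨[4],some 2,[[3,0,1,2]],1,false⟩,
  ⟨[4],some 2,[[3,2,0,1]],1,false⟩,
  ⟨[4],some 3,[[1,2,3,0]],3,false⟩,
  ⟨[4],some 3,[[3,0,1,2]],1,false⟩,
  ⟨[4],some 3,[[3,1,2,0]],3,false⟩,
  ⟨[4],some 3,[[3,2,0,1]],1,false⟩]

def fb4_d : List Der := [
  ⟨false,0,7,0x40020000008000002083,131⟩,
  ⟨false,0,7,0x40020000008000002083,129⟩,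
  ⟨true,0,7,0x40020000008000002083,131⟩,
  ⟨true,0,7,0x40020000008000002083,129⟩,
  ⟨true,0,7,0x40020000008000002081,131⟩,
  ⟨false,0,7,0x40020000008000002081,131⟩,
  ⟨false,0,7,0x40020000008000002083,131⟩,
  ⟨false,0,7,0x40020000008000002083,129⟩,
  ⟨true,0,7,0x40020000008000002087,129⟩,
  ⟨false,0,7,0x40020000008000002085,131⟩,
  ⟨false,0,7,0x40020000008000002085,129⟩,
  ⟨true,0,7,0x40020000008000002085,131⟩,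
  ⟨true,0,7,0x40020000008000002085,129⟩,
  ⟨false,0,7,0x40020000008000002087,129⟩,
  ⟨true,0,7,0x40020000008000002083,131⟩,
  ⟨false,0,7,0x40020000008000002087,131⟩,
  ⟨true,0,7,0x40020000008000002083,129⟩]

/-- facts for the sizes [3,2] -/
def fb3_2 : List Fact := [
  ⟨[3,2],none,[[0,1,2],[1,0]],4,true⟩,
  ⟨[3,2],none,[[0,2,1],[0,1]],2,true⟩,
  ⟨[3,2],none,[[1,0,2],[0,1]],1,true⟩,
  ⟨[3,2],none,[[1,2,0],[1,0]],2,true⟩,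
  ⟨[3,2],none,[[2,0,1],[1,0]],1,true⟩,
  ⟨[3,2],some 1,[[1,0,2],[0,1]],1,false⟩,
  ⟨[3,2],some 1,[[2,0,1],[1,0]],1,false⟩,
  ⟨[3,2],some 2,[[1,0,2],[0,1]],1,false⟩,
  ⟨[3,2],some 2,[[2,0,1],[1,0]],4,false⟩,
  ⟨[3,2],some 4,[[0,1,2],[1,0]],4,false⟩,
  ⟨[3,2],some 4,[[2,0,1],[1,0]],1,false⟩]

def fb3_2_d : List Der := [
  ⟨false,1,1,0x83,131⟩,
  ⟨true,1,3,0x400002101,1⟩,
  ⟨false,0,3,0x408002103,1⟩,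
  ⟨true,1,3,0x400002103,1⟩,
  ⟨false,0,3,0x408002101,1⟩,
  ⟨false,0,3,0x408002103,1⟩,
  ⟨false,0,3,0x408002101,1⟩,
  ⟨false,0,3,0x408002105,1⟩,
  ⟨false,1,1,0x87,131⟩,
  ⟨false,1,1,0x83,131⟩,
  ⟨false,0,3,0x408002107,1⟩]

/-- facts for the sizes [2,3] -/
def fb2_3 : List Fact := [
  ⟨[2,3],none,[[0,1],[0,2,1]],4,true⟩,
  ⟨[2,3],none,[[0,1],[1,0,2]],3,true⟩,
  ⟨[2,3],none,[[1,0],[0,1,2]],1,true⟩,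
  ⟨[2,3],none,[[1,0],[1,2,0]],4,true⟩,
  ⟨[2,3],none,[[1,0],[2,0,1]],3,true⟩,
  ⟨[2,3],none,[[1,0],[1,2,0]],1,false⟩,
  ⟨[2,3],some 1,[[1,0],[0,1,2]],1,false⟩,
  ⟨[2,3],some 3,[[0,1],[1,0,2]],3,false⟩,
  ⟨[2,3],some 3,[[1,0],[0,1,2]],1,false⟩,
  ⟨[2,3],some 4,[[0,1],[1,0,2]],3,false⟩,
  ⟨[2,3],some 4,[[1,0],[2,0,1]],1,false⟩]

def fb2_3_d : List Der := [
  ⟨true,0,3,0x408002103,1⟩,
  ⟨false,1,3,0x400002101,1⟩,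
  ⟨false,0,1,0x83,131⟩,
  ⟨true,0,3,0x408002101,1⟩,
  ⟨false,1,3,0x400002103,1⟩,
  ⟨false,0,1,0x83,129⟩,
  ⟨false,0,1,0x83,131⟩,
  ⟨false,1,3,0x400002101,1⟩,
  ⟨false,0,1,0x85,131⟩,
  ⟨false,1,3,0x400002107,1⟩,
  ⟨false,0,1,0x87,131⟩]

/-- facts for the sizes [2,2,2] -/
def fb2_2_2 : List Fact := [
  ⟨[2,2,2],none,[[0,1],[0,1],[1,0]],5,true⟩,
  ⟨[2,2,2],none,[[0,1],[1,0],[0,1]],3,true⟩,
  ⟨[2,2,2],none,[[1,0],[0,1],[0,1]],1,true⟩,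
  ⟨[2,2,2],none,[[1,0],[1,0],[1,0]],1,true⟩,
  ⟨[2,2,2],none,[[1,0],[1,0],[1,0]],3,true⟩,
  ⟨[2,2,2],none,[[1,0],[1,0],[1,0]],5,true⟩,
  ⟨[2,2,2],some 1,[[1,0],[0,1],[0,1]],1,false⟩,
  ⟨[2,2,2],some 1,[[1,0],[1,0],[1,0]],1,false⟩,
  ⟨[2,2,2],some 3,[[1,0],[0,1],[0,1]],1,false⟩,
  ⟨[2,2,2],some 3,[[1,0],[1,0],[1,0]],1,false⟩,
  ⟨[2,2,2],some 5,[[1,0],[0,1],[0,1]],1,false⟩,
  ⟨[2,2,2],some 5,[[1,0],[1,0],[1,0]],1,false⟩]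

def fb2_2_2_d : List Der := [
  ⟨false,2,1,0x103,259⟩,
  ⟨false,1,1,0x103,259⟩,
  ⟨false,0,1,0x103,259⟩,
  ⟨false,0,1,0x103,257⟩,
  ⟨false,1,1,0x103,257⟩,
  ⟨false,2,1,0x103,257⟩,
  ⟨false,0,1,0x103,259⟩,
  ⟨false,0,1,0x103,257⟩,
  ⟨false,0,1,0x105,259⟩,
  ⟨false,0,1,0x105,257⟩,
  ⟨false,0,1,0x107,257⟩,
  ⟨false,0,1,0x107,259⟩]

/-- facts for the sizes [5] -/
def fb5 : List Fact := [
  ⟨[5],none,[[2,0,1,4,3]],4,true⟩,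
  ⟨[5],none,[[2,1,3,4,0]],4,true⟩,
  ⟨[5],none,[[4,0,1,3,2]],1,true⟩,
  ⟨[5],none,[[0,1,2,4,3]],4,false⟩,
  ⟨[5],none,[[0,2,3,4,1]],4,false⟩,
  ⟨[5],none,[[0,3,1,4,2]],4,false⟩,
  ⟨[5],none,[[0,4,2,3,1]],2,false⟩,
  ⟨[5],none,[[0,4,3,1,2]],2,false⟩,
  ⟨[5],none,[[1,0,2,3,4]],1,false⟩,
  ⟨[5],none,[[1,0,3,4,2]],4,false⟩,
  ⟨[5],none,[[1,0,4,2,3]],1,false⟩,
  ⟨[5],none,[[1,2,3,0,4]],3,false⟩,
  ⟨[5],none,[[1,3,4,0,2]],3,false⟩,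
  ⟨[5],none,[[1,4,0,3,2]],2,false⟩,
  ⟨[5],none,[[2,0,1,4,3]],1,false⟩,
  ⟨[5],none,[[2,0,3,1,4]],1,false⟩,
  ⟨[5],none,[[2,3,0,4,1]],4,false⟩,
  ⟨[5],none,[[3,0,1,2,4]],1,false⟩,
  ⟨[5],none,[[3,1,0,4,2]],4,false⟩,
  ⟨[5],none,[[3,2,4,0,1]],3,false⟩,
  ⟨[5],none,[[3,4,2,1,0]],2,false⟩,
  ⟨[5],none,[[4,0,3,2,1]],1,false⟩,
  ⟨[5],none,[[4,1,3,0,2]],3,false⟩,
  ⟨[5],none,[[4,2,1,0,3]],3,false⟩,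
  ⟨[5],some 1,[[3,0,1,2,4]],1,false⟩,
  ⟨[5],some 1,[[3,0,2,4,1]],1,false⟩,
  ⟨[5],some 1,[[3,2,1,4,0]],4,false⟩,
  ⟨[5],some 1,[[4,0,2,1,3]],1,false⟩,
  ⟨[5],some 2,[[1,4,0,3,2]],2,false⟩,
  ⟨[5],some 2,[[3,1,0,4,2]],4,false⟩,
  ⟨[5],some 2,[[3,2,4,0,1]],3,false⟩,
  ⟨[5],some 2,[[3,4,2,1,0]],2,false⟩,
  ⟨[5],some 2,[[4,2,1,0,3]],3,false⟩,
  ⟨[5],some 3,[[1,4,0,3,2]],2,false⟩,
  ⟨[5],some 3,[[3,1,0,4,2]],4,false⟩,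
  ⟨[5],some 3,[[3,2,4,0,1]],3,false⟩,
  ⟨[5],some 3,[[3,4,2,1,0]],2,false⟩,
  ⟨[5],some 3,[[4,2,1,0,3]],3,false⟩,
  ⟨[5],some 4,[[0,4,2,3,1]],2,false⟩,
  ⟨[5],some 4,[[3,0,1,2,4]],1,false⟩,
  ⟨[5],some 4,[[3,1,2,0,4]],3,false⟩,
  ⟨[5],some 4,[[4,0,1,3,2]],1,false⟩]

def fb5_d : List Der := [
  ⟨true,0,15,0x408100101041840810018204084041001030418408102181,131⟩,
  ⟨true,0,15,0x408106102041840810018004084041001010400404106181,131⟩,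
  ⟨false,0,15,0x408106102041840810018004084041001010400404106181,131⟩,
  ⟨true,0,15,0x408100101041840810018204084041001030418408102183,129⟩,
  ⟨true,0,15,0x408100101041840810018204084041001030418408106181,129⟩,
  ⟨true,0,15,0x40810010104184081001820408404100103041840810618b,131⟩,
  ⟨true,0,15,0x4041001010418408100180041840c1061020418408106181,131⟩,
  ⟨true,0,15,0x608102101040040410610204004041061020418408102181,131⟩,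
  ⟨false,0,15,0x408100101041840810018204084041001030418408102183,129⟩,
  ⟨true,0,15,0x408106102041840810018004084041001010400404106183,131⟩,
  ⟨false,0,15,0x408100101041840810018204084041001030418408102181,129⟩,
  ⟨false,0,15,0x4041001010418408100180041840c1061020418408106181,129⟩,
  ⟨false,0,15,0x404100101041840810610204006081061030418408106181,129⟩,
  ⟨true,0,15,0x4041001010418408100180040840c1061020418408106181,131⟩,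
  ⟨false,0,15,0x408106102041840810018004084041001010400404106183,131⟩,
  ⟨false,0,15,0x40810010104184081001820408404100103041840810618b,131⟩,
  ⟨true,0,15,0x408100101041840810018204084041001030418408106181,131⟩,
  ⟨false,0,15,0x408100101041840810018204084041001030418408106181,129⟩,
  ⟨true,0,15,0x408106102041840810018004084041001010400404106183,129⟩,
  ⟨false,0,15,0x600102101040040410610204004041061020418408106181,129⟩,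
  ⟨true,0,15,0x600102101040040410610204004041061020418408106181,131⟩,
  ⟨false,0,15,0x408106102041840810018004084041001010400404106181,129⟩,
  ⟨false,0,15,0x404100101041840810610204006081061030418408106181,131⟩,
  ⟨false,0,15,0x4041001010418408100180041840c1061020418408102181,129⟩,
  ⟨false,0,15,0x408100101041840810018204084041001030418408106181,129⟩,
  ⟨false,0,15,0x40810610204184081001800408404100101040040410618b,129⟩,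
  ⟨true,0,15,0x40810610204184081001800408404100101040040410619b,129⟩,
  ⟨false,0,15,0x408100101041840810018204084041001030418408106183,131⟩,
  ⟨true,0,15,0x4041001010418408100180040840c1061020418408106193,131⟩,
  ⟨true,0,15,0x408106102041840810018004084041001010400404106195,129⟩,
  ⟨false,0,15,0x60010210104004041061020400404106102041840810618d,129⟩,
  ⟨true,0,15,0x600102101040040410610204004041061020418408106193,131⟩,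
  ⟨false,0,15,0x4041001010418408100180041840c106102041840810218d,129⟩,
  ⟨true,0,15,0x4041001010418408100180040840c106102041840810618d,131⟩,
  ⟨true,0,15,0x40810610204184081001800408404100101040040410618f,129⟩,
  ⟨false,0,15,0x600102101040040410610204004041061020418408106193,129⟩,
  ⟨true,0,15,0x60010210104004041061020400404106102041840810618d,131⟩,
  ⟨false,0,15,0x4041001010418408100180041840c1061020418408102193,129⟩,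
  ⟨true,0,15,0x4041001010418408100180041840c1061020418408106181,131⟩,
  ⟨false,0,15,0x40810610204184081001800408404100101040040410619f,131⟩,
  ⟨false,0,15,0x40410010104184081061020400608106103041840810619f,131⟩,
  ⟨false,0,15,0x40810610204184081001800408404100101040040410619b,131⟩]

/-- facts for the sizes [4,2] -/
def fb4_2 : List Fact := [
  ⟨[4,2],none,[[2,1,3,0],[1,0]],5,true⟩,
  ⟨[4,2],none,[[2,3,1,0],[0,1]],3,true⟩,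
  ⟨[4,2],none,[[0,1,3,2],[0,1]],3,false⟩,
  ⟨[4,2],none,[[0,2,3,1],[1,0]],3,false⟩,
  ⟨[4,2],none,[[1,2,3,0],[0,1]],3,false⟩,
  ⟨[4,2],none,[[2,3,0,1],[1,0]],5,false⟩,
  ⟨[4,2],none,[[3,0,1,2],[0,1]],1,false⟩,
  ⟨[4,2],none,[[3,0,2,1],[1,0]],1,false⟩,
  ⟨[4,2],some 1,[[0,2,3,1],[1,0]],3,false⟩,
  ⟨[4,2],some 1,[[1,2,3,0],[0,1]],3,false⟩,
  ⟨[4,2],some 1,[[2,3,1,0],[0,1]],3,false⟩,
  ⟨[4,2],some 1,[[3,0,2,1],[1,0]],1,false⟩,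
  ⟨[4,2],some 2,[[0,2,3,1],[1,0]],3,false⟩,
  ⟨[4,2],some 2,[[1,2,3,0],[0,1]],3,false⟩,
  ⟨[4,2],some 2,[[2,3,1,0],[0,1]],3,false⟩,
  ⟨[4,2],some 2,[[3,0,2,1],[1,0]],1,false⟩,
  ⟨[4,2],some 3,[[0,2,3,1],[1,0]],3,false⟩,
  ⟨[4,2],some 3,[[1,2,3,0],[0,1]],3,false⟩,
  ⟨[4,2],some 3,[[2,3,1,0],[0,1]],3,false⟩,
  ⟨[4,2],some 3,[[3,0,2,1],[1,0]],1,false⟩,
  ⟨[4,2],some 5,[[0,2,3,1],[1,0]],3,false⟩,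
  ⟨[4,2],some 5,[[1,2,3,0],[0,1]],3,false⟩,
  ⟨[4,2],some 5,[[2,3,1,0],[0,1]],3,false⟩,
  ⟨[4,2],some 5,[[3,0,2,1],[1,0]],1,false⟩]

def fb4_2_d : List Der := [
  ⟨false,1,1,0x185,391⟩,
  ⟨false,0,7,0x40c2061020818408206205,515⟩,
  ⟨true,1,7,0x400202100140040c20228b,257⟩,
  ⟨true,1,7,0x400202100140040c206285,257⟩,
  ⟨false,0,7,0x40c2061020818408206205,517⟩,
  ⟨false,1,1,0x181,385⟩,
  ⟨false,0,7,0x408206102103040c206205,257⟩,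
  ⟨false,0,7,0x408206102103040c206205,259⟩,
  ⟨true,1,7,0x400202100140040c202295,259⟩,
  ⟨false,0,7,0x40c2061020818408206205,517⟩,
  ⟨false,0,7,0x40c2061020818408206205,515⟩,
  ⟨false,0,7,0x408206102103040c206205,259⟩,
  ⟨true,1,7,0x400202100140040c206291,257⟩,
  ⟨false,0,7,0x40c206102081840820620b,517⟩,
  ⟨false,0,7,0x40c206102081840820620b,515⟩,
  ⟨false,0,7,0x408206102103040c20620b,259⟩,
  ⟨true,1,7,0x400202100140040c206285,257⟩,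
  ⟨false,0,7,0x40c206102081840820620f,517⟩,
  ⟨false,0,7,0x40c206102081840820620f,515⟩,
  ⟨false,0,7,0x408206102103040c20620f,259⟩,
  ⟨true,1,7,0x400202100140040c20628d,257⟩,
  ⟨false,0,7,0x40c2061020818408206215,519⟩,
  ⟨false,0,7,0x40c2061020818408206215,521⟩,
  ⟨false,0,7,0x408206102103040c206213,257⟩]

/-- facts for the sizes [3,3] -/
def fb3_3 : List Fact := [
  ⟨[3,3],none,[[1,0,2],[2,0,1]],4,true⟩,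
  ⟨[3,3],none,[[1,2,0],[0,2,1]],2,true⟩,
  ⟨[3,3],none,[[2,1,0],[1,2,0]],5,true⟩,
  ⟨[3,3],none,[[0,1,2],[0,2,1]],5,false⟩,
  ⟨[3,3],none,[[0,2,1],[0,1,2]],2,false⟩,
  ⟨[3,3],none,[[0,2,1],[1,2,0]],2,false⟩,
  ⟨[3,3],none,[[2,1,0],[2,0,1]],4,false⟩,
  ⟨[3,3],some 1,[[0,2,1],[1,2,0]],2,false⟩,
  ⟨[3,3],some 1,[[2,0,1],[2,1,0]],1,false⟩,
  ⟨[3,3],some 2,[[0,2,1],[1,2,0]],2,false⟩,
  ⟨[3,3],some 2,[[1,0,2],[2,0,1]],1,false⟩,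
  ⟨[3,3],some 2,[[2,0,1],[1,0,2]],4,false⟩,
  ⟨[3,3],some 4,[[0,2,1],[1,2,0]],2,false⟩,
  ⟨[3,3],some 4,[[1,0,2],[2,0,1]],1,false⟩,
  ⟨[3,3],some 4,[[2,0,1],[1,0,2]],1,false⟩,
  ⟨[3,3],some 5,[[0,2,1],[1,2,0]],2,false⟩,
  ⟨[3,3],some 5,[[1,0,2],[2,0,1]],1,false⟩,
  ⟨[3,3],some 5,[[2,0,1],[1,0,2]],1,false⟩]

def fb3_3_d : List Der := [
  ⟨false,1,3,0x800106205,131⟩,
  ⟨true,1,3,0x800106205,131⟩,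
  ⟨true,0,3,0xa10102283,131⟩,
  ⟨true,0,3,0xa10106285,131⟩,
  ⟨true,1,3,0x800106209,129⟩,
  ⟨true,1,3,0x800106209,131⟩,
  ⟨false,1,3,0x800102205,131⟩,
  ⟨true,1,3,0x800106215,131⟩,
  ⟨false,0,3,0xa10102283,131⟩,
  ⟨true,1,3,0x800106209,131⟩,
  ⟨false,0,3,0xa1010228d,131⟩,
  ⟨false,1,3,0x800106211,131⟩,
  ⟨true,1,3,0x800106211,131⟩,
  ⟨false,0,3,0xa10102291,131⟩,
  ⟨false,0,3,0xa1010628f,131⟩,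
  ⟨true,1,3,0x80010620d,131⟩,
  ⟨false,0,3,0xa10106295,131⟩,
  ⟨false,0,3,0xa10106293,131⟩]

/-- facts for the sizes [2,4] -/
def fb2_4 : List Fact := [
  ⟨[2,4],none,[[0,1],[2,3,1,0]],5,true⟩,
  ⟨[2,4],none,[[1,0],[1,3,2,0]],1,true⟩,
  ⟨[2,4],none,[[0,1],[0,1,3,2]],5,false⟩,
  ⟨[2,4],none,[[0,1],[1,2,3,0]],5,false⟩,
  ⟨[2,4],none,[[0,1],[2,0,3,1]],3,false⟩,
  ⟨[2,4],none,[[0,1],[3,0,1,2]],3,false⟩,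
  ⟨[2,4],none,[[0,1],[3,1,2,0]],3,false⟩,
  ⟨[2,4],none,[[1,0],[0,2,3,1]],5,false⟩,
  ⟨[2,4],none,[[1,0],[1,2,0,3]],1,false⟩,
  ⟨[2,4],none,[[1,0],[2,1,3,0]],1,false⟩,
  ⟨[2,4],some 1,[[0,1],[2,0,3,1]],3,false⟩,
  ⟨[2,4],some 1,[[0,1],[3,1,2,0]],3,false⟩,
  ⟨[2,4],some 1,[[1,0],[1,3,2,0]],1,false⟩,
  ⟨[2,4],some 1,[[1,0],[2,1,3,0]],1,false⟩,
  ⟨[2,4],some 3,[[0,1],[2,0,3,1]],3,false⟩,
  ⟨[2,4],some 3,[[0,1],[3,1,2,0]],3,false⟩,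
  ⟨[2,4],some 3,[[1,0],[1,3,2,0]],5,false⟩,
  ⟨[2,4],some 3,[[1,0],[2,1,3,0]],1,false⟩,
  ⟨[2,4],some 4,[[0,1],[2,0,3,1]],3,false⟩,
  ⟨[2,4],some 4,[[0,1],[3,1,2,0]],3,false⟩,
  ⟨[2,4],some 4,[[1,0],[1,3,2,0]],1,false⟩,
  ⟨[2,4],some 4,[[1,0],[2,1,3,0]],1,false⟩,
  ⟨[2,4],some 5,[[0,1],[2,0,3,1]],3,false⟩,
  ⟨[2,4],some 5,[[0,1],[3,1,2,0]],3,false⟩,
  ⟨[2,4],some 5,[[1,0],[1,3,2,0]],1,false⟩,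
  ⟨[2,4],some 5,[[1,0],[2,1,3,0]],1,false⟩]

def fb2_4_d : List Der := [
  ⟨false,1,7,0x40c2021000808400206285,649⟩,
  ⟨false,0,1,0x187,389⟩,
  ⟨true,0,7,0x408206102103040c202205,259⟩,
  ⟨false,1,7,0x40c2021000808400206285,647⟩,
  ⟨false,1,7,0x400202100140040c206285,259⟩,
  ⟨false,1,7,0x400202100140040c202285,257⟩,
  ⟨true,0,7,0x4042061020818408206205,521⟩,
  ⟨true,0,7,0x408206102103040c206209,257⟩,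
  ⟨false,0,1,0x18b,385⟩,
  ⟨false,0,1,0x185,391⟩,
  ⟨false,1,7,0x400202100140040c20628d,259⟩,
  ⟨true,0,7,0x40c2061020818408206215,513⟩,
  ⟨false,0,1,0x187,389⟩,
  ⟨false,0,1,0x185,391⟩,
  ⟨false,1,7,0x400202100140040c206285,259⟩,
  ⟨true,0,7,0x404206102081840820620f,521⟩,
  ⟨false,1,7,0x40c2021000808400206285,643⟩,
  ⟨false,0,1,0x191,391⟩,
  ⟨false,1,7,0x400202100140040c206291,259⟩,
  ⟨true,0,7,0x404206102081840820620b,521⟩,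
  ⟨false,0,1,0x199,389⟩,
  ⟨false,0,1,0x197,391⟩,
  ⟨false,1,7,0x400202100140040c202295,257⟩,
  ⟨true,0,7,0x4042061020818408206205,521⟩,
  ⟨false,0,1,0x1a1,389⟩,
  ⟨false,0,1,0x19d,391⟩]

/-- facts for the sizes [3,2,2] -/
def fb3_2_2 : List Fact := [
  ⟨[3,2,2],none,[[1,2,0],[1,0],[0,1]],2,true⟩,
  ⟨[3,2,2],none,[[2,0,1],[1,0],[0,1]],4,true⟩,
  ⟨[3,2,2],none,[[2,1,0],[1,0],[1,0]],6,true⟩,
  ⟨[3,2,2],none,[[0,2,1],[0,1],[0,1]],2,false⟩,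
  ⟨[3,2,2],none,[[0,2,1],[1,0],[1,0]],2,false⟩,
  ⟨[3,2,2],some 1,[[0,2,1],[0,1],[0,1]],2,false⟩,
  ⟨[3,2,2],some 1,[[0,2,1],[1,0],[1,0]],2,false⟩,
  ⟨[3,2,2],some 1,[[1,2,0],[1,0],[0,1]],2,false⟩,
  ⟨[3,2,2],some 2,[[0,2,1],[0,1],[0,1]],2,false⟩,
  ⟨[3,2,2],some 2,[[0,2,1],[1,0],[1,0]],2,false⟩,
  ⟨[3,2,2],some 2,[[1,2,0],[1,0],[0,1]],2,false⟩,
  ⟨[3,2,2],some 4,[[0,2,1],[0,1],[0,1]],2,false⟩,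
  ⟨[3,2,2],some 4,[[0,2,1],[1,0],[1,0]],2,false⟩,
  ⟨[3,2,2],some 4,[[1,2,0],[1,0],[0,1]],2,false⟩,
  ⟨[3,2,2],some 6,[[0,2,1],[0,1],[0,1]],2,false⟩,
  ⟨[3,2,2],some 6,[[0,2,1],[1,0],[1,0]],2,false⟩,
  ⟨[3,2,2],some 6,[[1,2,0],[1,0],[0,1]],2,false⟩]

def fb3_2_2_d : List Der := [
  ⟨true,2,3,0xc00206305,257⟩,
  ⟨false,1,1,0x209,513⟩,
  ⟨false,2,1,0x205,521⟩,
  ⟨true,2,3,0xc00206307,257⟩,
  ⟨true,2,3,0xc00206307,259⟩,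
  ⟨true,2,3,0xc00206317,257⟩,
  ⟨true,2,3,0xc00206317,259⟩,
  ⟨true,2,3,0xc00206315,257⟩,
  ⟨true,2,3,0xc00206307,257⟩,
  ⟨true,2,3,0xc00206307,259⟩,
  ⟨true,2,3,0xc00206305,257⟩,
  ⟨true,2,3,0xc00206313,257⟩,
  ⟨true,2,3,0xc00206313,259⟩,
  ⟨true,2,3,0xc00206311,257⟩,
  ⟨true,2,3,0xc0020630f,257⟩,
  ⟨true,2,3,0xc0020630f,259⟩,
  ⟨true,2,3,0xc0020630d,257⟩]

/-- facts for the sizes [2,3,2] -/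
def fb2_3_2 : List Fact := [
  ⟨[2,3,2],none,[[1,0],[0,2,1],[1,0]],4,true⟩,
  ⟨[2,3,2],none,[[1,0],[0,2,1],[1,0]],6,true⟩,
  ⟨[2,3,2],none,[[1,0],[2,0,1],[0,1]],1,true⟩,
  ⟨[2,3,2],none,[[0,1],[1,2,0],[1,0]],4,false⟩,
  ⟨[2,3,2],none,[[1,0],[0,1,2],[0,1]],1,false⟩,
  ⟨[2,3,2],none,[[1,0],[1,0,2],[1,0]],1,false⟩,
  ⟨[2,3,2],some 1,[[0,1],[1,2,0],[1,0]],4,false⟩,
  ⟨[2,3,2],some 1,[[1,0],[0,1,2],[0,1]],1,false⟩,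
  ⟨[2,3,2],some 1,[[1,0],[1,0,2],[1,0]],1,false⟩,
  ⟨[2,3,2],some 3,[[0,1],[1,2,0],[1,0]],4,false⟩,
  ⟨[2,3,2],some 3,[[1,0],[0,1,2],[0,1]],1,false⟩,
  ⟨[2,3,2],some 3,[[1,0],[1,0,2],[1,0]],1,false⟩,
  ⟨[2,3,2],some 4,[[0,1],[1,2,0],[1,0]],4,false⟩,
  ⟨[2,3,2],some 4,[[1,0],[0,1,2],[0,1]],1,false⟩,
  ⟨[2,3,2],some 4,[[1,0],[1,0,2],[1,0]],1,false⟩,
  ⟨[2,3,2],some 6,[[0,1],[1,2,0],[1,0]],4,false⟩,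
  ⟨[2,3,2],some 6,[[1,0],[0,1,2],[0,1]],1,false⟩,
  ⟨[2,3,2],some 6,[[1,0],[1,0,2],[1,0]],1,false⟩]

def fb2_3_2_d : List Der := [
  ⟨true,1,3,0xc08206307,259⟩,
  ⟨false,2,1,0x285,641⟩,
  ⟨false,0,1,0x209,513⟩,
  ⟨true,1,3,0xc08206305,259⟩,
  ⟨false,0,1,0x205,517⟩,
  ⟨false,0,1,0x205,513⟩,
  ⟨true,1,3,0xc08206315,259⟩,
  ⟨false,0,1,0x205,517⟩,
  ⟨false,0,1,0x205,513⟩,
  ⟨true,1,3,0xc08206311,259⟩,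
  ⟨false,0,1,0x20b,517⟩,
  ⟨false,0,1,0x20b,513⟩,
  ⟨true,1,3,0xc08206305,259⟩,
  ⟨false,0,1,0x20f,517⟩,
  ⟨false,0,1,0x20f,513⟩,
  ⟨true,1,3,0xc0820630d,259⟩,
  ⟨false,0,1,0x215,519⟩,
  ⟨false,0,1,0x213,517⟩]

/-- facts for the sizes [2,2,3] -/
def fb2_2_3 : List Fact := [
  ⟨[2,2,3],none,[[1,0],[1,0],[0,2,1]],6,true⟩,
  ⟨[2,2,3],none,[[1,0],[1,0],[1,0,2]],1,true⟩,
  ⟨[2,2,3],none,[[1,0],[1,0],[1,0,2]],3,true⟩,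
  ⟨[2,2,3],none,[[0,1],[0,1],[0,2,1]],6,false⟩,
  ⟨[2,2,3],none,[[0,1],[1,0],[1,2,0]],3,false⟩,
  ⟨[2,2,3],none,[[0,1],[1,0],[1,2,0]],6,false⟩,
  ⟨[2,2,3],none,[[0,1],[1,0],[2,0,1]],3,false⟩,
  ⟨[2,2,3],none,[[1,0],[0,1],[2,0,1]],1,false⟩,
  ⟨[2,2,3],some 1,[[0,1],[1,0],[1,2,0]],3,false⟩,
  ⟨[2,2,3],some 1,[[1,0],[0,1],[2,0,1]],1,false⟩,
  ⟨[2,2,3],some 3,[[0,1],[1,0],[1,2,0]],3,false⟩,
  ⟨[2,2,3],some 3,[[1,0],[0,1],[2,0,1]],1,false⟩,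
  ⟨[2,2,3],some 5,[[0,1],[1,0],[1,2,0]],3,false⟩,
  ⟨[2,2,3],some 5,[[1,0],[0,1],[2,0,1]],1,false⟩,
  ⟨[2,2,3],some 6,[[0,1],[1,0],[1,2,0]],3,false⟩,
  ⟨[2,2,3],some 6,[[1,0],[0,1],[2,0,1]],1,false⟩]

def fb2_2_3_d : List Der := [
  ⟨true,0,3,0xc10206305,257⟩,
  ⟨false,0,1,0x285,643⟩,
  ⟨false,1,1,0x285,643⟩,
  ⟨true,0,3,0xc10206305,259⟩,
  ⟨false,1,1,0x285,647⟩,
  ⟨true,0,3,0xc10206303,259⟩,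
  ⟨false,1,1,0x285,649⟩,
  ⟨false,0,1,0x285,649⟩,
  ⟨false,1,1,0x28d,647⟩,
  ⟨false,0,1,0x285,649⟩,
  ⟨false,1,1,0x285,647⟩,
  ⟨false,0,1,0x28d,649⟩,
  ⟨false,1,1,0x291,647⟩,
  ⟨false,0,1,0x291,649⟩,
  ⟨false,1,1,0x295,649⟩,
  ⟨false,0,1,0x295,645⟩]

/-- facts for the sizes [2,2,2,2] -/
def fb2_2_2_2 : List Fact := [
  ⟨[2,2,2,2],none,[[1,0],[0,1],[1,0],[1,0]],5,true⟩,
  ⟨[2,2,2,2],none,[[1,0],[1,0],[0,1],[1,0]],7,true⟩,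
  ⟨[2,2,2,2],none,[[1,0],[1,0],[1,0],[0,1]],1,true⟩,
  ⟨[2,2,2,2],none,[[1,0],[1,0],[1,0],[0,1]],3,true⟩,
  ⟨[2,2,2,2],none,[[0,1],[0,1],[0,1],[1,0]],7,false⟩,
  ⟨[2,2,2,2],none,[[0,1],[1,0],[0,1],[0,1]],3,false⟩,
  ⟨[2,2,2,2],none,[[0,1],[1,0],[1,0],[1,0]],3,false⟩,
  ⟨[2,2,2,2],none,[[1,0],[0,1],[1,0],[1,0]],1,false⟩,
  ⟨[2,2,2,2],some 1,[[0,1],[1,0],[0,1],[0,1]],3,false⟩,
  ⟨[2,2,2,2],some 1,[[0,1],[1,0],[1,0],[1,0]],3,false⟩,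
  ⟨[2,2,2,2],some 1,[[1,0],[0,1],[1,0],[1,0]],1,false⟩,
  ⟨[2,2,2,2],some 1,[[1,0],[1,0],[1,0],[0,1]],1,false⟩,
  ⟨[2,2,2,2],some 3,[[0,1],[1,0],[0,1],[0,1]],3,false⟩,
  ⟨[2,2,2,2],some 3,[[0,1],[1,0],[1,0],[1,0]],3,false⟩,
  ⟨[2,2,2,2],some 3,[[1,0],[0,1],[1,0],[1,0]],1,false⟩,
  ⟨[2,2,2,2],some 3,[[1,0],[1,0],[1,0],[0,1]],1,false⟩,
  ⟨[2,2,2,2],some 5,[[0,1],[1,0],[0,1],[0,1]],3,false⟩,
  ⟨[2,2,2,2],some 5,[[0,1],[1,0],[1,0],[1,0]],3,false⟩,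
  ⟨[2,2,2,2],some 5,[[1,0],[0,1],[1,0],[1,0]],1,false⟩,
  ⟨[2,2,2,2],some 5,[[1,0],[1,0],[1,0],[0,1]],1,false⟩,
  ⟨[2,2,2,2],some 7,[[0,1],[1,0],[0,1],[0,1]],3,false⟩,
  ⟨[2,2,2,2],some 7,[[0,1],[1,0],[1,0],[1,0]],3,false⟩,
  ⟨[2,2,2,2],some 7,[[1,0],[0,1],[1,0],[1,0]],1,false⟩,
  ⟨[2,2,2,2],some 7,[[1,0],[1,0],[1,0],[0,1]],1,false⟩]

def fb2_2_2_2_d : List Der := [
  ⟨false,2,1,0x305,769⟩,
  ⟨false,3,1,0x305,771⟩,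
  ⟨false,0,1,0x305,771⟩,
  ⟨false,1,1,0x305,771⟩,
  ⟨false,3,1,0x305,773⟩,
  ⟨false,1,1,0x305,773⟩,
  ⟨false,1,1,0x305,775⟩,
  ⟨false,0,1,0x305,775⟩,
  ⟨false,1,1,0x30d,773⟩,
  ⟨false,1,1,0x30d,775⟩,
  ⟨false,0,1,0x305,775⟩,
  ⟨false,0,1,0x305,771⟩,
  ⟨false,1,1,0x305,773⟩,
  ⟨false,1,1,0x305,775⟩,
  ⟨false,0,1,0x30d,775⟩,
  ⟨false,0,1,0x30d,771⟩,
  ⟨false,1,1,0x311,773⟩,
  ⟨false,1,1,0x311,775⟩,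
  ⟨false,0,1,0x311,775⟩,
  ⟨false,0,1,0x311,771⟩,
  ⟨false,1,1,0x317,775⟩,
  ⟨false,1,1,0x317,773⟩,
  ⟨false,0,1,0x317,773⟩,
  ⟨false,0,1,0x317,769⟩]

def dbV1 : List (List Fact) := [fb2]

def dbV2 : List (List Fact) := [fb2, fb3, fb2_2]

def dbV3 : List (List Fact) := [fb2, fb3, fb2_2, fb4, fb3_2, fb2_3, fb2_2_2]

def dbV4 : List (List Fact) := [fb2, fb3, fb2_2, fb4, fb3_2, fb2_3, fb2_2_2, fb5, fb4_2, fb3_3, fb2_4, fb3_2_2, fb2_3_2, fb2_2_3, fb2_2_2_2]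

/-- check of a list of derivations -/
def checkAll (db : List (List Fact)) (fs : List Fact) (ds : List Der) : Bool :=
  (fs.length == ds.length) && (fs.zip ds).all (fun p => checkD db p.1 p.2)

end Pool.Agent.RS
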