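import Pool.Agent.RS.Cov5

/-!
# RS: statements for five bars, one ε-bar (definitions)
-/

set_option autoImplicit false

namespace Pool.Agent.RS

open Finset

/-- prescribed first letter of the last component `p`, lowest bars of the end: the ε-bar and the
first bar of `p` -/
def UEs (ks : List ℕ) : Prop :=
  ∀ (Pi : Finset ℕ) (X : Fl) (bl : List (ℕ × ℕ)), Good Pi X → Blk Pi X bl →
    bl.map Prod.snd = ks → X.s.length = 5 → Pi.card = 4 → HeadEps Pi X →
    ∀ p, bl.getLast? = some p → ∀ x, (∃ i, i < p.2 ∧ X.w[p.1 + i]? = some x) →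
      ∃ Y s' β, Strip Pi X Y ∧ β ∉ Pi ∧ Y.s = β :: (p.1 + 1) :: s' ∧ Y.w[p.1]? = some x

/-- prescribed last letter of the first component -/
def ELs (ks : List ℕ) : Prop :=
  ∀ (Pi : Finset ℕ) (X : Fl) (bl : List (ℕ × ℕ)), Good Pi X → Blk Pi X bl →
    bl.map Prod.snd = ks → X.s.length = 5 → Pi.card = 4 → HeadEps Pi X →
    ∀ p, bl.head? = some p → ELc Pi X p.1 p.2

/-- one component of size five, arbitrary start order -/
def N1s : Prop :=
  ∀ (Pi : Finset ℕ) (X : Fl) (a : ℕ), Good Pi X → IsComp Pi X a 5 → X.s.length = 5 →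
    Pi.card = 4 → ∃ Y s' β x, Strip Pi X Y ∧ β ∉ Pi ∧ Y.s = β :: (a + 1) :: s' ∧
      Y.w[a]? = some x

/-- one component of size six, no other bars: the first letter becomes the last one -/
def Z6s : Prop :=
  ∀ (Pi : Finset ℕ) (X : Fl) (a : ℕ), Good Pi X → IsComp Pi X a 6 →
    (∀ b ∈ X.s, a < b ∧ b < a + 6) → X.s.getLast? = some (a + 5) →
    ∃ Y, Strip Pi X Y ∧ Y.s.getLast? = some (a + 5) ∧ Y.w[a + 5]? = X.w[a]? ∧
      Y.w[a + 4]? = X.w[a + 5]?

def coverUE (ks : List ℕ) (cs : List Cer) : Bool :=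
  (List.range (ks.getLastD 0)).all (fun x => coverP ks 1 true (fun _ => true) cs (fun c =>
    (c.o'.take 2 == [ks.sum, ks.dropLast.sum + 1]) &&
      ((c.t.getD (ks.length - 1) []).getD 0 0 == x)))

def coverEL (ks : List ℕ) (cs : List Cer) : Bool :=
  (List.range (ks.headD 0 - 1)).all (fun y => coverP ks 1 true (fun _ => true) cs (fun c =>
    (c.o'.headD 0 == ks.sum) && (c.o'.getLast? == some (ks.headD 0 - 1)) &&
      ((c.t.getD 0 []).getD (ks.headD 0 - 1) 0 == y) &&
      ((c.t.getD 0 []).getD (ks.headD 0 - 2) 0 == ks.headD 0 - 1)))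

def coverN1 (cs : List Cer) : Bool :=
  coverP [5] 1 false (fun _ => true) cs (fun c => c.o'.take 2 == [5, 1])

def coverZ6 (cs : List Cer) : Bool :=
  coverP [6] 0 false (fun o => o.getLast? == some 5) cs (fun c => (c.o'.getLast? == some 5) &&
    ((c.t.getD 0 []).getD 5 0 == 0) && ((c.t.getD 0 []).getD 4 0 == 5))

end Pool.Agent.RS
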