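import Pool.Agent.RS.CertAll
import Pool.Agent.RS.DbA
import Pool.Agent.RS.Cov5B
import Pool.Agent.RS.Z7Defs

/-!
# RS: coverage checks
-/

set_option autoImplicit false
set_option maxRecDepth 100000

namespace Pool.Agent.RS

theorem cov2 : fb2.all (fun f => !f.five || ((f.ks == [2]) && (f.cls == none) &&
    cover5 [2] 4 cs2_e4 f.t f.tp)) = true := by decide +kernel

theorem cov3 : fb3.all (fun f => !f.five || ((f.ks == [3]) && (f.cls == none) &&
    cover5 [3] 3 cs3_e3 f.t f.tp)) = true := by decide +kernel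

theorem cov2_2 : fb2_2.all (fun f => !f.five || ((f.ks == [2,2]) && (f.cls == none) &&
    cover5 [2,2] 3 cs2_2_e3 f.t f.tp)) = true := by decide +kernel

theorem cov4 : fb4.all (fun f => !f.five || ((f.ks == [4]) && (f.cls == none) &&
    cover5 [4] 2 cs4_e2 f.t f.tp)) = true := by decide +kernel

theorem cov3_2 : fb3_2.all (fun f => !f.five || ((f.ks == [3,2]) && (f.cls == none) &&
    cover5 [3,2] 2 cs3_2_e2 f.t f.tp)) = true := by decide +kernel

theorem cov2_3 : fb2_3.all (fun f => !f.five || ((f.ks == [2,3]) && (f.cls == none) &&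
    cover5 [2,3] 2 cs2_3_e2 f.t f.tp)) = true := by decide +kernel

theorem cov2_2_2 : fb2_2_2.all (fun f => !f.five || ((f.ks == [2,2,2]) && (f.cls == none) &&
    cover5 [2,2,2] 2 cs2_2_2_e2 f.t f.tp)) = true := by decide +kernel

theorem cov5 : fb5.all (fun f => !f.five || ((f.ks == [5]) && (f.cls == none) &&
    cover5 [5] 1 cs5_e1 f.t f.tp)) = true := by decide +kernel

theorem cov4_2 : fb4_2.all (fun f => !f.five || ((f.ks == [4,2]) && (f.cls == none) &&
    cover5 [4,2] 1 cs4_2_e1 f.t f.tp)) = true := by decide +kernel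

theorem cov3_3 : fb3_3.all (fun f => !f.five || ((f.ks == [3,3]) && (f.cls == none) &&
    cover5 [3,3] 1 cs3_3_e1 f.t f.tp)) = true := by decide +kernel

theorem cov2_4 : fb2_4.all (fun f => !f.five || ((f.ks == [2,4]) && (f.cls == none) &&
    cover5 [2,4] 1 cs2_4_e1 f.t f.tp)) = true := by decide +kernel

theorem cov3_2_2 : fb3_2_2.all (fun f => !f.five || ((f.ks == [3,2,2]) && (f.cls == none) &&
    cover5 [3,2,2] 1 cs3_2_2_e1 f.t f.tp)) = true := by decide +kernel

theorem cov2_3_2 : fb2_3_2.all (fun f => !f.five || ((f.ks == [2,3,2]) && (f.cls == none) &&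
    cover5 [2,3,2] 1 cs2_3_2_e1 f.t f.tp)) = true := by decide +kernel

theorem cov2_2_3 : fb2_2_3.all (fun f => !f.five || ((f.ks == [2,2,3]) && (f.cls == none) &&
    cover5 [2,2,3] 1 cs2_2_3_e1 f.t f.tp)) = true := by decide +kernel

theorem cov2_2_2_2 : fb2_2_2_2.all (fun f => !f.five || ((f.ks == [2,2,2,2]) && (f.cls == none) &&
    cover5 [2,2,2,2] 1 cs2_2_2_2_e1 f.t f.tp)) = true := by decide +kernel

theorem cov0 : ((permsL [0, 1, 2, 3, 4]).filter (fun o' => (o'.getLast? == some 0) &&
    (inv o' % 2 == 0))).all (fun o' => (cs_e5.map Cer.o').contains o') = true := by decide +kernel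

theorem cov0' : cs_e5.all (fun c => (c.o == [0, 1, 2, 3, 4]) && (c.t == [])) = true := by
  decide +kernel

theorem covG3 : coverG3 cs3_e3 = true := by decide +kernel

theorem covG4 : coverG4 cs4_e2 = true := by decide +kernel

theorem covN1 : coverN1 cs5_e1 = true := by decide +kernel

theorem covZ6 : coverZ6 cs6_e0 = true := by decide +kernel

theorem covU5 : coverUE [5] cs5_e1 = true := by decide +kernel

theorem covL5 : coverEL [5] cs5_e1 = true := by decide +kernel

theorem covU2_4 : coverUE [2,4] cs2_4_e1 = true := by decide +kernel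

theorem covL2_4 : coverEL [2,4] cs2_4_e1 = true := by decide +kernel

theorem covU3_3 : coverUE [3,3] cs3_3_e1 = true := by decide +kernel

theorem covL3_3 : coverEL [3,3] cs3_3_e1 = true := by decide +kernel

theorem covU4_2 : coverUE [4,2] cs4_2_e1 = true := by decide +kernel

theorem covL4_2 : coverEL [4,2] cs4_2_e1 = true := by decide +kernel

end Pool.Agent.RS
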