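import Pool.Agent.RS.Cyl

/-!
# RS module Region: regions between two curves on the cylinder
-/

set_option autoImplicit false

namespace Pool.Agent.RS

open Set

/-- the projection of the plane to the cylinder -/
def prj (x h : ℝ) : Cyl := ((x : AddCircle (1 : ℝ)), h)

theorem prj_continuous : Continuous (fun p : ℝ × ℝ => prj p.1 p.2) := by
  unfold prj
  exact (continuous_quotient_mk'.comp continuous_fst).prodMk continuous_snd

theorem prj_open : IsOpenMap (fun p : ℝ × ℝ => prj p.1 p.2) := by
  have h1 : IsOpenMap (fun x : ℝ => (x : AddCircle (1 : ℝ))) := QuotientAddGroup.isOpenMap_coe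
  exact h1.prodMap IsOpenMap.id

theorem prj_eq {x x' h h' : ℝ} : prj x h = prj x' h' ↔ h = h' ∧ ∃ m : ℤ, x' = x + m := by
  unfold prj
  rw [Prod.mk.injEq, and_comm]
  apply and_congr_right
  intro _
  rw [QuotientAddGroup.eq, AddSubgroup.mem_zmultiples_iff]
  constructor
  · rintro ⟨m, hm⟩
    refine ⟨m, ?_⟩
    simp only [zsmul_eq_mul, mul_one] at hm
    linarith
  · rintro ⟨m, hm⟩
    refine ⟨m, ?_⟩
    simp only [zsmul_eq_mul, mul_one]
    linarith

/-- a component of the complement of `D`: a nonempty open connected set disjoint from `D` whose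
frontier is contained in `D` -/
theorem component_eq {D R : Set Cyl} (ho : IsOpen R) (hc : IsPreconnected R)
    (hd : Disjoint R D) (hf : frontier R ⊆ D) {p : Cyl} (hp : p ∈ R) :
    connectedComponentIn Dᶜ p = R := by
  have hRD : R ⊆ Dᶜ := fun x hx hx' => Set.disjoint_left.1 hd hx hx'
  apply Subset.antisymm
  · have h1 : IsPreconnected (connectedComponentIn Dᶜ p) := isPreconnected_connectedComponentIn
    have h2 : connectedComponentIn Dᶜ p ⊆ Dᶜ := connectedComponentIn_subset _ _
    apply h1.subset_left_of_subset_union ho (isClosed_closure (s := R)).isOpen_compl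
    · exact Set.disjoint_left.2 fun x hx hx' => hx' (subset_closure hx)
    · intro x hx
      by_cases hxR : x ∈ R
      · exact Or.inl hxR
      · right
        intro hcl
        apply h2 hx
        apply hf
        rw [ho.frontier_eq]
        exact ⟨hcl, hxR⟩
    · exact ⟨p, mem_connectedComponentIn (hRD hp), hp⟩
  · exact hc.subset_connectedComponentIn hp hRD

/-- the region between two curves `f < g` over `(h0, h1)` with common ends. The closure of the
region is the compact set of the points between the two curves over `[h0, h1]` (image of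
`[h0, h1] × [0, 1]` under `(h, θ) ↦ prj ((1 - θ) f h + θ g h) h`). -/
theorem region_generic {f g : ℝ → ℝ} {h0 h1 : ℝ} {D : Set Cyl} (hf : Continuous f)
    (hg : Continuous g) (h01 : h0 < h1) (hlt : ∀ h, h0 < h → h < h1 → f h < g h)
    (he0 : f h0 = g h0) (he1 : f h1 = g h1)
    (hD : ∀ h, h0 ≤ h → h ≤ h1 → prj (f h) h ∈ D ∧ prj (g h) h ∈ D)
    (hdis : ∀ x h, h0 < h → h < h1 → f h < x → x < g h → prj x h ∉ D)
    {x h : ℝ} (hh0 : h0 < h) (hh1 : h < h1) (hx0 : f h < x) (hx1 : x < g h) :
    frontier (connectedComponentIn Dᶜ (prj x h)) =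
      (fun y => prj (f y) y) '' Icc h0 h1 ∪ (fun y => prj (g y) y) '' Icc h0 h1 := by
  set Φ : ℝ × ℝ → Cyl := fun p => prj ((1 - p.2) * f p.1 + p.2 * g p.1) p.1 with hΦ
  have hΦc : Continuous Φ := by
    have h2 : Continuous fun p : ℝ × ℝ => (((1 - p.2) * f p.1 + p.2 * g p.1, p.1) : ℝ × ℝ) := by
      fun_prop
    exact prj_continuous.comp h2
  set S : Set (ℝ × ℝ) := Ioo h0 h1 ×ˢ Ioo (0 : ℝ) 1 with hS
  set R : Set Cyl := Φ '' S with hR
  -- the region as the image of an open set of the plane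
  set U : Set (ℝ × ℝ) := {p | h0 < p.2 ∧ p.2 < h1 ∧ f p.2 < p.1 ∧ p.1 < g p.2} with hU
  have hRU : R = (fun p : ℝ × ℝ => prj p.1 p.2) '' U := by
    ext c
    constructor
    · rintro ⟨⟨y, θ⟩, ⟨hy, hθ⟩, rfl⟩
      simp only [mem_Ioo] at hy hθ
      refine ⟨((1 - θ) * f y + θ * g y, y), ?_, rfl⟩
      have := hlt y hy.1 hy.2
      refine ⟨hy.1, hy.2, ?_, ?_⟩
      · show f y < (1 - θ) * f y + θ * g y
        nlinarith
      · show (1 - θ) * f y + θ * g y < g y
        nlinarith
    · rintro ⟨⟨z, y⟩, ⟨hy0, hy1, hz0, hz1⟩, rfl⟩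
      simp only at hy0 hy1 hz0 hz1
      have hl := hlt y hy0 hy1
      have hpos : 0 < g y - f y := by linarith
      refine ⟨(y, (z - f y) / (g y - f y)), ⟨⟨hy0, hy1⟩, ?_, ?_⟩, ?_⟩
      · exact div_pos (by linarith) hpos
      · show (z - f y) / (g y - f y) < 1
        rw [div_lt_one hpos]
        linarith
      · simp only [hΦ]
        congr 1
        have hne : g y - f y ≠ 0 := ne_of_gt hpos
        have : (z - f y) / (g y - f y) * (g y - f y) = z - f y := div_mul_cancel₀ _ hne
        linear_combination this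
  have hUo : IsOpen U := by
    have e : U = {p : ℝ × ℝ | h0 < p.2} ∩ ({p : ℝ × ℝ | p.2 < h1} ∩
        ({p : ℝ × ℝ | f p.2 < p.1} ∩ {p : ℝ × ℝ | p.1 < g p.2})) := by
      ext p; simp [hU]
    rw [e]
    refine IsOpen.inter (isOpen_lt continuous_const continuous_snd)
      (IsOpen.inter (isOpen_lt continuous_snd continuous_const)
      (IsOpen.inter (isOpen_lt (hf.comp continuous_snd) continuous_fst)
        (isOpen_lt continuous_fst (hg.comp continuous_snd))))
  have hRo : IsOpen R := by
    rw [hRU]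
    exact prj_open _ hUo
  have hRc : IsPreconnected R :=
    (isPreconnected_Ioo.prod isPreconnected_Ioo).image _ hΦc.continuousOn
  have hRd : Disjoint R D := by
    rw [Set.disjoint_left, hRU]
    rintro c ⟨⟨z, y⟩, ⟨hy0, hy1, hz0, hz1⟩, rfl⟩
    exact hdis z y hy0 hy1 hz0 hz1
  have hcl : closure R = Φ '' (Icc h0 h1 ×ˢ Icc (0 : ℝ) 1) := by
    apply Subset.antisymm
    · apply closure_minimal
      · exact image_mono (prod_mono Ioo_subset_Icc_self Ioo_subset_Icc_self)
      · exact ((isCompact_Icc.prod isCompact_Icc).image hΦc).isClosed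
    · have e : Icc h0 h1 ×ˢ Icc (0 : ℝ) 1 = closure S := by
        rw [hS, closure_prod_eq, closure_Ioo (ne_of_lt h01), closure_Ioo (by norm_num)]
      rw [e]
      exact image_closure_subset_closure_image hΦc
  set Γ : Set Cyl := (fun y => prj (f y) y) '' Icc h0 h1 ∪ (fun y => prj (g y) y) '' Icc h0 h1
    with hΓ
  have hΓD : Γ ⊆ D := by
    rintro c (⟨y, hy, rfl⟩ | ⟨y, hy, rfl⟩)
    · exact (hD y hy.1 hy.2).1
    · exact (hD y hy.1 hy.2).2
  have hfr : frontier R = Γ := by
    rw [hRo.frontier_eq, hcl]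
    apply Subset.antisymm
    · rintro c ⟨⟨⟨y, θ⟩, ⟨hy, hθ⟩, rfl⟩, hc⟩
      simp only [mem_Icc] at hy hθ
      simp only [hΦ]
      by_cases h0y : y = h0
      · subst h0y
        left
        refine ⟨y, hy, ?_⟩
        simp only
        congr 1
        rw [← he0]
        ring
      by_cases h1y : y = h1
      · subst h1y
        left
        refine ⟨y, hy, ?_⟩
        simp only
        congr 1
        rw [← he1]
        ring
      by_cases hθ0 : θ = 0
      · subst hθ0
        left
        exact ⟨y, hy, by simp⟩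
      by_cases hθ1 : θ = 1
      · subst hθ1
        right
        exact ⟨y, hy, by simp⟩
      · exfalso
        apply hc
        refine ⟨(y, θ), ⟨⟨?_, ?_⟩, ?_, ?_⟩, rfl⟩
        · exact lt_of_le_of_ne hy.1 (Ne.symm h0y)
        · exact lt_of_le_of_ne hy.2 h1y
        · exact lt_of_le_of_ne hθ.1 (Ne.symm hθ0)
        · exact lt_of_le_of_ne hθ.2 hθ1
    · intro c hc
      refine ⟨?_, fun hcR => Set.disjoint_left.1 hRd hcR (hΓD hc)⟩
      rcases hc with ⟨y, hy, rfl⟩ | ⟨y, hy, rfl⟩
      · exact ⟨(y, 0), ⟨hy, by simp⟩, by simp [hΦ]⟩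
      · exact ⟨(y, 1), ⟨hy, by simp⟩, by simp [hΦ]⟩
  have hp : prj x h ∈ R := by
    rw [hRU]
    exact ⟨(x, h), ⟨hh0, hh1, hx0, hx1⟩, rfl⟩
  rw [component_eq hRo hRc hRd (by rw [hfr]; exact hΓD) hp, hfr]

end Pool.Agent.RS
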