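import Pool.Agent.RS.Times
import Pool.Agent.RS.Region

/-!
# RS module Curves: the curve of a chain

The curve of the chain at time `j` is piecewise linear through the points `(P j r, r)`,
`0 ≤ r ≤ n`, and constant below `0` and above `n`.
-/

set_option autoImplicit false

namespace Pool.Agent.RS

section

variable {V : Type} {rk : V → ℕ} {Cov : V → V → Prop} {n N : ℕ}

/-- the curve at time `j`, at the height `h` -/
noncomputable def FlagWalk.c (F : FlagWalk rk Cov n N) (j : ℤ) (h : ℝ) : ℝ :=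
  if h ≤ 0 then F.P j 0
  else if (n : ℝ) ≤ h then F.P j n
  else (1 - (h - ⌊h⌋₊)) * F.P j ⌊h⌋₊ + (h - ⌊h⌋₊) * F.P j (⌊h⌋₊ + 1)

variable (F : FlagWalk rk Cov n N)

/-- on `[r, r + 1]` the curve is linear -/
theorem FlagWalk.c_lin {j : ℤ} {r : ℕ} (hr : r < n) {h : ℝ} (h0 : (r : ℝ) ≤ h)
    (h1 : h ≤ r + 1) : F.c j h = F.P j r + (h - r) * (F.P j (r + 1) - F.P j r) := by
  have hr0 : (0 : ℝ) ≤ r := Nat.cast_nonneg r
  have hrn : (r : ℝ) + 1 ≤ n := by exact_mod_cast hr
  unfold FlagWalk.c
  split_ifs with ha hb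
  · have hh : h = 0 := le_antisymm ha (hr0.trans h0)
    have hrz : (r : ℝ) = 0 := le_antisymm (by linarith) hr0
    have hrz' : r = 0 := by exact_mod_cast hrz
    subst hrz'
    rw [hh]
    simp
  · have hrn' : (n : ℝ) = r + 1 := le_antisymm (hb.trans h1) hrn
    have hnr : n = r + 1 := by exact_mod_cast hrn'
    have hh : h = r + 1 := le_antisymm h1 (by linarith)
    rw [hh, ← hnr]
    ring
  · rcases eq_or_lt_of_le h1 with he | hl
    · have hf : ⌊h⌋₊ = r + 1 := by
        rw [he]
        exact_mod_cast Nat.floor_natCast (R := ℝ) (r + 1)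
      rw [hf, he]
      push_cast
      ring
    · have hf : ⌊h⌋₊ = r := by
        rw [Nat.floor_eq_iff (hr0.trans h0)]
        exact ⟨h0, hl⟩
      rw [hf]
      ring

namespace CurvesAux

/-- the curve as a sum of clamped linear functions -/
theorem c_eq_sum (j : ℤ) (h : ℝ) :
    F.c j h = F.P j 0 + ∑ r ∈ Finset.range n, max 0 (min 1 (h - r)) * (F.P j (r + 1) - F.P j r) := by
  rcases le_or_gt h 0 with h0 | h0
  · have : ∑ r ∈ Finset.range n, max 0 (min 1 (h - r)) * (F.P j (r + 1) - F.P j r) = 0 := by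
      apply Finset.sum_eq_zero
      intro r _
      have hr0 : (0 : ℝ) ≤ r := Nat.cast_nonneg r
      have : max 0 (min 1 (h - r)) = 0 := by
        apply max_eq_left
        exact (min_le_right _ _).trans (by linarith)
      rw [this, zero_mul]
    rw [this]
    unfold FlagWalk.c
    rw [if_pos h0, add_zero]
  · rcases le_or_gt (n : ℝ) h with h1 | h1
    · have : ∑ r ∈ Finset.range n, max 0 (min 1 (h - r)) * (F.P j (r + 1) - F.P j r)
          = ∑ r ∈ Finset.range n, (F.P j (r + 1) - F.P j r) := by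
        apply Finset.sum_congr rfl
        intro r hr
        have hrn : (r : ℝ) + 1 ≤ n := by exact_mod_cast Finset.mem_range.1 hr
        have : max 0 (min 1 (h - r)) = 1 := by
          rw [min_eq_left (by linarith)]
          exact max_eq_right zero_le_one
        rw [this, one_mul]
      rw [this, Finset.sum_range_sub (fun r => F.P j r)]
      unfold FlagWalk.c
      rw [if_neg (not_le.2 h0), if_pos h1]
      ring
    · set r := ⌊h⌋₊ with hrd
      have hfl : (r : ℝ) ≤ h := Nat.floor_le h0.le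
      have hfu : h < r + 1 := Nat.lt_floor_add_one h
      have hrn : r < n := by
        have : (r : ℝ) < n := lt_of_le_of_lt hfl h1
        exact_mod_cast this
      rw [F.c_lin hrn hfl hfu.le]
      have hsplit : ∑ i ∈ Finset.range n, max 0 (min 1 (h - i)) * (F.P j (i + 1) - F.P j i)
          = ∑ i ∈ Finset.range (r + 1), max 0 (min 1 (h - i)) * (F.P j (i + 1) - F.P j i) := by
        symm
        apply Finset.sum_subset
        · intro i hi
          rw [Finset.mem_range] at hi ⊢
          omega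
        · intro i _ hi2
          rw [Finset.mem_range, not_lt] at hi2
          have : (r : ℝ) + 1 ≤ i := by exact_mod_cast hi2
          have : max 0 (min 1 (h - i)) = 0 := by
            apply max_eq_left
            exact (min_le_right _ _).trans (by linarith)
          rw [this, zero_mul]
      rw [hsplit, Finset.sum_range_succ]
      have h2 : ∑ i ∈ Finset.range r, max 0 (min 1 (h - i)) * (F.P j (i + 1) - F.P j i)
          = ∑ i ∈ Finset.range r, (F.P j (i + 1) - F.P j i) := by
        apply Finset.sum_congr rfl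
        intro i hi
        have hi' : (i : ℝ) + 1 ≤ r := by exact_mod_cast Finset.mem_range.1 hi
        have : max 0 (min 1 (h - i)) = 1 := by
          rw [min_eq_left (by linarith)]
          exact max_eq_right zero_le_one
        rw [this, one_mul]
      have h3 : max 0 (min 1 (h - r)) = h - r := by
        rw [min_eq_right (by linarith)]
        exact max_eq_right (by linarith)
      rw [h2, h3, Finset.sum_range_sub (fun r => F.P j r)]
      ring

/-- monotonicity with a strict version -/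
theorem comb_le {a b a' b' t : ℝ} (h0 : 0 ≤ t) (h1 : t ≤ 1) (ha : a ≤ a') (hb : b ≤ b') :
    (1 - t) * a + t * b ≤ (1 - t) * a' + t * b' := by
  have h2 := mul_le_mul_of_nonneg_left ha (sub_nonneg.2 h1)
  have h3 := mul_le_mul_of_nonneg_left hb h0
  linarith

theorem P_same (hN : 0 < N) (hn : 2 ≤ n) {j : ℤ} (hb : F.P j 0 = F.P (j - 1) 0)
    (ht : F.P j n = F.P (j - 1) n) {r : ℕ} (hr : r ≤ n) (h : r ≠ F.ρ j) :
    F.P j r = F.P (j - 1) r := by
  by_cases h0 : r = 0
  · rw [h0]; exact hb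
  · by_cases h1 : r = n
    · rw [h1]; exact ht
    · exact F.P_succ hN h (fun h' => absurd h' h0) (fun h' => absurd h' h1) hr hn

end CurvesAux

theorem FlagWalk.c_cont (j : ℤ) : Continuous (F.c j) := by
  have : F.c j = fun h : ℝ => F.P j 0 +
      ∑ r ∈ Finset.range n, max 0 (min 1 (h - (r : ℝ))) * (F.P j (r + 1) - F.P j r) := by
    funext h
    exact CurvesAux.c_eq_sum F j h
  rw [this]
  fun_prop

theorem FlagWalk.c_mono (hN : 0 < N) (hn : 2 ≤ n) (h : ℝ) : Monotone (fun j => F.c j h) := by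
  intro i j hij
  have hP : ∀ r, F.P i r ≤ F.P j r := fun r => F.P_mono hN hn r hij
  show F.c i h ≤ F.c j h
  unfold FlagWalk.c
  split_ifs with ha hb
  · exact hP 0
  · exact hP n
  · have h0 : (⌊h⌋₊ : ℝ) ≤ h := Nat.floor_le (not_le.1 ha).le
    have h1 : h < ⌊h⌋₊ + 1 := Nat.lt_floor_add_one h
    exact CurvesAux.comb_le (by linarith) (by linarith) (hP _) (hP _)

theorem FlagWalk.c_add_mul (hN : 0 < N) (hn : 2 ≤ n) (j m : ℤ) (h : ℝ) :
    F.c (j + m * N) h = F.c j h + m := by
  unfold FlagWalk.c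
  split_ifs with ha hb
  · exact F.P_add_mul hN hn j m 0
  · exact F.P_add_mul hN hn j m n
  · rw [F.P_add_mul hN hn, F.P_add_mul hN hn]
    ring

/-- every point lies between two consecutive curves -/
theorem FlagWalk.exists_between (hN : 0 < N) (hn : 2 ≤ n) (x h : ℝ) :
    ∃ j, F.c (j - 1) h ≤ x ∧ x < F.c j h := by
  have hmono := F.c_mono hN hn h
  have hshift : ∀ m : ℤ, F.c (m * N) h = F.c 0 h + m := by
    intro m
    have := F.c_add_mul hN hn 0 m h
    rwa [zero_add] at this
  have hex : ∃ j : ℤ, x < F.c j h := by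
    obtain ⟨m, hm⟩ := exists_int_gt (x - F.c 0 h)
    exact ⟨m * N, by rw [hshift]; linarith⟩
  have hbd : ∃ b : ℤ, ∀ z : ℤ, x < F.c z h → b ≤ z := by
    obtain ⟨m, hm⟩ := exists_int_lt (x - F.c 0 h)
    refine ⟨m * N, fun z hz => ?_⟩
    by_contra hlt
    have h1 : F.c z h ≤ F.c (m * N) h := hmono (not_le.1 hlt).le
    rw [hshift] at h1
    linarith
  obtain ⟨j, hj, hj2⟩ := Int.exists_least_of_bdd hbd hex
  refine ⟨j, ?_, hj⟩
  by_contra hlt
  have := hj2 (j - 1) (not_le.1 hlt)
  omega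

/-- between the curves of `j - 1` and `j` (strictly) there is no point of any curve -/
theorem FlagWalk.not_on (hN : 0 < N) (hn : 2 ≤ n) {j : ℤ} {x h : ℝ} (h0 : F.c (j - 1) h < x)
    (h1 : x < F.c j h) (i : ℤ) : prj x h ≠ prj (F.c i h) h := by
  intro he
  obtain ⟨_, m, hm⟩ := prj_eq.1 he
  have hmono := F.c_mono hN hn h
  have h2 : F.c (i + (-m) * N) h = x := by
    rw [F.c_add_mul hN hn i (-m) h, hm]
    push_cast
    ring
  have h3 : i + (-m) * N < j := by
    by_contra hlt
    have : F.c j h ≤ F.c (i + (-m) * N) h := hmono (not_lt.1 hlt)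
    linarith
  have h4 : F.c (i + (-m) * N) h ≤ F.c (j - 1) h := hmono (by omega)
  linarith

/-- consecutive curves coincide outside `(ρ j - 1, ρ j + 1)` if they have the same end points -/
theorem FlagWalk.c_eq (hN : 0 < N) (hn : 2 ≤ n) {j : ℤ} (hb : F.P j 0 = F.P (j - 1) 0)
    (ht : F.P j n = F.P (j - 1) n) {h : ℝ} (hh : h ≤ F.ρ j - 1 ∨ (F.ρ j : ℝ) + 1 ≤ h) :
    F.c j h = F.c (j - 1) h := by
  unfold FlagWalk.c
  split_ifs with ha hb'
  · exact hb
  · exact ht
  · have h0 : (⌊h⌋₊ : ℝ) ≤ h := Nat.floor_le (not_le.1 ha).le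
    have h1 : h < ⌊h⌋₊ + 1 := Nat.lt_floor_add_one h
    have hfn : ⌊h⌋₊ < n := by
      have : (⌊h⌋₊ : ℝ) < n := lt_of_le_of_lt h0 (not_le.1 hb')
      exact_mod_cast this
    rcases hh with hh | hh
    · have h2 : ⌊h⌋₊ + 1 ≤ F.ρ j := by
        have : (⌊h⌋₊ : ℝ) + 1 ≤ F.ρ j := by linarith
        exact_mod_cast this
      rw [CurvesAux.P_same F hN hn hb ht hfn.le (by omega)]
      rcases eq_or_lt_of_le h2 with h3 | h3
      · have h4 : (⌊h⌋₊ : ℝ) + 1 = F.ρ j := by exact_mod_cast h3
        have h5 : h - ⌊h⌋₊ = 0 := by linarith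
        rw [h5]
        ring
      · rw [CurvesAux.P_same F hN hn hb ht hfn (by omega)]
    · have h2 : F.ρ j + 1 ≤ ⌊h⌋₊ := by
        apply Nat.le_floor
        push_cast
        exact hh
      rw [CurvesAux.P_same F hN hn hb ht hfn.le (by omega),
        CurvesAux.P_same F hN hn hb ht hfn (by omega)]

/-- inside they are different -/
theorem FlagWalk.c_lt (hN : 0 < N) (hn : 2 ≤ n) {j : ℤ} {h : ℝ} (h0 : (F.ρ j : ℝ) - 1 < h)
    (h1 : h < F.ρ j + 1) : F.c (j - 1) h < F.c j h := by
  obtain ⟨hp0, hp1⟩ := F.ρpos j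
  have hP : ∀ r, F.P (j - 1) r ≤ F.P j r := fun r => F.P_mono hN hn r (by omega)
  have hPl := F.P_lt hN j
  rcases le_or_gt (F.ρ j : ℝ) h with h2 | h2
  · rw [F.c_lin hp1 h2 h1.le, F.c_lin hp1 h2 h1.le]
    have h3 := hP (F.ρ j + 1)
    have h4 : (h - F.ρ j) * F.P (j - 1) (F.ρ j + 1) ≤ (h - F.ρ j) * F.P j (F.ρ j + 1) :=
      mul_le_mul_of_nonneg_left h3 (by linarith)
    have h5 : (1 - (h - F.ρ j)) * F.P (j - 1) (F.ρ j) < (1 - (h - F.ρ j)) * F.P j (F.ρ j) :=
      mul_lt_mul_of_pos_left hPl (by linarith)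
    linarith
  · obtain ⟨r, hr⟩ : ∃ r, F.ρ j = r + 1 := ⟨F.ρ j - 1, by omega⟩
    have hrc : (F.ρ j : ℝ) = r + 1 := by rw [hr]; push_cast; ring
    rw [hr] at hPl
    rw [F.c_lin (r := r) (by omega) (by linarith) (by linarith),
      F.c_lin (r := r) (by omega) (by linarith) (by linarith)]
    have h3 := hP r
    have h4 : (1 - (h - r)) * F.P (j - 1) r ≤ (1 - (h - r)) * F.P j r :=
      mul_le_mul_of_nonneg_left h3 (by linarith)
    have h5 : (h - r) * F.P (j - 1) (r + 1) < (h - r) * F.P j (r + 1) :=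
      mul_lt_mul_of_pos_left hPl (by linarith)
    linarith

end

end Pool.Agent.RS
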