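import Pool.Agent.RS.Times

/-!
# RS module TimesD: displacements are determined by the two elements
-/

set_option autoImplicit false

namespace Pool.Agent.RS

section

variable {V : Type} {rk : V → ℕ} {Cov : V → V → Prop} {n N : ℕ}

variable (F : FlagWalk rk Cov n N)

namespace TimesDAux

theorem ch_mul (j m : ℤ) (r : ℕ) : F.ch (j + m * N) r = F.ch j r := by
  have hp : Function.Periodic (fun j => F.ch j r) (N : ℤ) := fun j => F.per j r
  have h := hp.int_mul m j
  simpa using h

theorem present (hN : 0 < N) {r : ℕ} (h0 : 0 < r) (h1 : r < n) {i k : ℤ} (hk : F.T i r ≤ k)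
    (hk' : k ≤ i) : F.ch k r = F.ch i r := by
  obtain ⟨a1, a2, a3⟩ := F.T_spec hN h0 h1 i
  obtain ⟨b1, b2, b3⟩ := F.T_spec hN h0 h1 k
  have e : F.T k r = F.T i r := le_antisymm (a3 _ (b1.trans hk') b2) (b3 _ hk a2)
  exact (F.T_ch_eq hN h0 h1).2 ⟨0, by rw [e]; ring⟩

theorem not_lt (hN : 0 < N) {r : ℕ} (h0 : 0 < r) (h1 : r + 1 < n) {i j a b : ℤ}
    (h' : F.ch i (r + 1) = F.ch j (r + 1))
    (ha : F.T i r = F.T j r + a * N) (hb : F.T i (r + 1) = F.T j (r + 1) + b * N) : ¬ a < b := by
  intro hab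
  have hru := F.rank i r (by omega)
  have hrv := F.rank i (r + 1) (by omega)
  obtain ⟨j0, g1, g2⟩ := F.apart (F.ch i r) (F.ch i (r + 1)) (F.cov i r (by omega))
    (by omega) (by omega)
  rw [hru] at g1
  rw [hrv] at g2
  have hN' : (0 : ℤ) < N := by exact_mod_cast hN
  set base : ℤ := F.T j (r + 1) + a * N with hbase
  set q : ℤ := (j0 - base) / N with hq
  have e1 := Int.mul_ediv_add_emod (j0 - base) N
  have e2 := Int.emod_nonneg (j0 - base) hN'.ne'
  have e3 := Int.emod_lt_of_pos (j0 - base) hN'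
  set ρ : ℤ := (j0 - base) % N with hρ
  have hk : base + ρ = j0 + (-q) * N := by
    rw [← hq] at e1
    linear_combination e1
  have hs := (F.T_spec hN h0 (by omega) j).1
  have ht := (F.T_spec hN (Nat.succ_pos r) h1 i).1
  have hle : F.T j (r + 1) + a * N + N ≤ F.T i (r + 1) := by
    rw [hb]
    nlinarith
  rcases le_or_gt (base + ρ - a * N) j with hc | hc
  · apply g2
    have h3 : F.ch (base + ρ - a * N) (r + 1) = F.ch j (r + 1) :=
      present F hN (Nat.succ_pos r) h1 (by rw [hbase]; linarith) hc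
    have h4 : F.ch (base + ρ) (r + 1) = F.ch (base + ρ - a * N) (r + 1) := by
      have := ch_mul F (base + ρ - a * N) a (r + 1)
      rwa [sub_add_cancel] at this
    rw [h', ← h3, ← h4, hk, ch_mul]
  · apply g1
    have h3 : F.ch (base + ρ) r = F.ch i r :=
      present F hN h0 (by omega) (by rw [ha]; linarith) (by rw [hbase]; linarith)
    rw [← h3, hk, ch_mul]

theorem P_mid {r : ℕ} (h0 : 0 < r) (h1 : r < n) (j : ℤ) : F.P j r = (F.T j r : ℝ) / N := by
  unfold FlagWalk.P
  rw [if_neg (by omega), if_neg (by omega)]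

end TimesDAux

open TimesDAux

/-- differences of positions of neighbours are determined by the two elements: for `0 < r`,
`r + 1 < n` by `apart`: let `u = ch i r = ch j r`, `v = ch i (r+1) = ch j (r+1)`; after a shift by a
multiple of `N` we have `T i r = T j r`, and `T j (r+1) = T i (r+1) + m N`; if `0 < m` then `v` is in
the chain at all times from `T i (r+1)` to `i`, and `u` at all times from `i` to `j ≥ T i (r+1) + N`,
a contradiction to `apart`; `m < 0` symmetric. -/
theorem FlagWalk.P_diff (hN : 0 < N) (hn : 2 ≤ n) {r : ℕ} (h1 : r < n) {i j : ℤ}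
    (h : F.ch i r = F.ch j r) (h' : F.ch i (r + 1) = F.ch j (r + 1)) :
    F.P i (r + 1) - F.P i r = F.P j (r + 1) - F.P j r := by
  have hN' : (0 : ℝ) < N := by exact_mod_cast hN
  rcases Nat.eq_zero_or_pos r with h0 | h0
  · subst h0
    obtain ⟨m, hm⟩ := (F.T_ch_eq hN (by omega : 0 < 0 + 1) (by omega)).1 h'
    have hm' : (F.T i (0 + 1) : ℝ) / N = (F.T j (0 + 1) : ℝ) / N + m := by
      rw [hm]
      push_cast
      field_simp
    have q : ∀ k : ℤ, F.P k 0 = (⌊(F.T k (0 + 1) : ℝ) / N⌋ : ℝ) := fun k => by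
      unfold FlagWalk.P
      rw [if_pos rfl]
    rw [P_mid F (r := 0 + 1) (by omega) (by omega) i, P_mid F (r := 0 + 1) (by omega) (by omega) j,
      q, q, hm', Int.floor_add_intCast]
    push_cast
    ring
  · rcases Nat.lt_or_ge (r + 1) n with h2 | h2
    · obtain ⟨a, ha⟩ := (F.T_ch_eq hN h0 h1).1 h
      obtain ⟨b, hb⟩ := (F.T_ch_eq hN (Nat.succ_pos r) h2).1 h'
      have n1 := not_lt F hN h0 h2 h' ha hb
      have n2 := not_lt F hN h0 h2 (a := -a) (b := -b) h'.symm
        (by rw [ha]; ring) (by rw [hb]; ring)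
      have hab : a = b := by omega
      subst hab
      rw [P_mid F h0 h1, P_mid F h0 h1, P_mid F (Nat.succ_pos r) h2, P_mid F (Nat.succ_pos r) h2,
        ha, hb]
      push_cast
      ring
    · have hrn : r + 1 = n := by omega
      obtain ⟨m, hm⟩ := (F.T_ch_eq hN h0 h1).1 h
      have hm' : (F.T i r : ℝ) / N = (F.T j r : ℝ) / N + m := by
        rw [hm]
        push_cast
        field_simp
      rw [P_mid F h0 h1, P_mid F h0 h1]
      unfold FlagWalk.P
      rw [if_neg (by omega), if_pos h2, if_neg (by omega), if_pos h2]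
      have e1 : n - 1 = r := by omega
      rw [e1, hm', Int.floor_add_intCast]
      push_cast
      ring

end

end Pool.Agent.RS
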