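import Pool.Agent.RS.Curves
import Pool.Agent.RS.TimesD

/-!
# RS module CurvesB: the embedding
-/

set_option autoImplicit false

namespace Pool.Agent.RS

section

variable {V : Type} {rk : V → ℕ} {Cov : V → V → Prop} {n N : ℕ}

/-- the edges: neighbours in some chain of the walk -/
def FlagWalk.H (F : FlagWalk rk Cov n N) (u v : V) : Prop :=
  ∃ j : ℤ, rk v = rk u + 1 ∧ rk u < n ∧ F.ch j (rk u) = u ∧ F.ch j (rk v) = v

open Classical in
/-- position of a vertex on the circle -/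
noncomputable def FlagWalk.x (F : FlagWalk rk Cov n N) (v : V) : AddCircle (1 : ℝ) :=
  if h : ∃ j : ℤ, F.ch j (rk v) = v then ((F.P h.choose (rk v) : ℝ) : AddCircle (1 : ℝ)) else 0

open Classical in
/-- displacement of an edge -/
noncomputable def FlagWalk.δ (F : FlagWalk rk Cov n N) (u v : V) : ℝ :=
  if h : F.H u v then F.P h.choose (rk v) - F.P h.choose (rk u) else 0

variable (F : FlagWalk rk Cov n N)

namespace CurvesBAux

theorem coe_int (m : ℤ) : (((m : ℝ)) : AddCircle (1 : ℝ)) = 0 := by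
  rw [AddCircle.coe_eq_zero_iff]
  exact ⟨m, by simp⟩

theorem coe_add_int' (a : ℝ) (m : ℤ) : ((a + m : ℝ) : AddCircle (1 : ℝ)) = (a : AddCircle (1 : ℝ)) := by
  rw [AddCircle.coe_add, coe_int, add_zero]

/-- the position of an element is determined up to an integer -/
theorem P_of_ch (hN : 0 < N) (hn : 2 ≤ n) {i j : ℤ} {r : ℕ} (hr : r ≤ n) (h : F.ch i r = F.ch j r) :
    ∃ m : ℤ, F.P i r = F.P j r + m := by
  by_cases h0 : r = 0 ∨ r = n
  · obtain ⟨m1, hm1⟩ := (F.P_int hN hn i h0).1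
    obtain ⟨m2, hm2⟩ := (F.P_int hN hn j h0).1
    refine ⟨m1 - m2, ?_⟩
    rw [hm1, hm2]
    push_cast
    ring
  · have h1 : 0 < r := by omega
    have h2 : r < n := by omega
    obtain ⟨m, hm⟩ := (F.T_ch_eq hN h1 h2).1 h
    refine ⟨m, ?_⟩
    have hN' : (N : ℝ) ≠ 0 := by positivity
    unfold FlagWalk.P
    rw [if_neg (by omega), if_neg (by omega), if_neg (by omega), if_neg (by omega), hm]
    push_cast
    field_simp

end CurvesBAux

open CurvesBAux

/-- the position of `ch j r` -/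
theorem FlagWalk.x_ch (hN : 0 < N) (hn : 2 ≤ n) (j : ℤ) {r : ℕ} (hr : r ≤ n) :
    F.x (F.ch j r) = ((F.P j r : ℝ) : AddCircle (1 : ℝ)) := by
  have hrk : rk (F.ch j r) = r := F.rank j r hr
  have hex : ∃ i : ℤ, F.ch i (rk (F.ch j r)) = F.ch j r := ⟨j, by rw [hrk]⟩
  unfold FlagWalk.x
  rw [dif_pos hex]
  have hs := hex.choose_spec
  obtain ⟨i, hi⟩ : ∃ i, i = hex.choose := ⟨_, rfl⟩
  rw [← hi] at hs ⊢
  rw [hrk] at hs ⊢
  obtain ⟨m, hm⟩ := P_of_ch F hN hn hr hs
  rw [hm, coe_add_int']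

theorem FlagWalk.δ_ch (hN : 0 < N) (hn : 2 ≤ n) (j : ℤ) {r : ℕ} (hr : r < n) :
    F.δ (F.ch j r) (F.ch j (r + 1)) = F.P j (r + 1) - F.P j r := by
  have hrk : rk (F.ch j r) = r := F.rank j r hr.le
  have hrk' : rk (F.ch j (r + 1)) = r + 1 := F.rank j (r + 1) hr
  have hex : F.H (F.ch j r) (F.ch j (r + 1)) := ⟨j, by rw [hrk, hrk'], by rw [hrk]; exact hr,
    by rw [hrk], by rw [hrk']⟩
  unfold FlagWalk.δ
  rw [dif_pos hex]
  have hs := Exists.choose_spec hex
  obtain ⟨i, hi⟩ : ∃ i, i = Exists.choose hex := ⟨_, rfl⟩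
  rw [← hi] at hs ⊢
  rw [hrk, hrk'] at hs ⊢
  exact F.P_diff hN hn hr hs.2.2.1 hs.2.2.2

/-- every element is in some chain -/
theorem FlagWalk.exists_ch (v : V) : ∃ j, F.ch j (rk v) = v := by
  rcases Nat.eq_zero_or_pos (rk v) with h0 | h0
  · refine ⟨0, ?_⟩
    rw [h0]
    exact (F.bot v h0).symm
  · rcases lt_or_eq_of_le (F.le v) with h1 | h1
    · obtain ⟨j, -, -, h2, h3⟩ := F.once v h0 h1
      exact ⟨j, by rw [← h2]; exact h3⟩
    · refine ⟨0, ?_⟩
      rw [h1]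
      exact (F.top v h1).symm

/-- the segment of an edge is the part of the curve over `[r, r + 1]` -/
theorem FlagWalk.seg_eq (hN : 0 < N) (hn : 2 ≤ n) (j : ℤ) {r : ℕ} (hr : r < n) :
    seg (F.x (F.ch j r)) (rk (F.ch j r)) (F.δ (F.ch j r) (F.ch j (r + 1))) =
      (fun y => prj (F.c j y) y) '' Set.Icc (r : ℝ) (r + 1) := by
  have hrk : rk (F.ch j r) = r := F.rank j r hr.le
  rw [F.x_ch hN hn j hr.le, F.δ_ch hN hn j hr, hrk]
  ext p
  constructor
  · rintro ⟨t, ⟨ht0, ht1⟩, rfl⟩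
    refine ⟨r + t, ⟨by linarith, by linarith⟩, ?_⟩
    simp only [prj]
    rw [F.c_lin hr (h := r + t) (by linarith) (by linarith), AddCircle.coe_add]
    congr 3
    ring
  · rintro ⟨y, ⟨hy0, hy1⟩, rfl⟩
    refine ⟨y - r, ⟨by linarith, by linarith⟩, ?_⟩
    simp only [prj]
    rw [F.c_lin hr hy0 hy1, AddCircle.coe_add]
    congr 1
    ring

/-- the drawing is the union of the curves -/
theorem FlagWalk.drawing_eq (hN : 0 < N) (hn : 2 ≤ n) :
    drawing rk F.H F.x F.δ = {p | ∃ (j : ℤ) (h : ℝ), 0 ≤ h ∧ h ≤ n ∧ p = prj (F.c j h) h} := by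
  ext p
  constructor
  · rintro (⟨v, rfl⟩ | ⟨u, v, ⟨j, h1, h2, h3, h4⟩, hp⟩)
    · obtain ⟨j, hj⟩ := F.exists_ch v
      have hle := F.le v
      refine ⟨j, rk v, Nat.cast_nonneg _, by exact_mod_cast hle, ?_⟩
      have hx := F.x_ch hN hn j hle
      rw [hj] at hx
      rw [hx]
      simp only [prj]
      have hc : F.c j (rk v : ℝ) = F.P j (rk v) := by
        rcases lt_or_eq_of_le hle with h | h
        · rw [F.c_lin h (h := (rk v : ℝ)) le_rfl (by linarith)]
          ring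
        · unfold FlagWalk.c
          have hpos : (0 : ℝ) < (rk v : ℝ) := by
            have : 0 < rk v := by omega
            exact_mod_cast this
          rw [if_neg (not_le.2 hpos), if_pos (by rw [h]), h]
      rw [hc]
    · have e := F.seg_eq hN hn j h2
      rw [h1] at h4
      rw [h3, h4] at e
      rw [e] at hp
      obtain ⟨y, ⟨hy0, hy1⟩, rfl⟩ := hp
      refine ⟨j, y, le_trans (Nat.cast_nonneg _) hy0, hy1.trans ?_, rfl⟩
      exact_mod_cast h2
  · rintro ⟨j, h, h0, h1, rfl⟩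
    right
    obtain ⟨r, hr, hr0, hr1⟩ : ∃ r : ℕ, r < n ∧ (r : ℝ) ≤ h ∧ h ≤ r + 1 := by
      rcases lt_or_eq_of_le h1 with h2 | h2
      · refine ⟨⌊h⌋₊, (Nat.floor_lt h0).2 h2, Nat.floor_le h0, (Nat.lt_floor_add_one h).le⟩
      · refine ⟨n - 1, by omega, ?_, ?_⟩
        · rw [h2]
          have : n - 1 ≤ n := by omega
          exact_mod_cast this
        · rw [h2]
          have : n ≤ n - 1 + 1 := by omega
          exact_mod_cast this
    have hrk : rk (F.ch j r) = r := F.rank j r hr.le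
    have hrk' : rk (F.ch j (r + 1)) = r + 1 := F.rank j (r + 1) hr
    refine ⟨F.ch j r, F.ch j (r + 1), ⟨j, by rw [hrk, hrk'], by rw [hrk]; exact hr,
      by rw [hrk], by rw [hrk']⟩, ?_⟩
    rw [F.seg_eq hN hn j hr]
    exact ⟨h, ⟨hr0, hr1⟩, rfl⟩

end

end Pool.Agent.RS
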