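import Mathlib

/-!
# Rhombic strips on the cylinder: definitions (MP_963701_co, helper95)
-/

set_option autoImplicit false

namespace Pool.Agent.RS

/-- the cylinder `ℝ² / (x, y) ∼ (x + 1, y)` -/
abbrev Cyl := AddCircle (1 : ℝ) × ℝ

/-- the straight segment on the cylinder which starts at the point `(x, h)`, goes up by `1` and
moves to the right by `δ` (to the left if `δ < 0`) -/
def seg (x : AddCircle (1 : ℝ)) (h δ : ℝ) : Set Cyl :=
  (fun t : ℝ => ((x + ((t * δ : ℝ) : AddCircle (1 : ℝ)), h + t) : Cyl)) '' Set.Icc 0 1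

section

variable {V : Type} (rk : V → ℕ)

/-- the drawing: all vertices (vertex `v` at the point `(x v, rk v)`) and all edges (the edge from
`u` up to `v` is the segment which starts in `u` and moves by `δ u v`) -/
def drawing (H : V → V → Prop) (x : V → AddCircle (1 : ℝ)) (δ : V → V → ℝ) : Set Cyl :=
  {p | (∃ v, p = (x v, (rk v : ℝ))) ∨ ∃ u v, H u v ∧ p ∈ seg (x u) (rk u) (δ u v)}

/-- A rhombic strip for the graded poset `V` with rank function `rk` and cover relation `Cov`
(`Cov u v`: `u` is covered by `v`): a spanning subgraph `H` of the cover graph, embedded in the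
cylinder with straight edges and every vertex at the height of its rank, such that every face of the
embedding (connected component of the complement of the drawing) is bounded by a 4-cycle
`(a, b, c, d)`, where `a`, `c` have the same rank `r`, `b` has rank `r - 1` and `d` has rank
`r + 1`. -/
structure RhombicStrip (Cov : V → V → Prop) where
  /-- edges of the subgraph, lower end first -/
  H : V → V → Prop
  /-- first coordinate of the position of a vertex -/
  x : V → AddCircle (1 : ℝ)
  /-- horizontal displacement of an edge -/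
  δ : V → V → ℝ
  sub : ∀ u v, H u v → Cov u v
  /-- the edge from `u` ends in `v` -/
  ends : ∀ u v, H u v → x v = x u + (δ u v : AddCircle (1 : ℝ))
  /-- different vertices are different points -/
  inj : ∀ u v, rk u = rk v → x u = x v → u = v
  /-- two edges meet only in a common end vertex -/
  cross : ∀ u v u' v', H u v → H u' v' → (u, v) ≠ (u', v') →
    ∀ p ∈ seg (x u) (rk u) (δ u v), p ∈ seg (x u') (rk u') (δ u' v') →
      ∃ c, (c = u ∨ c = v) ∧ (c = u' ∨ c = v') ∧ p = (x c, (rk c : ℝ))
  /-- every face is a rhombus -/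
  face : ∀ p, p ∉ drawing rk H x δ → ∃ a b c d, a ≠ c ∧ H b a ∧ H b c ∧ H a d ∧ H c d ∧
    rk a = rk b + 1 ∧ rk c = rk a ∧ rk d = rk a + 1 ∧
    frontier (connectedComponentIn (drawing rk H x δ)ᶜ p) =
      seg (x b) (rk b) (δ b a) ∪ seg (x b) (rk b) (δ b c) ∪
        seg (x a) (rk a) (δ a d) ∪ seg (x c) (rk c) (δ c d)

/-- combinatorial data: a closed walk on maximal chains, in every step one element of the chain of
rank `0 < ρ j < n` is replaced, and every element of such a rank is introduced exactly once in `N`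
steps -/
structure FlagWalk (Cov : V → V → Prop) (n N : ℕ) where
  ch : ℤ → ℕ → V
  ρ : ℤ → ℕ
  rank : ∀ j r, r ≤ n → rk (ch j r) = r
  cov : ∀ j r, r < n → Cov (ch j r) (ch j (r + 1))
  per : ∀ j r, ch (j + N) r = ch j r
  perρ : ∀ j, ρ (j + N) = ρ j
  ρpos : ∀ j, 0 < ρ j ∧ ρ j < n
  same : ∀ j r, r ≠ ρ j → ch j r = ch (j - 1) r
  diff : ∀ j, ch j (ρ j) ≠ ch (j - 1) (ρ j)
  once : ∀ v, 0 < rk v → rk v < n → ∃ j : ℤ, 0 ≤ j ∧ j < N ∧ ρ j = rk v ∧ ch j (ρ j) = v
  uniq : ∀ i j : ℤ, 0 ≤ i → i < N → 0 ≤ j → j < N → ρ i = ρ j → ch i (ρ i) = ch j (ρ j) → i = j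
  le : ∀ v, rk v ≤ n
  bot : ∀ v, rk v = 0 → v = ch 0 0
  top : ∀ v, rk v = n → v = ch 0 n
  /-- two neighbouring elements: at some time none of them is in the chain -/
  apart : ∀ u v, Cov u v → 0 < rk u → rk v < n →
    ∃ j, ch j (rk u) ≠ u ∧ ch j (rk v) ≠ v

end

end Pool.Agent.RS
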