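import Pool.Agent.RS.Leaf
import Pool.Agent.RS.Inv

/-!
# RS module D0: configurations without movable bars, prescribed end
-/

set_option autoImplicit false

namespace Pool.Agent.RS

open Finset

/-- the case of five bars (proved by certificates in another module) -/
def D05 : Prop := ∀ (w s t : List ℕ) (m : ℕ), Good ∅ ⟨w, s⟩ → s.length = 5 → t.Perm s →
  s.head? = some m → t.getLast? = some m → (inv s + inv t) % 2 = 0 → Strip ∅ ⟨w, s⟩ ⟨w, t⟩

namespace D0Aux

theorem good_perm {w s t : List ℕ} (g : Good ∅ ⟨w, s⟩) (h : t.Perm s) : Good ∅ ⟨w, t⟩ where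
  wn := g.wn
  sn := (h.nodup_iff).2 g.sn
  sub := by
    intro b hb
    simp at hb
  pos := fun b hb => g.pos b (h.mem_iff.1 hb)
  lt := fun b hb => g.lt b (h.mem_iff.1 hb)

theorem good_tail {w s : List ℕ} {m : ℕ} (g : Good ∅ ⟨w, m :: s⟩) : Good ∅ ⟨w, s⟩ where
  wn := g.wn
  sn := (List.nodup_cons.1 g.sn).2
  sub := by
    intro b hb
    simp at hb
  pos := fun b hb => g.pos b (List.mem_cons_of_mem _ hb)
  lt := fun b hb => g.lt b (List.mem_cons_of_mem _ hb)

theorem eq_append_of_getLast? {t : List ℕ} {m : ℕ} (h : t.getLast? = some m) :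
    ∃ γ, t = γ ++ [m] := by
  rw [List.getLast?_eq_some_iff] at h
  exact h

theorem get_pen {γ : List ℕ} {m : ℕ} (hne : γ ≠ []) :
    (γ ++ [m])[(γ ++ [m]).length - 2]? = γ.getLast? := by
  rcases List.eq_nil_or_concat γ with h | ⟨δ, q, h⟩
  · exact absurd h hne
  · subst h
    simp

theorem last_ne {u l : List ℕ} (hne : l ≠ []) : (u ++ l).getLast? = l.getLast? := by
  rcases List.eq_nil_or_concat l with h' | ⟨δ, r, h'⟩
  · exact absurd h' hne
  · rw [h', List.concat_eq_append, ← List.append_assoc]
    simp

theorem split_low {low σ : List ℕ} (hl : low.Nodup) (hσ : σ.Nodup) (h : ∀ b ∈ low, b ∈ σ) :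
    ∃ fr, σ.Perm (low ++ fr) := by
  refine ⟨σ.filter (fun b => b ∉ low), ?_⟩
  apply (List.perm_ext_iff_of_nodup hσ ?_).2
  · intro b
    simp only [List.mem_append, List.mem_filter, decide_eq_true_eq]
    constructor
    · intro hb
      by_cases hb' : b ∈ low
      · exact Or.inl hb'
      · exact Or.inr ⟨hb, hb'⟩
    · rintro (hb | ⟨hb, -⟩)
      · exact h b hb
      · exact hb
  · rw [List.nodup_append]
    refine ⟨hl, hσ.filter _, ?_⟩
    intro b hb c hc e
    rw [List.mem_filter, decide_eq_true_eq] at hc
    exact hc.2 (e ▸ hb)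

end D0Aux

open D0Aux

/-- `d ≥ 5` bars: from `s` to `t` if the bottom of `s` is the top of `t`, the second lowest bar of
`s` is not the second highest bar of `t` (for `d ≥ 6`), and the parity is right. Induction: `s = m :: α`,
`t = γ ++ [m]`, `β = q :: x … y :: [p]` with `q` = last bar of `γ`, `p` = first bar of `α`,
`q ≠ p`, `x ≠` second highest bar of `γ`, `y ≠` second lowest bar of `α`, right parity
(`exists_mid` with `d - 3 ≥ 3` free bars), then `leaf_step`. -/
theorem D0 (h5 : D05) {w s t : List ℕ} {m : ℕ} (g : Good ∅ ⟨w, s⟩) (hd : 5 ≤ s.length)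
    (ht : t.Perm s) (h1 : s.head? = some m) (h2 : t.getLast? = some m)
    (h3 : 6 ≤ s.length → s[1]? ≠ t[t.length - 2]?)
    (hp : (inv s + inv t + s.length + 1) % 2 = 0) : Strip ∅ ⟨w, s⟩ ⟨w, t⟩ := by
  obtain ⟨n, hn⟩ : ∃ n, s.length = n + 5 := ⟨s.length - 5, by omega⟩
  clear hd
  induction n generalizing s t m with
  | zero =>
    exact h5 w s t m g (by omega) ht h1 h2 (by omega)
  | succ n ih =>
    have h3' := h3 (by omega)
    -- `s = m :: p :: α'`
    obtain ⟨α, rfl⟩ : ∃ α, s = m :: α := by
      cases s with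
      | nil => simp at h1
      | cons a α => exact ⟨α, by simpa using h1⟩
    obtain ⟨γ, rfl⟩ := eq_append_of_getLast? h2
    have hαl : α.length = n + 5 := by simpa using hn
    -- `γ` is a permutation of `α`
    have hγα : γ.Perm α := by
      have : (m :: γ).Perm (m :: α) := (List.perm_append_singleton m γ).symm.trans ht
      exact List.Perm.cons_inv this
    have hγl : γ.length = n + 5 := by rw [hγα.length_eq, hαl]
    obtain ⟨p, α', rfl⟩ : ∃ p α', α = p :: α' := by
      cases α with
      | nil => simp at hαl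
      | cons a α => exact ⟨a, α, rfl⟩
    have hγne : γ ≠ [] := by
      intro h
      simp [h] at hγl
    obtain ⟨γ', q, rfl⟩ : ∃ γ' q, γ = γ' ++ [q] := by
      rcases List.eq_nil_or_concat γ with h | ⟨δ, q, h⟩
      · exact absurd h hγne
      · exact ⟨δ, q, by simpa using h⟩
    have hpq : p ≠ q := by
      intro h
      apply h3'
      rw [get_pen hγne, h]
      simp
    have gα : Good ∅ ⟨w, p :: α'⟩ := good_tail g
    have hqα : q ∈ α' := by
      have : q ∈ p :: α' := hγα.mem_iff.1 (by simp)
      rcases List.mem_cons.1 this with h | h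
      · exact absurd h.symm hpq
      · exact h
    -- the free bars
    have hfr : (p :: α').Perm (q :: (α'.erase q ++ [p])) := by
      have e1 : α'.Perm (q :: α'.erase q) := List.perm_cons_erase hqα
      have e2 : (p :: α').Perm (p :: q :: α'.erase q) := e1.cons p
      have e3 : (p :: q :: α'.erase q).Perm ((q :: α'.erase q) ++ [p]) :=
        (List.perm_append_singleton p (q :: α'.erase q)).symm
      exact e2.trans e3
    have hfl : (α'.erase q).length = n + 3 := by
      have := hfr.length_eq
      simp at this hαl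
      omega
    have hnd : (q :: (α'.erase q ++ [p])).Nodup := (hfr.nodup_iff).1 gα.sn
    have hγ'ne : γ' ≠ [] := by
      intro h
      rw [h] at hγl
      simp at hγl
    obtain ⟨x0, hx0⟩ : ∃ x0, γ'.getLast? = some x0 :=
      ⟨γ'.getLast hγ'ne, List.getLast?_eq_getLast_of_ne_nil hγ'ne⟩
    obtain ⟨y0, hy0⟩ : ∃ y0, α'[0]? = some y0 := by
      have : 0 < α'.length := by
        simp at hαl
        omega
      exact ⟨α'[0], by simp⟩
    obtain ⟨l, hl, hlx, hly, hlp⟩ := exists_mid (x0 := x0) (y0 := y0)
      (inv (p :: α') + (n + 6)) hnd (by omega)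
    have hll : l.length = n + 3 := by rw [hl.length_eq, hfl]
    have hlne : l ≠ [] := by
      intro h
      simp [h] at hll
    have hβ : (q :: (l ++ [p])).Perm (p :: α') :=
      (List.Perm.cons q (hl.append_right [p])).trans hfr.symm
    have gβ : Good ∅ ⟨w, q :: (l ++ [p])⟩ := good_perm gα hβ
    -- parities
    have r1 := inv_rotate (l := p :: α') (m := m) g.sn
    have r2 := inv_snoc (m := m) hγα
    have hαl' : (p :: α').length = n + 5 := hαl
    have hlen : (m :: p :: α').length = n + 6 := by
      rw [List.length_cons, hαl']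
    rw [hlen] at hp
    rw [hαl'] at r1
    have s1 : Strip ∅ ⟨w, p :: α'⟩ ⟨w, q :: (l ++ [p])⟩ := by
      apply ih (m := p) gα hβ
      · rfl
      · exact List.getLast?_concat (l := q :: l)
      · intro _
        have e1 := get_pen (γ := q :: l) (m := p) (by simp)
        have e2 := last_ne (u := [q]) hlne
        intro h
        apply hly
        rw [← hy0]
        have h' : (p :: α')[1]? = ((q :: l) ++ [p])[((q :: l) ++ [p]).length - 2]? := h
        rw [e1] at h'
        rw [← e2]
        exact h'.symm
      · rw [hαl']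
        omega
      · exact hαl'
    have s2 : Strip ∅ ⟨w, q :: (l ++ [p])⟩ ⟨w, γ' ++ [q]⟩ := by
      have hβl : (q :: (l ++ [p])).length = n + 5 := by
        rw [hβ.length_eq, hαl']
      apply ih (m := q) gβ (hγα.trans hβ.symm)
      · rfl
      · simp
      · intro _
        rw [get_pen hγ'ne]
        intro h
        apply hlx
        rw [← hx0, ← h]
        cases l with
        | nil => exact absurd rfl hlne
        | cons b l => simp
      · rw [hβl]
        omega
      · exact hβl
    exact leaf_step g s1 s2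

/-- prescribed lowest bars different from the bottom bar of the start: `t = low ++ l ++ [m]` with
`exists_mid'` -/
theorem E0 (h5 : D05) {w s low : List ℕ} {m : ℕ} (g : Good ∅ ⟨w, s⟩) (hd : 5 ≤ s.length)
    (h1 : s.head? = some m) (hl : low.Nodup) (hl2 : low.length ≤ 2)
    (hl3 : ∀ b ∈ low, b ∈ s ∧ b ≠ m) :
    ∃ t, Strip ∅ ⟨w, s⟩ ⟨w, t⟩ ∧ low <+: t ∧ t.getLast? = some m := by
  obtain ⟨σ, rfl⟩ : ∃ σ, s = m :: σ := by
    cases s with
    | nil => simp at h1
    | cons a σ => exact ⟨σ, by simpa using h1⟩
  have hsn : m ∉ σ ∧ σ.Nodup := List.nodup_cons.1 g.sn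
  have hsub : ∀ b ∈ low, b ∈ σ := by
    intro b hb
    rcases List.mem_cons.1 (hl3 b hb).1 with h | h
    · exact absurd h (hl3 b hb).2
    · exact h
  -- the free bars
  obtain ⟨fr, hfr⟩ : ∃ fr, σ.Perm (low ++ fr) := split_low hl hsn.2 hsub
  have hperm : (m :: σ).Perm (low ++ (fr ++ [m])) := by
    have e1 : (m :: σ).Perm (m :: (low ++ fr)) := hfr.cons m
    have e2 : (m :: (low ++ fr)).Perm ((low ++ fr) ++ [m]) :=
      (List.perm_append_singleton m (low ++ fr)).symm
    rw [List.append_assoc] at e2
    exact e1.trans e2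
  have hlen : low.length + fr.length = σ.length := by
    rw [hfr.length_eq, List.length_append]
  have hd' : 4 ≤ σ.length := by
    simp at hd
    omega
  have hnd : (low ++ (fr ++ [m])).Nodup := (hperm.nodup_iff).1 g.sn
  obtain ⟨y0, hy0⟩ : ∃ y0, σ[0]? = some y0 := by
    have : 0 < σ.length := by omega
    exact ⟨σ[0], by simp⟩
  obtain ⟨l, hlp, hly, hpar⟩ := exists_mid' (y0 := y0) (inv (m :: σ) + (σ.length + 2)) hnd
    (by omega)
  have hll : l.length = fr.length := hlp.length_eq
  have hlne : l ≠ [] := by
    intro h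
    simp [h] at hll
    omega
  have ht : (low ++ (l ++ [m])).Perm (m :: σ) :=
    ((hlp.append_right [m]).append_left low).trans hperm.symm
  refine ⟨low ++ (l ++ [m]), ?_, List.prefix_append _ _, ?_⟩
  · apply D0 h5 g hd ht h1
    · rw [← List.append_assoc]
      simp
    · intro h6
      rw [← List.append_assoc, get_pen (by simp [hlne])]
      intro h
      have h7 : 3 ≤ fr.length := by
        simp at h6
        omega
      apply hly h7
      rw [← last_ne (u := low) hlne, ← h]
      simpa using hy0
    · rw [List.length_cons]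
      omega
  · rw [← List.append_assoc]
    simp

end Pool.Agent.RS
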