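import Pool.Agent.RS.DbA

/-!
# RS: checks of the data base
-/

set_option autoImplicit false
set_option maxRecDepth 100000

namespace Pool.Agent.RS

theorem fb3_chk : checkAll dbV1 fb3 fb3_d = true := by decide +kernel

theorem fb2_2_chk : checkAll dbV1 fb2_2 fb2_2_d = true := by decide +kernel

theorem fb4_chk : checkAll dbV2 fb4 fb4_d = true := by decide +kernel

theorem fb3_2_chk : checkAll dbV2 fb3_2 fb3_2_d = true := by decide +kernel

theorem fb2_3_chk : checkAll dbV2 fb2_3 fb2_3_d = true := by decide +kernel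

theorem fb2_2_2_chk : checkAll dbV2 fb2_2_2 fb2_2_2_d = true := by decide +kernel

theorem fb5_chk : checkAll dbV3 fb5 fb5_d = true := by decide +kernel

theorem fb4_2_chk : checkAll dbV3 fb4_2 fb4_2_d = true := by decide +kernel

theorem fb3_3_chk : checkAll dbV3 fb3_3 fb3_3_d = true := by decide +kernel

theorem fb2_4_chk : checkAll dbV3 fb2_4 fb2_4_d = true := by decide +kernel

theorem fb3_2_2_chk : checkAll dbV3 fb3_2_2 fb3_2_2_d = true := by decide +kernel

theorem fb2_3_2_chk : checkAll dbV3 fb2_3_2 fb2_3_2_d = true := by decide +kernel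

theorem fb2_2_3_chk : checkAll dbV3 fb2_2_3 fb2_2_3_d = true := by decide +kernel

theorem fb2_2_2_2_chk : checkAll dbV3 fb2_2_2_2 fb2_2_2_2_d = true := by decide +kernel

end Pool.Agent.RS
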