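import Pool.Agent.RS.DbA

/-!
# RS: data base of facts, five bars, part 1
-/

set_option autoImplicit false
set_option maxRecDepth 100000

namespace Pool.Agent.RS

def fb5_2 : List Fact := [
  ⟨[5,2],none,[[0,3,2,4,1],[1,0]],4,false⟩,
  ⟨[5,2],none,[[1,0,2,4,3],[1,0]],4,false⟩,
  ⟨[5,2],none,[[2,0,1,4,3],[0,1]],1,false⟩,
  ⟨[5,2],none,[[2,3,1,4,0],[1,0]],4,false⟩,
  ⟨[5,2],none,[[3,0,1,4,2],[1,0]],4,false⟩,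
  ⟨[5,2],none,[[4,3,2,1,0],[1,0]],6,false⟩,
  ⟨[5,2],some 1,[[0,3,2,4,1],[1,0]],4,false⟩,
  ⟨[5,2],some 1,[[1,0,2,4,3],[1,0]],4,false⟩,
  ⟨[5,2],some 1,[[2,0,1,4,3],[0,1]],1,false⟩,
  ⟨[5,2],some 1,[[2,3,1,4,0],[1,0]],4,false⟩,
  ⟨[5,2],some 1,[[3,0,1,4,2],[1,0]],4,false⟩,
  ⟨[5,2],some 1,[[4,3,0,2,1],[1,0]],6,false⟩,
  ⟨[5,2],some 2,[[0,3,2,4,1],[1,0]],4,false⟩,
  ⟨[5,2],some 2,[[1,0,2,4,3],[1,0]],4,false⟩,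
  ⟨[5,2],some 2,[[2,0,1,4,3],[0,1]],1,false⟩,
  ⟨[5,2],some 2,[[2,3,1,4,0],[1,0]],4,false⟩,
  ⟨[5,2],some 2,[[3,0,1,4,2],[1,0]],4,false⟩,
  ⟨[5,2],some 2,[[4,3,2,1,0],[1,0]],6,false⟩,
  ⟨[5,2],some 3,[[0,3,2,4,1],[1,0]],4,false⟩,
  ⟨[5,2],some 3,[[1,0,2,4,3],[1,0]],4,false⟩,
  ⟨[5,2],some 3,[[2,0,1,4,3],[0,1]],1,false⟩,
  ⟨[5,2],some 3,[[2,3,1,4,0],[1,0]],4,false⟩,
  ⟨[5,2],some 3,[[3,0,1,4,2],[1,0]],4,false⟩,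
  ⟨[5,2],some 3,[[4,3,2,1,0],[1,0]],6,false⟩,
  ⟨[5,2],some 4,[[0,3,2,4,1],[1,0]],4,false⟩,
  ⟨[5,2],some 4,[[1,0,2,4,3],[1,0]],4,false⟩,
  ⟨[5,2],some 4,[[2,0,1,4,3],[0,1]],1,false⟩,
  ⟨[5,2],some 4,[[2,3,1,4,0],[1,0]],4,false⟩,
  ⟨[5,2],some 4,[[3,0,1,4,2],[1,0]],4,false⟩,
  ⟨[5,2],some 4,[[4,3,0,2,1],[1,0]],6,false⟩,
  ⟨[5,2],some 6,[[0,3,2,4,1],[1,0]],4,false⟩,
  ⟨[5,2],some 6,[[1,0,2,4,3],[1,0]],4,false⟩,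
  ⟨[5,2],some 6,[[2,0,1,4,3],[0,1]],1,false⟩,
  ⟨[5,2],some 6,[[2,3,1,4,0],[1,0]],4,false⟩,
  ⟨[5,2],some 6,[[3,0,1,4,2],[1,0]],4,false⟩,
  ⟨[5,2],some 6,[[4,3,2,1,0],[1,0]],6,false⟩]

def fb5_2_d : List Der := [
  ⟨true,1,15,0xc2050c301143140050e3071400c0c5123081438c08502503,641⟩,
  ⟨true,1,15,0xc2050c3051418c2050c30714314005063011438c20502513,647⟩,
  ⟨false,0,15,0xc1040a304101100840a3071030c0c40c3031038c1840240f,519⟩,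
  ⟨true,1,15,0xc0850c3071448c205005001408c0450c3011438c20502513,649⟩,
  ⟨true,1,15,0xc0850c3071448c205005001408c045003071438c0850650d,647⟩,
  ⟨false,1,1,0x3a7,897⟩,
  ⟨true,1,15,0xc2050c301143140050e3071400c0c5123081438c08502531,641⟩,
  ⟨true,1,15,0xc2050c3051418c2050c30714314005063011438c20502533,647⟩,
  ⟨false,0,15,0xc1040a304101100840a3071030c0c40c3031038c1840240f,519⟩,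
  ⟨true,1,15,0xc0850c3071448c205005001408c0450c3011438c20502533,649⟩,
  ⟨true,1,15,0xc0850c3071448c205005001408c045003071438c0850652f,647⟩,
  ⟨false,1,1,0x3b1,901⟩,
  ⟨true,1,15,0xc2050c301143140050e3071400c0c5123081438c08502529,641⟩,
  ⟨true,1,15,0xc2050c3051418c2050c30714314005063011438c2050252b,647⟩,
  ⟨false,0,15,0xc1040a304101100840a3071030c0c40c3031038c18402417,519⟩,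
  ⟨true,1,15,0xc0850c3071448c205005001408c0450c3011438c2050252b,649⟩,
  ⟨true,1,15,0xc0850c3071448c205005001408c045003071438c08506527,647⟩,
  ⟨false,1,1,0x3bd,897⟩,
  ⟨true,1,15,0xc2050c301143140050e3071400c0c5123081438c08502521,641⟩,
  ⟨true,1,15,0xc2050c3051418c2050c30714314005063011438c20502523,647⟩,
  ⟨false,0,15,0xc1040a304101100840a3071030c0c40c3031038c1840241f,519⟩,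
  ⟨true,1,15,0xc0850c3071448c205005001408c0450c3011438c20502523,649⟩,
  ⟨true,1,15,0xc0850c3071448c205005001408c045003071438c0850651f,647⟩,
  ⟨false,1,1,0x3c7,897⟩,
  ⟨true,1,15,0xc2050c301143140050e3071400c0c5123081438c08502503,641⟩,
  ⟨true,1,15,0xc2050c3051418c2050c30714314005063011438c20502513,647⟩,
  ⟨false,0,15,0xc1040a304101100840a3071030c0c40c3031038c18402427,519⟩,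
  ⟨true,1,15,0xc0850c3071448c205005001408c0450c3011438c20502513,649⟩,
  ⟨true,1,15,0xc0850c3071448c205005001408c045003071438c0850650d,647⟩,
  ⟨false,1,1,0x3cf,901⟩,
  ⟨true,1,15,0xc2050c301143140050e3071400c0c5123081438c08502519,641⟩,
  ⟨true,1,15,0xc2050c3051418c2050c30714314005063011438c2050251b,647⟩,
  ⟨false,0,15,0xc1040a304101100840a3071030c0c40c3031038c1840242f,519⟩,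
  ⟨true,1,15,0xc0850c3071448c205005001408c0450c3011438c2050251b,649⟩,
  ⟨true,1,15,0xc0850c3071448c205005001408c045003071438c08506517,647⟩,
  ⟨false,1,1,0x3a7,897⟩]

theorem fb5_2_chk : checkAll dbV4 fb5_2 fb5_2_d = true := by decide +kernel

def fb4_2_2 : List Fact := [
  ⟨[4,2,2],none,[[0,1,3,2],[1,0],[1,0]],5,false⟩,
  ⟨[4,2,2],none,[[1,0,3,2],[0,1],[1,0]],3,false⟩,
  ⟨[4,2,2],none,[[1,2,3,0],[1,0],[1,0]],3,false⟩,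
  ⟨[4,2,2],none,[[2,0,1,3],[0,1],[1,0]],7,false⟩,
  ⟨[4,2,2],none,[[2,0,3,1],[0,1],[0,1]],3,false⟩,
  ⟨[4,2,2],none,[[3,2,0,1],[1,0],[1,0]],5,false⟩,
  ⟨[4,2,2],some 1,[[0,2,3,1],[1,0],[0,1]],3,false⟩,
  ⟨[4,2,2],some 1,[[1,0,3,2],[0,1],[1,0]],3,false⟩,
  ⟨[4,2,2],some 1,[[1,2,3,0],[1,0],[1,0]],3,false⟩,
  ⟨[4,2,2],some 1,[[2,0,1,3],[0,1],[1,0]],7,false⟩,
  ⟨[4,2,2],some 1,[[2,0,1,3],[1,0],[0,1]],5,false⟩,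
  ⟨[4,2,2],some 1,[[3,2,0,1],[1,0],[1,0]],5,false⟩,
  ⟨[4,2,2],some 2,[[0,2,3,1],[1,0],[0,1]],3,false⟩,
  ⟨[4,2,2],some 2,[[1,0,3,2],[0,1],[1,0]],3,false⟩,
  ⟨[4,2,2],some 2,[[1,2,3,0],[1,0],[1,0]],3,false⟩,
  ⟨[4,2,2],some 2,[[2,0,1,3],[0,1],[1,0]],7,false⟩,
  ⟨[4,2,2],some 2,[[2,0,1,3],[1,0],[0,1]],5,false⟩,
  ⟨[4,2,2],some 2,[[3,2,0,1],[1,0],[1,0]],5,false⟩,
  ⟨[4,2,2],some 3,[[0,2,3,1],[1,0],[0,1]],3,false⟩,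
  ⟨[4,2,2],some 3,[[1,0,3,2],[0,1],[1,0]],3,false⟩,
  ⟨[4,2,2],some 3,[[1,2,3,0],[1,0],[1,0]],3,false⟩,
  ⟨[4,2,2],some 3,[[2,0,1,3],[0,1],[1,0]],7,false⟩,
  ⟨[4,2,2],some 3,[[2,0,1,3],[1,0],[0,1]],5,false⟩,
  ⟨[4,2,2],some 3,[[3,2,0,1],[1,0],[1,0]],5,false⟩,
  ⟨[4,2,2],some 5,[[0,2,3,1],[1,0],[0,1]],3,false⟩,
  ⟨[4,2,2],some 5,[[1,0,3,2],[0,1],[1,0]],3,false⟩,
  ⟨[4,2,2],some 5,[[1,2,3,0],[1,0],[1,0]],3,false⟩,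
  ⟨[4,2,2],some 5,[[2,0,1,3],[0,1],[1,0]],7,false⟩,
  ⟨[4,2,2],some 5,[[2,0,1,3],[1,0],[0,1]],5,false⟩,
  ⟨[4,2,2],some 5,[[3,2,0,1],[1,0],[1,0]],5,false⟩,
  ⟨[4,2,2],some 7,[[0,2,3,1],[1,0],[0,1]],3,false⟩,
  ⟨[4,2,2],some 7,[[1,0,3,2],[0,1],[1,0]],3,false⟩,
  ⟨[4,2,2],some 7,[[1,2,3,0],[1,0],[1,0]],3,false⟩,
  ⟨[4,2,2],some 7,[[2,0,1,3],[0,1],[1,0]],7,false⟩,
  ⟨[4,2,2],some 7,[[2,0,1,3],[1,0],[0,1]],5,false⟩,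
  ⟨[4,2,2],some 7,[[3,2,0,1],[1,0],[1,0]],5,false⟩]

def fb4_2_2_d : List Der := [
  ⟨false,1,1,0x40b,1027⟩,
  ⟨true,2,7,0xc006023003400c0c602689,771⟩,
  ⟨false,0,7,0xc0460e3041838c1060e589,1409⟩,
  ⟨false,2,1,0x40f,1025⟩,
  ⟨true,2,7,0xc2860230a3400c1460268f,775⟩,
  ⟨false,1,1,0x409,1025⟩,
  ⟨true,2,7,0xc006023003400c1460e69f,771⟩,
  ⟨true,2,7,0xc006023003400c0c60269d,771⟩,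
  ⟨false,0,7,0xc0460e3041838c1060e589,1409⟩,
  ⟨false,2,1,0x417,1025⟩,
  ⟨false,1,1,0x417,1025⟩,
  ⟨false,1,1,0x413,1025⟩,
  ⟨true,2,7,0xc006023003400c1460e69b,771⟩,
  ⟨true,2,7,0xc006023003400c0c602699,771⟩,
  ⟨false,0,7,0xc0460e3041838c1060e58d,1409⟩,
  ⟨false,2,1,0x41f,1025⟩,
  ⟨false,1,1,0x41f,1025⟩,
  ⟨false,1,1,0x41b,1025⟩,
  ⟨true,2,7,0xc006023003400c1460e68f,771⟩,
  ⟨true,2,7,0xc006023003400c0c602689,771⟩,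
  ⟨false,0,7,0xc0460e3041838c1060e593,1409⟩,
  ⟨false,2,1,0x427,1025⟩,
  ⟨false,1,1,0x427,1025⟩,
  ⟨false,1,1,0x423,1025⟩,
  ⟨true,2,7,0xc006023003400c1460e697,771⟩,
  ⟨true,2,7,0xc006023003400c0c602695,771⟩,
  ⟨false,0,7,0xc0460e3041838c1060e599,1409⟩,
  ⟨false,2,1,0x42f,1025⟩,
  ⟨false,1,1,0x40f,1025⟩,
  ⟨false,1,1,0x409,1025⟩,
  ⟨true,2,7,0xc006023003400c1460e693,771⟩,
  ⟨true,2,7,0xc006023003400c0c602691,771⟩,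
  ⟨false,0,7,0xc0460e3041838c1060e59f,1409⟩,
  ⟨false,2,1,0x40f,1025⟩,
  ⟨false,1,1,0x42f,1025⟩,
  ⟨false,1,1,0x42b,1025⟩]

theorem fb4_2_2_chk : checkAll dbV4 fb4_2_2 fb4_2_2_d = true := by decide +kernel

def fb2_3_3 : List Fact := [
  ⟨[2,3,3],none,[[0,1],[0,2,1],[2,0,1]],4,false⟩,
  ⟨[2,3,3],none,[[0,1],[1,0,2],[1,2,0]],3,false⟩,
  ⟨[2,3,3],none,[[0,1],[1,2,0],[0,2,1]],7,false⟩,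
  ⟨[2,3,3],none,[[0,1],[2,1,0],[1,2,0]],7,false⟩,
  ⟨[2,3,3],none,[[1,0],[1,0,2],[2,1,0]],1,false⟩,
  ⟨[2,3,3],none,[[1,0],[1,2,0],[1,2,0]],4,false⟩,
  ⟨[2,3,3],none,[[1,0],[2,0,1],[0,1,2]],1,false⟩,
  ⟨[2,3,3],some 1,[[0,1],[0,2,1],[2,0,1]],4,false⟩,
  ⟨[2,3,3],some 1,[[0,1],[1,0,2],[1,2,0]],3,false⟩,
  ⟨[2,3,3],some 1,[[0,1],[1,0,2],[1,2,0]],7,false⟩,
  ⟨[2,3,3],some 1,[[0,1],[1,2,0],[0,2,1]],7,false⟩,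
  ⟨[2,3,3],some 1,[[1,0],[1,0,2],[2,1,0]],1,false⟩,
  ⟨[2,3,3],some 1,[[1,0],[1,2,0],[1,2,0]],4,false⟩,
  ⟨[2,3,3],some 1,[[1,0],[2,0,1],[0,1,2]],1,false⟩,
  ⟨[2,3,3],some 3,[[0,1],[0,2,1],[2,0,1]],4,false⟩,
  ⟨[2,3,3],some 3,[[0,1],[1,0,2],[1,2,0]],3,false⟩,
  ⟨[2,3,3],some 3,[[0,1],[1,0,2],[1,2,0]],7,false⟩,
  ⟨[2,3,3],some 3,[[0,1],[1,2,0],[0,2,1]],7,false⟩,
  ⟨[2,3,3],some 3,[[1,0],[1,2,0],[1,2,0]],4,false⟩,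
  ⟨[2,3,3],some 3,[[1,0],[1,2,0],[2,0,1]],1,false⟩,
  ⟨[2,3,3],some 3,[[1,0],[2,0,1],[0,1,2]],1,false⟩,
  ⟨[2,3,3],some 4,[[0,1],[0,2,1],[2,0,1]],4,false⟩,
  ⟨[2,3,3],some 4,[[0,1],[1,0,2],[1,2,0]],3,false⟩,
  ⟨[2,3,3],some 4,[[0,1],[1,0,2],[1,2,0]],7,false⟩,
  ⟨[2,3,3],some 4,[[0,1],[1,2,0],[0,2,1]],7,false⟩,
  ⟨[2,3,3],some 4,[[1,0],[1,2,0],[1,2,0]],4,false⟩,
  ⟨[2,3,3],some 4,[[1,0],[1,2,0],[2,0,1]],1,false⟩,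
  ⟨[2,3,3],some 4,[[1,0],[2,0,1],[0,1,2]],1,false⟩,
  ⟨[2,3,3],some 6,[[0,1],[0,2,1],[2,0,1]],4,false⟩,
  ⟨[2,3,3],some 6,[[0,1],[1,0,2],[1,2,0]],3,false⟩,
  ⟨[2,3,3],some 6,[[0,1],[1,0,2],[1,2,0]],7,false⟩,
  ⟨[2,3,3],some 6,[[0,1],[1,2,0],[0,2,1]],7,false⟩,
  ⟨[2,3,3],some 6,[[1,0],[1,2,0],[1,2,0]],4,false⟩,
  ⟨[2,3,3],some 6,[[1,0],[1,2,0],[2,0,1]],1,false⟩,
  ⟨[2,3,3],some 6,[[1,0],[2,0,1],[0,1,2]],1,false⟩,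
  ⟨[2,3,3],some 7,[[0,1],[0,2,1],[2,0,1]],4,false⟩,
  ⟨[2,3,3],some 7,[[0,1],[1,0,2],[1,2,0]],3,false⟩,
  ⟨[2,3,3],some 7,[[0,1],[1,0,2],[1,2,0]],7,false⟩,
  ⟨[2,3,3],some 7,[[0,1],[1,2,0],[0,2,1]],7,false⟩,
  ⟨[2,3,3],some 7,[[1,0],[1,2,0],[1,2,0]],4,false⟩,
  ⟨[2,3,3],some 7,[[1,0],[1,2,0],[2,0,1]],1,false⟩,
  ⟨[2,3,3],some 7,[[1,0],[2,0,1],[0,1,2]],1,false⟩]

def fb2_3_3_d : List Der := [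
  ⟨true,1,3,0x1608412589,517⟩,
  ⟨false,1,3,0x1a10512689,641⟩,
  ⟨true,0,3,0x181041260b,517⟩,
  ⟨true,0,3,0x1810412607,515⟩,
  ⟨false,0,1,0x48d,1155⟩,
  ⟨true,1,3,0x1608412587,515⟩,
  ⟨false,0,1,0x48b,1153⟩,
  ⟨true,1,3,0x160841259f,517⟩,
  ⟨false,1,3,0x1a10512691,641⟩,
  ⟨true,0,3,0x181041261f,517⟩,
  ⟨true,0,3,0x1810412623,517⟩,
  ⟨false,0,1,0x48d,1155⟩,
  ⟨true,1,3,0x160840a59d,519⟩,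
  ⟨false,0,1,0x48b,1153⟩,
  ⟨true,1,3,0x1608412599,517⟩,
  ⟨false,1,3,0x1a10512689,641⟩,
  ⟨true,0,3,0x1810412619,517⟩,
  ⟨true,0,3,0x181041261d,517⟩,
  ⟨true,1,3,0x160840a597,519⟩,
  ⟨false,0,1,0x48f,1157⟩,
  ⟨false,0,1,0x48f,1153⟩,
  ⟨true,1,3,0x1608412589,517⟩,
  ⟨false,1,3,0x1a10512695,641⟩,
  ⟨true,0,3,0x1810412613,517⟩,
  ⟨true,0,3,0x1810412617,517⟩,
  ⟨true,1,3,0x160840a587,519⟩,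
  ⟨false,0,1,0x493,1157⟩,
  ⟨false,0,1,0x493,1153⟩,
  ⟨true,1,3,0x1608412593,517⟩,
  ⟨false,1,3,0x1a10512699,641⟩,
  ⟨true,0,3,0x181041260d,517⟩,
  ⟨true,0,3,0x1810412611,517⟩,
  ⟨true,1,3,0x160840a591,519⟩,
  ⟨false,0,1,0x499,1157⟩,
  ⟨false,0,1,0x499,1153⟩,
  ⟨true,1,3,0x160841258d,517⟩,
  ⟨false,1,3,0x1a1051269d,641⟩,
  ⟨true,0,3,0x1810412607,517⟩,
  ⟨true,0,3,0x181041260b,517⟩,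
  ⟨true,1,3,0x160840a58b,519⟩,
  ⟨false,0,1,0x49f,1157⟩,
  ⟨false,0,1,0x49f,1153⟩]

theorem fb2_3_3_chk : checkAll dbV4 fb2_3_3 fb2_3_3_d = true := by decide +kernel

def fb2_2_3_2 : List Fact := [
  ⟨[2,2,3,2],none,[[0,1],[0,1],[1,2,0],[1,0]],6,false⟩,
  ⟨[2,2,3,2],none,[[0,1],[1,0],[0,2,1],[1,0]],6,false⟩,
  ⟨[2,2,3,2],none,[[0,1],[1,0],[2,1,0],[1,0]],3,false⟩,
  ⟨[2,2,3,2],none,[[1,0],[0,1],[2,1,0],[1,0]],1,false⟩,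
  ⟨[2,2,3,2],none,[[1,0],[0,1],[2,1,0],[1,0]],8,false⟩,
  ⟨[2,2,3,2],none,[[1,0],[1,0],[1,0,2],[0,1]],1,false⟩,
  ⟨[2,2,3,2],some 1,[[0,1],[1,0],[0,2,1],[1,0]],6,false⟩,
  ⟨[2,2,3,2],some 1,[[0,1],[1,0],[2,1,0],[1,0]],3,false⟩,
  ⟨[2,2,3,2],some 1,[[1,0],[0,1],[1,2,0],[0,1]],6,false⟩,
  ⟨[2,2,3,2],some 1,[[1,0],[0,1],[2,1,0],[1,0]],1,false⟩,
  ⟨[2,2,3,2],some 1,[[1,0],[0,1],[2,1,0],[1,0]],8,false⟩,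
  ⟨[2,2,3,2],some 1,[[1,0],[1,0],[1,0,2],[0,1]],1,false⟩,
  ⟨[2,2,3,2],some 3,[[0,1],[1,0],[0,2,1],[1,0]],6,false⟩,
  ⟨[2,2,3,2],some 3,[[0,1],[1,0],[2,1,0],[1,0]],3,false⟩,
  ⟨[2,2,3,2],some 3,[[1,0],[0,1],[1,2,0],[0,1]],6,false⟩,
  ⟨[2,2,3,2],some 3,[[1,0],[0,1],[2,1,0],[1,0]],1,false⟩,
  ⟨[2,2,3,2],some 3,[[1,0],[0,1],[2,1,0],[1,0]],8,false⟩,
  ⟨[2,2,3,2],some 3,[[1,0],[1,0],[1,0,2],[0,1]],1,false⟩,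
  ⟨[2,2,3,2],some 5,[[0,1],[1,0],[0,2,1],[1,0]],6,false⟩,
  ⟨[2,2,3,2],some 5,[[0,1],[1,0],[2,1,0],[1,0]],3,false⟩,
  ⟨[2,2,3,2],some 5,[[1,0],[0,1],[1,2,0],[0,1]],6,false⟩,
  ⟨[2,2,3,2],some 5,[[1,0],[0,1],[2,1,0],[1,0]],1,false⟩,
  ⟨[2,2,3,2],some 5,[[1,0],[0,1],[2,1,0],[1,0]],8,false⟩,
  ⟨[2,2,3,2],some 5,[[1,0],[1,0],[1,0,2],[0,1]],1,false⟩,
  ⟨[2,2,3,2],some 6,[[0,1],[1,0],[0,2,1],[1,0]],6,false⟩,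
  ⟨[2,2,3,2],some 6,[[0,1],[1,0],[2,1,0],[1,0]],3,false⟩,
  ⟨[2,2,3,2],some 6,[[1,0],[0,1],[1,2,0],[0,1]],6,false⟩,
  ⟨[2,2,3,2],some 6,[[1,0],[0,1],[2,1,0],[1,0]],1,false⟩,
  ⟨[2,2,3,2],some 6,[[1,0],[0,1],[2,1,0],[1,0]],8,false⟩,
  ⟨[2,2,3,2],some 6,[[1,0],[1,0],[1,0,2],[0,1]],1,false⟩,
  ⟨[2,2,3,2],some 8,[[0,1],[1,0],[0,2,1],[1,0]],6,false⟩,
  ⟨[2,2,3,2],some 8,[[0,1],[1,0],[2,1,0],[1,0]],3,false⟩,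
  ⟨[2,2,3,2],some 8,[[1,0],[0,1],[1,2,0],[0,1]],6,false⟩,
  ⟨[2,2,3,2],some 8,[[1,0],[0,1],[2,1,0],[1,0]],1,false⟩,
  ⟨[2,2,3,2],some 8,[[1,0],[0,1],[2,1,0],[1,0]],8,false⟩,
  ⟨[2,2,3,2],some 8,[[1,0],[1,0],[1,0,2],[0,1]],1,false⟩]

def fb2_2_3_2_d : List Der := [
  ⟨true,1,3,0x1c1860e70f,771⟩,
  ⟨true,1,3,0x1c1860270d,771⟩,
  ⟨false,1,1,0x60b,1541⟩,
  ⟨false,0,1,0x60b,1541⟩,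
  ⟨false,3,1,0x689,1667⟩,
  ⟨false,0,1,0x607,1539⟩,
  ⟨true,1,3,0x1c1860272b,771⟩,
  ⟨false,1,1,0x611,1541⟩,
  ⟨true,1,3,0x1c1860e72d,775⟩,
  ⟨false,0,1,0x60b,1541⟩,
  ⟨false,3,1,0x691,1667⟩,
  ⟨false,0,1,0x607,1539⟩,
  ⟨true,1,3,0x1c18602723,771⟩,
  ⟨false,1,1,0x60b,1541⟩,
  ⟨true,1,3,0x1c1860e725,775⟩,
  ⟨false,0,1,0x611,1541⟩,
  ⟨false,3,1,0x695,1667⟩,
  ⟨false,0,1,0x60d,1539⟩,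
  ⟨true,1,3,0x1c1860271b,771⟩,
  ⟨false,1,1,0x617,1541⟩,
  ⟨true,1,3,0x1c1860e71d,775⟩,
  ⟨false,0,1,0x617,1541⟩,
  ⟨false,3,1,0x699,1667⟩,
  ⟨false,0,1,0x613,1539⟩,
  ⟨true,1,3,0x1c1860270d,771⟩,
  ⟨false,1,1,0x61d,1541⟩,
  ⟨true,1,3,0x1c1860e70f,775⟩,
  ⟨false,0,1,0x61d,1541⟩,
  ⟨false,3,1,0x69d,1667⟩,
  ⟨false,0,1,0x619,1539⟩,
  ⟨true,1,3,0x1c18602713,771⟩,
  ⟨false,1,1,0x623,1541⟩,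
  ⟨true,1,3,0x1c1860e715,775⟩,
  ⟨false,0,1,0x623,1541⟩,
  ⟨false,3,1,0x689,1667⟩,
  ⟨false,0,1,0x61f,1539⟩]

theorem fb2_2_3_2_chk : checkAll dbV4 fb2_2_3_2 fb2_2_3_2_d = true := by decide +kernel

end Pool.Agent.RS
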