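import Pool.Agent.RS.DbA

/-!
# RS: data base of facts, five bars, part 2
-/

set_option autoImplicit false
set_option maxRecDepth 100000

namespace Pool.Agent.RS

def fb4_3 : List Fact := [
  ⟨[4,3],none,[[0,1,3,2],[2,0,1]],3,false⟩,
  ⟨[4,3],none,[[1,0,2,3],[1,2,0]],6,false⟩,
  ⟨[4,3],none,[[1,0,3,2],[0,2,1]],6,false⟩,
  ⟨[4,3],none,[[1,0,3,2],[1,0,2]],5,false⟩,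
  ⟨[4,3],none,[[2,0,3,1],[2,0,1]],3,false⟩,
  ⟨[4,3],none,[[2,1,3,0],[2,1,0]],3,false⟩,
  ⟨[4,3],none,[[3,0,2,1],[1,0,2]],5,false⟩,
  ⟨[4,3],some 1,[[0,1,3,2],[1,2,0]],3,false⟩,
  ⟨[4,3],some 1,[[0,2,3,1],[0,2,1]],3,false⟩,
  ⟨[4,3],some 1,[[1,0,2,3],[1,2,0]],6,false⟩,
  ⟨[4,3],some 1,[[1,0,3,2],[0,2,1]],6,false⟩,
  ⟨[4,3],some 1,[[1,0,3,2],[1,0,2]],5,false⟩,
  ⟨[4,3],some 1,[[2,1,3,0],[2,1,0]],3,false⟩,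
  ⟨[4,3],some 1,[[3,0,2,1],[1,0,2]],5,false⟩,
  ⟨[4,3],some 2,[[0,1,3,2],[1,2,0]],3,false⟩,
  ⟨[4,3],some 2,[[0,2,3,1],[0,2,1]],3,false⟩,
  ⟨[4,3],some 2,[[1,0,2,3],[1,2,0]],6,false⟩,
  ⟨[4,3],some 2,[[1,0,3,2],[0,2,1]],6,false⟩,
  ⟨[4,3],some 2,[[1,0,3,2],[1,0,2]],5,false⟩,
  ⟨[4,3],some 2,[[2,1,3,0],[2,1,0]],3,false⟩,
  ⟨[4,3],some 2,[[3,0,2,1],[1,0,2]],5,false⟩,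
  ⟨[4,3],some 3,[[0,1,3,2],[2,0,1]],3,false⟩,
  ⟨[4,3],some 3,[[1,0,2,3],[1,2,0]],6,false⟩,
  ⟨[4,3],some 3,[[1,0,3,2],[0,2,1]],6,false⟩,
  ⟨[4,3],some 3,[[1,0,3,2],[1,0,2]],5,false⟩,
  ⟨[4,3],some 3,[[2,0,3,1],[2,0,1]],3,false⟩,
  ⟨[4,3],some 3,[[2,1,3,0],[2,1,0]],3,false⟩,
  ⟨[4,3],some 3,[[3,0,2,1],[1,0,2]],5,false⟩,
  ⟨[4,3],some 5,[[0,1,3,2],[1,2,0]],3,false⟩,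
  ⟨[4,3],some 5,[[0,2,3,1],[0,2,1]],3,false⟩,
  ⟨[4,3],some 5,[[1,0,2,3],[1,2,0]],6,false⟩,
  ⟨[4,3],some 5,[[1,0,3,2],[0,2,1]],6,false⟩,
  ⟨[4,3],some 5,[[1,0,3,2],[1,0,2]],5,false⟩,
  ⟨[4,3],some 5,[[2,1,3,0],[2,1,0]],3,false⟩,
  ⟨[4,3],some 5,[[3,0,2,1],[1,0,2]],5,false⟩,
  ⟨[4,3],some 6,[[0,1,3,2],[1,2,0]],3,false⟩,
  ⟨[4,3],some 6,[[0,2,3,1],[2,1,0]],3,false⟩,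
  ⟨[4,3],some 6,[[1,0,2,3],[1,2,0]],6,false⟩,
  ⟨[4,3],some 6,[[1,0,3,2],[0,2,1]],6,false⟩,
  ⟨[4,3],some 6,[[1,0,3,2],[1,0,2]],5,false⟩,
  ⟨[4,3],some 6,[[2,1,3,0],[2,1,0]],3,false⟩,
  ⟨[4,3],some 6,[[3,0,2,1],[1,0,2]],5,false⟩]

def fb4_3_d : List Der := [
  ⟨true,1,7,0x800412200242080440a48d,515⟩,
  ⟨true,0,3,0x140830a509,387⟩,
  ⟨true,0,3,0x1408302513,391⟩,
  ⟨false,1,3,0x100030e40f,391⟩,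
  ⟨true,1,7,0x800402200242081c41248d,519⟩,
  ⟨false,0,7,0xa1c50a2841428a1051248d,1155⟩,
  ⟨false,1,3,0x100030240f,387⟩,
  ⟨true,1,7,0x800402200242082440249f,513⟩,
  ⟨true,1,7,0x80040220024208244024a1,517⟩,
  ⟨true,0,3,0x140830a52d,387⟩,
  ⟨true,0,3,0x1408302533,391⟩,
  ⟨false,1,3,0x100030e417,391⟩,
  ⟨false,0,7,0xa1c50a2841428a1051248d,1155⟩,
  ⟨false,1,3,0x1000302417,387⟩,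
  ⟨true,1,7,0x8004022002420824402499,513⟩,
  ⟨true,1,7,0x800402200242082440249b,517⟩,
  ⟨true,0,3,0x140830a525,387⟩,
  ⟨true,0,3,0x140830252b,391⟩,
  ⟨false,1,3,0x100030e41f,391⟩,
  ⟨false,0,7,0xa1450a2841428a1050248f,1153⟩,
  ⟨false,1,3,0x100030241f,387⟩,
  ⟨true,1,7,0x800412200242080440a48d,515⟩,
  ⟨true,0,3,0x140830a51d,387⟩,
  ⟨true,0,3,0x1408302523,391⟩,
  ⟨false,1,3,0x100030e427,391⟩,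
  ⟨true,1,7,0x80040e200242081c41248d,513⟩,
  ⟨false,0,7,0xa1450a2841428a10502493,1153⟩,
  ⟨false,1,3,0x1000302427,387⟩,
  ⟨true,1,7,0x8004022002420824402493,513⟩,
  ⟨true,1,7,0x8004022002420824402495,517⟩,
  ⟨true,0,3,0x140830a515,387⟩,
  ⟨true,0,3,0x140830251b,391⟩,
  ⟨false,1,3,0x100030e40f,391⟩,
  ⟨false,0,7,0xa1450a2841428a10502499,1153⟩,
  ⟨false,1,3,0x100030240f,387⟩,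
  ⟨true,1,7,0x800402200242082440248f,513⟩,
  ⟨true,1,7,0x80040e200242080440a491,515⟩,
  ⟨true,0,3,0x140830a509,387⟩,
  ⟨true,0,3,0x1408302513,391⟩,
  ⟨false,1,3,0x100030e42f,391⟩,
  ⟨false,0,7,0xa1450a2841428a1050249f,1153⟩,
  ⟨false,1,3,0x100030242f,387⟩]

theorem fb4_3_chk : checkAll dbV4 fb4_3 fb4_3_d = true := by decide +kernel

def fb3_3_2 : List Fact := [
  ⟨[3,3,2],none,[[0,2,1],[0,2,1],[1,0]],5,false⟩,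
  ⟨[3,3,2],none,[[0,2,1],[1,0,2],[1,0]],2,false⟩,
  ⟨[3,3,2],none,[[1,2,0],[2,0,1],[1,0]],2,false⟩,
  ⟨[3,3,2],none,[[2,0,1],[0,1,2],[1,0]],7,false⟩,
  ⟨[3,3,2],none,[[2,1,0],[1,2,0],[0,1]],5,false⟩,
  ⟨[3,3,2],some 1,[[0,2,1],[0,2,1],[1,0]],5,false⟩,
  ⟨[3,3,2],some 1,[[0,2,1],[1,0,2],[1,0]],2,false⟩,
  ⟨[3,3,2],some 1,[[1,2,0],[2,0,1],[1,0]],2,false⟩,
  ⟨[3,3,2],some 1,[[2,0,1],[0,1,2],[1,0]],7,false⟩,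
  ⟨[3,3,2],some 1,[[2,1,0],[1,2,0],[0,1]],5,false⟩,
  ⟨[3,3,2],some 2,[[0,2,1],[0,2,1],[1,0]],5,false⟩,
  ⟨[3,3,2],some 2,[[0,2,1],[1,0,2],[1,0]],2,false⟩,
  ⟨[3,3,2],some 2,[[1,2,0],[2,0,1],[1,0]],2,false⟩,
  ⟨[3,3,2],some 2,[[2,0,1],[0,1,2],[1,0]],7,false⟩,
  ⟨[3,3,2],some 2,[[2,1,0],[1,2,0],[0,1]],5,false⟩,
  ⟨[3,3,2],some 4,[[0,2,1],[0,2,1],[1,0]],5,false⟩,
  ⟨[3,3,2],some 4,[[0,2,1],[1,0,2],[1,0]],2,false⟩,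
  ⟨[3,3,2],some 4,[[1,2,0],[2,0,1],[1,0]],2,false⟩,
  ⟨[3,3,2],some 4,[[2,0,1],[0,1,2],[1,0]],7,false⟩,
  ⟨[3,3,2],some 4,[[2,1,0],[1,2,0],[0,1]],5,false⟩,
  ⟨[3,3,2],some 5,[[0,2,1],[0,2,1],[1,0]],5,false⟩,
  ⟨[3,3,2],some 5,[[0,2,1],[1,0,2],[1,0]],2,false⟩,
  ⟨[3,3,2],some 5,[[1,2,0],[2,0,1],[1,0]],2,false⟩,
  ⟨[3,3,2],some 5,[[2,0,1],[0,1,2],[1,0]],7,false⟩,
  ⟨[3,3,2],some 5,[[2,1,0],[1,2,0],[0,1]],5,false⟩,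
  ⟨[3,3,2],some 7,[[0,2,1],[0,2,1],[1,0]],5,false⟩,
  ⟨[3,3,2],some 7,[[0,2,1],[1,0,2],[1,0]],2,false⟩,
  ⟨[3,3,2],some 7,[[1,2,0],[2,0,1],[1,0]],2,false⟩,
  ⟨[3,3,2],some 7,[[2,0,1],[0,1,2],[1,0]],7,false⟩,
  ⟨[3,3,2],some 7,[[2,1,0],[1,2,0],[0,1]],5,false⟩]

def fb3_3_2_d : List Der := [
  ⟨true,1,3,0x1a10512689,645⟩,
  ⟨true,2,3,0x1808512607,645⟩,
  ⟨true,2,3,0x1808502609,647⟩,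
  ⟨false,2,1,0x48b,1153⟩,
  ⟨true,1,3,0x1a1051268f,645⟩,
  ⟨true,1,3,0x1a1051269d,645⟩,
  ⟨true,2,3,0x180851261f,645⟩,
  ⟨true,2,3,0x1808502621,647⟩,
  ⟨false,2,1,0x48f,1153⟩,
  ⟨true,1,3,0x1a1051269f,645⟩,
  ⟨true,1,3,0x1a10512699,645⟩,
  ⟨true,2,3,0x1808512607,645⟩,
  ⟨true,2,3,0x1808502609,647⟩,
  ⟨false,2,1,0x493,1153⟩,
  ⟨true,1,3,0x1a1051269b,645⟩,
  ⟨true,1,3,0x1a10512695,645⟩,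
  ⟨true,2,3,0x1808512619,645⟩,
  ⟨true,2,3,0x180850261b,647⟩,
  ⟨false,2,1,0x499,1153⟩,
  ⟨true,1,3,0x1a10512697,645⟩,
  ⟨true,1,3,0x1a10512689,645⟩,
  ⟨true,2,3,0x1808512613,645⟩,
  ⟨true,2,3,0x1808502615,647⟩,
  ⟨false,2,1,0x49f,1153⟩,
  ⟨true,1,3,0x1a1051268f,645⟩,
  ⟨true,1,3,0x1a10512691,645⟩,
  ⟨true,2,3,0x180851260d,645⟩,
  ⟨true,2,3,0x180850260f,647⟩,
  ⟨false,2,1,0x48b,1153⟩,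
  ⟨true,1,3,0x1a10512693,645⟩]

theorem fb3_3_2_chk : checkAll dbV4 fb3_3_2 fb3_3_2_d = true := by decide +kernel

def fb2_2_4 : List Fact := [
  ⟨[2,2,4],none,[[0,1],[1,0],[1,0,3,2]],3,false⟩,
  ⟨[2,2,4],none,[[1,0],[0,1],[0,2,3,1]],7,false⟩,
  ⟨[2,2,4],none,[[1,0],[0,1],[1,0,3,2]],1,false⟩,
  ⟨[2,2,4],none,[[1,0],[0,1],[2,3,0,1]],1,false⟩,
  ⟨[2,2,4],none,[[1,0],[1,0],[0,1,3,2]],7,false⟩,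
  ⟨[2,2,4],none,[[1,0],[1,0],[1,2,3,0]],7,false⟩,
  ⟨[2,2,4],none,[[1,0],[1,0],[3,0,1,2]],1,false⟩,
  ⟨[2,2,4],some 1,[[0,1],[0,1],[2,0,3,1]],7,false⟩,
  ⟨[2,2,4],some 1,[[0,1],[1,0],[1,0,3,2]],3,false⟩,
  ⟨[2,2,4],some 1,[[1,0],[0,1],[1,0,3,2]],1,false⟩,
  ⟨[2,2,4],some 1,[[1,0],[0,1],[2,1,3,0]],7,false⟩,
  ⟨[2,2,4],some 1,[[1,0],[1,0],[0,1,3,2]],7,false⟩,
  ⟨[2,2,4],some 1,[[1,0],[1,0],[3,0,1,2]],1,false⟩,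
  ⟨[2,2,4],some 3,[[0,1],[0,1],[2,0,3,1]],7,false⟩,
  ⟨[2,2,4],some 3,[[0,1],[1,0],[1,0,3,2]],3,false⟩,
  ⟨[2,2,4],some 3,[[1,0],[0,1],[1,0,3,2]],1,false⟩,
  ⟨[2,2,4],some 3,[[1,0],[0,1],[2,1,3,0]],7,false⟩,
  ⟨[2,2,4],some 3,[[1,0],[1,0],[0,1,3,2]],7,false⟩,
  ⟨[2,2,4],some 3,[[1,0],[1,0],[3,0,1,2]],1,false⟩,
  ⟨[2,2,4],some 5,[[0,1],[0,1],[2,0,3,1]],7,false⟩,
  ⟨[2,2,4],some 5,[[0,1],[1,0],[1,0,3,2]],3,false⟩,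
  ⟨[2,2,4],some 5,[[1,0],[0,1],[1,0,3,2]],1,false⟩,
  ⟨[2,2,4],some 5,[[1,0],[0,1],[2,1,3,0]],7,false⟩,
  ⟨[2,2,4],some 5,[[1,0],[1,0],[0,1,3,2]],7,false⟩,
  ⟨[2,2,4],some 5,[[1,0],[1,0],[3,0,1,2]],1,false⟩,
  ⟨[2,2,4],some 6,[[0,1],[0,1],[2,0,3,1]],7,false⟩,
  ⟨[2,2,4],some 6,[[0,1],[1,0],[1,0,3,2]],3,false⟩,
  ⟨[2,2,4],some 6,[[1,0],[0,1],[1,0,3,2]],1,false⟩,
  ⟨[2,2,4],some 6,[[1,0],[0,1],[2,1,3,0]],7,false⟩,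
  ⟨[2,2,4],some 6,[[1,0],[1,0],[0,1,3,2]],7,false⟩,
  ⟨[2,2,4],some 6,[[1,0],[1,0],[3,0,1,2]],1,false⟩,
  ⟨[2,2,4],some 7,[[0,1],[0,1],[2,0,3,1]],7,false⟩,
  ⟨[2,2,4],some 7,[[0,1],[1,0],[1,0,3,2]],3,false⟩,
  ⟨[2,2,4],some 7,[[1,0],[0,1],[1,0,3,2]],1,false⟩,
  ⟨[2,2,4],some 7,[[1,0],[0,1],[2,1,3,0]],7,false⟩,
  ⟨[2,2,4],some 7,[[1,0],[1,0],[0,1,3,2]],7,false⟩,
  ⟨[2,2,4],some 7,[[1,0],[1,0],[3,0,1,2]],1,false⟩]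

def fb2_2_4_d : List Der := [
  ⟨false,1,1,0x513,1283⟩,
  ⟨true,0,7,0xc1060e3062c00c1460e589,775⟩,
  ⟨false,0,1,0x513,1283⟩,
  ⟨false,0,1,0x511,1283⟩,
  ⟨true,0,7,0xc1060a3042c00c1c60e581,779⟩,
  ⟨false,2,7,0xc0460e3001808c28606689,1669⟩,
  ⟨false,0,1,0x513,1281⟩,
  ⟨true,0,7,0xc1060e3042c00c1c60e59f,771⟩,
  ⟨false,1,1,0x51b,1283⟩,
  ⟨false,0,1,0x513,1283⟩,
  ⟨false,2,7,0xc0c60e3001808c28606691,1669⟩,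
  ⟨true,0,7,0xc1060a3042c00c1c60e5a1,779⟩,
  ⟨false,0,1,0x513,1281⟩,
  ⟨true,0,7,0xc1060e3042c00c1c60e599,771⟩,
  ⟨false,1,1,0x513,1283⟩,
  ⟨false,0,1,0x51b,1283⟩,
  ⟨false,2,7,0xc0c60e3001808c28606695,1669⟩,
  ⟨true,0,7,0xc1060a3042c00c1c60e59b,779⟩,
  ⟨false,0,1,0x51b,1281⟩,
  ⟨true,0,7,0xc1060e3042c00c1c60e593,771⟩,
  ⟨false,1,1,0x523,1283⟩,
  ⟨false,0,1,0x523,1283⟩,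
  ⟨false,2,7,0xc0c60e3001808c28606689,1669⟩,
  ⟨true,0,7,0xc1060a3042c00c1c60e595,779⟩,
  ⟨false,0,1,0x523,1281⟩,
  ⟨true,0,7,0xc1060e3042c00c1c60e58d,771⟩,
  ⟨false,1,1,0x52b,1283⟩,
  ⟨false,0,1,0x52b,1283⟩,
  ⟨false,2,7,0xc0c60e3001808c28606699,1669⟩,
  ⟨true,0,7,0xc1060a3042c00c1c60e58f,779⟩,
  ⟨false,0,1,0x52b,1281⟩,
  ⟨true,0,7,0xc1060e3042c00c1c60e589,771⟩,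
  ⟨false,1,1,0x533,1283⟩,
  ⟨false,0,1,0x533,1283⟩,
  ⟨false,2,7,0xc0c60e3001808c2860669d,1669⟩,
  ⟨true,0,7,0xc1060a3042c00c1c60e581,779⟩,
  ⟨false,0,1,0x533,1281⟩]

theorem fb2_2_4_chk : checkAll dbV4 fb2_2_4 fb2_2_4_d = true := by decide +kernel

def fb2_2_2_3 : List Fact := [
  ⟨[2,2,2,3],none,[[0,1],[0,1],[1,0],[1,2,0]],8,false⟩,
  ⟨[2,2,2,3],none,[[0,1],[1,0],[1,0],[0,2,1]],3,false⟩,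
  ⟨[2,2,2,3],none,[[0,1],[1,0],[1,0],[0,2,1]],8,false⟩,
  ⟨[2,2,2,3],none,[[1,0],[0,1],[1,0],[0,2,1]],1,false⟩,
  ⟨[2,2,2,3],none,[[1,0],[0,1],[1,0],[2,1,0]],5,false⟩,
  ⟨[2,2,2,3],none,[[1,0],[1,0],[0,1],[2,1,0]],1,false⟩,
  ⟨[2,2,2,3],some 1,[[0,1],[1,0],[0,1],[1,2,0]],8,false⟩,
  ⟨[2,2,2,3],some 1,[[0,1],[1,0],[1,0],[0,2,1]],3,false⟩,
  ⟨[2,2,2,3],some 1,[[0,1],[1,0],[1,0],[0,2,1]],8,false⟩,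
  ⟨[2,2,2,3],some 1,[[1,0],[0,1],[1,0],[0,2,1]],1,false⟩,
  ⟨[2,2,2,3],some 1,[[1,0],[0,1],[1,0],[2,1,0]],5,false⟩,
  ⟨[2,2,2,3],some 1,[[1,0],[1,0],[0,1],[2,1,0]],1,false⟩,
  ⟨[2,2,2,3],some 3,[[0,1],[1,0],[0,1],[1,2,0]],8,false⟩,
  ⟨[2,2,2,3],some 3,[[0,1],[1,0],[1,0],[0,2,1]],3,false⟩,
  ⟨[2,2,2,3],some 3,[[0,1],[1,0],[1,0],[0,2,1]],8,false⟩,
  ⟨[2,2,2,3],some 3,[[1,0],[0,1],[1,0],[0,2,1]],1,false⟩,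
  ⟨[2,2,2,3],some 3,[[1,0],[0,1],[1,0],[2,1,0]],5,false⟩,
  ⟨[2,2,2,3],some 3,[[1,0],[1,0],[0,1],[2,1,0]],1,false⟩,
  ⟨[2,2,2,3],some 5,[[0,1],[1,0],[0,1],[1,2,0]],8,false⟩,
  ⟨[2,2,2,3],some 5,[[0,1],[1,0],[1,0],[0,2,1]],3,false⟩,
  ⟨[2,2,2,3],some 5,[[0,1],[1,0],[1,0],[0,2,1]],8,false⟩,
  ⟨[2,2,2,3],some 5,[[1,0],[0,1],[1,0],[0,2,1]],1,false⟩,
  ⟨[2,2,2,3],some 5,[[1,0],[0,1],[1,0],[2,1,0]],5,false⟩,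
  ⟨[2,2,2,3],some 5,[[1,0],[1,0],[0,1],[2,1,0]],1,false⟩,
  ⟨[2,2,2,3],some 7,[[0,1],[1,0],[0,1],[1,2,0]],8,false⟩,
  ⟨[2,2,2,3],some 7,[[0,1],[1,0],[1,0],[0,2,1]],3,false⟩,
  ⟨[2,2,2,3],some 7,[[0,1],[1,0],[1,0],[0,2,1]],8,false⟩,
  ⟨[2,2,2,3],some 7,[[1,0],[0,1],[1,0],[0,2,1]],1,false⟩,
  ⟨[2,2,2,3],some 7,[[1,0],[0,1],[1,0],[2,1,0]],5,false⟩,
  ⟨[2,2,2,3],some 7,[[1,0],[1,0],[0,1],[2,1,0]],1,false⟩,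
  ⟨[2,2,2,3],some 8,[[0,1],[1,0],[0,1],[1,2,0]],8,false⟩,
  ⟨[2,2,2,3],some 8,[[0,1],[1,0],[1,0],[0,2,1]],3,false⟩,
  ⟨[2,2,2,3],some 8,[[0,1],[1,0],[1,0],[0,2,1]],8,false⟩,
  ⟨[2,2,2,3],some 8,[[1,0],[0,1],[1,0],[0,2,1]],1,false⟩,
  ⟨[2,2,2,3],some 8,[[1,0],[0,1],[1,0],[2,1,0]],5,false⟩,
  ⟨[2,2,2,3],some 8,[[1,0],[1,0],[0,1],[2,1,0]],1,false⟩]

def fb2_2_2_3_d : List Der := [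
  ⟨true,0,3,0x1c1060270d,773⟩,
  ⟨false,1,1,0x68f,1669⟩,
  ⟨true,0,3,0x1c10602705,779⟩,
  ⟨false,0,1,0x68f,1669⟩,
  ⟨false,2,1,0x689,1667⟩,
  ⟨false,0,1,0x689,1667⟩,
  ⟨true,0,3,0x1c1060272b,771⟩,
  ⟨false,1,1,0x693,1669⟩,
  ⟨true,0,3,0x1c1060272f,779⟩,
  ⟨false,0,1,0x68f,1669⟩,
  ⟨false,2,1,0x691,1667⟩,
  ⟨false,0,1,0x689,1667⟩,
  ⟨true,0,3,0x1c10602723,771⟩,
  ⟨false,1,1,0x68f,1669⟩,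
  ⟨true,0,3,0x1c10602727,779⟩,
  ⟨false,0,1,0x693,1669⟩,
  ⟨false,2,1,0x695,1667⟩,
  ⟨false,0,1,0x691,1667⟩,
  ⟨true,0,3,0x1c1060271b,771⟩,
  ⟨false,1,1,0x697,1669⟩,
  ⟨true,0,3,0x1c1060271f,779⟩,
  ⟨false,0,1,0x697,1669⟩,
  ⟨false,2,1,0x689,1667⟩,
  ⟨false,0,1,0x695,1667⟩,
  ⟨true,0,3,0x1c10602713,771⟩,
  ⟨false,1,1,0x69b,1669⟩,
  ⟨true,0,3,0x1c10602717,779⟩,
  ⟨false,0,1,0x69b,1669⟩,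
  ⟨false,2,1,0x699,1667⟩,
  ⟨false,0,1,0x699,1667⟩,
  ⟨true,0,3,0x1c1060270d,771⟩,
  ⟨false,1,1,0x69f,1669⟩,
  ⟨true,0,3,0x1c10602705,779⟩,
  ⟨false,0,1,0x69f,1669⟩,
  ⟨false,2,1,0x69d,1667⟩,
  ⟨false,0,1,0x69d,1667⟩]

theorem fb2_2_2_3_chk : checkAll dbV4 fb2_2_2_3 fb2_2_2_3_d = true := by decide +kernel

end Pool.Agent.RS
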