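import Pool.Agent.RS.DbA

/-!
# RS: data base of facts, five bars, part 3
-/

set_option autoImplicit false
set_option maxRecDepth 100000

namespace Pool.Agent.RS

def fb3_4 : List Fact := [
  ⟨[3,4],none,[[0,1,2],[0,1,3,2]],6,false⟩,
  ⟨[3,4],none,[[0,2,1],[1,2,0,3]],2,false⟩,
  ⟨[3,4],none,[[1,0,2],[0,2,3,1]],6,false⟩,
  ⟨[3,4],none,[[1,2,0],[3,0,1,2]],2,false⟩,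
  ⟨[3,4],none,[[2,0,1],[0,3,2,1]],1,false⟩,
  ⟨[3,4],none,[[2,1,0],[2,1,3,0]],6,false⟩,
  ⟨[3,4],some 1,[[0,2,1],[0,2,3,1]],6,false⟩,
  ⟨[3,4],some 1,[[0,2,1],[1,2,0,3]],2,false⟩,
  ⟨[3,4],some 1,[[1,0,2],[1,0,3,2]],6,false⟩,
  ⟨[3,4],some 1,[[1,0,2],[2,0,1,3]],1,false⟩,
  ⟨[3,4],some 1,[[1,0,2],[3,1,0,2]],1,false⟩,
  ⟨[3,4],some 1,[[1,2,0],[1,0,2,3]],2,false⟩,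
  ⟨[3,4],some 1,[[1,2,0],[1,2,3,0]],6,false⟩,
  ⟨[3,4],some 1,[[2,0,1],[0,1,3,2]],1,false⟩,
  ⟨[3,4],some 2,[[0,2,1],[0,2,3,1]],6,false⟩,
  ⟨[3,4],some 2,[[0,2,1],[1,2,0,3]],2,false⟩,
  ⟨[3,4],some 2,[[1,0,2],[1,0,3,2]],6,false⟩,
  ⟨[3,4],some 2,[[1,0,2],[2,0,1,3]],1,false⟩,
  ⟨[3,4],some 2,[[1,0,2],[3,1,0,2]],1,false⟩,
  ⟨[3,4],some 2,[[1,2,0],[1,0,2,3]],2,false⟩,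
  ⟨[3,4],some 2,[[1,2,0],[1,2,3,0]],6,false⟩,
  ⟨[3,4],some 2,[[2,0,1],[0,1,3,2]],1,false⟩,
  ⟨[3,4],some 4,[[0,2,1],[0,2,3,1]],6,false⟩,
  ⟨[3,4],some 4,[[0,2,1],[1,2,0,3]],2,false⟩,
  ⟨[3,4],some 4,[[0,2,1],[2,1,3,0]],6,false⟩,
  ⟨[3,4],some 4,[[1,0,2],[1,0,3,2]],6,false⟩,
  ⟨[3,4],some 4,[[1,0,2],[3,1,0,2]],1,false⟩,
  ⟨[3,4],some 4,[[1,2,0],[1,0,2,3]],2,false⟩,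
  ⟨[3,4],some 4,[[2,0,1],[0,1,3,2]],1,false⟩,
  ⟨[3,4],some 5,[[0,2,1],[0,2,3,1]],6,false⟩,
  ⟨[3,4],some 5,[[0,2,1],[1,0,3,2]],6,false⟩,
  ⟨[3,4],some 5,[[0,2,1],[1,2,0,3]],2,false⟩,
  ⟨[3,4],some 5,[[1,0,2],[2,0,1,3]],1,false⟩,
  ⟨[3,4],some 5,[[1,0,2],[3,1,0,2]],1,false⟩,
  ⟨[3,4],some 5,[[1,2,0],[1,0,2,3]],2,false⟩,
  ⟨[3,4],some 5,[[1,2,0],[1,2,3,0]],6,false⟩,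
  ⟨[3,4],some 5,[[2,0,1],[0,1,3,2]],1,false⟩,
  ⟨[3,4],some 6,[[0,1,2],[0,1,3,2]],6,false⟩,
  ⟨[3,4],some 6,[[0,2,1],[1,2,0,3]],2,false⟩,
  ⟨[3,4],some 6,[[1,0,2],[3,1,0,2]],1,false⟩,
  ⟨[3,4],some 6,[[1,2,0],[1,0,2,3]],2,false⟩,
  ⟨[3,4],some 6,[[1,2,0],[1,2,3,0]],6,false⟩,
  ⟨[3,4],some 6,[[2,0,1],[0,1,3,2]],1,false⟩,
  ⟨[3,4],some 6,[[2,0,1],[2,0,3,1]],6,false⟩]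

def fb3_4_d : List Der := [
  ⟨true,0,7,0xa105122842410a1c51248d,641⟩,
  ⟨true,1,3,0x100030240f,391⟩,
  ⟨true,0,7,0xa105122842410a1c50248d,641⟩,
  ⟨true,1,3,0x1000302409,387⟩,
  ⟨false,0,3,0x1408306509,387⟩,
  ⟨false,1,7,0x81440e200100880041248d,1153⟩,
  ⟨true,0,7,0xa1050a2842410a1c50e49f,649⟩,
  ⟨true,1,3,0x100030242f,391⟩,
  ⟨true,0,7,0xa1050a2842410a1c5064a3,647⟩,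
  ⟨false,0,3,0x1408302513,385⟩,
  ⟨false,0,3,0x1408306513,391⟩,
  ⟨true,1,3,0x100030e42b,389⟩,
  ⟨false,1,7,0x81c402200100880040248f,1153⟩,
  ⟨false,0,3,0x140830a509,387⟩,
  ⟨true,0,7,0xa1050a2842410a1c50e499,649⟩,
  ⟨true,1,3,0x100030240f,391⟩,
  ⟨true,0,7,0xa1050a2842410a1c50649d,647⟩,
  ⟨false,0,3,0x140830251b,385⟩,
  ⟨false,0,3,0x140830651b,391⟩,
  ⟨true,1,3,0x100030e409,389⟩,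
  ⟨false,1,7,0x81c4022001008800402493,1153⟩,
  ⟨false,0,3,0x140830a515,387⟩,
  ⟨true,0,7,0xa1050a2842410a1c50e493,649⟩,
  ⟨true,1,3,0x1000302427,391⟩,
  ⟨false,1,7,0x80c40e200100880041248d,1153⟩,
  ⟨true,0,7,0xa1050a2842410a1c506497,647⟩,
  ⟨false,0,3,0x1408306523,391⟩,
  ⟨true,1,3,0x100030e423,389⟩,
  ⟨false,0,3,0x140830a51d,387⟩,
  ⟨true,0,7,0xa1050a2842410a1c50e48f,649⟩,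
  ⟨true,0,7,0xa1050a2842410a1c506491,647⟩,
  ⟨true,1,3,0x100030241f,391⟩,
  ⟨false,0,3,0x140830252b,385⟩,
  ⟨false,0,3,0x140830652b,391⟩,
  ⟨true,1,3,0x100030e41b,389⟩,
  ⟨false,1,7,0x81c4022001008800402499,1153⟩,
  ⟨false,0,3,0x140830a525,387⟩,
  ⟨true,0,7,0xa105122842410a1c51248d,641⟩,
  ⟨true,1,3,0x1000302417,391⟩,
  ⟨false,0,3,0x1408306533,391⟩,
  ⟨true,1,3,0x100030e413,389⟩,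
  ⟨false,1,7,0x81c402200100880040249f,1153⟩,
  ⟨false,0,3,0x140830a52d,387⟩,
  ⟨true,0,7,0xa1050e2842410a1c50248d,649⟩]

theorem fb3_4_chk : checkAll dbV4 fb3_4 fb3_4_d = true := by decide +kernel

def fb3_2_3 : List Fact := [
  ⟨[3,2,3],none,[[0,1,2],[1,0],[1,2,0]],7,false⟩,
  ⟨[3,2,3],none,[[0,2,1],[0,1],[1,2,0]],2,false⟩,
  ⟨[3,2,3],none,[[0,2,1],[1,0],[1,0,2]],2,false⟩,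
  ⟨[3,2,3],none,[[1,2,0],[1,0],[2,0,1]],2,false⟩,
  ⟨[3,2,3],none,[[2,0,1],[1,0],[0,1,2]],4,false⟩,
  ⟨[3,2,3],none,[[2,1,0],[1,0],[0,2,1]],7,false⟩,
  ⟨[3,2,3],some 1,[[0,2,1],[0,1],[1,2,0]],7,false⟩,
  ⟨[3,2,3],some 1,[[0,2,1],[1,0],[1,0,2]],2,false⟩,
  ⟨[3,2,3],some 1,[[1,2,0],[1,0],[2,0,1]],2,false⟩,
  ⟨[3,2,3],some 1,[[2,0,1],[0,1],[1,0,2]],1,false⟩,
  ⟨[3,2,3],some 1,[[2,0,1],[1,0],[0,1,2]],4,false⟩,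
  ⟨[3,2,3],some 1,[[2,1,0],[1,0],[0,2,1]],7,false⟩,
  ⟨[3,2,3],some 2,[[0,2,1],[0,1],[1,2,0]],7,false⟩,
  ⟨[3,2,3],some 2,[[0,2,1],[1,0],[1,0,2]],2,false⟩,
  ⟨[3,2,3],some 2,[[1,2,0],[1,0],[2,0,1]],2,false⟩,
  ⟨[3,2,3],some 2,[[2,0,1],[0,1],[1,0,2]],1,false⟩,
  ⟨[3,2,3],some 2,[[2,0,1],[1,0],[0,1,2]],4,false⟩,
  ⟨[3,2,3],some 2,[[2,1,0],[1,0],[0,2,1]],7,false⟩,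
  ⟨[3,2,3],some 4,[[0,2,1],[0,1],[1,2,0]],7,false⟩,
  ⟨[3,2,3],some 4,[[0,2,1],[1,0],[1,0,2]],2,false⟩,
  ⟨[3,2,3],some 4,[[1,2,0],[1,0],[2,0,1]],2,false⟩,
  ⟨[3,2,3],some 4,[[2,0,1],[0,1],[1,0,2]],1,false⟩,
  ⟨[3,2,3],some 4,[[2,0,1],[1,0],[0,1,2]],4,false⟩,
  ⟨[3,2,3],some 4,[[2,1,0],[1,0],[0,2,1]],7,false⟩,
  ⟨[3,2,3],some 6,[[0,2,1],[0,1],[1,2,0]],7,false⟩,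
  ⟨[3,2,3],some 6,[[0,2,1],[1,0],[1,0,2]],2,false⟩,
  ⟨[3,2,3],some 6,[[1,2,0],[1,0],[2,0,1]],2,false⟩,
  ⟨[3,2,3],some 6,[[2,0,1],[0,1],[1,0,2]],1,false⟩,
  ⟨[3,2,3],some 6,[[2,0,1],[1,0],[0,1,2]],4,false⟩,
  ⟨[3,2,3],some 6,[[2,1,0],[1,0],[0,2,1]],7,false⟩,
  ⟨[3,2,3],some 7,[[0,2,1],[0,1],[1,2,0]],7,false⟩,
  ⟨[3,2,3],some 7,[[0,2,1],[1,0],[1,0,2]],2,false⟩,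
  ⟨[3,2,3],some 7,[[1,2,0],[1,0],[2,0,1]],2,false⟩,
  ⟨[3,2,3],some 7,[[2,0,1],[0,1],[1,0,2]],1,false⟩,
  ⟨[3,2,3],some 7,[[2,0,1],[1,0],[0,1,2]],4,false⟩,
  ⟨[3,2,3],some 7,[[2,1,0],[1,0],[0,2,1]],7,false⟩]

def fb3_2_3_d : List Der := [
  ⟨true,0,3,0x1a08512689,643⟩,
  ⟨true,2,3,0x1610412589,513⟩,
  ⟨true,2,3,0x1610412589,517⟩,
  ⟨true,2,3,0x161040e581,515⟩,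
  ⟨false,1,1,0x48b,1153⟩,
  ⟨true,0,3,0x1a0851268f,645⟩,
  ⟨true,0,3,0x1a0851269d,645⟩,
  ⟨true,2,3,0x161041259f,517⟩,
  ⟨true,2,3,0x16104125a1,517⟩,
  ⟨false,0,3,0x1a08512689,645⟩,
  ⟨false,1,1,0x48f,1153⟩,
  ⟨true,0,3,0x1a0851269f,645⟩,
  ⟨true,0,3,0x1a08512699,645⟩,
  ⟨true,2,3,0x1610412589,517⟩,
  ⟨true,2,3,0x1610412581,517⟩,
  ⟨false,0,3,0x1a08512691,645⟩,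
  ⟨false,1,1,0x493,1153⟩,
  ⟨true,0,3,0x1a0851269b,645⟩,
  ⟨true,0,3,0x1a08512695,645⟩,
  ⟨true,2,3,0x1610412599,517⟩,
  ⟨true,2,3,0x161041259b,517⟩,
  ⟨false,0,3,0x1a08512695,645⟩,
  ⟨false,1,1,0x48b,1153⟩,
  ⟨true,0,3,0x1a08512697,645⟩,
  ⟨true,0,3,0x1a08512691,645⟩,
  ⟨true,2,3,0x1610412593,517⟩,
  ⟨true,2,3,0x1610412595,517⟩,
  ⟨false,0,3,0x1a08512699,645⟩,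
  ⟨false,1,1,0x499,1153⟩,
  ⟨true,0,3,0x1a08512693,645⟩,
  ⟨true,0,3,0x1a08512689,645⟩,
  ⟨true,2,3,0x161041258d,517⟩,
  ⟨true,2,3,0x161041258f,517⟩,
  ⟨false,0,3,0x1a0851269d,645⟩,
  ⟨false,1,1,0x49f,1153⟩,
  ⟨true,0,3,0x1a0851268f,645⟩]

theorem fb3_2_3_chk : checkAll dbV4 fb3_2_3 fb3_2_3_d = true := by decide +kernel

def fb3_2_2_2 : List Fact := [
  ⟨[3,2,2,2],none,[[0,2,1],[0,1],[1,0],[1,0]],2,false⟩,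
  ⟨[3,2,2,2],none,[[1,0,2],[0,1],[1,0],[1,0]],6,false⟩,
  ⟨[3,2,2,2],none,[[1,0,2],[0,1],[1,0],[1,0]],8,false⟩,
  ⟨[3,2,2,2],none,[[1,2,0],[0,1],[0,1],[1,0]],2,false⟩,
  ⟨[3,2,2,2],none,[[1,2,0],[1,0],[0,1],[0,1]],4,false⟩,
  ⟨[3,2,2,2],none,[[2,1,0],[1,0],[0,1],[1,0]],4,false⟩,
  ⟨[3,2,2,2],some 1,[[0,2,1],[0,1],[1,0],[1,0]],2,false⟩,
  ⟨[3,2,2,2],some 1,[[1,0,2],[0,1],[1,0],[1,0]],6,false⟩,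
  ⟨[3,2,2,2],some 1,[[1,0,2],[0,1],[1,0],[1,0]],8,false⟩,
  ⟨[3,2,2,2],some 1,[[1,2,0],[1,0],[0,1],[0,1]],4,false⟩,
  ⟨[3,2,2,2],some 1,[[1,2,0],[1,0],[1,0],[1,0]],2,false⟩,
  ⟨[3,2,2,2],some 1,[[2,1,0],[1,0],[0,1],[1,0]],4,false⟩,
  ⟨[3,2,2,2],some 2,[[0,2,1],[0,1],[1,0],[1,0]],2,false⟩,
  ⟨[3,2,2,2],some 2,[[1,0,2],[0,1],[1,0],[1,0]],6,false⟩,
  ⟨[3,2,2,2],some 2,[[1,0,2],[0,1],[1,0],[1,0]],8,false⟩,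
  ⟨[3,2,2,2],some 2,[[1,2,0],[1,0],[0,1],[0,1]],4,false⟩,
  ⟨[3,2,2,2],some 2,[[1,2,0],[1,0],[1,0],[1,0]],2,false⟩,
  ⟨[3,2,2,2],some 2,[[2,1,0],[1,0],[0,1],[1,0]],4,false⟩,
  ⟨[3,2,2,2],some 4,[[0,2,1],[0,1],[1,0],[1,0]],2,false⟩,
  ⟨[3,2,2,2],some 4,[[1,0,2],[0,1],[1,0],[1,0]],6,false⟩,
  ⟨[3,2,2,2],some 4,[[1,0,2],[0,1],[1,0],[1,0]],8,false⟩,
  ⟨[3,2,2,2],some 4,[[1,2,0],[1,0],[0,1],[0,1]],4,false⟩,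
  ⟨[3,2,2,2],some 4,[[1,2,0],[1,0],[1,0],[1,0]],2,false⟩,
  ⟨[3,2,2,2],some 4,[[2,1,0],[1,0],[0,1],[1,0]],4,false⟩,
  ⟨[3,2,2,2],some 6,[[0,2,1],[0,1],[1,0],[1,0]],2,false⟩,
  ⟨[3,2,2,2],some 6,[[1,0,2],[0,1],[1,0],[1,0]],6,false⟩,
  ⟨[3,2,2,2],some 6,[[1,0,2],[0,1],[1,0],[1,0]],8,false⟩,
  ⟨[3,2,2,2],some 6,[[1,2,0],[1,0],[0,1],[0,1]],4,false⟩,
  ⟨[3,2,2,2],some 6,[[1,2,0],[1,0],[1,0],[1,0]],2,false⟩,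
  ⟨[3,2,2,2],some 6,[[2,1,0],[1,0],[0,1],[1,0]],4,false⟩,
  ⟨[3,2,2,2],some 8,[[0,2,1],[0,1],[1,0],[1,0]],2,false⟩,
  ⟨[3,2,2,2],some 8,[[1,0,2],[0,1],[1,0],[1,0]],6,false⟩,
  ⟨[3,2,2,2],some 8,[[1,0,2],[0,1],[1,0],[1,0]],8,false⟩,
  ⟨[3,2,2,2],some 8,[[1,2,0],[1,0],[0,1],[0,1]],4,false⟩,
  ⟨[3,2,2,2],some 8,[[1,2,0],[1,0],[1,0],[1,0]],2,false⟩,
  ⟨[3,2,2,2],some 8,[[2,1,0],[1,0],[0,1],[1,0]],4,false⟩]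

def fb3_2_2_2_d : List Der := [
  ⟨true,3,3,0x1c0860270d,771⟩,
  ⟨false,2,1,0x589,1411⟩,
  ⟨false,3,1,0x589,1411⟩,
  ⟨true,3,3,0x1c08606705,779⟩,
  ⟨false,1,1,0x589,1413⟩,
  ⟨false,1,1,0x589,1409⟩,
  ⟨true,3,3,0x1c0860272b,771⟩,
  ⟨false,2,1,0x58d,1411⟩,
  ⟨false,3,1,0x58d,1411⟩,
  ⟨false,1,1,0x58d,1413⟩,
  ⟨true,3,3,0x1c0860272f,779⟩,
  ⟨false,1,1,0x58d,1409⟩,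
  ⟨true,3,3,0x1c0860270d,771⟩,
  ⟨false,2,1,0x593,1411⟩,
  ⟨false,3,1,0x593,1411⟩,
  ⟨false,1,1,0x593,1413⟩,
  ⟨true,3,3,0x1c08602705,779⟩,
  ⟨false,1,1,0x593,1409⟩,
  ⟨true,3,3,0x1c08602723,771⟩,
  ⟨false,2,1,0x599,1411⟩,
  ⟨false,3,1,0x599,1411⟩,
  ⟨false,1,1,0x589,1413⟩,
  ⟨true,3,3,0x1c08602727,779⟩,
  ⟨false,1,1,0x589,1409⟩,
  ⟨true,3,3,0x1c0860271b,771⟩,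
  ⟨false,2,1,0x589,1411⟩,
  ⟨false,3,1,0x59f,1411⟩,
  ⟨false,1,1,0x599,1413⟩,
  ⟨true,3,3,0x1c0860271f,779⟩,
  ⟨false,1,1,0x599,1409⟩,
  ⟨true,3,3,0x1c08602713,771⟩,
  ⟨false,2,1,0x59f,1411⟩,
  ⟨false,3,1,0x589,1411⟩,
  ⟨false,1,1,0x59f,1413⟩,
  ⟨true,3,3,0x1c08602717,779⟩,
  ⟨false,1,1,0x59f,1409⟩]

theorem fb3_2_2_2_chk : checkAll dbV4 fb3_2_2_2 fb3_2_2_2_d = true := by decide +kernel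

def fb2_2_2_2_2 : List Fact := [
  ⟨[2,2,2,2,2],none,[[0,1],[1,0],[0,1],[0,1],[0,1]],3,false⟩,
  ⟨[2,2,2,2,2],none,[[1,0],[0,1],[0,1],[0,1],[0,1]],1,false⟩,
  ⟨[2,2,2,2,2],none,[[1,0],[0,1],[0,1],[1,0],[1,0]],7,false⟩,
  ⟨[2,2,2,2,2],none,[[1,0],[0,1],[0,1],[1,0],[1,0]],9,false⟩,
  ⟨[2,2,2,2,2],none,[[1,0],[0,1],[1,0],[0,1],[1,0]],5,false⟩,
  ⟨[2,2,2,2,2],none,[[1,0],[1,0],[0,1],[0,1],[1,0]],1,false⟩,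
  ⟨[2,2,2,2,2],some 1,[[0,1],[1,0],[0,1],[0,1],[0,1]],3,false⟩,
  ⟨[2,2,2,2,2],some 1,[[1,0],[0,1],[0,1],[0,1],[0,1]],1,false⟩,
  ⟨[2,2,2,2,2],some 1,[[1,0],[0,1],[0,1],[1,0],[1,0]],7,false⟩,
  ⟨[2,2,2,2,2],some 1,[[1,0],[0,1],[0,1],[1,0],[1,0]],9,false⟩,
  ⟨[2,2,2,2,2],some 1,[[1,0],[0,1],[1,0],[0,1],[1,0]],5,false⟩,
  ⟨[2,2,2,2,2],some 1,[[1,0],[1,0],[0,1],[0,1],[1,0]],1,false⟩,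
  ⟨[2,2,2,2,2],some 3,[[0,1],[1,0],[0,1],[0,1],[0,1]],3,false⟩,
  ⟨[2,2,2,2,2],some 3,[[1,0],[0,1],[0,1],[0,1],[0,1]],1,false⟩,
  ⟨[2,2,2,2,2],some 3,[[1,0],[0,1],[0,1],[1,0],[1,0]],7,false⟩,
  ⟨[2,2,2,2,2],some 3,[[1,0],[0,1],[0,1],[1,0],[1,0]],9,false⟩,
  ⟨[2,2,2,2,2],some 3,[[1,0],[0,1],[1,0],[0,1],[1,0]],5,false⟩,
  ⟨[2,2,2,2,2],some 3,[[1,0],[1,0],[0,1],[0,1],[1,0]],1,false⟩,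
  ⟨[2,2,2,2,2],some 5,[[0,1],[1,0],[0,1],[0,1],[0,1]],3,false⟩,
  ⟨[2,2,2,2,2],some 5,[[1,0],[0,1],[0,1],[0,1],[0,1]],1,false⟩,
  ⟨[2,2,2,2,2],some 5,[[1,0],[0,1],[0,1],[1,0],[1,0]],7,false⟩,
  ⟨[2,2,2,2,2],some 5,[[1,0],[0,1],[0,1],[1,0],[1,0]],9,false⟩,
  ⟨[2,2,2,2,2],some 5,[[1,0],[0,1],[1,0],[0,1],[1,0]],5,false⟩,
  ⟨[2,2,2,2,2],some 5,[[1,0],[1,0],[0,1],[0,1],[1,0]],1,false⟩,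
  ⟨[2,2,2,2,2],some 7,[[0,1],[1,0],[0,1],[0,1],[0,1]],3,false⟩,
  ⟨[2,2,2,2,2],some 7,[[1,0],[0,1],[0,1],[0,1],[0,1]],1,false⟩,
  ⟨[2,2,2,2,2],some 7,[[1,0],[0,1],[0,1],[1,0],[1,0]],7,false⟩,
  ⟨[2,2,2,2,2],some 7,[[1,0],[0,1],[0,1],[1,0],[1,0]],9,false⟩,
  ⟨[2,2,2,2,2],some 7,[[1,0],[0,1],[1,0],[0,1],[1,0]],5,false⟩,
  ⟨[2,2,2,2,2],some 7,[[1,0],[1,0],[0,1],[0,1],[1,0]],1,false⟩,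
  ⟨[2,2,2,2,2],some 9,[[0,1],[1,0],[0,1],[0,1],[0,1]],3,false⟩,
  ⟨[2,2,2,2,2],some 9,[[1,0],[0,1],[0,1],[0,1],[0,1]],1,false⟩,
  ⟨[2,2,2,2,2],some 9,[[1,0],[0,1],[0,1],[1,0],[1,0]],7,false⟩,
  ⟨[2,2,2,2,2],some 9,[[1,0],[0,1],[0,1],[1,0],[1,0]],9,false⟩,
  ⟨[2,2,2,2,2],some 9,[[1,0],[0,1],[1,0],[0,1],[1,0]],5,false⟩,
  ⟨[2,2,2,2,2],some 9,[[1,0],[1,0],[0,1],[0,1],[1,0]],1,false⟩]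

def fb2_2_2_2_2_d : List Der := [
  ⟨false,1,1,0x705,1797⟩,
  ⟨false,0,1,0x705,1797⟩,
  ⟨false,3,1,0x70d,1797⟩,
  ⟨false,4,1,0x70d,1797⟩,
  ⟨false,2,1,0x70d,1797⟩,
  ⟨false,0,1,0x70d,1797⟩,
  ⟨false,1,1,0x717,1797⟩,
  ⟨false,0,1,0x705,1797⟩,
  ⟨false,3,1,0x713,1797⟩,
  ⟨false,4,1,0x713,1797⟩,
  ⟨false,2,1,0x713,1797⟩,
  ⟨false,0,1,0x70d,1797⟩,
  ⟨false,1,1,0x705,1797⟩,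
  ⟨false,0,1,0x717,1797⟩,
  ⟨false,3,1,0x71b,1797⟩,
  ⟨false,4,1,0x71b,1797⟩,
  ⟨false,2,1,0x71b,1797⟩,
  ⟨false,0,1,0x713,1797⟩,
  ⟨false,1,1,0x71f,1797⟩,
  ⟨false,0,1,0x71f,1797⟩,
  ⟨false,3,1,0x723,1797⟩,
  ⟨false,4,1,0x723,1797⟩,
  ⟨false,2,1,0x70d,1797⟩,
  ⟨false,0,1,0x71b,1797⟩,
  ⟨false,1,1,0x727,1797⟩,
  ⟨false,0,1,0x727,1797⟩,
  ⟨false,3,1,0x70d,1797⟩,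
  ⟨false,4,1,0x72b,1797⟩,
  ⟨false,2,1,0x723,1797⟩,
  ⟨false,0,1,0x723,1797⟩,
  ⟨false,1,1,0x72f,1797⟩,
  ⟨false,0,1,0x72f,1797⟩,
  ⟨false,3,1,0x72b,1797⟩,
  ⟨false,4,1,0x70d,1797⟩,
  ⟨false,2,1,0x72b,1797⟩,
  ⟨false,0,1,0x72b,1797⟩]

theorem fb2_2_2_2_2_chk : checkAll dbV4 fb2_2_2_2_2 fb2_2_2_2_2_d = true := by decide +kernel

end Pool.Agent.RS
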