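import Pool.Agent.RS.DbAc
import Pool.Agent.RS.DbB0
import Pool.Agent.RS.DbB1
import Pool.Agent.RS.DbB2
import Pool.Agent.RS.DbB3

/-!
# RS: the data base gives all prescribed ends
-/

set_option autoImplicit false
set_option maxRecDepth 100000

namespace Pool.Agent.RS

/-- facts with four bars -/
def fs4 : List Fact := fb2_2_2_2 ++ (fb2_2_3 ++ (fb2_3_2 ++ (fb2_4 ++ (fb3_2_2 ++ (fb3_3 ++ (fb4_2 ++ (fb5)))))))

/-- facts with five bars -/
def fs5 : List Fact := fb2_2_2_2_2 ++ (fb2_2_2_3 ++ (fb2_2_3_2 ++ (fb2_2_4 ++ (fb2_3_2_2 ++ (fb2_3_3 ++ (fb2_4_2 ++ (fb2_5 ++ (fb3_2_2_2 ++ (fb3_2_3 ++ (fb3_3_2 ++ (fb3_4 ++ (fb4_2_2 ++ (fb4_3 ++ (fb5_2 ++ (fb6)))))))))))))))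

theorem e4_chk : (compsL 4 4).all (fun ks => reqOK fs4 ks none) = true := by decide +kernel

theorem e5_chk : (compsL 5 5).all (fun ks => reqOK fs5 ks none &&
    (movL 0 ks).all (fun b => reqOK fs5 ks (some b))) = true := by decide +kernel

end Pool.Agent.RS
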