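import Mathlib

/-!
# Rhombic strips of permutahedra (MP_963701_co): basic definitions (helper95)

A *word* `w : List ℕ` is an arrangement of distinct letters; the *bar* `b` (`0 < b < w.length`)
stands for the set `pre w b` of the first `b` letters. A *flag* is a word together with a list `s`
of bars (all different, bottom first): its faces are the chains of sets given by the nonempty
suffixes of `s`. The finite set `Pi` is the set of the bars which may be moved; the bars of `s`
outside `Pi` (the ε-bars) and the positions which are not in `s` (the permanent bars) are fixed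
sets. `AF Pi X` is the set of all faces: the nonempty chains of sets whose cardinality is in `X.s`
and which are comparable with every fixed set.
-/

set_option autoImplicit false

namespace Pool.Agent.RS

open Finset

/-- a face: a chain of sets of letters -/
abbrev Face := Finset (Finset ℕ)

/-- the set of the first `b` letters of the word `w` -/
def pre (w : List ℕ) (b : ℕ) : Finset ℕ := (w.take b).toFinset

/-- the chain of the sets `pre w b`, `b ∈ s` -/
def fc (w s : List ℕ) : Face := (s.map (pre w)).toFinset

/-- the faces of a flag, rank `1` first: the chains of the nonempty suffixes of `s` -/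
def faces (w : List ℕ) : List ℕ → List Face
  | [] => []
  | b :: s => fc w (b :: s) :: faces w s

/-- a flag: word and order of the bars (the first bar of `s` is the bottom, the last is the top) -/
@[ext] structure Fl where
  w : List ℕ
  s : List ℕ

/-- one step of a walk, with the new face. `word`: the bottom bar lies in `Pi`, the two letters at
this bar are exchanged. `order`: two neighbouring bars in the order are exchanged. -/
inductive Step (Pi : Finset ℕ) : Fl → Fl → Face → Prop
  | word (u v s : List ℕ) (x y : ℕ) (h : u.length + 1 ∈ Pi) :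
      Step Pi ⟨u ++ x :: y :: v, (u.length + 1) :: s⟩ ⟨u ++ y :: x :: v, (u.length + 1) :: s⟩
        (fc (u ++ y :: x :: v) ((u.length + 1) :: s))
  | order (w t s : List ℕ) (a b : ℕ) :
      Step Pi ⟨w, t ++ a :: b :: s⟩ ⟨w, t ++ b :: a :: s⟩ (fc w (a :: s))

/-- a walk with the list of its new faces -/
inductive Walk (Pi : Finset ℕ) : Fl → Fl → List Face → Prop
  | nil (X : Fl) : Walk Pi X X []
  | cons {X Y Z : Fl} {F : Face} {L : List Face} :
      Step Pi X Y F → Walk Pi Y Z L → Walk Pi X Z (F :: L)

/-- well formed flags -/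
structure Good (Pi : Finset ℕ) (X : Fl) : Prop where
  wn : X.w.Nodup
  sn : X.s.Nodup
  sub : ∀ b ∈ Pi, b ∈ X.s
  pos : ∀ b ∈ X.s, 0 < b
  lt : ∀ b ∈ X.s, b < X.w.length

/-- the sets which may occur in a face -/
def OKS (Pi : Finset ℕ) (X : Fl) (S : Finset ℕ) : Prop :=
  S.card ∈ X.s ∧ S ⊆ X.w.toFinset ∧ ∀ b, b ∉ Pi → S ⊆ pre X.w b ∨ pre X.w b ⊆ S

/-- all faces of the configuration `(Pi, X)` -/
def AF (Pi : Finset ℕ) (X : Fl) (F : Face) : Prop :=
  F.Nonempty ∧ (∀ S ∈ F, OKS Pi X S) ∧ ∀ S ∈ F, ∀ T ∈ F, S ⊆ T ∨ T ⊆ S

/-- a path strip from `X` to `Y`: a walk such that the faces of `X` and the new faces are all faces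
of the configuration, each exactly once -/
def Strip (Pi : Finset ℕ) (X Y : Fl) : Prop :=
  ∃ L, Walk Pi X Y L ∧ (faces X.w X.s ++ L).Nodup ∧ ∀ F, F ∈ faces X.w X.s ++ L ↔ AF Pi X F

/-- a closed strip: a closed walk whose new faces are all faces, each exactly once -/
def Closed (Pi : Finset ℕ) (X : Fl) : Prop :=
  ∃ L, Walk Pi X X L ∧ L.Nodup ∧ ∀ F, F ∈ L ↔ AF Pi X F

/-- two flags of the same configuration -/
structure Same (Pi : Finset ℕ) (X Y : Fl) : Prop where
  w : Y.w.Perm X.w
  s : Y.s.Perm X.s
  fix : ∀ b, b ∉ Pi → pre Y.w b = pre X.w b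

/-- the positions `a, …, a + k - 1` form a component: the bars `a + 1, …, a + k - 1` are in `Pi`,
`a` and `a + k` are not -/
structure IsComp (Pi : Finset ℕ) (X : Fl) (a k : ℕ) : Prop where
  one : 1 ≤ k
  le : a + k ≤ X.w.length
  left : a ∉ Pi
  right : a + k ∉ Pi
  mem : ∀ b, a < b → b < a + k → b ∈ Pi

/-- allowed prescriptions for the lowest bars of the end flag: at most two different ε-bars -/
structure Low (Pi : Finset ℕ) (X : Fl) (low : List ℕ) : Prop where
  nd : low.Nodup
  len : low.length ≤ 2
  mem : ∀ β ∈ low, β ∈ X.s ∧ β ∉ Pi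

/-- one can end with a prescribed first letter `x` of the component `(a, k)` and prescribed lowest
bars -/
def EUc (Pi : Finset ℕ) (X : Fl) (a k : ℕ) : Prop :=
  ∀ (x : ℕ) (low : List ℕ), (∃ i, i < k ∧ X.w[a + i]? = some x) → Low Pi X low →
    ∃ Y, Strip Pi X Y ∧ low <+: Y.s ∧ Y.w[a]? = some x

/-- one can end with a prescribed last letter `y` of the component `(a, k)` (`y` is not the last
letter `λ` of this component in `X`), with `λ` as its second to last letter, the last bar of the
component on the top, and prescribed lowest bars -/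
def ELc (Pi : Finset ℕ) (X : Fl) (a k : ℕ) : Prop :=
  ∀ (y : ℕ) (low : List ℕ), (∃ i, i + 1 < k ∧ X.w[a + i]? = some y) → Low Pi X low →
    ∃ Y, Strip Pi X Y ∧ low <+: Y.s ∧ Y.s.getLast? = some (a + k - 1) ∧
      Y.w[a + k - 1]? = some y ∧ Y.w[a + k - 2]? = X.w[a + k - 1]?

def EU (Pi : Finset ℕ) (X : Fl) : Prop := ∀ a k : ℕ, IsComp Pi X a k → EUc Pi X a k

def EL (Pi : Finset ℕ) (X : Fl) : Prop := ∀ a k : ℕ, 2 ≤ k → IsComp Pi X a k → ELc Pi X a k

/-- reflection: reversed word, bar `b` becomes `N - b` -/
def Fl.refl (X : Fl) : Fl := ⟨X.w.reverse, X.s.map (fun b => X.w.length - b)⟩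

/-- reflection of `Pi` for words of length `N` -/
def reflPi (N : ℕ) (Pi : Finset ℕ) : Finset ℕ := Pi.image (fun b => N - b)

/-- the set `Pi` of the phase in which exactly `n` letters of the component starting at `a` stand
before the letter `z` (so `z` is at position `a + n`) -/
def subPi (Pi : Finset ℕ) (a n : ℕ) : Finset ℕ := (Pi.erase (a + n)).erase (a + n + 1)

/-- exchange of the two letters at the bar `b` (positions `b - 1` and `b`) -/
def swp (w : List ℕ) (b : ℕ) : List ℕ :=
  w.take (b - 1) ++ ((w.drop b).take 1 ++ ((w.drop (b - 1)).take 1 ++ w.drop (b + 1)))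

/-- in the phase with `n` letters before `z` the bar `a + n` is on the top of the order if `0 < n` -/
def top (a n : ℕ) : List ℕ := if n = 0 then [] else [a + n]

/-- the bottom bar is an ε-bar -/
def HeadEps (Pi : Finset ℕ) (X : Fl) : Prop := ∃ b s, X.s = b :: s ∧ b ∉ Pi

/-- the letters of the component `(a, k)` without `z` -/
def compS (X : Fl) (a k z : ℕ) : Finset ℕ := (pre X.w (a + k) \ pre X.w a).erase z

/-- the union of `base` and of the sets of the chain `F` which do not contain `z` -/
def az (base : Finset ℕ) (z : ℕ) (F : Face) : Finset ℕ :=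
  base ∪ (F.filter (fun S => z ∉ S)).sup id

/-- `A` is the set of the letters of the component (starting at `a`, with `k` letters) before `z`,
`X'` is a flag of the phase of `A` (without the bar `a + n` on the top) -/
structure PhaseAt (Pi : Finset ℕ) (X : Fl) (a k z : ℕ) (A : Finset ℕ) (X' : Fl) : Prop where
  good : Good (subPi Pi a A.card) X'
  same : Same Pi X ⟨X'.w, X'.s ++ top a A.card⟩
  lt : A.card < k
  atz : X'.w[a + A.card]? = some z
  disj : Disjoint (pre X.w a) A
  pre : pre X'.w (a + A.card) = pre X.w a ∪ A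

/-- there is a walk from `X` to `Y` which visits exactly the faces of the phases in `vis` and the
faces of `Y` -/
def RunS (Pi : Finset ℕ) (X : Fl) (a z : ℕ) (vis : Finset (Finset ℕ)) (Y : Fl) : Prop :=
  ∃ L, Walk Pi X Y L ∧ (faces X.w X.s ++ L).Nodup ∧
    ∀ F, F ∈ faces X.w X.s ++ L ↔
      (AF Pi X F ∧ ∃ A ∈ vis, az (pre X.w a) z F = pre X.w a ∪ A) ∨ F ∈ faces Y.w Y.s

/-- there is a walk from `X` to `Y` which visits exactly the faces of the phases in `vis` -/
def RunE (Pi : Finset ℕ) (X : Fl) (a z : ℕ) (vis : Finset (Finset ℕ)) (Y : Fl) : Prop :=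
  ∃ L, Walk Pi X Y L ∧ (faces X.w X.s ++ L).Nodup ∧
    ∀ F, F ∈ faces X.w X.s ++ L ↔ (AF Pi X F ∧ ∃ A ∈ vis, az (pre X.w a) z F = pre X.w a ∪ A)

/-- a flip: `(true, x)` adds `x`, `(false, x)` removes `x` -/
abbrev Flip := Bool × ℕ

def flip (A : Finset ℕ) (f : Flip) : Finset ℕ := if f.1 then insert f.2 A else A.erase f.2

/-- the flips are possible, inside the subsets of `S` -/
def StepsOK (S : Finset ℕ) : Finset ℕ → List Flip → Prop
  | _, [] => True
  | A, (true, x) :: fs => x ∈ S ∧ x ∉ A ∧ StepsOK S (insert x A) fs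
  | A, (false, y) :: fs => y ∈ A ∧ StepsOK S (A.erase y) fs

/-- the sets after the flips -/
def setsOf : Finset ℕ → List Flip → List (Finset ℕ)
  | _, [] => []
  | A, f :: fs => flip A f :: setsOf (flip A f) fs

/-- the last set -/
def endOf : Finset ℕ → List Flip → Finset ℕ
  | A, [] => A
  | A, f :: fs => endOf (flip A f) fs

/-- the letter added last is not removed before the next letter is added (except as the last
letter); `lam` is the letter which is the last one in the arrangement of `A` -/
def LamOK : Finset ℕ → Option ℕ → List Flip → Prop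
  | _, _, [] => True
  | A, _, (true, x) :: fs => LamOK (insert x A) (some x) fs
  | A, lam, (false, y) :: fs => (2 ≤ A.card → lam ≠ some y) ∧ LamOK (A.erase y) lam fs

/-- the letter added last -/
def lamEnd : Option ℕ → List Flip → Option ℕ
  | lam, [] => lam
  | _, (true, x) :: fs => lamEnd (some x) fs
  | lam, (false, _) :: fs => lamEnd lam fs

/-- the possible start flags of the phase of `A` in a run which starts in `X` -/
structure St (Pi : Finset ℕ) (X : Fl) (a k z : ℕ) (A : Finset ℕ) (X' : Fl) : Prop where
  ph : PhaseAt Pi X a k z A X'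
  zero : A = ∅ → X' = X
  eps : A.Nonempty → (∃ β ∈ X.s, β ∉ Pi) → HeadEps (subPi Pi a A.card) X'
  full : 2 ≤ A.card → A.card + 1 = k → X'.s.getLast? = some (a + A.card - 1)

/-- number of inversions -/
def inv : List ℕ → ℕ
  | [] => 0
  | x :: l => l.countP (fun y => decide (y < x)) + inv l

end Pool.Agent.RS
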