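import Pool.Agent.RS.Refl

/-!
# RS module ReflE: mirrored forms of `EUc`, `ELc`
-/

set_option autoImplicit false

namespace Pool.Agent.RS

open Finset

section

variable {Pi : Finset ℕ} {X Y : Fl} {a k : ℕ}

namespace ReflEAux

theorem low_le (g : Good Pi X) {low : List ℕ} (hl : Low Pi X low) :
    ∀ b ∈ low, b ≤ X.w.length := fun b hb => (g.lt b (hl.mem b hb).1).le

theorem low_refl (g : Good Pi X) {low : List ℕ} (hl : Low Pi X low) :
    Low (reflPi X.w.length Pi) X.refl (low.map (fun b => X.w.length - b)) := by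
  have hle := low_le g hl
  refine ⟨?_, ?_, ?_⟩
  · refine List.Nodup.map_on ?_ hl.nd
    intro b hb c hc h
    have h1 := hle b hb
    have h2 := hle c hc
    omega
  · rw [List.length_map]
    exact hl.len
  · intro β hβ
    obtain ⟨b, hb, rfl⟩ := List.mem_map.1 hβ
    refine ⟨?_, ?_⟩
    · show X.w.length - b ∈ X.s.map (fun b => X.w.length - b)
      exact List.mem_map.2 ⟨b, (hl.mem b hb).1, rfl⟩
    · rw [mem_reflPi g (hle b hb)]
      exact (hl.mem b hb).2

theorem low_back (g : Good Pi X) {low : List ℕ} (hl : Low Pi X low) :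
    (low.map (fun b => X.w.length - b)).map (fun b => X.w.length - b) = low := by
  have hle := low_le g hl
  rw [List.map_map]
  conv_rhs => rw [← List.map_id low]
  refine List.map_congr_left ?_
  intro b hb
  have h1 := hle b hb
  show X.w.length - (X.w.length - b) = b
  omega

/-- translation of an end flag of the reflected configuration -/
theorem back (g : Good Pi X) {Z : Fl} (hs : Strip (reflPi X.w.length Pi) X.refl Z)
    {low : List ℕ} (hl : Low Pi X low)
    (hp : low.map (fun b => X.w.length - b) <+: Z.s) :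
    Strip Pi X Z.refl ∧ low <+: Z.refl.s ∧
      (∀ p, p < X.w.length → Z.refl.w[p]? = Z.w[X.w.length - 1 - p]?) ∧
      (∀ q, Z.s.getLast? = some q → Z.refl.s.getLast? = some (X.w.length - q)) := by
  have hlen : Z.w.length = X.w.length := by
    rw [(Strip.same g.refl hs).w.length_eq]
    exact refl_length
  refine ⟨Strip.of_refl g hs, ?_, ?_, ?_⟩
  · have h1 := hp.map (fun b => X.w.length - b)
    rw [low_back g hl] at h1
    show low <+: Z.s.map (fun b => Z.w.length - b)
    rw [hlen]
    exact h1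
  · intro p hpl
    have h1 := refl_getElem (X := Z) (i := X.w.length - 1 - p) (by omega)
    rw [hlen] at h1
    rw [show X.w.length - 1 - (X.w.length - 1 - p) = p by omega] at h1
    exact h1
  · intro q hq
    show (Z.s.map (fun b => Z.w.length - b)).getLast? = some (X.w.length - q)
    rw [List.getLast?_map, hq, hlen]
    rfl

theorem getX (c : IsComp Pi X a k) {i j : ℕ} (h : i + j + 1 = k) :
    X.refl.w[X.w.length - (a + k) + i]? = X.w[a + j]? := by
  have h1 := c.le
  have h2 := refl_getElem (X := X) (i := a + j) (by omega)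
  rw [← h2]
  congr 1
  omega

end ReflEAux

open ReflEAux

/-- mirrored form of `EUc`: prescribed last letter of the component -/
theorem EUc_mirror (g : Good Pi X) (c : IsComp Pi X a k)
    (h : EUc (reflPi X.w.length Pi) X.refl (X.w.length - (a + k)) k) (x : ℕ) (low : List ℕ)
    (hx : ∃ i, i < k ∧ X.w[a + i]? = some x) (hl : Low Pi X low) :
    ∃ Y, Strip Pi X Y ∧ low <+: Y.s ∧ Y.w[a + k - 1]? = some x := by
  obtain ⟨i, hi, hx⟩ := hx
  have hle := c.le
  have hone := c.one
  obtain ⟨Z, h1, h2, h3⟩ := h x _ ⟨k - 1 - i, by omega, by rw [getX c (j := i) (by omega), hx]⟩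
    (low_refl g hl)
  obtain ⟨h4, h5, h6, h7⟩ := back g h1 hl h2
  refine ⟨Z.refl, h4, h5, ?_⟩
  rw [h6 _ (by omega), ← h3]
  congr 1
  omega

/-- mirrored form of `ELc`: prescribed first letter `y` (not the first letter in `X`), the first
letter of `X` as second letter, the first bar of the component on the top -/
theorem ELc_mirror (g : Good Pi X) (c : IsComp Pi X a k) (hk : 2 ≤ k)
    (h : ELc (reflPi X.w.length Pi) X.refl (X.w.length - (a + k)) k) (y : ℕ) (low : List ℕ)
    (hy : ∃ i, 0 < i ∧ i < k ∧ X.w[a + i]? = some y) (hl : Low Pi X low) :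
    ∃ Y, Strip Pi X Y ∧ low <+: Y.s ∧ Y.s.getLast? = some (a + 1) ∧
      Y.w[a]? = some y ∧ Y.w[a + 1]? = X.w[a]? := by
  obtain ⟨i, hi0, hi, hy⟩ := hy
  have hle := c.le
  obtain ⟨Z, h1, h2, h3, h3', h3''⟩ := h y _
    ⟨k - 1 - i, by omega, by rw [getX c (j := i) (by omega), hy]⟩ (low_refl g hl)
  obtain ⟨h4, h5, h6, h7⟩ := back g h1 hl h2
  refine ⟨Z.refl, h4, h5, ?_, ?_, ?_⟩
  · rw [h7 _ h3]
    congr 1
    omega
  · rw [h6 _ (by omega), ← h3']
    congr 1
    omega
  · have e1 : X.refl.w[X.w.length - (a + k) + k - 1]? = X.w[a]? := by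
      have := getX c (i := k - 1) (j := 0) (by omega)
      rw [Nat.add_zero] at this
      rw [← this]
      congr 1
      omega
    rw [h6 _ (by omega), ← e1, ← h3'']
    congr 1
    omega

/-- `EUc` from the mirrored form in the reflected configuration: the reflected configuration can
end with a prescribed last letter -/
theorem EUc_of_mirror (g : Good Pi X) (c : IsComp Pi X a k)
    (h : ∀ (x : ℕ) (low : List ℕ), (∃ i, i < k ∧ X.refl.w[X.w.length - (a + k) + i]? = some x) →
      Low (reflPi X.w.length Pi) X.refl low →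
      ∃ Y, Strip (reflPi X.w.length Pi) X.refl Y ∧ low <+: Y.s ∧
        Y.w[X.w.length - (a + k) + k - 1]? = some x) : EUc Pi X a k := by
  intro x low hx hl
  obtain ⟨i, hi, hx⟩ := hx
  have hle := c.le
  have hone := c.one
  obtain ⟨Z, h1, h2, h3⟩ := h x _ ⟨k - 1 - i, by omega, by rw [getX c (j := i) (by omega), hx]⟩
    (low_refl g hl)
  obtain ⟨h4, h5, h6, h7⟩ := back g h1 hl h2
  refine ⟨Z.refl, h4, h5, ?_⟩
  rw [h6 _ (by omega), ← h3]
  congr 1
  omega

/-- `ELc` from the mirrored form in the reflected configuration -/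
theorem ELc_of_mirror (g : Good Pi X) (c : IsComp Pi X a k) (hk : 2 ≤ k)
    (h : ∀ (y : ℕ) (low : List ℕ),
      (∃ i, 0 < i ∧ i < k ∧ X.refl.w[X.w.length - (a + k) + i]? = some y) →
      Low (reflPi X.w.length Pi) X.refl low →
      ∃ Y, Strip (reflPi X.w.length Pi) X.refl Y ∧ low <+: Y.s ∧
        Y.s.getLast? = some (X.w.length - (a + k) + 1) ∧
        Y.w[X.w.length - (a + k)]? = some y ∧
        Y.w[X.w.length - (a + k) + 1]? = X.refl.w[X.w.length - (a + k)]?) : ELc Pi X a k := by
  intro y low hy hl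
  obtain ⟨i, hi, hy⟩ := hy
  have hle := c.le
  obtain ⟨Z, h1, h2, h3, h3', h3''⟩ := h y _
    ⟨k - 1 - i, by omega, by omega, by rw [getX c (j := i) (by omega), hy]⟩ (low_refl g hl)
  obtain ⟨h4, h5, h6, h7⟩ := back g h1 hl h2
  refine ⟨Z.refl, h4, h5, ?_, ?_, ?_⟩
  · rw [h7 _ h3]
    congr 1
    omega
  · rw [h6 _ (by omega), ← h3']
    congr 1
    omega
  · have e1 : X.refl.w[X.w.length - (a + k)]? = X.w[a + k - 1]? := by
      have := getX c (i := 0) (j := k - 1) (by omega)
      rw [Nat.add_zero] at this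
      rw [this]
      congr 1
      omega
    rw [h6 _ (by omega), ← e1, ← h3'']
    congr 1
    omega

end

end Pool.Agent.RS
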