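import Pool.Agent.RS.RunFrom
import Pool.Agent.RS.ReflE

/-!
# RS module Step6A: the general induction step for the prescribed ends, part A

`E4`, `E5`: the statements for `4` and `5` bars in `Pi`.
-/

set_option autoImplicit false

namespace Pool.Agent.RS

open Finset

/-- statement for `Pi.card = 4` (start flag with an ε-bar at the bottom) -/
def E4 : Prop := ∀ (Pi : Finset ℕ) (X : Fl), Good Pi X → Pi.card = 4 → 6 ≤ X.s.length →
  HeadEps Pi X → EU Pi X ∧ EL Pi X

/-- statement for `Pi.card = 5` (every start flag) -/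
def E5 : Prop := ∀ (Pi : Finset ℕ) (X : Fl), Good Pi X → Pi.card = 5 → 6 ≤ X.s.length →
  EU Pi X ∧ EL Pi X

/-- statement for `5 ≤ Pi.card = V`, if there is an ε-bar -/
def E6 (V : ℕ) : Prop := ∀ (Pi : Finset ℕ) (X : Fl), Good Pi X → Pi.card = V →
  V < X.s.length → EU Pi X ∧ EL Pi X

/-- the providers of `run_from` from the statements for smaller `V`, for a configuration with an
ε-bar and `6 ≤ Pi.card`: a phase has `V - 1` (for `A = ∅`, `A.card + 1 = k`) or `V - 2` bars in
`subPi`, at least `X.s.length - 1` bars, and an ε-bar (`PhaseAt.slength`, `PhaseAt.picard`); if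
`V - 2 = 4` then `A ≠ ∅` and `St.eps` gives `HeadEps`. Both the phase and its reflection
(`Good.refl`, `reflPi_card`, `refl_slength`, `HeadEps.refl`) are configurations to which the
statements apply. -/
theorem phase_E (h4 : E4) {V : ℕ} (hV : 6 ≤ V) (ih : ∀ V', 5 ≤ V' → V' < V → E6 V')
    {Pi : Finset ℕ} {X : Fl} {a k z : ℕ} (g : Good Pi X) (hc : Pi.card = V)
    (hd : V < X.s.length) (c : IsComp Pi X a k) (hk : 2 ≤ k) {A : Finset ℕ} {X' : Fl}
    (hst : St Pi X a k z A X') :
    (EU (subPi Pi a A.card) X' ∧ EL (subPi Pi a A.card) X') ∧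
      (EU (reflPi X'.w.length (subPi Pi a A.card)) X'.refl ∧
        EL (reflPi X'.w.length (subPi Pi a A.card)) X'.refl) := by
  have hp := hst.ph
  have h1 := hp.picard g c
  have h2 := hp.slength g c
  by_cases h5 : 5 ≤ (subPi Pi a A.card).card
  · have hlt : (subPi Pi a A.card).card < V := by
      by_cases hA : A = ∅
      · have hA' : A.card + 1 ≠ k := by
          rw [hA, Finset.card_empty]
          omega
        rw [if_pos hA, if_neg hA'] at h1
        omega
      · rw [if_neg hA] at h1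
        split_ifs at h1 <;> omega
    have hs : (subPi Pi a A.card).card < X'.s.length := by
      split_ifs at h2 <;> omega
    refine ⟨ih _ h5 hlt _ _ hp.good rfl hs, ih _ h5 hlt _ _ hp.good.refl (reflPi_card hp.good) ?_⟩
    rw [refl_slength]
    exact hs
  · have hA : A ≠ ∅ := by
      intro hA
      rw [if_pos hA] at h1
      split_ifs at h1 <;> omega
    have h4' : (subPi Pi a A.card).card = 4 := by
      rw [if_neg hA] at h1
      split_ifs at h1 <;> omega
    rw [if_neg hA] at h2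
    have hs : 6 ≤ X'.s.length := by omega
    have heps : ∃ β ∈ X.s, β ∉ Pi := by
      by_contra hcon
      push Not at hcon
      have h3 : X.s.toFinset ⊆ Pi := fun b hb => hcon b (List.mem_toFinset.1 hb)
      have h6 := Finset.card_le_card h3
      rw [List.toFinset_card_of_nodup g.sn] at h6
      omega
    have hh := hst.eps (Finset.nonempty_iff_ne_empty.2 hA) heps
    refine ⟨h4 _ _ hp.good h4' hs hh, h4 _ _ hp.good.refl ?_ ?_ (hh.refl hp.good)⟩
    · rw [reflPi_card hp.good]
      exact h4'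
    · rw [refl_slength]
      exact hs

namespace Step6AAux

theorem idx_inj {w : List ℕ} (hw : w.Nodup) {i j x : ℕ} (hi : w[i]? = some x)
    (hj : w[j]? = some x) : i = j := by
  obtain ⟨hi1, hi2⟩ := List.getElem?_eq_some_iff.1 hi
  obtain ⟨hj1, hj2⟩ := List.getElem?_eq_some_iff.1 hj
  exact (List.Nodup.getElem_inj_iff hw).1 (hi2.trans hj2.symm)

theorem low_phase {Pi : Finset ℕ} {X X' : Fl} {a k z : ℕ} {A : Finset ℕ} (g : Good Pi X)
    (c : IsComp Pi X a k) (hp : PhaseAt Pi X a k z A X') {low : List ℕ} (hl : Low Pi X low) :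
    Low (subPi Pi a A.card) X' low where
  nd := hl.nd
  len := hl.len
  mem := fun β hβ => by
    have h1 := hl.mem β hβ
    have h2 := hp.eps g c h1.1 h1.2
    exact ⟨h2.1, h2.2.1⟩

theorem first_aux (h4 : E4) {V : ℕ} (hV : 6 ≤ V) (ih : ∀ V', 5 ≤ V' → V' < V → E6 V')
    {Pi : Finset ℕ} {X : Fl} {a k : ℕ} (g : Good Pi X) (hc : Pi.card = V)
    (hd : V < X.s.length) (c : IsComp Pi X a k) (hk : 2 ≤ k) {z : ℕ} (hz : X.w[a]? = some z)
    (x : ℕ) (hx : x ∈ compS X a k z) {low : List ℕ} (hl : Low Pi X low) :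
    ∃ Y, Strip Pi X Y ∧ low <+: Y.s ∧ Y.s.getLast? = some (a + 1) ∧
      Y.w[a]? = some x ∧ Y.w[a + 1]? = some z := by
  obtain ⟨X', hst, hr, hx1, hx2⟩ := run_to_last' g c hz
    (fun A X' hn hst => (phase_E h4 hV ih g hc hd c hk hst).1.1 _ _ (hst.ph.compB g c hn))
    (fun A X' h2 hst => (phase_E h4 hV ih g hc hd c hk hst).1.2 _ _ h2
      (hst.ph.compA g c (Finset.card_pos.1 (by omega)))) hx
  have hcard : ({x} : Finset ℕ).card = 1 := Finset.card_singleton x
  have hE := (phase_E h4 hV ih g hc hd c hk hst).1.1 _ _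
    (hst.ph.compA g c (Finset.singleton_nonempty x))
  obtain ⟨Y', hs, hlow, hY⟩ := hE x low (by
    rw [hcard]
    exact ⟨0, by omega, hx1⟩) (low_phase g c hst.ph hl)
  have htop : top a ({x} : Finset ℕ).card = [a + 1] := by
    rw [hcard]
    rfl
  have hfin := last_phase g c hz hst.ph (by rw [htop]; exact hr) hs
  rw [htop] at hfin
  have hz' := (hst.ph.strip g c hs).atz
  rw [hcard] at hz'
  exact ⟨_, hfin, hlow.trans (List.prefix_append _ _), by simp, hY, hz'⟩

end Step6AAux

open Step6AAux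

/-- every strip: prescribed lowest bars only. Take any component with `2 ≤ k` (there is one, since
`Pi` is not empty), any target. -/
theorem step_low (h4 : E4) {V : ℕ} (hV : 6 ≤ V) (ih : ∀ V', 5 ≤ V' → V' < V → E6 V')
    {Pi : Finset ℕ} {X : Fl} (g : Good Pi X) (hc : Pi.card = V) (hd : V < X.s.length)
    {low : List ℕ} (hl : Low Pi X low) : ∃ Y, Strip Pi X Y ∧ low <+: Y.s := by
  obtain ⟨b, hb⟩ : Pi.Nonempty := by
    rw [← Finset.card_pos]
    omega
  obtain ⟨a, k, c, hab, hbk⟩ := exists_comp g hb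
  have hk : 2 ≤ k := by omega
  have hle := c.le
  obtain ⟨z, hz⟩ : ∃ z, X.w[a]? = some z := ⟨X.w[a], List.getElem?_eq_getElem (by omega)⟩
  obtain ⟨x, hx⟩ : (compS X a k z).Nonempty := by
    rw [← Finset.card_pos, compS_card g c ⟨0, by omega, hz⟩]
    omega
  obtain ⟨Y, h1, h2, -⟩ := first_aux h4 hV ih g hc hd c hk hz x hx hl
  exact ⟨Y, h1, h2⟩

/-- R-rule with target `{x}`: ends with `x` (not the first letter) as first letter of the component,
the old first letter as second letter and the first bar of the component on the top. (This is the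
mirrored form of `ELc`.) -/
theorem step_first (h4 : E4) {V : ℕ} (hV : 6 ≤ V) (ih : ∀ V', 5 ≤ V' → V' < V → E6 V')
    {Pi : Finset ℕ} {X : Fl} {a k : ℕ} (g : Good Pi X) (hc : Pi.card = V)
    (hd : V < X.s.length) (c : IsComp Pi X a k) (x : ℕ)
    (hx : ∃ i, 0 < i ∧ i < k ∧ X.w[a + i]? = some x) {low : List ℕ} (hl : Low Pi X low) :
    ∃ Y, Strip Pi X Y ∧ low <+: Y.s ∧ Y.s.getLast? = some (a + 1) ∧
      Y.w[a]? = some x ∧ Y.w[a + 1]? = X.w[a]? := by
  obtain ⟨i, hi0, hik, hxi⟩ := hx
  have hk : 2 ≤ k := by omega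
  have hle := c.le
  obtain ⟨z, hz⟩ : ∃ z, X.w[a]? = some z := ⟨X.w[a], List.getElem?_eq_getElem (by omega)⟩
  have hxz : x ≠ z := by
    intro h
    have := idx_inj g.wn hxi (h ▸ hz)
    omega
  have hxS : x ∈ compS X a k z := (mem_compS g c).2 ⟨hxz, i, hik, hxi⟩
  obtain ⟨Y, h1, h2, h3, h5, h6⟩ := first_aux h4 hV ih g hc hd c hk hz x hxS hl
  exact ⟨Y, h1, h2, h3, h5, by rw [h6, hz]⟩

end Pool.Agent.RS
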