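import Pool.Agent.RS.BlkL
import Pool.Agent.RS.Step6A

/-!
# RS module E45: the statements `E4` and `E5` from the data base
-/

set_option autoImplicit false

namespace Pool.Agent.RS

open Finset

namespace E45Aux

theorem mem_compsL_aux : ∀ (ks : List ℕ) (n V : ℕ), (∀ k ∈ ks, 2 ≤ k) →
    (ks.map (fun k => k - 1)).sum = V → V ≤ n → ks ∈ compsL n V := by
  intro ks
  induction ks with
  | nil =>
    intro n V _ hV _
    have h0 : V = 0 := by simpa using hV.symm
    subst h0
    cases n <;> simp [compsL]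
  | cons k ks ih =>
    intro n V h2 hV hn
    have hk : 2 ≤ k := h2 k (by simp)
    have hV' : (k - 1) + (ks.map (fun k => k - 1)).sum = V := by simpa using hV
    obtain ⟨V', rfl⟩ : ∃ V', V = V' + 1 := ⟨V - 1, by omega⟩
    obtain ⟨n', rfl⟩ : ∃ n', n = n' + 1 := ⟨n - 1, by omega⟩
    show _ ∈ (List.range (V' + 1)).flatMap
      (fun f => (compsL n' (V' + 1 - (f + 1))).map (fun l => (f + 2) :: l))
    rw [List.mem_flatMap]
    refine ⟨k - 2, List.mem_range.2 (by omega), ?_⟩
    rw [List.mem_map]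
    refine ⟨ks, ?_, by rw [show k - 2 + 2 = k by omega]⟩
    apply ih
    · intro k' hk'
      exact h2 k' (by simp [hk'])
    · omega
    · omega

/-- entry `i` of piece `j` of `appT t l` -/
theorem appT_getD {t l : List (List ℕ)} {j i : ℕ} (hj : j < t.length) (hj' : j < l.length)
    (hi : i < (t.getD j []).length) :
    ((appT t l).getD j []).getD i 0 = (l.getD j []).getD ((t.getD j []).getD i 0) 0 := by
  unfold appT
  have h1 : (List.zipWith (fun τ m => τ.map (fun i => m.getD i 0)) t l).getD j [] =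
      (t.getD j []).map (fun i => (l.getD j []).getD i 0) := by
    rw [List.getD_eq_getElem?_getD, List.getElem?_zipWith, List.getD_eq_getElem?_getD,
      List.getD_eq_getElem?_getD, List.getElem?_eq_getElem hj, List.getElem?_eq_getElem hj']
    rfl
  have h2 : (t.getD j []).getD i 0 = (t.getD j [])[i] := by
    rw [List.getD_eq_getElem?_getD, List.getElem?_eq_getElem hi]
    rfl
  rw [h1, h2, List.getD_eq_getElem?_getD, List.getElem?_map, List.getElem?_eq_getElem hi]
  rfl

theorem getElem?_of_getD {l : List ℕ} {i x : ℕ} (hi : i < l.length) (h : l.getD i 0 = x) :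
    l[i]? = some x := by
  rw [List.getD_eq_getElem?_getD, List.getElem?_eq_getElem hi] at h
  rw [List.getElem?_eq_getElem hi]
  simpa using h

theorem getD_of_getElem? {l : List ℕ} {i x : ℕ} (h : l[i]? = some x) : l.getD i 0 = x := by
  rw [List.getD_eq_getElem?_getD, h]
  rfl

end E45Aux

theorem mem_compsL {V : ℕ} {ks : List ℕ} (h2 : ∀ k ∈ ks, 2 ≤ k)
    (hV : (ks.map (fun k => k - 1)).sum = V) : ks ∈ compsL V V :=
  E45Aux.mem_compsL_aux ks V V h2 hV le_rfl

/-- a component `(a, k)` of size `1`: any fact, the letter does not move; of size `≥ 2`: it is in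
`bl`, use the facts given by `reqOK` -/
theorem EU_EL_of_req {Pi : Finset ℕ} {X : Fl} {bl : List (ℕ × ℕ)} {fs : List Fact}
    {c : Option ℕ} (g : Good Pi X) (hb : Blk Pi X bl) (h2 : ∀ p ∈ bl, 2 ≤ p.2)
    (hd : 6 ≤ X.s.length) (hlt : Pi.card < X.s.length) (hne : Pi.Nonempty)
    (hc : Cls Pi X bl c) (hfs : ∀ f ∈ fs, okF f = true ∧ HoldsAt 6 f)
    (hr : reqOK fs (bl.map Prod.snd) c = true) : EU Pi X ∧ EL Pi X := by
  unfold reqOK at hr
  rw [List.all_eq_true] at hr
  -- facts about blocks
  have key : ∀ a k : ℕ, (a, k) ∈ bl → ∃ j, bl[j]? = some (a, k) ∧ j < bl.length ∧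
      (bl.map Prod.snd).getD j 0 = k := by
    intro a k h
    obtain ⟨j, hj, he⟩ := List.getElem_of_mem h
    refine ⟨j, by rw [List.getElem?_eq_getElem hj, he], hj, ?_⟩
    rw [List.getD_eq_getElem?_getD, List.getElem?_map, List.getElem?_eq_getElem hj, he]
    rfl
  have hpl : ∀ p ∈ bl, p.1 + p.2 ≤ X.w.length := fun p hp =>
    (hb.comp p hp (by have := h2 p hp; omega)).le
  -- facts of the first kind
  have hU : ∀ {a k j : ℕ}, bl[j]? = some (a, k) → j < bl.length →
      (bl.map Prod.snd).getD j 0 = k → 2 ≤ k → ∀ x < k, ∃ f ∈ fs, f.ks = bl.map Prod.snd ∧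
        f.cls = c ∧ (f.t.getD j []).getD 0 0 = x := by
    intro a k j hj hjl hjk hk x hx
    have h3 := hr j (List.mem_range.2 (by rw [List.length_map]; exact hjl))
    rw [Bool.and_eq_true] at h3
    have h4 := h3.1
    rw [List.all_eq_true] at h4
    have h5 := h4 x (List.mem_range.2 (by rw [hjk]; exact hx))
    rw [List.any_eq_true] at h5
    obtain ⟨f, hf, h6⟩ := h5
    simp only [Bool.and_eq_true, beq_iff_eq] at h6
    exact ⟨f, hf, h6.1.1, h6.1.2, h6.2⟩
  have hL : ∀ {a k j : ℕ}, bl[j]? = some (a, k) → j < bl.length →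
      (bl.map Prod.snd).getD j 0 = k → 2 ≤ k → ∀ y < k - 1, ∃ f ∈ fs, f.ks = bl.map Prod.snd ∧
        f.cls = c ∧ (f.t.getD j []).getD (k - 1) 0 = y ∧ (f.t.getD j []).getD (k - 2) 0 = k - 1 ∧
        f.tp = ((bl.map Prod.snd).take j).sum + (k - 1) := by
    intro a k j hj hjl hjk hk x hx
    have h3 := hr j (List.mem_range.2 (by rw [List.length_map]; exact hjl))
    rw [Bool.and_eq_true] at h3
    have h4 := h3.2
    rw [List.all_eq_true] at h4
    have h5 := h4 x (List.mem_range.2 (by rw [hjk]; exact hx))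
    rw [List.any_eq_true] at h5
    obtain ⟨f, hf, h6⟩ := h5
    simp only [Bool.and_eq_true, beq_iff_eq, hjk] at h6
    exact ⟨f, hf, h6.1.1.1.1, h6.1.1.1.2, h6.1.1.2, h6.1.2, h6.2⟩
  -- length of the pieces of a fact
  have hlen : ∀ {f : Fact} {j : ℕ}, f ∈ fs → f.ks = bl.map Prod.snd → j < bl.length →
      j < f.t.length ∧ (f.t.getD j []).length = (bl.map Prod.snd).getD j 0 := by
    intro f j hf hk hj
    have h3 := (hfs f hf).1
    unfold okF at h3
    simp only [Bool.and_eq_true, beq_iff_eq] at h3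
    have h4 : f.t.map List.length = bl.map Prod.snd := by
      rw [h3.1.1.1.2, hk]
    have h5 : f.t.length = bl.length := by
      have := congrArg List.length h4
      simpa using this
    refine ⟨by omega, ?_⟩
    rw [← h4, List.getD_eq_getElem?_getD, List.getD_eq_getElem?_getD, List.getElem?_map,
      List.getElem?_eq_getElem (show j < f.t.length by omega)]
    rfl
  -- the words after a fact
  have hword : ∀ {f : Fact} {a k j i : ℕ} {Y : Fl}, f ∈ fs → f.ks = bl.map Prod.snd →
      bl[j]? = some (a, k) → j < bl.length → (bl.map Prod.snd).getD j 0 = k → i < k →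
      Strip Pi X Y → segs Y.w bl = appT f.t (segs X.w bl) → (f.t.getD j []).getD i 0 < k →
      Y.w[a + i]? = X.w[a + (f.t.getD j []).getD i 0]? := by
    intro f a k j i Y hf hk hj hjl hjk hi hY hs hlt'
    have hwl : Y.w.length = X.w.length := (hY.same g).w.length_eq
    have hmem : (a, k) ∈ bl := List.mem_of_getElem? hj
    have hak : a + k ≤ X.w.length := hpl _ hmem
    obtain ⟨h3, h4⟩ := hlen hf hk hjl
    have h5 := segs_getElem (w := Y.w) hj hi (by rw [hwl]; exact hak)
    rw [hs, E45Aux.appT_getD h3 (by unfold segs; rw [List.length_map]; exact hjl)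
      (by rw [h4, hjk]; exact hi), segs_getElem hj hlt' hak] at h5
    rw [List.getElem?_eq_getElem (show a + (f.t.getD j []).getD i 0 < X.w.length by omega)]
    apply E45Aux.getElem?_of_getD (by omega)
    rw [← h5]
    rw [List.getD_eq_getElem?_getD, List.getElem?_eq_getElem
      (show a + (f.t.getD j []).getD i 0 < X.w.length by omega)]
    rfl
  constructor
  · intro a k hak x low hx hlow
    rcases Nat.lt_or_ge k 2 with hk | hk
    · -- the letter does not move
      have hk1 : k = 1 := by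
        have := hak.one
        omega
      subst hk1
      obtain ⟨b, hbPi⟩ := hne
      obtain ⟨p, hp, _, _⟩ := hb.cover b hbPi
      obtain ⟨a', k'⟩ := p
      obtain ⟨j, hj, hjl, hjk⟩ := key a' k' hp
      have hk' : 2 ≤ k' := h2 _ hp
      obtain ⟨f, hf, hfk, hfc, _⟩ := hU hj hjl hjk hk' 0 (by omega)
      obtain ⟨Y, hY, hYl, _, _⟩ := (hfs f hf).2 Pi X bl g hb hfk.symm hd hlt
        (by rw [hfc]; exact hc) low hlow
      refine ⟨Y, hY, hYl, ?_⟩
      rw [(hY.same g).getElem g hak.left hak.right]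
      obtain ⟨i, hi, hxi⟩ := hx
      rw [show i = 0 by omega] at hxi
      exact hxi
    · have hp : (a, k) ∈ bl := hb.mem_of_comp g hak hk
      obtain ⟨j, hj, hjl, hjk⟩ := key a k hp
      obtain ⟨i, hi, hxi⟩ := hx
      obtain ⟨f, hf, hfk, hfc, hfx⟩ := hU hj hjl hjk hk i hi
      obtain ⟨Y, hY, hYl, hYs, _⟩ := (hfs f hf).2 Pi X bl g hb hfk.symm hd hlt
        (by rw [hfc]; exact hc) low hlow
      refine ⟨Y, hY, hYl, ?_⟩
      have h3 := hword (i := 0) hf hfk hj hjl hjk (by omega) hY hYs (by rw [hfx]; exact hi)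
      rw [hfx, hxi] at h3
      exact h3
  · intro a k hk hak y low hy hlow
    have hp : (a, k) ∈ bl := hb.mem_of_comp g hak hk
    obtain ⟨j, hj, hjl, hjk⟩ := key a k hp
    obtain ⟨i, hi, hyi⟩ := hy
    obtain ⟨f, hf, hfk, hfc, hf1, hf2, hf3⟩ := hL hj hjl hjk hk i (by omega)
    obtain ⟨Y, hY, hYl, hYs, hYt⟩ := (hfs f hf).2 Pi X bl g hb hfk.symm hd hlt
      (by rw [hfc]; exact hc) low hlow
    refine ⟨Y, hY, hYl, ?_, ?_, ?_⟩
    · rw [hYt, hf3]
      have h4 := pos_getD hj (show k - 1 < k by omega)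
      rw [List.map_take] at h4
      rw [h4]
      congr 1
      omega
    · have h3 := hword (i := k - 1) hf hfk hj hjl hjk (by omega) hY hYs (by rw [hf1]; omega)
      rw [hf1, hyi] at h3
      rw [show a + k - 1 = a + (k - 1) by omega]
      exact h3
    · have h3 := hword (i := k - 2) hf hfk hj hjl hjk (by omega) hY hYs (by rw [hf2]; omega)
      rw [hf2] at h3
      rw [show a + k - 2 = a + (k - 2) by omega, show a + k - 1 = a + (k - 1) by omega]
      exact h3

theorem E4_of_db {fs : List Fact} (hfs : ∀ f ∈ fs, okF f = true ∧ HoldsAt 6 f)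
    (hr : (compsL 4 4).all (fun ks => reqOK fs ks none) = true) : E4 := by
  intro Pi X g hcard hd hh
  obtain ⟨bl, hb, h2⟩ := exists_blk g
  rw [List.all_eq_true] at hr
  have hsum := hb.card
  rw [hcard] at hsum
  have hks : bl.map Prod.snd ∈ compsL 4 4 := by
    apply mem_compsL
    · intro k hk
      obtain ⟨p, hp, rfl⟩ := List.mem_map.1 hk
      exact h2 p hp
    · rw [List.map_map]
      exact hsum
  refine EU_EL_of_req g hb h2 hd (by omega) ?_ (c := none) hh hfs (hr _ hks)
  rw [← Finset.card_pos]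
  omega

theorem E5_of_db {fs : List Fact} (hfs : ∀ f ∈ fs, okF f = true ∧ HoldsAt 6 f)
    (hr : (compsL 5 5).all (fun ks => reqOK fs ks none &&
      (movL 0 ks).all (fun b => reqOK fs ks (some b))) = true) : E5 := by
  intro Pi X g hcard hd
  obtain ⟨bl, hb, h2⟩ := exists_blk g
  rw [List.all_eq_true] at hr
  have hsum := hb.card
  rw [hcard] at hsum
  have hks : bl.map Prod.snd ∈ compsL 5 5 := by
    apply mem_compsL
    · intro k hk
      obtain ⟨p, hp, rfl⟩ := List.mem_map.1 hk
      exact h2 p hp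
    · rw [List.map_map]
      exact hsum
  have hne : Pi.Nonempty := by
    rw [← Finset.card_pos]
    omega
  have h3 := hr _ hks
  rw [Bool.and_eq_true, List.all_eq_true] at h3
  cases hs : X.s with
  | nil =>
    rw [hs] at hd
    simp at hd
  | cons b s =>
    by_cases hbP : b ∈ Pi
    · obtain ⟨m, hm, hbm⟩ := (mem_Pi_iff hb).1 hbP
      refine EU_EL_of_req g hb h2 hd (by omega) hne (c := some m) ?_ hfs (h3.2 m hm)
      show X.s.head? = some ((pos bl).getD m 0)
      rw [hs, ← hbm]
      rfl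
    · exact EU_EL_of_req g hb h2 hd (by omega) hne (c := none) ⟨b, s, hs, hbP⟩ hfs h3.1

end Pool.Agent.RS
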