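import Pool.Agent.RS.Walks

/-!
# RS module Refl: reflection

`X.refl` has the reversed word and the bars `N - b`, `N = X.w.length`. The sets are replaced by
their complements in `X.w.toFinset`.
-/

set_option autoImplicit false

namespace Pool.Agent.RS

open Finset

section

variable {Pi : Finset ℕ} {X Y : Fl} {a k : ℕ}

theorem refl_length : X.refl.w.length = X.w.length := by
  simp [Fl.refl]

theorem refl_slength : X.refl.s.length = X.s.length := by
  simp [Fl.refl]

theorem refl_refl (g : Good Pi X) : X.refl.refl = X := by
  ext1
  · simp [Fl.refl]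
  · show (X.s.map (fun b => X.w.length - b)).map (fun b => X.w.reverse.length - b) = X.s
    rw [List.map_map, List.length_reverse]
    conv_rhs => rw [← List.map_id X.s]
    apply List.map_congr_left
    intro b hb
    have := g.lt b hb
    simp only [Function.comp_apply, id_eq]
    omega

namespace ReflAux

theorem mem_Pi_lt (g : Good Pi X) {b : ℕ} (hb : b ∈ Pi) : b < X.w.length := g.lt b (g.sub b hb)

theorem mem_iff (g : Good Pi X) {c : ℕ} : c ∈ reflPi X.w.length Pi ↔ c ≤ X.w.length ∧ X.w.length - c ∈ Pi := by
  simp only [reflPi, mem_image]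
  constructor
  · rintro ⟨b, hb, rfl⟩
    have := mem_Pi_lt g hb
    refine ⟨by omega, ?_⟩
    have e : X.w.length - (X.w.length - b) = b := by omega
    rw [e]; exact hb
  · rintro ⟨h1, h2⟩
    exact ⟨X.w.length - c, h2, by omega⟩

theorem pre_reverse {w : List ℕ} (hw : w.Nodup) {b : ℕ} (hb : b ≤ w.length) :
    pre w.reverse (w.length - b) = w.toFinset \ pre w b := by
  ext x
  simp only [pre, List.mem_toFinset, mem_sdiff]
  have h1 : w.reverse.take (w.length - b) = (w.drop b).reverse := by
    rw [List.take_reverse]
    congr 2
    omega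
  rw [h1, List.mem_reverse]
  constructor
  · intro hx
    refine ⟨List.mem_of_mem_drop hx, fun hx' => ?_⟩
    have hd : (w.take b ++ w.drop b).Nodup := by rw [List.take_append_drop]; exact hw
    exact (List.nodup_append.1 hd).2.2 x hx' x hx rfl
  · rintro ⟨hx, hx'⟩
    have : x ∈ w.take b ++ w.drop b := by rw [List.take_append_drop]; exact hx
    rw [List.mem_append] at this
    exact this.resolve_left hx'

theorem fc_reverse {w s : List ℕ} (hw : w.Nodup) (hs : ∀ b ∈ s, b ≤ w.length) :
    fc w.reverse (s.map (fun b => w.length - b)) = (fc w s).image (fun S => w.toFinset \ S) := by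
  ext S
  simp only [fc, List.mem_toFinset, List.mem_map, mem_image]
  constructor
  · rintro ⟨c, ⟨b, hb, rfl⟩, rfl⟩
    exact ⟨pre w b, ⟨b, hb, rfl⟩, (pre_reverse hw (hs b hb)).symm⟩
  · rintro ⟨T, ⟨b, hb, rfl⟩, rfl⟩
    exact ⟨w.length - b, ⟨b, hb, rfl⟩, pre_reverse hw (hs b hb)⟩

theorem faces_reverse {w : List ℕ} (hw : w.Nodup) : ∀ s : List ℕ, (∀ b ∈ s, b ≤ w.length) →
    faces w.reverse (s.map (fun b => w.length - b)) =
      (faces w s).map (fun F => F.image (fun S => w.toFinset \ S)) := by
  intro s
  induction s with
  | nil => intro _; rfl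
  | cons b s ih =>
    intro hs
    have h1 := ih (fun c hc => hs c (List.mem_cons_of_mem _ hc))
    have h2 := fc_reverse hw hs
    rw [List.map_cons] at h2 ⊢
    rw [faces, faces, List.map_cons, h1, h2]

theorem step_refl (g : Good Pi X) {F : Face} (h : Step Pi X Y F) :
    Step (reflPi X.w.length Pi) X.refl Y.refl (F.image (fun S => X.w.toFinset \ S)) := by
  have hsame := h.same g
  have gY := hsame.good g
  cases h with
  | word u v s x y h =>
    have hlen : (u ++ x :: y :: v).length = (v.reverse.length + 1) + (u.length + 1) := by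
      simp only [List.length_append, List.length_cons, List.length_reverse]; omega
    have hlen' : (u ++ y :: x :: v).length = (v.reverse.length + 1) + (u.length + 1) := by
      simp only [List.length_append, List.length_cons, List.length_reverse]; omega
    have hr : (u ++ x :: y :: v).reverse = v.reverse ++ y :: x :: u.reverse := by simp
    have hr' : (u ++ y :: x :: v).reverse = v.reverse ++ x :: y :: u.reverse := by simp
    have e1 : Fl.refl ⟨u ++ x :: y :: v, (u.length + 1) :: s⟩ =
        ⟨v.reverse ++ y :: x :: u.reverse,
          (v.reverse.length + 1) :: s.map (fun b => (u ++ x :: y :: v).length - b)⟩ := by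
      ext1
      · exact hr
      · show List.map (fun b => (u ++ x :: y :: v).length - b) ((u.length + 1) :: s) = _
        rw [List.map_cons]
        congr 1
        rw [hlen]; omega
    have e2 : Fl.refl ⟨u ++ y :: x :: v, (u.length + 1) :: s⟩ =
        ⟨v.reverse ++ x :: y :: u.reverse,
          (v.reverse.length + 1) :: s.map (fun b => (u ++ x :: y :: v).length - b)⟩ := by
      ext1
      · exact hr'
      · show List.map (fun b => (u ++ y :: x :: v).length - b) ((u.length + 1) :: s) = _
        rw [List.map_cons, hlen', hlen]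
        congr 1
        omega
    have e3 : (fc (u ++ y :: x :: v) ((u.length + 1) :: s)).image
        (fun S => (u ++ x :: y :: v).toFinset \ S) =
        fc (v.reverse ++ x :: y :: u.reverse)
          ((v.reverse.length + 1) :: s.map (fun b => (u ++ x :: y :: v).length - b)) := by
      have hW : (u ++ x :: y :: v).toFinset = (u ++ y :: x :: v).toFinset := by
        ext z
        simp only [List.mem_toFinset, List.mem_append, List.mem_cons]
        tauto
      have hgY : (u ++ y :: x :: v).Nodup := gY.wn
      have hb : ∀ b ∈ (u.length + 1) :: s, b ≤ (u ++ y :: x :: v).length :=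
        fun b hb => (gY.lt b hb).le
      rw [hW, ← fc_reverse hgY hb, hr', List.map_cons, hlen', hlen]
      congr 2
      omega
    show Step (reflPi (u ++ x :: y :: v).length Pi) _ _ (Finset.image (fun S => (u ++ x :: y :: v).toFinset \ S) _)
    rw [e1, e2, e3]
    apply Step.word
    have := mem_iff (c := v.reverse.length + 1) g
    rw [show (reflPi (u ++ x :: y :: v).length Pi) =
      reflPi (Fl.mk (u ++ x :: y :: v) ((u.length + 1) :: s)).w.length Pi from rfl, this]
    show _ ≤ (u ++ x :: y :: v).length ∧ (u ++ x :: y :: v).length - _ ∈ Pi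
    rw [hlen]
    refine ⟨by omega, ?_⟩
    have e : v.reverse.length + 1 + (u.length + 1) - (v.reverse.length + 1) = u.length + 1 := by omega
    rw [e]; exact h
  | order w t s a b =>
    have hgw : w.Nodup := g.wn
    have hb : ∀ c ∈ a :: s, c ≤ w.length := by
      intro c hc
      apply (g.lt c _).le
      show c ∈ t ++ a :: b :: s
      rw [List.mem_append, List.mem_cons, List.mem_cons]
      rw [List.mem_cons] at hc
      tauto
    show Step (reflPi w.length Pi) ⟨w.reverse, (t ++ a :: b :: s).map (fun c => w.length - c)⟩
      ⟨w.reverse, (t ++ b :: a :: s).map (fun c => w.length - c)⟩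
      ((fc w (a :: s)).image (fun S => w.toFinset \ S))
    rw [← fc_reverse hgw hb]
    simp only [List.map_append, List.map_cons]
    exact Step.order _ _ _ _ _

theorem walk_refl {L : List Face} (h : Walk Pi X Y L) : Good Pi X →
    Walk (reflPi X.w.length Pi) X.refl Y.refl
      (L.map (fun F => F.image (fun S => X.w.toFinset \ S))) := by
  induction h with
  | nil X => intro _; exact Walk.nil _
  | @cons X Y Z F L hs hw ih =>
    intro g
    have hsame := hs.same g
    have gY := hsame.good g
    have h1 := ih gY
    have h2 := step_refl g hs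
    rw [hsame.w.length_eq, List.toFinset_eq_of_perm _ _ hsame.w] at h1
    rw [List.map_cons]
    exact Walk.cons h2 h1

end ReflAux

open ReflAux

theorem reflPi_reflPi (g : Good Pi X) : reflPi X.w.length (reflPi X.w.length Pi) = Pi := by
  ext b
  simp only [reflPi, mem_image]
  constructor
  · rintro ⟨c, ⟨d, hd, rfl⟩, rfl⟩
    have := mem_Pi_lt g hd
    have e : X.w.length - (X.w.length - d) = d := by omega
    rw [e]; exact hd
  · intro hb
    have := mem_Pi_lt g hb
    exact ⟨X.w.length - b, ⟨b, hb, rfl⟩, by omega⟩

theorem reflPi_card (g : Good Pi X) : (reflPi X.w.length Pi).card = Pi.card := by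
  apply Finset.card_image_of_injOn
  intro b hb c hc h
  have h1 := mem_Pi_lt g (Finset.mem_coe.1 hb)
  have h2 := mem_Pi_lt g (Finset.mem_coe.1 hc)
  simp only at h
  omega

theorem mem_reflPi (g : Good Pi X) {b : ℕ} (hb : b ≤ X.w.length) :
    X.w.length - b ∈ reflPi X.w.length Pi ↔ b ∈ Pi := by
  rw [mem_iff g]
  have e : X.w.length - (X.w.length - b) = b := by omega
  rw [e]
  exact ⟨fun h => h.2, fun h => ⟨by omega, h⟩⟩

theorem Good.refl (g : Good Pi X) : Good (reflPi X.w.length Pi) X.refl := by
  constructor
  · show X.w.reverse.Nodup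
    exact List.nodup_reverse.2 g.wn
  · show (X.s.map (fun b => X.w.length - b)).Nodup
    apply List.Nodup.map_on _ g.sn
    intro b hb c hc h
    have h1 := g.lt b hb
    have h2 := g.lt c hc
    omega
  · intro c hc
    show c ∈ X.s.map (fun b => X.w.length - b)
    simp only [reflPi, mem_image] at hc
    obtain ⟨b, hb, rfl⟩ := hc
    exact List.mem_map.2 ⟨b, g.sub b hb, rfl⟩
  · intro c hc
    obtain ⟨b, hb, rfl⟩ := List.mem_map.1 (show c ∈ X.s.map (fun b => X.w.length - b) from hc)
    have := g.lt b hb
    omega
  · intro c hc
    obtain ⟨b, hb, rfl⟩ := List.mem_map.1 (show c ∈ X.s.map (fun b => X.w.length - b) from hc)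
    have h1 := g.lt b hb
    have h2 := g.pos b hb
    rw [refl_length]
    omega

theorem IsComp.refl (g : Good Pi X) (c : IsComp Pi X a k) :
    IsComp (reflPi X.w.length Pi) X.refl (X.w.length - (a + k)) k := by
  have h1 := c.one
  have h2 := c.le
  constructor
  · exact h1
  · rw [refl_length]; omega
  · rw [mem_reflPi g h2]; exact c.right
  · have e : X.w.length - (a + k) + k = X.w.length - a := by omega
    rw [e, mem_reflPi g (by omega)]; exact c.left
  · intro b hb hb'
    rw [mem_iff g]
    exact ⟨by omega, c.mem _ (by omega) (by omega)⟩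

theorem HeadEps.refl (g : Good Pi X) (h : HeadEps Pi X) :
    HeadEps (reflPi X.w.length Pi) X.refl := by
  obtain ⟨b, s, hs, hb⟩ := h
  refine ⟨X.w.length - b, s.map (fun b => X.w.length - b), ?_, ?_⟩
  · show X.s.map (fun b => X.w.length - b) = _
    rw [hs, List.map_cons]
  · have hbs : b ∈ X.s := by rw [hs]; exact List.mem_cons_self
    rw [mem_reflPi g (g.lt b hbs).le]
    exact hb

/-- the letter at position `i` of the reversed word -/
theorem refl_getElem {i : ℕ} (hi : i < X.w.length) : X.refl.w[X.w.length - 1 - i]? = X.w[i]? := by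
  show X.w.reverse[X.w.length - 1 - i]? = X.w[i]?
  rw [List.getElem?_reverse (by omega)]
  congr 1
  omega

/-- the reflected walk: complements of the sets -/
theorem Walk.refl (g : Good Pi X) {L : List Face} (h : Walk Pi X Y L) :
    Walk (reflPi X.w.length Pi) X.refl Y.refl
      (L.map (fun F => F.image (fun S => X.w.toFinset \ S))) :=
  walk_refl h g

theorem AF_refl (g : Good Pi X) {F : Face} (h : AF Pi X F) :
    AF (reflPi X.w.length Pi) X.refl (F.image (fun S => X.w.toFinset \ S)) := by
  obtain ⟨h1, h2, h3⟩ := h
  refine ⟨h1.image _, ?_, ?_⟩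
  · intro S' hS'
    obtain ⟨S, hS, rfl⟩ := mem_image.1 hS'
    obtain ⟨k1, k2, k3⟩ := h2 S hS
    have hrev : X.refl.w.toFinset = X.w.toFinset := by
      show X.w.reverse.toFinset = _
      exact List.toFinset_reverse
    refine ⟨?_, ?_, ?_⟩
    · show _ ∈ X.s.map (fun b => X.w.length - b)
      rw [card_sdiff_of_subset k2, List.toFinset_card_of_nodup g.wn]
      exact List.mem_map.2 ⟨_, k1, rfl⟩
    · rw [hrev]; exact sdiff_subset
    · intro b hb
      show _ ⊆ pre X.w.reverse b ∨ pre X.w.reverse b ⊆ _
      rcases le_total X.w.length b with hle | hle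
      · left
        have : pre X.w.reverse b = X.w.toFinset := by
          unfold pre
          rw [List.take_of_length_le (by rw [List.length_reverse]; exact hle)]
          exact List.toFinset_reverse
        rw [this]; exact sdiff_subset
      · have e : pre X.w.reverse b = X.w.toFinset \ pre X.w (X.w.length - b) := by
          rw [← pre_reverse g.wn (Nat.sub_le _ _)]
          congr 1
          omega
        rw [e]
        rw [mem_iff g] at hb
        have hb' : X.w.length - b ∉ Pi := fun h => hb ⟨hle, h⟩
        rcases k3 _ hb' with h | h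
        · right; exact sdiff_subset_sdiff (Subset.refl _) h
        · left; exact sdiff_subset_sdiff (Subset.refl _) h
  · intro S' hS' T' hT'
    obtain ⟨S, hS, rfl⟩ := mem_image.1 hS'
    obtain ⟨T, hT, rfl⟩ := mem_image.1 hT'
    rcases h3 S hS T hT with h | h
    · right; exact sdiff_subset_sdiff (Subset.refl _) h
    · left; exact sdiff_subset_sdiff (Subset.refl _) h

namespace ReflAux

theorem image_compl_compl {W : Finset ℕ} {F : Face} (h : ∀ S ∈ F, S ⊆ W) :
    (F.image (fun S => W \ S)).image (fun S => W \ S) = F := by
  rw [image_image]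
  conv_rhs => rw [← image_id (s := F)]
  apply image_congr
  intro S hS
  simp only [Function.comp_apply, id_eq]
  exact Finset.sdiff_sdiff_eq_self (h S (mem_coe.1 hS))

end ReflAux

/-- reflection of a strip. The map `F ↦ F.image (X.w.toFinset \ ·)` is an involution on the faces
(all sets are contained in `X.w.toFinset`), `faces X.refl = (faces X).map …`. -/
theorem Strip.refl (g : Good Pi X) (h : Strip Pi X Y) :
    Strip (reflPi X.w.length Pi) X.refl Y.refl := by
  obtain ⟨L, hw, hn, hF⟩ := h
  have hrev : X.refl.w.toFinset = X.w.toFinset := by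
    show X.w.reverse.toFinset = _
    exact List.toFinset_reverse
  have hfa : faces X.refl.w X.refl.s =
      (faces X.w X.s).map (fun F => F.image (fun S => X.w.toFinset \ S)) :=
    faces_reverse g.wn X.s (fun b hb => (g.lt b hb).le)
  have hcc : ∀ F ∈ faces X.w X.s ++ L,
      (F.image (fun S => X.w.toFinset \ S)).image (fun S => X.w.toFinset \ S) = F := by
    intro F hF'
    have := (hF F).1 hF'
    exact image_compl_compl (fun S hS => (this.2.1 S hS).2.1)
  refine ⟨L.map (fun F => F.image (fun S => X.w.toFinset \ S)), Walk.refl g hw, ?_, ?_⟩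
  · rw [hfa, ← List.map_append]
    apply List.Nodup.map_on _ hn
    intro F hF1 G hG1 hFG
    have h1 := hcc F hF1
    have h2 := hcc G hG1
    rw [← h1, ← h2, hFG]
  · intro F
    rw [hfa, ← List.map_append]
    constructor
    · intro hm
      obtain ⟨G, hG, rfl⟩ := List.mem_map.1 hm
      exact AF_refl g ((hF G).1 hG)
    · intro hAF
      have h1 := AF_refl g.refl hAF
      rw [refl_length, reflPi_reflPi g, refl_refl g, hrev] at h1
      have h2 := (hF _).2 h1
      refine List.mem_map.2 ⟨_, h2, ?_⟩
      apply image_compl_compl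
      intro S hS
      have := (hAF.2.1 S hS).2.1
      rwa [hrev] at this

/-- back from the reflected configuration -/
theorem Strip.of_refl (g : Good Pi X) (h : Strip (reflPi X.w.length Pi) X.refl Y) :
    Strip Pi X Y.refl := by
  have h1 := h.refl g.refl
  rw [refl_length, reflPi_reflPi g, refl_refl g] at h1
  exact h1

end

end Pool.Agent.RS
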