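import Pool.Agent.RS.BlkL
import Pool.Agent.RS.Refl

/-!
# RS module FactMir: mirrored facts

The reflected configuration has the blocks `(N - (a + k), k)` in reversed order
(`N = X.w.length`); the bar with label `b` becomes the bar with label `K - b`, `K = ks.sum`
(`0 < b < K` and the bar `b` is inside a component: the bar at position `(pos bl)[b]` becomes
`N - (pos bl)[b]`), and the words are reversed.
-/

set_option autoImplicit false

namespace Pool.Agent.RS

open Finset

/-- blocks of the reflected configuration -/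
def reflBl (N : ℕ) (bl : List (ℕ × ℕ)) : List (ℕ × ℕ) := bl.reverse.map (fun p => (N - (p.1 + p.2), p.2))

theorem FactMirAux.mem_reflBl {N : ℕ} {bl : List (ℕ × ℕ)} {p : ℕ × ℕ} :
    p ∈ reflBl N bl ↔ ∃ q ∈ bl, (N - (q.1 + q.2), q.2) = p := by
  unfold reflBl
  rw [List.mem_map]
  simp only [List.mem_reverse]

theorem FactMirAux.snd_reflBl (N : ℕ) (bl : List (ℕ × ℕ)) :
    (reflBl N bl).map Prod.snd = (bl.map Prod.snd).reverse := by
  unfold reflBl
  rw [List.map_map, ← List.map_reverse]
  rfl

theorem FactMirAux.split {ks : List ℕ} {b c i : ℕ} (hc : i < ks.getD c 0)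
    (hb : b = (ks.take c).sum + i) :
    c < ks.length ∧ ((ks.reverse.take (ks.length - 1 - c)).sum + (ks.getD c 0 - i)) = ks.sum - b ∧
      ks.reverse.getD (ks.length - 1 - c) 0 = ks.getD c 0 := by
  have hl : c < ks.length := by
    by_contra h
    rw [List.getD_eq_default _ _ (by omega)] at hc
    omega
  refine ⟨hl, ?_, ?_⟩
  · have h1 : ks.reverse.take (ks.length - 1 - c) = (ks.drop (c + 1)).reverse := by
      rw [List.take_reverse]
      congr 2
      omega
    have h2 : ks.sum = (ks.take c).sum + (ks.getD c 0 + (ks.drop (c + 1)).sum) := by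
      conv_lhs => rw [← List.take_append_drop c ks, List.sum_append,
        List.drop_eq_getElem_cons hl, List.sum_cons]
      rw [List.getD_eq_getElem _ _ hl]
    rw [h1, List.sum_reverse, h2, hb]
    omega
  · rw [List.getD_eq_getElem _ _ (by rw [List.length_reverse]; omega), List.getD_eq_getElem _ _ hl,
      List.getElem_reverse]
    congr 1
    omega

theorem FactMirAux.movL_rev {ks : List ℕ} {b : ℕ} (hb : b ∈ movL 0 ks) :
    ks.sum - b ∈ movL 0 ks.reverse ∧ b ≤ ks.sum := by
  obtain ⟨c, i, hi, hc, rfl⟩ := mem_movL.1 hb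
  obtain ⟨h1, h2, h3⟩ := FactMirAux.split hc rfl
  refine ⟨mem_movL.2 ⟨ks.length - 1 - c, ks.getD c 0 - i, by omega, ?_, h2.symm⟩, ?_⟩
  · rw [h3]
    omega
  · have h4 : ks.sum = (ks.take c).sum + (ks.getD c 0 + (ks.drop (c + 1)).sum) := by
      conv_lhs => rw [← List.take_append_drop c ks, List.sum_append,
        List.drop_eq_getElem_cons h1, List.sum_cons]
      rw [List.getD_eq_getElem _ _ h1]
    omega

theorem FactMirAux.blk_of_movL {bl : List (ℕ × ℕ)} {b : ℕ}
    (hb : b ∈ movL 0 (bl.map Prod.snd)) :
    ∃ c i a k, bl[c]? = some (a, k) ∧ i < k ∧ (pos bl).getD b 0 = a + i ∧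
      b = ((bl.take c).map Prod.snd).sum + i ∧ (bl.map Prod.snd).getD c 0 = k ∧ i ≠ 0 := by
  obtain ⟨c, i, hi, hc, rfl⟩ := mem_movL.1 hb
  obtain ⟨h1, h2, h3⟩ := FactMirAux.split hc rfl
  have h4 : c < bl.length := by rwa [List.length_map] at h1
  have h5 : (bl.map Prod.snd).getD c 0 = (bl[c]'h4).2 := by
    rw [List.getD_eq_getElem _ _ h1, List.getElem_map]
  rw [h5] at hc
  have h6 : bl[c]? = some ((bl[c]'h4).1, (bl[c]'h4).2) := List.getElem?_eq_getElem h4
  refine ⟨c, i, _, _, h6, hc, ?_, by rw [List.map_take], h5, hi⟩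
  have h7 := pos_getD h6 hc
  rw [List.map_take] at h7
  exact h7

theorem Blk.refl {Pi : Finset ℕ} {X : Fl} {bl : List (ℕ × ℕ)} (g : Good Pi X)
    (hb : Blk Pi X bl) (h2 : ∀ p ∈ bl, 1 ≤ p.2) :
    Blk (reflPi X.w.length Pi) X.refl (reflBl X.w.length bl) := by
  have hle : ∀ p ∈ bl, p.1 + p.2 ≤ X.w.length := fun p hp => (hb.comp p hp (h2 p hp)).le
  refine ⟨?_, ?_, ?_⟩
  · intro p hp _
    obtain ⟨q, hq, rfl⟩ := FactMirAux.mem_reflBl.1 hp
    exact (hb.comp q hq (h2 q hq)).refl g
  · intro b hb'
    obtain ⟨c, hc, rfl⟩ := Finset.mem_image.1 hb'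
    obtain ⟨q, hq, h3, h4⟩ := hb.cover c hc
    have h5 := hle q hq
    refine ⟨_, FactMirAux.mem_reflBl.2 ⟨q, hq, rfl⟩, ?_, ?_⟩
    · show X.w.length - (q.1 + q.2) < X.w.length - c
      omega
    · show X.w.length - c < X.w.length - (q.1 + q.2) + q.2
      omega
  · unfold reflBl
    rw [List.pairwise_map, List.pairwise_reverse]
    refine hb.sorted.imp_of_mem fun {p q} hp hq hpq => ?_
    have h5 := hle q hq
    show X.w.length - (q.1 + q.2) + q.2 ≤ X.w.length - (p.1 + p.2)
    omega

theorem pos_refl {N : ℕ} {bl : List (ℕ × ℕ)} (hN : ∀ p ∈ bl, p.1 + p.2 ≤ N) {b : ℕ}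
    (hb : b ∈ movL 0 (bl.map Prod.snd)) :
    (pos (reflBl N bl)).getD ((bl.map Prod.snd).sum - b) 0 = N - (pos bl).getD b 0 := by
  obtain ⟨c, i, a, k, hc, hi, hp, hbe, hk, hi0⟩ := FactMirAux.blk_of_movL hb
  have hcl : c < bl.length := (List.getElem?_eq_some_iff.1 hc).1
  have hm : (a, k) ∈ bl := List.mem_of_getElem? hc
  have hak := hN _ hm
  have h1 : i < (bl.map Prod.snd).getD c 0 := by rw [hk]; exact hi
  have hbe' : b = ((bl.map Prod.snd).take c).sum + i := by rw [hbe, List.map_take]
  obtain ⟨_, h2, _⟩ := FactMirAux.split h1 hbe'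
  rw [hk, List.length_map] at h2
  have h3 : (reflBl N bl)[bl.length - 1 - c]? = some (N - (a + k), k) := by
    unfold reflBl
    rw [List.getElem?_map, List.getElem?_reverse (by omega)]
    have : bl.length - 1 - (bl.length - 1 - c) = c := by omega
    rw [this, hc]
    rfl
  have h4 := pos_getD h3 (i := k - i) (by omega)
  rw [List.map_take, FactMirAux.snd_reflBl, h2] at h4
  rw [h4, hp]
  have : a + k ≤ N := hak
  omega

theorem segs_refl {X : Fl} {bl : List (ℕ × ℕ)} (hN : ∀ p ∈ bl, p.1 + p.2 ≤ X.w.length) :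
    segs X.refl.w (reflBl X.w.length bl) = (segs X.w bl).reverse.map List.reverse := by
  unfold segs reflBl
  rw [List.map_map, ← List.map_reverse, List.map_map]
  refine List.map_congr_left fun p hp => ?_
  have h1 := hN p (List.mem_reverse.1 hp)
  show (X.w.reverse.drop (X.w.length - (p.1 + p.2))).take p.2 =
    ((X.w.drop p.1).take p.2).reverse
  rw [List.drop_reverse, List.take_reverse]
  congr 1
  have h2 : X.w.length - (X.w.length - (p.1 + p.2)) = p.1 + p.2 := by omega
  rw [h2, List.length_take, Nat.min_eq_left h1, Nat.add_sub_cancel, List.drop_take,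
    Nat.add_sub_cancel_left]

theorem FactMirAux.entry_lt {τ : List ℕ}
    (h : (List.range τ.length).all (fun i => τ.contains i) = true) :
    ∀ i ∈ τ, i < τ.length := by
  have h1 : List.range τ.length ⊆ τ := by
    intro i hi
    have := List.all_eq_true.1 h i hi
    simpa using this
  have h2 : (List.range τ.length).Subperm τ := List.nodup_range.subperm h1
  have h3 : (List.range τ.length).Perm τ := h2.perm_of_length_le (by rw [List.length_range])
  intro i hi
  exact List.mem_range.1 (h3.mem_iff.2 hi)

theorem FactMirAux.phi {τ : List ℕ} (h : ∀ i ∈ τ, i < τ.length) (g : ℕ → ℕ) :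
    ((τ.reverse.map (fun i => τ.length - 1 - i)).map (fun j => g (τ.length - 1 - j))).reverse =
      τ.map g := by
  rw [List.map_map, ← List.map_reverse, List.reverse_reverse]
  refine List.map_congr_left fun i hi => ?_
  have := h i hi
  simp only [Function.comp]
  congr 1
  omega

theorem FactMirAux.mirT_mirT {t : List (List ℕ)} (h : ∀ τ ∈ t, ∀ i ∈ τ, i < τ.length) :
    mirT (mirT t) = t := by
  unfold mirT
  rw [← List.map_reverse, List.reverse_reverse, List.map_map]
  have : t = t.map id := by rw [List.map_id]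
  conv_rhs => rw [this]
  refine List.map_congr_left fun τ hτ => ?_
  have h1 := FactMirAux.phi (h τ hτ) id
  rw [List.map_id] at h1
  simp only [Function.comp, List.length_map, List.length_reverse, id]
  rw [← List.map_reverse] at h1
  exact h1

theorem FactMirAux.appT_mir {t L : List (List ℕ)} (h : ∀ τ ∈ t, ∀ i ∈ τ, i < τ.length)
    (hl : t.map List.length = L.map List.length) :
    ((appT (mirT t) (L.reverse.map List.reverse)).map List.reverse).reverse = appT t L := by
  have hlen : t.length = L.length := by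
    have := congrArg List.length hl
    simpa using this
  unfold appT mirT
  rw [List.zipWith_map_left, List.zipWith_map_right, List.map_zipWith,
    ← List.reverse_zipWith hlen, List.reverse_reverse]
  apply List.ext_getElem
  · rw [List.length_zipWith, List.length_zipWith]
  · intro j h1 h2
    rw [List.getElem_zipWith, List.getElem_zipWith]
    rw [List.length_zipWith] at h1
    have hj1 : j < t.length := by omega
    have hj2 : j < L.length := by omega
    have h3 : (t[j]'hj1).length = (L[j]'hj2).length := by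
      have e1 : (t.map List.length)[j]? = (L.map List.length)[j]? := by rw [hl]
      rw [List.getElem?_map, List.getElem?_map, List.getElem?_eq_getElem hj1,
        List.getElem?_eq_getElem hj2] at e1
      simpa using e1
    have h4 := h (t[j]'hj1) (List.getElem_mem hj1)
    have h5 := FactMirAux.phi h4 (fun i => (L[j]'hj2).getD i 0)
    rw [← h5]
    congr 1
    refine List.map_congr_left fun i hi => ?_
    obtain ⟨i', hi', rfl⟩ := List.mem_map.1 hi
    have h6 := h4 i' (List.mem_reverse.1 hi')
    rw [List.getD_eq_getElem _ _ (by rw [List.length_reverse]; omega),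
      List.getD_eq_getElem _ _ (by omega), List.getElem_reverse]
    congr 1
    omega

theorem FactMirAux.okF_spec {f : Fact} (h : okF f = true) :
    (∀ k ∈ f.ks, 2 ≤ k) ∧ f.t.map List.length = f.ks ∧
      (∀ τ ∈ f.t, (List.range τ.length).all (fun i => τ.contains i) = true) ∧
      f.tp ∈ movL 0 f.ks ∧ ∀ b, f.cls = some b → b ∈ movL 0 f.ks := by
  unfold okF at h
  simp only [Bool.and_eq_true] at h
  obtain ⟨⟨⟨⟨h1, h2⟩, h3⟩, h4⟩, h5⟩ := h
  refine ⟨fun k hk => of_decide_eq_true (List.all_eq_true.1 h1 k hk), eq_of_beq h2,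
    fun τ hτ => List.all_eq_true.1 h3 τ hτ, ?_, fun b hb => ?_⟩
  · simpa using h4
  · rw [hb] at h5
    simpa using h5

theorem okF_mir {f : Fact} (h : okF f = true) : okF (mirF f) = true ∧ mirF (mirF f) = f := by
  obtain ⟨h1, h2, h3, h4, h5⟩ := FactMirAux.okF_spec h
  have hlt : ∀ τ ∈ f.t, ∀ i ∈ τ, i < τ.length := fun τ hτ => FactMirAux.entry_lt (h3 τ hτ)
  constructor
  · unfold okF mirF
    simp only [Bool.and_eq_true]
    refine ⟨⟨⟨⟨?_, ?_⟩, ?_⟩, ?_⟩, ?_⟩
    · exact List.all_eq_true.2 fun k hk => decide_eq_true (h1 k (List.mem_reverse.1 hk))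
    · rw [beq_iff_eq, ← h2]
      unfold mirT
      rw [List.map_map, ← List.map_reverse]
      refine List.map_congr_left fun τ _ => ?_
      simp
    · refine List.all_eq_true.2 fun σ hσ => ?_
      obtain ⟨τ, hτ, rfl⟩ := List.mem_map.1 hσ
      have hτ' := List.mem_reverse.1 hτ
      refine List.all_eq_true.2 fun i hi => ?_
      rw [List.mem_range, List.length_map, List.length_reverse] at hi
      have h6 := List.all_eq_true.1 (h3 τ hτ') (τ.length - 1 - i) (List.mem_range.2 (by omega))
      have h7 : τ.length - 1 - i ∈ τ := by simpa using h6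
      rw [List.contains_iff_mem]
      refine List.mem_map.2 ⟨τ.length - 1 - i, List.mem_reverse.2 h7, by omega⟩
    · rw [List.contains_iff_mem]
      exact (FactMirAux.movL_rev h4).1
    · cases hc : f.cls with
      | none => rfl
      | some b =>
        show (movL 0 f.ks.reverse).contains (f.ks.sum - b) = true
        rw [List.contains_iff_mem]
        exact (FactMirAux.movL_rev (h5 b hc)).1
  · obtain ⟨ks, cls, t, tp, five⟩ := f
    simp only at h1 h2 h3 h4 h5 hlt
    have e1 : ks.sum - (ks.sum - tp) = tp := by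
      have := (FactMirAux.movL_rev h4).2
      omega
    have e2 : (cls.map fun b => ks.sum - b).map (fun b => ks.sum - b) = cls := by
      cases cls with
      | none => rfl
      | some b =>
        have := (FactMirAux.movL_rev (h5 b rfl)).2
        show some (ks.sum - (ks.sum - b)) = some b
        congr 1
        omega
    simp only [mirF, List.reverse_reverse, List.sum_reverse, FactMirAux.mirT_mirT hlt, e1, e2]

theorem HoldsAt_mir {D : ℕ} {f : Fact} (h : okF f = true) (hf : HoldsAt D (mirF f)) :
    HoldsAt D f := by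
  obtain ⟨h1, h2, h3, h4, h5⟩ := FactMirAux.okF_spec h
  have hlt : ∀ τ ∈ f.t, ∀ i ∈ τ, i < τ.length := fun τ hτ => FactMirAux.entry_lt (h3 τ hτ)
  intro Pi X bl g hb hks hD hcard hcls low hlow
  have hk2 : ∀ p ∈ bl, 1 ≤ p.2 := fun p hp => by
    have := h1 p.2 (by rw [← hks]; exact List.mem_map.2 ⟨p, hp, rfl⟩)
    omega
  have hle : ∀ p ∈ bl, p.1 + p.2 ≤ X.w.length := fun p hp => (hb.comp p hp (hk2 p hp)).le
  have hcls' : Cls (reflPi X.w.length Pi) X.refl (reflBl X.w.length bl) (mirF f).cls := by
    unfold mirF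
    cases hc : f.cls with
    | none =>
      rw [hc] at hcls
      exact HeadEps.refl g hcls
    | some b =>
      rw [hc] at hcls
      show X.refl.s.head? = some ((pos (reflBl X.w.length bl)).getD (f.ks.sum - b) 0)
      have h6 : b ∈ movL 0 (bl.map Prod.snd) := by rw [hks]; exact h5 b hc
      have h7 := pos_refl hle h6
      rw [hks] at h7
      rw [h7]
      have h8 : X.s.head? = some ((pos bl).getD b 0) := hcls
      show (X.s.map fun b => X.w.length - b).head? = _
      rw [List.head?_map, h8]
      rfl
  have hlow' : Low (reflPi X.w.length Pi) X.refl (low.map fun b => X.w.length - b) := by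
    refine ⟨?_, ?_, ?_⟩
    · refine (List.nodup_map_iff_inj_on hlow.nd).2 fun x hx y hy hxy => ?_
      have hx' := g.lt x (hlow.mem x hx).1
      have hy' := g.lt y (hlow.mem y hy).1
      omega
    · rw [List.length_map]
      exact hlow.len
    · intro β hβ
      obtain ⟨x, hx, rfl⟩ := List.mem_map.1 hβ
      obtain ⟨hx1, hx2⟩ := hlow.mem x hx
      refine ⟨List.mem_map.2 ⟨x, hx1, rfl⟩, fun hc => hx2 ?_⟩
      exact (mem_reflPi g (g.lt x hx1).le).1 hc
  have hN' : (X.refl).w.length = X.w.length := refl_length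
  obtain ⟨Y, hY1, hY2, hY3, hY4⟩ := hf (reflPi X.w.length Pi) X.refl (reflBl X.w.length bl)
    g.refl (hb.refl g hk2) (by rw [FactMirAux.snd_reflBl, hks]; rfl)
    (by rw [refl_slength]; exact hD) (by rw [refl_slength, reflPi_card g]; exact hcard)
    hcls' _ hlow'
  have hS := hY1.same g.refl
  have hYl : Y.w.length = X.w.length := by rw [hS.w.length_eq, hN']
  have hr : ∀ l : List ℕ, (∀ x ∈ l, x < X.w.length) →
      (l.map fun b => X.w.length - b).map (fun b => X.w.length - b) = l := by
    intro l hl
    rw [List.map_map]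
    conv_rhs => rw [← List.map_id l]
    refine List.map_congr_left fun x hx => ?_
    have := hl x hx
    simp only [Function.comp, id]
    omega
  refine ⟨Y.refl, Strip.of_refl g hY1, ?_, ?_, ?_⟩
  · show low <+: Y.s.map fun b => Y.w.length - b
    rw [hYl, ← hr low fun x hx => g.lt x (hlow.mem x hx).1]
    exact hY2.map _
  · have e1 : segs Y.w (reflBl X.w.length bl) = (segs Y.refl.w bl).reverse.map List.reverse := by
      have e2 := segs_refl (X := Y.refl) (bl := bl) (by
        intro p hp
        show p.1 + p.2 ≤ Y.w.reverse.length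
        rw [List.length_reverse, hYl]
        exact hle p hp)
      have e3 : Y.refl.refl.w = Y.w := List.reverse_reverse Y.w
      have e4 : Y.refl.w.length = X.w.length := by
        show Y.w.reverse.length = _
        rw [List.length_reverse, hYl]
      rw [e3, e4] at e2
      exact e2
    have e5 : segs Y.refl.w bl = ((segs Y.w (reflBl X.w.length bl)).map List.reverse).reverse := by
      rw [e1, List.map_map, ← List.map_reverse, List.reverse_reverse]
      conv_lhs => rw [← List.map_id (segs Y.refl.w bl)]
      refine List.map_congr_left fun m _ => ?_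
      simp only [Function.comp, id, List.reverse_reverse]
    rw [e5, hY3, segs_refl hle]
    refine FactMirAux.appT_mir hlt ?_
    rw [h2, segs_length hle, hks]
  · show (Y.s.map fun b => Y.w.length - b).getLast? = _
    rw [List.getLast?_map, hY4, hYl]
    have h6 : f.tp ∈ movL 0 (bl.map Prod.snd) := by rw [hks]; exact h4
    have h7 := pos_refl hle h6
    rw [hks] at h7
    obtain ⟨c, i, a, k, hc, hi, hp, _, _⟩ := FactMirAux.blk_of_movL h6
    have hak : a + k ≤ X.w.length := hle _ (List.mem_of_getElem? hc)
    show some (X.w.length - (pos (reflBl X.w.length bl)).getD (f.ks.sum - f.tp) 0) = _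
    rw [h7, hp]
    congr 1
    omega

end Pool.Agent.RS
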