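import Pool.Agent.RS.OspA

/-!
# RS module OspC: merging two blocks is removing one set
-/

set_option autoImplicit false

namespace Pool.Agent.RS

open Finset

namespace OspCAux

/-- the union of the first `i` blocks as a set of natural numbers -/
def U {n : ℕ} (L : List (Finset (Fin n))) (i : ℕ) : Finset ℕ :=
  ((L.take i).foldr (· ∪ ·) ∅).image Fin.val

theorem mem_foldr {n : ℕ} (L : List (Finset (Fin n))) (x : Fin n) :
    x ∈ L.foldr (· ∪ ·) ∅ ↔ ∃ B ∈ L, x ∈ B := by
  induction L with
  | nil => simp
  | cons a L ih => simp [ih]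

theorem mem_U {n : ℕ} (L : List (Finset (Fin n))) (i x : ℕ) :
    x ∈ U L i ↔ ∃ y : Fin n, (∃ B ∈ L.take i, y ∈ B) ∧ y.val = x := by
  simp only [U, mem_image, mem_foldr]

theorem chain_eq {n : ℕ} (A : OSP n) : A.chain = (Finset.Ico 1 A.blocks.length).image (U A.blocks) := by
  ext X
  simp only [OSP.chain, List.mem_toFinset, List.mem_map, mem_image, mem_Ico]
  constructor
  · rintro ⟨i, hi, rfl⟩
    refine ⟨i, ?_, rfl⟩
    rw [List.mem_iff_getElem] at hi
    obtain ⟨j, hj, rfl⟩ := hi
    simp only [List.length_tail, List.length_range] at hj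
    simp only [List.getElem_tail, List.getElem_range]
    omega
  · rintro ⟨i, hi, rfl⟩
    refine ⟨i, ?_, rfl⟩
    rw [List.mem_iff_getElem]
    refine ⟨i - 1, by simp only [List.length_tail, List.length_range]; omega, ?_⟩
    simp only [List.getElem_tail, List.getElem_range]
    omega

theorem U_inj {n : ℕ} (hn : 0 < n) (A : OSP n) {i j : ℕ} (hi : 1 ≤ i) (hi' : i < A.blocks.length)
    (hj : 1 ≤ j) (hj' : j < A.blocks.length) (h : U A.blocks i = U A.blocks j) : i = j := by
  have hc := A.chain_card hn
  rw [chain_eq] at hc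
  have h2 : ((Finset.Ico 1 A.blocks.length).image (U A.blocks)).card =
      (Finset.Ico 1 A.blocks.length).card := by
    rw [Nat.card_Ico]
    omega
  have h3 := Finset.card_image_iff.1 h2
  exact h3 (by simp; omega) (by simp; omega) h

theorem U_low {n : ℕ} (u v v' : List (Finset (Fin n))) {i : ℕ} (hi : i ≤ u.length) :
    U (u ++ v) i = U (u ++ v') i := by
  simp only [U, List.take_append_of_le_length hi]

theorem U_high {n : ℕ} (u v : List (Finset (Fin n))) (S T : Finset (Fin n)) {i : ℕ}
    (hi : u.length < i) : U (u ++ (S ∪ T) :: v) i = U (u ++ S :: T :: v) (i + 1) := by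
  obtain ⟨j, rfl⟩ : ∃ j, i = u.length + (j + 1) := ⟨i - u.length - 1, by omega⟩
  ext x
  rw [mem_U, mem_U, List.take_length_add_append,
    show u.length + (j + 1) + 1 = u.length + (j + 1 + 1) by omega, List.take_length_add_append]
  simp only [List.take_succ_cons, List.mem_append, List.mem_cons]
  constructor
  · rintro ⟨y, ⟨B, hB, hy⟩, rfl⟩
    refine ⟨y, ?_, rfl⟩
    rcases hB with hB | rfl | hB
    · exact ⟨B, Or.inl hB, hy⟩
    · rcases mem_union.1 hy with h | h
      · exact ⟨S, Or.inr (Or.inl rfl), h⟩
      · exact ⟨T, Or.inr (Or.inr (Or.inl rfl)), h⟩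
    · exact ⟨B, Or.inr (Or.inr (Or.inr hB)), hy⟩
  · rintro ⟨y, ⟨B, hB, hy⟩, rfl⟩
    refine ⟨y, ?_, rfl⟩
    rcases hB with hB | rfl | rfl | hB
    · exact ⟨B, Or.inl hB, hy⟩
    · exact ⟨B ∪ T, Or.inr (Or.inl rfl), mem_union_left _ hy⟩
    · exact ⟨S ∪ B, Or.inr (Or.inl rfl), mem_union_right _ hy⟩
    · exact ⟨B, Or.inr (Or.inr hB), hy⟩

theorem merge_chain {n : ℕ} (hn : 0 < n) {A B : OSP n} {u v : List (Finset (Fin n))}
    {S T : Finset (Fin n)} (hA : A.blocks = u ++ S :: T :: v) (hB : B.blocks = u ++ (S ∪ T) :: v) :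
    B.chain = A.chain.erase (U A.blocks (u.length + 1)) := by
  have lA : A.blocks.length = u.length + v.length + 2 := by rw [hA]; simp; omega
  have lB : B.blocks.length = u.length + v.length + 1 := by rw [hB]; simp; omega
  have low : ∀ i, i ≤ u.length → U B.blocks i = U A.blocks i := by
    intro i hi
    rw [hA, hB]
    exact U_low u _ _ hi
  have high : ∀ i, u.length < i → U B.blocks i = U A.blocks (i + 1) := by
    intro i hi
    rw [hA, hB]
    exact U_high u v S T hi
  ext X
  rw [mem_erase, chain_eq, chain_eq, mem_image, mem_image]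
  constructor
  · rintro ⟨i, hi, rfl⟩
    rw [mem_Ico, lB] at hi
    rcases le_or_gt i u.length with h | h
    · rw [low i h]
      refine ⟨fun he => ?_, i, by rw [mem_Ico, lA]; omega, rfl⟩
      have := U_inj hn A hi.1 (by omega) (by omega) (by omega) he
      omega
    · rw [high i h]
      refine ⟨fun he => ?_, i + 1, by rw [mem_Ico, lA]; omega, rfl⟩
      have := U_inj hn A (by omega) (by omega) (by omega) (by omega) he
      omega
  · rintro ⟨hX, i, hi, rfl⟩
    rw [mem_Ico, lA] at hi
    have hne : i ≠ u.length + 1 := fun h => hX (by rw [h])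
    rcases le_or_gt i u.length with h | h
    · exact ⟨i, by rw [mem_Ico, lB]; omega, low i h⟩
    · refine ⟨i - 1, by rw [mem_Ico, lB]; omega, ?_⟩
      rw [high (i - 1) (by omega), Nat.sub_add_cancel (by omega)]

/-- the ordered set partition obtained by merging two blocks -/
theorem exists_merge {n : ℕ} (A : OSP n) {u v : List (Finset (Fin n))} {S T : Finset (Fin n)}
    (hA : A.blocks = u ++ S :: T :: v) : ∃ B : OSP n, B.blocks = u ++ (S ∪ T) :: v := by
  have hne := A.ne
  have hd := A.disj
  have hc := A.cover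
  rw [hA] at hne hd hc
  rw [List.pairwise_append, List.pairwise_cons, List.pairwise_cons] at hd
  obtain ⟨d1, ⟨d2, d3, d4⟩, d5⟩ := hd
  refine ⟨⟨u ++ (S ∪ T) :: v, ?_, ?_, ?_⟩, rfl⟩
  · intro B hB
    rw [List.mem_append, List.mem_cons] at hB
    rcases hB with h | rfl | h
    · exact hne B (by simp [h])
    · exact (hne S (by simp)).mono subset_union_left
    · exact hne B (by simp [h])
  · rw [List.pairwise_append, List.pairwise_cons]
    refine ⟨d1, ⟨fun B hB => ?_, d4⟩, fun B hB C hC => ?_⟩
    · rw [disjoint_union_left]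
      exact ⟨d2 B (by simp [hB]), d3 B hB⟩
    · rw [List.mem_cons] at hC
      rcases hC with rfl | h
      · rw [disjoint_union_right]
        exact ⟨d5 B hB S (by simp), d5 B hB T (by simp)⟩
      · exact d5 B hB C (by simp [h])
  · intro i
    obtain ⟨B, hB, hi⟩ := hc i
    rw [List.mem_append, List.mem_cons, List.mem_cons] at hB
    rcases hB with h | rfl | rfl | h
    · exact ⟨B, by simp [h], hi⟩
    · exact ⟨B ∪ T, by simp, mem_union_left _ hi⟩
    · exact ⟨S ∪ B, by simp, mem_union_right _ hi⟩
    · exact ⟨B, by simp [h], hi⟩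

end OspCAux

open OspCAux in
/-- removing one set from the chain is merging two consecutive blocks -/
theorem merge_iff {n : ℕ} {A B : OSP n} : Merge A B ↔ ∃ S ∈ A.chain, B.chain = A.chain.erase S := by
  rcases Nat.eq_zero_or_pos n with rfl | hn
  · have hb : A.blocks = [] := by
      rcases h : A.blocks with _ | ⟨S, L⟩
      · rfl
      · obtain ⟨x, _⟩ := A.ne S (by rw [h]; simp)
        exact x.elim0
    constructor
    · rintro ⟨u, v, S, T, h, -⟩
      rw [hb] at h
      simp at h
    · rintro ⟨S, hS, -⟩
      rw [chain_eq, hb] at hS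
      simp at hS
  · constructor
    · rintro ⟨u, v, S, T, hA, hB⟩
      refine ⟨U A.blocks (u.length + 1), ?_, merge_chain hn hA hB⟩
      rw [chain_eq]
      refine mem_image_of_mem _ ?_
      rw [mem_Ico, hA]
      simp
    · rintro ⟨X, hX, hB⟩
      rw [chain_eq, mem_image] at hX
      obtain ⟨i, hi, rfl⟩ := hX
      rw [mem_Ico] at hi
      have h1 : A.blocks = A.blocks.take (i - 1) ++
          A.blocks[i - 1]'(by omega) :: A.blocks[i]'(by omega) :: A.blocks.drop (i + 1) := by
        conv_lhs => rw [← List.take_append_drop (i - 1) A.blocks]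
        rw [List.drop_eq_getElem_cons (show i - 1 < A.blocks.length by omega)]
        have h2 : i - 1 + 1 = i := by omega
        rw [h2, List.drop_eq_getElem_cons (show i < A.blocks.length by omega)]
      obtain ⟨C, hC⟩ := exists_merge A h1
      have h3 := merge_chain hn h1 hC
      have h4 : (A.blocks.take (i - 1)).length + 1 = i := by
        rw [List.length_take]
        omega
      rw [h4, ← hB] at h3
      have h5 : C = B := OSP.chain_inj h3
      subst h5
      exact ⟨_, _, _, _, h1, hC⟩

end Pool.Agent.RS
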