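import Pool.Agent.RS.Words

/-!
# RS module Walks: elementary facts on flags, walks and configurations
-/

set_option autoImplicit false

namespace Pool.Agent.RS

open Finset

theorem WalksAux.pre_swap (u v : List ℕ) (x y b : ℕ) (hb : b ≠ u.length + 1) :
    pre (u ++ x :: y :: v) b = pre (u ++ y :: x :: v) b := by
  unfold pre
  rcases Nat.lt_or_ge b (u.length + 1) with h | h
  · rw [List.take_append_of_le_length (by omega), List.take_append_of_le_length (by omega)]
  · obtain ⟨c, rfl⟩ : ∃ c, b = u.length + (c + 2) := ⟨b - u.length - 2, by omega⟩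
    rw [List.take_length_add_append, List.take_length_add_append]
    apply List.toFinset_eq_of_perm
    apply List.Perm.append_left
    simp only [List.take_succ_cons]
    exact List.Perm.swap _ _ _

theorem WalksAux.faces_nodup {w : List ℕ} (hw : w.Nodup) : ∀ s : List ℕ, s.Nodup →
    (∀ b ∈ s, b ≤ w.length) → (faces w s).Nodup
  | [], _, _ => List.nodup_nil
  | b :: s, hs, hl => by
    rw [faces, List.nodup_cons]
    refine ⟨fun h => ?_, WalksAux.faces_nodup hw s (List.nodup_cons.1 hs).2
      (fun c hc => hl c (List.mem_cons_of_mem _ hc))⟩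
    obtain ⟨t, _, ht, he⟩ := mem_faces.1 h
    have h1 := fc_card hw hs hl
    have h2 : (fc w t).card = t.length :=
      fc_card hw (List.Nodup.sublist ht.sublist (List.nodup_cons.1 hs).2)
        (fun c hc => hl c (List.mem_cons_of_mem _ (ht.subset hc)))
    rw [he, h2] at h1
    have h3 := ht.length_le
    rw [List.length_cons] at h1
    omega

theorem WalksAux.notMem_pre {w : List ℕ} (hw : w.Nodup) {p x : ℕ} (h : w[p]? = some x) :
    x ∉ pre w p := by
  intro hx
  obtain ⟨i, hi, hix⟩ := mem_pre.1 hx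
  have hil : i < w.length := (List.getElem?_eq_some_iff.1 hix).1
  have h2 := (List.getElem?_inj hil hw).1 (hix.trans h.symm)
  omega

theorem WalksAux.comp_iff {w : List ℕ} (hw : w.Nodup) {a k x : ℕ} :
    (∃ i, i < k ∧ w[a + i]? = some x) ↔ x ∈ pre w (a + k) ∧ x ∉ pre w a := by
  constructor
  · rintro ⟨i, hi, hx⟩
    refine ⟨mem_pre.2 ⟨a + i, by omega, hx⟩, fun h => ?_⟩
    exact WalksAux.notMem_pre hw hx (pre_mono (Nat.le_add_right a i) h)
  · rintro ⟨h1, h2⟩
    obtain ⟨j, hj, hjx⟩ := mem_pre.1 h1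
    have haj : a ≤ j := by
      by_contra hc
      exact h2 (mem_pre.2 ⟨j, by omega, hjx⟩)
    refine ⟨j - a, by omega, ?_⟩
    rw [Nat.add_sub_cancel' haj]
    exact hjx

theorem faces_nodup {Pi : Finset ℕ} {X : Fl} (g : Good Pi X) : (faces X.w X.s).Nodup := by
  exact WalksAux.faces_nodup g.wn X.s g.sn (fun b hb => (g.lt b hb).le)

theorem Step.mono {Pi Pi' : Finset ℕ} {X Y : Fl} {F : Face} (h : Pi ⊆ Pi') (hs : Step Pi X Y F) :
    Step Pi' X Y F := by
  cases hs with
  | word u v s x y h' => exact Step.word u v s x y (h h')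
  | order w t s a b => exact Step.order w t s a b

theorem Walk.mono {Pi Pi' : Finset ℕ} {X Y : Fl} {L : List Face} (h : Pi ⊆ Pi')
    (hs : Walk Pi X Y L) : Walk Pi' X Y L := by
  induction hs with
  | nil X => exact Walk.nil X
  | cons h1 _ ih => exact Walk.cons (h1.mono h) ih

theorem Walk.append {Pi : Finset ℕ} {X Y Z : Fl} {L L' : List Face} (h : Walk Pi X Y L)
    (h' : Walk Pi Y Z L') : Walk Pi X Z (L ++ L') := by
  induction h with
  | nil X => exact h'
  | cons h1 _ ih => exact Walk.cons h1 (ih h')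

theorem Same.refl {Pi : Finset ℕ} (X : Fl) : Same Pi X X := by
  exact ⟨List.Perm.refl _, List.Perm.refl _, fun _ _ => rfl⟩

theorem Same.symm {Pi : Finset ℕ} {X Y : Fl} (h : Same Pi X Y) : Same Pi Y X := by
  exact ⟨h.w.symm, h.s.symm, fun b hb => (h.fix b hb).symm⟩

theorem Same.trans {Pi : Finset ℕ} {X Y Z : Fl} (h : Same Pi X Y) (h' : Same Pi Y Z) :
    Same Pi X Z := by
  exact ⟨h'.w.trans h.w, h'.s.trans h.s, fun b hb => (h'.fix b hb).trans (h.fix b hb)⟩

theorem Same.good {Pi : Finset ℕ} {X Y : Fl} (h : Same Pi X Y) (g : Good Pi X) : Good Pi Y := by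
  refine ⟨h.w.nodup_iff.2 g.wn, h.s.nodup_iff.2 g.sn, fun b hb => h.s.mem_iff.2 (g.sub b hb),
    fun b hb => g.pos b (h.s.mem_iff.1 hb), fun b hb => ?_⟩
  rw [h.w.length_eq]
  exact g.lt b (h.s.mem_iff.1 hb)

theorem Step.same {Pi : Finset ℕ} {X Y : Fl} {F : Face} (g : Good Pi X) (h : Step Pi X Y F) :
    Same Pi X Y := by
  cases h with
  | word u v s x y h' =>
    refine ⟨List.Perm.append_left u (List.Perm.swap _ _ _), List.Perm.refl _, fun b hb => ?_⟩
    refine WalksAux.pre_swap u v y x b ?_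
    rintro rfl
    exact hb h'
  | order w t s a b =>
    exact ⟨List.Perm.refl _, List.Perm.append_left t (List.Perm.swap _ _ _), fun _ _ => rfl⟩

theorem Walk.same {Pi : Finset ℕ} {X Y : Fl} {L : List Face} (g : Good Pi X)
    (h : Walk Pi X Y L) : Same Pi X Y := by
  induction h with
  | nil X => exact Same.refl X
  | cons h1 _ ih =>
    have h2 := h1.same g
    exact h2.trans (ih (h2.good g))

theorem OKS_same {Pi : Finset ℕ} {X Y : Fl} (h : Same Pi X Y) {S : Finset ℕ} :
    OKS Pi X S ↔ OKS Pi Y S := by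
  unfold OKS
  rw [h.s.mem_iff, List.toFinset_eq_of_perm _ _ h.w]
  refine and_congr_right fun _ => and_congr_right fun _ => ?_
  refine forall_congr' fun b => imp_congr_right fun hb => ?_
  rw [h.fix b hb]

theorem AF_same {Pi : Finset ℕ} {X Y : Fl} (h : Same Pi X Y) {F : Face} :
    AF Pi X F ↔ AF Pi Y F := by
  unfold AF
  refine and_congr_right fun _ => and_congr_left fun _ => ?_
  exact forall_congr' fun S => imp_congr_right fun _ => OKS_same h

/-- the sets of a flag are allowed -/
theorem OKS_pre {Pi : Finset ℕ} {X : Fl} (g : Good Pi X) {b : ℕ} (hb : b ∈ X.s) :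
    OKS Pi X (pre X.w b) := by
  refine ⟨?_, ?_, fun c _ => ?_⟩
  · rw [pre_card g.wn (g.lt b hb).le]
    exact hb
  · intro x hx
    obtain ⟨i, _, hx⟩ := mem_pre.1 hx
    exact List.mem_toFinset.2 (List.mem_of_getElem? hx)
  · rcases Nat.le_total b c with h | h
    · exact Or.inl (pre_mono h)
    · exact Or.inr (pre_mono h)

theorem faces_AF {Pi : Finset ℕ} {X : Fl} (g : Good Pi X) {F : Face} (h : F ∈ faces X.w X.s) :
    AF Pi X F := by
  obtain ⟨t, ht0, ht, rfl⟩ := mem_faces.1 h
  refine ⟨?_, fun S hS => ?_, fun S hS T hT => ?_⟩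
  · obtain ⟨b, hb⟩ := List.exists_mem_of_ne_nil t ht0
    exact ⟨pre X.w b, List.mem_toFinset.2 (List.mem_map.2 ⟨b, hb, rfl⟩)⟩
  · obtain ⟨b, hb, rfl⟩ := List.mem_map.1 (List.mem_toFinset.1 hS)
    exact OKS_pre g (ht.subset hb)
  · obtain ⟨b, _, rfl⟩ := List.mem_map.1 (List.mem_toFinset.1 hS)
    obtain ⟨c, _, rfl⟩ := List.mem_map.1 (List.mem_toFinset.1 hT)
    rcases Nat.le_total b c with h | h
    · exact Or.inl (pre_mono h)
    · exact Or.inr (pre_mono h)

/-- the new face is a face of the new flag -/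
theorem Step.mem {Pi : Finset ℕ} {X Y : Fl} {F : Face} (h : Step Pi X Y F) :
    F ∈ faces Y.w Y.s := by
  cases h with
  | word u v s x y h' => exact mem_faces.2 ⟨_, List.cons_ne_nil _ _, List.suffix_refl _, rfl⟩
  | order w t s a b =>
    refine mem_faces.2 ⟨a :: s, List.cons_ne_nil _ _, ⟨t ++ [b], ?_⟩, rfl⟩
    simp

theorem Walk.AF {Pi : Finset ℕ} {X Y : Fl} {L : List Face} (g : Good Pi X)
    (h : Walk Pi X Y L) : ∀ F ∈ L, AF Pi X F := by
  induction h with
  | nil X => intro F hF; exact absurd hF List.not_mem_nil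
  | cons h1 _ ih =>
    have h2 := h1.same g
    intro F hF
    rcases List.mem_cons.1 hF with rfl | hF
    · exact (AF_same h2).2 (faces_AF (h2.good g) h1.mem)
    · exact (AF_same h2).2 (ih (h2.good g) F hF)

/-- a walk with additional fixed bars on the top -/
theorem Walk.top {Pi : Finset ℕ} {X Y : Fl} {L : List Face} (g : Good Pi X)
    (h : Walk Pi X Y L) {T : List ℕ} (hT : ∀ b ∈ T, b ∉ Pi) :
    Walk Pi ⟨X.w, X.s ++ T⟩ ⟨Y.w, Y.s ++ T⟩ (L.map (fun F => F ∪ fc X.w T)) := by
  induction h with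
  | nil X => exact Walk.nil _
  | @cons X Y Z F L h1 _ ih =>
    have h2 := h1.same g
    have h3 : fc Y.w T = fc X.w T := fc_congr fun b hb => h2.fix b (hT b hb)
    have h4 := ih (h2.good g)
    rw [h3] at h4
    rw [List.map_cons]
    refine Walk.cons ?_ h4
    cases h1 with
    | word u v s x y h' =>
      have h5 := Step.word (Pi := Pi) u v (s ++ T) x y h'
      rw [← List.cons_append, fc_append, h3] at h5
      exact h5
    | order w t s a b =>
      have h5 := Step.order (Pi := Pi) w t (s ++ T) a b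
      have h6 : fc w (a :: (s ++ T)) = fc w (a :: s) ∪ fc w T := by
        rw [← List.cons_append, fc_append]
      rw [h6] at h5
      simpa using h5

theorem Strip.same {Pi : Finset ℕ} {X Y : Fl} (g : Good Pi X) (h : Strip Pi X Y) :
    Same Pi X Y := by
  obtain ⟨L, h1, _⟩ := h
  exact h1.same g

/-- the letters outside a component do not move -/
theorem Same.getElem {Pi : Finset ℕ} {X Y : Fl} (g : Good Pi X) (h : Same Pi X Y) {p : ℕ}
    (h0 : p ∉ Pi) (h1 : p + 1 ∉ Pi) : Y.w[p]? = X.w[p]? := by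
  have hl := h.w.length_eq
  by_cases hp : p < X.w.length
  · have hX : X.w[p]? = some (X.w[p]'hp) := List.getElem?_eq_getElem hp
    have hY : Y.w[p]? = some (Y.w[p]'(by omega)) := List.getElem?_eq_getElem _
    have e := h.fix (p + 1) h1
    rw [pre_succ hX, pre_succ hY, h.fix p h0] at e
    have h2 := WalksAux.notMem_pre (h.good g).wn hY
    rw [h.fix p h0] at h2
    have h3 : Y.w[p]'(by omega) ∈ insert (X.w[p]'hp) (pre X.w p) := by
      rw [← e]
      exact Finset.mem_insert_self _ _
    rcases Finset.mem_insert.1 h3 with h4 | h4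
    · rw [hX, hY, h4]
    · exact absurd h4 h2
  · rw [List.getElem?_eq_none (by omega), List.getElem?_eq_none (by omega)]

/-- the letters of a component stay in the component -/
theorem Same.comp {Pi : Finset ℕ} {X Y : Fl} (g : Good Pi X) (h : Same Pi X Y) {a k x : ℕ}
    (c : IsComp Pi X a k) : (∃ i, i < k ∧ X.w[a + i]? = some x) ↔ ∃ i, i < k ∧ Y.w[a + i]? = some x := by
  rw [WalksAux.comp_iff g.wn, WalksAux.comp_iff (h.good g).wn, h.fix a c.left,
    h.fix (a + k) c.right]

end Pool.Agent.RS
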