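import Pool.Agent.RS.OspA
import Pool.Agent.RS.Walks

/-!
# RS module OspD: the faces of the full configuration
-/

set_option autoImplicit false

namespace Pool.Agent.RS

open Finset

/-- for the full configuration (one component, all bars) the faces are exactly the nonempty chains
of proper nonempty subsets -/
theorem AF_full {n : ℕ} {Pi : Finset ℕ} {X : Fl} (g : Good Pi X) (hw : X.w.Perm (List.range n))
    (hs : ∀ b, b ∈ X.s ↔ 0 < b ∧ b < n) (hPi : ∀ b, b ∈ Pi ↔ 0 < b ∧ b < n) {F : Face} :
    AF Pi X F ↔ F.Nonempty ∧ IsCh n F := by
  have hlen : X.w.length = n := by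
    have := hw.length_eq
    rwa [List.length_range] at this
  have hset : X.w.toFinset = range n := by
    ext x
    rw [List.mem_toFinset, hw.mem_iff, List.mem_range, Finset.mem_range]
  have key : ∀ S : Finset ℕ, OKS Pi X S ↔ S.Nonempty ∧ S ⊂ range n := by
    intro S
    unfold OKS
    rw [hs, hset]
    constructor
    · rintro ⟨⟨h1, h2⟩, h3, h4⟩
      refine ⟨Finset.card_pos.1 h1, ?_⟩
      refine (Finset.ssubset_iff_subset_ne).2 ⟨h3, ?_⟩
      rintro rfl
      rw [Finset.card_range] at h2
      exact lt_irrefl _ h2
    · rintro ⟨h1, h2⟩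
      refine ⟨⟨Finset.card_pos.2 h1, ?_⟩, h2.subset, ?_⟩
      · have := Finset.card_lt_card h2
        rwa [Finset.card_range] at this
      · intro b hb
        rw [hPi] at hb
        by_cases hb0 : b = 0
        · right
          subst hb0
          intro x hx
          unfold pre at hx
          simp at hx
        · left
          have hbn : n ≤ b := by
            by_contra h5
            exact hb ⟨by omega, by omega⟩
          intro x hx
          unfold pre
          rw [List.take_of_length_le (by omega), hset]
          exact h2.subset hx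
  unfold AF IsCh
  constructor
  · rintro ⟨h1, h2, h3⟩
    exact ⟨h1, fun S hS => (key S).1 (h2 S hS), h3⟩
  · rintro ⟨h1, h2, h3⟩
    exact ⟨h1, fun S hS => (key S).2 (h2 S hS), h3⟩

end Pool.Agent.RS
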