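import Pool.Agent.RS.Walks

/-!
# RS module Seq: a closed walk as a periodic sequence of flags
-/

set_option autoImplicit false

namespace Pool.Agent.RS

open Finset

theorem SeqAux.faces_get (w : List ℕ) : ∀ (s : List ℕ) (i : ℕ),
    (faces w s)[i]? = if i < s.length then some (fc w (s.drop i)) else none := by
  intro s
  induction s with
  | nil => intro i; simp [faces]
  | cons b s ih =>
    intro i
    cases i with
    | zero => simp [faces]
    | succ i => simp [faces, ih]

theorem SeqAux.faces_congr {w w' : List ℕ} : ∀ {s : List ℕ}, (∀ b ∈ s, pre w b = pre w' b) →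
    faces w s = faces w' s := by
  intro s
  induction s with
  | nil => intro _; rfl
  | cons b s ih =>
    intro h
    rw [faces, faces, fc_congr h, ih (fun c hc => h c (List.mem_cons_of_mem _ hc))]

theorem SeqAux.pre_swap (u v : List ℕ) (x y b : ℕ) (hb : b ≠ u.length + 1) :
    pre (u ++ x :: y :: v) b = pre (u ++ y :: x :: v) b := by
  rcases Nat.lt_or_ge u.length b with h | h
  · obtain ⟨c, rfl⟩ : ∃ c, b = u.length + (c + 2) := ⟨b - u.length - 2, by omega⟩
    unfold pre
    rw [List.take_length_add_append, List.take_length_add_append]
    ext z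
    simp only [List.take_succ_cons, List.mem_toFinset, List.mem_append, List.mem_cons]
    tauto
  · unfold pre
    rw [List.take_append_of_le_length h, List.take_append_of_le_length h]

theorem SeqAux.good_word {Pi : Finset ℕ} {u v s : List ℕ} {x y : ℕ}
    (g : Good Pi ⟨u ++ x :: y :: v, s⟩) : Good Pi ⟨u ++ y :: x :: v, s⟩ := by
  have hp : (u ++ y :: x :: v).Perm (u ++ x :: y :: v) :=
    List.Perm.append_left u (List.Perm.swap x y v)
  refine ⟨(hp.nodup_iff).2 g.wn, g.sn, g.sub, g.pos, ?_⟩
  intro b hb
  have := g.lt b hb
  simpa using this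

/-- a step changes exactly one face of the list of faces: the new face `F` is at the position
`X.s.length - F.card`, all others stay -/
theorem Step.faces_eq {Pi : Finset ℕ} {X Y : Fl} {F : Face} (g : Good Pi X) (h : Step Pi X Y F) :
    0 < F.card ∧ F.card ≤ X.s.length ∧
    ∀ i, (faces Y.w Y.s)[i]? = if i + F.card = X.s.length then some F else (faces X.w X.s)[i]? := by
  cases h with
  | word u v s x y hm =>
    have g' := SeqAux.good_word g
    have hc : (fc (u ++ y :: x :: v) ((u.length + 1) :: s)).card = s.length + 1 := by
      rw [fc_card g'.wn g'.sn (fun b hb => (g'.lt b hb).le)]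
      rfl
    rw [hc]
    refine ⟨by omega, by simp, ?_⟩
    intro i
    have hs : faces (u ++ y :: x :: v) s = faces (u ++ x :: y :: v) s := by
      apply SeqAux.faces_congr
      intro b hb
      apply SeqAux.pre_swap
      rintro rfl
      exact (List.nodup_cons.1 g.sn).1 hb
    cases i with
    | zero =>
      rw [if_pos (by simp)]
      simp [faces]
    | succ i =>
      rw [if_neg (by simp only [List.length_cons]; omega)]
      simp only [faces, List.getElem?_cons_succ]
      rw [hs]
  | order w t s a b =>
    have hsn : (a :: s).Nodup := by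
      have h1 := (List.nodup_append.1 g.sn).2.1
      rw [List.nodup_cons, List.nodup_cons] at h1
      rw [List.nodup_cons]
      exact ⟨fun h2 => h1.1 (List.mem_cons_of_mem _ h2), h1.2.2⟩
    have hc : (fc w (a :: s)).card = s.length + 1 := by
      rw [fc_card g.wn hsn]
      · rfl
      · intro c hc
        apply (g.lt c _).le
        rcases List.mem_cons.1 hc with h1 | h1
        · rw [h1]; simp
        · simp [h1]
    rw [hc]
    refine ⟨by omega, by simp only [List.length_append, List.length_cons]; omega, ?_⟩
    intro i
    simp only [SeqAux.faces_get, List.length_append, List.length_cons]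
    by_cases h1 : i + (s.length + 1) = t.length + (s.length + 1 + 1)
    · rw [if_pos h1, if_pos (by omega)]
      have h2 : i = t.length + 1 := by omega
      rw [h2, List.drop_length_add_append]
      rfl
    · rw [if_neg h1]
      by_cases h3 : i < t.length + (s.length + 1 + 1)
      · rw [if_pos h3, if_pos h3]
        congr 1
        rcases Nat.lt_or_ge t.length i with h4 | h4
        · obtain ⟨c, rfl⟩ : ∃ c, i = t.length + (c + 2) := ⟨i - t.length - 2, by omega⟩
          rw [List.drop_length_add_append, List.drop_length_add_append]
          rfl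
        · apply fc_perm
          rw [List.drop_append_of_le_length h4, List.drop_append_of_le_length h4]
          exact List.Perm.append_left _ (List.Perm.swap _ _ _)
      · rw [if_neg h3, if_neg h3]

/-- the old face at this position is different from `F` -/
theorem Step.faces_ne {Pi : Finset ℕ} {X Y : Fl} {F : Face} (g : Good Pi X)
    (h : Step Pi X Y F) : (faces X.w X.s)[X.s.length - F.card]? ≠ some F := by
  have key : ∀ (w : List ℕ) (s : List ℕ) (b : ℕ) (S : Finset ℕ), w.Nodup →
      (∀ c ∈ s, c < w.length) → b < w.length → S.card = b → S ∈ fc w s → b ∈ s ∧ S = pre w b := by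
    intro w s b S hw hs hb hS hm
    unfold fc at hm
    rw [List.mem_toFinset, List.mem_map] at hm
    obtain ⟨c, hc, rfl⟩ := hm
    rw [pre_card hw (hs c hc).le] at hS
    subst hS
    exact ⟨hc, rfl⟩
  cases h with
  | word u v s x y hm =>
    have g' := SeqAux.good_word g
    have hc : (fc (u ++ y :: x :: v) ((u.length + 1) :: s)).card = s.length + 1 := by
      rw [fc_card g'.wn g'.sn (fun b hb => (g'.lt b hb).le)]
      rfl
    rw [hc]
    simp only [List.length_cons, Nat.sub_self, faces, List.getElem?_cons_zero]
    intro h1
    have h2 : fc (u ++ x :: y :: v) ((u.length + 1) :: s) =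
        fc (u ++ y :: x :: v) ((u.length + 1) :: s) := Option.some.inj h1
    have hb : u.length + 1 < (u ++ x :: y :: v).length := g.lt _ List.mem_cons_self
    have hb' : u.length + 1 < (u ++ y :: x :: v).length := g'.lt _ List.mem_cons_self
    have h3 : pre (u ++ x :: y :: v) (u.length + 1) ∈
        fc (u ++ y :: x :: v) ((u.length + 1) :: s) := by
      rw [← h2]
      unfold fc
      simp
    have h4 := (key _ _ (u.length + 1) _ g'.wn (fun c hc => g'.lt c hc) hb'
      (pre_card g.wn hb.le) h3).2
    have h5 : x ∈ pre (u ++ x :: y :: v) (u.length + 1) := by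
      rw [mem_pre]
      exact ⟨u.length, by omega, by simp⟩
    rw [h4, mem_pre] at h5
    obtain ⟨i, hi, h6⟩ := h5
    have h7 : (u ++ y :: x :: v)[u.length + 1]? = some x := by
      simp
    have h8 := (List.getElem?_inj (show i < (u ++ y :: x :: v).length by omega) g'.wn).1 (h6.trans h7.symm)
    omega
  | order w t s a b =>
    have h1 := (List.nodup_append.1 g.sn).2.1
    rw [List.nodup_cons, List.nodup_cons] at h1
    have hsn : (a :: s).Nodup := by
      rw [List.nodup_cons]
      exact ⟨fun h2 => h1.1 (List.mem_cons_of_mem _ h2), h1.2.2⟩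
    have hc : (fc w (a :: s)).card = s.length + 1 := by
      rw [fc_card g.wn hsn]
      · rfl
      · intro c hc
        apply (g.lt c _).le
        rcases List.mem_cons.1 hc with h1 | h1
        · rw [h1]; simp
        · simp [h1]
    rw [hc]
    have h2 : (t ++ a :: b :: s).length - (s.length + 1) = t.length + 1 := by
      simp only [List.length_append, List.length_cons]
      omega
    simp only [h2, SeqAux.faces_get]
    rw [if_pos (by simp only [List.length_append, List.length_cons]; omega),
      List.drop_length_add_append]
    intro h3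
    have h4 : fc w (b :: s) = fc w (a :: s) := Option.some.inj h3
    have h5 : pre w a ∈ fc w (b :: s) := by
      rw [h4]
      unfold fc
      simp
    have ha : a < w.length := g.lt a (by simp)
    have h6 := (key w (b :: s) a _ g.wn (fun c hc => g.lt c (by
      simp only [List.mem_append, List.mem_cons]
      rcases List.mem_cons.1 hc with h | h
      · exact Or.inr (Or.inr (Or.inl h))
      · exact Or.inr (Or.inr (Or.inr h)))) ha (pre_card g.wn ha.le) h5).1
    exact h1.1 h6

/-- the flags of a walk -/
theorem Walk.seq {Pi : Finset ℕ} {X Y : Fl} {L : List Face} (h : Walk Pi X Y L) :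
    ∃ f : ℕ → Fl, f 0 = X ∧ f L.length = Y ∧
      ∀ i (hi : i < L.length), Step Pi (f i) (f (i + 1)) L[i] := by
  induction h with
  | nil X => exact ⟨fun _ => X, rfl, rfl, fun i hi => absurd hi (by simp)⟩
  | @cons X Y Z F L hs _ ih =>
    obtain ⟨f, h0, h1, h2⟩ := ih
    refine ⟨fun i => match i with
      | 0 => X
      | i + 1 => f i, rfl, h1, ?_⟩
    intro i hi
    cases i with
    | zero =>
      simp only [List.getElem_cons_zero]
      rw [h0]
      exact hs
    | succ i =>
      simp only [List.getElem_cons_succ]
      exact h2 i (by simpa using hi)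

/-- a closed walk as a periodic sequence: `G j` is the face introduced in the step from `j - 1` to
`j` -/
theorem Walk.periodic {Pi : Finset ℕ} {X : Fl} {L : List Face} (h : Walk Pi X X L)
    (hL : L ≠ []) :
    ∃ (f : ℤ → Fl) (G : ℤ → Face), f 0 = X ∧ (∀ j, f (j + L.length) = f j) ∧
      (∀ j, G (j + L.length) = G j) ∧ (∀ j, Step Pi (f (j - 1)) (f j) (G j)) ∧
      ∀ i : ℕ, ∀ hi : i < L.length, G (i + 1 : ℤ) = L[i] := by
  obtain ⟨f, h0, h1, h2⟩ := h.seq
  have hn : 0 < L.length := List.length_pos_iff.2 hL
  have hn' : (0 : ℤ) < L.length := by exact_mod_cast hn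
  have hlt : ∀ j : ℤ, (j % L.length).toNat < L.length := by
    intro j
    have := Int.emod_lt_of_pos j hn'
    have := Int.emod_nonneg j hn'.ne'
    omega
  refine ⟨fun j => f (j % L.length).toNat, fun j => L[((j - 1) % L.length).toNat]'(hlt _),
    ?_, ?_, ?_, ?_, ?_⟩
  · simpa using h0
  · intro j
    simp
  · intro j
    have e : (j + L.length - 1) % (L.length : ℤ) = (j - 1) % L.length := by
      have : j + L.length - 1 = j - 1 + L.length := by ring
      rw [this, Int.add_emod_right]
    simp only [e]
  · intro j
    have h3 := h2 _ (hlt (j - 1))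
    have h4 := Int.emod_lt_of_pos (j - 1) hn'
    have h5 := Int.emod_nonneg (j - 1) hn'.ne'
    have e : f (j % L.length).toNat = f (((j - 1) % L.length).toNat + 1) := by
      have h6 : j % (L.length : ℤ) = ((j - 1) % L.length + 1) % L.length := by
        rw [Int.emod_add_emod]
        congr 1
        ring
      rcases lt_or_ge ((j - 1) % (L.length : ℤ) + 1) L.length with h7 | h7
      · rw [Int.emod_eq_of_lt (by omega) h7] at h6
        rw [h6]
        congr 1
        omega
      · have h8 : (j - 1) % (L.length : ℤ) + 1 = L.length := by omega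
        rw [h8, Int.emod_self] at h6
        rw [h6]
        have h9 : ((j - 1) % (L.length : ℤ)).toNat + 1 = L.length := by omega
        rw [h9, h1]
        exact h0
    show Step Pi (f ((j - 1) % L.length).toNat) (f (j % L.length).toNat) _
    rw [e]
    exact h3
  · intro i hi
    have e : (((i : ℤ) + 1 - 1) % (L.length : ℤ)).toNat = i := by
      have h3 : (i : ℤ) + 1 - 1 = i := by ring
      rw [h3, Int.emod_eq_of_lt (by omega) (by exact_mod_cast hi)]
      simp
    simp only [e]

end Pool.Agent.RS
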