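import Pool.Agent.RS.OspB
import Pool.Agent.RS.OspC
import Pool.Agent.RS.OspD
import Pool.Agent.RS.Seq
import Pool.Agent.RS.Assemble

/-!
# RS module FromStrip: a closed strip of the full configuration gives a rhombic strip of the
face lattice of the permutahedron
-/

set_option autoImplicit false

namespace Pool.Agent.RS

open Finset

theorem PFace.rk_le {n : ℕ} (v : PFace n) (hn : 1 ≤ n) : v.rk ≤ n := by
  cases v with
  | none => exact Nat.zero_le _
  | some A =>
    have h := OSP.chain_card (by omega) A
    show n + 1 - A.blocks.length ≤ n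
    omega

theorem PFace.rk_cov {n : ℕ} (hn : 1 ≤ n) {u v : PFace n} (h : PFace.Cov u v) :
    v.rk = u.rk + 1 := by
  cases h with
  | vertex A hA =>
    show n + 1 - A.blocks.length = 0 + 1
    omega
  | merge A B hAB =>
    obtain ⟨p, q, S, T, h1, h2⟩ := hAB
    have h3 := OSP.length_le A
    show n + 1 - B.blocks.length = n + 1 - A.blocks.length + 1
    rw [h1] at h3 ⊢
    rw [h2]
    simp only [List.length_append, List.length_cons] at h3 ⊢
    omega

namespace FromStripAux

theorem mem_fc {w t : List ℕ} {S : Finset ℕ} : S ∈ fc w t ↔ ∃ b ∈ t, pre w b = S := by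
  unfold fc
  rw [List.mem_toFinset, List.mem_map]

theorem faces_get {w : List ℕ} : ∀ (s : List ℕ) (i : ℕ),
    (faces w s)[i]? = if i < s.length then some (fc w (s.drop i)) else none := by
  intro s
  induction s with
  | nil => intro i; simp [faces]
  | cons b s ih =>
    intro i
    cases i with
    | zero => simp [faces]
    | succ i =>
      simp only [faces, List.getElem?_cons_succ, List.drop_succ_cons, List.length_cons,
        Nat.add_lt_add_iff_right]
      exact ih i

/-- the flag is a flag of the permutahedron -/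
structure PF (n : ℕ) (Y : Fl) : Prop where
  wn : Y.w.Nodup
  sn : Y.s.Nodup
  wl : Y.w.length = n
  ws : Y.w.toFinset = range n
  sl : Y.s.length = n - 1
  sm : ∀ b ∈ Y.s, 0 < b ∧ b < n

theorem PF.of {n : ℕ} {Pi : Finset ℕ} {X Y : Fl} (g : Good Pi X)
    (hw : X.w.Perm (List.range n)) (hs : ∀ b, b ∈ X.s ↔ 0 < b ∧ b < n) (h : Same Pi X Y) :
    PF n Y := by
  have gY : Good Pi Y := h.good g
  have hwY : Y.w.Perm (List.range n) := h.w.trans hw
  refine ⟨gY.wn, gY.sn, ?_, ?_, ?_, ?_⟩
  · rw [hwY.length_eq, List.length_range]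
  · ext x
    rw [List.mem_toFinset, hwY.mem_iff, List.mem_range, Finset.mem_range]
  · have h1 : Y.s.toFinset = Finset.Ioo 0 n := by
      ext b
      rw [List.mem_toFinset, h.s.mem_iff, hs, Finset.mem_Ioo]
    rw [← List.toFinset_card_of_nodup gY.sn, h1, Nat.card_Ioo]
    omega
  · intro b hb
    exact (hs b).1 (h.s.mem_iff.1 hb)

theorem PF.card {n : ℕ} {Y : Fl} (p : PF n Y) (i : ℕ) :
    (fc Y.w (Y.s.drop i)).card = n - 1 - i := by
  rw [fc_card p.wn (p.sn.sublist (List.drop_sublist i Y.s)), List.length_drop, p.sl]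
  intro b hb
  have := (p.sm b (List.mem_of_mem_drop hb)).2
  rw [p.wl]
  omega

theorem PF.isCh {n : ℕ} {Y : Fl} (p : PF n Y) (i : ℕ) : IsCh n (fc Y.w (Y.s.drop i)) := by
  constructor
  · intro S hS
    obtain ⟨b, hb, rfl⟩ := mem_fc.1 hS
    have hb' := p.sm b (List.mem_of_mem_drop hb)
    have hc : (pre Y.w b).card = b := pre_card p.wn (by rw [p.wl]; omega)
    refine ⟨Finset.card_pos.1 (by omega), (Finset.ssubset_iff_subset_ne).2 ⟨?_, ?_⟩⟩
    · intro x hx
      obtain ⟨j, hj, hjx⟩ := mem_pre.1 hx
      rw [← p.ws, List.mem_toFinset]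
      exact List.mem_of_getElem? hjx
    · intro he
      rw [he, Finset.card_range] at hc
      omega
  · intro S hS T hT
    obtain ⟨b, _, rfl⟩ := mem_fc.1 hS
    obtain ⟨c, _, rfl⟩ := mem_fc.1 hT
    rcases le_total b c with h | h
    · exact Or.inl (pre_mono h)
    · exact Or.inr (pre_mono h)

/-- the ordered set partition of a chain -/
noncomputable def osp {n : ℕ} (hn : 0 < n) (F : Face) : OSP n :=
  open Classical in
  if h : IsCh n F then (exists_osp hn h).choose
  else (exists_osp hn (F := ∅) ⟨by simp, by simp⟩).choose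

theorem osp_chain {n : ℕ} (hn : 0 < n) {F : Face} (h : IsCh n F) : (osp hn F).chain = F := by
  unfold osp
  rw [dif_pos h]
  exact (exists_osp hn h).choose_spec

theorem osp_of {n : ℕ} (hn : 0 < n) (A : OSP n) : osp hn A.chain = A :=
  OSP.chain_inj (osp_chain hn A.chain_isCh)

theorem osp_inj {n : ℕ} (hn : 0 < n) {F F' : Face} (h : IsCh n F) (h' : IsCh n F')
    (he : osp hn F = osp hn F') : F = F' := by
  rw [← osp_chain hn h, ← osp_chain hn h', he]

/-- the element of rank `r` of the flag -/
noncomputable def el {n : ℕ} (hn : 0 < n) (Y : Fl) (r : ℕ) : PFace n :=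
  if r = 0 then none else some (osp hn (fc Y.w (Y.s.drop (r - 1))))

theorem el_rk {n : ℕ} (hn : 0 < n) {Y : Fl} (p : PF n Y) {r : ℕ} (hr : r ≤ n) :
    (el hn Y r).rk = r := by
  unfold el
  split_ifs with h
  · subst h
    rfl
  · show n + 1 - (osp hn (fc Y.w (Y.s.drop (r - 1)))).blocks.length = r
    rw [← OSP.chain_card hn, osp_chain hn (p.isCh _), p.card]
    omega

theorem el_cov {n : ℕ} (hn : 0 < n) {Y : Fl} (p : PF n Y) {r : ℕ} (hr : r < n) :
    PFace.Cov (el hn Y r) (el hn Y (r + 1)) := by
  unfold el
  rw [if_neg (Nat.succ_ne_zero r)]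
  split_ifs with h
  · subst h
    refine PFace.Cov.vertex _ ?_
    rw [← OSP.chain_card hn, osp_chain hn (p.isCh _), p.card]
    omega
  · refine PFace.Cov.merge _ _ ?_
    rw [merge_iff, osp_chain hn (p.isCh _), osp_chain hn (p.isCh _)]
    have hlt : r - 1 < Y.s.length := by
      rw [p.sl]
      omega
    have hd : Y.s.drop (r - 1) = Y.s[r - 1] :: Y.s.drop (r + 1 - 1) := by
      rw [List.drop_eq_getElem_cons hlt]
      rw [show r - 1 + 1 = r + 1 - 1 by omega]
    have hnd : (Y.s.drop (r - 1)).Nodup := p.sn.sublist (List.drop_sublist _ _)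
    rw [hd] at hnd
    refine ⟨pre Y.w Y.s[r - 1], ?_, ?_⟩
    · rw [hd, mem_fc]
      exact ⟨_, List.mem_cons_self, rfl⟩
    · rw [hd]
      have hins : fc Y.w (Y.s[r - 1] :: Y.s.drop (r + 1 - 1)) =
          insert (pre Y.w Y.s[r - 1]) (fc Y.w (Y.s.drop (r + 1 - 1))) := by
        unfold fc
        rw [List.map_cons, List.toFinset_cons]
      rw [hins, Finset.erase_insert]
      intro hm
      obtain ⟨b, hb, hbe⟩ := mem_fc.1 hm
      have hb1 := p.sm b (List.mem_of_mem_drop hb)
      have hb2 := p.sm Y.s[r - 1] (List.getElem_mem hlt)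
      have hc1 : (pre Y.w b).card = b := pre_card p.wn (by rw [p.wl]; omega)
      have hc2 : (pre Y.w Y.s[r - 1]).card = Y.s[r - 1] :=
        pre_card p.wn (by rw [p.wl]; omega)
      rw [hbe, hc2] at hc1
      rw [List.nodup_cons] at hnd
      exact hnd.1 (hc1 ▸ hb)

/-- periodic functions -/
theorem periodic_mul {α : Type} {f : ℤ → α} {N : ℤ} (h : ∀ j, f (j + N) = f j) (m j : ℤ) :
    f (j + m * N) = f j := by
  have h' : Function.Periodic f N := h
  exact (h'.int_mul m) j

theorem periodic_mod {α : Type} {f : ℤ → α} {N : ℤ} (h : ∀ j, f (j + N) = f j) (j : ℤ) :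
    f (j % N) = f j := by
  rw [← periodic_mul h (j / N) (j % N)]
  congr 1
  have := Int.emod_add_mul_ediv j N
  linarith [mul_comm N (j / N)]

end FromStripAux

open FromStripAux in
/-- the closed flag walk on the face lattice. `ch j 0 = none`, and for `1 ≤ r ≤ n`, `ch j r` is the
ordered set partition whose chain is the face with `n - r` sets of the flag at time `j`
(`ch j n` has the empty chain), constant for `r > n`. `ρ j = n - (G j).card`. `apart`: for a proper
face `v` there is a complete chain which does not contain all sets of the chain of `v` (take a set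
`S` of it and a word which does not start with the letters of `S`), and the time at which it is
introduced. -/
theorem exists_flagWalk {n : ℕ} (hn : 3 ≤ n) {Pi : Finset ℕ} {X : Fl} (g : Good Pi X)
    (hw : X.w.Perm (List.range n)) (hs : ∀ b, b ∈ X.s ↔ 0 < b ∧ b < n)
    (hPi : ∀ b, b ∈ Pi ↔ 0 < b ∧ b < n) (h : Closed Pi X) :
    ∃ N, 0 < N ∧ Nonempty (FlagWalk (PFace.rk (n := n)) PFace.Cov n N) := by
  have hn0 : 0 < n := by omega
  obtain ⟨L, hL1, hL2, hL3⟩ := h
  have hAF : ∀ F : Face, F.Nonempty → IsCh n F → F ∈ L := fun F h1 h2 =>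
    (hL3 F).2 ((AF_full g hw hs hPi).2 ⟨h1, h2⟩)
  have hLne : L ≠ [] := by
    have : ({{0}} : Face) ∈ L := by
      refine hAF _ ⟨{0}, by simp⟩ ⟨?_, ?_⟩
      · intro S hS
        rw [Finset.mem_singleton] at hS
        subst hS
        refine ⟨⟨0, by simp⟩, (Finset.ssubset_iff_subset_ne).2 ⟨?_, ?_⟩⟩
        · intro x hx
          rw [Finset.mem_singleton] at hx
          subst hx
          exact Finset.mem_range.2 hn0
        · intro he
          have := congrArg Finset.card he
          rw [Finset.card_singleton, Finset.card_range] at this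
          omega
      · intro S hS T hT
        rw [Finset.mem_singleton] at hS hT
        rw [hS, hT]
        exact Or.inl (Finset.Subset.refl _)
    intro h0
    rw [h0] at this
    simp at this
  obtain ⟨f, G, hf0, hfN, hGN, hst, hGL⟩ := Walk.periodic hL1 hLne
  have hN : 0 < L.length := List.length_pos_iff.2 hLne
  have hNz : (0 : ℤ) < (L.length : ℤ) := by exact_mod_cast hN
  -- all flags are flags of the same configuration
  have hsame0 : ∀ i : ℕ, Same Pi X (f (i : ℤ)) := by
    intro i
    induction i with
    | zero =>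
      have : f ((0 : ℕ) : ℤ) = X := by
        rw [Nat.cast_zero]
        exact hf0
      rw [this]
      exact Same.refl X
    | succ i ih =>
      have h1 := hst ((i : ℤ) + 1)
      rw [show (i : ℤ) + 1 - 1 = i by ring] at h1
      have h2 := h1.same (ih.good g)
      rw [show ((i + 1 : ℕ) : ℤ) = (i : ℤ) + 1 by push_cast; ring]
      exact ih.trans h2
  have hsame : ∀ j : ℤ, Same Pi X (f j) := by
    intro j
    have h1 : 0 ≤ j % (L.length : ℤ) := Int.emod_nonneg j hNz.ne'
    obtain ⟨i, hi⟩ := Int.eq_ofNat_of_zero_le h1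
    rw [← periodic_mod hfN j, hi]
    exact hsame0 i
  have hgood : ∀ j : ℤ, Good Pi (f j) := fun j => (hsame j).good g
  have hpf : ∀ j : ℤ, PF n (f j) := fun j => PF.of g hw hs (hsame j)
  -- the faces introduced
  have hGmem : ∀ j : ℤ, ∃ i : ℕ, ∃ hi : i < L.length, G j = L[i] ∧
      (j - 1) % (L.length : ℤ) = i := by
    intro j
    have h1 : 0 ≤ (j - 1) % (L.length : ℤ) := Int.emod_nonneg _ hNz.ne'
    have h2 : (j - 1) % (L.length : ℤ) < L.length := Int.emod_lt_of_pos _ hNz
    obtain ⟨i, hi⟩ := Int.eq_ofNat_of_zero_le h1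
    have hiL : i < L.length := by
      rw [hi] at h2
      exact_mod_cast h2
    refine ⟨i, hiL, ?_, hi⟩
    rw [← hGL i hiL, ← hi]
    have h3 := periodic_mul hGN ((j - 1) / (L.length : ℤ)) ((j - 1) % (L.length : ℤ) + 1)
    rw [← h3]
    congr 1
    have := Int.emod_add_mul_ediv (j - 1) (L.length : ℤ)
    linarith [mul_comm (L.length : ℤ) ((j - 1) / (L.length : ℤ))]
  have hGcard : ∀ j : ℤ, 0 < (G j).card ∧ (G j).card ≤ n - 1 := by
    intro j
    have h1 := (hst j).faces_eq (hgood (j - 1))
    rw [(hpf (j - 1)).sl] at h1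
    exact ⟨h1.1, h1.2.1⟩
  have hget : ∀ (j : ℤ) (i : ℕ), i + (G j).card = n - 1 → fc (f j).w ((f j).s.drop i) = G j := by
    intro j i hi
    have h1 := ((hst j).faces_eq (hgood (j - 1))).2.2 i
    rw [(hpf (j - 1)).sl, if_pos hi, faces_get, (hpf j).sl, if_pos] at h1
    · exact Option.some.inj h1
    · have := (hGcard j).1
      omega
  have hkeep : ∀ (j : ℤ) (i : ℕ), i + (G j).card ≠ n - 1 →
      fc (f j).w ((f j).s.drop i) = fc (f (j - 1)).w ((f (j - 1)).s.drop i) := by
    intro j i hi
    have h1 := ((hst j).faces_eq (hgood (j - 1))).2.2 i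
    rw [(hpf (j - 1)).sl, if_neg hi, faces_get, faces_get, (hpf j).sl, (hpf (j - 1)).sl] at h1
    by_cases hin : i < n - 1
    · rw [if_pos hin, if_pos hin] at h1
      exact Option.some.inj h1
    · rw [List.drop_of_length_le (by rw [(hpf j).sl]; omega),
        List.drop_of_length_le (by rw [(hpf (j - 1)).sl]; omega)]
      rfl
  have hne : ∀ (j : ℤ) (i : ℕ), i + (G j).card = n - 1 →
      fc (f (j - 1)).w ((f (j - 1)).s.drop i) ≠ G j := by
    intro j i hi he
    have h1 := (hst j).faces_ne (hgood (j - 1))
    apply h1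
    rw [(hpf (j - 1)).sl, show n - 1 - (G j).card = i by omega, faces_get,
      (hpf (j - 1)).sl, if_pos, he]
    have := (hGcard j).1
    omega
  have hGch : ∀ j : ℤ, IsCh n (G j) := by
    intro j
    have := (hpf j).isCh (n - 1 - (G j).card)
    rwa [hget j _ (by have := hGcard j; omega)] at this
  -- the element of rank `n - card` is the new face
  have hel : ∀ j : ℤ, el hn0 (f j) (n - (G j).card) = some (osp hn0 (G j)) := by
    intro j
    have h1 := hGcard j
    unfold el
    rw [if_neg (by omega), hget j _ (by omega)]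
  -- surjectivity
  have hsurj : ∀ F : Face, F.Nonempty → IsCh n F →
      ∃ j : ℤ, 0 ≤ j ∧ j < L.length ∧ G j = F := by
    intro F h1 h2
    obtain ⟨i, hi, hiF⟩ := List.mem_iff_getElem.1 (hAF F h1 h2)
    refine ⟨((i : ℤ) + 1) % (L.length : ℤ), Int.emod_nonneg _ hNz.ne',
      Int.emod_lt_of_pos _ hNz, ?_⟩
    rw [periodic_mod hGN, hGL i hi, hiF]
  refine ⟨L.length, hN, ⟨{
    ch := fun j r => el hn0 (f j) r
    ρ := fun j => n - (G j).card
    rank := fun j r hr => el_rk hn0 (hpf j) hr
    cov := fun j r hr => el_cov hn0 (hpf j) hr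
    per := fun j r => by
      show el hn0 (f (j + L.length)) r = el hn0 (f j) r
      rw [hfN]
    perρ := fun j => by
      show n - (G (j + L.length)).card = n - (G j).card
      rw [hGN]
    ρpos := fun j => by
      have := hGcard j
      show 0 < n - (G j).card ∧ n - (G j).card < n
      omega
    same := ?_
    diff := ?_
    once := ?_
    uniq := ?_
    le := fun v => PFace.rk_le v (by omega)
    bot := ?_
    top := ?_
    apart := ?_ }⟩⟩
  · intro j r hr
    show el hn0 (f j) r = el hn0 (f (j - 1)) r
    have h1 := hGcard j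
    have hr' : r ≠ n - (G j).card := hr
    unfold el
    split_ifs with h0
    · rfl
    · rw [hkeep j (r - 1) (by omega)]
  · intro j
    show el hn0 (f j) (n - (G j).card) ≠ el hn0 (f (j - 1)) (n - (G j).card)
    have h1 := hGcard j
    rw [hel j]
    unfold el
    rw [if_neg (by omega)]
    intro he
    have h2 := osp_inj hn0 (hGch j) ((hpf (j - 1)).isCh _) (Option.some.inj he)
    exact hne j (n - (G j).card - 1) (by omega) h2.symm
  · intro v hv1 hv2
    cases v with
    | none => exact absurd hv1 (lt_irrefl 0)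
    | some A =>
      have hc := OSP.chain_card hn0 A
      have hl := OSP.length_le A
      have hrk : PFace.rk (some A) = n + 1 - A.blocks.length := rfl
      rw [hrk] at hv1 hv2
      obtain ⟨j, hj1, hj2, hj3⟩ := hsurj A.chain (Finset.card_pos.1 (by omega)) A.chain_isCh
      refine ⟨j, hj1, hj2, ?_, ?_⟩
      · show n - (G j).card = PFace.rk (some A)
        rw [hrk, hj3]
        omega
      · show el hn0 (f j) (n - (G j).card) = some A
        rw [hel j, hj3, osp_of]
  · intro i j hi1 hi2 hj1 hj2 _ he
    have he' : el hn0 (f i) (n - (G i).card) = el hn0 (f j) (n - (G j).card) := he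
    rw [hel i, hel j] at he'
    have hG := osp_inj hn0 (hGch i) (hGch j) (Option.some.inj he')
    obtain ⟨p, hp, hp1, hp2⟩ := hGmem i
    obtain ⟨q, hq, hq1, hq2⟩ := hGmem j
    rw [hp1, hq1] at hG
    have hpq : p = q := (List.Nodup.getElem_inj_iff hL2).1 hG
    subst hpq
    have h3 : (i - 1) % (L.length : ℤ) = (j - 1) % (L.length : ℤ) := by rw [hp2, hq2]
    have h4 : (L.length : ℤ) ∣ (i - 1) - (j - 1) :=
      Int.dvd_of_emod_eq_zero (Int.emod_eq_emod_iff_emod_sub_eq_zero.1 h3)
    obtain ⟨m, hm⟩ := h4
    have h5 : i - j = L.length * m := by linarith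
    have h6 : m = 0 := by
      by_contra hm0
      rcases lt_or_gt_of_ne hm0 with h7 | h7
      · nlinarith
      · nlinarith
    rw [h6] at h5
    linarith
  · intro v hv
    show v = el hn0 (f 0) 0
    cases v with
    | none => rfl
    | some A =>
      exfalso
      have hl := OSP.length_le A
      have hrk : PFace.rk (some A) = n + 1 - A.blocks.length := rfl
      rw [hrk] at hv
      omega
  · intro v hv
    show v = el hn0 (f 0) n
    cases v with
    | none =>
      have : (0 : ℕ) = n := hv
      omega
    | some A =>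
      have hl := OSP.length_le A
      have hc := OSP.chain_card hn0 A
      have hrk : PFace.rk (some A) = n + 1 - A.blocks.length := rfl
      rw [hrk] at hv
      unfold el
      rw [if_neg (by omega)]
      congr 1
      apply OSP.chain_inj
      rw [osp_chain hn0 ((hpf 0).isCh _), Finset.card_eq_zero.1 (show A.chain.card = 0 by omega)]
      symm
      apply Finset.card_eq_zero.1
      rw [(hpf 0).card]
      omega
  · intro u v huv hu hv
    -- a set of the chain of `v`
    cases huv with
    | vertex A hA => exact absurd hu (lt_irrefl 0)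
    | merge A B hAB =>
      obtain ⟨S0, _, hB⟩ := merge_iff.1 hAB
      have hl := OSP.length_le B
      have hc := OSP.chain_card hn0 B
      have hrk : PFace.rk (some B) = n + 1 - B.blocks.length := rfl
      rw [hrk] at hv
      obtain ⟨S, hSB⟩ := Finset.card_pos.1 (show 0 < B.chain.card by omega)
      have hSA : S ∈ A.chain := by
        rw [hB] at hSB
        exact Finset.mem_of_mem_erase hSB
      obtain ⟨hS1, hS2⟩ := B.chain_isCh.1 S hSB
      -- another set with the same number of elements
      obtain ⟨y, hy⟩ := hS1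
      obtain ⟨x, hx1, hx2⟩ := Finset.exists_of_ssubset hS2
      have hTc : (insert x (S.erase y)).card = S.card := by
        rw [Finset.card_insert_of_notMem (fun hm => hx2 (Finset.mem_of_mem_erase hm)),
          Finset.card_erase_add_one hy]
      have hTS : insert x (S.erase y) ≠ S := by
        intro he
        exact hx2 (he ▸ Finset.mem_insert_self _ _)
      have hch : IsCh n ({insert x (S.erase y)} : Face) := by
        constructor
        · intro T hT
          rw [Finset.mem_singleton] at hT
          subst hT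
          refine ⟨⟨x, Finset.mem_insert_self _ _⟩, (Finset.ssubset_iff_subset_ne).2 ⟨?_, ?_⟩⟩
          · intro t ht
            rcases Finset.mem_insert.1 ht with ht | ht
            · rw [ht]; exact hx1
            · exact hS2.subset (Finset.mem_of_mem_erase ht)
          · intro he
            have h1 := congrArg Finset.card he
            have h2 := Finset.card_lt_card hS2
            rw [hTc] at h1
            omega
        · intro T hT T' hT'
          rw [Finset.mem_singleton] at hT hT'
          rw [hT, hT']
          exact Or.inl (Finset.Subset.refl _)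
      obtain ⟨j, _, _, hj⟩ := hsurj _ ⟨_, Finset.mem_singleton_self _⟩ hch
      have hnot : ∀ i, S ∉ fc (f j).w ((f j).s.drop i) := by
        intro i hSi
        obtain ⟨b, hb, hbS⟩ := mem_fc.1 hSi
        have hb1 := (hpf j).sm b (List.mem_of_mem_drop hb)
        have hT : insert x (S.erase y) ∈ fc (f j).w ((f j).s.drop (n - 2)) := by
          rw [hget j (n - 2) (by rw [hj, Finset.card_singleton]; omega), hj]
          exact Finset.mem_singleton_self _
        obtain ⟨c, hc', hcT⟩ := mem_fc.1 hT
        have hc1 := (hpf j).sm c (List.mem_of_mem_drop hc')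
        have e1 : (pre (f j).w b).card = b := pre_card (hpf j).wn (by rw [(hpf j).wl]; omega)
        have e2 : (pre (f j).w c).card = c := pre_card (hpf j).wn (by rw [(hpf j).wl]; omega)
        rw [hbS] at e1
        rw [hcT, hTc] at e2
        have hbc : b = c := by omega
        rw [hbc] at hbS
        exact hTS (hcT.symm.trans hbS)
      refine ⟨j, ?_, ?_⟩
      · intro he
        have he' : el hn0 (f j) (PFace.rk (some A)) = some A := he
        unfold el at he'
        split_ifs at he' with h0
        have h1 := congrArg OSP.chain (Option.some.inj he')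
        rw [osp_chain hn0 ((hpf j).isCh _)] at h1
        exact hnot _ (h1 ▸ hSA)
      · intro he
        have he' : el hn0 (f j) (PFace.rk (some B)) = some B := he
        unfold el at he'
        split_ifs at he' with h0
        have h1 := congrArg OSP.chain (Option.some.inj he')
        rw [osp_chain hn0 ((hpf j).isCh _)] at h1
        exact hnot _ (h1 ▸ hSB)

theorem rhombic_of_closed {n : ℕ} (hn : 3 ≤ n) {Pi : Finset ℕ} {X : Fl} (g : Good Pi X)
    (hw : X.w.Perm (List.range n)) (hs : ∀ b, b ∈ X.s ↔ 0 < b ∧ b < n)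
    (hPi : ∀ b, b ∈ Pi ↔ 0 < b ∧ b < n) (h : Closed Pi X) :
    Nonempty (RhombicStrip (PFace.rk (n := n)) PFace.Cov) := by
  obtain ⟨N, hN, ⟨F⟩⟩ := exists_flagWalk hn g hw hs hPi h
  exact F.rhombic hN hn

end Pool.Agent.RS
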