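import Pool.Agent.RS.Top
import Pool.Agent.RS.FromStrip

/-!
# RS module Final: rhombic strips of all permutahedra
-/

set_option autoImplicit false

namespace Pool.Agent.RS

open Finset

/-- all small facts: `E4`, `E5`, `ZL 7`, `GLs 5 6`, `GLs 6 6`; closed strips for `5`, `6`, `7` -/
structure Small : Prop where
  e4 : E4
  e5 : E5
  z7 : ZL 7
  g5 : GLs 5 6
  g6 : GLs 6 6
  c5 : ∃ s : List ℕ, s.Perm (List.range 5).tail ∧ Closed (Ioo 0 5) ⟨List.range 5, s⟩
  c6 : ∃ s : List ℕ, s.Perm (List.range 6).tail ∧ Closed (Ioo 0 6) ⟨List.range 6, s⟩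
  c7 : ∃ s : List ℕ, s.Perm (List.range 7).tail ∧ Closed (Ioo 0 7) ⟨List.range 7, s⟩

theorem closed_all (h : Small) {n : ℕ} (hn : 5 ≤ n) :
    ∃ s : List ℕ, s.Perm (List.range n).tail ∧ Closed (Ioo 0 n) ⟨List.range n, s⟩ := by
  rcases Nat.lt_or_ge n 8 with hlt | hge
  · have h3 : n = 5 ∨ n = 6 ∨ n = 7 := by omega
    rcases h3 with rfl | rfl | rfl
    · exact h.c5
    · exact h.c6
    · exact h.c7
  · obtain ⟨ω, hω, hl⟩ := exists_omega (M := n) hn
    have hz : ZL (n - 1) := zl_all h.e4 h.e5 h.z7 (by omega)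
    have hg : GLs (n - 2) (n - 2) := gl_all h.e4 h.e5 h.g5 h.g6 (by omega)
    have hs := top_strip h.e4 h.e5 hge hz hg hω hl
    refine ⟨1 :: (ω ++ ordT (n - 2) 2), ?_, closed_of_strip (by omega) hω hs⟩
    have ht : (List.range n).tail = 1 :: (List.range n).drop 2 := by
      obtain ⟨m, rfl⟩ : ∃ m, n = m + 2 := ⟨n - 2, by omega⟩
      apply List.ext_getElem
      · simp
      · intro i h1 h2
        rcases i with _ | i
        · simp
        · simp
          omega
    rw [ht]
    exact List.Perm.cons 1 hω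

theorem rhombic_all (h : Small) {n : ℕ} (hn : 5 ≤ n) :
    Nonempty (RhombicStrip (PFace.rk (n := n)) PFace.Cov) := by
  obtain ⟨s, hs, hc⟩ := closed_all h hn
  have hmem : ∀ b, b ∈ s ↔ 0 < b ∧ b < n := by
    intro b
    rw [hs.mem_iff, List.tail_range, List.mem_range']
    constructor
    · rintro ⟨i, hi, rfl⟩
      omega
    · intro hb
      exact ⟨b - 1, by omega, by omega⟩
  have hsn : s.Nodup := hs.nodup_iff.mpr (List.nodup_range.sublist (List.tail_sublist _))
  have g : Good (Ioo 0 n) ⟨List.range n, s⟩ := by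
    refine ⟨List.nodup_range, hsn, ?_, ?_, ?_⟩
    · intro b hb
      exact (hmem b).2 (Finset.mem_Ioo.1 hb)
    · intro b hb
      exact ((hmem b).1 hb).1
    · intro b hb
      show b < (List.range n).length
      rw [List.length_range]
      exact ((hmem b).1 hb).2
  exact rhombic_of_closed (by omega) g (List.Perm.refl _) hmem (fun b => Finset.mem_Ioo) hc

end Pool.Agent.RS
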