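import Pool.Agent.RS.ParityA

/-!
# RS module ParityB: the number of complete chains
-/

set_option autoImplicit false

namespace Pool.Agent.RS

open Finset

namespace ParityBAux

/-- the set with `b` elements of the chain `F` -/
def sel (F : Face) (b : ℕ) : Finset ℕ := (F.filter (fun S => S.card = b)).sup id

/-- the next larger set: a set of the chain or a fixed set -/
def nxt (Pi : Finset ℕ) (w : List ℕ) (a : ℕ) (F : Face) : Finset ℕ :=
  if a + 2 ∈ Pi then sel F (a + 2) else pre w (a + 2)

/-- the other set -/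
def oth (Pi : Finset ℕ) (w : List ℕ) (a : ℕ) (F : Face) : Finset ℕ :=
  pre w a ∪ (nxt Pi w a F \ sel F (a + 1))

/-- the involution -/
def phi (Pi : Finset ℕ) (w : List ℕ) (a : ℕ) (F : Face) : Face :=
  insert (oth Pi w a F) (F.erase (sel F (a + 1)))

section

variable {Pi : Finset ℕ} {X : Fl} {a k : ℕ} {F : Face}

theorem chain_inj (hF : AF Pi X F) {S T : Finset ℕ} (hS : S ∈ F) (hT : T ∈ F)
    (h : S.card = T.card) : S = T := by
  rcases hF.2.2 S hS T hT with h1 | h1
  · exact Finset.eq_of_subset_of_card_le h1 h.ge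
  · exact (Finset.eq_of_subset_of_card_le h1 h.le).symm

theorem sel_eq (hF : AF Pi X F) {S : Finset ℕ} (hS : S ∈ F) : sel F S.card = S := by
  have h1 : F.filter (fun T => T.card = S.card) = {S} := by
    ext T
    rw [Finset.mem_filter, Finset.mem_singleton]
    constructor
    · rintro ⟨h1, h2⟩
      exact chain_inj hF h1 hS h2
    · rintro rfl
      exact ⟨hS, rfl⟩
  unfold sel
  rw [h1, Finset.sup_singleton]
  rfl

theorem sel_spec (g : Good Pi X) (hF : AF Pi X F) (hc : F.card = X.s.length) {b : ℕ}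
    (hb : b ∈ X.s) : sel F b ∈ F ∧ (sel F b).card = b := by
  have h1 : F.image Finset.card ⊆ X.s.toFinset := by
    intro c hc
    obtain ⟨S, hS, rfl⟩ := Finset.mem_image.1 hc
    exact List.mem_toFinset.2 (hF.2.1 S hS).1
  have h2 : (F.image Finset.card).card = F.card :=
    Finset.card_image_of_injOn fun S hS T hT h => chain_inj hF hS hT h
  have h3 : F.image Finset.card = X.s.toFinset := by
    refine Finset.eq_of_subset_of_card_le h1 ?_
    rw [h2, hc, List.toFinset_card_of_nodup g.sn]
  have h4 : b ∈ F.image Finset.card := by rw [h3]; exact List.mem_toFinset.2 hb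
  obtain ⟨S, hS, rfl⟩ := Finset.mem_image.1 h4
  rw [sel_eq hF hS]
  exact ⟨hS, rfl⟩

/-- the facts on the sets around the bar `a + 1` -/
structure Fct (Pi : Finset ℕ) (X : Fl) (a : ℕ) (F : Face) (P S Q : Finset ℕ) : Prop where
  SF : S ∈ F
  Sc : S.card = a + 1
  PS : P ⊆ S
  SQ : S ⊆ Q
  Qc : Q.card = a + 2
  Qw : Q ⊆ X.w.toFinset
  Q1 : ∀ c, c ∉ Pi → a + 1 < c → Q ⊆ pre X.w c
  Q2 : ∀ T ∈ F, a + 2 ≤ T.card → Q ⊆ T
  Q3 : a + 2 ∈ Pi → Q ∈ F

theorem pre_sub (w : List ℕ) (b : ℕ) : pre w b ⊆ w.toFinset := by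
  intro x hx
  exact List.mem_toFinset.2 (List.mem_of_mem_take (List.mem_toFinset.1 hx))

theorem pre_ge {w : List ℕ} {b : ℕ} (h : w.length ≤ b) : pre w b = w.toFinset := by
  unfold pre
  rw [List.take_of_length_le h]

theorem fct (g : Good Pi X) (c : IsComp Pi X a k) (hk : 2 ≤ k) (hF : AF Pi X F)
    (hc : F.card = X.s.length) :
    Fct Pi X a F (pre X.w a) (sel F (a + 1)) (nxt Pi X.w a F) := by
  have hle := c.le
  have ha1 : a + 1 ∈ Pi := c.mem _ (by omega) (by omega)
  obtain ⟨hSF, hSc⟩ := sel_spec g hF hc (g.sub _ ha1)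
  have hPc : (pre X.w a).card = a := pre_card g.wn (by omega)
  have hPS : pre X.w a ⊆ sel F (a + 1) := by
    rcases (hF.2.1 _ hSF).2.2 a c.left with h | h
    · have := Finset.card_le_card h
      omega
    · exact h
  by_cases h2 : a + 2 ∈ Pi
  · obtain ⟨hQF, hQc⟩ := sel_spec g hF hc (g.sub _ h2)
    have hk3 : 3 ≤ k := by
      by_contra h
      have : k = 2 := by omega
      subst this
      exact c.right h2
    have e : nxt Pi X.w a F = sel F (a + 2) := if_pos h2
    rw [e]
    refine ⟨hSF, hSc, hPS, ?_, hQc, (hF.2.1 _ hQF).2.1, fun b hb hab => ?_, fun T hT hTc => ?_,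
      fun _ => hQF⟩
    · rcases hF.2.2 _ hSF _ hQF with h | h
      · exact h
      · have := Finset.card_le_card h
        omega
    · rcases (hF.2.1 _ hQF).2.2 b hb with h | h
      · exact h
      · by_cases hbl : b ≤ X.w.length
        · have h3 := Finset.card_le_card h
          rw [pre_card g.wn hbl, hQc] at h3
          have : b = a + 2 := by omega
          subst this
          exact absurd h2 hb
        · rw [pre_ge (by omega)]
          exact (hF.2.1 _ hQF).2.1
    · rcases hF.2.2 _ hQF _ hT with h | h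
      · exact h
      · exact (Finset.eq_of_subset_of_card_le h (by omega)).symm.subset
  · have hk2 : k = 2 := by
      by_contra h
      exact h2 (c.mem _ (by omega) (by omega))
    subst hk2
    have e : nxt Pi X.w a F = pre X.w (a + 2) := if_neg h2
    rw [e]
    have hQc : (pre X.w (a + 2)).card = a + 2 := pre_card g.wn (by omega)
    refine ⟨hSF, hSc, hPS, ?_, hQc, pre_sub _ _, fun b _ hab => pre_mono (by omega),
      fun T hT hTc => ?_, fun h => absurd h h2⟩
    · rcases (hF.2.1 _ hSF).2.2 _ h2 with h | h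
      · exact h
      · have := Finset.card_le_card h
        omega
    · rcases (hF.2.1 _ hT).2.2 _ h2 with h | h
      · exact (Finset.eq_of_subset_of_card_le h (by omega)).symm.subset
      · exact h

theorem oth_card {P S Q : Finset ℕ} (h : Fct Pi X a F P S Q) (hP : P.card = a) :
    (P ∪ (Q \ S)).card = a + 1 := by
  have h1 : Disjoint P (Q \ S) := by
    rw [Finset.disjoint_left]
    intro x hx hx'
    exact (Finset.mem_sdiff.1 hx').2 (h.PS hx)
  rw [Finset.card_union_of_disjoint h1, Finset.card_sdiff_of_subset h.SQ, hP, h.Qc, h.Sc]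
  omega

theorem oth_ne {P S Q : Finset ℕ} (h : Fct Pi X a F P S Q) : P ∪ (Q \ S) ≠ S := by
  intro h1
  have h2 : (Q \ S).card = 1 := by
    rw [Finset.card_sdiff_of_subset h.SQ, h.Qc, h.Sc]
    omega
  obtain ⟨x, hx⟩ := Finset.card_pos.1 (by omega : 0 < (Q \ S).card)
  have h3 : x ∈ S := by
    rw [← h1]
    exact Finset.mem_union_right _ hx
  exact (Finset.mem_sdiff.1 hx).2 h3

theorem phi_spec (g : Good Pi X) (c : IsComp Pi X a k) (hk : 2 ≤ k) (hF : AF Pi X F)
    (hc : F.card = X.s.length) :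
    AF Pi X (phi Pi X.w a F) ∧ (phi Pi X.w a F).card = X.s.length ∧ phi Pi X.w a F ≠ F ∧
      phi Pi X.w a (phi Pi X.w a F) = F := by
  have hle := c.le
  have ha1 : a + 1 ∈ Pi := c.mem _ (by omega) (by omega)
  have h := fct g c hk hF hc
  have hPc : (pre X.w a).card = a := pre_card g.wn (by omega)
  have hOc := oth_card h hPc
  have hOn := oth_ne h
  have hsel' := sel_eq hF h.SF
  obtain ⟨P, hP⟩ : ∃ P, P = pre X.w a := ⟨_, rfl⟩
  obtain ⟨S, hS⟩ : ∃ S, S = sel F (a + 1) := ⟨_, rfl⟩
  obtain ⟨Q, hQ⟩ : ∃ Q, Q = nxt Pi X.w a F := ⟨_, rfl⟩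
  obtain ⟨O, hO⟩ : ∃ O, O = P ∪ (Q \ S) := ⟨_, rfl⟩
  have hphi : phi Pi X.w a F = insert O (F.erase S) := by
    unfold phi oth
    rw [hO, hP, hS, hQ]
  rw [← hP, ← hS, ← hQ] at h hOc hOn
  rw [← hP] at hPc
  rw [← hO] at hOc hOn
  have hOF : O ∉ F := fun h1 => hOn (chain_inj hF h1 h.SF (by rw [hOc, h.Sc]))
  have hPO : P ⊆ O := by rw [hO]; exact Finset.subset_union_left
  have hOQ : O ⊆ Q := by
    rw [hO]
    exact Finset.union_subset (h.PS.trans h.SQ) Finset.sdiff_subset
  have hOK : OKS Pi X O := by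
    refine ⟨by rw [hOc]; exact g.sub _ ha1, hOQ.trans h.Qw, fun b hb => ?_⟩
    rcases lt_or_ge a b with h1 | h1
    · have h2 : b ≠ a + 1 := fun h2 => hb (h2 ▸ ha1)
      exact Or.inl (hOQ.trans (h.Q1 b hb (by omega)))
    · right
      exact (pre_mono h1).trans (hP ▸ hPO)
  have hcmp : ∀ T ∈ F.erase S, T ⊆ O ∨ O ⊆ T := by
    intro T hT
    obtain ⟨hTS, hTF⟩ := Finset.mem_erase.1 hT
    have h1 : T.card ≠ a + 1 := fun h1 => hTS (chain_inj hF hTF h.SF (by rw [h1, h.Sc]))
    rcases lt_or_ge T.card (a + 1) with h2 | h2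
    · left
      rcases (hF.2.1 T hTF).2.2 a c.left with h3 | h3
      · exact (hP ▸ h3).trans hPO
      · rw [← hP] at h3
        rw [← Finset.eq_of_subset_of_card_le h3 (by omega)]
        exact hPO
    · right
      exact hOQ.trans (h.Q2 T hTF (by omega))
  have hAF : AF Pi X (phi Pi X.w a F) := by
    rw [hphi]
    refine ⟨⟨O, Finset.mem_insert_self _ _⟩, fun T hT => ?_, fun T hT T' hT' => ?_⟩
    · rcases Finset.mem_insert.1 hT with rfl | hT
      · exact hOK
      · exact hF.2.1 T (Finset.mem_of_mem_erase hT)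
    · rcases Finset.mem_insert.1 hT with h1 | h1
      · rcases Finset.mem_insert.1 hT' with h2 | h2
        · exact Or.inl (by rw [h1, h2])
        · rw [h1]
          exact (hcmp T' h2).symm
      · rcases Finset.mem_insert.1 hT' with h2 | h2
        · rw [h2]
          exact hcmp T h1
        · exact hF.2.2 T (Finset.mem_of_mem_erase h1) T' (Finset.mem_of_mem_erase h2)
  have hcard : (phi Pi X.w a F).card = X.s.length := by
    rw [hphi, Finset.card_insert_of_notMem fun h1 => hOF (Finset.mem_of_mem_erase h1),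
      Finset.card_erase_add_one h.SF, hc]
  have hOphi : O ∈ phi Pi X.w a F := by rw [hphi]; exact Finset.mem_insert_self _ _
  refine ⟨hAF, hcard, fun h1 => hOF (h1 ▸ hOphi), ?_⟩
  have e1 : sel (phi Pi X.w a F) (a + 1) = O := by
    rw [← hOc]
    exact sel_eq hAF hOphi
  have e2 : nxt Pi X.w a (phi Pi X.w a F) = Q := by
    by_cases h2 : a + 2 ∈ Pi
    · have h3 : Q ∈ phi Pi X.w a F := by
        rw [hphi]
        refine Finset.mem_insert_of_mem (Finset.mem_erase.2 ⟨fun h4 => ?_, h.Q3 h2⟩)
        have h5 := h.Qc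
        have h6 := h.Sc
        rw [h4] at h5
        omega
      have h4 := sel_eq hAF h3
      rw [h.Qc] at h4
      exact (if_pos h2).trans h4
    · rw [hQ]
      exact (if_neg h2).trans (if_neg h2).symm
  have e3 : P ∪ (Q \ O) = S := by
    rw [hO]
    ext x
    have h1 := @h.PS x
    have h2 := @h.SQ x
    simp only [Finset.mem_union, Finset.mem_sdiff]
    tauto
  show insert (pre X.w a ∪ (nxt Pi X.w a (phi Pi X.w a F) \ sel (phi Pi X.w a F) (a + 1)))
    ((phi Pi X.w a F).erase (sel (phi Pi X.w a F) (a + 1))) = F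
  rw [e1, e2, ← hP, e3, hphi,
    Finset.erase_insert fun h1 => hOF (Finset.mem_of_mem_erase h1), Finset.insert_erase h.SF]

end

end ParityBAux

section

variable {Pi : Finset ℕ} {X Y X' : Fl} {a k z : ℕ} {A : Finset ℕ}

/-- `b ∈ Pi`: exchanging the two letters at the bar `b` of a complete chain (the set `S_b` with `b`
elements is replaced by the other set between `S_{b-1}` and `S_{b+1}`; choose `b` as the FIRST bar
`a + 1` of a component, so that the set with `a` elements is `pre X.w a`; the next larger set of the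
chain or `pre X.w (a + k)` has `a + 2` elements if `a + 2` is a bar of the component or `k = 2`) is an
involution without fixed points on the faces with `X.s.length` sets -/
theorem Fpar_pos (g : Good Pi X) (h : Pi.Nonempty) : Fpar Pi X 0 := by
  obtain ⟨b, hb⟩ := h
  obtain ⟨a, k, c, hab, hbk⟩ := exists_comp g hb
  intro L hL hLF
  set T : Finset Face := L.toFinset.filter (fun F => F.card = X.s.length) with hT
  have hTm : ∀ F, F ∈ T ↔ AF Pi X F ∧ F.card = X.s.length := by
    intro F
    rw [hT, Finset.mem_filter, List.mem_toFinset, hLF]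
  have hsum : ∑ _F ∈ T, (1 : ZMod 2) = 0 := by
    refine Finset.sum_involution (fun F _ => ParityBAux.phi Pi X.w a F) ?_ ?_ ?_ ?_
    · intro F _
      decide
    · intro F hF _
      obtain ⟨h1, h2⟩ := (hTm F).1 hF
      exact (ParityBAux.phi_spec g c (by omega) h1 h2).2.2.1
    · intro F hF
      obtain ⟨h1, h2⟩ := (hTm F).1 hF
      obtain ⟨h3, h4, _⟩ := ParityBAux.phi_spec g c (by omega) h1 h2
      exact (hTm _).2 ⟨h3, h4⟩
    · intro F hF
      obtain ⟨h1, h2⟩ := (hTm F).1 hF
      exact (ParityBAux.phi_spec g c (by omega) h1 h2).2.2.2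
  have hcount : L.countP (fun F => decide (F.card = X.s.length)) = T.card := by
    rw [List.countP_eq_length_filter, ← List.toFinset_card_of_nodup (hL.filter _), hT]
    congr 1
    ext F
    simp
  rw [hcount]
  have h1 : ((T.card : ℕ) : ZMod 2) = 0 := by
    rw [← hsum, Finset.sum_const, nsmul_eq_mul, mul_one]
  exact Nat.mod_eq_zero_of_dvd ((ZMod.natCast_eq_zero_iff _ _).1 h1)

end

end Pool.Agent.RS
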