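import Pool.Agent.RS.RunA

/-!
# RS module Run: runs through the phases

`RunS … vis Y`: the faces met so far are exactly those of the phases in `vis` and those of the
current flag `Y` (the start flag of a new phase). `RunE … vis Y`: they are exactly those of the
phases in `vis` (the phase of `Y` is finished).
-/

set_option autoImplicit false

namespace Pool.Agent.RS

open Finset

namespace RunAux

variable {Pi : Finset ℕ} {X X' Y' : Fl} {a k z : ℕ} {A : Finset ℕ} {vis : Finset (Finset ℕ)}

theorem subPi_sub (Pi : Finset ℕ) (a n : ℕ) : subPi Pi a n ⊆ Pi := by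
  intro b hb
  exact Finset.mem_of_mem_erase (Finset.mem_of_mem_erase hb)

theorem top_pos {a n : ℕ} (hn : n ≠ 0) : top a n = [a + n] := by
  unfold top
  rw [if_neg hn]

theorem top_zero {a : ℕ} : top a 0 = [] := by
  unfold top
  rw [if_pos rfl]

theorem fc_single (w : List ℕ) (b : ℕ) : fc w [b] = {pre w b} := by
  unfold fc
  simp

/-- the strip of a phase, with the permanent bar on the top -/
theorem lift (g : Good Pi X) (c : IsComp Pi X a k) (hp : PhaseAt Pi X a k z A X')
    {L' : List Face} (hw : Walk (subPi Pi a A.card) X' Y' L')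
    (hn : (faces X'.w X'.s ++ L').Nodup)
    (hm : ∀ F, F ∈ faces X'.w X'.s ++ L' → AF (subPi Pi a A.card) X' F) :
    ∃ M, Walk Pi ⟨X'.w, X'.s ++ top a A.card⟩ ⟨Y'.w, Y'.s ++ top a A.card⟩ M ∧
      (faces X'.w (X'.s ++ top a A.card) ++ M).Nodup ∧
      (∀ F, F ∈ faces X'.w (X'.s ++ top a A.card) ++ M → (AF Pi X F ∧
        az (pre X.w a) z F = pre X.w a ∪ A)) ∧
      ((∀ F, AF (subPi Pi a A.card) X' F → F ∈ faces X'.w X'.s ++ L') →
        ∀ F, (AF Pi X F ∧ az (pre X.w a) z F = pre X.w a ∪ A) →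
          F ∈ faces X'.w (X'.s ++ top a A.card) ++ M) := by
  rcases A.eq_empty_or_nonempty with rfl | hne
  · refine ⟨L', ?_, ?_, ?_, ?_⟩
    · rw [Finset.card_empty, top_zero, List.append_nil, List.append_nil]
      exact hw.mono (subPi_sub _ _ _)
    · rw [Finset.card_empty, top_zero, List.append_nil]
      exact hn
    · rw [Finset.card_empty, top_zero, List.append_nil]
      intro F hF
      have := hm F hF
      rw [Finset.card_empty] at this
      exact (phase_zero g c hp).2 this
    · rw [Finset.card_empty, top_zero, List.append_nil]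
      intro h F hF
      exact h F ((phase_zero g c hp).1 hF)
  · have hc0 : A.card ≠ 0 := Finset.card_ne_zero.2 hne
    have hfc : fc X'.w [a + A.card] = {pre X.w a ∪ A} := by
      rw [fc_single, hp.pre]
    have hnot : a + A.card ∉ subPi Pi a A.card := by
      unfold subPi
      intro h
      exact (Finset.mem_erase.1 (Finset.mem_of_mem_erase h)).1 rfl
    obtain ⟨m, hmdef⟩ : ∃ m : Face → Face, m = fun F => F ∪ fc X'.w [a + A.card] := ⟨_, rfl⟩
    have hmi : ∀ F, m F = insert (pre X.w a ∪ A) F := by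
      intro F
      rw [hmdef]
      simp only
      rw [hfc, Finset.union_comm]
      rfl
    have hfac : faces X'.w (X'.s ++ [a + A.card]) = (faces X'.w X'.s).map m ++
        [{pre X.w a ∪ A}] := by
      rw [faces_append, hmdef]
      simp only [faces, hfc]
    have hwalk := (hw.top hp.good (T := [a + A.card]) (by
      intro b hb
      rw [List.mem_singleton] at hb
      rw [hb]
      exact hnot)).mono (subPi_sub Pi a A.card)
    have hperm : (faces X'.w (X'.s ++ [a + A.card]) ++ L'.map m).Perm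
        ({pre X.w a ∪ A} :: (faces X'.w X'.s ++ L').map m) := by
      rw [hfac, List.map_append, List.append_assoc]
      exact List.perm_middle
    have hS : ∀ F ∈ faces X'.w X'.s ++ L', pre X.w a ∪ A ∉ F := fun F hF =>
      phase_notMem g c hp hne (hm F hF)
    have hinj : ∀ F ∈ faces X'.w X'.s ++ L', ∀ F' ∈ faces X'.w X'.s ++ L', m F = m F' → F = F' := by
      intro F hF F' hF' he
      rw [hmi, hmi] at he
      have h1 := hS F hF
      have h2 := hS F' hF'
      calc F = (insert (pre X.w a ∪ A) F).erase (pre X.w a ∪ A) := (Finset.erase_insert h1).symm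
        _ = (insert (pre X.w a ∪ A) F').erase (pre X.w a ∪ A) := by rw [he]
        _ = F' := Finset.erase_insert h2
    have hnd : (({pre X.w a ∪ A} : Face) :: (faces X'.w X'.s ++ L').map m).Nodup := by
      rw [List.nodup_cons]
      refine ⟨?_, List.Nodup.map_on hinj hn⟩
      intro h
      obtain ⟨F, hF, he⟩ := List.mem_map.1 h
      rw [hmi] at he
      have h1 := hS F hF
      obtain ⟨S, hSF⟩ := (hm F hF).1
      have h2 : S ∈ insert (pre X.w a ∪ A) F := Finset.mem_insert_of_mem hSF
      rw [he, Finset.mem_singleton] at h2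
      rw [h2] at hSF
      exact h1 hSF
    refine ⟨L'.map m, ?_, ?_, ?_, ?_⟩
    · rw [top_pos hc0, hmdef]
      exact hwalk
    · rw [top_pos hc0]
      exact hperm.nodup_iff.2 hnd
    · rw [top_pos hc0]
      intro F hF
      rw [phase_pos g c hp hne]
      rcases List.mem_cons.1 (hperm.mem_iff.1 hF) with h | h
      · exact ⟨∅, Or.inl rfl, h⟩
      · obtain ⟨F', hF', he⟩ := List.mem_map.1 h
        rw [hmi] at he
        exact ⟨F', Or.inr (hm F' hF'), he.symm⟩
    · rw [top_pos hc0]
      intro h F hF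
      rw [phase_pos g c hp hne] at hF
      rw [hperm.mem_iff]
      obtain ⟨F', h1, h2⟩ := hF
      rcases h1 with rfl | h1
      · exact List.mem_cons.2 (Or.inl h2)
      · refine List.mem_cons.2 (Or.inr (List.mem_map.2 ⟨F', h F' h1, ?_⟩))
        rw [hmi]
        exact h2.symm

/-- the faces of a flag of a phase belong to the phase -/
theorem faces_phase (g : Good Pi X) (c : IsComp Pi X a k) (hp : PhaseAt Pi X a k z A X') {F : Face}
    (hF : F ∈ faces X'.w (X'.s ++ top a A.card)) :
    AF Pi X F ∧ az (pre X.w a) z F = pre X.w a ∪ A := by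
  have hn := faces_nodup hp.good
  obtain ⟨M, -, -, h3, -⟩ := lift g c hp (Walk.nil X') (L' := []) (by rwa [List.append_nil]) (by
    intro F hF
    rw [List.append_nil] at hF
    exact faces_AF hp.good hF)
  exact h3 F (List.mem_append_left _ hF)

/-- phases outside of `vis` -/
theorem not_vis (g : Good Pi X) (hp : PhaseAt Pi X a k z A X')
    (hv : ∀ B ∈ vis, B ⊆ compS X a k z) (hA : A ∉ vis) {F : Face}
    (hF : az (pre X.w a) z F = pre X.w a ∪ A) :
    ¬ ∃ B ∈ vis, az (pre X.w a) z F = pre X.w a ∪ B := by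
  rintro ⟨B, hB, he⟩
  have h1 : B = A := base_union_inj (compS_disj g (hv B hB)) hp.disj (he.symm.trans hF)
  rw [h1] at hB
  exact hA hB

theorem append_nodup {l : List Face} {m : List Face} (h1 : l.Nodup) (h2 : m.Nodup)
    (h3 : ∀ F ∈ l, F ∉ m) : (l ++ m).Nodup :=
  List.nodup_append.2 ⟨h1, h2, fun a ha b hb he => h3 a ha (he ▸ hb)⟩

end RunAux

section

variable {Pi : Finset ℕ} {X X' Y' : Fl} {a k z : ℕ} {A : Finset ℕ} {vis : Finset (Finset ℕ)}

/-- a strip of the phase of `A`, with the bar `a + n` on the top, completes the phase -/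
theorem runS_phase (g : Good Pi X) (c : IsComp Pi X a k)
    (h : RunS Pi X a z vis ⟨X'.w, X'.s ++ top a A.card⟩) (hp : PhaseAt Pi X a k z A X')
    (hv : ∀ B ∈ vis, B ⊆ compS X a k z) (hA : A ∉ vis) (hs : Strip (subPi Pi a A.card) X' Y') :
    RunE Pi X a z (insert A vis) ⟨Y'.w, Y'.s ++ top a A.card⟩ := by
  obtain ⟨L, hw, hn, hm⟩ := h
  obtain ⟨L', hw', hn', hm'⟩ := hs
  obtain ⟨M, k1, k2, k3, k4⟩ := RunAux.lift g c hp hw' hn' (fun F hF => (hm' F).1 hF)
  have k5 := k4 (fun F hF => (hm' F).2 hF)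
  refine ⟨L ++ M, hw.append k1, ?_, ?_⟩
  · rw [← List.append_assoc]
    refine RunAux.append_nodup hn (List.nodup_append.1 k2).2.1 ?_
    intro F hF hFM
    rcases (hm F).1 hF with ⟨_, h1⟩ | h1
    · exact RunAux.not_vis g hp hv hA (k3 F (List.mem_append_right _ hFM)).2 h1
    · exact (List.nodup_append.1 k2).2.2 F h1 F hFM rfl
  · intro F
    rw [← List.append_assoc, List.mem_append, hm F]
    constructor
    · rintro ((⟨h1, B, hB, he⟩ | h1) | h1)
      · exact ⟨h1, B, Finset.mem_insert_of_mem hB, he⟩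
      · obtain ⟨h2, h3⟩ := k3 F (List.mem_append_left _ h1)
        exact ⟨h2, A, Finset.mem_insert_self _ _, h3⟩
      · obtain ⟨h2, h3⟩ := k3 F (List.mem_append_right _ h1)
        exact ⟨h2, A, Finset.mem_insert_self _ _, h3⟩
    · rintro ⟨h1, B, hB, he⟩
      rcases Finset.mem_insert.1 hB with rfl | hB
      · rcases List.mem_append.1 (k5 F ⟨h1, he⟩) with h2 | h2
        · exact Or.inl (Or.inr h2)
        · exact Or.inr h2
      · exact Or.inl (Or.inl ⟨h1, B, hB, he⟩)

/-- transition U (`A` → `A ∪ {x}`) -/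
theorem runE_U (g : Good Pi X) (c : IsComp Pi X a k)
    (h : RunE Pi X a z vis ⟨Y'.w, Y'.s ++ top a A.card⟩) (hp : PhaseAt Pi X a k z A Y')
    (hv : ∀ B ∈ vis, B ⊆ compS X a k z)
    (hn : A.card + 1 < k) {s' : List ℕ} (hr : Y'.s = (a + A.card + 1) :: s') {x : ℕ}
    (hx : Y'.w[a + A.card + 1]? = some x) (hA : insert x A ∉ vis) :
    RunS Pi X a z vis ⟨swp Y'.w (a + A.card + 1),
      (s' ++ top a A.card) ++ top a (insert x A).card⟩ := by
  obtain ⟨L, hw, hnd, hm⟩ := h
  have hp' := phaseAt_U g c hp hn hr hx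
  have hxA : x ∉ A := ((hp.mem_B g c).2 ⟨0, by omega, hx⟩).2
  have hcard : (insert x A).card = A.card + 1 := Finset.card_insert_of_notMem hxA
  have htop : top a (insert x A).card = [a + A.card + 1] := by
    rw [hcard, RunAux.top_pos (by omega)]
    rfl
  have hlen : Y'.w.length = X.w.length := hp.same.w.length_eq
  have hle := c.le
  have hwU := walk_U (Pi := Pi) (w := Y'.w) (T := s' ++ top a A.card) (r := a + A.card + 1)
    (c.mem _ (by omega) (by omega)) (by omega) (by omega)
  have hstart : Y'.s ++ top a A.card = (a + A.card + 1) :: (s' ++ top a A.card) := by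
    rw [hr]
    rfl
  rw [hstart] at hw
  have hgood : Good Pi ⟨swp Y'.w (a + A.card + 1),
      (s' ++ top a A.card) ++ top a (insert x A).card⟩ := hp'.same.good g
  rw [htop] at hgood ⊢
  have hfp : ∀ F ∈ faces (swp Y'.w (a + A.card + 1)) ((s' ++ top a A.card) ++ [a + A.card + 1]),
      AF Pi X F ∧ az (pre X.w a) z F = pre X.w a ∪ insert x A := by
    intro F hF
    apply RunAux.faces_phase g c hp'
    rw [htop]
    exact hF
  refine ⟨L ++ faces (swp Y'.w (a + A.card + 1)) ((s' ++ top a A.card) ++ [a + A.card + 1]),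
    hw.append hwU, ?_, ?_⟩
  · rw [← List.append_assoc]
    refine RunAux.append_nodup hnd (faces_nodup hgood) ?_
    intro F hF hFM
    exact RunAux.not_vis g hp' hv hA (hfp F hFM).2 ((hm F).1 hF).2
  · intro F
    rw [← List.append_assoc, List.mem_append, hm F]

/-- transition L (`A` → `A \ {y}`) -/
theorem runE_L (g : Good Pi X) (c : IsComp Pi X a k)
    (h : RunE Pi X a z vis ⟨Y'.w, Y'.s ++ top a A.card⟩) (hp : PhaseAt Pi X a k z A Y')
    (hv : ∀ B ∈ vis, B ⊆ compS X a k z)
    (hn : A.Nonempty) {y : ℕ} (hy : Y'.w[a + A.card - 1]? = some y) {s' : List ℕ}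
    (hs : Y'.s = s' ++ top a (A.card - 1)) (hA : A.erase y ∉ vis) :
    RunS Pi X a z vis ⟨swp Y'.w (a + A.card),
      ((a + A.card) :: s') ++ top a (A.erase y).card⟩ := by
  obtain ⟨L, hw, hnd, hm⟩ := h
  have hp' := phaseAt_L g c hp hn hy hs
  have hc0 : 0 < A.card := Finset.card_pos.2 hn
  have hyA : y ∈ A := (hp.mem_A g c).2 ⟨A.card - 1, by omega, by
    rw [← hy]
    congr 1
    omega⟩
  have hcard : (A.erase y).card = A.card - 1 := Finset.card_erase_of_mem hyA
  have hlen : Y'.w.length = X.w.length := hp.same.w.length_eq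
  have hle := c.le
  have hlt := hp.lt
  have htop : top a A.card = [a + A.card] := RunAux.top_pos (by omega)
  have hgY : Good Pi ⟨Y'.w, Y'.s ++ top a A.card⟩ := hp.same.good g
  have hnot : a + A.card ∉ Y'.s := by
    have h1 := hgY.sn
    rw [htop] at h1
    intro h2
    exact (List.nodup_append.1 h1).2.2 _ h2 _ (List.mem_singleton.2 rfl) rfl
  obtain ⟨M, hM1, hM2⟩ := walk_L (Pi := Pi) (w := Y'.w) (T := Y'.s) (l := a + A.card)
    (c.mem _ (by omega) (by omega)) (by omega) (by omega) hnot
  rw [htop] at hw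
  have hgood : Good Pi ⟨swp Y'.w (a + A.card),
      ((a + A.card) :: s') ++ top a (A.erase y).card⟩ := hp'.same.good g
  have hend : ((a + A.card) :: s') ++ top a (A.erase y).card = (a + A.card) :: Y'.s := by
    rw [hcard, hs]
    rfl
  have hfp : ∀ F ∈ faces (swp Y'.w (a + A.card)) ((a + A.card) :: Y'.s),
      AF Pi X F ∧ az (pre X.w a) z F = pre X.w a ∪ A.erase y := by
    intro F hF
    apply RunAux.faces_phase g c hp'
    rw [← hend] at hF
    exact hF
  rw [hend] at hgood ⊢
  refine ⟨L ++ M, hw.append hM1, ?_, ?_⟩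
  · rw [← List.append_assoc]
    refine RunAux.append_nodup hnd (hM2.nodup_iff.2 (faces_nodup hgood)) ?_
    intro F hF hFM
    exact RunAux.not_vis g hp' hv hA (hfp F (hM2.mem_iff.1 hFM)).2 ((hm F).1 hF).2
  · intro F
    rw [← List.append_assoc, List.mem_append, hm F, hM2.mem_iff]

/-- all phases are visited -/
theorem run_finish (g : Good Pi X) (c : IsComp Pi X a k)
    (hz : ∃ i, i < k ∧ X.w[a + i]? = some z) {Y : Fl}
    (h : RunE Pi X a z (compS X a k z).powerset Y) : Strip Pi X Y := by
  obtain ⟨L, hw, hnd, hm⟩ := h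
  refine ⟨L, hw, hnd, ?_⟩
  intro F
  rw [hm F]
  exact ⟨fun h => h.1, fun h => ⟨h, exists_phase g c hz h⟩⟩

end

end Pool.Agent.RS
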