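import Pool.Agent.RS.ParityA
import Pool.Agent.RS.Run

/-!
# RS module ParityD: parity of the start flag of the last phase
-/

set_option autoImplicit false

namespace Pool.Agent.RS

open Finset

section

variable {Pi : Finset ℕ} {X Y X' : Fl} {a k z : ℕ} {A : Finset ℕ}

namespace ParityDAux

/-- the finite set of all faces -/
noncomputable def AFs (Pi : Finset ℕ) (X : Fl) : Finset Face := by
  classical
  exact X.w.toFinset.powerset.powerset.filter (fun F => AF Pi X F)

theorem mem_AFs {Pi : Finset ℕ} {X : Fl} {F : Face} : F ∈ AFs Pi X ↔ AF Pi X F := by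
  classical
  unfold AFs
  rw [Finset.mem_filter, Finset.mem_powerset]
  refine ⟨fun h => h.2, fun h => ⟨fun S hS => ?_, h⟩⟩
  rw [Finset.mem_powerset]
  exact (h.2.1 S hS).2.1

theorem countP_nodup {l : List Face} (hl : l.Nodup) (P : Face → Prop) [DecidablePred P] :
    l.countP (fun F => decide (P F)) = (l.toFinset.filter P).card := by
  rw [List.countP_eq_length_filter, ← List.toFinset_card_of_nodup (hl.filter _),
    List.toFinset_filter]
  simp only [decide_eq_true_eq]

theorem npar_card {Pi : Finset ℕ} {X : Fl} {p : ℕ} (h : Npar Pi X p) :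
    (AFs Pi X).card % 2 = p := by
  have h1 := h (AFs Pi X).toList (Finset.nodup_toList _)
    (fun F => by rw [Finset.mem_toList, mem_AFs])
  rwa [Finset.length_toList] at h1

theorem fpar_card {Pi : Finset ℕ} {X : Fl} {q : ℕ} (h : Fpar Pi X q) :
    ((AFs Pi X).filter (fun F => F.card = X.s.length)).card % 2 = q := by
  have h1 := h (AFs Pi X).toList (Finset.nodup_toList _)
    (fun F => by rw [Finset.mem_toList, mem_AFs])
  rw [countP_nodup (Finset.nodup_toList _), Finset.toList_toFinset] at h1
  exact h1

theorem AF_card_le {Pi : Finset ℕ} {X : Fl} {F : Face} (h : AF Pi X F) :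
    F.card ≤ X.s.length := by
  refine le_trans ?_ (List.toFinset_card_le X.s)
  refine Finset.card_le_card_of_injOn Finset.card ?_ ?_
  · intro S hS
    have := (h.2.1 S hS).1
    simpa using this
  · intro S hS T hT hST
    rcases h.2.2 S hS T hT with h1 | h1
    · exact Finset.eq_of_subset_of_card_le h1 hST.ge
    · exact (Finset.eq_of_subset_of_card_le h1 hST.le).symm

/-- exactly one face of a flag has the maximal number of sets -/
theorem countP_faces {w s : List ℕ} (hw : w.Nodup) (hs : s.Nodup) (hl : ∀ b ∈ s, b ≤ w.length)
    (h0 : s ≠ []) {m : ℕ} (hm : s.length = m) :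
    (faces w s).countP (fun F => decide (F.card = m)) = 1 := by
  subst hm
  cases s with
  | nil => exact absurd rfl h0
  | cons b s =>
    have h1 : (faces w s).countP (fun F => decide (F.card = (b :: s).length)) = 0 := by
      rw [List.countP_eq_zero]
      intro F hF
      obtain ⟨t, _, ht, rfl⟩ := mem_faces.1 hF
      have hts : t.Sublist (b :: s) := ht.sublist.trans (List.sublist_cons_self b s)
      have h2 := fc_card hw (hts.nodup hs) (fun c hc => hl c (hts.subset hc))
      have h3 := ht.length_le
      rw [decide_eq_true_eq, h2, List.length_cons]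
      omega
    show (fc w (b :: s) :: faces w s).countP _ = 1
    rw [List.countP_cons, h1, fc_card hw hs hl]
    simp

end ParityDAux

open ParityDAux

/-- parity of the start flag of the last phase. The faces of `X` and the new faces of the run are
all faces except those of the phase of `A` (these are `insert S F'`, `F' = ∅` or a face of
`(subPi, X')`), together with the faces of the start flag `X' ++ [a + n]`. -/
theorem runS_parity (g : Good Pi X) (c : IsComp Pi X a k)
    (hz : ∃ i, i < k ∧ X.w[a + i]? = some z) (hp : PhaseAt Pi X a k z A X') (hA : A.Nonempty)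
    (hr : RunS Pi X a z ((compS X a k z).powerset.erase A) ⟨X'.w, X'.s ++ [a + A.card]⟩)
    (hd : 2 ≤ X.s.length) {p q p' q' : ℕ} (h1 : Npar Pi X p) (h2 : Fpar Pi X q) (h3 : Npar (subPi Pi a A.card) X' p')
    (h4 : Fpar (subPi Pi a A.card) X' q') :
    (inv X.w + inv X'.w + q + q') % 2 = 0 ∧
      (inv X.s + inv (X'.s ++ [a + A.card]) + p + q + p' + 1 + q') % 2 = 0 := by
  obtain ⟨L, hW, hN, hF⟩ := hr
  have hA0 : A.card ≠ 0 := (Finset.card_pos.2 hA).ne'
  have hsame := hp.same
  rw [show top a A.card = [a + A.card] from if_neg hA0] at hsame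
  have gY : Good Pi ⟨X'.w, X'.s ++ [a + A.card]⟩ := hsame.good g
  have hsl : X'.s.length + 1 = X.s.length := by
    have := hp.slength g c
    rwa [if_neg (Finset.nonempty_iff_ne_empty.1 hA)] at this
  have hS : pre X'.w (a + A.card) = pre X.w a ∪ A := hp.pre
  -- the finite sets
  set U : Finset Face := (faces X.w X.s ++ L).toFinset with hU
  set FY : Finset Face := (faces X'.w (X'.s ++ [a + A.card])).toFinset with hFY
  set E : Finset Face := insert ∅ (AFs (subPi Pi a A.card) X') with hE
  set PA : Finset Face := E.image (fun F' => insert (pre X.w a ∪ A) F') with hPA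
  have memPA : ∀ F, F ∈ PA ↔ AF Pi X F ∧ az (pre X.w a) z F = pre X.w a ∪ A := by
    intro F
    rw [phase_pos g c hp hA, hPA, Finset.mem_image]
    constructor
    · rintro ⟨F', h5, rfl⟩
      rw [hE, Finset.mem_insert, mem_AFs] at h5
      exact ⟨F', h5, rfl⟩
    · rintro ⟨F', h5, rfl⟩
      exact ⟨F', by rw [hE, Finset.mem_insert, mem_AFs]; exact h5, rfl⟩
  have hFYPA : FY ⊆ PA := by
    intro F hF'
    rw [hFY, List.mem_toFinset, faces_append, List.mem_append] at hF'
    have e1 : fc X'.w [a + A.card] = {pre X.w a ∪ A} := by
      rw [← hS]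
      simp [fc]
    rw [hPA, Finset.mem_image]
    rcases hF' with h5 | h5
    · obtain ⟨F', h6, rfl⟩ := List.mem_map.1 h5
      refine ⟨F', ?_, ?_⟩
      · rw [hE, Finset.mem_insert, mem_AFs]
        exact Or.inr (faces_AF hp.good h6)
      · rw [e1]
        show insert (pre X.w a ∪ A) F' = F' ∪ {pre X.w a ∪ A}
        rw [Finset.insert_eq]
        exact Finset.union_comm _ _
    · refine ⟨∅, by rw [hE]; exact Finset.mem_insert_self _ _, ?_⟩
      have h6 : F = fc X'.w [a + A.card] := by
        simpa [faces] using h5
      rw [h6, e1]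
      rfl
  have memU : ∀ F, F ∈ U ↔ (AF Pi X F ∧ ∃ B ∈ (compS X a k z).powerset.erase A,
      az (pre X.w a) z F = pre X.w a ∪ B) ∨ F ∈ FY := by
    intro F
    rw [hU, hFY, List.mem_toFinset, List.mem_toFinset]
    exact hF F
  have hunion : U ∪ PA = AFs Pi X := by
    ext F
    rw [Finset.mem_union, memU, memPA, mem_AFs]
    constructor
    · rintro ((h5 | h5) | h5)
      · exact h5.1
      · exact ((memPA F).1 (hFYPA h5)).1
      · exact h5.1
    · intro h5
      obtain ⟨B, hB, hB'⟩ := exists_phase g c hz h5
      by_cases hBA : B = A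
      · subst hBA
        exact Or.inr ⟨h5, hB'⟩
      · exact Or.inl (Or.inl ⟨h5, B, Finset.mem_erase.2 ⟨hBA, hB⟩, hB'⟩)
  have hinter : U ∩ PA = FY := by
    ext F
    rw [Finset.mem_inter]
    constructor
    · rintro ⟨h5, h6⟩
      rcases (memU F).1 h5 with ⟨_, B, hB, hB'⟩ | h7
      · exfalso
        have h8 := ((memPA F).1 h6).2
        rw [hB'] at h8
        have hB2 := Finset.mem_erase.1 hB
        exact hB2.1 (base_union_inj (compS_disj g (Finset.mem_powerset.1 hB2.2)) hp.disj h8)
      · exact h7
    · intro h5
      exact ⟨(memU F).2 (Or.inr h5), hFYPA h5⟩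
  -- cardinalities
  have injE : Set.InjOn (fun F' : Face => insert (pre X.w a ∪ A) F') (E : Set Face) := by
    have hnm : ∀ F' ∈ E, pre X.w a ∪ A ∉ F' := by
      intro F' h5
      rw [hE, Finset.mem_insert, mem_AFs] at h5
      rcases h5 with rfl | h5
      · exact Finset.notMem_empty _
      · exact phase_notMem g c hp hA h5
    intro F1 h5 F2 h6 h7
    have h8 : (insert (pre X.w a ∪ A) F1).erase (pre X.w a ∪ A)
        = (insert (pre X.w a ∪ A) F2).erase (pre X.w a ∪ A) := by
      show (insert (pre X.w a ∪ A) F1).erase _ = _
      exact congrArg (fun G : Face => G.erase (pre X.w a ∪ A)) h7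
    rwa [Finset.erase_insert (hnm F1 h5), Finset.erase_insert (hnm F2 h6)] at h8
  have hemp : (∅ : Face) ∉ AFs (subPi Pi a A.card) X' := by
    rw [mem_AFs]
    intro h5
    exact absurd h5.1 Finset.not_nonempty_empty
  have cardPA : PA.card = (AFs (subPi Pi a A.card) X').card + 1 := by
    rw [hPA, Finset.card_image_of_injOn injE, hE, Finset.card_insert_of_notMem hemp]
  have cardPA1 : (PA.filter (fun F => F.card = X.s.length)).card
      = ((AFs (subPi Pi a A.card) X').filter (fun F => F.card = X'.s.length)).card := by
    have hnm : ∀ F' ∈ E, pre X.w a ∪ A ∉ F' := by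
      intro F' h5
      rw [hE, Finset.mem_insert, mem_AFs] at h5
      rcases h5 with rfl | h5
      · exact Finset.notMem_empty _
      · exact phase_notMem g c hp hA h5
    have e1 : PA.filter (fun F => F.card = X.s.length)
        = ((AFs (subPi Pi a A.card) X').filter (fun F => F.card = X'.s.length)).image
          (fun F' => insert (pre X.w a ∪ A) F') := by
      ext F
      rw [Finset.mem_filter, hPA, Finset.mem_image, Finset.mem_image]
      constructor
      · rintro ⟨⟨F', h5, rfl⟩, h6⟩
        rw [Finset.card_insert_of_notMem (hnm F' h5)] at h6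
        refine ⟨F', ?_, rfl⟩
        rw [Finset.mem_filter]
        rw [hE, Finset.mem_insert] at h5
        rcases h5 with rfl | h5
        · exfalso
          rw [Finset.card_empty] at h6
          omega
        · exact ⟨h5, by omega⟩
      · rintro ⟨F', h5, rfl⟩
        rw [Finset.mem_filter] at h5
        have h6 : F' ∈ E := by
          rw [hE]
          exact Finset.mem_insert_of_mem h5.1
        refine ⟨⟨F', h6, rfl⟩, ?_⟩
        rw [Finset.card_insert_of_notMem (hnm F' h6)]
        omega
    rw [e1, Finset.card_image_of_injOn]
    intro F1 h5 F2 h6 h7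
    refine injE ?_ ?_ h7
    · rw [hE]
      exact Finset.mem_insert_of_mem (Finset.mem_filter.1 h5).1
    · rw [hE]
      exact Finset.mem_insert_of_mem (Finset.mem_filter.1 h6).1
  have hsX : X.s ≠ [] := by
    intro h5
    rw [h5] at hd
    simp at hd
  have ndY := faces_nodup gY
  have cardFY : FY.card = X.s.length := by
    rw [hFY, List.toFinset_card_of_nodup ndY, faces_length, List.length_append]
    exact hsl
  have cardFY1 : (FY.filter (fun F => F.card = X.s.length)).card = 1 := by
    rw [hFY, ← countP_nodup ndY]
    refine countP_faces gY.wn gY.sn (fun b hb => (gY.lt b hb).le) (by simp) ?_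
    rw [List.length_append]
    exact hsl
  have cardX1 : (faces X.w X.s).countP (fun F => decide (F.card = X.s.length)) = 1 :=
    countP_faces g.wn g.sn (fun b hb => (g.lt b hb).le) hsX rfl
  have e1 := Finset.card_union_add_card_inter U PA
  rw [hunion, hinter, hU, List.toFinset_card_of_nodup hN, List.length_append, faces_length,
    cardPA, cardFY] at e1
  have e2 := Finset.card_union_add_card_inter (U.filter (fun F => F.card = X.s.length))
    (PA.filter (fun F => F.card = X.s.length))
  rw [← Finset.filter_union, ← Finset.filter_inter_distrib, hunion, hinter, hU,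
    ← countP_nodup hN, List.countP_append, cardX1, cardPA1, cardFY1] at e2
  have e3 : L.countP (fun F => decide (F.card = X.s.length))
      + L.countP (fun F => decide (F.card < X.s.length)) = L.length := by
    have hle : ∀ F ∈ L, F.card ≤ X.s.length := by
      intro F h5
      exact AF_card_le (Walk.AF g hW F h5)
    clear_value U FY E PA
    clear e1 e2 hN hF hU memU hunion hinter hW
    induction L with
    | nil => rfl
    | cons F L ih =>
      have h5 := hle F (List.mem_cons_self ..)
      have h6 := ih (fun G hG => hle G (List.mem_cons_of_mem _ hG))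
      rw [List.countP_cons, List.countP_cons, List.length_cons]
      rcases Nat.lt_or_ge F.card X.s.length with h7 | h7
      · have h8 : F.card ≠ X.s.length := h7.ne
        simp only [h7, h8, decide_true, decide_false, if_true]
        simp
        omega
      · have h8 : F.card = X.s.length := le_antisymm h5 h7
        have h9 : ¬ F.card < X.s.length := by omega
        simp only [h8, lt_irrefl, decide_true, decide_false, if_true]
        simp
        omega
  obtain ⟨w1, w2⟩ := walk_parity g hW
  have c1 := npar_card h1
  have c2 := fpar_card h2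
  have c3 := npar_card h3
  have c4 := fpar_card h4
  constructor
  · show (inv X.w + inv X'.w + q + q') % 2 = 0
    have w1' : (inv X.w + inv X'.w
      + L.countP (fun F => decide (F.card = X.s.length))) % 2 = 0 := w1
    omega
  · have w2' : (inv X.s + inv (X'.s ++ [a + A.card])
      + L.countP (fun F => decide (F.card < X.s.length))) % 2 = 0 := w2
    omega

end

end Pool.Agent.RS
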