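import Pool.Agent.RS.PathRun
import Pool.Agent.RS.GDefs
import Pool.Agent.RS.ParityD
import Pool.Agent.RS.ParityB

/-!
# RS module GL3: prescribed end, `k = 3`, at least six bars
-/

set_option autoImplicit false

namespace Pool.Agent.RS

open Finset

/-- the fact for one component of size two -/
def f2 : Fact := ⟨[2], none, [[1, 0]], 1, true⟩

namespace GL3Aux

theorem run_eq : runP 0 0 none false [(true, f2), (true, f2), (false, f2)] (initP [3] 0)
    = some ⟨[[1], [2]], [2, 6, 4, 0], false, true⟩ := by
  rfl

/-- among the ε-bars one can avoid one bar -/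
theorem exists_eps {Pi : Finset ℕ} {X : Fl} (g : Good Pi X) (hc : Pi.card + 2 ≤ X.s.length)
    (y : ℕ) : ∃ β, (β ∈ X.s ∧ β ∉ Pi) ∧ β ≠ y := by
  classical
  by_contra h
  push Not at h
  have h1 : X.s.toFinset ⊆ insert y Pi := by
    intro b hb
    rw [List.mem_toFinset] at hb
    by_cases hb' : b ∈ Pi
    · exact Finset.mem_insert_of_mem hb'
    · rw [h b ⟨hb, hb'⟩]
      exact Finset.mem_insert_self _ _
  have h2 := Finset.card_le_card h1
  rw [List.toFinset_card_of_nodup g.sn] at h2
  have h3 := Finset.card_insert_le y Pi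
  omega

theorem take_drop_eq {l : List ℕ} {i : ℕ} {x : ℕ} (h : (l.drop i).take 1 = [x]) :
    l[i]? = some x := by
  cases hd : l.drop i with
  | nil =>
    rw [hd] at h
    simp at h
  | cons y l' =>
    rw [hd] at h
    have h1 : y = x := by simpa using h
    have h2 : (l.drop i)[0]? = some y := by rw [hd]; rfl
    rw [List.getElem?_drop] at h2
    rw [← h1]
    simpa using h2

/-- the letters of a component of size three -/
theorem three {w : List ℕ} {a : ℕ} (h : a + 3 ≤ w.length) :
    ∃ x y z, w[a]? = some x ∧ w[a + 1]? = some y ∧ w[a + 2]? = some z ∧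
      (w.drop a).take 3 = [x, y, z] := by
  refine ⟨w[a]'(by omega), w[a + 1]'(by omega), w[a + 2]'(by omega),
    List.getElem?_eq_getElem _, List.getElem?_eq_getElem _, List.getElem?_eq_getElem _, ?_⟩
  rw [List.drop_eq_getElem_cons (by omega : a < w.length),
    List.drop_eq_getElem_cons (by omega : a + 1 < w.length),
    List.drop_eq_getElem_cons (by omega : a + 1 + 1 < w.length)]
  rfl

theorem mem_Pi {Pi : Finset ℕ} {X : Fl} {a : ℕ} (c : IsComp Pi X a 3)
    (hal : ∀ b ∈ Pi, a < b ∧ b < a + 3) {b : ℕ} : b ∈ Pi ↔ b = a + 1 ∨ b = a + 2 := by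
  constructor
  · intro h
    have := hal b h
    omega
  · rintro (rfl | rfl)
    · exact c.mem _ (by omega) (by omega)
    · exact c.mem _ (by omega) (by omega)

end GL3Aux

open GL3Aux

/-- Path `∅ → {s₂} → {s₁, s₂} → {s₁}` (flips U, U, L; `path_run_L` with `l = [(true, f2), (true, f2),
(false, f2)]`, `runP … = some s`, `s.P = [[1], [2]]`, by `decide`/`rfl`). The last phase has
`subPi = ∅`, start `X'.s = (a + 2) :: β :: σ`, end order `ω` (its last bar is `a + 2`): `D0`, with the
ε-bar `β` different from the second last bar of `ω`. Parity: `runS_parity` with `p = 1`, `q = 0`,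
`p' = 1`, `q' = 1` (`Fpar_empty`). -/
theorem gl3_six (h5 : D05) (hf : Holds f2) : GLs 3 6 := by
  intro Pi X a t ω g c hal he hd ht hwc hω hωl _ hpar
  have hd : 6 ≤ X.s.length := hd
  have hle := c.le
  obtain ⟨x, y, z, hx, hy, hz, hxyz⟩ := three hle
  have hmem := @mem_Pi Pi X a c hal
  -- the end arrangement
  rw [hxyz] at ht hwc
  have htt : t = [y, x, z] := by
    have h1 : t[0]? = some y ∧ t[1]? = some x := by
      simpa [WC] using hwc
    have hl : t.length = 3 := by simpa using ht.length_eq
    match t, hl, h1, ht with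
    | [t0, t1, t2], _, h1, ht =>
      have e0 : t0 = y := by simpa using h1.1
      have e1 : t1 = x := by simpa using h1.2
      subst e0
      subst e1
      have h2 : [t2].Perm [z] := by
        have h3 : ([t0, t1, t2] : List ℕ).Perm [t0, t1, z] :=
          ht.trans (List.Perm.swap t0 t1 [z])
        exact (h3.cons_inv).cons_inv
      have : t2 = z := by simpa using List.perm_singleton.1 h2
      rw [this]
  have hωp : (ω ++ [a + 1]).Perm X.s := hω
  have hωL : ω.getLast? = some (a + 2) := hωl
  have hpar : (inv X.s + inv (ω ++ [a + 1]) + X.s.length) % 2 = 0 := hpar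
  have hPc : Pi.card = 2 := by
    have : Pi = {a + 1, a + 2} := by
      ext b
      rw [hmem]
      simp
    rw [this]
    exact Finset.card_pair (by omega)
  -- the ε-bar
  obtain ⟨β, hβ, hβy⟩ := exists_eps g (by omega) ((ω[ω.length - 2]?).getD 0)
  obtain ⟨A, X', hp, hA1, _, hr, hw1, hw2, σ, hσ⟩ :=
    path_run_L (db := []) h5 (by simp) g c (by omega) hal hx hd he hβ
      (l := [(true, f2), (true, f2), (false, f2)]) (u := [1]) (v := [2])
      (by
        intro q hq
        have : q.2 = f2 := by
          simp at hq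
          rcases hq with rfl | rfl <;> rfl
        rw [this]
        exact Or.inl hf)
      run_eq rfl rfl rfl
  have hA1 : A.card = 1 := hA1
  have hAn : A.Nonempty := Finset.card_pos.1 (by omega)
  have htop : top a A.card = [a + 1] := by rw [hA1]; rfl
  have hsub : subPi Pi a A.card = ∅ := by
    rw [hA1]
    ext b
    unfold subPi
    rw [Finset.mem_erase, Finset.mem_erase, hmem]
    simp
    omega
  have gp : Good ∅ X' := by
    have := hp.good
    rwa [hsub] at this
  rw [hA1] at hσ
  have hσ : X'.s = (a + 2) :: β :: σ := hσ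
  have hsl : X'.s.length + 1 = X.s.length := by
    have := hp.slength g c
    rwa [if_neg (Finset.nonempty_iff_ne_empty.1 hAn)] at this
  have hsame := hp.same
  rw [htop] at hsame
  have gY : Good Pi ⟨X'.w, X'.s ++ [a + 1]⟩ := hsame.good g
  have hsp : (X'.s ++ [a + 1]).Perm X.s := hsame.s
  have hωσ : ω.Perm X'.s := by
    have h1 : (ω ++ [a + 1]).Perm (X'.s ++ [a + 1]) := hωp.trans hsp.symm
    exact (List.perm_append_right_iff [a + 1]).1 h1
  -- parity
  have hpe : ∃ β ∈ X.s, β ∉ Pi := ⟨β, hβ.1, hβ.2⟩
  have hPn : Pi.Nonempty := ⟨a + 1, hmem.2 (Or.inl rfl)⟩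
  have hz0 : ∃ i, i < 3 ∧ X.w[a + i]? = some x := ⟨0, by omega, by simpa using hx⟩
  have hr' : RunS Pi X a x ((compS X a 3 x).powerset.erase A) ⟨X'.w, X'.s ++ [a + A.card]⟩ := by
    have := hr
    rwa [htop, ← hA1] at this
  have par := (runS_parity g c hz0 hp hAn hr' (by omega) (p := 1) (q := 0) (p' := 1) (q' := 1)
    (Npar_eps g hpe) (Fpar_pos g hPn)
    (by
      rw [hsub]
      refine Npar_eps gp ⟨β, ?_, by simp⟩
      rw [hσ]
      simp)
    (by
      rw [hsub]
      refine Fpar_empty gp ?_
      rw [hσ]
      simp)).2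
  rw [hA1] at par
  have hsn := inv_snoc (m := a + 1) hωσ
  have hstrip : Strip ∅ ⟨X'.w, X'.s⟩ ⟨X'.w, ω⟩ := by
    refine D0 h5 gp (by omega) hωσ (m := a + 2) (by rw [hσ]; rfl) hωL ?_ ?_
    · intro _ h1
      rw [hσ] at h1
      have h2 : ω[ω.length - 2]? = some β := h1.symm
      rw [h2] at hβy
      exact hβy rfl
    · omega
  have hlast := last_phase g c hx hp hr (Y' := ⟨X'.w, ω⟩) (by rw [hsub]; exact hstrip)
  rw [htop] at hlast
  -- the word
  have hwx : X'.w[a + 1]? = some x := by
    have := hp.atz
    rwa [hA1] at this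
  have hwy : X'.w[a]? = some y := by
    have h1 : (X'.w.drop a).take 1 = [y] := by
      have h2 := hw1
      rw [hxyz] at h2
      exact h2
    exact take_drop_eq h1
  have hwz : X'.w[a + 2]? = some z := by
    have h1 : (X'.w.drop (a + 2)).take 1 = [z] := by
      have h2 := hw2
      rw [hxyz] at h2
      exact h2
    exact take_drop_eq h1
  have hout : ∀ p, p < a ∨ a + 3 ≤ p → X'.w[p]? = X.w[p]? := by
    intro p hp'
    refine hsame.getElem g ?_ ?_
    · rw [hmem]
      omega
    · rw [hmem]
      omega
  have hword : X'.w = X.w.take a ++ (t ++ X.w.drop (a + 3)) := by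
    rw [htt]
    apply List.ext_getElem?
    intro p
    rcases lt_or_ge p a with h1 | h1
    · rw [hout p (Or.inl h1), List.getElem?_append_left (by rw [List.length_take]; omega),
        List.getElem?_take_of_lt h1]
    · rw [List.getElem?_append_right (by rw [List.length_take]; omega), List.length_take,
        min_eq_left (by omega : a ≤ X.w.length)]
      rcases lt_or_ge p (a + 3) with h2 | h2
      · obtain ⟨i, rfl⟩ : ∃ i, p = a + i := ⟨p - a, by omega⟩
        have hi : i < 3 := by omega
        rw [Nat.add_sub_cancel_left, List.getElem?_append_left (by simpa using hi)]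
        interval_cases i
        · exact hwy
        · exact hwx
        · exact hwz
      · rw [hout p (Or.inr h2), List.getElem?_append_right (by simp; omega), List.getElem?_drop]
        congr 1
        simp
        omega
  rw [hword] at hlast
  exact hlast

end Pool.Agent.RS
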