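import Pool.Agent.RS.PathRun
import Pool.Agent.RS.GDefs
import Pool.Agent.RS.ParityD
import Pool.Agent.RS.ParityB

/-!
# RS module GL4: prescribed end, `k = 4`, at least six bars

Work in the reflected configuration (`Strip.of_refl`): start arrangement `r = (s₃, s₂, s₁, s₀)`,
end arrangement `(s₂, s₁, s₀, s₃)` = `(r₁, r₂, r₃, r₀)`, end order `ω' ++ [a' + 1, a' + 3]` with
`ω'.getLast? = some (a' + 2)`. The first letter `z = r₀` must be at the end, so the last phase is
the one of all letters; it starts with the arrangement `(r₂, r₁, r₃)` (`path_run` with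
`P = [[2, 1, 3], []]`), and `GLs 3 5` for the component `(a', 3)` (end order `ω' ++ [a' + 1]`) finishes
it. Parity: reversing a list changes the parity of the word by a constant, and the orders
`N - b` similarly; `runS_parity` with `p = 1`, `q = 0`, `p' = 1`, `q' = 0`.
-/

set_option autoImplicit false

namespace Pool.Agent.RS

open Finset

namespace GL4Aux

theorem word_eq {w w' : List ℕ} {a k : ℕ} (hl : w'.length = w.length) (hak : a + k ≤ w.length)
    (h : ∀ p, (p < a ∨ a + k ≤ p) → w'[p]? = w[p]?) :
    w' = w.take a ++ ((w'.drop a).take k ++ w.drop (a + k)) := by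
  apply List.ext_getElem?
  intro p
  rcases Nat.lt_or_ge p a with hp | hp
  · rw [h p (Or.inl hp), List.getElem?_append_left (by rw [List.length_take]; omega),
      List.getElem?_take_of_lt hp]
  · have h1 : (w.take a).length = a := by
      rw [List.length_take]
      omega
    rw [List.getElem?_append_right (by omega), h1]
    have h2 : ((w'.drop a).take k).length = k := by
      rw [List.length_take, List.length_drop]
      omega
    rcases Nat.lt_or_ge p (a + k) with hp2 | hp2
    · rw [List.getElem?_append_left (by omega), List.getElem?_take_of_lt (by omega),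
        List.getElem?_drop, show a + (p - a) = p by omega]
    · rw [List.getElem?_append_right (by omega), h2, List.getElem?_drop,
        show a + k + (p - a - k) = p by omega]
      exact h p (Or.inr hp2)

theorem four_of_length {l : List ℕ} (h : l.length = 4) : ∃ a b c d : ℕ, l = [a, b, c, d] := by
  match l, h with
  | [a, b, c, d], _ => exact ⟨a, b, c, d, rfl⟩

/-- the forward form: the start arrangement is `(r₀, r₁, r₂, r₃)` and the end arrangement is
`(r₁, r₂, r₃, r₀)` -/
theorem core (h5 : D05) (g3 : GLs 3 5) {db : List (List Fact)}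
    (hdb : ∀ gr ∈ db, ∀ f ∈ gr, Holds f) {n code : ℕ}
    (hc : checkG db 4 [[2, 1, 3], []] n code = true) {Pi : Finset ℕ} {X : Fl} {b : ℕ}
    {r0 r1 r2 r3 : ℕ} {ω : List ℕ} (g : Good Pi X) (c : IsComp Pi X b 4)
    (hal : ∀ x ∈ Pi, b < x ∧ x < b + 4) (he : HeadEps Pi X) (hd : 6 ≤ X.s.length)
    (hr : (X.w.drop b).take 4 = [r0, r1, r2, r3]) (hp : (ω ++ [b + 1, b + 3]).Perm X.s)
    (hl : ω.getLast? = some (b + 2))
    (hpar : (inv X.s + inv (ω ++ [b + 1, b + 3]) + X.s.length) % 2 = 0) :
    Strip Pi X ⟨X.w.take b ++ ([r1, r2, r3, r0] ++ X.w.drop (b + 4)), ω ++ [b + 1, b + 3]⟩ := by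
  have hz : X.w[b]? = some r0 := by
    have h := congrArg (fun l => l[0]?) hr
    simpa [List.getElem?_take, List.getElem?_drop] using h
  have hz' : ∃ i, i < 4 ∧ X.w[b + i]? = some r0 := ⟨0, by omega, hz⟩
  obtain ⟨β, σ, hβs, hβP⟩ := he
  have hβ : β ∈ X.s ∧ β ∉ Pi := ⟨by rw [hβs]; exact List.mem_cons_self, hβP⟩
  obtain ⟨A, X', hph, hA, -, hrun, hw1, -, he'⟩ :=
    path_run h5 hdb g c (by omega) hal hz hd ⟨β, σ, hβs, hβP⟩ hβ hc
  have hA3 : A.card = 3 := hA
  have hw2 : (X'.w.drop b).take 3 = [r2, r1, r3] := by
    rw [hr] at hw1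
    exact hw1
  have hAn : A.Nonempty := Finset.card_pos.1 (by omega)
  have htop : top b A.card = [b + A.card] := if_neg (by omega)
  have hsl : X'.s.length + 1 = X.s.length := by
    have := hph.slength g c
    rwa [if_neg (Finset.nonempty_iff_ne_empty.1 hAn)] at this
  have gS := hph.good
  have cS := hph.compA g c hAn
  have hsame := hph.same
  have hatz := hph.atz
  rw [htop] at hsame
  have hrun' := hrun
  rw [htop] at hrun'
  -- parity
  have hb1 : b + 1 ∈ Pi := c.mem _ (by omega) (by omega)
  have hb1' : b + 1 ∈ subPi Pi b A.card := by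
    unfold subPi
    rw [Finset.mem_erase, Finset.mem_erase]
    exact ⟨by omega, by omega, hb1⟩
  obtain ⟨β', σ', hβs', hβP'⟩ := he'
  have hpr := (runS_parity g c hz' hph hAn hrun' (by omega) (Npar_eps g ⟨β, hβ.1, hβ.2⟩)
    (Fpar_pos g ⟨_, hb1⟩)
    (Npar_eps gS ⟨β', by rw [hβs']; exact List.mem_cons_self, hβP'⟩) (Fpar_pos gS ⟨_, hb1'⟩)).2
  have hperm : (ω ++ [b + 1]).Perm X'.s := by
    have h1 : ((ω ++ [b + 1]) ++ [b + 3]).Perm (X'.s ++ [b + 3]) := by
      have h2 : (X'.s ++ [b + A.card]).Perm X.s := hsame.s
      rw [hA3] at h2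
      rw [List.append_assoc]
      exact hp.trans h2.symm
    exact (List.perm_append_right_iff _).1 h1
  have hsn := inv_snoc (m := b + 3) hperm
  have hord : ordT 3 b = [b + 1] := rfl
  have happ : ω ++ [b + 1] ++ [b + 3] = ω ++ [b + 1, b + 3] := by
    rw [List.append_assoc]
    rfl
  rw [happ] at hsn
  rw [hA3] at hpr
  have hs : Strip (subPi Pi b A.card) X'
      ⟨X'.w.take b ++ ([r1, r2, r3] ++ X'.w.drop (b + 3)), ω ++ [b + 1]⟩ := by
    have hn : [r2, r1, r3].Nodup := by
      rw [← hw2]
      exact (gS.wn.sublist (List.drop_sublist _ _)).sublist (List.take_sublist _ _)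
    have hn21 : r2 ≠ r1 := by
      intro h
      rw [h] at hn
      simp at hn
    have h1 := g3 (subPi Pi b A.card) X' b [r1, r2, r3] ω gS (by rw [hA3] at cS ⊢; exact cS) ?_
      ⟨β', σ', hβs', hβP'⟩ (show 5 ≤ X'.s.length by omega)
      (by rw [hw2]; exact List.Perm.swap _ _ _) ?_ (by rw [hord]; exact hperm) hl ?_ ?_
    · rw [hord] at h1
      exact h1
    · intro x hx
      unfold subPi at hx
      rw [Finset.mem_erase, Finset.mem_erase] at hx
      have := hal x hx.2.2
      have h3 := hx.2.1
      omega
    · rw [hw2]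
      unfold WC
      rw [if_pos rfl]
      exact ⟨rfl, rfl⟩
    · rw [hw2]
      have h2 := inv_swap (t := []) (s := [r3]) hn21
      simpa using h2
    · rw [hord]
      omega
  have hvis : insert A ((compS X b 4 r0).powerset.erase A) = (compS X b 4 r0).powerset :=
    Finset.insert_erase (Finset.mem_powerset.2 (hph.sub g c))
  have hE := runS_phase g c hrun hph (fun B hB =>
    Finset.mem_powerset.1 (Finset.mem_of_mem_erase hB)) (Finset.notMem_erase _ _) hs
  rw [hvis] at hE
  have hF := run_finish g c hz' hE
  have hsm := hF.same g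
  have hw : X'.w.take b ++ ([r1, r2, r3] ++ X'.w.drop (b + 3)) =
      X.w.take b ++ ([r1, r2, r3, r0] ++ X.w.drop (b + 4)) := by
    have h1 := word_eq hsm.w.length_eq c.le (fun p hpp => hsm.getElem g
      (fun hpP => by have := hal p hpP; omega) (fun hpP => by have := hal (p + 1) hpP; omega))
    have h2 : ((X'.w.take b ++ ([r1, r2, r3] ++ X'.w.drop (b + 3))).drop b).take 4 =
        [r1, r2, r3, r0] := by
      have hlen : X'.w.length = X.w.length := hsame.w.length_eq
      have hcle := c.le
      rw [List.drop_left' (by rw [List.length_take]; omega)]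
      rw [hA3] at hatz
      obtain ⟨h3, h4⟩ := List.getElem?_eq_some_iff.1 hatz
      rw [List.drop_eq_getElem_cons h3, h4]
      rfl
    rw [← h2]
    exact h1
  have hfin : (⟨X'.w.take b ++ ([r1, r2, r3] ++ X'.w.drop (b + 3)),
      (ω ++ [b + 1]) ++ top b A.card⟩ : Fl) =
      ⟨X.w.take b ++ ([r1, r2, r3, r0] ++ X.w.drop (b + 4)), ω ++ [b + 1, b + 3]⟩ := by
    rw [hw, htop, hA3, happ]
  rw [← hfin]
  exact hF

end GL4Aux

open GL4Aux

theorem gl4_six (h5 : D05) (g3 : GLs 3 5) {db : List (List Fact)}
    (hdb : ∀ gr ∈ db, ∀ f ∈ gr, Holds f) {n code : ℕ}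
    (hc : checkG db 4 [[2, 1, 3], []] n code = true) : GLs 4 6 := by
  intro Pi X a t ω g c hal he hd ht hW hp hl _ hps
  have hd6 : 6 ≤ X.s.length := hd
  have hord : ordT 4 a = [a + 3, a + 1] := rfl
  have hspc : spc 4 a = a + 2 := rfl
  rw [hord] at hp hps ⊢
  rw [hspc] at hl
  have hcle := c.le
  have hs4 : ((X.w.drop a).take 4).length = 4 := by
    rw [List.length_take, List.length_drop]
    omega
  obtain ⟨s0, s1, s2, s3, hs⟩ := four_of_length hs4
  have ht4 : t.length = 4 := by rw [ht.length_eq, hs4]
  obtain ⟨t0, t1, t2, t3, rfl⟩ := four_of_length ht4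
  rw [hs] at ht hW
  have hsn : [s0, s1, s2, s3].Nodup := by
    rw [← hs]
    exact (g.wn.sublist (List.drop_sublist _ _)).sublist (List.take_sublist _ _)
  have htn := ht.nodup_iff.2 hsn
  unfold WC at hW
  rw [if_neg (by omega), if_pos rfl] at hW
  obtain ⟨hW0, hW1, hW2⟩ := hW
  have e0 : t0 = s3 := Option.some.inj hW0
  have e1 : t1 = s0 := Option.some.inj hW1
  have e2 : t2 = s1 := Option.some.inj hW2
  subst e0 e1 e2
  have e3 : t3 = s2 := by
    have h1 : t3 ∈ [t1, t2, s2, t0] := ht.mem_iff.1 (by simp)
    simp only [List.nodup_cons, List.mem_cons, List.not_mem_nil, or_false, not_or] at htn h1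
    tauto
  subst e3
  -- the reflected configuration
  have hωs : ∀ x ∈ ω ++ [a + 3, a + 1], x < X.w.length := fun x hx => g.lt x (hp.mem_iff.1 hx)
  have hwr : X.refl.w = X.w.reverse := rfl
  have hr : (X.refl.w.drop (X.w.length - (a + 4))).take 4 = [t0, t3, t2, t1] := by
    rw [hwr, List.drop_reverse, List.take_reverse, List.length_take]
    rw [show X.w.length - (X.w.length - (a + 4)) = a + 4 by omega]
    rw [show min (a + 4) X.w.length - 4 = a by omega]
    rw [List.drop_take, show a + 4 - a = 4 by omega, hs]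
    rfl
  have hmap : (ω ++ [a + 3, a + 1]).map (fun b => X.w.length - b) =
      ω.map (fun b => X.w.length - b) ++ [X.w.length - (a + 4) + 1, X.w.length - (a + 4) + 3] := by
    rw [List.map_append]
    have h1 : X.w.length - (a + 3) = X.w.length - (a + 4) + 1 := by omega
    have h2 : X.w.length - (a + 1) = X.w.length - (a + 4) + 3 := by omega
    rw [List.map_cons, List.map_cons, List.map_nil, h1, h2]
  have hsr : X.refl.s = X.s.map (fun b => X.w.length - b) := rfl
  have hpr : (ω.map (fun b => X.w.length - b) ++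
      [X.w.length - (a + 4) + 1, X.w.length - (a + 4) + 3]).Perm X.refl.s := by
    rw [← hmap, hsr]
    exact hp.map _
  have hinv := InvAux.inv_map_perm (f := fun b => X.w.length - b) hp.symm g.sn (by
    intro x hx y hy hxy
    have h1 := g.lt x hx
    have h2 := g.lt y hy
    have h3 : X.w.length - x = X.w.length - y := hxy
    omega)
  rw [hmap, ← hsr] at hinv
  have key := core h5 g3 hdb hc (ω := ω.map (fun b => X.w.length - b)) g.refl (c.refl g) ?_
    (he.refl g) (by rw [refl_slength]; exact hd6) hr hpr ?_ (by rw [refl_slength]; omega)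
  · have h := Strip.of_refl g key
    have e : (⟨X.refl.w.take (X.w.length - (a + 4)) ++ ([t3, t2, t1, t0] ++
        X.refl.w.drop (X.w.length - (a + 4) + 4)), ω.map (fun b => X.w.length - b) ++
          [X.w.length - (a + 4) + 1, X.w.length - (a + 4) + 3]⟩ : Fl).refl =
        ⟨X.w.take a ++ ([t0, t1, t2, t3] ++ X.w.drop (a + 4)), ω ++ [a + 3, a + 1]⟩ := by
      ext1
      · show (X.w.reverse.take (X.w.length - (a + 4)) ++ ([t3, t2, t1, t0] ++
          X.w.reverse.drop (X.w.length - (a + 4) + 4))).reverse = _
        rw [List.reverse_append, List.reverse_append, List.take_reverse, List.drop_reverse,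
          List.reverse_reverse, List.reverse_reverse,
          show X.w.length - (X.w.length - (a + 4)) = a + 4 by omega,
          show X.w.length - (X.w.length - (a + 4) + 4) = a by omega, List.append_assoc]
        rfl
      · show (ω.map (fun b => X.w.length - b) ++ [X.w.length - (a + 4) + 1,
          X.w.length - (a + 4) + 3]).map (fun b => (X.w.reverse.take (X.w.length - (a + 4)) ++
            ([t3, t2, t1, t0] ++ X.w.reverse.drop (X.w.length - (a + 4) + 4))).length - b) = _
        have hlen : (X.w.reverse.take (X.w.length - (a + 4)) ++ ([t3, t2, t1, t0] ++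
            X.w.reverse.drop (X.w.length - (a + 4) + 4))).length = X.w.length := by
          simp only [List.length_append, List.length_take, List.length_drop, List.length_reverse,
            List.length_cons, List.length_nil]
          omega
        rw [hlen, ← hmap, List.map_map]
        conv_rhs => rw [← List.map_id (ω ++ [a + 3, a + 1])]
        apply List.map_congr_left
        intro x hx
        have := hωs x hx
        show X.w.length - (X.w.length - x) = x
        omega
    rw [e] at h
    exact h
  · intro x hx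
    obtain ⟨y, hy, rfl⟩ := Finset.mem_image.1 hx
    have := hal y hy
    show X.w.length - (a + 4) < X.w.length - y ∧ X.w.length - y < X.w.length - (a + 4) + 4
    omega
  · rw [List.getLast?_map, hl]
    show some (X.w.length - (a + 2)) = some (X.w.length - (a + 4) + 2)
    congr 1
    omega

end Pool.Agent.RS
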