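import Pool.Agent.RS.PathRun
import Pool.Agent.RS.GDefs
import Pool.Agent.RS.ParityD
import Pool.Agent.RS.ParityB
import Pool.Agent.RS.Five

/-!
# RS module GL56: prescribed ends, `k = 5` and `k = 6`, at least six bars

The end arrangement is `t.map s` with `t` a permutation of the indices, odd (`inv_comp`).
* `k = 5`: `t₃ = 0`. Last phase `A = {t₀, t₁, t₂}`, which starts with the letters `t₁, t₀, t₂` before
  `z` and `t₄` after `z` (`path_run`); `GLs 3 5` for the component `(a, 3)`, end order `ω ++ [a + 1]`.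
* `k = 6`: `t₁ = 0`. Last phase `A = {t₀}`, which starts with `t₀` before `z` and `t₃, t₄, t₅, t₂`
  after `z`; `GLs 4 5` for the component `(a + 2, 4)`, end order `ω ++ ordT 4 (a + 2)`.
Parity: `runS_parity` with `p = 1`, `q = 0`, `p' = 1`, `q' = 0`.
-/

set_option autoImplicit false

namespace Pool.Agent.RS

open Finset

/-- every even/odd arrangement of the indices has a checked path -/
def coverG5 (db : List (List Fact)) (data : List (List ℕ × ℕ × ℕ)) : Bool :=
  ((permsL (List.range 5)).filter (fun t => (t.getD 3 0 == 0) && (inv t % 2 == 1))).all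
    (fun t => data.any (fun p => (p.1 == t) && checkG db 5
      [[t.getD 1 0, t.getD 0 0, t.getD 2 0], [t.getD 4 0]] p.2.1 p.2.2))

def coverG6 (db : List (List Fact)) (data : List (List ℕ × ℕ × ℕ)) : Bool :=
  ((permsL (List.range 6)).filter (fun t => (t.getD 1 0 == 0) && (inv t % 2 == 1))).all
    (fun t => data.any (fun p => (p.1 == t) && checkG db 6
      [[t.getD 0 0], [t.getD 3 0, t.getD 4 0, t.getD 5 0, t.getD 2 0]] p.2.1 p.2.2))

namespace GL56Aux

/-- the word of a flag of the configuration -/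
theorem word_eq {Pi : Finset ℕ} {X Y : Fl} {a k : ℕ} {t : List ℕ} (g : Good Pi X)
    (hal : ∀ b ∈ Pi, a < b ∧ b < a + k) (h : Same Pi X Y) (ht : (Y.w.drop a).take k = t) :
    Y.w = X.w.take a ++ (t ++ X.w.drop (a + k)) := by
  have e1 : Y.w.take a = X.w.take a := by
    apply List.ext_getElem?
    intro i
    rw [List.getElem?_take, List.getElem?_take]
    by_cases hi : i < a
    · rw [if_pos hi, if_pos hi]
      refine h.getElem g ?_ ?_
      · intro hm
        have := hal _ hm
        omega
      · intro hm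
        have := hal _ hm
        omega
    · rw [if_neg hi, if_neg hi]
  have e2 : Y.w.drop (a + k) = X.w.drop (a + k) := by
    apply List.ext_getElem?
    intro i
    rw [List.getElem?_drop, List.getElem?_drop]
    refine h.getElem g ?_ ?_
    · intro hm
      have := hal _ hm
      omega
    · intro hm
      have := hal _ hm
      omega
  have e3 : Y.w = Y.w.take a ++ ((Y.w.drop a).take k ++ Y.w.drop (a + k)) := by
    rw [← List.drop_drop, List.take_append_drop, List.take_append_drop]
  rw [e1, ht, e2] at e3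
  exact e3

/-- an arrangement as a list of indices -/
theorem exists_idx {s t : List ℕ} (hs : s.Nodup) (ht : t.Perm s) :
    ∃ o : List ℕ, o.Perm (List.range s.length) ∧ o.map (fun i => s.getD i 0) = t := by
  have htn : t.Nodup := ht.nodup_iff.2 hs
  refine ⟨t.map (fun b => s.idxOf b), ?_, ?_⟩
  · rw [List.perm_ext_iff_of_nodup]
    · intro i
      rw [List.mem_map, List.mem_range]
      constructor
      · rintro ⟨b, hb, rfl⟩
        exact List.idxOf_lt_length_iff.2 (ht.mem_iff.1 hb)
      · intro hi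
        refine ⟨s.getD i 0, ht.mem_iff.2 ?_, FiveAux.idxOf_getD hs hi⟩
        rw [List.getD_eq_getElem _ _ hi]
        exact List.getElem_mem hi
    · refine List.Nodup.map_on (fun a ha b hb hab => ?_) htn
      rw [← FiveAux.getD_idxOf (ht.mem_iff.1 ha), ← FiveAux.getD_idxOf (ht.mem_iff.1 hb), hab]
    · exact List.nodup_range
  · rw [List.map_map]
    conv_rhs => rw [← List.map_id t]
    exact List.map_congr_left fun b hb => FiveAux.getD_idxOf (ht.mem_iff.1 hb)

/-- end order and parity in the last phase -/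
theorem fin {Pi : Finset ℕ} {X X' : Fl} {a k z : ℕ} {A : Finset ℕ} (g : Good Pi X)
    (c : IsComp Pi X a k) (hz : X.w[a]? = some z) (he : HeadEps Pi X)
    (hp : PhaseAt Pi X a k z A X') (hA : A.Nonempty)
    (hr : RunS Pi X a z ((compS X a k z).powerset.erase A) ⟨X'.w, X'.s ++ top a A.card⟩)
    (he' : HeadEps (subPi Pi a A.card) X') (hne : (subPi Pi a A.card).Nonempty)
    (hd : 2 ≤ X.s.length) {σ : List ℕ} (hσ : (σ ++ [a + A.card]).Perm X.s)
    (hpar : (inv X.s + inv (σ ++ [a + A.card]) + X.s.length) % 2 = 0) :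
    σ.Perm X'.s ∧ (inv X'.s + inv σ + X'.s.length) % 2 = 0 := by
  have hA0 : A.card ≠ 0 := (Finset.card_pos.2 hA).ne'
  have htop : top a A.card = [a + A.card] := if_neg hA0
  have hsame := hp.same.s
  simp only [htop] at hsame hr
  have hperm : σ.Perm X'.s := by
    have h1 := hσ.trans hsame.symm
    exact (List.perm_append_right_iff [a + A.card]).1 h1
  refine ⟨hperm, ?_⟩
  have hsub : (subPi Pi a A.card) ⊆ Pi := by
    intro b hb
    unfold subPi at hb
    exact Finset.mem_of_mem_erase (Finset.mem_of_mem_erase hb)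
  have p1 : Npar Pi X 1 := by
    obtain ⟨b, s, hb, hb'⟩ := he
    exact Npar_eps g ⟨b, by rw [hb]; exact List.mem_cons_self, hb'⟩
  have p2 : Fpar Pi X 0 := Fpar_pos g (hne.mono hsub)
  have p3 : Npar (subPi Pi a A.card) X' 1 := by
    obtain ⟨b, s, hb, hb'⟩ := he'
    exact Npar_eps hp.good ⟨b, by rw [hb]; exact List.mem_cons_self, hb'⟩
  have p4 : Fpar (subPi Pi a A.card) X' 0 := Fpar_pos hp.good hne
  have h2 := (runS_parity g c ⟨0, c.one, by simpa using hz⟩ hp hA hr hd p1 p2 p3 p4).2
  have h3 := inv_snoc (m := a + A.card) hperm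
  have h4 := hp.slength g c
  rw [if_neg (Finset.nonempty_iff_ne_empty.1 hA)] at h4
  omega

end GL56Aux

open GL56Aux

theorem gl5_six (h5 : D05) (g3 : GLs 3 5) {db : List (List Fact)}
    (hdb : ∀ gr ∈ db, ∀ f ∈ gr, Holds f) {data : List (List ℕ × ℕ × ℕ)}
    (hc : coverG5 db data = true) : GLs 5 6 := by
  intro Pi X a t ω g c hal he hP ht hW hord hlast hpw hps
  have hle := c.le
  have hz : ∃ z, X.w[a]? = some z := ⟨X.w[a]'(by omega), List.getElem?_eq_getElem (by omega)⟩
  obtain ⟨z, hz⟩ := hz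
  obtain ⟨β, hβ⟩ : ∃ β, β ∈ X.s ∧ β ∉ Pi := by
    obtain ⟨b, s, hb, hb'⟩ := he
    exact ⟨b, by rw [hb]; exact List.mem_cons_self, hb'⟩
  obtain ⟨s, hs⟩ : ∃ s, s = (X.w.drop a).take 5 := ⟨_, rfl⟩
  have hsl : s.length = 5 := by
    rw [hs, List.length_take, List.length_drop]
    omega
  have hsn : s.Nodup := by
    rw [hs]
    exact (g.wn.sublist (List.drop_sublist a X.w)).sublist (List.take_sublist 5 _)
  have hs0 : s.getD 0 0 = z := by
    rw [hs, List.getD_eq_getElem?_getD, List.getElem?_take, if_pos (by omega),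
      List.getElem?_drop, Nat.add_zero, hz]
    rfl
  rw [← hs] at ht hW hpw
  obtain ⟨o, ho, hot⟩ := exists_idx hsn ht
  rw [hsl] at ho
  have hinv : inv o % 2 = 1 := by
    have ho' : o.Perm (List.range s.length) := by
      rw [hsl]
      exact ho
    have h1 := inv_comp hsn ho'
    rw [hot] at h1
    omega
  have hol : o.length = 5 := by rw [ho.length_eq, List.length_range]
  obtain ⟨i0, i1, i2, i3, i4, rfl⟩ : ∃ i0 i1 i2 i3 i4, o = [i0, i1, i2, i3, i4] := by
    match o, hol with
    | [a, b, c, d, e], _ => exact ⟨a, b, c, d, e, rfl⟩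
  have hi3 : i3 < 5 := List.mem_range.1 (ho.mem_iff.1 (by simp))
  have hi30 : i3 = 0 := by
    have h1 : t[3]? = s[0]? := hW
    rw [← hot] at h1
    have h2 : some (s.getD i3 0) = s[0]? := h1
    rw [List.getD_eq_getElem _ _ (by omega), List.getElem?_eq_getElem (by omega),
      Option.some.injEq] at h2
    exact (List.Nodup.getElem_inj_iff hsn).1 h2
  subst hi30
  unfold coverG5 at hc
  rw [List.all_eq_true] at hc
  have hc1 := hc [i0, i1, i2, 0, i4] (by
    rw [List.mem_filter]
    refine ⟨mem_permsL.2 ho, ?_⟩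
    rw [hinv]
    rfl)
  rw [List.any_eq_true] at hc1
  obtain ⟨q, -, hq⟩ := hc1
  rw [Bool.and_eq_true] at hq
  have hq2 : checkG db 5 [[i1, i0, i2], [i4]] q.2.1 q.2.2 = true := hq.2
  obtain ⟨A, X', hp, hAc, -, hr, hw1, hw2, he'⟩ :=
    path_run h5 hdb g c (by omega) hal hz hP he hβ hq2
  have hAc : A.card = 3 := hAc
  have hA : A.Nonempty := Finset.card_pos.1 (by omega)
  rw [← hs] at hw1 hw2
  have hw1 : (X'.w.drop a).take 3 = [s.getD i1 0, s.getD i0 0, s.getD i2 0] := hw1
  have hw2 : (X'.w.drop (a + 4)).take 1 = [s.getD i4 0] := hw2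
  have hot' : t = [s.getD i0 0, s.getD i1 0, s.getD i2 0, z, s.getD i4 0] := by
    rw [← hot, ← hs0]
    rfl
  have hcA := hp.compA g c hA
  rw [hAc] at hcA
  have hmem1 : a + 1 ∈ subPi Pi a 3 := by
    unfold subPi
    rw [Finset.mem_erase, Finset.mem_erase]
    exact ⟨by omega, by omega, c.mem _ (by omega) (by omega)⟩
  have hord' : ((ω ++ [a + 1]) ++ [a + A.card]).Perm X.s := by
    rw [hAc, List.append_assoc]
    exact hord
  have hps' : (inv X.s + inv ((ω ++ [a + 1]) ++ [a + A.card]) + X.s.length) % 2 = 0 := by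
    rw [hAc, List.append_assoc]
    exact hps
  obtain ⟨hf1, hf2⟩ := fin g c hz he hp hA hr he' (by rw [hAc]; exact ⟨_, hmem1⟩) (by omega)
    hord' hps'
  have hgood := hp.good
  have hsl' := hp.slength g c
  rw [if_neg (Finset.nonempty_iff_ne_empty.1 hA)] at hsl'
  rw [hAc] at hgood he'
  have htn : t.Nodup := ht.nodup_iff.2 hsn
  have hne01 : s.getD i1 0 ≠ s.getD i0 0 := by
    rw [hot'] at htn
    intro h1
    rw [h1] at htn
    simp at htn
  have hL := g3 (subPi Pi a 3) X' a [s.getD i0 0, s.getD i1 0, s.getD i2 0] ω hgood hcA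
    (by
      intro b hb
      unfold subPi at hb
      rw [Finset.mem_erase, Finset.mem_erase] at hb
      have := hal b hb.2.2
      omega)
    he' (by omega)
    (by
      rw [hw1]
      exact List.Perm.swap _ _ _)
    (by
      rw [hw1]
      exact ⟨rfl, rfl⟩)
    hf1 hlast
    (by
      rw [hw1]
      exact inv_swap (t := []) (s := [s.getD i2 0]) hne01)
    hf2
  rw [← hAc] at hL
  have hfin := last_phase g c hz hp hr hL
  rw [hAc] at hfin
  have hend : (⟨X'.w.take a ++ ([s.getD i0 0, s.getD i1 0, s.getD i2 0] ++ X'.w.drop (a + 3)),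
      (ω ++ ordT 3 a) ++ top a 3⟩ : Fl) =
      ⟨X.w.take a ++ (t ++ X.w.drop (a + 5)), ω ++ ordT 5 a⟩ := by
    have h1 : (ω ++ ordT 3 a) ++ top a 3 = ω ++ ordT 5 a := by
      rw [List.append_assoc]
      rfl
    rw [h1]
    congr 1
    have hsame := hfin.same g
    refine word_eq g hal hsame ?_
    show ((X'.w.take a ++ ([s.getD i0 0, s.getD i1 0, s.getD i2 0] ++
      X'.w.drop (a + 3))).drop a).take 5 = t
    have hXl : X'.w.length = X.w.length := hp.same.w.length_eq
    have h2 : (X'.w.take a).length = a := by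
      rw [List.length_take]
      omega
    rw [List.drop_append_of_le_length (by omega), List.drop_of_length_le (by omega),
      List.nil_append]
    have h3 : X'.w.drop (a + 3) = z :: X'.w.drop (a + 4) := by
      have h4 := hp.atz
      rw [hAc] at h4
      rw [List.drop_eq_getElem?_toList_append, h4]
      rfl
    rw [h3, hot']
    show _ :: _ :: _ :: _ :: (X'.w.drop (a + 4)).take 1 = _
    rw [hw2]
  rw [← hend]
  exact hfin

theorem gl6_six (h5 : D05) (g4 : GLs 4 5) {db : List (List Fact)}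
    (hdb : ∀ gr ∈ db, ∀ f ∈ gr, Holds f) {data : List (List ℕ × ℕ × ℕ)}
    (hc : coverG6 db data = true) : GLs 6 6 := by
  intro Pi X a t ω g c hal he hP ht hW hord hlast hpw hps
  have hle := c.le
  have hz : ∃ z, X.w[a]? = some z := ⟨X.w[a]'(by omega), List.getElem?_eq_getElem (by omega)⟩
  obtain ⟨z, hz⟩ := hz
  obtain ⟨β, hβ⟩ : ∃ β, β ∈ X.s ∧ β ∉ Pi := by
    obtain ⟨b, s, hb, hb'⟩ := he
    exact ⟨b, by rw [hb]; exact List.mem_cons_self, hb'⟩
  obtain ⟨s, hs⟩ : ∃ s, s = (X.w.drop a).take 6 := ⟨_, rfl⟩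
  have hsl : s.length = 6 := by
    rw [hs, List.length_take, List.length_drop]
    omega
  have hsn : s.Nodup := by
    rw [hs]
    exact (g.wn.sublist (List.drop_sublist a X.w)).sublist (List.take_sublist 6 _)
  have hs0 : s.getD 0 0 = z := by
    rw [hs, List.getD_eq_getElem?_getD, List.getElem?_take, if_pos (by omega),
      List.getElem?_drop, Nat.add_zero, hz]
    rfl
  rw [← hs] at ht hW hpw
  obtain ⟨o, ho, hot⟩ := exists_idx hsn ht
  rw [hsl] at ho
  have hinv : inv o % 2 = 1 := by
    have ho' : o.Perm (List.range s.length) := by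
      rw [hsl]
      exact ho
    have h1 := inv_comp hsn ho'
    rw [hot] at h1
    omega
  have hol : o.length = 6 := by rw [ho.length_eq, List.length_range]
  obtain ⟨i0, i1, i2, i3, i4, i5, rfl⟩ : ∃ i0 i1 i2 i3 i4 i5, o = [i0, i1, i2, i3, i4, i5] := by
    match o, hol with
    | [a, b, c, d, e, f], _ => exact ⟨a, b, c, d, e, f, rfl⟩
  have hi1 : i1 < 6 := List.mem_range.1 (ho.mem_iff.1 (by simp))
  have hi10 : i1 = 0 := by
    have h1 : t[1]? = s[0]? := hW
    rw [← hot] at h1
    have h2 : some (s.getD i1 0) = s[0]? := h1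
    rw [List.getD_eq_getElem _ _ (by omega), List.getElem?_eq_getElem (by omega),
      Option.some.injEq] at h2
    exact (List.Nodup.getElem_inj_iff hsn).1 h2
  subst hi10
  unfold coverG6 at hc
  rw [List.all_eq_true] at hc
  have hc1 := hc [i0, 0, i2, i3, i4, i5] (by
    rw [List.mem_filter]
    refine ⟨mem_permsL.2 ho, ?_⟩
    rw [hinv]
    rfl)
  rw [List.any_eq_true] at hc1
  obtain ⟨q, -, hq⟩ := hc1
  rw [Bool.and_eq_true] at hq
  have hq2 : checkG db 6 [[i0], [i3, i4, i5, i2]] q.2.1 q.2.2 = true := hq.2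
  obtain ⟨A, X', hp, hAc, -, hr, hw1, hw2, he'⟩ :=
    path_run h5 hdb g c (by omega) hal hz hP he hβ hq2
  have hAc : A.card = 1 := hAc
  have hA : A.Nonempty := Finset.card_pos.1 (by omega)
  rw [← hs] at hw1 hw2
  have hw1 : (X'.w.drop a).take 1 = [s.getD i0 0] := hw1
  have hw2 : (X'.w.drop (a + 2)).take 4 =
      [s.getD i3 0, s.getD i4 0, s.getD i5 0, s.getD i2 0] := hw2
  have hot' : t = [s.getD i0 0, z, s.getD i2 0, s.getD i3 0, s.getD i4 0, s.getD i5 0] := by
    rw [← hot, ← hs0]
    rfl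
  have hcB := hp.compB g c (by omega)
  rw [hAc] at hcB
  have hcB : IsComp (subPi Pi a 1) X' (a + 2) 4 := hcB
  have hmem1 : a + 3 ∈ subPi Pi a 1 := by
    unfold subPi
    rw [Finset.mem_erase, Finset.mem_erase]
    exact ⟨by omega, by omega, c.mem _ (by omega) (by omega)⟩
  have hord' : ((ω ++ ordT 4 (a + 2)) ++ [a + A.card]).Perm X.s := by
    rw [hAc, List.append_assoc]
    exact hord
  have hps' : (inv X.s + inv ((ω ++ ordT 4 (a + 2)) ++ [a + A.card]) + X.s.length) % 2 = 0 := by
    rw [hAc, List.append_assoc]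
    exact hps
  obtain ⟨hf1, hf2⟩ := fin g c hz he hp hA hr he' (by rw [hAc]; exact ⟨_, hmem1⟩) (by omega)
    hord' hps'
  have hgood := hp.good
  have hsl' := hp.slength g c
  rw [if_neg (Finset.nonempty_iff_ne_empty.1 hA)] at hsl'
  rw [hAc] at hgood he'
  have htn : t.Nodup := ht.nodup_iff.2 hsn
  have htn2 : [s.getD i2 0, s.getD i3 0, s.getD i4 0, s.getD i5 0].Nodup := by
    rw [hot'] at htn
    exact (List.nodup_cons.1 (List.nodup_cons.1 htn).2).2
  have hL := g4 (subPi Pi a 1) X' (a + 2)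
    [s.getD i2 0, s.getD i3 0, s.getD i4 0, s.getD i5 0] ω hgood hcB
    (by
      intro b hb
      unfold subPi at hb
      rw [Finset.mem_erase, Finset.mem_erase] at hb
      have := hal b hb.2.2
      omega)
    he' (by omega)
    (by
      rw [hw2]
      exact (List.perm_append_singleton (s.getD i2 0)
        [s.getD i3 0, s.getD i4 0, s.getD i5 0]).symm)
    (by
      rw [hw2]
      exact ⟨rfl, rfl, rfl⟩)
    hf1 hlast
    (by
      rw [hw2]
      have h1 := inv_rotate htn2
      have h2 : [s.getD i3 0, s.getD i4 0, s.getD i5 0] ++ [s.getD i2 0] =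
        [s.getD i3 0, s.getD i4 0, s.getD i5 0, s.getD i2 0] := rfl
      have h3 : [s.getD i3 0, s.getD i4 0, s.getD i5 0].length = 3 := rfl
      rw [h2, h3] at h1
      omega)
    hf2
  rw [← hAc] at hL
  have hfin := last_phase g c hz hp hr hL
  rw [hAc] at hfin
  have hend : (⟨X'.w.take (a + 2) ++ ([s.getD i2 0, s.getD i3 0, s.getD i4 0, s.getD i5 0] ++
      X'.w.drop (a + 2 + 4)), (ω ++ ordT 4 (a + 2)) ++ top a 1⟩ : Fl) =
      ⟨X.w.take a ++ (t ++ X.w.drop (a + 6)), ω ++ ordT 6 a⟩ := by
    have h1 : (ω ++ ordT 4 (a + 2)) ++ top a 1 = ω ++ ordT 6 a := by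
      rw [List.append_assoc]
      rfl
    rw [h1]
    congr 1
    have hsame := hfin.same g
    refine word_eq g hal hsame ?_
    show ((X'.w.take (a + 2) ++ ([s.getD i2 0, s.getD i3 0, s.getD i4 0, s.getD i5 0] ++
      X'.w.drop (a + 2 + 4))).drop a).take 6 = t
    have hXl : X'.w.length = X.w.length := hp.same.w.length_eq
    have h2 : (X'.w.take (a + 2)).length = a + 2 := by
      rw [List.length_take]
      omega
    have h3 : X'.w.drop a = s.getD i0 0 :: X'.w.drop (a + 1) := by
      have h4 : X'.w[a]? = some (s.getD i0 0) := by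
        have h5 : ((X'.w.drop a).take 1)[0]? = some (s.getD i0 0) := by
          rw [hw1]
          rfl
        rw [List.getElem?_take, if_pos (by omega), List.getElem?_drop, Nat.add_zero] at h5
        exact h5
      rw [List.drop_eq_getElem?_toList_append, h4]
      rfl
    have h5 : X'.w.drop (a + 1) = z :: X'.w.drop (a + 2) := by
      have h4 := hp.atz
      rw [hAc] at h4
      rw [List.drop_eq_getElem?_toList_append, h4]
      rfl
    rw [List.drop_append_of_le_length (by omega), List.drop_take, h3, h5,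
      show a + 2 - a = 2 by omega, hot']
    rfl
  rw [← hend]
  exact hfin

end Pool.Agent.RS
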