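import Pool.Agent.RS.Step6B

/-!
# RS module Step6: the general induction step
-/

set_option autoImplicit false

namespace Pool.Agent.RS

open Finset

namespace Step6Aux

/-- the prescribed lowest bars in the reflected configuration -/
theorem low_refl {Pi : Finset ℕ} {X : Fl} (g : Good Pi X) {low : List ℕ} (hl : Low Pi X low) :
    Low (reflPi X.w.length Pi) X.refl (low.map (fun b => X.w.length - b)) := by
  have hlt : ∀ b ∈ low, b < X.w.length := fun b hb => g.lt b (hl.mem b hb).1
  refine ⟨?_, ?_, ?_⟩
  · refine List.Nodup.map_on ?_ hl.nd
    intro x hx y hy hxy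
    have h1 := hlt x hx
    have h2 := hlt y hy
    omega
  · rw [List.length_map]
    exact hl.len
  · intro β hβ
    obtain ⟨b, hb, rfl⟩ := List.mem_map.1 hβ
    refine ⟨?_, ?_⟩
    · exact List.mem_map.2 ⟨b, (hl.mem b hb).1, rfl⟩
    · rw [mem_reflPi g (hlt b hb).le]
      exact (hl.mem b hb).2

/-- reflecting twice gives the old prescription -/
theorem map_map_sub {N : ℕ} {low : List ℕ} (h : ∀ b ∈ low, b ≤ N) :
    (low.map (fun b => N - b)).map (fun b => N - b) = low := by
  rw [List.map_map]
  conv_rhs => rw [← List.map_id low]
  refine List.map_congr_left ?_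
  intro b hb
  have := h b hb
  simp only [Function.comp, id]
  omega

end Step6Aux

/-- the general step. `EUc Pi X a k`, letter `x`: if `x` is not the first letter of the component:
`step_first`. If it is: `k = 1`: `step_low`; `k = 2`: `step_two`; `3 ≤ k`: `step_other` for the
reflected configuration (where `x` is the last letter, and `0 < k - 1`), then `Strip.of_refl`.
`ELc`: `ELc_of_mirror` and `step_first` for the reflected configuration. -/
theorem step_E6 (h4 : E4) {V : ℕ} (hV : 6 ≤ V) (ih : ∀ V', 5 ≤ V' → V' < V → E6 V') : E6 V := by
  intro Pi X g hc hd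
  have g' : Good (reflPi X.w.length Pi) X.refl := g.refl
  have hc' : (reflPi X.w.length Pi).card = V := (reflPi_card g).trans hc
  have hd' : V < X.refl.s.length := by
    rw [refl_slength]
    exact hd
  refine ⟨?_, ?_⟩
  · intro a k c x low hx hl
    obtain ⟨i, hik, hxi⟩ := hx
    rcases Nat.eq_zero_or_pos i with hi0 | hi0
    · subst hi0
      rw [Nat.add_zero] at hxi
      rcases Nat.lt_or_ge k 3 with hk3 | hk3
      · rcases Nat.lt_or_ge k 2 with hk2 | hk2
        · -- `k = 1`
          have hk1 : k = 1 := by omega
          subst hk1
          obtain ⟨Y, hY, hY1⟩ := step_low h4 hV ih g hc hd hl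
          refine ⟨Y, hY, hY1, ?_⟩
          rw [Same.getElem g (hY.same g) c.left c.right]
          exact hxi
        · -- `k = 2`
          have hk2' : k = 2 := by omega
          subst hk2'
          exact step_two h4 hV ih g hc hd c x hxi hl
      · -- `3 ≤ k`
        have hle := c.le
        have c' := c.refl g
        have hN : X.refl.w.length = X.w.length := refl_length
        have hpos : X.w.length - 1 - a = X.w.length - (a + k) + (k - 1) := by omega
        have haN : a < X.w.length := by omega
        have hx' : ∃ i, 0 < i ∧ i < k ∧ X.refl.w[X.w.length - (a + k) + i]? = some x := by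
          refine ⟨k - 1, by omega, by omega, ?_⟩
          rw [← hpos, refl_getElem haN]
          exact hxi
        obtain ⟨Y, hY, hY1, hY2⟩ := step_other h4 hV ih g' hc' hd' c' hk3 x hx'
          (Step6Aux.low_refl g hl)
        have hYN : Y.w.length = X.w.length := by
          rw [(hY.same g').w.length_eq, hN]
        refine ⟨Y.refl, hY.of_refl g, ?_, ?_⟩
        · have h1 := hY1.map (fun b => X.w.length - b)
          rw [Step6Aux.map_map_sub (fun b hb => (g.lt b (hl.mem b hb).1).le)] at h1
          change low <+: Y.s.map (fun b => Y.w.length - b)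
          rw [hYN]
          exact h1
        · have h1 : Y.refl.w[Y.w.length - 1 - (X.w.length - 1 - a)]?
              = Y.w[X.w.length - 1 - a]? := refl_getElem (by omega)
          have h2 : Y.w.length - 1 - (X.w.length - 1 - a) = a := by omega
          have h3 : X.w.length - 1 - a = X.w.length - (a + k) + k - 1 := by omega
          rw [h2] at h1
          rw [h1, h3]
          exact hY2
    · obtain ⟨Y, hY, hY1, _, hY2, _⟩ := step_first h4 hV ih g hc hd c x ⟨i, hi0, hik, hxi⟩ hl
      exact ⟨Y, hY, hY1, hY2⟩
  · intro a k hk c
    refine ELc_of_mirror g c hk ?_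
    intro y low hy hl
    exact step_first h4 hV ih g' hc' hd' (c.refl g) y hy hl

theorem all_E6 (h4 : E4) (h5 : E5) {V : ℕ} (hV : 5 ≤ V) : E6 V := by
  induction V using Nat.strong_induction_on with
  | _ V ih =>
    rcases Nat.lt_or_ge V 6 with h | h
    · have hV5 : V = 5 := by omega
      subst hV5
      intro Pi X g hc hd
      exact h5 Pi X g hc hd
    · exact step_E6 h4 h (fun V' h1 h2 => ih V' h2 h1)

end Pool.Agent.RS
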