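import Pool.Agent.RS.GDefs
import Pool.Agent.RS.Step6
import Pool.Agent.RS.ParityD
import Pool.Agent.RS.ParityB

/-!
# RS module GStep: prescribed ends, general step (`7 ≤ k`)

`s` = start arrangement of the component, `z = s₀ = t₁`. R-rule with target `{t₀}` and last removed
letter `c = t₃` (`c = t₅` for `k = 7`): `run_to_last` gives the start flag `X'` of the last phase with
word `t₀, z, c, …` and bottom bar `a + 2`. The last phase is `GLs (k - 2)` for the component
`(a + 2, k - 2)`, end arrangement `t.drop 2`, end order `ω ++ ordT (k - 2) (a + 2)`; the condition `WC`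
for it says that its end arrangement has `c` at the position `1` (`3` for `k - 2 = 5`). Parity:
`runS_parity` with `p = 1`, `q = 0`, `p' = 1`, `q' = 0` (`Npar_eps`, `Fpar_pos`), `inv_mid`, `inv_snoc`.
-/

set_option autoImplicit false

namespace Pool.Agent.RS

open Finset

namespace GStepAux

variable {Pi : Finset ℕ} {X X' : Fl} {a k z : ℕ} {A : Finset ℕ}

/-- the bars in `Pi` of a configuration with one component -/
theorem card_pi (c : IsComp Pi X a k) (h : ∀ b ∈ Pi, a < b ∧ b < a + k) : Pi.card = k - 1 := by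
  have h2 : Pi = Finset.Ioo a (a + k) := by
    ext b
    rw [Finset.mem_Ioo]
    exact ⟨fun hb => h b hb, fun hb => c.mem b hb.1 hb.2⟩
  rw [h2, Nat.card_Ioo]
  omega

/-- there is an ε-bar -/
theorem exists_eps (g : Good Pi X) (hc : Pi.card < X.s.length) : ∃ β ∈ X.s, β ∉ Pi := by
  by_contra hcon
  push Not at hcon
  have h3 : X.s.toFinset ⊆ Pi := fun b hb => hcon b (List.mem_toFinset.1 hb)
  have h6 := Finset.card_le_card h3
  rw [List.toFinset_card_of_nodup g.sn] at h6
  omega

/-- a list with given first two elements -/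
theorem two_cons {l : List ℕ} {x y : ℕ} (h0 : l[0]? = some x) (h1 : l[1]? = some y) :
    l = x :: y :: l.drop 2 := by
  match l, h0, h1 with
  | [], h0, _ => simp at h0
  | [u], _, h1 => simp at h1
  | u :: v :: l, h0, h1 =>
    simp at h0 h1
    subst h0 h1
    rfl

theorem take_eq (g : Good Pi X) (h : ∀ b ∈ Pi, a < b ∧ b < a + k) {Y : Fl}
    (hs : Same Pi X Y) : Y.w.take a = X.w.take a := by
  apply List.ext_getElem?
  intro i
  rw [List.getElem?_take, List.getElem?_take]
  split_ifs with hi
  · refine hs.getElem g (fun hm => ?_) (fun hm => ?_)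
    · have := h _ hm
      omega
    · have := h _ hm
      omega
  · rfl

theorem drop_eq (g : Good Pi X) (h : ∀ b ∈ Pi, a < b ∧ b < a + k) {Y : Fl}
    (hs : Same Pi X Y) : Y.w.drop (a + k) = X.w.drop (a + k) := by
  apply List.ext_getElem?
  intro i
  rw [List.getElem?_drop, List.getElem?_drop]
  refine hs.getElem g (fun hm => ?_) (fun hm => ?_)
  · have := h _ hm
    omega
  · have := h _ hm
    omega

/-- the word of a flag of the same configuration -/
theorem word_eq (g : Good Pi X) (h : ∀ b ∈ Pi, a < b ∧ b < a + k) {Y : Fl}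
    (hs : Same Pi X Y) :
    Y.w = X.w.take a ++ ((Y.w.drop a).take k ++ X.w.drop (a + k)) := by
  rw [← take_eq g h hs, ← drop_eq g h hs]
  conv_lhs => rw [← List.take_append_drop a Y.w, ← List.take_append_drop k (Y.w.drop a)]
  rw [List.drop_drop]

/-- the letters of the component -/
theorem comp_perm (g : Good Pi X) (h : ∀ b ∈ Pi, a < b ∧ b < a + k) {Y : Fl}
    (hs : Same Pi X Y) : ((Y.w.drop a).take k).Perm ((X.w.drop a).take k) := by
  have h1 := word_eq g h hs
  have h2 := word_eq g h (Same.refl X)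
  have h3 : (X.w.take a ++ ((Y.w.drop a).take k ++ X.w.drop (a + k))).Perm
      (X.w.take a ++ ((X.w.drop a).take k ++ X.w.drop (a + k))) := by
    rw [← h1, ← h2]
    exact hs.w
  exact (List.perm_append_right_iff _).1 ((List.perm_append_left_iff _).1 h3)

end GStepAux

open GStepAux

/-- providers of `run_to_last` for `7 ≤ k ≤ X.s.length`: phase `∅`: `k - 2` bars in `subPi`, the
other phases `k - 3 ≥ 4` or (all letters) `k - 2`; at least `X.s.length - 1` bars; an ε-bar at the
bottom if `A ≠ ∅` -/
theorem gstep_phase (h4 : E4) (h5 : E5) {Pi : Finset ℕ} {X X' : Fl} {a k z : ℕ} {A : Finset ℕ}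
    (hk : 7 ≤ k) (g : Good Pi X) (c : IsComp Pi X a k) (h : ∀ b ∈ Pi, a < b ∧ b < a + k)
    (hd : k ≤ X.s.length) (hst : St Pi X a k z A X') :
    EU (subPi Pi a A.card) X' ∧ EL (subPi Pi a A.card) X' := by
  have hp := hst.ph
  have hc := card_pi c h
  have h1 := hp.picard g c
  have h2 := hp.slength g c
  by_cases h6 : 5 ≤ (subPi Pi a A.card).card
  · have hs : (subPi Pi a A.card).card < X'.s.length := by
      by_cases hA : A = ∅
      · have hA' : A.card + 1 ≠ k := by
          rw [hA, Finset.card_empty]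
          omega
        rw [if_pos hA, if_neg hA'] at h1
        rw [if_pos hA] at h2
        omega
      · rw [if_neg hA] at h1 h2
        split_ifs at h1 <;> omega
    exact all_E6 h4 h5 h6 _ _ hp.good rfl hs
  · have hA : A ≠ ∅ := by
      intro hA
      have hA' : A.card + 1 ≠ k := by
        rw [hA, Finset.card_empty]
        omega
      rw [if_pos hA, if_neg hA'] at h1
      omega
    have h4' : (subPi Pi a A.card).card = 4 := by
      rw [if_neg hA] at h1
      split_ifs at h1 <;> omega
    rw [if_neg hA] at h2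
    have heps : ∃ β ∈ X.s, β ∉ Pi := exists_eps g (by omega)
    exact h4 _ _ hp.good h4' (by omega) (hst.eps (Finset.nonempty_iff_ne_empty.2 hA) heps)

namespace GStepAux

theorem ordT_step {k a : ℕ} (hk : 7 ≤ k) : ordT k a = ordT (k - 2) (a + 2) ++ [a + 1] := by
  obtain ⟨m, rfl⟩ : ∃ m, k = m + 6 := ⟨k - 6, by omega⟩
  rfl

theorem spc_step {k a : ℕ} (hk : 7 ≤ k) : spc k a = spc (k - 2) (a + 2) := by
  obtain ⟨m, rfl⟩ : ∃ m, k = m + 6 := ⟨k - 6, by omega⟩
  rfl

theorem WC_big {k : ℕ} (hk : 6 ≤ k) {s t : List ℕ} : WC k s t ↔ t[1]? = s[0]? := by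
  unfold WC
  rw [if_neg (by omega), if_neg (by omega), if_neg (by omega)]

end GStepAux

theorem gl_step (h4 : E4) (h5 : E5) {k D : ℕ} (hk : 7 ≤ k) (hD : D + 1 ≤ k)
    (h : GLs (k - 2) D) : GLs k k := by
  intro Pi X a t ω g c hPi hH hd ht hW hω hl hpw hps
  change k ≤ X.s.length at hd
  have hle := c.le
  have hcard := card_pi c hPi
  -- the arrangement `s`
  have hslen : ((X.w.drop a).take k).length = k := by
    rw [List.length_take, List.length_drop]
    omega
  have htlen : t.length = k := ht.length_eq.trans hslen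
  have hsget : ∀ i, i < k → ((X.w.drop a).take k)[i]? = X.w[a + i]? := by
    intro i hi
    rw [List.getElem?_take, if_pos hi, List.getElem?_drop]
  have hsn : ((X.w.drop a).take k).Nodup :=
    (g.wn.sublist (List.drop_sublist _ _)).sublist (List.take_sublist _ _)
  have htn : t.Nodup := ht.nodup_iff.2 hsn
  obtain ⟨z, hz⟩ : ∃ z, X.w[a]? = some z := ⟨X.w[a], List.getElem?_eq_getElem (by omega)⟩
  have hs0 : ((X.w.drop a).take k)[0]? = some z := by
    rw [hsget 0 (by omega)]
    exact hz
  have ht1 : t[1]? = some z := by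
    rw [← hs0]
    exact (WC_big (by omega)).1 hW
  obtain ⟨x, ht0⟩ : ∃ x, t[0]? = some x := ⟨t[0], List.getElem?_eq_getElem (by omega)⟩
  have htS : ∀ i x, t[i]? = some x → i ≠ 1 → x ∈ compS X a k z := by
    intro i x hi hi1
    rw [mem_compS g c]
    refine ⟨?_, ?_⟩
    · rintro rfl
      obtain ⟨h1, h2⟩ := List.getElem?_eq_some_iff.1 hi
      obtain ⟨h3, h6⟩ := List.getElem?_eq_some_iff.1 ht1
      exact hi1 ((htn.getElem_inj_iff).1 (h2.trans h6.symm))
    · have h1 : x ∈ (X.w.drop a).take k := ht.mem_iff.1 (List.mem_of_getElem? hi)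
      obtain ⟨j, hj⟩ := List.mem_iff_getElem?.1 h1
      have hjk : j < k := by
        have := (List.getElem?_eq_some_iff.1 hj).1
        omega
      exact ⟨j, hjk, by rw [← hsget j hjk]; exact hj⟩
  obtain ⟨j, hj2, hjk, hWj⟩ : ∃ j, 2 ≤ j ∧ j < k ∧ ∀ s' : List ℕ, t[j]? = s'[0]? →
      WC (k - 2) s' (t.drop 2) := by
    rcases Nat.lt_or_ge 7 k with h7 | h7
    · refine ⟨3, by omega, by omega, fun s' hs' => ?_⟩
      rw [WC_big (by omega), List.getElem?_drop]
      exact hs'
    · have h8 : k = 7 := by omega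
      subst h8
      refine ⟨5, by omega, by omega, fun s' hs' => ?_⟩
      show WC 5 s' (t.drop 2)
      unfold WC
      rw [if_neg (by omega), if_neg (by omega), if_pos rfl, List.getElem?_drop]
      exact hs'
  obtain ⟨y, hy⟩ : ∃ y, t[j]? = some y := ⟨t[j], List.getElem?_eq_getElem (by omega)⟩
  have hxy : x ≠ y := by
    rintro rfl
    obtain ⟨h1, h2⟩ := List.getElem?_eq_some_iff.1 hy
    obtain ⟨h3, h6⟩ := List.getElem?_eq_some_iff.1 ht0
    have := (htn.getElem_inj_iff).1 (h2.trans h6.symm)
    omega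
  obtain ⟨X', hst, hr, hx1, hx2, hx3, s1, hs1⟩ := run_to_last g c hz
    (fun A X' hn hst => (gstep_phase h4 h5 hk g c hPi hd hst).1 _ _ (hst.ph.compB g c hn))
    (fun A X' h2 hst => (gstep_phase h4 h5 hk g c hPi hd hst).2 _ _ h2
      (hst.ph.compA g c (Finset.card_pos.1 (by omega))))
    (htS 0 x ht0 (by omega)) (htS j y hy (by omega)) hxy
  have h1c : ({x} : Finset ℕ).card = 1 := Finset.card_singleton x
  have hne : ({x} : Finset ℕ).Nonempty := Finset.singleton_nonempty x
  have hp := hst.ph
  have hsame := hp.same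
  have g' := hp.good
  have c' := hp.compB g c (by rw [h1c]; omega)
  have hsl := hp.slength g c
  rw [if_neg hne.ne_empty] at hsl
  have htop : top a ({x} : Finset ℕ).card = [a + 1] := by
    rw [h1c]
    rfl
  rw [htop] at hsame
  have hr' : RunS Pi X a z ((compS X a k z).powerset.erase {x})
      ⟨X'.w, X'.s ++ [a + ({x} : Finset ℕ).card]⟩ := by
    rw [h1c]
    exact hr
  -- parity
  have hPin : Pi.Nonempty := by
    rw [← Finset.card_pos]
    omega
  have hPin' : (subPi Pi a ({x} : Finset ℕ).card).Nonempty := by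
    rw [← Finset.card_pos]
    have h6 := hp.picard g c
    rw [if_neg hne.ne_empty] at h6
    split_ifs at h6 <;> omega
  have heps' : HeadEps (subPi Pi a ({x} : Finset ℕ).card) X' := by
    refine ⟨a + 2, s1, hs1, ?_⟩
    rw [h1c]
    simp [subPi]
  obtain ⟨par1, par2⟩ := runS_parity g c ⟨0, by omega, hz⟩ hp hne hr' (by omega)
    (Npar_eps g (exists_eps g (by omega))) (Fpar_pos g hPin)
    (Npar_eps g' (by
      obtain ⟨b, s2, h6, h7⟩ := heps'
      exact ⟨b, by rw [h6]; exact List.mem_cons_self, h7⟩)) (Fpar_pos g' hPin')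
  rw [h1c] at g' c' heps' par2
  change IsComp (subPi Pi a 1) X' (a + 2) (k - 2) at c'
  have hPi' : ∀ b ∈ subPi Pi a 1, a + 2 < b ∧ b < a + 2 + (k - 2) := by
    intro b hb
    unfold subPi at hb
    rw [Finset.mem_erase, Finset.mem_erase] at hb
    have := hPi b hb.2.2
    omega
  -- the words
  have hw' := word_eq g hPi hsame
  have hperm := comp_perm g hPi hsame
  change X'.w = X.w.take a ++ ((X'.w.drop a).take k ++ X.w.drop (a + k)) at hw'
  change ((X'.w.drop a).take k).Perm ((X.w.drop a).take k) at hperm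
  have hs'get : ∀ i, i < k → ((X'.w.drop a).take k)[i]? = X'.w[a + i]? := by
    intro i hi
    rw [List.getElem?_take, if_pos hi, List.getElem?_drop]
  have hs'' := two_cons ((hs'get 0 (by omega)).trans hx1) ((hs'get 1 (by omega)).trans hx2)
  have ht'' := two_cons ht0 ht1
  have hdrop : ((X'.w.drop a).take k).drop 2 = (X'.w.drop (a + 2)).take (k - 2) := by
    rw [List.drop_take, List.drop_drop]
  have ht' : (t.drop 2).Perm ((X'.w.drop (a + 2)).take (k - 2)) := by
    rw [← hdrop]
    have h6 := ht.trans hperm.symm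
    rw [hs'', ht''] at h6
    exact (List.perm_cons _).1 ((List.perm_cons _).1 h6)
  have hW' : WC (k - 2) ((X'.w.drop (a + 2)).take (k - 2)) (t.drop 2) := by
    apply hWj
    rw [← hdrop, List.getElem?_drop, hs'get _ (by omega), hx3]
    exact hy
  -- the orders
  rw [ordT_step hk] at hω hps ⊢
  rw [spc_step hk] at hl
  have hso : (ω ++ ordT (k - 2) (a + 2)).Perm X'.s := by
    have h6 : ((ω ++ ordT (k - 2) (a + 2)) ++ [a + 1]).Perm (X'.s ++ [a + 1]) := by
      rw [List.append_assoc]
      exact hω.trans hsame.s.symm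
    exact (List.perm_append_right_iff _).1 h6
  have q1 : (inv X.w + inv X'.w + inv ((X.w.drop a).take k) + inv ((X'.w.drop a).take k)) % 2
      = 0 := by
    have h6 := inv_mid (u := X.w.take a) (v := X.w.drop (a + k)) hperm.symm
    rw [← hw', ← word_eq g hPi (Same.refl X)] at h6
    exact h6
  have q2 : (inv ((X'.w.drop a).take k) + inv t + inv ((X'.w.drop (a + 2)).take (k - 2))
      + inv (t.drop 2)) % 2 = 0 := by
    have h6 := inv_cons (m := x) (ht'.cons z)
    have h7 := inv_cons (m := z) ht'
    rw [← hdrop] at h6 h7 ⊢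
    rw [← hs'', ← ht''] at h6
    omega
  have q3 := inv_snoc (m := a + 1) hso
  rw [List.append_assoc] at q3
  have hfin := h (subPi Pi a 1) X' (a + 2) (t.drop 2) ω g' c' hPi' heps'
    (show D ≤ X'.s.length by omega) ht' hW' hso hl (by omega) (by omega)
  have hlast := last_phase (Y' := ⟨X'.w.take (a + 2) ++ (t.drop 2 ++ X'.w.drop (a + 2 + (k - 2))),
    ω ++ ordT (k - 2) (a + 2)⟩) g c hz hp (by rw [htop]; exact hr) (by rw [h1c]; exact hfin)
  rw [htop] at hlast
  have e1 : X'.w.take (a + 2) ++ (t.drop 2 ++ X'.w.drop (a + 2 + (k - 2)))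
      = X.w.take a ++ (t ++ X.w.drop (a + k)) := by
    have h6 : X'.w.take (a + 2) = X.w.take a ++ [x, z] := by
      have h7 := take_eq g hPi hsame
      change X'.w.take a = X.w.take a at h7
      rw [List.take_add, h7]
      congr 1
      have h8 : (X'.w.drop a).take 2 = ((X'.w.drop a).take k).take 2 := by
        rw [List.take_take, Nat.min_eq_left (by omega)]
      rw [h8, hs'']
      rfl
    have h7 := drop_eq g hPi hsame
    change X'.w.drop (a + k) = X.w.drop (a + k) at h7
    rw [show a + 2 + (k - 2) = a + k by omega, h6, h7]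
    nth_rewrite 2 [ht'']
    rw [List.append_assoc]
    rfl
  rw [← e1, ← List.append_assoc ω]
  exact hlast

theorem gl_all (h4 : E4) (h5 : E5) (g5 : GLs 5 6) (g6 : GLs 6 6) {k : ℕ} (hk : 6 ≤ k) :
    GLs k k := by
  induction k using Nat.strong_induction_on with
  | _ k ih =>
    rcases Nat.lt_or_ge k 7 with h | h
    · have h6 : k = 6 := by omega
      subst h6
      exact g6
    · rcases Nat.lt_or_ge k 8 with h' | h'
      · have h7 : k = 7 := by omega
        subst h7
        exact gl_step h4 h5 (D := 6) (by omega) (by omega) g5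
      · exact gl_step h4 h5 (D := k - 2) (by omega) (by omega) (ih (k - 2) (by omega) (by omega))

end Pool.Agent.RS
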