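import Pool.Agent.RS.RepRun
import Pool.Agent.RS.CertL
import Pool.Agent.RS.DbA

/-!
# RS: facts of a group from derivations and certificates
-/

set_option autoImplicit false

namespace Pool.Agent.RS

theorem zip_mem {α β : Type} {l : List α} {m : List β} (h : l.length = m.length) {x : α}
    (hx : x ∈ l) : ∃ y, (x, y) ∈ l.zip m := by
  obtain ⟨i, hi, rfl⟩ := List.getElem_of_mem hx
  have hi' : i < m.length := h ▸ hi
  refine ⟨m[i], ?_⟩
  have : (l.zip m)[i]'(by simp [hi, hi']) = (l[i], m[i]) := by simp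
  rw [← this]
  exact List.getElem_mem _

theorem six_of_check (h5 : D05) {db : List (List Fact)} (hdb : ∀ gr ∈ db, ∀ f ∈ gr, Holds f)
    {fs : List Fact} {ds : List Der} (hchk : checkAll db fs ds = true) :
    ∀ f ∈ fs, okF f = true ∧ HoldsAt 6 f := by
  intro f hf
  unfold checkAll at hchk
  rw [Bool.and_eq_true] at hchk
  obtain ⟨h1, h2⟩ := hchk
  have hl : fs.length = ds.length := by simpa using h1
  obtain ⟨d, hd⟩ := zip_mem hl hf
  have h3 := (List.all_eq_true.1 h2) (f, d) hd
  have h3' : checkD db f d = true := h3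
  refine ⟨?_, checkD_sound h5 hdb h3'⟩
  unfold checkD at h3'
  rw [Bool.and_eq_true] at h3'
  exact h3'.1

theorem holds_group (h5 : D05) {db : List (List Fact)} (hdb : ∀ gr ∈ db, ∀ f ∈ gr, Holds f)
    {fs : List Fact} {ds : List Der} (hchk : checkAll db fs ds = true) {ks : List ℕ} {e : ℕ}
    {cs : List Cer} (hcs : AllCer ks e cs) (he : (ks.map (fun k => k - 1)).sum + e = 5)
    (he1 : 1 ≤ e)
    (hcov : fs.all (fun f => !f.five || ((f.ks == ks) && (f.cls == none) &&
      cover5 ks e cs f.t f.tp)) = true) : ∀ f ∈ fs, Holds f := by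
  intro f hf
  obtain ⟨ho, h6⟩ := six_of_check h5 hdb hchk f hf
  have hc := (List.all_eq_true.1 hcov) f hf
  by_cases hfive : f.five = true
  · simp only [hfive, Bool.not_true, Bool.false_or, Bool.and_eq_true, beq_iff_eq] at hc
    obtain ⟨⟨hks, hcl⟩, hcv⟩ := hc
    subst hks
    exact Holds_of_five ho hfive hcl he he1 hcs hcv h6
  · refine ⟨ho, ?_⟩
    simp only [hfive]
    simpa using h6

end Pool.Agent.RS
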