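import Pool.Agent.RS.Walks

/-!
# RS module Leaf: configurations without movable bars (`Pi = ∅`)

The faces are the nonempty subsets of the chain of the sets `pre w b`, `b ∈ s`.
-/

set_option autoImplicit false

namespace Pool.Agent.RS

open Finset

namespace LeafAux

theorem mem_fc {w s : List ℕ} {S : Finset ℕ} : S ∈ fc w s ↔ ∃ c ∈ s, pre w c = S := by
  unfold fc
  simp

theorem oks_empty {X : Fl} (g : Good ∅ X) {S : Finset ℕ} (h : OKS ∅ X S) :
    S ∈ fc X.w X.s := by
  obtain ⟨h1, _, h3⟩ := h
  have hc : (pre X.w S.card).card = S.card := pre_card g.wn (g.lt _ h1).le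
  refine mem_fc.mpr ⟨S.card, h1, ?_⟩
  rcases h3 S.card (by simp) with h | h
  · exact (Finset.eq_of_subset_of_card_le h (by rw [hc])).symm
  · exact Finset.eq_of_subset_of_card_le h (by rw [hc])

/-- the new faces of the walk `m :: β → β ++ [m]` -/
def mid (w : List ℕ) (m : ℕ) : List ℕ → List Face
  | [] => []
  | _ :: s => fc w (m :: s) :: mid w m s

theorem walk_mid {Pi : Finset ℕ} {w : List ℕ} {m : ℕ} :
    ∀ (β t : List ℕ), Walk Pi ⟨w, t ++ m :: β⟩ ⟨w, t ++ (β ++ [m])⟩ (mid w m β) := by
  intro β
  induction β with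
  | nil =>
    intro t
    exact Walk.nil _
  | cons b s ih =>
    intro t
    have h := ih (t ++ [b])
    have e1 : t ++ [b] ++ m :: s = t ++ b :: m :: s := by simp
    have e2 : t ++ [b] ++ (s ++ [m]) = t ++ (b :: s ++ [m]) := by simp
    rw [e1, e2] at h
    exact Walk.cons (Step.order w t s m b) h

theorem cons_mid {w : List ℕ} {m : ℕ} :
    ∀ β : List ℕ, fc w (m :: β) :: mid w m β = faces w (β ++ [m]) := by
  intro β
  induction β with
  | nil => rfl
  | cons b s ih =>
    change fc w (m :: b :: s) :: (fc w (m :: s) :: mid w m s)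
      = fc w (b :: (s ++ [m])) :: faces w (s ++ [m])
    rw [ih]
    congr 1
    apply fc_perm
    have h : (m :: b :: s).Perm (b :: s ++ [m]) := (List.perm_append_singleton m (b :: s)).symm
    simpa using h

theorem walk_cons {X Y : Fl} {L : List Face} (h : Walk ∅ X Y L) (m : ℕ) :
    Walk ∅ ⟨X.w, m :: X.s⟩ ⟨Y.w, m :: Y.s⟩ L := by
  induction h with
  | nil X => exact Walk.nil _
  | cons hs _ ih =>
    refine Walk.cons ?_ ih
    cases hs with
    | word u v s x y h => exact absurd h (by simp)
    | order w t s a b =>
      exact Step.order w (m :: t) s a b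

end LeafAux

open LeafAux

theorem AF_empty {X : Fl} (g : Good ∅ X) {F : Face} : AF ∅ X F ↔ F.Nonempty ∧ F ⊆ fc X.w X.s := by
  constructor
  · rintro ⟨h1, h2, _⟩
    exact ⟨h1, fun S hS => oks_empty g (h2 S hS)⟩
  · rintro ⟨h1, h2⟩
    refine ⟨h1, ?_, ?_⟩
    · intro S hS
      obtain ⟨c, hc, rfl⟩ := mem_fc.mp (h2 hS)
      exact OKS_pre g hc
    · intro S hS T hT
      obtain ⟨c, hc, rfl⟩ := mem_fc.mp (h2 hS)
      obtain ⟨d, hd, rfl⟩ := mem_fc.mp (h2 hT)
      rcases le_total c d with h | h
      · exact Or.inl (pre_mono h)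
      · exact Or.inr (pre_mono h)

/-- leaf step. Walk: `m :: α → m :: β` (the strip `α → β` with `m` at the bottom: its new faces are
all nonempty sets of bars without `m`, except those of `α`, which are faces of `m :: α`), then `m`
moves to the top (`m :: β → β ++ [m]`, new faces `{m} ∪ β'` for the proper suffixes `β'` of `β`), then
the strip `β → γ` with `m` on the top. -/
theorem leaf_step {w α β γ : List ℕ} {m : ℕ} (g : Good ∅ ⟨w, m :: α⟩)
    (h1 : Strip ∅ ⟨w, α⟩ ⟨w, β⟩) (h2 : Strip ∅ ⟨w, β⟩ ⟨w, γ⟩) :
    Strip ∅ ⟨w, m :: α⟩ ⟨w, γ ++ [m]⟩ := by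
  have gα : Good ∅ ⟨w, α⟩ :=
    ⟨g.wn, (List.nodup_cons.mp g.sn).2, fun b hb => absurd hb (by simp),
      fun b hb => g.pos b (List.mem_cons_of_mem _ hb),
      fun b hb => g.lt b (List.mem_cons_of_mem _ hb)⟩
  have s1 := Strip.same gα h1
  have gβ : Good ∅ ⟨w, β⟩ := s1.good gα
  have pβα : β.Perm α := s1.s
  obtain ⟨L1, w1, n1, a1⟩ := h1
  obtain ⟨L2, w2, n2, a2⟩ := h2
  have hmα : m ∉ α := (List.nodup_cons.mp g.sn).1
  have hfc : fc w β = fc w α := fc_perm pβα
  -- the set of `m`
  have hP : pre w m ∉ fc w α := by
    intro h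
    obtain ⟨c, hc, e⟩ := mem_fc.mp h
    have c1 : (pre w c).card = c := pre_card g.wn (gα.lt c hc).le
    have c2 : (pre w m).card = m := pre_card g.wn (g.lt m (List.mem_cons_self ..)).le
    rw [e, c2] at c1
    exact hmα (c1 ▸ hc)
  have hfm : fc w [m] = {pre w m} := by
    unfold fc
    simp
  have b1 : ∀ F, F ∈ faces w α ++ L1 ↔ F.Nonempty ∧ F ⊆ fc w α := fun F =>
    (a1 F).trans (AF_empty gα)
  have b2 : ∀ F, F ∈ faces w β ++ L2 ↔ F.Nonempty ∧ F ⊆ fc w α := fun F => by
    have := (a2 F).trans (AF_empty gβ)
    rw [← hfc]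
    exact this
  -- the walk
  have W1 : Walk ∅ ⟨w, m :: α⟩ ⟨w, m :: β⟩ L1 := walk_cons w1 m
  have W2 : Walk ∅ ⟨w, m :: β⟩ ⟨w, β ++ [m]⟩ (mid w m β) := walk_mid β []
  have W3 : Walk ∅ ⟨w, β ++ [m]⟩ ⟨w, γ ++ [m]⟩ (L2.map (fun F => F ∪ fc w [m])) :=
    Walk.top gβ w2 (T := [m]) (by simp)
  refine ⟨L1 ++ (mid w m β ++ L2.map (fun F => F ∪ fc w [m])), W1.append (W2.append W3), ?_⟩
  -- the list of all faces up to permutation
  have hperm : (faces w (m :: α) ++ (L1 ++ (mid w m β ++ L2.map (fun F => F ∪ fc w [m])))).Perm
      ((faces w α ++ L1) ++ ((faces w β ++ L2).map (fun F => F ∪ fc w [m]) ++ [fc w [m]])) := by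
    have e0 : faces w (m :: α) = fc w (m :: β) :: faces w α := by
      change fc w (m :: α) :: faces w α = fc w (m :: β) :: faces w α
      rw [fc_perm (pβα.symm.cons m)]
    have e1 : fc w (m :: β) :: mid w m β
        = (faces w β).map (fun F => F ∪ fc w [m]) ++ [fc w [m]] := by
      rw [cons_mid, faces_append]
      rfl
    rw [e0]
    calc (fc w (m :: β) :: faces w α) ++ (L1 ++ (mid w m β ++ L2.map (fun F => F ∪ fc w [m])))
        = fc w (m :: β) :: ((faces w α ++ L1) ++ (mid w m β ++ L2.map (fun F => F ∪ fc w [m]))) := by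
          simp
      _ |>.Perm ((faces w α ++ L1) ++ (fc w (m :: β) ::
            (mid w m β ++ L2.map (fun F => F ∪ fc w [m])))) := List.perm_middle.symm
      _ |>.Perm ((faces w α ++ L1) ++ ((faces w β ++ L2).map (fun F => F ∪ fc w [m])
            ++ [fc w [m]])) := by
          apply List.Perm.append_left
          have e2 : fc w (m :: β) :: (mid w m β ++ L2.map (fun F => F ∪ fc w [m]))
              = (faces w β).map (fun F => F ∪ fc w [m])
                ++ ([fc w [m]] ++ L2.map (fun F => F ∪ fc w [m])) := by
            rw [← List.append_assoc, ← e1]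
            rfl
          rw [e2, List.map_append, List.append_assoc]
          exact List.Perm.append_left _ List.perm_append_comm
  have hmem : ∀ F, F ∈ (faces w α ++ L1) ++ ((faces w β ++ L2).map (fun F => F ∪ fc w [m])
      ++ [fc w [m]]) ↔ F.Nonempty ∧ F ⊆ fc w (m :: α) := by
    intro F
    have hins : fc w (m :: α) = insert (pre w m) (fc w α) := by
      unfold fc
      simp
    rw [hins, List.mem_append, b1, List.mem_append, List.mem_map, List.mem_singleton, hfm]
    constructor
    · rintro (⟨h, h'⟩ | ⟨F', h, rfl⟩ | rfl)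
      · exact ⟨h, h'.trans (Finset.subset_insert _ _)⟩
      · obtain ⟨hn, hs⟩ := (b2 F').mp h
        refine ⟨hn.mono Finset.subset_union_left, ?_⟩
        apply Finset.union_subset (hs.trans (Finset.subset_insert _ _))
        intro S hS
        rw [Finset.mem_singleton] at hS
        subst hS
        exact Finset.mem_insert_self _ _
      · refine ⟨Finset.singleton_nonempty _, ?_⟩
        intro S hS
        rw [Finset.mem_singleton] at hS
        subst hS
        exact Finset.mem_insert_self _ _
    · rintro ⟨hn, hs⟩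
      by_cases hPF : pre w m ∈ F
      · by_cases hE : (F.erase (pre w m)).Nonempty
        · right; left
          refine ⟨F.erase (pre w m), (b2 _).mpr ⟨hE, ?_⟩, ?_⟩
          · intro S hS
            rw [Finset.mem_erase] at hS
            rcases Finset.mem_insert.mp (hs hS.2) with h | h
            · exact absurd h hS.1
            · exact h
          · ext S
            simp only [Finset.mem_union, Finset.mem_erase, Finset.mem_singleton]
            constructor
            · rintro (h | h)
              · exact h.2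
              · rw [h]; exact hPF
            · intro h
              by_cases hS : S = pre w m
              · exact Or.inr hS
              · exact Or.inl ⟨hS, h⟩
        · right; right
          rw [Finset.not_nonempty_iff_eq_empty] at hE
          rw [← Finset.insert_erase hPF, hE]
          rfl
      · left
        refine ⟨hn, ?_⟩
        intro S hS
        rcases Finset.mem_insert.mp (hs hS) with h | h
        · exact absurd (h ▸ hS) hPF
        · exact h
  constructor
  · rw [hperm.nodup_iff, List.nodup_append]
    refine ⟨n1, ?_, ?_⟩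
    · rw [List.nodup_append]
      refine ⟨?_, List.nodup_singleton _, ?_⟩
      · apply List.Nodup.map_on _ n2
        intro A hA B hB hAB
        have hA' := ((b2 A).mp hA).2
        have hB' := ((b2 B).mp hB).2
        rw [hfm] at hAB
        ext S
        have h := Finset.ext_iff.mp hAB S
        simp only [Finset.mem_union, Finset.mem_singleton] at h
        constructor
        · intro hS
          rcases h.mp (Or.inl hS) with h' | h'
          · exact h'
          · exact absurd (hA' (h' ▸ hS)) hP
        · intro hS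
          rcases h.mpr (Or.inl hS) with h' | h'
          · exact h'
          · exact absurd (hB' (h' ▸ hS)) hP
      · intro A hA B hB hAB
        rw [List.mem_singleton] at hB
        rw [hB] at hAB
        obtain ⟨A', hA', e⟩ := List.mem_map.mp hA
        obtain ⟨hn, hs⟩ := (b2 A').mp hA'
        obtain ⟨S, hS⟩ := hn
        have h3 : S ∈ A := by
          rw [← e]
          exact Finset.mem_union_left _ hS
        rw [hAB, hfm, Finset.mem_singleton] at h3
        exact hP (h3 ▸ hs hS)
    · intro A hA B hB hAB
      have hA' := ((b1 A).mp hA).2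
      have hPB : pre w m ∈ B := by
        rcases List.mem_append.mp hB with h | h
        · obtain ⟨B', _, e⟩ := List.mem_map.mp h
          rw [← e, hfm]
          exact Finset.mem_union_right _ (Finset.mem_singleton_self _)
        · rw [List.mem_singleton] at h
          rw [h, hfm]
          exact Finset.mem_singleton_self _
      rw [← hAB] at hPB
      exact hP (hA' hPB)
  · intro F
    rw [hperm.mem_iff]
    exact (hmem F).trans (AF_empty g).symm

end Pool.Agent.RS
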