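import Mathlib

/-!
# Ordered set partitions and the face lattice of the permutahedron (MP_963701_co, helper95)
-/

set_option autoImplicit false

namespace Pool.Agent.RS

open Finset

/-- an ordered set partition `A₁ | ⋯ | A_m` of `{0, …, n - 1}` -/
@[ext] structure OSP (n : ℕ) where
  blocks : List (Finset (Fin n))
  ne : ∀ B ∈ blocks, B.Nonempty
  disj : blocks.Pairwise Disjoint
  cover : ∀ i : Fin n, ∃ B ∈ blocks, i ∈ B

/-- the elements of the face lattice of the permutahedron `Π_n`: `none` is the empty face, the
others are the ordered set partitions (the partition with one block is `Π_n` itself) -/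
abbrev PFace (n : ℕ) := Option (OSP n)

/-- rank = dimension + 1; a partition with `m` blocks is a face of dimension `n - m` -/
def PFace.rk {n : ℕ} : PFace n → ℕ
  | none => 0
  | some A => n + 1 - A.blocks.length

/-- `B` is obtained from `A` by merging two consecutive blocks -/
def Merge {n : ℕ} (A B : OSP n) : Prop :=
  ∃ u v S T, A.blocks = u ++ S :: T :: v ∧ B.blocks = u ++ (S ∪ T) :: v

/-- the cover relation of the face lattice: the empty face is covered by the vertices (partitions
into singletons), and a nonempty face `A` is covered by the faces obtained by merging two
consecutive blocks -/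
inductive PFace.Cov {n : ℕ} : PFace n → PFace n → Prop
  | vertex (A : OSP n) : A.blocks.length = n → PFace.Cov none (some A)
  | merge (A B : OSP n) : Merge A B → PFace.Cov (some A) (some B)

end Pool.Agent.RS
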