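import Pool.Agent.RS.Defs

/-!
# RS module Words: words, sets of bars, faces
-/

set_option autoImplicit false

namespace Pool.Agent.RS

open Finset

theorem pre_card {w : List ℕ} {b : ℕ} (hw : w.Nodup) (hb : b ≤ w.length) : (pre w b).card = b := by
  unfold pre
  rw [List.toFinset_card_of_nodup (hw.sublist (List.take_sublist b w)), List.length_take]
  omega

theorem mem_pre {w : List ℕ} {b x : ℕ} : x ∈ pre w b ↔ ∃ i, i < b ∧ w[i]? = some x := by
  unfold pre
  rw [List.mem_toFinset, List.mem_iff_getElem?]
  constructor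
  · rintro ⟨i, hi⟩
    rw [List.getElem?_take] at hi
    split_ifs at hi with h
    exact ⟨i, h, hi⟩
  · rintro ⟨i, h, hi⟩
    exact ⟨i, by rw [List.getElem?_take, if_pos h]; exact hi⟩

theorem pre_mono {w : List ℕ} {a b : ℕ} (h : a ≤ b) : pre w a ⊆ pre w b := by
  intro x hx
  obtain ⟨i, hi, hx⟩ := mem_pre.1 hx
  exact mem_pre.2 ⟨i, by omega, hx⟩

theorem pre_succ {w : List ℕ} {b x : ℕ} (h : w[b]? = some x) : pre w (b + 1) = insert x (pre w b) := by
  ext y
  rw [Finset.mem_insert, mem_pre, mem_pre]
  constructor
  · rintro ⟨i, hi, hy⟩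
    rcases Nat.lt_succ_iff_lt_or_eq.1 hi with h1 | h1
    · exact Or.inr ⟨i, h1, hy⟩
    · subst h1
      rw [h] at hy
      exact Or.inl (Option.some.inj hy).symm
  · rintro (rfl | ⟨i, hi, hy⟩)
    · exact ⟨b, by omega, h⟩
    · exact ⟨i, by omega, hy⟩

/-- the face depends only on the set of bars -/
theorem fc_perm {w s s' : List ℕ} (h : s.Perm s') : fc w s = fc w s' := by
  unfold fc
  exact List.toFinset_eq_of_perm _ _ (h.map _)

theorem fc_append {w s s' : List ℕ} : fc w (s ++ s') = fc w s ∪ fc w s' := by
  unfold fc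
  rw [List.map_append, List.toFinset_append]

/-- the face depends only on the sets of the bars -/
theorem fc_congr {w w' s : List ℕ} (h : ∀ b ∈ s, pre w b = pre w' b) : fc w s = fc w' s := by
  unfold fc
  rw [List.map_congr_left h]

theorem fc_card {w s : List ℕ} (hw : w.Nodup) (hs : s.Nodup) (hl : ∀ b ∈ s, b ≤ w.length) :
    (fc w s).card = s.length := by
  unfold fc
  rw [List.toFinset_card_of_nodup, List.length_map]
  refine List.Nodup.map_on ?_ hs
  intro a ha b hb hab
  rw [← pre_card hw (hl a ha), ← pre_card hw (hl b hb), hab]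

theorem faces_length {w s : List ℕ} : (faces w s).length = s.length := by
  induction s with
  | nil => rfl
  | cons b s ih => simp [faces, ih]

theorem mem_faces {w s : List ℕ} {F : Face} :
    F ∈ faces w s ↔ ∃ t, t ≠ [] ∧ t <:+ s ∧ F = fc w t := by
  induction s with
  | nil =>
    simp only [faces, List.not_mem_nil, List.suffix_nil, false_iff, not_exists, not_and]
    intro t ht ht' _
    exact ht ht'
  | cons b s ih =>
    simp only [faces, List.mem_cons, ih]
    constructor
    · rintro (h | ⟨t, h1, h2, h3⟩)
      · exact ⟨b :: s, List.cons_ne_nil _ _, List.suffix_rfl, h⟩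
      · exact ⟨t, h1, h2.trans (List.suffix_cons b s), h3⟩
    · rintro ⟨t, h1, h2, h3⟩
      rcases List.suffix_cons_iff.1 h2 with h | h
      · subst h
        exact Or.inl h3
      · exact Or.inr ⟨t, h1, h, h3⟩

/-- faces of a flag with additional bars `T` on the top -/
theorem faces_append {w s T : List ℕ} :
    faces w (s ++ T) = (faces w s).map (fun F => F ∪ fc w T) ++ faces w T := by
  induction s with
  | nil => rfl
  | cons b s ih =>
    have h : fc w (b :: (s ++ T)) = fc w (b :: s) ∪ fc w T := by
      rw [← fc_append]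
      rfl
    simp only [List.cons_append, faces, List.map_cons, ih, h]

end Pool.Agent.RS
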