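import Pool.Agent.RS.Osp
import Pool.Agent.RS.Words

/-!
# RS module OspA: ordered set partitions of `{0, …, n-1}` and chains of proper nonempty subsets
-/

set_option autoImplicit false

namespace Pool.Agent.RS

open Finset

/-- the chain of the unions of the first `i` blocks, `0 < i < m`, as sets of natural numbers -/
def OSP.chain {n : ℕ} (A : OSP n) : Face :=
  ((List.range A.blocks.length).tail.map
    (fun i => ((A.blocks.take i).foldr (· ∪ ·) ∅).image Fin.val)).toFinset

/-- a chain of proper nonempty subsets of `{0, …, n-1}` -/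
def IsCh (n : ℕ) (F : Face) : Prop :=
  (∀ S ∈ F, S.Nonempty ∧ S ⊂ range n) ∧ ∀ S ∈ F, ∀ T ∈ F, S ⊆ T ∨ T ⊆ S

namespace OspAAux

theorem mem_U {α : Type*} [DecidableEq α] (l : List (Finset α)) (x : α) :
    x ∈ l.foldr (· ∪ ·) ∅ ↔ ∃ B ∈ l, x ∈ B := by
  induction l with
  | nil => simp
  | cons a l ih => simp [ih]

/-- the union of the first `i` blocks -/
def U {n : ℕ} (A : OSP n) (i : ℕ) : Finset (Fin n) := (A.blocks.take i).foldr (· ∪ ·) ∅

theorem mem_Ui {n : ℕ} (A : OSP n) (i : ℕ) (x : Fin n) :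
    x ∈ U A i ↔ ∃ j, ∃ h : j < A.blocks.length, j < i ∧ x ∈ A.blocks[j] := by
  unfold U
  rw [mem_U]
  constructor
  · rintro ⟨B, hB, hx⟩
    obtain ⟨j, hj, rfl⟩ := List.mem_iff_getElem.1 hB
    rw [List.length_take] at hj
    refine ⟨j, by omega, by omega, ?_⟩
    rwa [List.getElem_take] at hx
  · rintro ⟨j, h, hji, hx⟩
    refine ⟨A.blocks[j], ?_, hx⟩
    rw [List.mem_iff_getElem]
    refine ⟨j, by rw [List.length_take]; omega, ?_⟩
    rw [List.getElem_take]

theorem U_succ {n : ℕ} (A : OSP n) {i : ℕ} (h : i < A.blocks.length) :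
    U A (i + 1) = U A i ∪ A.blocks[i] := by
  ext x
  rw [mem_union, mem_Ui, mem_Ui]
  constructor
  · rintro ⟨j, hj, hji, hx⟩
    by_cases hi : j = i
    · subst hi
      exact Or.inr hx
    · exact Or.inl ⟨j, hj, by omega, hx⟩
  · rintro (⟨j, hj, hji, hx⟩ | hx)
    · exact ⟨j, hj, by omega, hx⟩
    · exact ⟨i, h, by omega, hx⟩

theorem U_disj {n : ℕ} (A : OSP n) {i : ℕ} (h : i < A.blocks.length) :
    Disjoint (U A i) A.blocks[i] := by
  rw [Finset.disjoint_left]
  intro x hx hxi
  rw [mem_Ui] at hx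
  obtain ⟨j, hj, hji, hxj⟩ := hx
  have hd := List.pairwise_iff_getElem.1 A.disj j i hj h hji
  exact Finset.disjoint_left.1 hd hxj hxi

theorem U_mono {n : ℕ} (A : OSP n) {i j : ℕ} (h : i ≤ j) : U A i ⊆ U A j := by
  intro x
  rw [mem_Ui, mem_Ui]
  rintro ⟨k, hk, hki, hx⟩
  exact ⟨k, hk, by omega, hx⟩

theorem U_ssub {n : ℕ} (A : OSP n) {i j : ℕ} (h : i < j) (hi : i < A.blocks.length) :
    U A i ⊂ U A j := by
  obtain ⟨x, hx⟩ := A.ne A.blocks[i] (List.getElem_mem hi)
  rw [Finset.ssubset_iff_of_subset (U_mono A h.le)]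
  refine ⟨x, ?_, ?_⟩
  · rw [mem_Ui]
    exact ⟨i, hi, h, hx⟩
  · intro hx2
    exact Finset.disjoint_left.1 (U_disj A hi) hx2 hx

theorem U_all {n : ℕ} (A : OSP n) : U A A.blocks.length = univ := by
  rw [Finset.eq_univ_iff_forall]
  intro x
  obtain ⟨B, hB, hx⟩ := A.cover x
  obtain ⟨j, hj, rfl⟩ := List.mem_iff_getElem.1 hB
  rw [mem_Ui]
  exact ⟨j, hj, hj, hx⟩

theorem U_zero {n : ℕ} (A : OSP n) : U A 0 = ∅ := rfl

theorem le_card_U {n : ℕ} (A : OSP n) (i : ℕ) (hi : i ≤ A.blocks.length) :
    i ≤ (U A i).card := by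
  induction i with
  | zero => exact Nat.zero_le _
  | succ i ih =>
    have h1 := ih (by omega)
    have h2 := Finset.card_lt_card (U_ssub A (Nat.lt_succ_self i) (by omega))
    exact lt_of_le_of_lt h1 h2

/-- the sets of the chain -/
def cs {n : ℕ} (A : OSP n) (i : ℕ) : Finset ℕ := (U A i).image Fin.val

theorem cs_inj {n : ℕ} {X Y : Finset (Fin n)} (h : X.image Fin.val = Y.image Fin.val) : X = Y :=
  Finset.image_injective Fin.val_injective h

theorem cs_ssub {n : ℕ} (A : OSP n) {i j : ℕ} (h : i < j) (hi : i < A.blocks.length) :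
    cs A i ⊂ cs A j :=
  (Finset.image_ssubset_image Fin.val_injective).2 (U_ssub A h hi)

theorem mem_tail_range (m i : ℕ) : i ∈ (List.range m).tail ↔ 0 < i ∧ i < m := by
  cases m with
  | zero => simp
  | succ m =>
    rw [List.range_succ_eq_map, List.tail_cons, List.mem_map]
    constructor
    · rintro ⟨a, ha, rfl⟩
      rw [List.mem_range] at ha
      exact ⟨Nat.succ_pos a, Nat.succ_lt_succ ha⟩
    · rintro ⟨h1, h2⟩
      refine ⟨i - 1, ?_, by omega⟩
      rw [List.mem_range]
      omega

theorem mem_chain {n : ℕ} (A : OSP n) (S : Finset ℕ) :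
    S ∈ A.chain ↔ ∃ i, 0 < i ∧ i < A.blocks.length ∧ S = cs A i := by
  unfold OSP.chain
  rw [List.mem_toFinset, List.mem_map]
  constructor
  · rintro ⟨i, hi, rfl⟩
    rw [mem_tail_range] at hi
    exact ⟨i, hi.1, hi.2, rfl⟩
  · rintro ⟨i, h1, h2, rfl⟩
    exact ⟨i, (mem_tail_range _ _).2 ⟨h1, h2⟩, rfl⟩

theorem cs_injOn {n : ℕ} (A : OSP n) {i j : ℕ} (hi : i < A.blocks.length)
    (hj : j < A.blocks.length) (h : cs A i = cs A j) : i = j := by
  rcases lt_trichotomy i j with h1 | h1 | h1
  · exact absurd h (cs_ssub A h1 hi).ne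
  · exact h1
  · exact absurd h.symm (cs_ssub A h1 hj).ne

end OspAAux

open OspAAux

theorem OSP.chain_isCh {n : ℕ} (A : OSP n) : IsCh n A.chain := by
  refine ⟨?_, ?_⟩
  · intro S hS
    obtain ⟨i, hi0, him, rfl⟩ := (mem_chain A S).1 hS
    refine ⟨?_, ?_⟩
    · have h1 := le_card_U A i him.le
      have h2 : (U A i).Nonempty := by
        rw [← Finset.card_pos]
        omega
      exact h2.image _
    · have h1 := cs_ssub A him him
      have h2 : cs A A.blocks.length ⊆ range n := by
        intro x hx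
        unfold cs at hx
        rw [Finset.mem_image] at hx
        obtain ⟨y, _, rfl⟩ := hx
        exact Finset.mem_range.2 y.2
      exact lt_of_lt_of_le h1 h2
  · intro S hS T hT
    obtain ⟨i, hi0, him, rfl⟩ := (mem_chain A S).1 hS
    obtain ⟨j, hj0, hjm, rfl⟩ := (mem_chain A T).1 hT
    rcases le_total i j with h | h
    · exact Or.inl (Finset.image_subset_image (U_mono A h))
    · exact Or.inr (Finset.image_subset_image (U_mono A h))

theorem OSP.chain_card {n : ℕ} (hn : 0 < n) (A : OSP n) : A.chain.card + 1 = A.blocks.length := by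
  have hpos : 0 < A.blocks.length := by
    obtain ⟨B, hB, _⟩ := A.cover ⟨0, hn⟩
    exact List.length_pos_of_mem hB
  have h1 : A.chain.card = A.blocks.length - 1 := by
    unfold OSP.chain
    rw [List.toFinset_card_of_nodup]
    · rw [List.length_map, List.length_tail, List.length_range]
    · refine List.Nodup.map_on ?_ (List.nodup_range.tail)
      intro i hi j hj h
      rw [mem_tail_range] at hi hj
      exact cs_injOn A hi.2 hj.2 h
  omega

theorem OSP.chain_inj {n : ℕ} {A B : OSP n} (h : A.chain = B.chain) : A = B := by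
  rcases Nat.eq_zero_or_pos n with rfl | hn
  · have h0 : ∀ C : OSP 0, C.blocks = [] := by
      intro C
      rw [List.eq_nil_iff_forall_not_mem]
      intro D hD
      obtain ⟨x, _⟩ := C.ne D hD
      exact x.elim0
    exact OSP.ext (by rw [h0, h0])
  · have hlen : A.blocks.length = B.blocks.length := by
      rw [← OSP.chain_card hn A, ← OSP.chain_card hn B, h]
    have hmonoA : StrictMono (fun i : Fin (A.blocks.length - 1) => cs A (i.1 + 1)) := by
      intro i j hij
      have h1 : i.1 < j.1 := hij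
      exact cs_ssub A (by omega) (by omega)
    have hmonoB : StrictMono (fun i : Fin (A.blocks.length - 1) => cs B (i.1 + 1)) := by
      intro i j hij
      have h1 : i.1 < j.1 := hij
      exact cs_ssub B (by omega) (by omega)
    have hrange : Set.range (fun i : Fin (A.blocks.length - 1) => cs A (i.1 + 1))
        = Set.range (fun i : Fin (A.blocks.length - 1) => cs B (i.1 + 1)) := by
      ext S
      have hA : S ∈ Set.range (fun i : Fin (A.blocks.length - 1) => cs A (i.1 + 1))
          ↔ S ∈ A.chain := by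
        rw [mem_chain]
        constructor
        · rintro ⟨i, rfl⟩
          exact ⟨i.1 + 1, by omega, by omega, rfl⟩
        · rintro ⟨i, hi0, him, rfl⟩
          refine ⟨⟨i - 1, by omega⟩, ?_⟩
          show cs A (i - 1 + 1) = cs A i
          rw [Nat.sub_add_cancel hi0]
      have hB : S ∈ Set.range (fun i : Fin (A.blocks.length - 1) => cs B (i.1 + 1))
          ↔ S ∈ B.chain := by
        rw [mem_chain]
        constructor
        · rintro ⟨i, rfl⟩
          exact ⟨i.1 + 1, by omega, by omega, rfl⟩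
        · rintro ⟨i, hi0, him, rfl⟩
          refine ⟨⟨i - 1, by omega⟩, ?_⟩
          show cs B (i - 1 + 1) = cs B i
          rw [Nat.sub_add_cancel hi0]
      rw [hA, hB, h]
    have heq := (hmonoA.range_inj hmonoB).1 hrange
    have hU : ∀ i, i ≤ A.blocks.length → U A i = U B i := by
      intro i hi
      rcases Nat.eq_zero_or_pos i with rfl | hi0
      · rfl
      · rcases Nat.eq_or_lt_of_le hi with h1 | h1
        · rw [h1, U_all, hlen, U_all]
        · have h2 := congrFun heq ⟨i - 1, by omega⟩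
          simp only [Nat.sub_add_cancel hi0] at h2
          exact cs_inj h2
    refine OSP.ext (List.ext_getElem hlen ?_)
    intro i h1 h2
    have e1 : A.blocks[i] = U A (i + 1) \ U A i := by
      rw [U_succ A h1, Finset.union_sdiff_left]
      exact (Finset.sdiff_eq_self_of_disjoint (U_disj A h1).symm).symm
    have e2 : B.blocks[i] = U B (i + 1) \ U B i := by
      rw [U_succ B h2, Finset.union_sdiff_left]
      exact (Finset.sdiff_eq_self_of_disjoint (U_disj B h2).symm).symm
    rw [e1, e2, hU (i + 1) (by omega), hU i (by omega)]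

theorem OSP.length_le {n : ℕ} (A : OSP n) : A.blocks.length ≤ n := by
  have h1 := le_card_U A A.blocks.length le_rfl
  rw [U_all, Finset.card_univ, Fintype.card_fin] at h1
  exact h1

end Pool.Agent.RS
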