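import Pool.Agent.RS.OspA

/-!
# RS module OspB: every chain comes from an ordered set partition
-/

set_option autoImplicit false

namespace Pool.Agent.RS

open Finset

namespace OspBAux

/-- a set of numbers as a set of elements of `Fin n` -/
def dn (n : ℕ) (S : Finset ℕ) : Finset (Fin n) := univ.filter (fun i => i.val ∈ S)

theorem mem_dn {n : ℕ} {S : Finset ℕ} {i : Fin n} : i ∈ dn n S ↔ i.val ∈ S := by
  unfold dn
  rw [Finset.mem_filter]
  exact ⟨fun h => h.2, fun h => ⟨Finset.mem_univ _, h⟩⟩

theorem image_dn {n : ℕ} {S : Finset ℕ} (h : S ⊆ range n) : (dn n S).image Fin.val = S := by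
  ext x
  rw [Finset.mem_image]
  constructor
  · rintro ⟨i, hi, rfl⟩
    exact mem_dn.1 hi
  · intro hx
    have hxn := Finset.mem_range.1 (h hx)
    exact ⟨⟨x, hxn⟩, mem_dn.2 hx, rfl⟩

/-- the blocks after the set `P` for the increasing list of sets -/
def blk (n : ℕ) : Finset ℕ → List (Finset ℕ) → List (Finset (Fin n))
  | P, [] => [dn n (range n \ P)]
  | P, S :: l => dn n (S \ P) :: blk n S l

theorem blk_length {n : ℕ} (l : List (Finset ℕ)) : ∀ P, (blk n P l).length = l.length + 1 := by
  induction l with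
  | nil => intro P; rfl
  | cons S l ih => intro P; simp only [blk, List.length_cons, ih]

theorem blk_ne {n : ℕ} (l : List (Finset ℕ)) : ∀ P, (P :: l).Pairwise (· ⊂ ·) →
    (∀ S ∈ P :: l, S ⊂ range n) → ∀ B ∈ blk n P l, B.Nonempty := by
  induction l with
  | nil =>
    intro P _ h2 B hB
    simp only [blk, List.mem_singleton] at hB
    subst hB
    obtain ⟨x, hx1, hx2⟩ := Finset.exists_of_ssubset (h2 P (by simp))
    exact ⟨⟨x, Finset.mem_range.1 hx1⟩, mem_dn.2 (Finset.mem_sdiff.2 ⟨hx1, hx2⟩)⟩
  | cons S l ih =>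
    intro P h1 h2 B hB
    simp only [blk, List.mem_cons] at hB
    rcases hB with hB | hB
    · subst hB
      have hPS : P ⊂ S := (List.pairwise_cons.1 h1).1 S (by simp)
      obtain ⟨x, hx1, hx2⟩ := Finset.exists_of_ssubset hPS
      have hxn := (h2 S (by simp)).subset hx1
      exact ⟨⟨x, Finset.mem_range.1 hxn⟩, mem_dn.2 (Finset.mem_sdiff.2 ⟨hx1, hx2⟩)⟩
    · exact ih S (List.pairwise_cons.1 h1).2
        (fun T hT => h2 T (List.mem_cons_of_mem _ hT)) B hB

theorem blk_out {n : ℕ} (l : List (Finset ℕ)) : ∀ P, (P :: l).Pairwise (· ⊂ ·) →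
    ∀ B ∈ blk n P l, ∀ i ∈ B, i.val ∉ P := by
  induction l with
  | nil =>
    intro P _ B hB i hi
    simp only [blk, List.mem_singleton] at hB
    subst hB
    exact (Finset.mem_sdiff.1 (mem_dn.1 hi)).2
  | cons S l ih =>
    intro P h1 B hB i hi
    simp only [blk, List.mem_cons] at hB
    rcases hB with hB | hB
    · subst hB
      exact (Finset.mem_sdiff.1 (mem_dn.1 hi)).2
    · have hPS : P ⊂ S := (List.pairwise_cons.1 h1).1 S (by simp)
      exact fun hP => ih S (List.pairwise_cons.1 h1).2 B hB i hi (hPS.subset hP)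

theorem blk_disj {n : ℕ} (l : List (Finset ℕ)) : ∀ P, (P :: l).Pairwise (· ⊂ ·) →
    (blk n P l).Pairwise Disjoint := by
  induction l with
  | nil =>
    intro P _
    simp only [blk]
    exact List.pairwise_singleton _ _
  | cons S l ih =>
    intro P h1
    simp only [blk]
    rw [List.pairwise_cons]
    refine ⟨?_, ih S (List.pairwise_cons.1 h1).2⟩
    intro B hB
    rw [Finset.disjoint_left]
    intro i hi hiB
    exact blk_out l S (List.pairwise_cons.1 h1).2 B hB i hiB
      (Finset.mem_sdiff.1 (mem_dn.1 hi)).1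

theorem blk_cover {n : ℕ} (l : List (Finset ℕ)) : ∀ (P : Finset ℕ) (i : Fin n), i.val ∉ P →
    ∃ B ∈ blk n P l, i ∈ B := by
  induction l with
  | nil =>
    intro P i hi
    refine ⟨dn n (range n \ P), by simp [blk], mem_dn.2 ?_⟩
    exact Finset.mem_sdiff.2 ⟨Finset.mem_range.2 i.isLt, hi⟩
  | cons S l ih =>
    intro P i hi
    by_cases hS : i.val ∈ S
    · exact ⟨dn n (S \ P), by simp [blk], mem_dn.2 (Finset.mem_sdiff.2 ⟨hS, hi⟩)⟩
    · obtain ⟨B, hB, hiB⟩ := ih S i hS
      refine ⟨B, ?_, hiB⟩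
      simp only [blk]
      exact List.mem_cons_of_mem _ hB

theorem blk_take {n : ℕ} (l : List (Finset ℕ)) : ∀ (P : Finset ℕ) (j : ℕ) (hj : j < l.length),
    (P :: l).Pairwise (· ⊂ ·) →
    ((blk n P l).take (j + 1)).foldr (· ∪ ·) ∅ = dn n (l[j] \ P) := by
  induction l with
  | nil => intro P j hj; simp at hj
  | cons S l ih =>
    intro P j hj h1
    have hPS : P ⊂ S := (List.pairwise_cons.1 h1).1 S (by simp)
    have h1' := (List.pairwise_cons.1 h1).2
    simp only [blk, List.take_succ_cons, List.foldr_cons]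
    cases j with
    | zero =>
      simp
    | succ j =>
      have hj' : j < l.length := by simpa using hj
      rw [ih S j hj' h1']
      have hS : S ⊂ l[j] := (List.pairwise_cons.1 h1').1 _ (List.getElem_mem hj')
      ext i
      rw [Finset.mem_union, mem_dn, mem_dn, mem_dn, Finset.mem_sdiff, Finset.mem_sdiff,
        Finset.mem_sdiff, List.getElem_cons_succ]
      constructor
      · rintro (⟨h3, h4⟩ | ⟨h3, h4⟩)
        · exact ⟨hS.subset h3, h4⟩
        · exact ⟨h3, fun h5 => h4 (hPS.subset h5)⟩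
      · rintro ⟨h3, h4⟩
        by_cases h5 : i.val ∈ S
        · exact Or.inl ⟨h5, h4⟩
        · exact Or.inr ⟨h3, h5⟩

/-- a chain as an increasing list -/
theorem exists_list (F : Face) : (∀ S ∈ F, ∀ T ∈ F, S ⊆ T ∨ T ⊆ S) →
    ∃ l : List (Finset ℕ), l.toFinset = F ∧ l.Pairwise (· ⊂ ·) := by
  refine Finset.induction_on_min_value (f := Finset.card) F ?_ ?_
  · intro _
    exact ⟨[], rfl, List.Pairwise.nil⟩
  · intro S F hS hmin ih hch
    obtain ⟨l, hl1, hl2⟩ := ih (fun A hA B hB =>
      hch A (Finset.mem_insert_of_mem hA) B (Finset.mem_insert_of_mem hB))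
    refine ⟨S :: l, ?_, ?_⟩
    · rw [List.toFinset_cons, hl1]
    · rw [List.pairwise_cons]
      refine ⟨?_, hl2⟩
      intro T hT
      have hTF : T ∈ F := by
        rw [← hl1, List.mem_toFinset]
        exact hT
      have hne : S ≠ T := by
        rintro rfl
        exact hS hTF
      rcases hch S (Finset.mem_insert_self _ _) T (Finset.mem_insert_of_mem hTF) with h | h
      · exact (Finset.ssubset_iff_subset_ne).2 ⟨h, hne⟩
      · exact absurd (Finset.eq_of_subset_of_card_le h (hmin T hTF)).symm hne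

end OspBAux

/-- every chain is the chain of an ordered set partition (its blocks are the differences of
consecutive sets); induction on the number of sets, remove the largest set `S`: the ordered set
partition of the rest has `range n \ S'` (`S'` the next set or `∅`) as last block, which is split into
`S \ S'` and `range n \ S` -/
theorem exists_osp {n : ℕ} (hn : 0 < n) {F : Face} (h : IsCh n F) : ∃ A : OSP n, A.chain = F := by
  obtain ⟨l, hl1, hl2⟩ := OspBAux.exists_list F h.2
  have hmem : ∀ S, S ∈ l ↔ S ∈ F := by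
    intro S
    rw [← hl1, List.mem_toFinset]
  have h1 : ((∅ : Finset ℕ) :: l).Pairwise (· ⊂ ·) := by
    rw [List.pairwise_cons]
    refine ⟨?_, hl2⟩
    intro S hS
    exact Finset.empty_ssubset.2 (h.1 S ((hmem S).1 hS)).1
  have h2 : ∀ S ∈ (∅ : Finset ℕ) :: l, S ⊂ range n := by
    intro S hS
    rcases List.mem_cons.1 hS with hS | hS
    · subst hS
      exact Finset.empty_ssubset.2 ⟨0, Finset.mem_range.2 hn⟩
    · exact (h.1 S ((hmem S).1 hS)).2
  refine ⟨⟨OspBAux.blk n ∅ l, OspBAux.blk_ne l ∅ h1 h2, OspBAux.blk_disj l ∅ h1,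
    fun i => OspBAux.blk_cover l ∅ i (by simp)⟩, ?_⟩
  ext S
  unfold OSP.chain
  simp only [OspBAux.blk_length, List.mem_toFinset, List.range_succ_eq_map, List.tail_cons,
    List.map_map, List.mem_map, List.mem_range, Function.comp]
  rw [← hmem]
  constructor
  · rintro ⟨j, hj, hjS⟩
    rw [Nat.succ_eq_add_one, OspBAux.blk_take l ∅ j hj h1, Finset.sdiff_empty,
      OspBAux.image_dn (h2 _ (List.mem_cons_of_mem _ (List.getElem_mem hj))).subset] at hjS
    rw [← hjS]
    exact List.getElem_mem hj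
  · intro hS
    obtain ⟨j, hj, hjS⟩ := List.mem_iff_getElem.1 hS
    refine ⟨j, hj, ?_⟩
    rw [Nat.succ_eq_add_one, OspBAux.blk_take l ∅ j hj h1, Finset.sdiff_empty,
      OspBAux.image_dn (h2 _ (List.mem_cons_of_mem _ (List.getElem_mem hj))).subset]
    exact hjS

end Pool.Agent.RS
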