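import Pool.Agent.RS.PhaseF
import Pool.Agent.RS.Inv

/-!
# RS module ParityA: counting faces mod 2
-/

set_option autoImplicit false

namespace Pool.Agent.RS

open Finset

section

variable {Pi : Finset ℕ} {X Y X' : Fl} {a k z : ℕ} {A : Finset ℕ}

/-- along a walk: word steps introduce faces with `X.s.length` sets, order steps smaller ones -/
theorem walk_parity (g : Good Pi X) {L : List Face} (h : Walk Pi X Y L) :
    (inv X.w + inv Y.w + L.countP (fun F => decide (F.card = X.s.length))) % 2 = 0 ∧
      (inv X.s + inv Y.s + L.countP (fun F => decide (F.card < X.s.length))) % 2 = 0 := by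
  induction h with
  | nil X =>
    simp only [List.countP_nil]
    omega
  | @cons X Y Z F L hstep _ ih =>
    have hsame := hstep.same g
    have gY : Good Pi Y := hsame.good g
    have hlen : Y.s.length = X.s.length := hsame.s.length_eq
    obtain ⟨ih1, ih2⟩ := ih gY
    rw [hlen] at ih1 ih2
    rw [List.countP_cons, List.countP_cons]
    cases hstep with
    | word u v s x y h =>
      have hxy : x ≠ y := by
        have h1 := g.wn
        simp only [List.nodup_append, List.nodup_cons, List.mem_cons, not_or] at h1
        exact h1.2.1.1.1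
      have h1 := inv_swap (t := u) (s := v) hxy
      have h2 : (fc (u ++ y :: x :: v) ((u.length + 1) :: s)).card = s.length + 1 :=
        fc_card gY.wn gY.sn (fun b hb => (gY.lt b hb).le)
      simp only [List.length_cons] at ih1 ih2 ⊢
      rw [h2]
      simp only [decide_true, if_true, lt_irrefl, decide_false, Bool.false_eq_true, if_false]
      constructor <;> omega
    | order w t s a b =>
      have hab : a ≠ b := by
        have h1 := g.sn
        simp only [List.nodup_append, List.nodup_cons, List.mem_cons, not_or] at h1
        exact h1.2.1.1.1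
      have h1 := inv_swap (t := t) (s := s) hab
      have hsn : (a :: s).Nodup := by
        have h3 := gY.sn
        simp only [List.nodup_append, List.nodup_cons] at h3
        exact List.nodup_cons.2 h3.2.1.2
      have h2 : (fc w (a :: s)).card = s.length + 1 :=
        fc_card gY.wn hsn (fun c hc => (gY.lt c (by
          simp only [List.mem_append, List.mem_cons] at hc ⊢
          tauto)).le)
      simp only [List.length_append, List.length_cons] at ih1 ih2 ⊢
      rw [h2]
      have h3 : decide (s.length + 1 = t.length + (s.length + 1 + 1)) = false := by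
        simp only [decide_eq_false_iff_not]; omega
      have h4 : decide (s.length + 1 < t.length + (s.length + 1 + 1)) = true := by
        simp only [decide_eq_true_eq]; omega
      rw [h3, h4]
      simp only [if_true, Bool.false_eq_true, if_false]
      constructor <;> omega

/-- the number of all faces is `p` mod 2 -/
def Npar (Pi : Finset ℕ) (X : Fl) (p : ℕ) : Prop :=
  ∀ L : List Face, L.Nodup → (∀ F, F ∈ L ↔ AF Pi X F) → L.length % 2 = p

/-- the number of all faces with `X.s.length` sets is `q` mod 2 -/
def Fpar (Pi : Finset ℕ) (X : Fl) (q : ℕ) : Prop :=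
  ∀ L : List Face, L.Nodup → (∀ F, F ∈ L ↔ AF Pi X F) →
    L.countP (fun F => decide (F.card = X.s.length)) % 2 = q

namespace ParityAAux

/-- chains of allowed sets, the empty chain included -/
def AF0 (Pi : Finset ℕ) (X : Fl) (F : Face) : Prop :=
  (∀ S ∈ F, OKS Pi X S) ∧ ∀ S ∈ F, ∀ T ∈ F, S ⊆ T ∨ T ⊆ S

theorem AF0_subset {F F' : Face} (h : F' ⊆ F) (hF : AF0 Pi X F) : AF0 Pi X F' :=
  ⟨fun S hS => hF.1 S (h hS), fun S hS T hT => hF.2 S (h hS) T (h hT)⟩

theorem AF0_insert (g : Good Pi X) {β : ℕ} (h1 : β ∈ X.s) (h2 : β ∉ Pi) {F : Face}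
    (hF : AF0 Pi X F) : AF0 Pi X (insert (pre X.w β) F) := by
  refine ⟨fun S hS => ?_, fun S hS T hT => ?_⟩
  · rcases mem_insert.1 hS with h | h
    · rw [h]; exact OKS_pre g h1
    · exact hF.1 S h
  · rcases mem_insert.1 hS with h | h
    · rcases mem_insert.1 hT with h' | h'
      · rw [h, h']; exact Or.inl subset_rfl
      · rw [h]; exact ((hF.1 T h').2.2 β h2).symm
    · rcases mem_insert.1 hT with h' | h'
      · rw [h']; exact (hF.1 S h).2.2 β h2
      · exact hF.2 S h T h'

/-- adding or removing a set -/
def tog (S : Finset ℕ) (F : Face) : Face := if S ∈ F then F.erase S else insert S F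

theorem tog_tog (S : Finset ℕ) (F : Face) : tog S (tog S F) = F := by
  unfold tog
  by_cases h : S ∈ F
  · rw [if_pos h, if_neg (notMem_erase S F), insert_erase h]
  · rw [if_neg h, if_pos (mem_insert_self S F), erase_insert h]

theorem tog_ne (S : Finset ℕ) (F : Face) : tog S F ≠ F := by
  unfold tog
  by_cases h : S ∈ F
  · rw [if_pos h]
    intro h1
    rw [← h1] at h
    exact notMem_erase S F h
  · rw [if_neg h]
    intro h1
    exact h (h1 ▸ mem_insert_self S F)

end ParityAAux

/-- with an ε-bar `β`: adding or removing the set `pre X.w β` is an involution without fixed points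
on the faces and the empty chain -/
theorem Npar_eps (g : Good Pi X) (h : ∃ β ∈ X.s, β ∉ Pi) : Npar Pi X 1 := by
  obtain ⟨β, h1, h2⟩ := h
  intro L hL hmem
  have hmem' : ∀ F, F ∈ insert (∅ : Face) L.toFinset ↔ ParityAAux.AF0 Pi X F := by
    intro F
    rw [mem_insert, List.mem_toFinset, hmem]
    constructor
    · rintro (h | h)
      · rw [h]
        exact ⟨fun S hS => absurd hS (notMem_empty S), fun S hS => absurd hS (notMem_empty S)⟩
      · exact ⟨h.2.1, h.2.2⟩
    · intro h
      rcases F.eq_empty_or_nonempty with h3 | h3
      · exact Or.inl h3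
      · exact Or.inr ⟨h3, h.1, h.2⟩
  have hcard : (insert (∅ : Face) L.toFinset).card = L.length + 1 := by
    rw [card_insert_of_notMem, List.toFinset_card_of_nodup hL]
    rw [List.mem_toFinset, hmem]
    intro h
    exact not_nonempty_empty h.1
  have hsum : ∑ _F ∈ insert (∅ : Face) L.toFinset, (1 : ZMod 2) = 0 := by
    refine sum_involution (fun F _ => ParityAAux.tog (pre X.w β) F) ?_ ?_ ?_ ?_
    · intro F _
      decide
    · intro F _ _
      exact ParityAAux.tog_ne _ _
    · intro F hF
      rw [hmem'] at hF ⊢
      unfold ParityAAux.tog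
      split_ifs
      · exact ParityAAux.AF0_subset (erase_subset _ _) hF
      · exact ParityAAux.AF0_insert g h1 h2 hF
    · intro F _
      exact ParityAAux.tog_tog _ _
  rw [sum_const, hcard, nsmul_eq_mul, mul_one, ZMod.natCast_eq_zero_iff] at hsum
  omega

/-- `Pi = ∅`: the only face with `X.s.length` sets is the chain of all sets -/
theorem Fpar_empty (g : Good ∅ X) (h : X.s ≠ []) : Fpar ∅ X 1 := by
  intro L hL hmem
  have hF0 : fc X.w X.s ∈ L := by
    rw [hmem]
    exact faces_AF g (mem_faces.2 ⟨X.s, h, List.suffix_rfl, rfl⟩)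
  have hc0 : (fc X.w X.s).card = X.s.length := fc_card g.wn g.sn (fun b hb => (g.lt b hb).le)
  have huniq : ∀ F ∈ L, F.card = X.s.length → F = fc X.w X.s := by
    intro F hF hc
    rw [hmem] at hF
    have hsub : F ⊆ fc X.w X.s := by
      intro S hS
      obtain ⟨k1, k2, k3⟩ := hF.2.1 S hS
      have hpc : (pre X.w S.card).card = S.card := pre_card g.wn (g.lt _ k1).le
      have hSe : S = pre X.w S.card := by
        rcases k3 S.card (notMem_empty _) with h4 | h4
        · exact eq_of_subset_of_card_le h4 hpc.le
        · exact (eq_of_subset_of_card_le h4 hpc.ge).symm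
      unfold fc
      rw [List.mem_toFinset, List.mem_map]
      exact ⟨S.card, k1, hSe.symm⟩
    exact eq_of_subset_of_card_le hsub (by rw [hc0, hc])
  have h1 : L.countP (fun F => decide (F.card = X.s.length)) = L.count (fc X.w X.s) := by
    rw [List.count_eq_countP]
    refine List.countP_congr fun F hF => ?_
    rw [decide_eq_true_eq, beq_iff_eq]
    exact ⟨huniq F hF, fun h2 => by rw [h2, hc0]⟩
  rw [h1, List.count_eq_one_of_mem hL hF0]

end

end Pool.Agent.RS
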