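import Pool.Agent.RS.ParityA

/-!
# RS module ParityC: configurations without ε-bars
-/

set_option autoImplicit false

namespace Pool.Agent.RS

open Finset

section

variable {Pi : Finset ℕ} {X Y X' : Fl} {a k z : ℕ} {A : Finset ℕ}

/-- the complement of `S` between the base `B` and the full set `C` -/
private def cpl (B C S : Finset ℕ) : Finset ℕ := B ∪ (C \ S)

private theorem cpl_cpl {B C S : Finset ℕ} (h1 : B ⊆ S) (h2 : S ⊆ C) :
    cpl B C (cpl B C S) = S := by
  ext x
  have e1 := @h1 x
  have e2 := @h2 x
  simp only [cpl, mem_union, mem_sdiff]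
  tauto

private theorem cpl_card {B C S : Finset ℕ} (h1 : B ⊆ S) (h2 : S ⊆ C) :
    (cpl B C S).card + S.card = B.card + C.card := by
  unfold cpl
  rw [card_union_of_disjoint (disjoint_left.2 fun x hx hx' => (mem_sdiff.1 hx').2 (h1 hx))]
  have := card_sdiff_add_card_eq_card h2
  omega

/-- one component, no other bars: the number of all faces is even. The involution without fixed
points replaces every set `S` of a chain by its complement `pre X.w a ∪ (pre X.w (a + k) \ S)`. -/
theorem Npar_full (g : Good Pi X) (c : IsComp Pi X a k) (h : ∀ b ∈ X.s, a < b ∧ b < a + k) :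
    Npar Pi X 0 := by
  intro L hL hmem
  obtain ⟨B, hB⟩ : ∃ B, B = pre X.w a := ⟨_, rfl⟩
  obtain ⟨C, hC⟩ : ∃ C, C = pre X.w (a + k) := ⟨_, rfl⟩
  have hBc : B.card = a := by
    rw [hB]
    exact pre_card g.wn (by have := c.le; omega)
  have hCc : C.card = a + k := by
    rw [hC]
    exact pre_card g.wn c.le
  have hsub : ∀ S, OKS Pi X S → B ⊆ S ∧ S ⊆ C ∧ a < S.card ∧ S.card < a + k := by
    intro S hS
    obtain ⟨h1, h2, h3⟩ := hS
    obtain ⟨h4, h5⟩ := h _ h1
    refine ⟨?_, ?_, h4, h5⟩
    · rcases h3 a c.left with h6 | h6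
      · rw [← hB] at h6
        have := card_le_card h6
        omega
      · rw [hB]
        exact h6
    · rcases h3 (a + k) c.right with h6 | h6
      · rw [hC]
        exact h6
      · rw [← hC] at h6
        have := card_le_card h6
        omega
  have hcpl : ∀ S, OKS Pi X S → OKS Pi X (cpl B C S) := by
    intro S hS
    obtain ⟨h1, h2, h3, h4⟩ := hsub S hS
    have h5 := cpl_card h1 h2
    refine ⟨g.sub _ (c.mem _ (by omega) (by omega)), ?_, ?_⟩
    · intro x hx
      have hx2 : x ∈ C := by
        rcases mem_union.1 hx with h6 | h6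
        · exact h2 (h1 h6)
        · exact (mem_sdiff.1 h6).1
      rw [hC] at hx2
      exact List.mem_toFinset.2 (List.mem_of_mem_take (List.mem_toFinset.1 hx2))
    · intro b hb
      rcases Nat.lt_or_ge a b with h6 | h6
      · left
        have h7 : a + k ≤ b := by
          by_contra hcon
          exact hb (c.mem b h6 (by omega))
        intro x hx
        have hx2 : x ∈ C := by
          rcases mem_union.1 hx with h6 | h6
          · exact h2 (h1 h6)
          · exact (mem_sdiff.1 h6).1
        rw [hC] at hx2
        exact pre_mono h7 hx2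
      · right
        intro x hx
        refine mem_union_left _ ?_
        rw [hB]
        exact pre_mono h6 hx
  have hinv : ∀ F, AF Pi X F → (F.image (cpl B C)).image (cpl B C) = F := by
    intro F hF
    rw [image_image]
    conv_rhs => rw [← image_id (s := F)]
    refine image_congr fun S hS => ?_
    obtain ⟨h1, h2, -, -⟩ := hsub S (hF.2.1 S hS)
    exact cpl_cpl h1 h2
  have hAF : ∀ F, AF Pi X F → AF Pi X (F.image (cpl B C)) := by
    intro F hF
    refine ⟨hF.1.image _, ?_, ?_⟩
    · intro S hS
      obtain ⟨T, hT, rfl⟩ := mem_image.1 hS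
      exact hcpl T (hF.2.1 T hT)
    · intro S hS T hT
      obtain ⟨S', hS', rfl⟩ := mem_image.1 hS
      obtain ⟨T', hT', rfl⟩ := mem_image.1 hT
      rcases hF.2.2 S' hS' T' hT' with h1 | h1
      · right
        exact union_subset_union_right (sdiff_subset_sdiff (Subset.refl _) h1)
      · left
        exact union_subset_union_right (sdiff_subset_sdiff (Subset.refl _) h1)
  have hne : ∀ F, AF Pi X F → F.image (cpl B C) ≠ F := by
    intro F hF he
    obtain ⟨S, hS⟩ := hF.1
    have hS' : cpl B C S ∈ F := by
      rw [← he]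
      exact mem_image_of_mem _ hS
    obtain ⟨h1, h2, h3, h4⟩ := hsub S (hF.2.1 S hS)
    rcases hF.2.2 S hS _ hS' with h5 | h5
    · obtain ⟨x, hx, hxB⟩ : ∃ x ∈ S, x ∉ B := by
        by_contra hcon
        push Not at hcon
        have := card_le_card (show S ⊆ B from hcon)
        omega
      rcases mem_union.1 (h5 hx) with h6 | h6
      · exact hxB h6
      · exact (mem_sdiff.1 h6).2 hx
    · obtain ⟨x, hx, hxS⟩ : ∃ x ∈ C, x ∉ S := by
        by_contra hcon
        push Not at hcon
        have := card_le_card (show C ⊆ S from hcon)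
        omega
      exact hxS (h5 (mem_union_right _ (mem_sdiff.2 ⟨hx, hxS⟩)))
  have hsum : ∑ _F ∈ L.toFinset, (1 : ZMod 2) = 0 := by
    refine sum_involution (fun F _ => F.image (cpl B C)) (fun F _ => by decide)
      (fun F hF _ => hne F ((hmem F).1 (List.mem_toFinset.1 hF)))
      (fun F hF => List.mem_toFinset.2 ((hmem _).2 (hAF F ((hmem F).1 (List.mem_toFinset.1 hF)))))
      (fun F hF => hinv F ((hmem F).1 (List.mem_toFinset.1 hF)))
  rw [sum_const, nsmul_eq_mul, mul_one, List.toFinset_card_of_nodup hL] at hsum
  have := (ZMod.natCast_eq_zero_iff _ _).1 hsum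
  omega

end

end Pool.Agent.RS
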