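import Pool.Agent.RS.Defs

/-!
# RS module Path: Hamiltonian paths of the cube with a prescribed last flip

Paths `∅ → … → {x}` through all subsets of `S` such that the letter added last is never removed
before another letter is added (except when it is the only letter).

Recursion for `W(S, x, c)` (end `{x}`, last flip `-c`, `x ≠ c`, `2 ≤ |S|`):
* `|S| = 2`: `+c, +x, -c`. (`LamOK`: the last letter added before `-c` is `x ≠ c`.)
* `|S| ≥ 3`, `e ∉ {x, c}`: `+e`, then `W(S \ e, f, g)` for some `f, g` (with `e` always present: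
  sets `{e} ∪ B`, `B` runs from `∅` to `{f}` through all subsets of `S \ e`; for `|S| - 1 = 1` this
  is just `+f`), then `-e` (set `{f}`; `λ ≠ e` since some letter was added after `e`), and then the
  path `W(S \ e, x, c)` would visit the sets of `S \ e` from `∅`, the set `∅` is already visited:
  take instead a path from `{f}` to `{x}` through all NONEMPTY subsets of `S \ e`, namely the tail of
  `W(S \ e, x, c)`, which starts with `+f'`: so choose `f` = first letter added by `W(S \ e, x, c)`.
  `LamOK` for the tail: after the first flip `+f` of `W(S \ e, x, c)` the state is `A = {f}`,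
  `λ = f`; here it is `A = {f}` with `λ` = last letter added in the part `+e W(S \ e, f, g) -e`. In
  both cases the condition for a removal needs `2 ≤ |A|`, so there is an addition in between and the
  conditions are the same.
-/

set_option autoImplicit false

namespace Pool.Agent.RS

open Finset

theorem setsOf_length {A : Finset ℕ} {fs : List Flip} : (setsOf A fs).length = fs.length := by
  induction fs generalizing A with
  | nil => rfl
  | cons f fs ih =>
    show (setsOf (flip A f) fs).length + 1 = fs.length + 1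
    rw [ih]

theorem endOf_append {A : Finset ℕ} {fs gs : List Flip} :
    endOf A (fs ++ gs) = endOf (endOf A fs) gs := by
  induction fs generalizing A with
  | nil => rfl
  | cons f fs ih =>
    show endOf (flip A f) (fs ++ gs) = endOf (endOf (flip A f) fs) gs
    exact ih

theorem setsOf_append {A : Finset ℕ} {fs gs : List Flip} :
    setsOf A (fs ++ gs) = setsOf A fs ++ setsOf (endOf A fs) gs := by
  induction fs generalizing A with
  | nil => rfl
  | cons f fs ih =>
    show flip A f :: setsOf (flip A f) (fs ++ gs) =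
      flip A f :: (setsOf (flip A f) fs ++ setsOf (endOf (flip A f) fs) gs)
    rw [ih]

theorem stepsOK_append {S A : Finset ℕ} {fs gs : List Flip} :
    StepsOK S A (fs ++ gs) ↔ StepsOK S A fs ∧ StepsOK S (endOf A fs) gs := by
  induction fs generalizing A with
  | nil => simp [StepsOK, endOf]
  | cons f fs ih =>
    obtain ⟨b, y⟩ := f
    cases b with
    | true =>
      show (y ∈ S ∧ y ∉ A ∧ StepsOK S (insert y A) (fs ++ gs)) ↔
        (y ∈ S ∧ y ∉ A ∧ StepsOK S (insert y A) fs) ∧ StepsOK S (endOf (insert y A) fs) gs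
      rw [ih]
      tauto
    | false =>
      show (y ∈ A ∧ StepsOK S (A.erase y) (fs ++ gs)) ↔
        (y ∈ A ∧ StepsOK S (A.erase y) fs) ∧ StepsOK S (endOf (A.erase y) fs) gs
      rw [ih]
      tauto

theorem lamOK_append {A : Finset ℕ} {lam : Option ℕ} {fs gs : List Flip} :
    LamOK A lam (fs ++ gs) ↔ LamOK A lam fs ∧ LamOK (endOf A fs) (lamEnd lam fs) gs := by
  induction fs generalizing A lam with
  | nil => simp [LamOK, endOf, lamEnd]
  | cons f fs ih =>
    obtain ⟨b, y⟩ := f
    cases b with
    | true =>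
      show LamOK (insert y A) (some y) (fs ++ gs) ↔
        LamOK (insert y A) (some y) fs ∧ LamOK (endOf (insert y A) fs) (lamEnd (some y) fs) gs
      rw [ih]
    | false =>
      show ((2 ≤ A.card → lam ≠ some y) ∧ LamOK (A.erase y) lam (fs ++ gs)) ↔
        ((2 ≤ A.card → lam ≠ some y) ∧ LamOK (A.erase y) lam fs) ∧
          LamOK (endOf (A.erase y) fs) (lamEnd lam fs) gs
      rw [ih]
      tauto

/-- all sets are subsets of `S` -/
theorem setsOf_subset {S A : Finset ℕ} {fs : List Flip} (hA : A ⊆ S) (h : StepsOK S A fs) :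
    ∀ B ∈ A :: setsOf A fs, B ⊆ S := by
  induction fs generalizing A with
  | nil =>
    intro B hB
    simp only [setsOf, List.mem_singleton] at hB
    rw [hB]
    exact hA
  | cons f fs ih =>
    intro B hB
    rcases List.mem_cons.1 hB with hB | hB
    · rw [hB]
      exact hA
    · obtain ⟨b, y⟩ := f
      cases b with
      | true => exact ih (insert_subset h.1 hA) h.2.2 B hB
      | false => exact ih ((erase_subset _ _).trans hA) h.2 B hB

namespace PathAux

/-- Hamiltonian path of the cube on `S` from `∅` to `{x}` -/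
def HP (S : Finset ℕ) (fs : List Flip) (x : ℕ) : Prop :=
  StepsOK S ∅ fs ∧ (∅ :: setsOf ∅ fs).Nodup ∧ (∀ B, B ⊆ S → B ∈ ∅ :: setsOf ∅ fs) ∧
    endOf ∅ fs = {x} ∧ LamOK ∅ none fs

theorem shift_steps {T : Finset ℕ} {e : ℕ} (he : e ∉ T) {fs : List Flip} :
    ∀ {A : Finset ℕ}, A ⊆ T → StepsOK T A fs → StepsOK (insert e T) (insert e A) fs ∧
      setsOf (insert e A) fs = (setsOf A fs).map (insert e) ∧
      endOf (insert e A) fs = insert e (endOf A fs) := by
  induction fs with
  | nil => exact fun _ _ => ⟨trivial, rfl, rfl⟩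
  | cons f fs ih =>
    intro A hA h
    obtain ⟨b, y⟩ := f
    cases b with
    | true =>
      obtain ⟨h1, h2, h3⟩ := h
      have hye : y ≠ e := fun h => he (h ▸ h1)
      obtain ⟨g1, g2, g3⟩ := ih (insert_subset h1 hA) h3
      have hc : insert y (insert e A) = insert e (insert y A) := Finset.insert_comm _ _ _
      refine ⟨⟨mem_insert_of_mem h1, ?_, ?_⟩, ?_, ?_⟩
      · rw [mem_insert]
        tauto
      · rw [hc]
        exact g1
      · show insert y (insert e A) :: setsOf (insert y (insert e A)) fs =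
          insert e (insert y A) :: (setsOf (insert y A) fs).map (insert e)
        rw [hc, g2]
      · show endOf (insert y (insert e A)) fs = insert e (endOf (insert y A) fs)
        rw [hc, g3]
    | false =>
      obtain ⟨h1, h3⟩ := h
      have hye : y ≠ e := fun h => he (h ▸ hA h1)
      obtain ⟨g1, g2, g3⟩ := ih ((erase_subset y A).trans hA) h3
      have hc : (insert e A).erase y = insert e (A.erase y) :=
        Finset.erase_insert_of_ne (Ne.symm hye)
      refine ⟨⟨mem_insert_of_mem h1, ?_⟩, ?_, ?_⟩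
      · rw [hc]
        exact g1
      · show (insert e A).erase y :: setsOf ((insert e A).erase y) fs =
          insert e (A.erase y) :: (setsOf (A.erase y) fs).map (insert e)
        rw [hc, g2]
      · show endOf ((insert e A).erase y) fs = insert e (endOf (A.erase y) fs)
        rw [hc, g3]

theorem shift_lam {T : Finset ℕ} {e : ℕ} (he : e ∉ T) {fs : List Flip} :
    ∀ {A : Finset ℕ} {lam lam' : Option ℕ}, A ⊆ T → StepsOK T A fs → ∅ ∉ setsOf A fs →
      (lam' = lam ∨ lam' = some e) → LamOK A lam fs → LamOK (insert e A) lam' fs := by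
  induction fs with
  | nil => exact fun _ _ _ _ _ => trivial
  | cons f fs ih =>
    intro A lam lam' hA h h0 hl hL
    obtain ⟨b, y⟩ := f
    cases b with
    | true =>
      obtain ⟨h1, h2, h3⟩ := h
      show LamOK (insert y (insert e A)) (some y) fs
      rw [Finset.insert_comm]
      exact ih (insert_subset h1 hA) h3 (fun h => h0 (List.mem_cons_of_mem _ h)) (Or.inl rfl) hL
    | false =>
      obtain ⟨h1, h3⟩ := h
      have hye : y ≠ e := fun h => he (h ▸ hA h1)
      have hc : (insert e A).erase y = insert e (A.erase y) :=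
        Finset.erase_insert_of_ne (Ne.symm hye)
      refine ⟨fun _ => ?_, ?_⟩
      · rcases hl with hl | hl
        · rw [hl]
          refine hL.1 ?_
          by_contra hcon
          have hpos : 0 < A.card := Finset.card_pos.2 ⟨y, h1⟩
          have hA1 : A.card = 1 := by omega
          have hAe : A.erase y = ∅ := by
            rw [← Finset.card_eq_zero, Finset.card_erase_of_mem h1]
            omega
          refine h0 ?_
          show ∅ ∈ A.erase y :: setsOf (A.erase y) fs
          rw [hAe]
          exact List.mem_cons_self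
        · rw [hl]
          intro h
          exact hye (Option.some.inj h).symm
      · rw [hc]
        exact ih ((erase_subset y A).trans hA) h3 (fun h => h0 (List.mem_cons_of_mem _ h)) hl hL.2

theorem lamEnd_ne {T : Finset ℕ} {e : ℕ} (he : e ∉ T) {fs : List Flip} :
    ∀ {A : Finset ℕ} {lam : Option ℕ}, StepsOK T A fs → lam ≠ some e → lamEnd lam fs ≠ some e := by
  induction fs with
  | nil => exact fun _ h => h
  | cons f fs ih =>
    intro A lam h hl
    obtain ⟨b, y⟩ := f
    cases b with
    | true =>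
      refine ih h.2.2 fun h' => he ?_
      rw [← Option.some.inj h']
      exact h.1
    | false => exact ih h.2 hl

/-- the condition does not depend on `lam` if the path starts in a one-element set and does not visit
the empty set -/
theorem lam_indep {S : Finset ℕ} {f : ℕ} {fs : List Flip} {lam lam' : Option ℕ}
    (h : StepsOK S {f} fs) (h0 : ∅ ∉ setsOf {f} fs) (hL : LamOK {f} lam fs) :
    LamOK {f} lam' fs := by
  cases fs with
  | nil => trivial
  | cons g fs =>
    obtain ⟨b, y⟩ := g
    cases b with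
    | true => exact hL
    | false =>
      exfalso
      have h1 : y = f := mem_singleton.1 h.1
      refine h0 ?_
      show ∅ ∈ ({f} : Finset ℕ).erase y :: setsOf (({f} : Finset ℕ).erase y) fs
      rw [h1, Finset.erase_singleton]
      exact List.mem_cons_self

/-- **Composition.** -/
theorem compose {T : Finset ℕ} {e f x c : ℕ} (he : e ∉ T) {P Q : List Flip} (hP : HP T P f)
    (hQ : HP T ((true, f) :: Q) x) (hc : ((true, f) :: Q).getLast? = some (false, c)) :
    HP (insert e T) ((true, e) :: (P ++ (false, e) :: Q)) x ∧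
      ((true, e) :: (P ++ (false, e) :: Q)).getLast? = some (false, c) := by
  obtain ⟨p1, p2, p3, p4, p5⟩ := hP
  obtain ⟨q1, q2, q3, q4, q5⟩ := hQ
  obtain ⟨s1, s2, s3⟩ := shift_steps he (empty_subset T) p1
  have hQ0 : Q ≠ [] := by
    rintro rfl
    simp at hc
  have hf : f ∈ T := q1.1
  have hfe : f ≠ e := fun h => he (h ▸ hf)
  have hsets : setsOf ∅ ((true, e) :: (P ++ (false, e) :: Q)) =
      (∅ :: setsOf ∅ P).map (insert e) ++ setsOf ∅ ((true, f) :: Q) := by
    show insert e ∅ :: setsOf (insert e ∅) (P ++ (false, e) :: Q) = _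
    rw [setsOf_append, s2, s3, p4]
    show _ :: (_ ++ (insert e {f} : Finset ℕ).erase e ::
      setsOf ((insert e {f} : Finset ℕ).erase e) Q) = _
    have h1 : (insert e {f} : Finset ℕ).erase e = insert f ∅ := by
      rw [Finset.erase_insert]
      · rfl
      · rw [mem_singleton]
        exact Ne.symm hfe
    rw [h1]
    rfl
  have hM : ∀ B ∈ setsOf ∅ ((true, f) :: Q), B ⊆ T := fun B hB =>
    setsOf_subset (empty_subset T) q1 B (List.mem_cons_of_mem _ hB)
  have hL : ∀ B ∈ ∅ :: setsOf ∅ P, B ⊆ T := setsOf_subset (empty_subset T) p1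
  have h0Q : ∅ ∉ setsOf ∅ ((true, f) :: Q) := (List.nodup_cons.1 q2).1
  have h0P : ∅ ∉ setsOf ∅ P := (List.nodup_cons.1 p2).1
  have hP0 : ∃ f₀ P', P = (true, f₀) :: P' := by
    cases P with
    | nil =>
      exfalso
      have : (∅ : Finset ℕ) = {f} := p4
      exact absurd this.symm (Finset.singleton_ne_empty f)
    | cons g P' =>
      obtain ⟨b, y⟩ := g
      cases b with
      | true => exact ⟨y, P', rfl⟩
      | false => exact absurd p1.1 (Finset.notMem_empty y)
  refine ⟨⟨?_, ?_, ?_, ?_, ?_⟩, ?_⟩
  · -- steps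
    refine ⟨mem_insert_self _ _, Finset.notMem_empty e, ?_⟩
    rw [stepsOK_append]
    refine ⟨s1, ?_⟩
    rw [s3, p4]
    refine ⟨mem_insert_self _ _, ?_⟩
    have h1 : (insert e {f} : Finset ℕ).erase e = {f} := by
      rw [Finset.erase_insert]
      rw [mem_singleton]
      exact Ne.symm hfe
    rw [h1]
    have h2 : StepsOK T {f} Q := q1.2.2
    have key : ∀ (fs : List Flip) (A : Finset ℕ), StepsOK T A fs →
        StepsOK (insert e T) A fs := by
      intro fs
      induction fs with
      | nil => exact fun _ _ => trivial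
      | cons g fs ih =>
        intro A h
        obtain ⟨b, y⟩ := g
        cases b with
        | true => exact ⟨mem_insert_of_mem h.1, h.2.1, ih _ h.2.2⟩
        | false => exact ⟨h.1, ih _ h.2⟩
    exact key _ _ h2
  · -- nodup
    rw [hsets, List.nodup_cons, List.nodup_append]
    refine ⟨?_, ?_, (List.nodup_cons.1 q2).2, ?_⟩
    · rw [List.mem_append]
      rintro (h | h)
      · obtain ⟨B, -, hB⟩ := List.mem_map.1 h
        exact absurd hB (Finset.insert_ne_empty e B)
      · exact h0Q h
    · refine List.Nodup.map_on ?_ p2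
      intro B hB B' hB' hBB
      have h1 : e ∉ B := fun h => he (hL B hB h)
      have h2 : e ∉ B' := fun h => he (hL B' hB' h)
      rw [← Finset.erase_insert h1, ← Finset.erase_insert h2, hBB]
    · intro B hB B' hB' hBB
      obtain ⟨B₀, -, hB₀⟩ := List.mem_map.1 hB
      refine he (hM B' hB' ?_)
      rw [← hBB, ← hB₀]
      exact mem_insert_self _ _
  · -- covering
    intro B hB
    rw [hsets, List.mem_cons, List.mem_append]
    by_cases heB : e ∈ B
    · right
      left
      refine List.mem_map.2 ⟨B.erase e, p3 _ ?_, Finset.insert_erase heB⟩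
      intro v hv
      rw [mem_erase] at hv
      rcases mem_insert.1 (hB hv.2) with h | h
      · exact absurd h hv.1
      · exact h
    · have h1 : B ⊆ T := by
        intro v hv
        rcases mem_insert.1 (hB hv) with h | h
        · exact absurd (h ▸ hv) heB
        · exact h
      rcases List.mem_cons.1 (q3 B h1) with h | h
      · exact Or.inl h
      · exact Or.inr (Or.inr h)
  · -- end
    show endOf (insert e ∅) (P ++ (false, e) :: Q) = {x}
    rw [endOf_append, s3, p4]
    show endOf ((insert e {f} : Finset ℕ).erase e) Q = {x}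
    have h1 : (insert e {f} : Finset ℕ).erase e = insert f ∅ := by
      rw [Finset.erase_insert]
      · rfl
      · rw [mem_singleton]
        exact Ne.symm hfe
    rw [h1]
    exact q4
  · -- last added letters
    show LamOK (insert e ∅) (some e) (P ++ (false, e) :: Q)
    rw [lamOK_append]
    refine ⟨shift_lam he (empty_subset T) p1 h0P (Or.inr rfl) p5, ?_⟩
    rw [s3, p4]
    obtain ⟨f₀, P', rfl⟩ := hP0
    refine ⟨fun _ => ?_, ?_⟩
    · show lamEnd (some f₀) P' ≠ some e
      refine lamEnd_ne he p1.2.2 fun h => he ?_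
      rw [← Option.some.inj h]
      exact p1.1
    · have h1 : (insert e {f} : Finset ℕ).erase e = {f} := by
        rw [Finset.erase_insert]
        rw [mem_singleton]
        exact Ne.symm hfe
      rw [h1]
      have h2 : StepsOK T {f} Q := q1.2.2
      have h3 : LamOK {f} (some f) Q := q5
      have h4 : ∅ ∉ setsOf {f} Q := fun h => h0Q (List.mem_cons_of_mem _ h)
      exact lam_indep h2 h4 h3
  · -- last flip
    have h1 : ∀ g : Flip, (g :: Q).getLast? = Q.getLast? := by
      intro g
      rw [List.getLast?_cons]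
      cases hQ' : Q.getLast? with
      | none => exact absurd (List.getLast?_eq_none_iff.1 hQ') hQ0
      | some a => simp
    rw [h1] at hc
    have h2 : (true, e) :: (P ++ (false, e) :: Q) = ((true, e) :: P ++ [(false, e)]) ++ Q := by
      simp
    rw [h2, List.getLast?_append, hc]
    rfl

theorem base {x c : ℕ} (hxc : x ≠ c) : HP {x, c} [(true, c), (true, x), (false, c)] x := by
  have e1 : (insert x {c} : Finset ℕ).erase c = {x} := by
    ext v
    simp only [mem_erase, mem_insert, mem_singleton]
    constructor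
    · rintro ⟨h1, h2 | h2⟩
      · exact h2
      · exact absurd h2 h1
    · rintro rfl
      exact ⟨hxc, Or.inl rfl⟩
  have hsets : setsOf ∅ [(true, c), (true, x), (false, c)] = [{c}, {x, c}, {x}] := by
    show [(insert c ∅ : Finset ℕ), (insert x (insert c ∅) : Finset ℕ),
      (insert x (insert c ∅) : Finset ℕ).erase c] = _
    have e0 : (insert c ∅ : Finset ℕ) = {c} := rfl
    rw [e0, e1]
  refine ⟨⟨?_, ?_, ?_, ?_, ?_, trivial⟩, ?_, ?_, ?_, ?_⟩
  · simp
  · simp
  · simp
  · simpa using hxc
  · simp
  · rw [hsets]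
    have h1 : ({c} : Finset ℕ) ≠ {x, c} := by
      intro h
      have : x ∈ ({c} : Finset ℕ) := by
        rw [h]
        simp
      exact hxc (mem_singleton.1 this)
    have h2 : ({x, c} : Finset ℕ) ≠ {x} := by
      intro h
      have : c ∈ ({x} : Finset ℕ) := by
        rw [← h]
        simp
      exact hxc (mem_singleton.1 this).symm
    have h3 : ({c} : Finset ℕ) ≠ {x} := by
      intro h
      exact hxc (Finset.singleton_injective h).symm
    have h4 : (∅ : Finset ℕ) ≠ {x, c} := (Finset.insert_ne_empty _ _).symm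
    have h5 : ∀ v : ℕ, (∅ : Finset ℕ) ≠ {v} := fun v => (Finset.singleton_ne_empty v).symm
    simp only [List.nodup_cons, List.mem_cons, List.not_mem_nil, or_false, not_or,
      List.nodup_nil, and_true, not_false_eq_true]
    exact ⟨⟨h5 c, h4, h5 x⟩, ⟨h1, h3⟩, h2⟩
  · intro B hB
    rw [hsets]
    simp only [List.mem_cons, List.not_mem_nil, or_false]
    by_cases hx : x ∈ B <;> by_cases hc : c ∈ B
    · right; right; left
      refine subset_antisymm hB ?_
      intro v hv
      rcases mem_insert.1 hv with h | h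
      · rw [h]; exact hx
      · rw [mem_singleton.1 h]; exact hc
    · right; right; right
      refine subset_antisymm ?_ (singleton_subset_iff.2 hx)
      intro v hv
      rcases mem_insert.1 (hB hv) with h | h
      · rw [h]; exact mem_singleton_self _
      · rw [mem_singleton.1 h] at hv
        exact absurd hv hc
    · right; left
      refine subset_antisymm ?_ (singleton_subset_iff.2 hc)
      intro v hv
      rcases mem_insert.1 (hB hv) with h | h
      · rw [h] at hv
        exact absurd hv hx
      · exact h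
    · left
      rw [Finset.eq_empty_iff_forall_notMem]
      intro v hv
      rcases mem_insert.1 (hB hv) with h | h
      · rw [h] at hv
        exact hx hv
      · rw [mem_singleton.1 h] at hv
        exact hc hv
  · show (insert x (insert c ∅) : Finset ℕ).erase c = {x}
    exact e1
  · refine ⟨fun _ h => hxc (Option.some.inj h), trivial⟩

/-- the first flip adds a letter -/
theorem first {S : Finset ℕ} {fs : List Flip} {x : ℕ} (h : HP S fs x) :
    ∃ f fs', fs = (true, f) :: fs' ∧ f ∈ S := by
  obtain ⟨h1, -, -, h4, -⟩ := h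
  cases fs with
  | nil =>
    exfalso
    have : (∅ : Finset ℕ) = {x} := h4
    exact absurd this.symm (Finset.singleton_ne_empty x)
  | cons g fs' =>
    obtain ⟨b, y⟩ := g
    cases b with
    | true => exact ⟨y, fs', rfl, h1.1⟩
    | false => exact absurd h1.1 (Finset.notMem_empty y)

theorem exists_main (n : ℕ) : ∀ {S : Finset ℕ} {x c : ℕ}, S.card ≤ n → x ∈ S → c ∈ S → x ≠ c →
    ∃ fs, HP S fs x ∧ fs.getLast? = some (false, c) := by
  induction n with
  | zero =>
    intro S x c hS hx
    have : S = ∅ := Finset.card_eq_zero.1 (by omega)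
    rw [this] at hx
    exact absurd hx (Finset.notMem_empty x)
  | succ n ih =>
    intro S x c hS hx hc hxc
    by_cases hex : ∃ e ∈ S, e ≠ x ∧ e ≠ c
    · obtain ⟨e, he, hex, hec⟩ := hex
      obtain ⟨T, hT⟩ : ∃ T, T = S.erase e := ⟨_, rfl⟩
      have heT : e ∉ T := by rw [hT]; exact Finset.notMem_erase e S
      have hST : insert e T = S := by rw [hT]; exact Finset.insert_erase he
      have hTc : T.card ≤ n := by
        rw [hT, Finset.card_erase_of_mem he]
        omega
      have hxT : x ∈ T := by rw [hT]; exact mem_erase.2 ⟨Ne.symm hex, hx⟩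
      have hcT : c ∈ T := by rw [hT]; exact mem_erase.2 ⟨Ne.symm hec, hc⟩
      obtain ⟨Q₀, hQ, hQl⟩ := ih hTc hxT hcT hxc
      obtain ⟨f, Q, rfl, hf⟩ := first hQ
      obtain ⟨g, hg, hgf⟩ : ∃ g ∈ T, f ≠ g := by
        by_cases h : f = x
        · exact ⟨c, hcT, by rw [h]; exact hxc⟩
        · exact ⟨x, hxT, h⟩
      obtain ⟨P, hP, -⟩ := ih hTc hf hg hgf
      obtain ⟨h1, h2⟩ := compose heT hP hQ hQl
      rw [hST] at h1
      exact ⟨_, h1, h2⟩
    · push Not at hex
      have hSx : S = {x, c} := by
        refine subset_antisymm ?_ ?_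
        · intro v hv
          by_cases h : v = x
          · rw [h]; simp
          · rw [hex v hv h]; simp
        · intro v hv
          rcases mem_insert.1 hv with h | h
          · rw [h]; exact hx
          · rw [mem_singleton.1 h]; exact hc
      rw [hSx]
      exact ⟨_, base hxc, rfl⟩

theorem exists_firstH {S : Finset ℕ} {x c e : ℕ} (hx : x ∈ S) (hc : c ∈ S) (hxc : x ≠ c)
    (he : e ∈ S) (hex : e ≠ x) (hec : e ≠ c) :
    ∃ fs, HP S ((true, e) :: fs) x ∧ ((true, e) :: fs).getLast? = some (false, c) := by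
  obtain ⟨T, hT⟩ : ∃ T, T = S.erase e := ⟨_, rfl⟩
  have heT : e ∉ T := by rw [hT]; exact Finset.notMem_erase e S
  have hST : insert e T = S := by rw [hT]; exact Finset.insert_erase he
  have hxT : x ∈ T := by rw [hT]; exact mem_erase.2 ⟨Ne.symm hex, hx⟩
  have hcT : c ∈ T := by rw [hT]; exact mem_erase.2 ⟨Ne.symm hec, hc⟩
  obtain ⟨Q₀, hQ, hQl⟩ := exists_main T.card le_rfl hxT hcT hxc
  obtain ⟨f, Q, rfl, hf⟩ := first hQ
  obtain ⟨g, hg, hgf⟩ : ∃ g ∈ T, f ≠ g := by
    by_cases h : f = x
    · exact ⟨c, hcT, by rw [h]; exact hxc⟩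
    · exact ⟨x, hxT, h⟩
  obtain ⟨P, hP, -⟩ := exists_main T.card le_rfl hf hg hgf
  obtain ⟨h1, h2⟩ := compose heT hP hQ hQl
  rw [hST] at h1
  exact ⟨_, h1, h2⟩

end PathAux

open PathAux

/-- the last flip removes `c`: then the last set but one is `insert c (end)` -/
theorem exists_path {S : Finset ℕ} {x c : ℕ} (hx : x ∈ S) (hc : c ∈ S) (hxc : x ≠ c) :
    ∃ fs, StepsOK S ∅ fs ∧ (∅ :: setsOf ∅ fs).Nodup ∧ (∀ B, B ⊆ S → B ∈ ∅ :: setsOf ∅ fs) ∧
      endOf ∅ fs = {x} ∧ LamOK ∅ none fs ∧ fs.getLast? = some (false, c) := by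
  obtain ⟨fs, ⟨h1, h2, h3, h4, h5⟩, h6⟩ := exists_main S.card le_rfl hx hc hxc
  exact ⟨fs, h1, h2, h3, h4, h5, h6⟩

/-- version with prescribed first letter `e` -/
theorem exists_path_first {S : Finset ℕ} {x c e : ℕ} (hx : x ∈ S) (hc : c ∈ S) (hxc : x ≠ c)
    (he : e ∈ S) (hex : e ≠ x) (hec : e ≠ c) :
    ∃ fs, StepsOK S ∅ ((true, e) :: fs) ∧ (∅ :: setsOf ∅ ((true, e) :: fs)).Nodup ∧
      (∀ B, B ⊆ S → B ∈ ∅ :: setsOf ∅ ((true, e) :: fs)) ∧
      endOf ∅ ((true, e) :: fs) = {x} ∧ LamOK ∅ none ((true, e) :: fs) ∧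
      ((true, e) :: fs).getLast? = some (false, c) := by
  obtain ⟨fs, ⟨h1, h2, h3, h4, h5⟩, h6⟩ := exists_firstH hx hc hxc he hex hec
  exact ⟨fs, h1, h2, h3, h4, h5, h6⟩

/-- version with two prescribed first letters `e₁, e₂`. `+e₁`, `W(S \ e₁, f, ·)` with first letter
`e₂`, `-e₁`, tail of `W(S \ e₁, x, c)` with first letter `f`. Needs `|S| ≥ 5` to have room: take
`f ∉ {e₁, e₂, x, c}` and `g ∉ {e₁, e₂, f}` as last removed letter of the first part. -/
theorem exists_path_first_two {S : Finset ℕ} {x c e₁ e₂ : ℕ} (hS : 5 ≤ S.card) (hx : x ∈ S)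
    (hc : c ∈ S) (hxc : x ≠ c) (he₁ : e₁ ∈ S) (h1x : e₁ ≠ x) (h1c : e₁ ≠ c) (he₂ : e₂ ∈ S)
    (h12 : e₂ ≠ e₁) :
    ∃ fs, StepsOK S ∅ ((true, e₁) :: (true, e₂) :: fs) ∧
      (∅ :: setsOf ∅ ((true, e₁) :: (true, e₂) :: fs)).Nodup ∧
      (∀ B, B ⊆ S → B ∈ ∅ :: setsOf ∅ ((true, e₁) :: (true, e₂) :: fs)) ∧
      endOf ∅ ((true, e₁) :: (true, e₂) :: fs) = {x} ∧
      LamOK ∅ none ((true, e₁) :: (true, e₂) :: fs) ∧
      ((true, e₁) :: (true, e₂) :: fs).getLast? = some (false, c) := by
  obtain ⟨T, hT⟩ : ∃ T, T = S.erase e₁ := ⟨_, rfl⟩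
  have heT : e₁ ∉ T := by rw [hT]; exact Finset.notMem_erase e₁ S
  have hST : insert e₁ T = S := by rw [hT]; exact Finset.insert_erase he₁
  have hTc : 4 ≤ T.card := by
    rw [hT, Finset.card_erase_of_mem he₁]
    omega
  have hxT : x ∈ T := by rw [hT]; exact mem_erase.2 ⟨Ne.symm h1x, hx⟩
  have hcT : c ∈ T := by rw [hT]; exact mem_erase.2 ⟨Ne.symm h1c, hc⟩
  have h2T : e₂ ∈ T := by rw [hT]; exact mem_erase.2 ⟨h12, he₂⟩
  -- the letter `f`
  obtain ⟨f, hf, hf'⟩ : ∃ f ∈ T, f ∉ ({e₂, x, c} : Finset ℕ) := by
    by_contra hcon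
    push Not at hcon
    have h1 : T.card ≤ ({e₂, x, c} : Finset ℕ).card := Finset.card_le_card hcon
    have h2 : ({e₂, x, c} : Finset ℕ).card ≤ 3 := Finset.card_le_three
    omega
  simp only [mem_insert, mem_singleton, not_or] at hf'
  obtain ⟨hf2, hfx, hfc⟩ := hf'
  obtain ⟨g, hg, hg'⟩ : ∃ g ∈ T, g ∉ ({e₂, f} : Finset ℕ) := by
    by_contra hcon
    push Not at hcon
    have h1 : T.card ≤ ({e₂, f} : Finset ℕ).card := Finset.card_le_card hcon
    have h2 : ({e₂, f} : Finset ℕ).card ≤ 2 := Finset.card_le_two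
    omega
  simp only [mem_insert, mem_singleton, not_or] at hg'
  obtain ⟨hg2, hgf⟩ := hg'
  obtain ⟨Q, hQ, hQl⟩ := exists_firstH hxT hcT hxc hf hfx hfc
  obtain ⟨P, hP, -⟩ := exists_firstH hf hg (Ne.symm hgf) h2T (Ne.symm hf2) (Ne.symm hg2)
  obtain ⟨⟨h1, h2, h3, h4, h5⟩, h6⟩ := compose heT hP hQ hQl
  rw [hST] at h1 h3
  exact ⟨P ++ (false, e₁) :: Q, h1, h2, h3, h4, h5, h6⟩

/-- for one or more letters: without condition on the last flip -/
theorem exists_path_one {S : Finset ℕ} {x : ℕ} (hx : x ∈ S) :
    ∃ fs, StepsOK S ∅ fs ∧ (∅ :: setsOf ∅ fs).Nodup ∧ (∀ B, B ⊆ S → B ∈ ∅ :: setsOf ∅ fs) ∧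
      endOf ∅ fs = {x} ∧ LamOK ∅ none fs := by
  by_cases h : ∃ c ∈ S, x ≠ c
  · obtain ⟨c, hc, hxc⟩ := h
    obtain ⟨fs, h1, -⟩ := exists_main S.card le_rfl hx hc hxc
    exact ⟨fs, h1⟩
  · push Not at h
    refine ⟨[(true, x)], ⟨hx, Finset.notMem_empty x, trivial⟩, ?_, ?_, rfl, trivial⟩
    · show [(∅ : Finset ℕ), insert x ∅].Nodup
      simp only [List.nodup_cons, List.mem_singleton, List.not_mem_nil, not_false_eq_true,
        List.nodup_nil, and_true]
      exact (Finset.insert_ne_empty _ _).symm
    · intro B hB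
      show B ∈ [(∅ : Finset ℕ), insert x ∅]
      simp only [List.mem_cons, List.not_mem_nil, or_false]
      by_cases hxB : x ∈ B
      · right
        ext v
        constructor
        · intro hv
          rw [← h v (hB hv)]
          exact mem_insert_self _ _
        · intro hv
          rcases mem_insert.1 hv with h' | h'
          · rw [h']; exact hxB
          · exact absurd h' (Finset.notMem_empty v)
      · left
        rw [Finset.eq_empty_iff_forall_notMem]
        intro v hv
        exact hxB (h v (hB hv) ▸ hv)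

end Pool.Agent.RS
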