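import Pool.Agent.RS.RepRun

/-!
# RS module PathRun: checked paths for configurations with one component
-/

set_option autoImplicit false

namespace Pool.Agent.RS

open Finset

/-- check of a path for one component of size `k` (start with an ε-bar at the bottom), final
pieces `P` -/
def checkG (db : List (List Fact)) (k : ℕ) (P : List (List ℕ)) (n code : ℕ) : Bool :=
  match runP 0 0 none false (stepsD db n code) (initP [k] 0) with
  | none => false
  | some s => (s.P == P) && (s.vis.length == 2 ^ (k - 1)) && !s.first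

namespace PathRunAux

theorem ctx {Pi : Finset ℕ} {X : Fl} {a k z β : ℕ} (g : Good Pi X) (c : IsComp Pi X a k)
    (hk : 2 ≤ k) (hal : ∀ b ∈ Pi, a < b ∧ b < a + k) (hz : X.w[a]? = some z)
    (hd : 6 ≤ X.s.length) (hβ : β ∈ X.s ∧ β ∉ Pi) : Ctx Pi X [(a, k)] 0 a k z β where
  g := g
  hb := by
    refine ⟨?_, ?_, List.pairwise_singleton _ _⟩
    · intro p hp _
      rw [List.mem_singleton] at hp
      subst hp
      exact c
    · intro b hb
      exact ⟨(a, k), List.mem_singleton_self _, hal b hb⟩
  h2 := by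
    intro p hp
    rw [List.mem_singleton] at hp
    subst hp
    exact hk
  hK := rfl
  hz := hz
  six := hd
  eps := hβ

theorem steps {db : List (List Fact)} (hdb : ∀ gr ∈ db, ∀ f ∈ gr, Holds f) (n : ℕ) :
    ∀ code : ℕ, ∀ x ∈ stepsD db n code, Holds x.2 ∨ x.2.ks = [] := by
  induction n with
  | zero =>
    intro code x hx
    simp [stepsD] at hx
  | succ n ih =>
    intro code x hx
    rw [stepsD, List.mem_cons] at hx
    rcases hx with rfl | hx
    · unfold lookup
      simp only
      generalize hF : (db.getD (code % 8192 / 128) []).getD (code % 8192 / 2 % 64)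
        ⟨[], none, [], 0, false⟩ = F
      rw [List.getD_eq_getElem?_getD] at hF
      cases h1 : (db.getD (code % 8192 / 128) [])[code % 8192 / 2 % 64]? with
      | none =>
        rw [h1] at hF
        right
        rw [← hF]
        rfl
      | some f =>
        rw [h1] at hF
        left
        have hfF : f = F := by simpa using hF
        subst hfF
        have hmem : f ∈ db.getD (code % 8192 / 128) [] := List.mem_of_getElem? h1
        rw [List.getD_eq_getElem?_getD] at hmem
        cases h2 : db[code % 8192 / 128]? with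
        | none =>
          rw [h2] at hmem
          simp at hmem
        | some gr =>
          rw [h2] at hmem
          exact hdb gr (List.mem_of_getElem? h2) f (by simpa using hmem)
    · exact ih _ x hx

theorem core (h5 : D05) {Pi : Finset ℕ} {X : Fl} {a k z β : ℕ} (g : Good Pi X)
    (c : IsComp Pi X a k) (hk : 2 ≤ k) (hal : ∀ b ∈ Pi, a < b ∧ b < a + k)
    (hz : X.w[a]? = some z) (hd : 6 ≤ X.s.length) (he : HeadEps Pi X)
    (hβ : β ∈ X.s ∧ β ∉ Pi) {u v : List ℕ} {l : List (Bool × Fact)}
    (hl : ∀ x ∈ l, Holds x.2 ∨ x.2.ks = []) {s : PS}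
    (hc : runP 0 0 none false l (initP [k] 0) = some s) (hP : s.P = [u, v])
    (hn : s.vis.length = 2 ^ (k - 1)) :
    ∃ A X', PhaseAt Pi X a k z A X' ∧ A.card = u.length ∧ u.length + v.length + 1 = k ∧
      RunS Pi X a z ((compS X a k z).powerset.erase A) ⟨X'.w, X'.s ++ top a A.card⟩ ∧
      (X'.w.drop a).take u.length = u.map (fun i => ((X.w.drop a).take k).getD i 0) ∧
      (X'.w.drop (a + u.length + 1)).take v.length =
        v.map (fun i => ((X.w.drop a).take k).getD i 0) ∧
      (s.first = false → HeadEps (subPi Pi a A.card) X') ∧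
      (s.lastL = true → ∃ σ, X'.s = (a + A.card + 1) :: β :: σ) := by
  have h := ctx g c hk hal hz hd hβ
  have hcc : ClsCtx Pi X [(a, k)] none := ⟨he, fun b hb => by simp at hb⟩
  obtain ⟨vis, A, X', r⟩ := rep_run h5 h hcc hl (s' := s) hc
  have hv := Rep.all h r hn
  have hlen := r.len
  have hw := r.words
  rw [hP] at hlen hw
  have e1 : u.length = A.card ∧ v.length = k - 1 - A.card := by
    simpa [subBl] using hlen
  have e2 : (X'.w.drop a).take A.card = u.map (fun i => ((X.w.drop a).take k).getD i 0) ∧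
      (X'.w.drop (a + A.card + 1)).take (k - 1 - A.card) =
        v.map (fun i => ((X.w.drop a).take k).getD i 0) := by
    simpa [subBl, segs, dupl] using hw
  have hlt := r.ph.lt
  refine ⟨A, X', r.ph, e1.1.symm, by omega, ?_, ?_, ?_, ?_, ?_⟩
  · rw [← hv]
    exact r.run
  · rw [e1.1]
    exact e2.1
  · rw [e1.1, e1.2]
    exact e2.2
  · exact Rep.headEps h r
  · intro hL
    exact (r.lastL hL).2

end PathRunAux

open PathRunAux

/-- the start flag of the last phase. `s` = start arrangement of the component; `P = [u, v]`: the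
letters before `z` are `u` and those after `z` are `v` (indices into `s`). -/
theorem path_run (h5 : D05) {db : List (List Fact)} (hdb : ∀ gr ∈ db, ∀ f ∈ gr, Holds f)
    {Pi : Finset ℕ} {X : Fl} {a k z : ℕ} (g : Good Pi X) (c : IsComp Pi X a k) (hk : 2 ≤ k)
    (hal : ∀ b ∈ Pi, a < b ∧ b < a + k) (hz : X.w[a]? = some z) (hd : 6 ≤ X.s.length)
    (he : HeadEps Pi X) {β : ℕ} (hβ : β ∈ X.s ∧ β ∉ Pi) {u v : List ℕ} {n code : ℕ}
    (hc : checkG db k [u, v] n code = true) :
    ∃ A X', PhaseAt Pi X a k z A X' ∧ A.card = u.length ∧ u.length + v.length + 1 = k ∧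
      RunS Pi X a z ((compS X a k z).powerset.erase A) ⟨X'.w, X'.s ++ top a A.card⟩ ∧
      (X'.w.drop a).take u.length = u.map (fun i => ((X.w.drop a).take k).getD i 0) ∧
      (X'.w.drop (a + u.length + 1)).take v.length =
        v.map (fun i => ((X.w.drop a).take k).getD i 0) ∧
      HeadEps (subPi Pi a A.card) X' := by
  unfold checkG at hc
  cases hr : runP 0 0 none false (stepsD db n code) (initP [k] 0) with
  | none =>
    rw [hr] at hc
    simp at hc
  | some s =>
    rw [hr] at hc
    simp only [Bool.and_eq_true, beq_iff_eq, Bool.not_eq_true'] at hc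
    obtain ⟨⟨hP, hn⟩, hf⟩ := hc
    obtain ⟨A, X', h1, h2, h3, h4, h5', h6, h7, -⟩ :=
      core h5 g c hk hal hz hd he hβ (steps hdb n code) hr hP hn
    exact ⟨A, X', h1, h2, h3, h4, h5', h6, h7 hf⟩

/-- with a last transition L (`lastL` of the final state): the two lowest bars of the start flag
of the last phase -/
theorem path_run_L (h5 : D05) {db : List (List Fact)} (hdb : ∀ gr ∈ db, ∀ f ∈ gr, Holds f)
    {Pi : Finset ℕ} {X : Fl} {a k z : ℕ} (g : Good Pi X) (c : IsComp Pi X a k) (hk : 2 ≤ k)
    (hal : ∀ b ∈ Pi, a < b ∧ b < a + k) (hz : X.w[a]? = some z) (hd : 6 ≤ X.s.length)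
    (he : HeadEps Pi X) {β : ℕ} (hβ : β ∈ X.s ∧ β ∉ Pi) {u v : List ℕ} {l : List (Bool × Fact)}
    (hl : ∀ x ∈ l, Holds x.2 ∨ x.2.ks = []) {s : PS}
    (hc : runP 0 0 none false l (initP [k] 0) = some s) (hP : s.P = [u, v])
    (hn : s.vis.length = 2 ^ (k - 1)) (hL : s.lastL = true) :
    ∃ A X', PhaseAt Pi X a k z A X' ∧ A.card = u.length ∧ u.length + v.length + 1 = k ∧
      RunS Pi X a z ((compS X a k z).powerset.erase A) ⟨X'.w, X'.s ++ top a A.card⟩ ∧
      (X'.w.drop a).take u.length = u.map (fun i => ((X.w.drop a).take k).getD i 0) ∧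
      (X'.w.drop (a + u.length + 1)).take v.length =
        v.map (fun i => ((X.w.drop a).take k).getD i 0) ∧
      ∃ σ, X'.s = (a + A.card + 1) :: β :: σ := by
  obtain ⟨A, X', h1, h2, h3, h4, h5', h6, -, h8⟩ :=
    core h5 g c hk hal hz hd he hβ hl hc hP hn
  exact ⟨A, X', h1, h2, h3, h4, h5', h6, h8 hL⟩

end Pool.Agent.RS
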