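import Pool.Agent.RS.Walks

/-!
# RS module Phase: the phases of a component

Fix a component `(a, k)` of the configuration `(Pi, X)` and a letter `z` of it, `base = pre X.w a`.
For a face `F` let `base ∪ A` be the union of `base` and of the sets of `F` which do not contain
`z`. Every face belongs to exactly one `A ⊆ compS X a k z`.
-/

set_option autoImplicit false

namespace Pool.Agent.RS

open Finset

namespace PhaseAux

theorem getElem_inj {w : List ℕ} (hw : w.Nodup) {i j x : ℕ} (hi : w[i]? = some x)
    (hj : w[j]? = some x) : i = j := by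
  obtain ⟨hi1, hi2⟩ := List.getElem?_eq_some_iff.1 hi
  obtain ⟨hj1, hj2⟩ := List.getElem?_eq_some_iff.1 hj
  exact (List.Nodup.getElem_inj_iff hw).1 (hi2.trans hj2.symm)

theorem lt_length {w : List ℕ} {i x : ℕ} (hi : w[i]? = some x) : i < w.length :=
  (List.getElem?_eq_some_iff.1 hi).1

/-- letters between two bars -/
theorem mem_sdiff_pre {w : List ℕ} (hw : w.Nodup) {a n x : ℕ} :
    x ∈ pre w (a + n) \ pre w a ↔ ∃ i, i < n ∧ w[a + i]? = some x := by
  rw [Finset.mem_sdiff, mem_pre, mem_pre]
  constructor
  · rintro ⟨⟨j, hj, hjx⟩, h2⟩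
    have hja : a ≤ j := by
      by_contra hlt
      exact h2 ⟨j, by omega, hjx⟩
    refine ⟨j - a, by omega, ?_⟩
    rw [show a + (j - a) = j by omega]
    exact hjx
  · rintro ⟨i, hi, hix⟩
    refine ⟨⟨a + i, by omega, hix⟩, ?_⟩
    rintro ⟨j, hj, hjx⟩
    have := getElem_inj hw hix hjx
    omega

end PhaseAux

section

variable {Pi : Finset ℕ} {X X' : Fl} {a k z : ℕ} {A : Finset ℕ}

/-- `A` is determined by `base ∪ A` -/
theorem base_union_inj {A B : Finset ℕ} {base : Finset ℕ} (hA : Disjoint base A)
    (hB : Disjoint base B) (h : base ∪ A = base ∪ B) : A = B := by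
  have h1 : (base ∪ A) \ base = A := by
    rw [Finset.union_sdiff_left, Finset.sdiff_eq_self_of_disjoint hA.symm]
  have h2 : (base ∪ B) \ base = B := by
    rw [Finset.union_sdiff_left, Finset.sdiff_eq_self_of_disjoint hB.symm]
  rw [← h1, ← h2, h]

/-- a phase set is a set of letters of the component without `z` -/
theorem PhaseAt.sub (g : Good Pi X) (c : IsComp Pi X a k) (h : PhaseAt Pi X a k z A X') :
    A ⊆ compS X a k z := by
  intro x hx
  have hx1 : x ∈ RS.pre X'.w (a + A.card) := by
    rw [h.pre]
    exact Finset.mem_union_right _ hx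
  have hx2 : x ∈ RS.pre X.w (a + k) := by
    rw [← h.same.fix (a + k) c.right]
    exact pre_mono (by have := h.lt; omega) hx1
  have hx3 : x ∉ RS.pre X.w a := fun hx4 => (Finset.disjoint_left.1 h.disj) hx4 hx
  have hxz : x ≠ z := by
    rintro rfl
    obtain ⟨i, hi, hix⟩ := mem_pre.1 hx1
    have := PhaseAux.getElem_inj h.good.wn hix h.atz
    omega
  unfold compS
  rw [Finset.mem_erase, Finset.mem_sdiff]
  exact ⟨hxz, hx2, hx3⟩

theorem mem_compS (g : Good Pi X) (c : IsComp Pi X a k) {x : ℕ} :
    x ∈ compS X a k z ↔ x ≠ z ∧ ∃ i, i < k ∧ X.w[a + i]? = some x := by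
  unfold compS
  rw [Finset.mem_erase, PhaseAux.mem_sdiff_pre g.wn]

theorem compS_card (g : Good Pi X) (c : IsComp Pi X a k)
    (hz : ∃ i, i < k ∧ X.w[a + i]? = some z) : (compS X a k z).card = k - 1 := by
  unfold compS
  rw [Finset.card_erase_of_mem ((PhaseAux.mem_sdiff_pre g.wn).2 hz),
    Finset.card_sdiff_of_subset (pre_mono (by omega)), pre_card g.wn c.le,
    pre_card g.wn (by have := c.le; omega)]
  omega

theorem compS_disj (g : Good Pi X) {A : Finset ℕ} (h : A ⊆ compS X a k z) :
    Disjoint (pre X.w a) A := by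
  rw [Finset.disjoint_right]
  intro x hx
  have := h hx
  unfold compS at this
  rw [Finset.mem_erase, Finset.mem_sdiff] at this
  exact this.2.2

/-- the letters after `z` in the phase: they form a component -/
theorem PhaseAt.compB (g : Good Pi X) (c : IsComp Pi X a k) (h : PhaseAt Pi X a k z A X')
    (hn : A.card + 1 < k) : IsComp (subPi Pi a A.card) X' (a + A.card + 1) (k - 1 - A.card) := by
  have hlen : X'.w.length = X.w.length := h.same.w.length_eq
  have hle := c.le
  refine ⟨by omega, by omega, ?_, ?_, ?_⟩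
  · unfold subPi
    simp
  · unfold subPi
    rw [show a + A.card + 1 + (k - 1 - A.card) = a + k by omega]
    intro hm
    rw [Finset.mem_erase, Finset.mem_erase] at hm
    exact c.right hm.2.2
  · intro b hb1 hb2
    unfold subPi
    rw [Finset.mem_erase, Finset.mem_erase]
    exact ⟨by omega, by omega, c.mem b (by omega) (by omega)⟩

/-- the letters of `A` form a component -/
theorem PhaseAt.compA (g : Good Pi X) (c : IsComp Pi X a k) (h : PhaseAt Pi X a k z A X')
    (hn : A.Nonempty) : IsComp (subPi Pi a A.card) X' a A.card := by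
  have hlen : X'.w.length = X.w.length := h.same.w.length_eq
  have hle := c.le
  have hlt := h.lt
  have hpos : 0 < A.card := Finset.card_pos.2 hn
  refine ⟨by omega, by omega, ?_, ?_, ?_⟩
  · intro hm
    unfold subPi at hm
    rw [Finset.mem_erase, Finset.mem_erase] at hm
    exact c.left hm.2.2
  · intro hm
    unfold subPi at hm
    rw [Finset.mem_erase, Finset.mem_erase] at hm
    exact hm.2.1 rfl
  · intro b hb1 hb2
    unfold subPi
    rw [Finset.mem_erase, Finset.mem_erase]
    exact ⟨by omega, by omega, c.mem b (by omega) (by omega)⟩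

/-- `z` alone is a component -/
theorem PhaseAt.compz (g : Good Pi X) (c : IsComp Pi X a k) (h : PhaseAt Pi X a k z A X') :
    IsComp (subPi Pi a A.card) X' (a + A.card) 1 := by
  have hlen : X'.w.length = X.w.length := h.same.w.length_eq
  have hle := c.le
  have hlt := h.lt
  refine ⟨le_rfl, by omega, ?_, ?_, ?_⟩
  · intro hm
    unfold subPi at hm
    rw [Finset.mem_erase, Finset.mem_erase] at hm
    exact hm.2.1 rfl
  · intro hm
    unfold subPi at hm
    rw [Finset.mem_erase, Finset.mem_erase] at hm
    exact hm.1 rfl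
  · intro b hb1 hb2
    omega

/-- the other components stay components -/
theorem PhaseAt.comp_other (g : Good Pi X) (c : IsComp Pi X a k) (h : PhaseAt Pi X a k z A X')
    {a' k' : ℕ} (c' : IsComp Pi X a' k') (hd : a' ≠ a) :
    IsComp (subPi Pi a A.card) X' a' k' := by
  have hlen : X'.w.length = X.w.length := h.same.w.length_eq
  have hlt := h.lt
  have key : ∀ b, a ≤ b → b ≤ a + k → a' < b → b < a' + k' → b ∈ Pi → False := by
    intro b h1 h2 h3 h4 hb
    have hba : b ≠ a := by
      rintro rfl
      exact c.left hb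
    have hbk : b ≠ a + k := by
      rintro rfl
      exact c.right hb
    rcases Nat.lt_or_ge a' a with h5 | h5
    · exact c.left (c'.mem a h5 (by omega))
    · exact c'.left (c.mem a' (by omega) (by omega))
  refine ⟨c'.one, by have := c'.le; omega, ?_, ?_, ?_⟩
  · intro hm
    unfold subPi at hm
    rw [Finset.mem_erase, Finset.mem_erase] at hm
    exact c'.left hm.2.2
  · intro hm
    unfold subPi at hm
    rw [Finset.mem_erase, Finset.mem_erase] at hm
    exact c'.right hm.2.2
  · intro b hb1 hb2
    have hb := c'.mem b hb1 hb2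
    unfold subPi
    rw [Finset.mem_erase, Finset.mem_erase]
    refine ⟨?_, ?_, hb⟩
    · intro hbe
      exact key b (by omega) (by omega) hb1 hb2 hb
    · intro hbe
      exact key b (by omega) (by omega) hb1 hb2 hb

/-- the letters of `A` are the first `A.card` letters of the component -/
theorem PhaseAt.mem_A (g : Good Pi X) (c : IsComp Pi X a k) (h : PhaseAt Pi X a k z A X') {x : ℕ} :
    x ∈ A ↔ ∃ i, i < A.card ∧ X'.w[a + i]? = some x := by
  rw [← PhaseAux.mem_sdiff_pre h.good.wn, h.pre, h.same.fix a c.left, Finset.union_sdiff_left,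
    Finset.sdiff_eq_self_of_disjoint h.disj.symm]

/-- the letters of the component outside `A` and different from `z` are those after `z` -/
theorem PhaseAt.mem_B (g : Good Pi X) (c : IsComp Pi X a k) (h : PhaseAt Pi X a k z A X') {x : ℕ} :
    (x ∈ compS X a k z ∧ x ∉ A) ↔ ∃ i, i < k - 1 - A.card ∧ X'.w[a + A.card + 1 + i]? = some x := by
  have hlt := h.lt
  have e1 : x ∈ compS X a k z ↔ x ≠ z ∧ ∃ i, i < k ∧ X'.w[a + i]? = some x := by
    unfold compS
    rw [Finset.mem_erase, ← h.same.fix a c.left, ← h.same.fix (a + k) c.right,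
      PhaseAux.mem_sdiff_pre h.good.wn]
  rw [e1, PhaseAt.mem_A g c h]
  constructor
  · rintro ⟨⟨hxz, i, hi, hix⟩, h2⟩
    have h3 : A.card ≤ i := by
      by_contra h4
      exact h2 ⟨i, by omega, hix⟩
    have h5 : i ≠ A.card := by
      rintro rfl
      have := h.atz
      rw [hix] at this
      exact hxz (Option.some.inj this)
    refine ⟨i - A.card - 1, by omega, ?_⟩
    rw [show a + A.card + 1 + (i - A.card - 1) = a + i by omega]
    exact hix
  · rintro ⟨i, hi, hix⟩
    refine ⟨⟨?_, A.card + 1 + i, by omega, ?_⟩, ?_⟩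
    · rintro rfl
      have := PhaseAux.getElem_inj h.good.wn hix h.atz
      omega
    · rw [show a + (A.card + 1 + i) = a + A.card + 1 + i by omega]
      exact hix
    · rintro ⟨j, hj, hjx⟩
      have := PhaseAux.getElem_inj h.good.wn hix hjx
      omega

/-- an ε-bar of `(Pi, X)` is an ε-bar of the phase -/
theorem PhaseAt.eps (g : Good Pi X) (c : IsComp Pi X a k) (h : PhaseAt Pi X a k z A X') {β : ℕ}
    (h1 : β ∈ X.s) (h2 : β ∉ Pi) :
    β ∈ X'.s ∧ β ∉ subPi Pi a A.card ∧ (A.card + 1 < k → β ≠ a + A.card + 1) := by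
  have hlt := h.lt
  refine ⟨?_, ?_, ?_⟩
  · have h3 : β ∈ X'.s ++ top a A.card := (h.same.s.mem_iff).2 h1
    rcases List.mem_append.1 h3 with h4 | h4
    · exact h4
    · exfalso
      unfold top at h4
      split_ifs at h4 with h5
      · simp at h4
      · rw [List.mem_singleton] at h4
        subst h4
        exact h2 (c.mem _ (by omega) (by omega))
  · intro hm
    unfold subPi at hm
    rw [Finset.mem_erase, Finset.mem_erase] at hm
    exact h2 hm.2.2
  · intro hk hβ
    subst hβ
    exact h2 (c.mem _ (by omega) (by omega))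

/-- number of bars in a phase -/
theorem PhaseAt.slength (g : Good Pi X) (c : IsComp Pi X a k) (h : PhaseAt Pi X a k z A X') :
    X'.s.length + (if A = ∅ then 0 else 1) = X.s.length := by
  have h1 : (X'.s ++ top a A.card).length = X.s.length := h.same.s.length_eq
  rw [List.length_append] at h1
  rw [← h1]
  congr 1
  unfold top
  by_cases hA : A = ∅
  · subst hA
    simp
  · have : A.card ≠ 0 := fun h0 => hA (Finset.card_eq_zero.1 h0)
    rw [if_neg hA, if_neg this]
    rfl

/-- number of bars in `Pi` in a phase -/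
theorem PhaseAt.picard (g : Good Pi X) (c : IsComp Pi X a k) (h : PhaseAt Pi X a k z A X') :
    (subPi Pi a A.card).card + (if A = ∅ then 0 else 1) + (if A.card + 1 = k then 0 else 1)
      = Pi.card := by
  have hlt := h.lt
  have e1 : (Pi.erase (a + A.card)).card + (if A = ∅ then 0 else 1) = Pi.card := by
    by_cases hA : A = ∅
    · subst hA
      rw [Finset.card_empty, Nat.add_zero, if_pos rfl, Finset.erase_eq_of_notMem c.left]
      rfl
    · have hc : A.card ≠ 0 := fun h0 => hA (Finset.card_eq_zero.1 h0)
      rw [if_neg hA]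
      exact Finset.card_erase_add_one (c.mem _ (by omega) (by omega))
  have e2 : (subPi Pi a A.card).card + (if A.card + 1 = k then 0 else 1)
      = (Pi.erase (a + A.card)).card := by
    unfold subPi
    by_cases hk : A.card + 1 = k
    · rw [if_pos hk, Finset.erase_eq_of_notMem]
      · rfl
      · intro hm
        rw [Finset.mem_erase] at hm
        have hm2 := hm.2
        rw [show a + A.card + 1 = a + k by omega] at hm2
        exact c.right hm2
    · rw [if_neg hk]
      refine Finset.card_erase_add_one ?_
      rw [Finset.mem_erase]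
      exact ⟨by omega, c.mem _ (by omega) (by omega)⟩
  omega

/-- every bar of `Pi` lies in a component of size `≥ 2` (the maximal interval of bars of `Pi`
around `b`; `0 ∉ Pi` and `X.w.length ∉ Pi`) -/
theorem exists_comp (g : Good Pi X) {b : ℕ} (hb : b ∈ Pi) :
    ∃ a k, IsComp Pi X a k ∧ a < b ∧ b < a + k := by
  have h0 : 0 ∉ Pi := fun h => absurd (g.pos 0 (g.sub 0 h)) (lt_irrefl 0)
  have hN : X.w.length ∉ Pi := fun h => absurd (g.lt _ (g.sub _ h)) (lt_irrefl _)
  have hb0 : 0 < b := g.pos b (g.sub b hb)
  have hbN : b < X.w.length := g.lt b (g.sub b hb)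
  -- the left end
  have hL : ∃ a, a < b ∧ a ∉ Pi ∧ ∀ c, a < c → c ≤ b → c ∈ Pi := by
    have key : ∀ m, m ≤ b → (∀ c, m < c → c ≤ b → c ∈ Pi) →
        ∃ a, a < b ∧ a ∉ Pi ∧ ∀ c, a < c → c ≤ b → c ∈ Pi := by
      intro m
      induction m with
      | zero => intro _ hm; exact ⟨0, hb0, h0, hm⟩
      | succ m ih =>
        intro hmb hm
        by_cases hmem : m + 1 ∈ Pi
        · refine ih (by omega) ?_
          intro c h1 h2
          rcases Nat.eq_or_lt_of_le (Nat.succ_le_of_lt h1) with h3 | h3
          · rw [← h3]; exact hmem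
          · exact hm c h3 h2
        · refine ⟨m + 1, ?_, hmem, hm⟩
          rcases Nat.eq_or_lt_of_le hmb with h3 | h3
          · rw [h3] at hmem; exact absurd hb hmem
          · exact h3
    exact key b le_rfl (fun c h1 h2 => by omega)
  -- the right end
  have hR : ∃ e, b < e ∧ e ≤ X.w.length ∧ e ∉ Pi ∧ ∀ c, b ≤ c → c < e → c ∈ Pi := by
    have key : ∀ m d, d + m = X.w.length → b ≤ d → (∀ c, b ≤ c → c < d → c ∈ Pi) →
        ∃ e, b < e ∧ e ≤ X.w.length ∧ e ∉ Pi ∧ ∀ c, b ≤ c → c < e → c ∈ Pi := by
      intro m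
      induction m with
      | zero =>
        intro d hd hbd hm
        have hd' : d = X.w.length := by omega
        subst hd'
        exact ⟨X.w.length, hbN, le_rfl, hN, hm⟩
      | succ m ih =>
        intro d hd hbd hm
        by_cases hmem : d ∈ Pi
        · refine ih (d + 1) (by omega) (by omega) ?_
          intro c h1 h2
          rcases Nat.eq_or_lt_of_le (Nat.le_of_lt_succ h2) with h3 | h3
          · rw [h3]; exact hmem
          · exact hm c h1 h3
        · refine ⟨d, ?_, by omega, hmem, hm⟩
          rcases Nat.eq_or_lt_of_le hbd with h3 | h3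
          · rw [← h3] at hmem; exact absurd hb hmem
          · exact h3
    exact key (X.w.length - b) b (by omega) le_rfl (fun c h1 h2 => by omega)
  obtain ⟨a, ha1, ha2, ha3⟩ := hL
  obtain ⟨e, he1, he2, he3, he4⟩ := hR
  refine ⟨a, e - a, ⟨by omega, by omega, ha2, ?_, ?_⟩, ha1, by omega⟩
  · rw [show a + (e - a) = e by omega]
    exact he3
  · intro c h1 h2
    rcases Nat.lt_or_ge b c with h3 | h3
    · exact he4 c (by omega) (by omega)
    · exact ha3 c h1 h3

/-- two components with the same start are equal -/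
theorem comp_unique (g : Good Pi X) {k' : ℕ} (c : IsComp Pi X a k) (c' : IsComp Pi X a k') :
    k = k' := by
  have h1 := c.one
  have h2 := c'.one
  rcases Nat.lt_trichotomy k k' with h | h | h
  · exact absurd (c'.mem (a + k) (by omega) (by omega)) c.right
  · exact h
  · exact absurd (c.mem (a + k') (by omega) (by omega)) c'.right

end

end Pool.Agent.RS
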