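import Pool.Agent.RS.Phase

/-!
# RS module PhaseF: decomposition of the set of all faces into phases
-/

set_option autoImplicit false

namespace Pool.Agent.RS

open Finset

section

variable {Pi : Finset ℕ} {X X' : Fl} {a k z : ℕ} {A : Finset ℕ}

namespace PhaseFAux

theorem mem_az {base : Finset ℕ} {z : ℕ} {F : Face} {x : ℕ} :
    x ∈ az base z F ↔ x ∈ base ∨ ∃ S ∈ F, z ∉ S ∧ x ∈ S := by
  unfold az
  rw [mem_union, mem_sup]
  constructor
  · rintro (h | ⟨S, hS, hx⟩)
    · exact Or.inl h
    · obtain ⟨h1, h2⟩ := mem_filter.1 hS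
      exact Or.inr ⟨S, h1, h2, hx⟩
  · rintro (h | ⟨S, h1, h2, hx⟩)
    · exact Or.inl h
    · exact Or.inr ⟨S, mem_filter.2 ⟨h1, h2⟩, hx⟩

theorem sub_az {base : Finset ℕ} {z : ℕ} {F : Face} {S : Finset ℕ} (hS : S ∈ F) (hz : z ∉ S) :
    S ⊆ az base z F := fun _ hx => mem_az.2 (Or.inr ⟨S, hS, hz, hx⟩)

/-- a letter at position `p ≥ b` is not in `pre w b` -/
theorem notMem_pre {w : List ℕ} (hw : w.Nodup) {b p x : ℕ} (hp : b ≤ p) (hx : w[p]? = some x) :
    x ∉ pre w b := by
  intro h
  obtain ⟨i, hi, hix⟩ := mem_pre.1 h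
  obtain ⟨h1, h1'⟩ := List.getElem?_eq_some_iff.1 hix
  obtain ⟨h2, h2'⟩ := List.getElem?_eq_some_iff.1 hx
  have := (List.Nodup.getElem_inj_iff hw).1 (h1'.trans h2'.symm)
  omega

theorem pre_sub {w : List ℕ} {b : ℕ} : pre w b ⊆ w.toFinset := by
  intro x hx
  obtain ⟨i, -, hix⟩ := mem_pre.1 hx
  rw [List.mem_toFinset]
  exact List.mem_of_getElem? hix

theorem good' (g : Good Pi X) (h : PhaseAt Pi X a k z A X') :
    Good Pi ⟨X'.w, X'.s ++ top a A.card⟩ := h.same.good g

theorem notSub1 (n : ℕ) : a + n ∉ subPi Pi a n := by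
  unfold subPi
  intro h
  exact (mem_erase.1 (mem_erase.1 h).2).1 rfl

theorem notSub2 (n : ℕ) : a + n + 1 ∉ subPi Pi a n := by
  unfold subPi
  intro h
  exact (mem_erase.1 h).1 rfl

theorem notSub (n : ℕ) {b : ℕ} (hb : b ∉ Pi) : b ∉ subPi Pi a n := by
  unfold subPi
  intro h
  exact hb (mem_erase.1 (mem_erase.1 h).2).2

theorem notSub_iff {n b : ℕ} (hb : b ∉ subPi Pi a n) : b ∉ Pi ∨ b = a + n ∨ b = a + n + 1 := by
  unfold subPi at hb
  by_contra hc
  push Not at hc
  exact hb (mem_erase.2 ⟨hc.2.2, mem_erase.2 ⟨hc.2.1, hc.1⟩⟩)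

/-- the base is the same in `X'` -/
theorem base_eq (c : IsComp Pi X a k) (h : PhaseAt Pi X a k z A X') : pre X'.w a = pre X.w a :=
  h.same.fix a c.left

theorem z_notMem (h : PhaseAt Pi X a k z A X') : z ∉ pre X.w a ∪ A := by
  rw [← h.pre]
  exact notMem_pre h.good.wn le_rfl h.atz

theorem pre_succ' (h : PhaseAt Pi X a k z A X') :
    pre X'.w (a + A.card + 1) = insert z (pre X.w a ∪ A) := by
  rw [pre_succ h.atz, h.pre]

end PhaseFAux

open PhaseFAux

/-- every face belongs to a phase: let `S` be the largest set of `F` without `z` (if there is one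
and it is not contained in `base`); it contains `base` and is contained in `pre X.w (a + k)`, since
it is comparable with these fixed sets and does not contain `z`. -/
theorem exists_phase (g : Good Pi X) (c : IsComp Pi X a k)
    (hz : ∃ i, i < k ∧ X.w[a + i]? = some z) {F : Face} (hF : AF Pi X F) :
    ∃ A ∈ (compS X a k z).powerset, az (pre X.w a) z F = pre X.w a ∪ A := by
  obtain ⟨i, hi, hiz⟩ := hz
  refine ⟨az (pre X.w a) z F \ pre X.w a, ?_, ?_⟩
  · rw [mem_powerset]
    intro x hx
    obtain ⟨hx1, hx2⟩ := mem_sdiff.1 hx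
    rcases mem_az.1 hx1 with h | ⟨S, hS, hzS, hxS⟩
    · exact absurd h hx2
    · unfold compS
      refine mem_erase.2 ⟨fun hc => hzS (hc ▸ hxS), mem_sdiff.2 ⟨?_, hx2⟩⟩
      rcases (hF.2.1 S hS).2.2 (a + k) c.right with h | h
      · exact h hxS
      · exact absurd (h (mem_pre.2 ⟨a + i, by omega, hiz⟩)) hzS
  · ext x
    rw [mem_union, mem_sdiff]
    constructor
    · intro hx
      by_cases h : x ∈ pre X.w a
      · exact Or.inl h
      · exact Or.inr ⟨hx, h⟩
    · rintro (h | h)
      · exact mem_az.2 (Or.inl h)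
      · exact h.1

/-- the faces of the phase `∅` -/
theorem phase_zero (g : Good Pi X) (c : IsComp Pi X a k) (h : PhaseAt Pi X a k z ∅ X')
    {F : Face} :
    (AF Pi X F ∧ az (pre X.w a) z F = pre X.w a ∪ ∅) ↔ AF (subPi Pi a 0) X' F := by
  have hz0 : z ∉ pre X.w a := by
    have := z_notMem h
    rwa [union_empty] at this
  have hs : pre X'.w (a + 1) = insert z (pre X.w a) := by
    have := pre_succ' h
    rwa [union_empty, card_empty, add_zero] at this
  have hsame : Same Pi X X' := by
    have := h.same
    rw [card_empty] at this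
    unfold top at this
    simpa using this
  have hb : pre X'.w a = pre X.w a := base_eq c h
  rw [AF_same hsame]
  constructor
  · rintro ⟨hF, haz⟩
    refine ⟨hF.1, fun S hS => ?_, hF.2.2⟩
    obtain ⟨h1, h2, h3⟩ := hF.2.1 S hS
    refine ⟨h1, h2, fun b hbn => ?_⟩
    rcases notSub_iff hbn with hb' | hb' | hb'
    · exact h3 b hb'
    · rw [hb', add_zero]
      exact h3 a c.left
    · rw [hb', add_zero, hs]
      by_cases hzS : z ∈ S
      · right
        rcases h3 a c.left with h4 | h4
        · exact absurd (hb ▸ h4 hzS) hz0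
        · rw [hb] at h4
          exact insert_subset hzS h4
      · left
        have h5 := sub_az (base := pre X.w a) hS hzS
        rw [haz, union_empty] at h5
        exact h5.trans (subset_insert _ _)
  · rintro ⟨h1, h2, h3⟩
    refine ⟨⟨h1, fun S hS => ?_, h3⟩, ?_⟩
    · obtain ⟨h4, h5, h6⟩ := h2 S hS
      exact ⟨h4, h5, fun b hbn => h6 b (notSub 0 hbn)⟩
    · ext x
      rw [mem_az, union_empty]
      constructor
      · rintro (h4 | ⟨S, hS, hzS, hxS⟩)
        · exact h4
        · rcases (h2 S hS).2.2 (a + 0 + 1) (notSub2 0) with h5 | h5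
          · rw [add_zero, hs] at h5
            rcases mem_insert.1 (h5 hxS) with h6 | h6
            · exact absurd (h6 ▸ hxS) hzS
            · exact h6
          · rw [add_zero, hs] at h5
            exact absurd (h5 (mem_insert_self _ _)) hzS
      · exact Or.inl

/-- the faces of the phase `A ≠ ∅`: `S = base ∪ A` is the largest set of `F` without `z`, the
others form a face of `(subPi, X')` or the empty chain -/
theorem phase_pos (g : Good Pi X) (c : IsComp Pi X a k) (h : PhaseAt Pi X a k z A X')
    (hn : A.Nonempty) {F : Face} :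
    (AF Pi X F ∧ az (pre X.w a) z F = pre X.w a ∪ A) ↔
      ∃ F', (F' = ∅ ∨ AF (subPi Pi a A.card) X' F') ∧ F = insert (pre X.w a ∪ A) F' := by
  have hzM := z_notMem h
  have hs := pre_succ' h
  have hpre := h.pre
  have hb : pre X'.w a = pre X.w a := base_eq c h
  obtain ⟨M, hM⟩ : ∃ M, M = pre X.w a ∪ A := ⟨_, rfl⟩
  rw [← hM] at hzM hs hpre ⊢
  have hAc : 0 < A.card := card_pos.2 hn
  have htop : top a A.card = [a + A.card] := by
    unfold top
    rw [if_neg hAc.ne']
  have hsame := h.same
  rw [htop] at hsame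
  have hg := hsame.good g
  have hlt : a + A.card < X'.w.length := hg.lt _ (by simp)
  have hMc : M.card = a + A.card := by
    rw [← hpre]
    exact pre_card h.good.wn hlt.le
  have hMok : OKS Pi ⟨X'.w, X'.s ++ [a + A.card]⟩ M := by
    have := OKS_pre hg (b := a + A.card) (by simp)
    rwa [hpre] at this
  constructor
  · rintro ⟨hF, haz⟩
    rw [AF_same hsame] at hF
    -- `M` belongs to `F`
    have hMF : M ∈ F := by
      obtain ⟨x, hx⟩ := hn
      have hxM : x ∈ az (pre X.w a) z F := by
        rw [haz, hM]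
        exact mem_union_right _ hx
      have hxb : x ∉ pre X.w a := fun hc => (disjoint_left.1 h.disj hc) hx
      have hne : (F.filter fun S => z ∉ S).Nonempty := by
        rcases mem_az.1 hxM with h1 | ⟨S, hS, hzS, -⟩
        · exact absurd h1 hxb
        · exact ⟨S, mem_filter.2 ⟨hS, hzS⟩⟩
      obtain ⟨S0, hS0, hmax⟩ := exists_max_image _ (fun S : Finset ℕ => S.card) hne
      obtain ⟨hS0F, hzS0⟩ := mem_filter.1 hS0
      have hall : ∀ S ∈ F, z ∉ S → S ⊆ S0 := by
        intro S hS hzS
        rcases hF.2.2 S hS S0 hS0F with h1 | h1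
        · exact h1
        · have h2 := hmax S (mem_filter.2 ⟨hS, hzS⟩)
          exact (eq_of_subset_of_card_le h1 h2).symm ▸ Subset.refl _
      have hxS0 : x ∈ S0 := by
        rcases mem_az.1 hxM with h1 | ⟨S, hS, hzS, hxS⟩
        · exact absurd h1 hxb
        · exact hall S hS hzS hxS
      have hbS0 : pre X.w a ⊆ S0 := by
        rcases (hF.2.1 S0 hS0F).2.2 a c.left with h1 | h1
        · have h1' : S0 ⊆ pre X'.w a := h1
          rw [hb] at h1'
          exact absurd (h1' hxS0) hxb
        · have h1' : pre X'.w a ⊆ S0 := h1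
          rwa [hb] at h1'
      have hS0M : S0 = M := by
        rw [← haz]
        apply Subset.antisymm (sub_az hS0F hzS0)
        intro y hy
        rcases mem_az.1 hy with h1 | ⟨S, hS, hzS, hyS⟩
        · exact hbS0 h1
        · exact hall S hS hzS hyS
      exact hS0M ▸ hS0F
    refine ⟨F.erase M, ?_, (insert_erase hMF).symm⟩
    by_cases hemp : F.erase M = ∅
    · exact Or.inl hemp
    · right
      refine ⟨nonempty_iff_ne_empty.2 hemp, fun S hS => ?_, fun S hS T hT =>
        hF.2.2 S (mem_of_mem_erase hS) T (mem_of_mem_erase hT)⟩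
      obtain ⟨hSM, hSF⟩ := mem_erase.1 hS
      obtain ⟨h1, h2, h3⟩ := hF.2.1 S hSF
      refine ⟨?_, h2, fun b hbn => ?_⟩
      · have h4 : S.card ∈ X'.s ++ [a + A.card] := h1
        rcases List.mem_append.1 h4 with h5 | h5
        · exact h5
        · exfalso
          have h6 : S.card = a + A.card := by simpa using h5
          rcases hF.2.2 S hSF M hMF with h7 | h7
          · exact hSM (eq_of_subset_of_card_le h7 (by omega))
          · exact hSM (eq_of_subset_of_card_le h7 (by omega)).symm
      · rcases notSub_iff hbn with hb' | hb' | hb'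
        · exact h3 b hb'
        · rw [hb', hpre]
          exact hF.2.2 S hSF M hMF
        · rw [hb', hs]
          by_cases hzS : z ∈ S
          · right
            rcases hF.2.2 S hSF M hMF with h7 | h7
            · exact absurd (h7 hzS) hzM
            · exact insert_subset hzS h7
          · left
            have h7 := sub_az (base := pre X.w a) hSF hzS
            rw [haz] at h7
            exact h7.trans (subset_insert _ _)
  · rintro ⟨F', hF', rfl⟩
    -- all sets of `F'` are allowed and comparable with `M` and `insert z M`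
    have key : ∀ S ∈ F', OKS Pi ⟨X'.w, X'.s ++ [a + A.card]⟩ S ∧ (S ⊆ M ∨ M ⊆ S) ∧
        (S ⊆ insert z M ∨ insert z M ⊆ S) := by
      intro S hS
      rcases hF' with h1 | h1
      · rw [h1] at hS
        exact absurd hS (notMem_empty _)
      · obtain ⟨h2, h3, h4⟩ := h1.2.1 S hS
        refine ⟨⟨List.mem_append_left _ h2, h3, fun b hbn => h4 b (notSub _ hbn)⟩, ?_, ?_⟩
        · have := h4 (a + A.card) (notSub1 _)
          rwa [hpre] at this
        · have := h4 (a + A.card + 1) (notSub2 _)
          rwa [hs] at this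
    have hchain : ∀ S ∈ F', ∀ T ∈ F', S ⊆ T ∨ T ⊆ S := by
      intro S hS T hT
      rcases hF' with h1 | h1
      · rw [h1] at hS
        exact absurd hS (notMem_empty _)
      · exact h1.2.2 S hS T hT
    refine ⟨?_, ?_⟩
    · rw [AF_same hsame]
      refine ⟨insert_nonempty _ _, fun S hS => ?_, fun S hS T hT => ?_⟩
      · rcases mem_insert.1 hS with h1 | h1
        · rw [h1]
          exact hMok
        · exact (key S h1).1
      · rcases mem_insert.1 hS with h1 | h1 <;> rcases mem_insert.1 hT with h2 | h2
        · left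
          rw [h1, h2]
        · rw [h1]
          exact (key T h2).2.1.symm
        · rw [h2]
          exact (key S h1).2.1
        · exact hchain S h1 T h2
    · apply Subset.antisymm
      · intro x hx
        rcases mem_az.1 hx with h1 | ⟨S, hS, hzS, hxS⟩
        · rw [hM]
          exact mem_union_left _ h1
        · rcases mem_insert.1 hS with h2 | h2
          · rwa [← h2]
          · rcases (key S h2).2.2 with h3 | h3
            · rcases mem_insert.1 (h3 hxS) with h4 | h4
              · exact absurd (h4 ▸ hxS) hzS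
              · exact h4
            · exact absurd (h3 (mem_insert_self _ _)) hzS
      · exact sub_az (mem_insert_self _ _) hzM

/-- the set of the phase does not occur in the faces of `(subPi, X')` -/
theorem phase_notMem (g : Good Pi X) (c : IsComp Pi X a k) (h : PhaseAt Pi X a k z A X')
    (hn : A.Nonempty) {F' : Face} (hF : AF (subPi Pi a A.card) X' F') :
    pre X.w a ∪ A ∉ F' := by
  intro hc
  have hAc : 0 < A.card := card_pos.2 hn
  have htop : top a A.card = [a + A.card] := by
    unfold top
    rw [if_neg hAc.ne']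
  have hsame := h.same
  rw [htop] at hsame
  have hg := hsame.good g
  have hlt : a + A.card < X'.w.length := hg.lt _ (by simp)
  have hMc : (pre X.w a ∪ A).card = a + A.card := by
    rw [← h.pre]
    exact pre_card h.good.wn hlt.le
  have h1 : (pre X.w a ∪ A).card ∈ X'.s := (hF.2.1 _ hc).1
  rw [hMc] at h1
  have h2 : (X'.s ++ [a + A.card]).Nodup := hg.sn
  rw [List.nodup_append] at h2
  exact h2.2.2 _ h1 _ (by simp) rfl

/-- a strip of a phase ends in a flag of the phase -/
theorem PhaseAt.strip (g : Good Pi X) (c : IsComp Pi X a k) (h : PhaseAt Pi X a k z A X')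
    {Y' : Fl} (hs : Strip (subPi Pi a A.card) X' Y') : PhaseAt Pi X a k z A Y' := by
  have hsm : Same (subPi Pi a A.card) X' Y' := Strip.same h.good hs
  refine
    { good := hsm.good h.good
      same := ?_
      lt := h.lt
      atz := ?_
      disj := h.disj
      pre := ?_ }
  · refine ⟨hsm.w.trans h.same.w, ?_, fun b hb => ?_⟩
    · exact (List.Perm.append_right _ hsm.s).trans h.same.s
    · exact (hsm.fix b (notSub _ hb)).trans (h.same.fix b hb)
  · rw [← h.atz]
    exact hsm.getElem h.good (notSub1 _) (notSub2 _)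
  · rw [← h.pre]
    exact hsm.fix _ (notSub1 _)

end

end Pool.Agent.RS
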