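import Pool.Agent.RS.RepDefs

/-!
# RS module RepA: start of a path check, class of the bottom bar
-/

set_option autoImplicit false

namespace Pool.Agent.RS

open Finset

section

variable {Pi : Finset ℕ} {X X' : Fl} {bl : List (ℕ × ℕ)} {K a k z β : ℕ}
  {vis : Finset (Finset ℕ)} {A : Finset ℕ} {s s' : PS}

namespace RepAAux

theorem mem_bl (h : Ctx Pi X bl K a k z β) : (a, k) ∈ bl := List.mem_of_getElem? h.hK

theorem two_le (h : Ctx Pi X bl K a k z β) : 2 ≤ k := h.h2 _ (mem_bl h)

theorem isComp (h : Ctx Pi X bl K a k z β) : IsComp Pi X a k :=
  h.hb.comp _ (mem_bl h) (by have := two_le h; show 1 ≤ k; omega)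

theorem getD_bl (h : Ctx Pi X bl K a k z β) : bl.getD K (0, 0) = (a, k) := by
  rw [List.getD_eq_getElem?_getD, h.hK]
  rfl

theorem ks_getD (h : Ctx Pi X bl K a k z β) : (bl.map Prod.snd).getD K 0 = k := by
  rw [List.getD_eq_getElem?_getD, List.getElem?_map, h.hK]
  rfl

theorem bl_split (h : Ctx Pi X bl K a k z β) : bl = bl.take K ++ (a, k) :: bl.drop (K + 1) := by
  obtain ⟨hlt, he⟩ := List.getElem?_eq_some_iff.1 h.hK
  conv_lhs => rw [← List.take_append_drop K bl, List.drop_eq_getElem_cons hlt, he]

theorem map_range_getD (l : List ℕ) : (List.range l.length).map (fun i => l.getD i 0) = l := by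
  apply List.ext_getElem
  · simp
  · intro i h1 h2
    simp [List.getD_eq_getElem?_getD, List.getElem?_eq_getElem h2]

theorem zipWith_range (w : List ℕ) (l : List (ℕ × ℕ)) (hl : ∀ p ∈ l, p.1 + p.2 ≤ w.length) :
    List.zipWith (fun (m τ : List ℕ) => τ.map (fun i => m.getD i 0)) (segs w l)
      ((l.map Prod.snd).map List.range) = segs w l := by
  unfold segs
  induction l with
  | nil => rfl
  | cons p l ih =>
    rw [List.map_cons, List.map_cons, List.map_cons, List.zipWith_cons_cons,
      ih fun q hq => hl q (List.mem_cons_of_mem _ hq)]
    congr 1
    have h1 := hl p List.mem_cons_self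
    have h2 : ((w.drop p.1).take p.2).length = p.2 := by
      rw [List.length_take, List.length_drop]
      omega
    have h3 := map_range_getD ((w.drop p.1).take p.2)
    rw [h2] at h3
    exact h3

theorem subBl_zero (h : Ctx Pi X bl K a k z β) :
    subBl bl K 0 = bl.take K ++ (a, 0) :: (a + 1, k - 1) :: bl.drop (K + 1) := by
  unfold subBl
  rw [getD_bl h]
  rfl

theorem bl_le (h : Ctx Pi X bl K a k z β) : ∀ p ∈ bl, p.1 + p.2 ≤ X.w.length := fun p hp =>
  (h.hb.comp p hp (by have := h.h2 p hp; omega)).le

theorem take_sum_mono (l : List ℕ) {m n : ℕ} (h : m ≤ n) : (l.take m).sum ≤ (l.take n).sum := by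
  have e : l.take m = (l.take n).take m := by rw [List.take_take, min_eq_left h]
  rw [e]
  have h2 : ((l.take n).take m).sum + ((l.take n).drop m).sum = (l.take n).sum :=
    List.sum_take_add_sum_drop _ _
  omega

theorem take_sum_succ (l : List ℕ) (c : ℕ) : (l.take (c + 1)).sum = (l.take c).sum + l.getD c 0 := by
  rw [List.take_add_one, List.sum_append, List.getD_eq_getElem?_getD]
  rcases l[c]? with _ | x
  · rfl
  · simp

theorem movL_ne (_h : Ctx Pi X bl K a k z β) {b : ℕ} (hb : b ∈ movL 0 (bl.map Prod.snd)) :
    b ≠ ((bl.take K).map Prod.snd).sum := by
  rw [mem_movL] at hb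
  obtain ⟨c, i, hi, hi2, rfl⟩ := hb
  rw [List.map_take]
  intro e
  rcases Nat.lt_or_ge c K with hc | hc
  · have h1 := take_sum_mono (bl.map Prod.snd) (Nat.succ_le_of_lt hc)
    have h2 := take_sum_succ (bl.map Prod.snd) c
    rw [Nat.succ_eq_add_one] at h1
    omega
  · have h1 := take_sum_mono (bl.map Prod.snd) hc
    omega

end RepAAux

open RepAAux

theorem rep_init (h : Ctx Pi X bl K a k z β) :
    Rep Pi X bl K a k z β ∅ ∅ X (initP (bl.map Prod.snd) K) := by
  have hc := isComp h
  have hk := two_le h
  have hle := bl_le h
  have hKlen : K < bl.length := (List.getElem?_eq_some_iff.1 h.hK).1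
  have htl : (bl.take K).length = K := by rw [List.length_take]; omega
  have hw : ((X.w.drop a).take k).length = k := by
    rw [List.length_take, List.length_drop]
    have := hc.le
    omega
  have hsegK : (segs X.w bl).getD K [] = (X.w.drop a).take k := by
    unfold segs
    rw [List.getD_eq_getElem?_getD, List.getElem?_map, h.hK]
    rfl
  have hdupl : dupl K (segs X.w bl) = segs X.w (bl.take K) ++
      (((X.w.drop a).take k) :: ((X.w.drop a).take k) :: segs X.w (bl.drop (K + 1))) := by
    unfold dupl
    rw [hsegK]
    unfold segs
    rw [List.map_take, List.map_drop]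
  have hP : (initP (bl.map Prod.snd) K).P = ((bl.take K).map Prod.snd).map List.range ++
      ([] :: (List.range k).tail :: ((bl.drop (K + 1)).map Prod.snd).map List.range) := by
    unfold initP
    simp only [ks_getD h, List.map_take, List.map_drop]
  refine
    { ph := phaseAt_init h.g hc h.hz
      run := ?_
      notvis := Finset.notMem_empty _
      sub := fun B hB => absurd hB (Finset.notMem_empty _)
      words := ?_
      len := ?_
      idx := ?_
      masks := ?_
      count := ?_
      first := fun _ => ⟨rfl, rfl, rfl⟩
      notfirst := ?_
      lastU := ?_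
      lastL := ?_ }
  · have h0 : top a (∅ : Finset ℕ).card = [] := rfl
    rw [h0, List.append_nil]
    exact runS_init h.g hc
  · rw [Finset.card_empty, subBl_zero h, hdupl, hP]
    rw [List.zipWith_append (by simp [segs]), List.zipWith_cons_cons, List.zipWith_cons_cons,
      zipWith_range _ _ (fun p hp => hle p (List.mem_of_mem_take hp)),
      zipWith_range _ _ (fun p hp => hle p (List.mem_of_mem_drop hp))]
    have e1 : (List.range k).tail.map (fun i => ((X.w.drop a).take k).getD i 0) =
        (X.w.drop (a + 1)).take (k - 1) := by
      have h3 := map_range_getD ((X.w.drop a).take k)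
      rw [hw] at h3
      rw [List.map_tail, h3, ← List.drop_one, List.drop_take, List.drop_drop]
    rw [e1]
    unfold segs
    rw [List.map_append, List.map_cons, List.map_cons]
    rfl
  · rw [Finset.card_empty, subBl_zero h, hP]
    simp [List.map_map, Function.comp_def]
  · rw [hP, hdupl]
    have key : ∀ (l : List (ℕ × ℕ)), (∀ p ∈ l, p.1 + p.2 ≤ X.w.length) → ∀ c : ℕ,
        ∀ i ∈ (((l.map Prod.snd).map List.range).getD c []),
        i < ((segs X.w l).getD c []).length := by
      intro l hl c i hi
      unfold segs
      rw [List.getD_eq_getElem?_getD, List.getElem?_map, List.getElem?_map] at hi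
      rw [List.getD_eq_getElem?_getD, List.getElem?_map]
      rcases hlc : l[c]? with _ | p
      · rw [hlc] at hi
        simp at hi
      · rw [hlc] at hi
        have h1 := hl p (List.mem_of_getElem? hlc)
        simp only [Option.map_some, Option.getD_some, List.mem_range] at hi
        simp only [Option.map_some, Option.getD_some, List.length_take, List.length_drop]
        omega
    have hl1 : (((bl.take K).map Prod.snd).map List.range).length = K := by
      rw [List.length_map, List.length_map, htl]
    have hl2 : (segs X.w (bl.take K)).length = K := by
      unfold segs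
      rw [List.length_map, htl]
    intro c i hi
    rcases Nat.lt_or_ge c K with hcK | hcK
    · rw [List.getD_append _ _ _ _ (by rw [hl1]; exact hcK)] at hi
      rw [List.getD_append _ _ _ _ (by rw [hl2]; exact hcK)]
      exact key _ (fun p hp => hle p (List.mem_of_mem_take hp)) c i hi
    · rw [List.getD_append_right _ _ _ _ (by rw [hl1]; exact hcK), hl1] at hi
      rw [List.getD_append_right _ _ _ _ (by rw [hl2]; exact hcK), hl2]
      rcases hcK' : c - K with _ | _ | c'
      · rw [hcK'] at hi
        simp at hi
      · rw [hcK', List.getD_cons_succ, List.getD_cons_zero] at hi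
        rw [List.getD_cons_succ, List.getD_cons_zero, hw]
        exact List.mem_range.1 (List.mem_of_mem_tail hi)
      · rw [hcK', List.getD_cons_succ, List.getD_cons_succ] at hi
        rw [List.getD_cons_succ, List.getD_cons_succ]
        exact key _ (fun p hp => hle p (List.mem_of_mem_drop hp)) c' i hi
  · intro B hB
    have hB' : B = ∅ := by simpa using hB
    subst hB'
    have : maskF ((segs X.w bl).getD K []) ∅ = 0 := by
      unfold maskF
      simp
    rw [this]
    exact List.mem_singleton.2 rfl
  · rfl
  · intro h0
    exact Bool.noConfusion (show true = false from h0)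
  · intro h0
    exact Bool.noConfusion (show true = false from h0)
  · intro h0
    exact Bool.noConfusion (show false = true from h0)

/-- the class of the bottom bar in the first phase (`q` = sum of the sizes before `K`) -/
theorem cls_first (h : Ctx Pi X bl K a k z β) {c : Option ℕ} (hc : ClsCtx Pi X bl c) :
    Cls (subPi Pi a 0) X ((subBl bl K 0).filter (fun p => 2 ≤ p.2))
      (subCls (((bl.take K).map Prod.snd).sum) k c) := by
  have hk := two_le h
  have hKlen : K < bl.length := (List.getElem?_eq_some_iff.1 h.hK).1
  have hsub : ∀ x, x ∉ Pi → x ∉ subPi Pi a 0 := by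
    intro x hx hm
    unfold subPi at hm
    exact hx (Finset.mem_of_mem_erase (Finset.mem_of_mem_erase hm))
  obtain ⟨h1, h2⟩ := hc
  rcases c with _ | b
  · obtain ⟨b, t, hX, hb⟩ := h1
    exact ⟨b, t, hX, hsub b hb⟩
  · have hhead : X.s.head? = some ((pos bl).getD b 0) := h1
    have hmov := h2 b rfl
    -- the list of the blocks of size at least two
    have hF : (subBl bl K 0).filter (fun p => 2 ≤ p.2) =
        bl.take K ++ ((if k = 2 then [] else [(a + 1, k - 1)]) ++ bl.drop (K + 1)) := by
      rw [subBl_zero h, List.filter_append, List.filter_cons, List.filter_cons]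
      have e1 : (bl.take K).filter (fun p => decide (2 ≤ p.2)) = bl.take K := by
        rw [List.filter_eq_self]
        intro p hp
        exact decide_eq_true (h.h2 p (List.mem_of_mem_take hp))
      have e2 : (bl.drop (K + 1)).filter (fun p => decide (2 ≤ p.2)) = bl.drop (K + 1) := by
        rw [List.filter_eq_self]
        intro p hp
        exact decide_eq_true (h.h2 p (List.mem_of_mem_drop hp))
      rw [e1, e2]
      by_cases hk2 : k = 2
      · rw [if_pos hk2, if_neg (by simp), if_neg (by simp; omega)]
        rfl
      · rw [if_neg hk2, if_neg (by simp), if_pos (by simp; omega)]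
        rfl
    have hposbl : pos bl = pos (bl.take K) ++ ((List.range k).map (fun i => a + i) ++
        pos (bl.drop (K + 1))) := by
      conv_lhs => rw [bl_split h]
      unfold pos
      rw [List.flatMap_append, List.flatMap_cons]
    have hq : (pos (bl.take K)).length = ((bl.take K).map Prod.snd).sum := pos_length
    have hbq := movL_ne h hmov
    generalize ((bl.take K).map Prod.snd).sum = q at hq hbq ⊢
    have hposF : pos ((subBl bl K 0).filter (fun p => 2 ≤ p.2)) = pos (bl.take K) ++
        ((if k = 2 then [] else (List.range (k - 1)).map (fun i => a + 1 + i)) ++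
        pos (bl.drop (K + 1))) := by
      rw [hF]
      unfold pos
      rw [List.flatMap_append, List.flatMap_append]
      by_cases hk2 : k = 2
      · rw [if_pos hk2, if_pos hk2]
        rfl
      · rw [if_neg hk2, if_neg hk2, List.flatMap_cons, List.flatMap_nil, List.append_nil]
    rw [hposbl] at hhead
    rcases Nat.lt_or_ge b q with hb | hb
    · -- a block before `K`
      have e : subCls q k (some b) = some b := by
        show (if b < q then some b else _) = some b
        rw [if_pos hb]
      rw [e]
      show X.s.head? = some ((pos ((subBl bl K 0).filter (fun p => 2 ≤ p.2))).getD b 0)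
      rw [hhead, hposF, List.getD_append _ _ _ _ (by rw [hq]; exact hb),
        List.getD_append _ _ _ _ (by rw [hq]; exact hb)]
    · rw [List.getD_append_right _ _ _ _ (by rw [hq]; exact hb), hq] at hhead
      by_cases hb1 : b = q + 1
      · -- the first bar of the component
        have e : subCls q k (some b) = none := by
          show (if b < q then some b else if b = q + 1 then none else _) = none
          rw [if_neg (by omega), if_pos hb1]
        rw [e]
        have e2 : b - q = 1 := by omega
        rw [e2, List.getD_append _ _ _ _ (by simp; omega)] at hhead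
        have e3 : ((List.range k).map (fun i => a + i)).getD 1 0 = a + 1 := by
          rw [List.getD_eq_getElem?_getD, List.getElem?_map, List.getElem?_range (by omega)]
          rfl
        rw [e3] at hhead
        rcases hX : X.s with _ | ⟨b', t⟩
        · rw [hX] at hhead
          simp at hhead
        · rw [hX] at hhead
          have hb' : b' = a + 1 := by simpa using hhead
          refine ⟨b', t, hX, ?_⟩
          rw [hb']
          unfold subPi
          exact Finset.notMem_erase _ _
      · rcases Nat.lt_or_ge b (q + k) with hbk | hbk
        · -- another bar of the component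
          have e : subCls q k (some b) = some (b - 1) := by
            show (if b < q then some b else if b = q + 1 then none else
              if b < q + k then some (b - 1) else _) = some (b - 1)
            rw [if_neg (by omega), if_neg hb1, if_pos hbk]
          rw [e]
          show X.s.head? = some ((pos ((subBl bl K 0).filter (fun p => 2 ≤ p.2))).getD (b - 1) 0)
          rw [hhead, hposF, if_neg (by omega : ¬ k = 2),
            List.getD_append _ _ _ _ (by simp; omega),
            List.getD_append_right _ _ _ _ (by rw [hq]; omega), hq,
            List.getD_append _ _ _ _ (by simp; omega)]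
          rw [List.getD_eq_getElem?_getD, List.getElem?_map, List.getElem?_range (by omega),
            List.getD_eq_getElem?_getD, List.getElem?_map, List.getElem?_range (by omega)]
          simp only [Option.map_some, Option.getD_some]
          congr 1
          omega
        · -- a block after `K`
          have e : subCls q k (some b) = some (b - (if k = 2 then 2 else 1)) := by
            show (if b < q then some b else if b = q + 1 then none else
              if b < q + k then some (b - 1) else some (b - (if k = 2 then 2 else 1))) = _
            rw [if_neg (by omega), if_neg hb1, if_neg (by omega)]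
          rw [e]
          show X.s.head? = some ((pos ((subBl bl K 0).filter (fun p => 2 ≤ p.2))).getD
            (b - (if k = 2 then 2 else 1)) 0)
          rw [hhead, hposF, List.getD_append_right _ _ _ _ (by simp; omega)]
          by_cases hk2 : k = 2
          · rw [if_pos hk2, if_pos hk2, List.nil_append,
              List.getD_append_right _ _ _ _ (by rw [hq]; omega), hq]
            congr 2
            simp only [List.length_map, List.length_range]
            omega
          · rw [if_neg hk2, if_neg hk2,
              List.getD_append_right _ _ _ _ (by rw [hq]; omega), hq,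
              List.getD_append_right _ _ _ _ (by simp; omega)]
            congr 2
            simp only [List.length_map, List.length_range]
            omega

/-- the bottom bar of the start flag of a phase which is not the first one is an ε-bar -/
theorem Rep.headEps (h : Ctx Pi X bl K a k z β) (r : Rep Pi X bl K a k z β vis A X' s)
    (hs : s.first = false) : HeadEps (subPi Pi a A.card) X' := by
  cases hL : s.lastL with
  | true =>
    obtain ⟨_, σ, hσ⟩ := r.lastL hL
    refine ⟨_, _, hσ, ?_⟩
    unfold subPi
    exact Finset.notMem_erase _ _
  | false =>
    obtain ⟨γ, _, hγ, hh⟩ := r.lastU hs hL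
    rcases hX : X'.s with _ | ⟨b, t⟩
    · rw [hX] at hh
      simp at hh
    · rw [hX] at hh
      have hb : b = γ := by simpa using hh
      refine ⟨b, t, hX, ?_⟩
      rw [hb]
      intro hm
      unfold subPi at hm
      exact hγ (Finset.mem_of_mem_erase (Finset.mem_of_mem_erase hm))

/-- number of bars in the phase -/
theorem Rep.five_le (h : Ctx Pi X bl K a k z β) (r : Rep Pi X bl K a k z β vis A X' s) :
    5 ≤ X'.s.length ∧ (s.first = true → 6 ≤ X'.s.length) := by
  have h1 := PhaseAt.slength h.g (isComp h) r.ph
  have h6 := h.six
  constructor
  · split_ifs at h1 <;> omega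
  · intro hf
    obtain ⟨_, _, hX⟩ := r.first hf
    rw [hX]
    exact h6

end

end Pool.Agent.RS
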