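import Pool.Agent.RS.RepA

/-!
# RS module RepB: use of a fact in a phase
-/

set_option autoImplicit false

namespace Pool.Agent.RS

open Finset

namespace RepBAux

theorem appF_small (t : List (List ℕ)) (p : List ℕ) (ps : List (List ℕ)) (h : p.length < 2) :
    appF t (p :: ps) = p :: appF t ps := by
  cases t <;> simp [appF, h]

theorem appF_big (τ : List ℕ) (t : List (List ℕ)) (p : List ℕ) (ps : List (List ℕ))
    (h : ¬p.length < 2) :
    appF (τ :: t) (p :: ps) = (τ.map (fun i => p.getD i 0)) :: appF t ps := by
  simp [appF, h]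

theorem appF_zip (t : List (List ℕ)) (ht : ∀ τ ∈ t, ∀ i ∈ τ, i < τ.length)
    (P D : List (List ℕ)) (hP : t.map List.length = sizes2 P) :
    appF t (List.zipWith (fun m τ => τ.map (fun i => m.getD i 0)) D P) =
      List.zipWith (fun m τ => τ.map (fun i => m.getD i 0)) D (appF t P) := by
  induction P generalizing t D with
  | nil => simp [appF]
  | cons p ps ih =>
    cases D with
    | nil => simp [appF]
    | cons m ds =>
      rw [List.zipWith_cons_cons]
      by_cases hp : p.length < 2
      · have h1 : sizes2 (p :: ps) = sizes2 ps := by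
          unfold sizes2
          rw [List.map_cons, List.filter_cons_of_neg]
          simpa using hp
        rw [h1] at hP
        rw [appF_small _ _ _ (by simpa using hp), appF_small _ _ _ hp, List.zipWith_cons_cons,
          ih t ht ds hP]
      · have h1 : sizes2 (p :: ps) = p.length :: sizes2 ps := by
          unfold sizes2
          rw [List.map_cons, List.filter_cons_of_pos]
          simpa using (not_lt.1 hp)
        rw [h1] at hP
        cases t with
        | nil => simp at hP
        | cons τ t' =>
          rw [List.map_cons, List.cons.injEq] at hP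
          rw [appF_big _ _ _ _ (by simpa using hp), appF_big _ _ _ _ hp,
            List.zipWith_cons_cons, ih t' (fun σ hσ => ht σ (List.mem_cons_of_mem _ hσ)) ds hP.2]
          congr 1
          rw [List.map_map]
          apply List.map_congr_left
          intro i hi
          have h2 : i < p.length := by
            rw [← hP.1]
            exact ht τ (List.mem_cons_self) i hi
          have h3 : i < (p.map (fun i => m.getD i 0)).length := by simpa using h2
          rw [List.getD_eq_getElem _ _ h3, List.getElem_map, Function.comp_apply,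
            List.getD_eq_getElem _ _ h2]

theorem perm_lt {τ : List ℕ} (h : ∀ i < τ.length, i ∈ τ) : ∀ i ∈ τ, i < τ.length := by
  have h1 : (List.range τ.length).Subperm τ := by
    apply List.subperm_of_subset List.nodup_range
    intro i hi
    exact h i (List.mem_range.1 hi)
  have h2 : (List.range τ.length).Perm τ := by
    apply h1.perm_of_length_le
    simp
  intro i hi
  exact List.mem_range.1 (h2.mem_iff.2 hi)

theorem okF_t {f : Fact} (h : okF f = true) :
    f.t.map List.length = f.ks ∧ ∀ τ ∈ f.t, ∀ i ∈ τ, i < τ.length := by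
  unfold okF at h
  simp only [Bool.and_eq_true] at h
  obtain ⟨⟨⟨⟨-, h2⟩, h3⟩, -⟩, -⟩ := h
  refine ⟨by simpa using h2, fun τ hτ => perm_lt fun i hi => ?_⟩
  rw [List.all_eq_true] at h3
  have h4 := h3 τ hτ
  rw [List.all_eq_true] at h4
  simpa using h4 i (List.mem_range.2 hi)

section

variable {Pi : Finset ℕ} {X X' : Fl} {bl : List (ℕ × ℕ)} {K a k z β : ℕ}
  {vis : Finset (Finset ℕ)} {A : Finset ℕ} {s : PS}

theorem comp (h : Ctx Pi X bl K a k z β) : 1 ≤ k ∧ IsComp Pi X a k := by
  have hm : (a, k) ∈ bl := List.mem_of_getElem? h.hK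
  have hk : 1 ≤ k := le_trans (by norm_num) (h.h2 _ hm)
  exact ⟨hk, h.hb.comp _ hm hk⟩

theorem blk (h : Ctx Pi X bl K a k z β) (r : Rep Pi X bl K a k z β vis A X' s) :
    Blk (subPi Pi a A.card) X' (subBl bl K A.card) :=
  Blk.phase h.g h.hb h.hK (comp h).1 r.ph

theorem sizes (r : Rep Pi X bl K a k z β vis A X' s) :
    ((subBl bl K A.card).filter (fun p => 2 ≤ p.2)).map Prod.snd = sizes2 s.P := by
  unfold sizes2
  rw [r.len, List.filter_map]
  rfl

theorem card_lt (h : Ctx Pi X bl K a k z β) (r : Rep Pi X bl K a k z β vis A X' s) :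
    (subPi Pi a A.card).card < X'.s.length := by
  obtain ⟨h1, h2, -⟩ := r.ph.eps h.g (comp h).2 h.eps.1 h.eps.2
  have h3 : insert β (subPi Pi a A.card) ⊆ X'.s.toFinset := by
    intro b hb
    rw [Finset.mem_insert] at hb
    rw [List.mem_toFinset]
    rcases hb with rfl | hb
    · exact h1
    · exact r.ph.good.sub b hb
  have h4 := Finset.card_le_card h3
  rw [Finset.card_insert_of_notMem h2, List.toFinset_card_of_nodup r.ph.good.sn] at h4
  omega

end

end RepBAux

section

variable {Pi : Finset ℕ} {X X' : Fl} {bl : List (ℕ × ℕ)} {K a k z β : ℕ}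
  {vis : Finset (Finset ℕ)} {A : Finset ℕ} {s s' : PS}

open RepBAux in
/-- a usable fact gives an end of the phase with prescribed lowest bars, with the words `appF` and
the bar with label `tp` on the top -/
theorem Rep.use (h : Ctx Pi X bl K a k z β) (r : Rep Pi X bl K a k z β vis A X' s)
    {c : Option ℕ} (hc : ClsCtx Pi X bl c) {f : Fact} (hf : Holds f)
    (hu : usable (subCls (((bl.take K).map Prod.snd).sum) k c) s f = true) {low : List ℕ}
    (hl : Low (subPi Pi a A.card) X' low) :
    ∃ Y, Strip (subPi Pi a A.card) X' Y ∧ low <+: Y.s ∧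
      segs Y.w (subBl bl K A.card) =
        List.zipWith (fun m τ => τ.map (fun i => m.getD i 0)) (dupl K (segs X.w bl))
          (appF f.t s.P) ∧
      Y.s.getLast? = some ((pos ((subBl bl K A.card).filter (fun p => 2 ≤ p.2))).getD f.tp 0) := by
  obtain ⟨hok, hat⟩ := hf
  obtain ⟨hlen, hidx⟩ := okF_t hok
  unfold usable at hu
  rw [Bool.and_eq_true] at hu
  obtain ⟨hu1, hu2⟩ := hu
  have hks : f.ks = sizes2 s.P := by simpa using hu1
  have h5 := r.five_le h
  have hD : (if f.five then 5 else 6) ≤ X'.s.length := by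
    by_cases hfirst : s.first = true
    · have := h5.2 hfirst
      split_ifs <;> omega
    · rw [if_neg hfirst] at hu2
      simp only [Bool.and_eq_true] at hu2
      rw [if_pos hu2.2]
      exact h5.1
  have hcls : Cls (subPi Pi a A.card) X' ((subBl bl K A.card).filter (fun p => 2 ≤ p.2)) f.cls := by
    by_cases hfirst : s.first = true
    · obtain ⟨hA, -, hX⟩ := r.first hfirst
      rw [if_pos hfirst] at hu2
      have h6 : f.cls = subCls (((bl.take K).map Prod.snd).sum) k c := by simpa using hu2
      have h7 := cls_first h hc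
      rw [h6]
      subst hA hX
      simpa using h7
    · rw [if_neg hfirst] at hu2
      simp only [Bool.and_eq_true] at hu2
      have h6 : f.cls = none := by simpa using hu2.1
      rw [h6]
      exact r.headEps h (by simpa using hfirst)
  obtain ⟨Y, hY1, hY2, hY3, hY4⟩ := hat (subPi Pi a A.card) X'
    ((subBl bl K A.card).filter (fun p => 2 ≤ p.2)) r.ph.good (blk h r).filter
    ((sizes r).trans hks.symm) hD (card_lt h r) hcls low hl
  refine ⟨Y, hY1, hY2, ?_, hY4⟩
  rw [segs_appF r.ph.good (blk h r) (hY1.same r.ph.good) hY3, r.words,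
    appF_zip f.t hidx _ _ (hlen.trans hks)]

open RepBAux in
/-- no component of size `≥ 2` in the phase: `subPi = ∅`; end with prescribed lowest bars which
avoid the bottom bar of the start (`E0`) -/
theorem Rep.use0 (h5 : D05) (h : Ctx Pi X bl K a k z β) (r : Rep Pi X bl K a k z β vis A X' s)
    (h0 : sizes2 s.P = []) {low : List ℕ} (hl : Low (subPi Pi a A.card) X' low)
    (hh : ∀ b ∈ low, X'.s.head? ≠ some b) :
    ∃ Y, Strip (subPi Pi a A.card) X' Y ∧ low <+: Y.s ∧ Y.w = X'.w := by
  have hB := sizes r
  rw [h0, List.map_eq_nil_iff, List.filter_eq_nil_iff] at hB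
  have hempty : subPi Pi a A.card = ∅ := by
    rw [Finset.eq_empty_iff_forall_notMem]
    intro b hb
    obtain ⟨p, hp, h1, h2⟩ := (blk h r).cover b hb
    apply hB p hp
    simp only [decide_eq_true_eq]
    omega
  have g := r.ph.good
  rw [hempty] at g hl ⊢
  have hlen := (r.five_le h).1
  obtain ⟨m, σ, hs⟩ : ∃ m σ, X'.s = m :: σ := by
    rcases hX : X'.s with _ | ⟨m, σ⟩
    · rw [hX] at hlen
      simp at hlen
    · exact ⟨m, σ, rfl⟩
  have h1 : X'.s.head? = some m := by rw [hs]; rfl
  obtain ⟨t, ht1, ht2, -⟩ := E0 h5 (w := X'.w) (s := X'.s) g hlen h1 hl.nd hl.len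
    (fun b hb => ⟨(hl.mem b hb).1, fun hbm => hh b hb (by rw [h1, hbm])⟩)
  exact ⟨⟨X'.w, t⟩, ht1, ht2, rfl⟩

end

end Pool.Agent.RS
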