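import Pool.Agent.RS.Run

/-!
# RS module RunStep: one flip of a run

In `step_U` the bars `[a + n + 1, β]` (`β` a fixed ε-bar of `(Pi, X)`, if there is one) are prescribed
as the lowest bars, so that the start flag of the next phase has the ε-bar `β` at the bottom; after a
transition L the bottom bar is `a + n`, an ε-bar of the new phase.
-/

set_option autoImplicit false

namespace Pool.Agent.RS

open Finset

section

variable {Pi : Finset ℕ} {X : Fl} {a k z : ℕ}

theorem st_init (g : Good Pi X) (c : IsComp Pi X a k) (hz : X.w[a]? = some z) :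
    St Pi X a k z ∅ X where
  ph := phaseAt_init g c hz
  zero := fun _ => rfl
  eps := fun h => absurd h Finset.not_nonempty_empty
  full := fun h => absurd h (by simp)

/-- one flip which adds `x`: end of the phase with `low = [a + n + 1, β]` or `[a + n + 1]` -/
theorem step_U (g : Good Pi X) (c : IsComp Pi X a k) (hz : X.w[a]? = some z)
    {A : Finset ℕ} {X' : Fl} {vis : Finset (Finset ℕ)} (hv : ∀ B ∈ vis, B ⊆ compS X a k z)
    (hst : St Pi X a k z A X') (hr : RunS Pi X a z vis ⟨X'.w, X'.s ++ top a A.card⟩)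
    (hA : A ∉ vis) {x : ℕ} (hx : x ∈ compS X a k z) (hxA : x ∉ A) (hn : insert x A ∉ vis)
    (hU : EUc (subPi Pi a A.card) X' (a + A.card + 1) (k - 1 - A.card)) :
    ∃ X'', St Pi X a k z (insert x A) X'' ∧
      RunS Pi X a z (insert A vis) ⟨X''.w, X''.s ++ top a (insert x A).card⟩ ∧
      X''.w[a + A.card]? = some x := by
  classical
  have hp := hst.ph
  obtain ⟨i, hi, hxi⟩ := (hp.mem_B g c).1 ⟨hx, hxA⟩
  have hnk : A.card + 1 < k := by omega
  have hcard : (insert x A).card = A.card + 1 := Finset.card_insert_of_notMem hxA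
  have hb1 : a + A.card + 1 ∈ X'.s := by
    have h1 : a + A.card + 1 ∈ X.s := g.sub _ (c.mem _ (by omega) (by omega))
    have h2 : a + A.card + 1 ∈ X'.s ++ top a A.card := (hp.same.s.mem_iff).2 h1
    rcases List.mem_append.1 h2 with h3 | h3
    · exact h3
    · unfold top at h3
      split_ifs at h3
      · exact absurd h3 (by simp)
      · have h4 := List.mem_singleton.1 h3
        omega
  have hb2 : a + A.card + 1 ∉ subPi Pi a A.card := by simp [subPi]
  -- the prescribed bars
  obtain ⟨rest, hlow, hrest⟩ : ∃ rest : List ℕ, Low (subPi Pi a A.card) X' ((a + A.card + 1) :: rest) ∧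
      ((∃ β ∈ X.s, β ∉ Pi) → ∃ β ∈ X.s, β ∉ Pi ∧ rest = [β]) := by
    by_cases h : ∃ β ∈ X.s, β ∉ Pi
    · obtain ⟨β, h1, h2⟩ := h
      obtain ⟨h3, h4, h5⟩ := hp.eps g c h1 h2
      refine ⟨[β], ⟨?_, ?_, ?_⟩, fun _ => ⟨β, h1, h2, rfl⟩⟩
      · have h6 := h5 hnk
        simp only [List.nodup_cons, List.mem_singleton, List.not_mem_nil, not_false_eq_true, List.nodup_nil,
          and_true]
        exact fun h => h6 h.symm
      · simp
      · intro b hb
        rcases List.mem_cons.1 hb with rfl | hb
        · exact ⟨hb1, hb2⟩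
        · rw [List.mem_singleton.1 hb]
          exact ⟨h3, h4⟩
    · refine ⟨[], ⟨?_, ?_, ?_⟩, fun h' => absurd h' h⟩
      · simp
      · simp
      · intro b hb
        rw [List.mem_singleton.1 hb]
        exact ⟨hb1, hb2⟩
  obtain ⟨Y', hs, ⟨t, ht⟩, hw⟩ := hU x _ ⟨i, hi, hxi⟩ hlow
  have hp' : PhaseAt Pi X a k z A Y' := hp.strip g c hs
  have hE := runS_phase g c hr hp hv hA hs
  have hv' : ∀ B ∈ insert A vis, B ⊆ compS X a k z := by
    intro B hB
    rcases Finset.mem_insert.1 hB with rfl | hB
    · exact hp.sub g c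
    · exact hv B hB
  have hYs : Y'.s = (a + A.card + 1) :: (rest ++ t) := by
    rw [← ht]
    rfl
  have hn' : insert x A ∉ insert A vis := by
    intro h
    rcases Finset.mem_insert.1 h with h | h
    · exact hxA (h ▸ Finset.mem_insert_self x A)
    · exact hn h
  have hlt : a + A.card + 1 < Y'.w.length := (List.getElem?_eq_some_iff.1 hw).1
  refine ⟨⟨swp Y'.w (a + A.card + 1), (rest ++ t) ++ top a A.card⟩, ⟨?_, ?_, ?_, ?_⟩, ?_, ?_⟩
  · exact phaseAt_U g c hp' hnk hYs hw
  · intro h
    exact absurd h (Finset.insert_ne_empty x A)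
  · intro _ h
    obtain ⟨β, h1, h2, rfl⟩ := hrest h
    refine ⟨β, t ++ top a A.card, by simp, ?_⟩
    intro h3
    unfold subPi at h3
    exact h2 (Finset.mem_of_mem_erase (Finset.mem_of_mem_erase h3))
  · intro h2 _
    rw [hcard] at h2 ⊢
    have h3 : A.card ≠ 0 := by omega
    show ((rest ++ t) ++ top a A.card).getLast? = some (a + (A.card + 1) - 1)
    unfold top
    rw [if_neg h3, List.getLast?_concat]
    congr 1
  · exact runE_U g c hE hp' hv' hnk hYs hw hn'
  · have h1 := swp_left (w := Y'.w) (b := a + A.card + 1) (by omega) hlt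
    rw [hw] at h1
    exact h1

/-- one flip which removes `y`, `2 ≤ A.card`: `y` is not the last letter `λ` of `A` in `X'`;
afterwards `λ` is the last letter of `A \ {y}` and `y` is the first letter after `z`, and the bottom
bar is `a + (A.erase y).card + 1` -/
theorem step_L (g : Good Pi X) (c : IsComp Pi X a k) (hz : X.w[a]? = some z)
    {A : Finset ℕ} {X' : Fl} {vis : Finset (Finset ℕ)} (hv : ∀ B ∈ vis, B ⊆ compS X a k z)
    (hst : St Pi X a k z A X') (hr : RunS Pi X a z vis ⟨X'.w, X'.s ++ top a A.card⟩)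
    (hA : A ∉ vis) {y : ℕ} (hy : y ∈ A) (h2 : 2 ≤ A.card) (hlam : X'.w[a + A.card - 1]? ≠ some y)
    (hn : A.erase y ∉ vis) (hL : ELc (subPi Pi a A.card) X' a A.card) :
    ∃ X'', St Pi X a k z (A.erase y) X'' ∧
      RunS Pi X a z (insert A vis) ⟨X''.w, X''.s ++ top a (A.erase y).card⟩ ∧
      X''.w[a + (A.erase y).card - 1]? = X'.w[a + A.card - 1]? ∧
      X''.w[a + (A.erase y).card + 1]? = some y ∧
      ∃ s, X''.s = (a + (A.erase y).card + 1) :: s := by
  classical
  have hp := hst.ph
  have hcard : (A.erase y).card = A.card - 1 := Finset.card_erase_of_mem hy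
  have hne : A.Nonempty := ⟨y, hy⟩
  obtain ⟨i, hi, hyi⟩ := (hp.mem_A g c).1 hy
  have hi' : i + 1 < A.card := by
    by_contra hc
    have h1 : i = A.card - 1 := by omega
    apply hlam
    rw [← hyi, h1]
    congr 1
    omega
  obtain ⟨Y', hs, -, hlast, hw1, hw2⟩ := hL y [] ⟨i, hi', hyi⟩ ⟨by simp, by simp, by simp⟩
  have hp' : PhaseAt Pi X a k z A Y' := hp.strip g c hs
  have hE := runS_phase g c hr hp hv hA hs
  have hv' : ∀ B ∈ insert A vis, B ⊆ compS X a k z := by
    intro B hB
    rcases Finset.mem_insert.1 hB with rfl | hB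
    · exact hp.sub g c
    · exact hv B hB
  obtain ⟨s', hs'⟩ : ∃ s', Y'.s = s' ++ [a + A.card - 1] := by
    rcases List.eq_nil_or_concat Y'.s with h | ⟨L, b, h⟩
    · rw [h] at hlast
      simp at hlast
    · rw [h, List.concat_eq_append, List.getLast?_concat] at hlast
      refine ⟨L, ?_⟩
      rw [h, List.concat_eq_append, Option.some.inj hlast]
  have htop : top a (A.card - 1) = [a + A.card - 1] := by
    unfold top
    rw [if_neg (by omega)]
    congr 1
    omega
  have hs'' : Y'.s = s' ++ top a (A.card - 1) := by rw [htop, hs']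
  have hn' : A.erase y ∉ insert A vis := by
    intro h
    rcases Finset.mem_insert.1 h with h | h
    · have h1 : y ∈ A.erase y := by rw [h]; exact hy
      exact (Finset.notMem_erase y A) h1
    · exact hn h
  have hlt : a + A.card < Y'.w.length := (List.getElem?_eq_some_iff.1 hp'.atz).1
  have hltk := hp.lt
  refine ⟨⟨swp Y'.w (a + A.card), (a + A.card) :: s'⟩, ⟨?_, ?_, ?_, ?_⟩, ?_, ?_, ?_, ?_⟩
  · exact phaseAt_L g c hp' hne hw1 hs''
  · intro h
    rw [h, Finset.card_empty] at hcard
    omega
  · intro _ _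
    refine ⟨a + A.card, s', rfl, ?_⟩
    rw [hcard]
    unfold subPi
    have h1 : a + (A.card - 1) + 1 = a + A.card := by omega
    rw [h1]
    exact Finset.notMem_erase _ _
  · intro _ h
    rw [hcard] at h
    omega
  · exact runE_L g c hE hp' hv' hne hw1 hs'' hn'
  · have h1 := swp_other (w := Y'.w) (b := a + A.card) (c := a + A.card - 2) (by omega) hlt (by omega) (by omega)
    rw [hw2] at h1
    rw [← h1, hcard]
    show (swp Y'.w (a + A.card))[a + (A.card - 1) - 1]? = (swp Y'.w (a + A.card))[a + A.card - 2]?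
    congr 1
    omega
  · have h1 := swp_right (w := Y'.w) (b := a + A.card) (by omega) hlt
    rw [hw1] at h1
    rw [← h1, hcard]
    show (swp Y'.w (a + A.card))[a + (A.card - 1) + 1]? = (swp Y'.w (a + A.card))[a + A.card]?
    congr 1
    omega
  · refine ⟨s', ?_⟩
    rw [hcard]
    show (a + A.card) :: s' = (a + (A.card - 1) + 1) :: s'
    congr 1
    omega

/-- the last phase is finished: the whole strip -/
theorem last_phase (g : Good Pi X) (c : IsComp Pi X a k) (hz : X.w[a]? = some z)
    {A : Finset ℕ} {X' Y' : Fl} (hp : PhaseAt Pi X a k z A X')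
    (hr : RunS Pi X a z ((compS X a k z).powerset.erase A) ⟨X'.w, X'.s ++ top a A.card⟩)
    (hs : Strip (subPi Pi a A.card) X' Y') :
    Strip Pi X ⟨Y'.w, Y'.s ++ top a A.card⟩ := by
  classical
  have h1 := runS_phase g c hr hp (fun B hB => Finset.mem_powerset.1 (Finset.mem_of_mem_erase hB))
    (Finset.notMem_erase A _) hs
  rw [Finset.insert_erase (Finset.mem_powerset.2 (hp.sub g c))] at h1
  exact run_finish g c ⟨0, c.one, by simpa using hz⟩ h1

end

end Pool.Agent.RS
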