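import Pool.Agent.RS.BlkL
import Pool.Agent.RS.RunStep
import Pool.Agent.RS.D0

/-!
# RS: meaning of the state of a path check
-/

set_option autoImplicit false

namespace Pool.Agent.RS

open Finset

/-- code of a set `B` of letters of the component with the letters `l` -/
def maskF (l : List ℕ) (B : Finset ℕ) : ℕ :=
  ((List.range l.length).map (fun i => if l.getD i 0 ∈ B then 2 ^ i else 0)).sum

/-- the letters to which the indices in the pieces refer: the component `K` occurs twice -/
def dupl (K : ℕ) (l : List (List ℕ)) : List (List ℕ) :=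
  l.take K ++ (l.getD K [] :: l.getD K [] :: l.drop (K + 1))

/-- fixed data of a path check: the component `(a, k)` with index `K` in the list `bl` of all
components of size `≥ 2`, its first letter `z`, and an ε-bar `β` (the second lowest bar after
transitions L) -/
structure Ctx (Pi : Finset ℕ) (X : Fl) (bl : List (ℕ × ℕ)) (K a k z β : ℕ) : Prop where
  g : Good Pi X
  hb : Blk Pi X bl
  h2 : ∀ p ∈ bl, 2 ≤ p.2
  hK : bl[K]? = some (a, k)
  hz : X.w[a]? = some z
  six : 6 ≤ X.s.length
  eps : β ∈ X.s ∧ β ∉ Pi

/-- meaning of a state `s`: present phase `A`, start flag `X'`, visited phases `vis` (without the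
present one) -/
structure Rep (Pi : Finset ℕ) (X : Fl) (bl : List (ℕ × ℕ)) (K a k z β : ℕ)
    (vis : Finset (Finset ℕ)) (A : Finset ℕ) (X' : Fl) (s : PS) : Prop where
  ph : PhaseAt Pi X a k z A X'
  run : RunS Pi X a z vis ⟨X'.w, X'.s ++ top a A.card⟩
  notvis : A ∉ vis
  sub : ∀ B ∈ vis, B ⊆ compS X a k z
  words : segs X'.w (subBl bl K A.card) =
    List.zipWith (fun m τ => τ.map (fun i => m.getD i 0)) (dupl K (segs X.w bl)) s.P
  len : s.P.map List.length = (subBl bl K A.card).map Prod.snd
  idx : ∀ c, ∀ i ∈ s.P.getD c [], i < ((dupl K (segs X.w bl)).getD c []).length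
  masks : ∀ B ∈ insert A vis, maskF ((segs X.w bl).getD K []) B ∈ s.vis
  count : s.vis.length = (insert A vis).card
  first : s.first = true → A = ∅ ∧ vis = ∅ ∧ X' = X
  notfirst : s.first = false → ∅ ∈ vis
  lastU : s.first = false → s.lastL = false → ∃ γ ∈ X.s, γ ∉ Pi ∧ X'.s.head? = some γ
  lastL : s.lastL = true → s.first = false ∧ ∃ σ, X'.s = (a + A.card + 1) :: β :: σ

/-- the class of the bottom bar of the start; its label is inside a component -/
def ClsCtx (Pi : Finset ℕ) (X : Fl) (bl : List (ℕ × ℕ)) (c : Option ℕ) : Prop :=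
  Cls Pi X bl c ∧ ∀ b, c = some b → b ∈ movL 0 (bl.map Prod.snd)

end Pool.Agent.RS
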