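import Pool.Agent.RS.RepB

/-!
# RS module RepL: transition L of a path check
-/

set_option autoImplicit false

namespace Pool.Agent.RS

open Finset

namespace RepLAux

theorem appF_length : ∀ (P t : List (List ℕ)), (appF t P).length = P.length := by
  intro P
  induction P with
  | nil => intro t; simp [appF]
  | cons p P ih =>
    intro t
    unfold appF
    split_ifs with h
    · simp [ih]
    · cases t with
      | nil => simp [ih]
      | cons τ t' => simp [ih]

theorem appF_mem : ∀ (P t : List (List ℕ)) (c i : ℕ), i ∈ (appF t P).getD c [] →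
    (i = 0 ∧ P.getD c [] ≠ []) ∨ i ∈ P.getD c [] := by
  intro P
  induction P with
  | nil => intro t c i h; simp [appF] at h
  | cons p P ih =>
    intro t c i h
    unfold appF at h
    split_ifs at h with hp
    · cases c with
      | zero => right; simpa using h
      | succ c => simpa using ih t c i (by simpa using h)
    · cases t with
      | nil =>
        cases c with
        | zero => right; simpa using h
        | succ c => simpa using ih [] c i (by simpa using h)
      | cons τ t' =>
        cases c with
        | zero =>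
          simp only [List.getD_cons_zero, List.mem_map] at h
          obtain ⟨j, hj, rfl⟩ := h
          have hne : p ≠ [] := by rintro rfl; simp at hp
          by_cases hjl : j < p.length
          · right
            simp only [List.getD_cons_zero]
            rw [List.getD_eq_getElem _ _ hjl]
            exact List.getElem_mem hjl
          · left
            refine ⟨?_, by simpa using hne⟩
            rw [List.getD_eq_default _ _ (by omega)]
        | succ c => simpa using ih t' c i (by simpa using h)

theorem split_two {α : Type*} (P : List α) (K : ℕ) (h : K + 2 ≤ P.length) :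
    ∃ p1 A B p2, P = p1 ++ A :: B :: p2 ∧ p1.length = K := by
  refine ⟨P.take K, P[K], P[K + 1], P.drop (K + 2), ?_, by simp; omega⟩
  have h1 : P.drop K = P[K] :: P.drop (K + 1) := List.drop_eq_getElem_cons (by omega)
  have h2 : P.drop (K + 1) = P[K + 1] :: P.drop (K + 2) := List.drop_eq_getElem_cons (by omega)
  calc P = P.take K ++ P.drop K := (List.take_append_drop K P).symm
    _ = _ := by rw [h1, h2]

theorem split_one {α : Type*} (P : List α) (K : ℕ) (x : α) (h : P[K]? = some x) :
    ∃ p1 p2, P = p1 ++ x :: p2 ∧ p1.length = K := by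
  obtain ⟨hK, hx⟩ := List.getElem?_eq_some_iff.1 h
  refine ⟨P.take K, P.drop (K + 1), ?_, by simp; omega⟩
  have h1 : P.drop K = P[K] :: P.drop (K + 1) := List.drop_eq_getElem_cons (by omega)
  calc P = P.take K ++ P.drop K := (List.take_append_drop K P).symm
    _ = _ := by rw [h1, hx]

theorem seg_congr {w w' : List ℕ} {a k : ℕ} (h : ∀ i, i < k → w[a + i]? = w'[a + i]?) :
    (w.drop a).take k = (w'.drop a).take k := by
  apply List.ext_getElem?
  intro i
  by_cases hi : i < k
  · rw [List.getElem?_take_of_lt hi, List.getElem?_take_of_lt hi, List.getElem?_drop,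
      List.getElem?_drop]
    exact h i hi
  · rw [List.getElem?_eq_none, List.getElem?_eq_none] <;> (rw [List.length_take]; omega)

theorem sum_mask {m : ℕ} : ∀ {L : List ℕ}, L.Nodup → (∀ i ∈ L, i < m) →
    ((List.range m).map (fun i => if i ∈ L then 2 ^ i else 0)).sum = mask L := by
  intro L hL hm
  have h1 : ((List.range m).map (fun i => if i ∈ L then 2 ^ i else 0)).sum =
      ∑ i ∈ Finset.range m, (if i ∈ L then 2 ^ i else 0) := by
    rw [← List.sum_toFinset _ (List.nodup_range)]
    rw [List.toFinset_range]
  have h2 : mask L = ∑ i ∈ L.toFinset, 2 ^ i := by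
    unfold mask
    rw [List.sum_toFinset _ hL]
  rw [h1, h2, ← Finset.sum_filter]
  apply Finset.sum_congr _ (fun _ _ => rfl)
  ext i
  simp only [Finset.mem_filter, Finset.mem_range, List.mem_toFinset]
  exact ⟨fun h => h.2, fun h => ⟨hm i h, h⟩⟩

/-- the code of the set -/
theorem maskF_eq {l L : List ℕ} {B : Finset ℕ} (hL : L.Nodup) (hm : ∀ i ∈ L, i < l.length)
    (hB : ∀ i, i < l.length → (l.getD i 0 ∈ B ↔ i ∈ L)) : maskF l B = mask L := by
  rw [← sum_mask hL hm]
  unfold maskF
  congr 1
  apply List.map_congr_left
  intro i hi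
  rw [List.mem_range] at hi
  simp only [hB i hi]

theorem zip_len : ∀ (D P : List (List ℕ)), P.length ≤ D.length →
    (List.zipWith (fun m τ => τ.map (fun i => m.getD i 0)) D P).map List.length =
      P.map List.length := by
  intro D
  induction D with
  | nil => intro P h; cases P with
    | nil => rfl
    | cons p P => simp at h
  | cons d D ih =>
    intro P h
    cases P with
    | nil => rfl
    | cons p P =>
      simp only [List.zipWith_cons_cons, List.map_cons, List.length_map]
      rw [ih P (by simpa using h)]

/-- entries of a list with two changed pieces -/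
theorem getD_two {p1 p2 : List (List ℕ)} {A B A' B' : List ℕ} {c : ℕ}
    (h1 : c ≠ p1.length) (h2 : c ≠ p1.length + 1) :
    (p1 ++ A :: B :: p2).getD c [] = (p1 ++ A' :: B' :: p2).getD c [] := by
  rcases lt_or_ge c p1.length with h | h
  · rw [List.getD_append _ _ _ _ h, List.getD_append _ _ _ _ h]
  · rw [List.getD_append_right _ _ _ _ h, List.getD_append_right _ _ _ _ h]
    obtain ⟨j, hj⟩ : ∃ j, c - p1.length = j + 2 := ⟨c - p1.length - 2, by omega⟩
    rw [hj]
    simp

end RepLAux

section

variable {Pi : Finset ℕ} {X X' : Fl} {bl : List (ℕ × ℕ)} {K a k z β : ℕ}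
  {vis : Finset (Finset ℕ)} {A : Finset ℕ} {s s' : PS}

/-- transition L. Low bars: `[β]`. The bar with label `tp` is the last bar of the component of the
letters of `A` (its letters are the piece `K`, the pieces before it have sizes `≥ 2`). -/
theorem rep_L (h : Ctx Pi X bl K a k z β) (r : Rep Pi X bl K a k z β vis A X' s)
    {c : Option ℕ} (hc : ClsCtx Pi X bl c) {f : Fact} (hf : Holds f)
    (hs : stepL K (((bl.take K).map Prod.snd).sum)
      (subCls (((bl.take K).map Prod.snd).sum) k c) s f = some s') :
    ∃ y X'', y ∈ A ∧ Rep Pi X bl K a k z β (insert A vis) (A.erase y) X'' s' := by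
  classical
  simp only [stepL] at hs
  split_ifs at hs with hu hcond hvis
  simp only [Option.some.injEq] at hs
  -- component
  have hmem : (a, k) ∈ bl := List.mem_of_getElem? h.hK
  have hk2 : 2 ≤ k := h.h2 _ hmem
  have hcomp : IsComp Pi X a k := h.hb.comp _ hmem (by simpa using (by omega : 1 ≤ k))
  have hKl : K < bl.length := (List.getElem?_eq_some_iff.1 h.hK).1
  -- end of the phase
  have hlow : Low (subPi Pi a A.card) X' [β] := by
    have := r.ph.eps h.g hcomp h.eps.1 h.eps.2
    exact ⟨by simp, by simp, by intro b hb; simp only [List.mem_singleton] at hb; subst hb;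
                                exact ⟨this.1, this.2.1⟩⟩
  obtain ⟨Y, hst, hpre, hw, htop⟩ := r.use h hc hf hu hlow
  have hpY : PhaseAt Pi X a k z A Y := r.ph.strip h.g hcomp hst
  -- decompositions
  obtain ⟨l1, l2, hbl, hl1⟩ := RepLAux.split_one bl K (a, k) h.hK
  have hgetK : bl.getD K (0, 0) = (a, k) := by
    rw [List.getD_eq_getElem?_getD, h.hK]; rfl
  have htake : bl.take K = l1 := by rw [hbl, ← hl1]; simp
  have hdrop : bl.drop (K + 1) = l2 := by
    rw [hbl, ← hl1, List.drop_append]; simp
  have hsub : ∀ m, subBl bl K m = l1 ++ (a, m) :: (a + m + 1, k - 1 - m) :: l2 := by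
    intro m; unfold subBl; rw [hgetK, htake, hdrop]
  have hsl : s.P.length = bl.length + 1 := by
    have h1 := congrArg List.length r.len
    have h2 := congrArg List.length hbl
    rw [List.length_map, List.length_map, hsub] at h1
    rw [h1, h2]; simp; omega
  obtain ⟨p1, A', B', p2, hP, hp1⟩ := RepLAux.split_two (appF f.t s.P) K (by
    rw [RepLAux.appF_length, hsl]; omega)
  -- letters of the start
  obtain ⟨d1, d2, hd, hd1⟩ : ∃ d1 d2, segs X.w bl = d1 ++ (X.w.drop a).take k :: d2 ∧
      d1.length = K := by
    refine ⟨segs X.w l1, segs X.w l2, ?_, by simp [segs, hl1]⟩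
    conv_lhs => rw [hbl]
    simp [segs]
  set dK := (X.w.drop a).take k with hdK
  have hdup : dupl K (segs X.w bl) = d1 ++ dK :: dK :: d2 := by
    unfold dupl
    rw [hd]
    have e1 : (d1 ++ dK :: d2).take K = d1 := by rw [← hd1]; simp
    have e2 : (d1 ++ dK :: d2).getD K [] = dK := by
      rw [← hd1]; simp
    have e3 : (d1 ++ dK :: d2).drop (K + 1) = d2 := by
      rw [← hd1, List.drop_append]; simp
    rw [e1, e2, e3]
  have hgetA : (appF f.t s.P).getD K [] = A' := by rw [hP, ← hp1]; simp
  have hgetB : (appF f.t s.P).getD (K + 1) [] = B' := by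
    rw [hP, ← hp1, List.getD_append_right _ _ _ _ (by omega)]; simp
  rw [hgetA] at hcond hvis
  rw [hgetA, hgetB] at hs
  have hset : ((appF f.t s.P).set K A'.dropLast).set (K + 1) (A'.getLastD 0 :: B') =
      p1 ++ A'.dropLast :: (A'.getLastD 0 :: B') :: p2 := by
    rw [hP, ← hp1]
    rw [List.set_append_right _ _ (le_refl _)]
    simp
  rw [hset] at hs
  -- words in the phase
  have hwords : segs Y.w l1 = List.zipWith (fun m τ => τ.map (fun i => m.getD i 0)) d1 p1 ∧
      (Y.w.drop a).take A.card = A'.map (fun i => dK.getD i 0) ∧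
      (Y.w.drop (a + A.card + 1)).take (k - 1 - A.card) = B'.map (fun i => dK.getD i 0) ∧
      segs Y.w l2 = List.zipWith (fun m τ => τ.map (fun i => m.getD i 0)) d2 p2 := by
    rw [hsub, hdup, hP] at hw
    rw [List.zipWith_append (by rw [hd1, hp1])] at hw
    simp only [segs, List.map_append, List.map_cons, List.zipWith_cons_cons] at hw
    obtain ⟨e1, e2⟩ := List.append_inj hw (by simp [hl1, hd1, hp1])
    simp only [List.cons.injEq] at e2
    exact ⟨e1, e2.1, e2.2.1, e2.2.2⟩
  obtain ⟨hw1, hwA, hwB, hw2⟩ := hwords
  -- sizes
  have hlenA : A'.length = min A.card (Y.w.length - a) := by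
    have := congrArg List.length hwA
    rw [List.length_take, List.length_drop, List.length_map] at this
    exact this.symm
  have hn2 : 2 ≤ A.card := by have := hcond.1; omega
  have hAne : A.Nonempty := Finset.card_pos.1 (by omega)
  have hleY : a + A.card ≤ Y.w.length := (hpY.compA h.g hcomp hAne).le
  have hlenA' : A'.length = A.card := by rw [hlenA]; omega
  have hltk : A.card < k := hpY.lt
  have hzY : a + A.card < Y.w.length := (List.getElem?_eq_some_iff.1 hpY.atz).1
  -- the top bar
  have htop' : Y.s.getLast? = some (a + (A.card - 1)) := by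
    rw [htop, hsub, hcond.2, hlenA']
    have hf1 : l1.filter (fun p => 2 ≤ p.2) = l1 := by
      rw [List.filter_eq_self]
      intro p hp
      have : p ∈ bl := by rw [hbl]; exact List.mem_append_left _ hp
      simpa using h.h2 p this
    rw [List.filter_append, hf1, List.filter_cons_of_pos (by simpa using hn2), htake]
    congr 1
    have := @pos_getD (l1 ++ (a, A.card) :: ((a + A.card + 1, k - 1 - A.card) :: l2).filter
      (fun p => 2 ≤ p.2)) K (A.card - 1) a A.card (by rw [← hl1]; simp) (by omega)
    rw [show (l1 ++ (a, A.card) :: ((a + A.card + 1, k - 1 - A.card) :: l2).filter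
      (fun p => 2 ≤ p.2)).take K = l1 by rw [← hl1]; simp] at this
    exact this
  obtain ⟨σ, hσ⟩ := List.getLast?_eq_some_iff.1 htop'
  obtain ⟨y, hy⟩ : ∃ y, Y.w[a + A.card - 1]? = some y :=
    ⟨_, List.getElem?_eq_getElem (by omega)⟩
  have hyA : y ∈ A := (hpY.mem_A h.g hcomp).2 ⟨A.card - 1, by omega, by
    rw [← hy]; congr 1; omega⟩
  have hce : (A.erase y).card = A.card - 1 := Finset.card_erase_of_mem hyA
  have hstop : Y.s = σ ++ top a (A.card - 1) := by
    rw [hσ]; unfold top; rw [if_neg (by omega)]
  -- the run
  have hE := runS_phase h.g hcomp r.run r.ph r.sub r.notvis hst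
  have hsubA : A ⊆ compS X a k z := r.ph.sub h.g hcomp
  have hsubv : ∀ B ∈ insert A vis, B ⊆ compS X a k z := by
    intro B hB
    rcases Finset.mem_insert.1 hB with rfl | hB
    · exact hsubA
    · exact r.sub B hB
  -- letters
  have hdup2 : (segs X.w bl).getD K [] = dK := by rw [hd, ← hd1]; simp
  have hdn : dK.Nodup := by
    rw [hdK]
    exact (h.g.wn.sublist (List.drop_sublist _ _)).sublist (List.take_sublist _ _)
  have hidx : ∀ c, ∀ i ∈ (appF f.t s.P).getD c [],
      i < ((dupl K (segs X.w bl)).getD c []).length := by
    intro c i hi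
    rcases RepLAux.appF_mem _ _ _ _ hi with ⟨rfl, h2⟩ | h2
    · obtain ⟨j, hj⟩ := List.exists_mem_of_ne_nil _ h2
      exact lt_of_le_of_lt (Nat.zero_le _) (r.idx c j hj)
    · exact r.idx c i h2
  have hidxA : ∀ i ∈ A', i < dK.length := by
    intro i hi
    have := hidx K i (by rw [hgetA]; exact hi)
    rwa [hdup, show (d1 ++ dK :: dK :: d2).getD K [] = dK by rw [← hd1]; simp] at this
  have hidxB : ∀ i ∈ B', i < dK.length := by
    intro i hi
    have := hidx (K + 1) i (by rw [hgetB]; exact hi)
    rwa [hdup, show (d1 ++ dK :: dK :: d2).getD (K + 1) [] = dK by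
      rw [← hd1, List.getD_append_right _ _ _ _ (by omega)]; simp] at this
  have hAn : A'.Nodup := by
    apply List.Nodup.of_map (fun i => dK.getD i 0)
    rw [← hwA]
    exact (hpY.good.wn.sublist (List.drop_sublist _ _)).sublist (List.take_sublist _ _)
  have hA'ne : A' ≠ [] := by intro h0; rw [h0] at hlenA'; simp at hlenA'; omega
  obtain ⟨A0, la, hA0⟩ : ∃ A0 la, A' = A0 ++ [la] := by
    refine ⟨A'.dropLast, A'.getLast hA'ne, (List.dropLast_append_getLast hA'ne).symm⟩
  have hdl : A'.dropLast = A0 := by rw [hA0]; simp
  have hla : A'.getLastD 0 = la := by rw [hA0]; simp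
  have hlen0 : A0.length = A.card - 1 := by
    have := congrArg List.length hA0
    simp at this; omega
  rw [hdl] at hvis hs
  rw [hla] at hs
  have hget : ∀ i, i < dK.length → ∀ j, j < dK.length → dK.getD i 0 = dK.getD j 0 → i = j := by
    intro i hi j hj hij
    rw [List.getD_eq_getElem _ _ hi, List.getD_eq_getElem _ _ hj] at hij
    exact (List.Nodup.getElem_inj_iff hdn).1 hij
  have hyla : y = dK.getD la 0 := by
    have h1 : ((Y.w.drop a).take A.card)[A.card - 1]? = some y := by
      rw [List.getElem?_take_of_lt (by omega), List.getElem?_drop, ← hy]; congr 1; omega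
    rw [hwA, hA0, List.map_append, List.getElem?_append_right (by simp [hlen0])] at h1
    simpa [hlen0] using h1.symm
  have hmemA : ∀ x, x ∈ A ↔ ∃ i ∈ A', dK.getD i 0 = x := by
    intro x
    rw [hpY.mem_A h.g hcomp]
    have : (∃ i, i < A.card ∧ Y.w[a + i]? = some x) ↔ x ∈ (Y.w.drop a).take A.card := by
      rw [List.mem_iff_getElem?]
      constructor
      · rintro ⟨i, hi, hx⟩
        exact ⟨i, by rw [List.getElem?_take_of_lt hi, List.getElem?_drop]; exact hx⟩
      · rintro ⟨i, hx⟩
        have hi : i < A.card := by
          by_contra hcon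
          rw [List.getElem?_eq_none] at hx
          · exact absurd hx (by simp)
          · rw [List.length_take]; omega
        exact ⟨i, hi, by rw [List.getElem?_take_of_lt hi, List.getElem?_drop] at hx; exact hx⟩
    rw [this, hwA, List.mem_map]
  have hA0n : A0.Nodup ∧ la ∉ A0 := by
    rw [hA0] at hAn
    rw [List.nodup_append] at hAn
    exact ⟨hAn.1, fun hcon => hAn.2.2 la hcon la (by simp) rfl⟩
  have hlaA : la ∈ A' := by rw [hA0]; simp
  have hmask : maskF dK (A.erase y) = mask A0 := by
    apply RepLAux.maskF_eq hA0n.1 (fun i hi => hidxA i (by rw [hA0]; simp [hi]))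
    intro i hi
    constructor
    · intro hm
      obtain ⟨h1, h2⟩ := Finset.mem_erase.1 hm
      obtain ⟨j, hj, hji⟩ := (hmemA _).1 h2
      have hij := hget j (hidxA j hj) i hi hji
      subst hij
      rw [hA0] at hj
      rcases List.mem_append.1 hj with hj | hj
      · exact hj
      · exfalso
        rw [List.mem_singleton] at hj
        subst hj
        exact h1 hyla.symm
    · intro hm
      apply Finset.mem_erase.2
      refine ⟨?_, (hmemA _).2 ⟨i, by rw [hA0]; simp [hm], rfl⟩⟩
      intro hcon
      rw [hyla] at hcon
      have := hget i hi la (hidxA la hlaA) hcon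
      subst this
      exact hA0n.2 hm
  have hnv : A.erase y ∉ insert A vis := by
    intro hcon
    have h1 := r.masks _ hcon
    rw [hdup2, hmask] at h1
    apply hvis
    simpa using h1
  have hL := runE_L h.g hcomp hE hpY hsubv hAne hy hstop hnv
  have hph := phaseAt_L h.g hcomp hpY hAne hy hstop
  -- the new word
  have hw1' : segs (swp Y.w (a + A.card)) l1 = segs Y.w l1 := by
    unfold segs
    apply List.map_congr_left
    intro p hp
    apply RepLAux.seg_congr
    intro i hi
    have hs1 : p.1 + p.2 ≤ a := by
      have h1 := h.hb.sorted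
      rw [hbl, List.pairwise_append] at h1
      exact h1.2.2 p hp (a, k) (by simp)
    exact swp_other (by omega) hzY (by omega) (by omega)
  have hw2' : segs (swp Y.w (a + A.card)) l2 = segs Y.w l2 := by
    unfold segs
    apply List.map_congr_left
    intro p hp
    apply RepLAux.seg_congr
    intro i hi
    have hs1 : a + k ≤ p.1 := by
      have h1 := h.hb.sorted
      rw [hbl, List.pairwise_append] at h1
      exact (List.pairwise_cons.1 h1.2.1).1 p hp
    exact swp_other (by omega) hzY (by omega) (by omega)
  have hwA' : ((swp Y.w (a + A.card)).drop a).take (A.card - 1) =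
      A0.map (fun i => dK.getD i 0) := by
    have h1 : ((swp Y.w (a + A.card)).drop a).take (A.card - 1) =
        (Y.w.drop a).take (A.card - 1) := by
      apply RepLAux.seg_congr
      intro i hi
      exact swp_other (by omega) hzY (by omega) (by omega)
    have h2 : (Y.w.drop a).take (A.card - 1) = ((Y.w.drop a).take A.card).take (A.card - 1) := by
      rw [List.take_take]; congr 1; omega
    rw [h1, h2, hwA, hA0, List.map_append, List.take_append_of_le_length (by simp [hlen0]),
      List.take_of_length_le (by simp [hlen0])]
  have hwB' : ((swp Y.w (a + A.card)).drop (a + (A.card - 1) + 1)).take (k - 1 - (A.card - 1)) =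
      (la :: B').map (fun i => dK.getD i 0) := by
    have e1 : a + (A.card - 1) + 1 = a + A.card := by omega
    have e2 : k - 1 - (A.card - 1) = (k - 1 - A.card) + 1 := by omega
    have hlt' : a + A.card < (swp Y.w (a + A.card)).length := by
      rw [swp_length (by omega) hzY]; exact hzY
    rw [e1, e2, List.drop_eq_getElem_cons hlt', List.take_succ_cons, List.map_cons]
    congr 1
    · have h1 := swp_right (w := Y.w) (b := a + A.card) (by omega) hzY
      rw [hy, List.getElem?_eq_getElem hlt'] at h1
      rw [← hyla]
      exact Option.some.inj h1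
    · rw [← hwB]
      apply RepLAux.seg_congr
      intro i hi
      exact swp_other (by omega) hzY (by omega) (by omega)
  have hbcomp : ∀ p ∈ subBl bl K (A.card - 1), p.1 + p.2 ≤ (swp Y.w (a + A.card)).length := by
    intro p hp
    rw [swp_length (by omega) hzY]
    have hYX : Y.w.length = X.w.length := hpY.same.w.length_eq
    rw [hYX]
    rw [hsub] at hp
    have hle : a + k ≤ X.w.length := hcomp.le
    have hbl' : ∀ q ∈ bl, q.1 + q.2 ≤ X.w.length := by
      intro q hq
      exact (h.hb.comp q hq (by have := h.h2 q hq; omega)).le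
    rcases List.mem_append.1 hp with hp | hp
    · exact hbl' p (by rw [hbl]; exact List.mem_append_left _ hp)
    · rcases List.mem_cons.1 hp with rfl | hp
      · show a + (A.card - 1) ≤ _
        omega
      · rcases List.mem_cons.1 hp with rfl | hp
        · show a + (A.card - 1) + 1 + (k - 1 - (A.card - 1)) ≤ _
          omega
        · exact hbl' p (by rw [hbl]; exact List.mem_append_right _ (List.mem_cons_of_mem _ hp))
  have hlen1 : p1.length = d1.length := by rw [hp1, hd1]
  have hlen2 : p2.length = d2.length := by
    have e1 := congrArg List.length hP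
    rw [RepLAux.appF_length, hsl] at e1
    have e2 := congrArg List.length hd
    rw [show (segs X.w bl).length = bl.length by simp [segs]] at e2
    simp only [List.length_append, List.length_cons] at e1 e2
    omega
  have hwnew : segs (swp Y.w (a + A.card)) (subBl bl K (A.card - 1)) =
      List.zipWith (fun m τ => τ.map (fun i => m.getD i 0)) (dupl K (segs X.w bl))
        (p1 ++ A0 :: (la :: B') :: p2) := by
    rw [hsub, hdup, List.zipWith_append hlen1.symm]
    simp only [List.zipWith_cons_cons]
    rw [← hw1, ← hw2, ← hwA', ← hwB', ← hw1', ← hw2']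
    simp only [segs, List.map_append, List.map_cons]
  refine ⟨y, ⟨swp Y.w (a + A.card), (a + A.card) :: σ⟩, hyA, ?_⟩
  rw [← hs]
  have hne0 : s.first = false := by
    by_contra hcon
    rw [Bool.not_eq_false] at hcon
    have := (r.first hcon).1
    rw [this] at hAne
    exact Finset.not_nonempty_empty hAne
  refine ⟨hph, hL, hnv, hsubv, ?_, ?_, ?_, ?_, ?_, ?_, ?_, ?_, ?_⟩
  · rw [hce]; exact hwnew
  · -- len
    rw [hce]
    have h1 := segs_length hbcomp
    rw [hwnew] at h1
    rw [← h1, RepLAux.zip_len]
    rw [hdup]
    simp only [List.length_append, List.length_cons]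
    omega
  · -- idx
    intro c i hi
    change i ∈ (p1 ++ A0 :: (la :: B') :: p2).getD c [] at hi
    by_cases hcK : c = K
    · subst hcK
      have e1 : (p1 ++ A0 :: (la :: B') :: p2).getD c [] = A0 := by rw [← hp1]; simp
      rw [e1] at hi
      apply hidx c i
      rw [hgetA, hA0]
      exact List.mem_append_left _ hi
    · by_cases hcK1 : c = K + 1
      · subst hcK1
        have e1 : (p1 ++ A0 :: (la :: B') :: p2).getD (K + 1) [] = la :: B' := by
          rw [← hp1, List.getD_append_right _ _ _ _ (by omega)]; simp
        rw [e1] at hi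
        rw [hdup, show (d1 ++ dK :: dK :: d2).getD (K + 1) [] = dK by
          rw [← hd1, List.getD_append_right _ _ _ _ (by omega)]; simp]
        rcases List.mem_cons.1 hi with rfl | hi
        · exact hidxA _ hlaA
        · exact hidxB i hi
      · apply hidx c i
        rw [hP, RepLAux.getD_two (A' := A0) (B' := la :: B') (by omega) (by omega)]
        exact hi
  · -- masks
    intro B hB
    rw [hdup2]
    rcases Finset.mem_insert.1 hB with rfl | hB
    · rw [hmask]; exact List.mem_cons_self
    · have := r.masks B hB
      rw [hdup2] at this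
      exact List.mem_cons_of_mem _ this
  · -- count
    show s.vis.length + 1 = _
    rw [Finset.card_insert_of_notMem hnv, r.count]
  · intro h0; exact absurd h0 (by simp)
  · intro _
    exact Finset.mem_insert_of_mem (r.notfirst hne0)
  · intro _ h0; exact absurd h0 (by simp)
  · intro _
    refine ⟨rfl, ?_⟩
    obtain ⟨τ, hτ⟩ := hpre
    rw [hσ] at hτ
    cases σ with
    | nil =>
      exfalso
      simp only [List.nil_append, List.cons_append, List.cons.injEq] at hτ
      apply h.eps.2
      rw [hτ.1]
      exact hcomp.mem _ (by omega) (by omega)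
    | cons b σ' =>
      refine ⟨σ', ?_⟩
      simp only [List.cons_append, List.nil_append, List.cons.injEq] at hτ
      rw [hce, ← hτ.1]
      show (a + A.card) :: β :: σ' = (a + (A.card - 1) + 1) :: β :: σ'
      congr 1
      omega

end

end Pool.Agent.RS
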