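import Pool.Agent.RS.RepU
import Pool.Agent.RS.RepL
import Pool.Agent.RS.FactMir

/-!
# RS module RepRun: soundness of path checks
-/

set_option autoImplicit false

namespace Pool.Agent.RS

open Finset

namespace RepRunAux

theorem appF_nil {t P : List (List ℕ)} (h : sizes2 P = []) : appF t P = P := by
  induction P with
  | nil => simp [appF]
  | cons p ps ih =>
    have h1 : p.length < 2 ∧ sizes2 ps = [] := by
      simp only [sizes2, List.map_cons] at h ⊢
      by_cases hp : 2 ≤ p.length
      · rw [List.filter_cons_of_pos (by simpa using hp)] at h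
        exact absurd h (by simp)
      · rw [List.filter_cons_of_neg (by simpa using hp)] at h
        exact ⟨by omega, h⟩
    rw [appF.eq_def]
    simp only [if_pos h1.1, ih h1.2]

theorem getD_lt {P : List (List ℕ)} (h : sizes2 P = []) (c : ℕ) : (P.getD c []).length < 2 := by
  by_contra hc
  have h1 : P.getD c [] ∈ P := by
    rcases lt_or_ge c P.length with h2 | h2
    · rw [List.getD_eq_getElem _ _ h2]; exact List.getElem_mem h2
    · rw [List.getD_eq_default _ _ h2] at hc; simp at hc
  have h2 : (P.getD c []).length ∈ sizes2 P := by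
    simp only [sizes2, List.mem_filter, List.mem_map]
    exact ⟨⟨_, h1, rfl⟩, decide_eq_true (by omega)⟩
  rw [h] at h2
  simp at h2

theorem appF_length {t P : List (List ℕ)} : (appF t P).length = P.length := by
  induction P generalizing t with
  | nil => simp [appF]
  | cons p ps ih =>
    rw [appF.eq_def]
    simp only
    split_ifs with h
    · simp [ih]
    · cases t with
      | nil => simp [ih]
      | cons τ t' => simp [ih]

theorem stepL_none {p q : ℕ} {c1 : Option ℕ} {s s' : PS} {f : Fact} (hk : f.ks = [])
    (hs : stepL p q c1 s f = some s') : False := by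
  rw [stepL] at hs
  by_cases h1 : usable c1 s f = true
  swap
  · rw [if_neg h1] at hs; exact absurd hs (by simp)
  rw [if_pos h1] at hs
  simp only at hs
  by_cases h2 : 2 ≤ ((appF f.t s.P).getD p []).length ∧
      f.tp = q + (((appF f.t s.P).getD p []).length - 1)
  swap
  · rw [if_neg h2] at hs; exact absurd hs (by simp)
  have h4 : sizes2 s.P = [] := by
    simp only [usable, Bool.and_eq_true, beq_iff_eq] at h1
    rw [← h1.1, hk]
  rw [appF_nil h4] at h2
  have := getD_lt h4 p
  omega

theorem stepU_lastL {p : ℕ} {c1 : Option ℕ} {fr : Bool} {s s' : PS} {f : Fact}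
    (hs : stepU p c1 fr s f = some s') : s'.lastL = false := by
  rw [stepU] at hs
  simp only at hs
  generalize (if (sizes2 s.P == []) = true then !(s.lastL || s.first && fr)
    else usable c1 s f) = ok at hs
  generalize (if (sizes2 s.P == []) = true then s.P else appF f.t s.P) = P' at hs
  cases ok with
  | false => exact absurd hs (by simp)
  | true =>
    simp only [if_true] at hs
    cases hB : P'.getD (p + 1) [] with
    | nil => rw [hB] at hs; exact absurd hs (by simp)
    | cons x B =>
      rw [hB] at hs
      simp only at hs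
      split_ifs at hs
      simp only [Option.some.injEq] at hs
      rw [← hs]

variable {Pi : Finset ℕ} {X X' : Fl} {bl : List (ℕ × ℕ)} {K a k z β : ℕ}
  {vis : Finset (Finset ℕ)} {A : Finset ℕ} {s s' : PS}

theorem run_aux (h5 : D05) (h : Ctx Pi X bl K a k z β) {c : Option ℕ}
    (hc : ClsCtx Pi X bl c) (l : List (Bool × Fact)) :
    ∀ (s : PS) (vis : Finset (Finset ℕ)) (A : Finset ℕ) (X' : Fl),
    Rep Pi X bl K a k z β vis A X' s → (s.lastL = true → A.card + 1 < k) →
    (∀ x ∈ l, Holds x.2 ∨ x.2.ks = []) →
    runP K (((bl.take K).map Prod.snd).sum) (subCls (((bl.take K).map Prod.snd).sum) k c)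
      (c == some (((bl.take K).map Prod.snd).sum + 1)) l s = some s' →
    ∃ vis A X', Rep Pi X bl K a k z β vis A X' s' ∧ (s'.lastL = true → A.card + 1 < k) := by
  induction l with
  | nil =>
    intro s vis A X' r hl _ hs
    simp only [runP, Option.some.injEq] at hs
    subst hs
    exact ⟨vis, A, X', r, hl⟩
  | cons x l ih =>
    obtain ⟨b, f⟩ := x
    intro s vis A X' r hl hf hs
    have hf0 : Holds f ∨ f.ks = [] := hf (b, f) (by simp)
    have hf1 : ∀ x ∈ l, Holds x.2 ∨ x.2.ks = [] := fun x hx => hf x (by simp [hx])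
    cases b with
    | true =>
      simp only [runP, if_true] at hs
      cases hU : stepU K (subCls (((bl.take K).map Prod.snd).sum) k c)
        (c == some (((bl.take K).map Prod.snd).sum + 1)) s f with
      | none => rw [hU] at hs; exact absurd hs (by simp)
      | some s1 =>
        rw [hU] at hs
        obtain ⟨x, X'', hx, r'⟩ := rep_U h5 h r hc hf0 hU
        exact ih s1 _ _ _ r' (fun h1 => by rw [stepU_lastL hU] at h1; exact absurd h1 (by simp)) hf1 hs
    | false =>
      simp only [runP, Bool.false_eq_true, if_false] at hs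
      cases hL : stepL K (((bl.take K).map Prod.snd).sum)
        (subCls (((bl.take K).map Prod.snd).sum) k c) s f with
      | none => rw [hL] at hs; exact absurd hs (by simp)
      | some s1 =>
        rw [hL] at hs
        rcases hf0 with hf0 | hf0
        · obtain ⟨y, X'', hy, r'⟩ := rep_L h r hc hf0 hL
          refine ih s1 _ _ _ r' (fun _ => ?_) hf1 hs
          rw [Finset.card_erase_of_mem hy]
          have h1 := r.ph.lt
          have h2 : 0 < A.card := Finset.card_pos.mpr ⟨y, hy⟩
          omega
        · exact absurd hL (fun hL => stepL_none hf0 hL)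

theorem ctx_comp (h : Ctx Pi X bl K a k z β) : IsComp Pi X a k ∧ 2 ≤ k := by
  have h1 : (a, k) ∈ bl := List.mem_of_getElem? h.hK
  have h2 := h.h2 _ h1
  exact ⟨h.hb.comp _ h1 (by simpa using by omega), h2⟩

theorem split_at {α : Type} {l : List α} {K : ℕ} {x : α} (h : l[K]? = some x) :
    ∃ l1 l2, l = l1 ++ x :: l2 ∧ l1.length = K := by
  have hK : K < l.length := by
    by_contra hc
    rw [List.getElem?_eq_none (by omega)] at h
    exact absurd h (by simp)
  refine ⟨l.take K, l.drop (K + 1), ?_, by simp; omega⟩
  rw [List.getElem?_eq_getElem hK, Option.some.injEq] at h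
  rw [← h, List.getElem_cons_drop, List.take_append_drop]

theorem take_split {w : List ℕ} {a n k z : ℕ} (hn : n < k) (hk : a + k ≤ w.length)
    (hz : w[a + n]? = some z) :
    (w.drop a).take k = (w.drop a).take n ++ z :: (w.drop (a + n + 1)).take (k - 1 - n) := by
  have h1 : k = n + (1 + (k - 1 - n)) := by omega
  conv_lhs => rw [h1, List.take_add, List.drop_drop]
  congr 1
  have h2 : w.drop (a + n) = z :: w.drop (a + n + 1) := by
    have h3 : a + n < w.length := by omega
    rw [List.getElem?_eq_getElem h3, Option.some.injEq] at hz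
    rw [← hz, List.getElem_cons_drop]
  rw [h2, Nat.add_comm 1, List.take_succ_cons]

/-- the words of the whole configuration in a phase -/
theorem segs_glue {w : List ℕ} {S P : List (List ℕ)} {n : ℕ} (hK : bl[K]? = some (a, k)) (hn : n < k)
    (hk : a + k ≤ w.length) (hz : w[a + n]? = some z) (hS : S.length = bl.length)
    (hP : P.length = bl.length + 1) (hS0 : (S.getD K []).getD 0 0 = z)
    (he : segs w (subBl bl K n) =
      List.zipWith (fun m τ => τ.map (fun i => m.getD i 0)) (dupl K S) P) :
    segs w bl = appT (glue K P) S := by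
  obtain ⟨B1, B2, rfl, hB1⟩ := split_at hK
  have hS1 : K < S.length := by
    rw [hS]; simp; omega
  obtain ⟨sK, hsK⟩ : ∃ sK, S[K]? = some sK := ⟨_, List.getElem?_eq_getElem hS1⟩
  obtain ⟨S1, S2, rfl, hS2⟩ := split_at hsK
  have hP1 : K < P.length := by
    rw [hP]; simp; omega
  obtain ⟨pK, hpK⟩ : ∃ pK, P[K]? = some pK := ⟨_, List.getElem?_eq_getElem hP1⟩
  obtain ⟨P1, P', rfl, hP2⟩ := split_at hpK
  obtain ⟨pK1, P2, rfl⟩ : ∃ pK1 P2, P' = pK1 :: P2 := by
    cases P' with
    | nil =>
      exfalso
      simp only [List.length_append, List.length_cons, List.length_nil] at hP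
      omega
    | cons x y => exact ⟨x, y, rfl⟩
  have e1 : subBl (B1 ++ (a, k) :: B2) K n = B1 ++ (a, n) :: (a + n + 1, k - 1 - n) :: B2 := by
    subst hB1
    simp [subBl]
  have e2 : dupl K (S1 ++ sK :: S2) = S1 ++ sK :: sK :: S2 := by
    subst hS2
    simp [dupl]
  have e3 : glue K (P1 ++ pK :: pK1 :: P2) = P1 ++ (pK ++ 0 :: pK1) :: P2 := by
    subst hP2
    have h1 : (P1 ++ pK :: pK1 :: P2).getD (P1.length + 1) [] = pK1 := by
      rw [List.getD_eq_getElem?_getD, List.getElem?_append_right (by omega)]
      simp
    have h2 : (P1 ++ pK :: pK1 :: P2).drop (P1.length + 2) = P2 := by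
      rw [List.drop_append]
      simp
    rw [glue, h1, h2]
    simp
  have hS0' : sK.getD 0 0 = z := by
    rw [← hS0]
    subst hS2
    simp
  rw [e1, e2] at he
  rw [e3]
  have e4 : (fun (m : List ℕ) (τ : List ℕ) => τ.map (fun i => m.getD i 0)) =
      fun m τ => (fun (τ : List ℕ) (m : List ℕ) => τ.map (fun i => m.getD i 0)) τ m := rfl
  simp only [segs, List.map_append, List.map_cons] at he
  rw [List.zipWith_append (by omega)] at he
  simp only [List.zipWith_cons_cons] at he
  have h5 := List.append_inj he (by simp; omega)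
  obtain ⟨h6, h7⟩ := h5
  simp only [List.cons.injEq] at h7
  obtain ⟨h7, h8, h9⟩ := h7
  rw [appT, List.zipWith_append (by omega)]
  simp only [List.zipWith_cons_cons, segs, List.map_append, List.map_cons]
  rw [take_split hn hk hz, h6, h7, h8, h9, List.zipWith_comm (as := P1),
    List.zipWith_comm (as := P2), hS0']

theorem exists_eps (g : Good Pi X) (hc : Pi.card < X.s.length) : ∃ β ∈ X.s, β ∉ Pi := by
  by_contra h
  push Not at h
  have h1 : X.s.toFinset ⊆ Pi := fun b hb => h b (List.mem_toFinset.mp hb)
  have h2 := Finset.card_le_card h1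
  rw [List.toFinset_card_of_nodup g.sn] at h2
  omega

theorem low_phase (g : Good Pi X) (c : IsComp Pi X a k) (hp : PhaseAt Pi X a k z A X')
    {low : List ℕ} (hl : Low Pi X low) : Low (subPi Pi a A.card) X' low :=
  ⟨hl.nd, hl.len, fun b hb =>
    ⟨(hp.eps g c (hl.mem b hb).1 (hl.mem b hb).2).1, (hp.eps g c (hl.mem b hb).1 (hl.mem b hb).2).2.1⟩⟩

theorem top_ne {a n : ℕ} (h : n ≠ 0) : top a n = [a + n] := by
  rw [top, if_neg h]

theorem prefix_top {low s : List ℕ} {a n : ℕ} (h : low <+: s) : low <+: s ++ top a n :=
  h.trans (List.prefix_append _ _)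

end RepRunAux

open RepRunAux

section

variable {Pi : Finset ℕ} {X X' : Fl} {bl : List (ℕ × ℕ)} {K a k z β : ℕ}
  {vis : Finset (Finset ℕ)} {A : Finset ℕ} {s s' : PS}

/-- the whole path -/
theorem rep_run (h5 : D05) (h : Ctx Pi X bl K a k z β) {c : Option ℕ}
    (hc : ClsCtx Pi X bl c) {l : List (Bool × Fact)}
    (hf : ∀ x ∈ l, Holds x.2 ∨ x.2.ks = [])
    (hs : runP K (((bl.take K).map Prod.snd).sum) (subCls (((bl.take K).map Prod.snd).sum) k c)
      (c == some (((bl.take K).map Prod.snd).sum + 1)) l (initP (bl.map Prod.snd) K) = some s') :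
    ∃ vis A X', Rep Pi X bl K a k z β vis A X' s' := by
  obtain ⟨vis, A, X', r, _⟩ := run_aux h5 h hc l _ _ _ _ (rep_init h) (fun h1 => by
    simp [initP] at h1) hf hs
  exact ⟨vis, A, X', r⟩

/-- all phases are visited -/
theorem Rep.all (h : Ctx Pi X bl K a k z β) (r : Rep Pi X bl K a k z β vis A X' s)
    (hn : s.vis.length = 2 ^ (k - 1)) : vis = (compS X a k z).powerset.erase A := by
  obtain ⟨c, hk⟩ := ctx_comp h
  have h1 : insert A vis ⊆ (compS X a k z).powerset := by
    intro B hB
    rw [Finset.mem_powerset]
    rcases Finset.mem_insert.mp hB with rfl | hB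
    · exact r.ph.sub h.g c
    · exact r.sub B hB
  have h2 : insert A vis = (compS X a k z).powerset := by
    refine Finset.eq_of_subset_of_card_le h1 ?_
    rw [Finset.card_powerset, compS_card h.g c ⟨0, by omega, by simpa using h.hz⟩, ← hn, r.count]
  rw [← h2, Finset.erase_insert r.notvis]

/-- a fact with checked derivation is true for at least six bars. `Pi.card < X.s.length` gives the
ε-bar `β`. If there is no component of size `≥ 2` in the last phase then the last transition was L
and the bottom bar is the new ε-bar, which is not in `low`. -/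
theorem checkP_sound (h5 : D05) {f fin : Fact} {l : List (Bool × Fact)} (ho : okF f = true)
    (hf : ∀ x ∈ l, Holds x.2 ∨ x.2.ks = []) (hfin : Holds fin ∨ fin.ks = [])
    (hc : checkP f K l fin = true) : HoldsAt 6 f := by
  intro Pi X bl g hb hks h6 hcard hcls low hlow
  simp only [checkP, Bool.and_eq_true, decide_eq_true_eq, List.all_eq_true] at hc
  obtain ⟨⟨h2k, hall⟩, hm⟩ := hc
  have hKl : K < bl.length := by
    by_contra hh
    have h1 : f.ks.getD K 0 = 0 := by
      rw [List.getD_eq_default]
      rw [← hks, List.length_map]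
      omega
    omega
  obtain ⟨⟨a, k⟩, hK⟩ : ∃ p, bl[K]? = some p := ⟨_, List.getElem?_eq_getElem hKl⟩
  have hkk : f.ks.getD K 0 = k := by
    rw [← hks, List.getD_eq_getElem?_getD, List.getElem?_map, hK]
    rfl
  have hq : (f.ks.take K).sum = ((bl.take K).map Prod.snd).sum := by
    rw [← hks, List.map_take]
  rw [hkk] at h2k hm
  rw [hq] at hm
  obtain ⟨β, hβ, hβ2⟩ := exists_eps g hcard
  have hcomp : IsComp Pi X a k := hb.comp _ (List.mem_of_getElem? hK) (by simpa using by omega)
  obtain ⟨z, hz⟩ : ∃ z, X.w[a]? = some z :=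
    ⟨_, List.getElem?_eq_getElem (by have := hcomp.le; omega)⟩
  have ctx : Ctx Pi X bl K a k z β := ⟨g, hb, fun p hp => hall p.2 (by
    rw [← hks]; exact List.mem_map_of_mem hp), hK, hz, h6, hβ, hβ2⟩
  have hcc : ClsCtx Pi X bl f.cls := by
    refine ⟨hcls, fun b hb1 => ?_⟩
    simp only [okF, Bool.and_eq_true] at ho
    have h1 := ho.2
    rw [hb1] at h1
    rw [hks]
    simpa using h1
  cases hr : runP K (((bl.take K).map Prod.snd).sum)
    (subCls (((bl.take K).map Prod.snd).sum) k f.cls)
    (f.cls == some (((bl.take K).map Prod.snd).sum + 1)) l (initP f.ks K) with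
  | none => rw [hr] at hm; exact absurd hm (by simp)
  | some s =>
    rw [hr] at hm
    simp only [Bool.and_eq_true, beq_iff_eq, Bool.not_eq_true'] at hm
    obtain ⟨⟨⟨hvl, hfirst⟩, hgl⟩, htp⟩ := hm
    obtain ⟨vis, A, X', r, hlt⟩ := run_aux h5 ctx hcc l _ _ _ _
      (rep_init ctx) (fun h1 => by simp [initP] at h1) hf (by rw [hks]; exact hr)
    have hvis := r.all ctx hvl
    have hA0 : A ≠ ∅ := by
      intro hA
      exact r.notvis (by rw [hA]; exact r.notfirst hfirst)
    have hn0 : A.card ≠ 0 := fun h1 => hA0 (Finset.card_eq_zero.mp h1)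
    have hlp : Low (subPi Pi a A.card) X' low := low_phase g hcomp r.ph hlow
    have hPl : s.P.length = bl.length + 1 := by
      have h1 := congrArg List.length r.len
      simp only [List.length_map] at h1
      rw [h1, subBl]
      simp only [List.length_append, List.length_take, List.length_cons, List.length_drop]
      omega
    have hPK : (s.P.getD K []).length = A.card := by
      have h1 := congrArg (fun l => l.getD K 0) r.len
      simp only [subBl] at h1
      have h2 : K < s.P.length := by omega
      rw [List.getD_eq_getElem?_getD, List.getD_eq_getElem?_getD, List.getElem?_map,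
        List.getElem?_map, List.getElem?_append_right (by simp)] at h1
      have h3 : K - (List.take K bl).length = 0 := by simp; omega
      rw [h3] at h1
      simp only [List.getElem?_cons_zero, Option.map_some, Option.getD_some] at h1
      rw [List.getD_eq_getElem?_getD]
      rw [List.getElem?_eq_getElem h2] at h1 ⊢
      simpa using h1
    have hrun : RunS Pi X a z ((compS X a k z).powerset.erase A) ⟨X'.w, X'.s ++ top a A.card⟩ := by
      rw [← hvis]; exact r.run
    have hSl : (segs X.w bl).length = bl.length := by simp [segs]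
    have hS0 : ((segs X.w bl).getD K []).getD 0 0 = z := by
      rw [segs_getElem hK (by omega) hcomp.le]
      simp [List.getD_eq_getElem?_getD, hz]
    -- the words at the end
    have key : ∀ (Y : Fl) (P : List (List ℕ)), Strip (subPi Pi a A.card) X' Y →
        segs Y.w (subBl bl K A.card) =
          List.zipWith (fun m τ => τ.map (fun i => m.getD i 0)) (dupl K (segs X.w bl)) P →
        P.length = bl.length + 1 → glue K P = f.t → low <+: Y.s →
        ∃ Y, Strip Pi X Y ∧ low <+: Y.s ∧ segs Y.w bl = appT f.t (segs X.w bl) ∧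
          Y.s.getLast? = some ((pos bl).getD f.tp 0) := by
      intro Y P hY hw hP hg hl
      have hph := r.ph.strip g hcomp hY
      have hst : Strip Pi X ⟨Y.w, Y.s ++ top a A.card⟩ := last_phase g hcomp hz r.ph hrun hY
      refine ⟨_, hst, prefix_top hl, ?_, ?_⟩
      · rw [← hg]
        refine segs_glue hK r.ph.lt ?_ hph.atz hSl hP hS0 hw
        have h1 := (hst.same g).w.length_eq
        simp only at h1
        rw [h1]
        exact hcomp.le
      · simp only
        rw [top_ne hn0, htp, hPK, pos_getD hK r.ph.lt]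
        simp
    by_cases hs2 : sizes2 s.P = []
    · rw [if_pos (by simpa using hs2)] at hgl
      simp only [Bool.and_eq_true, beq_iff_eq] at hgl
      obtain ⟨hL, hg⟩ := hgl
      obtain ⟨_, σ, hσ⟩ := r.lastL hL
      have hlt' := hlt hL
      obtain ⟨Y, hY, hl, hw⟩ := r.use0 h5 ctx hs2 hlp (fun b hb1 hb2 => by
        rw [hσ] at hb2
        simp only [List.head?_cons, Option.some.injEq] at hb2
        have h1 := (hlow.mem b hb1).2
        rw [← hb2] at h1
        exact h1 (hcomp.mem _ (by omega) (by omega)))
      exact key Y s.P hY (by rw [hw]; exact r.words) hPl hg hl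
    · rw [if_neg (by simpa using hs2)] at hgl
      simp only [Bool.and_eq_true, beq_iff_eq] at hgl
      obtain ⟨hu, hg⟩ := hgl
      have hu' : usable (subCls (((bl.take K).map Prod.snd).sum) k f.cls) s fin = true := by
        simp only [usable, hfirst, Bool.false_eq_true, if_false] at hu ⊢
        exact hu
      have hfin' : Holds fin := by
        rcases hfin with h1 | h1
        · exact h1
        · exfalso
          simp only [usable, Bool.and_eq_true, beq_iff_eq] at hu
          rw [h1] at hu
          exact hs2 hu.1.symm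
      obtain ⟨Y, hY, hl, hw, _⟩ := r.use ctx hcc hfin' hu' hlp
      exact key Y (appF fin.t s.P) hY hw (by rw [appF_length]; exact hPl) hg hl

theorem checkD_sound (h5 : D05) {db : List (List Fact)} (hdb : ∀ gr ∈ db, ∀ f ∈ gr, Holds f)
    {f : Fact} {d : Der} (hc : checkD db f d = true) : HoldsAt 6 f := by
  have h1 : ∀ c, Holds (lookup db c).2 ∨ (lookup db c).2.ks = [] := by
    intro c
    simp only [lookup]
    generalize c / 128 = i
    generalize c / 2 % 64 = j
    rcases lt_or_ge i db.length with hi | hi
    · rw [List.getD_eq_getElem _ _ hi]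
      rcases lt_or_ge j (db[i]).length with hj | hj
      · rw [List.getD_eq_getElem _ _ hj]
        exact Or.inl (hdb _ (List.getElem_mem hi) _ (List.getElem_mem hj))
      · rw [List.getD_eq_default _ _ hj]
        exact Or.inr rfl
    · rw [List.getD_eq_default _ _ hi]
      exact Or.inr rfl
  have h2 : ∀ n c, ∀ x ∈ stepsD db n c, Holds x.2 ∨ x.2.ks = [] := by
    intro n
    induction n with
    | zero => intro c x hx; simp [stepsD] at hx
    | succ n ih =>
      intro c x hx
      rw [stepsD, List.mem_cons] at hx
      rcases hx with rfl | hx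
      · exact h1 _
      · exact ih _ x hx
  simp only [checkD, Bool.and_eq_true] at hc
  obtain ⟨ho, hc⟩ := hc
  by_cases hm : d.mir = true
  · rw [if_pos hm] at hc
    exact HoldsAt_mir ho (checkP_sound h5 (okF_mir ho).1 (h2 _ _) (h1 _) hc)
  · rw [if_neg hm] at hc
    exact checkP_sound h5 ho (h2 _ _) (h1 _) hc

/-- one component of size two: exchange of the two letters -/
theorem fact_two (h5 : D05) : HoldsAt 6 ⟨[2], none, [[1, 0]], 1, true⟩ := by
  intro Pi X bl g hb hks h6 hcard hcls low hlow
  simp only at hks
  obtain ⟨a, rfl⟩ : ∃ a, bl = [(a, 2)] := by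
    match bl, hks with
    | [(a, k)], h => exact ⟨a, by simp only [List.map_cons, List.map_nil, List.cons.injEq] at h; rw [h.1]⟩
  obtain ⟨b, s0, hs0, hbPi⟩ : ∃ b s, X.s = b :: s ∧ b ∉ Pi := hcls
  have hcomp : IsComp Pi X a 2 := hb.comp (a, 2) (by simp) (by simp)
  have hPi : ∀ b ∈ Pi, b = a + 1 := by
    intro b hb1
    obtain ⟨p, hp, h1, h2⟩ := hb.cover b hb1
    simp only [List.mem_singleton] at hp
    subst hp
    simp only at h1 h2
    omega
  have ha1 : a + 1 ∈ Pi := hcomp.mem _ (by omega) (by omega)
  have hE0 : subPi Pi a 0 = ∅ := by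
    ext c
    simp only [subPi, Finset.mem_erase, Finset.notMem_empty, iff_false, not_and]
    intro h1 _ h3
    exact h1 (by rw [hPi c h3])
  have hE1 : subPi Pi a 1 = ∅ := by
    ext c
    simp only [subPi, Finset.mem_erase, Finset.notMem_empty, iff_false, not_and]
    intro _ h2 h3
    exact h2 (hPi c h3)
  have hle := hcomp.le
  obtain ⟨u, v, z, x, hw, hu⟩ := split_bar (w := X.w) (b := a + 1) (by omega) (by omega)
  have hu' : u.length = a := by omega
  have hz : X.w[a]? = some z := by
    rw [hw, List.getElem?_append_right (by omega)]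
    simp [hu']
  have hx : X.w[a + 1]? = some x := by
    rw [hw, List.getElem?_append_right (by omega)]
    have : a + 1 - u.length = 1 := by omega
    rw [this]
    simp
  obtain ⟨γ, hγ⟩ : ∃ γ, γ ∈ X.s.toFinset \ (insert (a + 1) (insert b low.toFinset)) := by
    apply Finset.Nonempty.exists_mem
    rw [← Finset.card_pos]
    have h1 := Finset.le_card_sdiff (insert (a + 1) (insert b low.toFinset)) X.s.toFinset
    have h2 := Finset.card_insert_le (a + 1) (insert b low.toFinset)
    have h3 := Finset.card_insert_le b low.toFinset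
    have h4 := low.toFinset_card_le
    have h5' := hlow.len
    rw [List.toFinset_card_of_nodup g.sn] at h1
    omega
  simp only [Finset.mem_sdiff, List.mem_toFinset, Finset.mem_insert, not_or] at hγ
  obtain ⟨hγs, hγa, hγb, hγl⟩ := hγ
  have hp0 : PhaseAt Pi X a 2 z ∅ X := phaseAt_init g hcomp hz
  have g0 : Good ∅ X := by
    have := hp0.good
    rw [Finset.card_empty, hE0] at this
    exact this
  obtain ⟨t, hst, ⟨t', rfl⟩, _⟩ := E0 h5 (w := X.w) (s := X.s) (low := [a + 1, γ]) (m := b)
    g0 (by omega) (by rw [hs0]; rfl) (by simp; exact fun h => hγa h.symm) (by simp) (by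
      intro c hc
      simp only [List.mem_cons, List.not_mem_nil, or_false] at hc
      rcases hc with rfl | rfl
      · exact ⟨g.sub _ ha1, fun h => hbPi (by rw [← h]; exact ha1)⟩
      · exact ⟨hγs, hγb⟩)
  have hst' : Strip (subPi Pi a (∅ : Finset ℕ).card) X ⟨X.w, [a + 1, γ] ++ t'⟩ := by
    rw [Finset.card_empty, hE0]
    exact hst
  have r0 : RunS Pi X a z ∅ ⟨X.w, X.s ++ top a (∅ : Finset ℕ).card⟩ := by
    have h1 := runS_init g hcomp (z := z)
    simpa [top] using h1
  have r1 := runS_phase g hcomp r0 hp0 (by simp) (by simp) hst'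
  have hpY : PhaseAt Pi X a 2 z ∅ ⟨X.w, [a + 1, γ] ++ t'⟩ := hp0.strip g hcomp hst'
  have r2 := runE_U g hcomp r1 hpY (by simp) (by simp) (s' := γ :: t') (by simp) (x := x)
    (by simpa using hx) (by simp)
  have hp1 := phaseAt_U g hcomp hpY (by simp) (s' := γ :: t') (by simp) (x := x)
    (by simpa using hx)
  have hc1 : (insert x (∅ : Finset ℕ)).card = 1 := by simp
  have ht0 : top a (∅ : Finset ℕ).card = [] := by simp [top]
  rw [ht0, List.append_nil, hc1] at r2
  rw [ht0, List.append_nil] at hp1
  simp only [Finset.card_empty, Nat.add_zero] at r2 hp1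
  have hcS : insert x (∅ : Finset ℕ) = compS X a 2 z :=
    Finset.eq_of_subset_of_card_le (hp1.sub g hcomp) (by
      rw [compS_card g hcomp ⟨0, by omega, by simpa using hz⟩, hc1])
  have hvis : (compS X a 2 z).powerset.erase (insert x ∅) = insert ∅ ∅ := by
    rw [← hcS]
    ext B
    simp only [Finset.mem_erase, Finset.mem_powerset, insert_empty_eq, Finset.subset_singleton_iff,
      Finset.mem_singleton]
    constructor
    · rintro ⟨h1, h2 | h2⟩
      · exact h2
      · exact absurd h2 h1
    · intro h1
      subst h1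
      exact ⟨fun h => absurd h.symm (Finset.singleton_ne_empty x), Or.inl rfl⟩
  have hlen : 5 ≤ (γ :: t').length := by
    have h1 := hp1.slength g hcomp
    rw [if_neg (by simp)] at h1
    simp only at h1
    omega
  have g1 : Good ∅ ⟨swp X.w (a + 1), γ :: t'⟩ := by
    have := hp1.good
    rw [hc1, hE1] at this
    exact this
  obtain ⟨t2, hst2, hl2, _⟩ := E0 h5 (w := swp X.w (a + 1)) (s := γ :: t') (low := low) (m := γ)
    g1 hlen rfl hlow.nd hlow.len (by
      intro c hc
      have h1 := hlow.mem c hc
      exact ⟨(hp1.eps g hcomp h1.1 h1.2).1, fun h => hγl (by rw [← h]; exact hc)⟩)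
  have hst3 := last_phase g hcomp hz hp1 (Y' := ⟨swp X.w (a + 1), t2⟩)
    (by rw [hvis, hc1]; exact r2) (by rw [hc1, hE1]; exact hst2)
  rw [hc1] at hst3
  refine ⟨_, hst3, prefix_top hl2, ?_, ?_⟩
  · simp only
    rw [hw, ← hu, swp_eq]
    simp only [segs, List.map_cons, List.map_nil]
    rw [← hu']
    simp [appT]
  · simp [top, pos, List.range_succ]

end

end Pool.Agent.RS
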