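import Pool.Agent.RS.RepB

/-!
# RS module RepU: transition U of a path check
-/

set_option autoImplicit false

namespace Pool.Agent.RS

open Finset

namespace RepUAux

theorem split2 {α : Type} {P : List α} {K : ℕ} (h : K + 2 ≤ P.length) :
    ∃ P1 u v P2, P = P1 ++ (u :: v :: P2) ∧ P1.length = K := by
  refine ⟨P.take K, P[K]'(by omega), P[K + 1]'(by omega), P.drop (K + 2), ?_, ?_⟩
  · conv_lhs => rw [← List.take_append_drop K P]
    congr 1
    rw [List.drop_eq_getElem_cons (by omega : K < P.length),
      List.drop_eq_getElem_cons (by omega : K + 1 < P.length)]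
  · rw [List.length_take]
    omega

theorem set_mid {α : Type} {P2 : List α} {u v u' v' : α} : ∀ P1 : List α,
    ((P1 ++ (u :: v :: P2)).set P1.length u').set (P1.length + 1) v' = P1 ++ (u' :: v' :: P2)
  | [] => rfl
  | _ :: P1 => by
    simp only [List.cons_append, List.length_cons, List.set_cons_succ]
    rw [set_mid P1]

theorem getD_mid0 {α : Type} {P2 : List α} {u v d : α} : ∀ P1 : List α,
    (P1 ++ (u :: v :: P2)).getD P1.length d = u
  | [] => rfl
  | _ :: P1 => by
    simp only [List.cons_append, List.length_cons, List.getD_cons_succ]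
    exact getD_mid0 P1

theorem getD_mid1 {α : Type} {P2 : List α} {u v d : α} : ∀ P1 : List α,
    (P1 ++ (u :: v :: P2)).getD (P1.length + 1) d = v
  | [] => rfl
  | _ :: P1 => by
    simp only [List.cons_append, List.length_cons, List.getD_cons_succ]
    exact getD_mid1 P1

theorem getD_mid {α : Type} {P2 : List α} {u v u' v' d : α} : ∀ (P1 : List α) {c : ℕ},
    c ≠ P1.length → c ≠ P1.length + 1 →
    (P1 ++ (u' :: v' :: P2)).getD c d = (P1 ++ (u :: v :: P2)).getD c d
  | [], 0, h, _ => absurd rfl h
  | [], 1, _, h => absurd rfl h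
  | [], _ + 2, _, _ => rfl
  | _ :: _, 0, _, _ => rfl
  | _ :: P1, c + 1, h, h' => by
    simp only [List.cons_append, List.getD_cons_succ]
    exact getD_mid P1 (by simpa using h) (by simpa using h')

theorem seg_swp {w : List ℕ} {b s l : ℕ} (h0 : 0 < b) (h1 : b < w.length)
    (h : s + l ≤ b - 1 ∨ b + 1 ≤ s) : ((swp w b).drop s).take l = (w.drop s).take l := by
  apply List.ext_getElem?
  intro i
  rw [List.getElem?_take, List.getElem?_take]
  split_ifs with hi
  · rw [List.getElem?_drop, List.getElem?_drop, swp_other h0 h1 (by omega) (by omega)]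
  · rfl

theorem seg_swp_left {w : List ℕ} {a n x : ℕ} (h1 : a + n + 1 < w.length)
    (hx : w[a + n + 1]? = some x) :
    ((swp w (a + n + 1)).drop a).take (n + 1) = (w.drop a).take n ++ [x] := by
  rw [List.take_add_one, seg_swp (by omega) h1 (Or.inl (by omega)), List.getElem?_drop]
  have := swp_left (w := w) (b := a + n + 1) (by omega) h1
  rw [Nat.add_sub_cancel] at this
  rw [this, hx]
  rfl

theorem seg_swp_right {w : List ℕ} {b l x : ℕ} (h0 : 0 < b) (h1 : b < w.length)
    (hx : w[b]? = some x) :
    (w.drop b).take (l + 1) = x :: ((swp w b).drop (b + 1)).take l := by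
  rw [seg_swp h0 h1 (Or.inr le_rfl), List.drop_eq_getElem_cons h1, List.take_succ_cons]
  congr 1
  rw [List.getElem?_eq_getElem h1] at hx
  exact Option.some.inj hx

theorem segs_swp {w : List ℕ} {b : ℕ} {l : List (ℕ × ℕ)} (h0 : 0 < b) (h1 : b < w.length)
    (h : ∀ p ∈ l, p.1 + p.2 ≤ b - 1 ∨ b + 1 ≤ p.1) : segs (swp w b) l = segs w l := by
  unfold segs
  apply List.map_congr_left
  intro p hp
  exact seg_swp h0 h1 (h p hp)

theorem segs_append {w : List ℕ} {l l' : List (ℕ × ℕ)} :
    segs w (l ++ l') = segs w l ++ segs w l' := by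
  unfold segs
  rw [List.map_append]

theorem segs_cons {w : List ℕ} {p : ℕ × ℕ} {l : List (ℕ × ℕ)} :
    segs w (p :: l) = (w.drop p.1).take p.2 :: segs w l := by
  unfold segs
  rw [List.map_cons]

theorem mask_eq {m L : List ℕ} {S : Finset ℕ} (hL : L.Nodup) (hb : ∀ i ∈ L, i < m.length)
    (hS : ∀ i, i < m.length → (m.getD i 0 ∈ S ↔ i ∈ L)) : mask L = maskF m S := by
  unfold mask maskF
  rw [← List.sum_toFinset _ hL, ← List.sum_toFinset _ List.nodup_range, List.toFinset_range,
    ← Finset.sum_filter]
  apply Finset.sum_congr _ (fun _ _ => rfl)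
  ext i
  rw [List.mem_toFinset, mem_filter, mem_range]
  constructor
  · intro h
    exact ⟨hb i h, (hS i (hb i h)).2 h⟩
  · intro h
    exact (hS i h.1).1 h.2

theorem getD_inj {m : List ℕ} (hm : m.Nodup) {i j : ℕ} (hi : i < m.length) (hj : j < m.length)
    (h : m.getD i 0 = m.getD j 0) : i = j := by
  rw [List.getD_eq_getElem _ _ hi, List.getD_eq_getElem _ _ hj] at h
  exact (List.Nodup.getElem_inj_iff hm).1 h

theorem lt_of_contains {τ : List ℕ} (h : ∀ i < τ.length, i ∈ τ) : ∀ i ∈ τ, i < τ.length := by
  have h1 : List.Subperm (List.range τ.length) τ := by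
    apply List.subperm_of_subset List.nodup_range
    intro i hi
    exact h i (List.mem_range.1 hi)
  have h2 : (List.range τ.length).Perm τ := h1.perm_of_length_le (by rw [List.length_range])
  intro i hi
  exact List.mem_range.1 (h2.mem_iff.2 hi)

theorem appF_short {t ps : List (List ℕ)} {p : List ℕ} (hp : p.length < 2) :
    appF t (p :: ps) = p :: appF t ps := by
  cases t <;> simp [appF, hp]

theorem appF_long {t ps : List (List ℕ)} {τ p : List ℕ} (hp : ¬ p.length < 2) :
    appF (τ :: t) (p :: ps) = (τ.map (fun i => p.getD i 0)) :: appF t ps := by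
  simp [appF, hp]

theorem appF_len : ∀ (ps t : List (List ℕ)),
    t.map List.length = (ps.map List.length).filter (fun k => 2 ≤ k) →
    (appF t ps).map List.length = ps.map List.length
  | [], t, _ => by simp [appF]
  | p :: ps, t, h => by
    rw [List.map_cons] at h
    by_cases hp : p.length < 2
    · rw [List.filter_cons_of_neg (by simpa using hp)] at h
      rw [appF_short hp, List.map_cons, List.map_cons, appF_len ps t h]
    · rw [List.filter_cons_of_pos (by simp only [decide_eq_true_eq]; omega)] at h
      match t, h with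
      | τ :: t', h =>
        rw [List.map_cons, List.cons.injEq] at h
        rw [appF_long hp]
        simp only [List.map_cons, List.length_map]
        rw [appF_len ps t' h.2, h.1]

theorem appF_mem : ∀ (ps t : List (List ℕ)),
    t.map List.length = (ps.map List.length).filter (fun k => 2 ≤ k) →
    (∀ τ ∈ t, ∀ i ∈ τ, i < τ.length) →
    ∀ c, ∀ i ∈ (appF t ps).getD c [], i ∈ ps.getD c []
  | [], t, _, _, c, i, hi => by simp [appF] at hi
  | p :: ps, t, h, ht, c, i, hi => by
    rw [List.map_cons] at h
    by_cases hp : p.length < 2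
    · rw [List.filter_cons_of_neg (by simpa using hp)] at h
      rw [appF_short hp] at hi
      cases c with
      | zero => simpa using hi
      | succ c =>
        rw [List.getD_cons_succ] at hi ⊢
        exact appF_mem ps t h ht c i hi
    · rw [List.filter_cons_of_pos (by simp only [decide_eq_true_eq]; omega)] at h
      match t, h, ht with
      | τ :: t', h, ht =>
        rw [List.map_cons, List.cons.injEq] at h
        rw [appF_long hp] at hi
        cases c with
        | zero =>
          simp only [List.getD_cons_zero, List.mem_map] at hi ⊢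
          obtain ⟨j, hj, rfl⟩ := hi
          have hjl : j < p.length := by
            have := ht τ (by simp) j hj
            omega
          rw [List.getD_eq_getElem _ _ hjl]
          exact List.getElem_mem hjl
        | succ c =>
          simp only [List.getD_cons_succ] at hi ⊢
          exact appF_mem ps t' h.2 (fun τ' hτ' => ht τ' (by simp [hτ'])) c i hi

theorem stepU_cases {p : ℕ} {c1 : Option ℕ} {fr : Bool} {s s' : PS} {f : Fact}
    (hs : stepU p c1 fr s f = some s') :
    ∃ (P' : List (List ℕ)) (x0 : ℕ) (B : List ℕ),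
      ((sizes2 s.P = [] ∧ P' = s.P ∧ s.lastL = false ∧ ¬ (s.first = true ∧ fr = true)) ∨
        (sizes2 s.P ≠ [] ∧ P' = appF f.t s.P ∧ usable c1 s f = true)) ∧
      P'.getD (p + 1) [] = x0 :: B ∧ mask (P'.getD p [] ++ [x0]) ∉ s.vis ∧
      s' = ⟨(P'.set p (P'.getD p [] ++ [x0])).set (p + 1) B,
        mask (P'.getD p [] ++ [x0]) :: s.vis, false, false⟩ := by
  unfold stepU at hs
  by_cases h0 : sizes2 s.P = []
  · have h0' : (sizes2 s.P == []) = true := by rw [h0]; rfl
    simp only [h0', if_true] at hs
    split_ifs at hs with h1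
    split at hs
    · exact absurd hs (by simp)
    · rename_i x B hxB
      split_ifs at hs with h2
      refine ⟨s.P, x, B, Or.inl ⟨h0, rfl, ?_, ?_⟩, hxB, ?_, ?_⟩
      · revert h1
        cases s.lastL <;> simp
      · rintro ⟨h3, h4⟩
        rw [h3, h4] at h1
        simp at h1
      · intro hmem
        exact h2 (List.contains_iff_mem.2 hmem)
      · exact (Option.some.inj hs).symm
  · have h0' : (sizes2 s.P == []) = false := by
      rw [Bool.eq_false_iff]
      intro h
      exact h0 (by simpa using h)
    simp only [h0', Bool.false_eq_true, if_false] at hs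
    split_ifs at hs with h1
    split at hs
    · exact absurd hs (by simp)
    · rename_i x B hxB
      split_ifs at hs with h2
      refine ⟨appF f.t s.P, x, B, Or.inr ⟨h0, rfl, h1⟩, hxB, ?_, ?_⟩
      · intro hmem
        exact h2 (List.contains_iff_mem.2 hmem)
      · exact (Option.some.inj hs).symm

theorem core {Pi : Finset ℕ} {X X' : Fl} {bl : List (ℕ × ℕ)} {K a k z β : ℕ}
    {vis : Finset (Finset ℕ)} {A : Finset ℕ} {s : PS}
    (h : Ctx Pi X bl K a k z β) (r : Rep Pi X bl K a k z β vis A X' s)
    {P' : List (List ℕ)} {Y : Fl} {γ : ℕ} {σ : List ℕ} (hγ : γ ∈ X.s) (hγ' : γ ∉ Pi)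
    (hY : Strip (subPi Pi a A.card) X' Y) (hYs : Y.s = (a + A.card + 1) :: (γ :: σ))
    (hlen : P'.map List.length = s.P.map List.length)
    (hidx : ∀ c, ∀ i ∈ P'.getD c [], i < ((dupl K (segs X.w bl)).getD c []).length)
    (hw : segs Y.w (subBl bl K A.card) =
      List.zipWith (fun m τ => τ.map (fun i => m.getD i 0)) (dupl K (segs X.w bl)) P')
    {x0 : ℕ} {B : List ℕ} (hB : P'.getD (K + 1) [] = x0 :: B)
    (hm : mask (P'.getD K [] ++ [x0]) ∉ s.vis) :
    ∃ x X'', x ∉ A ∧ Rep Pi X bl K a k z β (insert A vis) (insert x A) X''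
      ⟨(P'.set K (P'.getD K [] ++ [x0])).set (K + 1) B,
        mask (P'.getD K [] ++ [x0]) :: s.vis, false, false⟩ := by
  have g := h.g
  obtain ⟨hKl, hKe⟩ := List.getElem?_eq_some_iff.1 h.hK
  have hmem : (a, k) ∈ bl := hKe ▸ List.getElem_mem hKl
  have hk2 : 2 ≤ k := h.h2 (a, k) hmem
  have c : IsComp Pi X a k := h.hb.comp (a, k) hmem (by simp only; omega)
  have hgetD : bl.getD K (0, 0) = (a, k) := by
    rw [List.getD_eq_getElem?_getD, h.hK]
    rfl
  obtain ⟨n, hn⟩ : ∃ n, n = A.card := ⟨_, rfl⟩
  have hsub : ∀ n, subBl bl K n = bl.take K ++ ((a, n) :: (a + n + 1, k - 1 - n) ::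
      bl.drop (K + 1)) := by
    intro n
    unfold subBl
    rw [hgetD]
  have hbl : bl = bl.take K ++ ((a, k) :: bl.drop (K + 1)) := by
    conv_lhs => rw [← List.take_append_drop K bl]
    congr 1
    rw [List.drop_eq_getElem_cons hKl, hKe]
  have htl : (bl.take K).length = K := by
    rw [List.length_take]
    omega
  obtain ⟨m, hmdef⟩ : ∃ m, m = (segs X.w bl).getD K [] := ⟨_, rfl⟩
  have hmX : m = (X.w.drop a).take k := by
    rw [hmdef, List.getD_eq_getElem?_getD, segs, List.getElem?_map, h.hK]
    rfl
  have hml : m.length = k := by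
    rw [hmX, List.length_take, List.length_drop]
    have := c.le
    omega
  have hmn : m.Nodup := by
    rw [hmX]
    exact (g.wn.sublist (List.drop_sublist _ _)).sublist (List.take_sublist _ _)
  have hdupl : dupl K (segs X.w bl) = (segs X.w bl).take K ++ (m :: m ::
      (segs X.w bl).drop (K + 1)) := by
    unfold dupl
    rw [← hmdef]
  have hsl : (segs X.w bl).length = bl.length := by
    unfold segs
    rw [List.length_map]
  have hdl : ((segs X.w bl).take K).length = K := by
    rw [List.length_take, hsl]
    omega
  -- the pieces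
  have hPl : P'.length = bl.length + 1 := by
    have h1 := congrArg List.length hlen
    have h2 := congrArg List.length r.len
    rw [hsub] at h2
    simp only [List.length_map, List.length_append, List.length_cons, List.length_drop,
      htl] at h1 h2
    omega
  obtain ⟨P1, u, v, P2, hP, hP1⟩ := split2 (P := P') (K := K) (by omega)
  have hPK : P'.getD K [] = u := by
    rw [hP, ← hP1]
    exact getD_mid0 P1
  have hPK1 : P'.getD (K + 1) [] = v := by
    rw [hP, ← hP1]
    exact getD_mid1 P1
  rw [hPK] at hm ⊢
  have hv : v = x0 :: B := by rw [← hPK1, hB]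
  have hset : (P'.set K (u ++ [x0])).set (K + 1) B = P1 ++ ((u ++ [x0]) :: B :: P2) := by
    rw [hP, ← hP1]
    exact set_mid P1
  rw [hset]
  -- lengths
  have hlens : P1.map List.length ++ (u.length :: v.length :: P2.map List.length) =
      (bl.take K).map Prod.snd ++ (n :: (k - 1 - n) :: (bl.drop (K + 1)).map Prod.snd) := by
    have h1 := hlen.trans r.len
    rw [hsub, hP, ← hn] at h1
    simpa only [List.map_append, List.map_cons] using h1
  obtain ⟨L1, L2⟩ := List.append_inj hlens (by rw [List.length_map, List.length_map, hP1, htl])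
  rw [List.cons.injEq, List.cons.injEq] at L2
  obtain ⟨Lu, Lv, LP2⟩ := L2
  have hvl : v.length = B.length + 1 := by rw [hv, List.length_cons]
  have hnk : n + 1 < k := by omega
  -- words
  obtain ⟨F, hF⟩ : ∃ F : List ℕ → List ℕ → List ℕ,
      F = (fun m τ => τ.map (fun i => m.getD i 0)) := ⟨_, rfl⟩
  rw [← hF] at hw
  have hws : segs Y.w (bl.take K) ++ ((Y.w.drop a).take n :: (Y.w.drop (a + n + 1)).take (k - 1 - n)
      :: segs Y.w (bl.drop (K + 1))) =
      List.zipWith F ((segs X.w bl).take K) P1 ++ (F m u :: F m v ::
        List.zipWith F ((segs X.w bl).drop (K + 1)) P2) := by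
    have h1 := hw
    rw [hsub, hdupl, hP, ← hn, segs_append, segs_cons, segs_cons,
      List.zipWith_append (by rw [hdl, hP1]), List.zipWith_cons_cons, List.zipWith_cons_cons] at h1
    exact h1
  obtain ⟨W1, W2⟩ := List.append_inj hws (by
    unfold segs
    rw [List.length_map, List.length_zipWith, htl, hP1]
    rw [List.length_take, List.length_map]
    omega)
  rw [List.cons.injEq, List.cons.injEq] at W2
  obtain ⟨Wu, Wv, W4⟩ := W2
  -- the phase
  have hpY : PhaseAt Pi X a k z A Y := r.ph.strip g c hY
  have hYl : Y.w.length = X.w.length := hpY.same.w.length_eq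
  have hcle := c.le
  obtain ⟨x, hxdef⟩ : ∃ x, x = m.getD x0 0 := ⟨_, rfl⟩
  have hx : Y.w[a + n + 1]? = some x := by
    have h1 : ((Y.w.drop (a + n + 1)).take (k - 1 - n))[0]? = (F m v)[0]? := by rw [Wv]
    rw [List.getElem?_take, if_pos (by omega), List.getElem?_drop, hF, hv] at h1
    simpa [hxdef] using h1
  have hYn : Y.w.Nodup := hpY.good.wn
  have hnk' : A.card + 1 < k := by omega
  have hx' : Y.w[a + A.card + 1]? = some x := by rw [← hn]; exact hx
  have hxB : x ∈ compS X a k z ∧ x ∉ A :=
    (hpY.mem_B g c).2 ⟨0, by omega, by rw [Nat.add_zero]; exact hx'⟩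
  have hduK : (dupl K (segs X.w bl)).getD K [] = m := by
    have := getD_mid0 (P2 := (segs X.w bl).drop (K + 1)) (u := m) (v := m)
      (d := ([] : List ℕ)) ((segs X.w bl).take K)
    rw [hdl] at this
    rw [hdupl]
    exact this
  have hduK1 : (dupl K (segs X.w bl)).getD (K + 1) [] = m := by
    have := getD_mid1 (P2 := (segs X.w bl).drop (K + 1)) (u := m) (v := m)
      (d := ([] : List ℕ)) ((segs X.w bl).take K)
    rw [hdl] at this
    rw [hdupl]
    exact this
  have hx0 : x0 < m.length := by
    have h1 := hidx (K + 1) x0 (by rw [hPK1, hv]; simp)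
    rw [hduK1] at h1
    exact h1
  have hub : ∀ i ∈ u, i < m.length := by
    intro i hi
    have h1 := hidx K i (by rw [hPK]; exact hi)
    rw [hduK] at h1
    exact h1
  -- masks
  have hun : u.Nodup := by
    have h1 : (u.map (fun i => m.getD i 0)).Nodup := by
      have h2 : F m u = u.map (fun i => m.getD i 0) := by rw [hF]
      rw [← h2, ← Wu]
      exact (hYn.sublist (List.drop_sublist _ _)).sublist (List.take_sublist _ _)
    exact h1.of_map _
  have hAu : ∀ i, i < m.length → (m.getD i 0 ∈ A ↔ i ∈ u) := by
    intro i hi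
    rw [hpY.mem_A g c]
    have h1 : (∃ j, j < A.card ∧ Y.w[a + j]? = some (m.getD i 0)) ↔
        m.getD i 0 ∈ (Y.w.drop a).take n := by
      rw [List.mem_iff_getElem?]
      constructor
      · rintro ⟨j, hj, hj'⟩
        refine ⟨j, ?_⟩
        rw [List.getElem?_take, if_pos (by omega), List.getElem?_drop]
        exact hj'
      · rintro ⟨j, hj⟩
        rw [List.getElem?_take] at hj
        split_ifs at hj with hjn
        rw [List.getElem?_drop] at hj
        exact ⟨j, by omega, hj⟩
    rw [h1, Wu, hF]
    simp only [List.mem_map]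
    constructor
    · rintro ⟨j, hj, hj'⟩
      have := getD_inj hmn (hub j hj) hi hj'
      rw [← this]
      exact hj
    · intro hi'
      exact ⟨i, hi', rfl⟩
  have hx0u : x0 ∉ u := by
    intro h1
    exact hxB.2 (by rw [hxdef]; exact (hAu x0 hx0).2 h1)
  have hmask : mask (u ++ [x0]) = maskF m (insert x A) := by
    apply mask_eq
    · rw [List.nodup_append]
      refine ⟨hun, List.nodup_singleton _, ?_⟩
      intro i hi j hj hij
      rw [List.mem_singleton] at hj
      rw [hij, hj] at hi
      exact hx0u hi
    · intro i hi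
      rw [List.mem_append, List.mem_singleton] at hi
      rcases hi with hi | rfl
      · exact hub i hi
      · exact hx0
    · intro i hi
      rw [mem_insert, hAu i hi, List.mem_append, List.mem_singleton, or_comm]
      apply or_congr Iff.rfl
      constructor
      · intro h1
        rw [hxdef] at h1
        exact getD_inj hmn hi hx0 h1
      · rintro rfl
        exact hxdef.symm
  have hnew : insert x A ∉ insert A vis := by
    intro h1
    have h2 := r.masks (insert x A) h1
    rw [← hmdef, ← hmask] at h2
    exact hm h2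
  have hvis : ∀ B ∈ insert A vis, B ⊆ compS X a k z := by
    intro B' hB'
    rw [mem_insert] at hB'
    rcases hB' with rfl | hB'
    · exact hpY.sub g c
    · exact r.sub B' hB'
  have hE : RunE Pi X a z (insert A vis) ⟨Y.w, Y.s ++ top a A.card⟩ :=
    runS_phase g c r.run r.ph r.sub r.notvis hY
  have hS := runE_U g c hE hpY hvis hnk' hYs hx' hnew
  have hph := phaseAt_U g c hpY hnk' hYs hx'
  have hcard : (insert x A).card = n + 1 := by
    rw [card_insert_of_notMem hxB.2, hn]
  have hb0 : 0 < a + n + 1 := by omega
  have hb1 : a + n + 1 < Y.w.length := by omega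
  have hsorted := h.hb.sorted
  rw [hbl, List.pairwise_append] at hsorted
  obtain ⟨-, hs2, hs3⟩ := hsorted
  rw [List.pairwise_cons] at hs2
  refine ⟨x, _, hxB.2, ⟨hph, hS, hnew, hvis, ?_, ?_, ?_, ?_, ?_, ?_, ?_, ?_, ?_⟩⟩
  · -- words
    simp only
    rw [hcard, hsub, hdupl, ← hn, segs_append, segs_cons, segs_cons,
      List.zipWith_append (by rw [hdl, hP1]), List.zipWith_cons_cons, List.zipWith_cons_cons]
    congr 1
    · rw [segs_swp hb0 hb1, W1, hF]
      intro p hp
      have := hs3 p hp (a, k) (by simp)
      simp only at this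
      left
      omega
    · congr 1
      · simp only
        rw [seg_swp_left hb1 hx, Wu, hF, List.map_append]
        simp only [List.map_cons, List.map_nil]
        rw [hxdef]
      · congr 1
        · simp only
          have h1 : k - 1 - n = (k - 1 - (n + 1)) + 1 := by omega
          have h2 : F m v = m.getD x0 0 :: F m B := by
            rw [hF, hv]
            rfl
          rw [h1, seg_swp_right hb0 hb1 hx, h2, List.cons.injEq] at Wv
          have h4 : a + (n + 1) + 1 = a + n + 1 + 1 := by omega
          rw [h4, Wv.2, hF]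
        · rw [segs_swp hb0 hb1, W4, hF]
          intro p hp
          have := hs2.1 p hp
          simp only at this
          right
          omega
  · -- lengths
    simp only
    rw [hcard, hsub, List.map_append, List.map_append, L1]
    simp only [List.map_cons, List.length_append, List.length_singleton]
    rw [LP2, Lu]
    congr 3
    omega
  · -- indices
    intro d i hi
    simp only at hi
    by_cases hd : d = K
    · have h3 := getD_mid0 (P2 := P2) (u := u ++ [x0]) (v := B) (d := ([] : List ℕ)) P1
      rw [hP1] at h3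
      rw [hd, h3] at hi
      rw [hd, hduK]
      rw [List.mem_append, List.mem_singleton] at hi
      rcases hi with hi | rfl
      · exact hub i hi
      · exact hx0
    · by_cases hd' : d = K + 1
      · have h3 := getD_mid1 (P2 := P2) (u := u ++ [x0]) (v := B) (d := ([] : List ℕ)) P1
        rw [hP1] at h3
        rw [hd', h3] at hi
        rw [hd']
        exact hidx (K + 1) i (by rw [hPK1, hv]; exact List.mem_cons_of_mem _ hi)
      · apply hidx d i
        rw [hP]
        rw [getD_mid (u := u) (v := v) P1 (by rw [hP1]; exact hd) (by rw [hP1]; exact hd')] at hi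
        exact hi
  · -- masks
    intro B' hB'
    simp only
    rw [mem_insert] at hB'
    rcases hB' with rfl | hB'
    · rw [← hmdef, ← hmask]
      exact List.mem_cons_self
    · exact List.mem_cons_of_mem _ (r.masks B' hB')
  · -- count
    simp only
    rw [List.length_cons, r.count, card_insert_of_notMem hnew]
  · intro h1
    exact absurd h1 (by simp)
  · intro _
    cases hf : s.first with
    | true =>
      rw [(r.first hf).1]
      exact mem_insert_self _ _
    | false => exact mem_insert_of_mem (r.notfirst hf)
  · intro _ _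
    exact ⟨γ, hγ, hγ', by simp⟩
  · intro h1
    exact absurd h1 (by simp)

end RepUAux


section

variable {Pi : Finset ℕ} {X X' : Fl} {bl : List (ℕ × ℕ)} {K a k z β : ℕ}
  {vis : Finset (Finset ℕ)} {A : Finset ℕ} {s s' : PS}

/-- transition U. Low bars: `[a + n + 1, γ]`, `γ` an ε-bar of `(Pi, X)`; if there is no component of
size `≥ 2` then there are at least three ε-bars (`Pi.card ≤ 2`, `6 ≤ X.s.length`), and `γ` is chosen
different from the bottom bar of the start. -/
theorem rep_U (h5 : D05) (h : Ctx Pi X bl K a k z β) (r : Rep Pi X bl K a k z β vis A X' s)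
    {c : Option ℕ} (hc : ClsCtx Pi X bl c) {f : Fact} (hf : Holds f ∨ f.ks = [])
    (hs : stepU K (subCls (((bl.take K).map Prod.snd).sum) k c)
      (c == some (((bl.take K).map Prod.snd).sum + 1)) s f = some s') :
    ∃ x X'', x ∉ A ∧ Rep Pi X bl K a k z β (insert A vis) (insert x A) X'' s' := by
  have g := h.g
  obtain ⟨hKl, hKe⟩ := List.getElem?_eq_some_iff.1 h.hK
  have hmem : (a, k) ∈ bl := hKe ▸ List.getElem_mem hKl
  have hk2 : 2 ≤ k := h.h2 (a, k) hmem
  have ic : IsComp Pi X a k := h.hb.comp (a, k) hmem (by simp only; omega)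
  have hgetD : bl.getD K (0, 0) = (a, k) := by
    rw [List.getD_eq_getElem?_getD, h.hK]
    rfl
  have hsub : subBl bl K A.card = bl.take K ++ ((a, A.card) :: (a + A.card + 1, k - 1 - A.card) ::
      bl.drop (K + 1)) := by
    unfold subBl
    rw [hgetD]
  have htl : (bl.take K).length = K := by
    rw [List.length_take]
    omega
  have hlen1 : ∀ P' : List (List ℕ), P'.map List.length = s.P.map List.length →
      (P'.getD (K + 1) []).length = k - 1 - A.card := by
    intro P' hP'
    have h1 : (P'.map List.length).getD (K + 1) 0 = k - 1 - A.card := by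
      rw [hP', r.len, hsub, List.map_append, List.map_cons, List.map_cons]
      have := RepUAux.getD_mid1 (P2 := (bl.drop (K + 1)).map Prod.snd) (u := A.card)
        (v := k - 1 - A.card) (d := 0) ((bl.take K).map Prod.snd)
      rw [List.length_map, htl] at this
      exact this
    rw [← h1, List.getD_eq_getElem?_getD, List.getD_eq_getElem?_getD, List.getElem?_map]
    cases P'[K + 1]? <;> simp
  obtain ⟨P', x0, B, hcase, hB, hm, rfl⟩ := RepUAux.stepU_cases hs
  have hlen : P'.map List.length = s.P.map List.length := by
    rcases hcase with ⟨-, rfl, -⟩ | ⟨h0, rfl, hu⟩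
    · rfl
    · rcases hf with hf | hf
      · apply RepUAux.appF_len
        have h1 := hf.1
        unfold okF at h1
        simp only [Bool.and_eq_true, beq_iff_eq] at h1
        unfold usable at hu
        rw [Bool.and_eq_true, beq_iff_eq] at hu
        rw [h1.1.1.1.2, hu.1]
        rfl
      · unfold usable at hu
        rw [Bool.and_eq_true, beq_iff_eq] at hu
        rw [hf] at hu
        exact absurd hu.1.symm h0
  have hnk : A.card + 1 < k := by
    have h1 := hlen1 P' hlen
    rw [hB, List.length_cons] at h1
    omega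
  -- membership of the bar `a + n + 1`
  have hinX : a + A.card + 1 ∈ X'.s := by
    have h1 : a + A.card + 1 ∈ X.s := g.sub _ (ic.mem _ (by omega) (by omega))
    have h2 : a + A.card + 1 ∈ X'.s ++ top a A.card := r.ph.same.s.mem_iff.2 h1
    rw [List.mem_append] at h2
    rcases h2 with h2 | h2
    · exact h2
    · unfold top at h2
      split_ifs at h2
      · exact absurd h2 (by simp)
      · rw [List.mem_singleton] at h2
        omega
  have hlow : ∀ γ, γ ∈ X.s → γ ∉ Pi → Low (subPi Pi a A.card) X' [a + A.card + 1, γ] := by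
    intro γ h1 h2
    obtain ⟨e1, e2, e3⟩ := r.ph.eps g ic h1 h2
    refine ⟨?_, by simp, ?_⟩
    · rw [List.nodup_cons]
      refine ⟨?_, List.nodup_singleton _⟩
      rw [List.mem_singleton]
      exact fun h3 => e3 hnk h3.symm
    · intro b hb
      rw [List.mem_cons, List.mem_singleton] at hb
      rcases hb with rfl | rfl
      · exact ⟨hinX, by simp [subPi]⟩
      · exact ⟨e1, e2⟩
  rcases hcase with ⟨h0, rfl, hl, hfr⟩ | ⟨h0, rfl, hu⟩
  · -- no component of size `≥ 2`
    have hsmall : ∀ p ∈ subBl bl K A.card, p.2 < 2 := by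
      intro p hp
      by_contra hcon
      have h1 : p.2 ∈ sizes2 s.P := by
        unfold sizes2
        rw [r.len, List.mem_filter]
        exact ⟨List.mem_map_of_mem hp, by simp only [decide_eq_true_eq]; omega⟩
      rw [h0] at h1
      exact absurd h1 (by simp)
    rw [hsub] at hsmall
    have ht0 : bl.take K = [] := by
      rw [List.eq_nil_iff_forall_not_mem]
      intro p hp
      have h1 := hsmall p (List.mem_append_left _ hp)
      have h2 := h.h2 p (List.mem_of_mem_take hp)
      omega
    have hd0 : bl.drop (K + 1) = [] := by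
      rw [List.eq_nil_iff_forall_not_mem]
      intro p hp
      have h1 := hsmall p (by simp [hp])
      have h2 := h.h2 p (List.mem_of_mem_drop hp)
      omega
    have hn1 : A.card < 2 := hsmall (a, A.card) (by simp)
    have hn2 : k - 1 - A.card < 2 := hsmall (a + A.card + 1, k - 1 - A.card) (by simp)
    have hK0 : K = 0 := by rw [← htl, ht0]; rfl
    have hbl : bl = [(a, k)] := by
      have h1 : bl = bl.take K ++ ((a, k) :: bl.drop (K + 1)) := by
        conv_lhs => rw [← List.take_append_drop K bl]
        congr 1
        rw [List.drop_eq_getElem_cons hKl, hKe]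
      rw [h1, ht0, hd0]
      rfl
    have hcard : Pi.card = k - 1 := by
      have := h.hb.card
      rw [hbl] at this
      simpa using this.symm
    -- many ε-bars
    have hex : ∀ b, ∃ γ ∈ X.s, γ ∉ Pi ∧ γ ≠ b := by
      intro b
      have h1 : X.s.toFinset.card = X.s.length := List.toFinset_card_of_nodup g.sn
      have h2 : (insert b Pi).card ≤ Pi.card + 1 := card_insert_le _ _
      have h3 := h.six
      have h4 : (insert b Pi).card < X.s.toFinset.card := by omega
      obtain ⟨γ, hγ, hγ'⟩ := exists_mem_notMem_of_card_lt_card h4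
      rw [mem_insert, not_or] at hγ'
      exact ⟨γ, List.mem_toFinset.1 hγ, hγ'.2, hγ'.1⟩
    -- the bottom bar of the start is an ε-bar
    have hhead : ∃ b, X'.s.head? = some b ∧ b ≠ a + A.card + 1 := by
      cases hfi : s.first with
      | false =>
        obtain ⟨γ, h1, h2, h3⟩ := r.lastU hfi hl
        exact ⟨γ, h3, (r.ph.eps g ic h1 h2).2.2 hnk⟩
      | true =>
        obtain ⟨hA, -, hX⟩ := r.first hfi
        rw [hX, hA]
        cases hcc : c with
        | none =>
          rw [hcc] at hc
          obtain ⟨b, s0, h1, h2⟩ := hc.1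
          refine ⟨b, by rw [h1]; rfl, ?_⟩
          rintro rfl
          exact h2 (ic.mem _ (by simp) (by simp; omega))
        | some b =>
          exfalso
          have h1 := hc.2 b hcc
          rw [hA] at hn2
          simp only [card_empty] at hn2
          have hk : k = 2 := by omega
          rw [hbl, hk] at h1
          have h2 : b = 1 := by simpa [movL] using h1
          apply hfr
          refine ⟨hfi, ?_⟩
          rw [hcc, h2, ht0]
          rfl
    obtain ⟨b, hb, hb'⟩ := hhead
    obtain ⟨γ, hγ, hγ', hγb⟩ := hex b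
    obtain ⟨Y, hY, hYs, hYw⟩ := Rep.use0 h5 h r h0 (hlow γ hγ hγ') (by
      intro b' hb'' h1
      rw [hb] at h1
      have h2 := Option.some.inj h1
      rw [List.mem_cons, List.mem_singleton] at hb''
      rcases hb'' with h3 | h3
      · exact hb' (h2.trans h3)
      · exact hγb (h3.symm.trans h2.symm))
    obtain ⟨σ, hσ⟩ := hYs
    exact RepUAux.core h r hγ hγ' hY (σ := σ) (by rw [← hσ]; rfl) hlen r.idx
      (by rw [hYw]; exact r.words) hB hm
  · -- use of a fact
    have hf' : Holds f := by
      rcases hf with hf | hf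
      · exact hf
      · unfold usable at hu
        rw [Bool.and_eq_true, beq_iff_eq] at hu
        rw [hf] at hu
        exact absurd hu.1.symm h0
    have hok := hf'.1
    unfold okF at hok
    simp only [Bool.and_eq_true, beq_iff_eq] at hok
    have hu' := hu
    unfold usable at hu'
    rw [Bool.and_eq_true, beq_iff_eq] at hu'
    obtain ⟨Y, hY, hYs, hYw, -⟩ := Rep.use h r hc hf' hu (hlow β h.eps.1 h.eps.2)
    obtain ⟨σ, hσ⟩ := hYs
    refine RepUAux.core h r h.eps.1 h.eps.2 hY (σ := σ) (by rw [← hσ]; rfl) hlen ?_ hYw hB hm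
    intro d i hi
    apply r.idx d i
    apply RepUAux.appF_mem s.P f.t _ _ d i hi
    · rw [hok.1.1.1.2, hu'.1]
      rfl
    · intro τ hτ
      apply RepUAux.lt_of_contains
      intro i hi
      have h1 := hok.1.1.2
      rw [List.all_eq_true] at h1
      have h2 := h1 τ hτ
      rw [List.all_eq_true] at h2
      have h3 := h2 i (List.mem_range.2 hi)
      exact List.contains_iff_mem.1 h3

end

end Pool.Agent.RS
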