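import Pool.Agent.RS.Trans
import Pool.Agent.RS.PhaseF

/-!
# RS module RunA: flags of the phases after a transition
-/

set_option autoImplicit false

namespace Pool.Agent.RS

open Finset

section

variable {Pi : Finset ℕ} {X X' Y' : Fl} {a k z : ℕ} {A : Finset ℕ} {vis : Finset (Finset ℕ)}

/-- the phase of `∅` -/
theorem phaseAt_init (g : Good Pi X) (c : IsComp Pi X a k) (hz : X.w[a]? = some z) :
    PhaseAt Pi X a k z ∅ X where
  good :=
    { wn := g.wn
      sn := g.sn
      sub := fun b hb => g.sub b (by
        unfold subPi at hb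
        exact Finset.mem_of_mem_erase (Finset.mem_of_mem_erase hb))
      pos := g.pos
      lt := g.lt }
  same := by
    have h1 : X.s ++ top a (∅ : Finset ℕ).card = X.s := by simp [top]
    rw [h1]
    exact Same.refl X
  lt := by
    have := c.one
    rw [Finset.card_empty]
    omega
  atz := by
    rw [Finset.card_empty, Nat.add_zero]
    exact hz
  disj := Finset.disjoint_empty_right _
  pre := by rw [Finset.card_empty, Nat.add_zero, Finset.union_empty]

/-- start of a run (empty walk) -/
theorem runS_init (g : Good Pi X) (c : IsComp Pi X a k) : RunS Pi X a z ∅ X := by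
  refine ⟨[], Walk.nil X, ?_, fun F => ?_⟩
  · rw [List.append_nil]
    exact faces_nodup g
  · rw [List.append_nil]
    constructor
    · exact fun h => Or.inr h
    · rintro (⟨-, A, hA, -⟩ | h)
      · exact absurd hA (Finset.notMem_empty A)
      · exact h

namespace RunAAux

theorem idx_inj {w : List ℕ} (hw : w.Nodup) {i j x : ℕ} (hi : w[i]? = some x)
    (hj : w[j]? = some x) : i = j := by
  obtain ⟨hi1, hi2⟩ := List.getElem?_eq_some_iff.1 hi
  obtain ⟨hj1, hj2⟩ := List.getElem?_eq_some_iff.1 hj
  exact (List.Nodup.getElem_inj_iff hw).1 (hi2.trans hj2.symm)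

theorem notMem_pre {w : List ℕ} (hw : w.Nodup) {i b x : ℕ} (hi : w[i]? = some x) (hb : b ≤ i) :
    x ∉ pre w b := by
  intro h
  obtain ⟨j, hj, hj'⟩ := mem_pre.1 h
  have := idx_inj hw hi hj'
  omega

end RunAAux

open RunAAux

/-- transition U (`A` → `A ∪ {x}`): flag of the new phase -/
theorem phaseAt_U (g : Good Pi X) (c : IsComp Pi X a k) (hp : PhaseAt Pi X a k z A Y')
    (hn : A.card + 1 < k) {s' : List ℕ} (hr : Y'.s = (a + A.card + 1) :: s') {x : ℕ}
    (hx : Y'.w[a + A.card + 1]? = some x) :
    PhaseAt Pi X a k z (insert x A) ⟨swp Y'.w (a + A.card + 1), s' ++ top a A.card⟩ := by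
  have hlen : Y'.w.length = X.w.length := hp.same.w.length_eq
  have hr0 : 0 < a + A.card + 1 := by omega
  have hr1 : a + A.card + 1 < Y'.w.length := by
    have := c.le
    rw [hlen]
    omega
  have hrPi : a + A.card + 1 ∈ Pi := c.mem _ (by omega) (by omega)
  have hprea : pre Y'.w a = pre X.w a := hp.same.fix a c.left
  have hxA : x ∉ A := by
    intro h
    have h1 : x ∈ pre Y'.w (a + A.card) := by
      rw [hp.pre]
      exact Finset.mem_union_right _ h
    exact notMem_pre hp.good.wn hx (by omega) h1
  have hxa : x ∉ pre X.w a := by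
    rw [← hprea]
    exact notMem_pre hp.good.wn hx (by omega)
  have hcard : (insert x A).card = A.card + 1 := Finset.card_insert_of_notMem hxA
  have hss : ((a + A.card + 1) :: (s' ++ top a A.card)).Perm X.s := by
    have := hp.same.s
    rw [hr] at this
    exact this
  have hwp : (swp Y'.w (a + A.card + 1)).Perm X.w := (swp_perm hr0 hr1).trans hp.same.w
  refine ⟨⟨?_, ?_, ?_, ?_, ?_⟩, ⟨?_, ?_, ?_⟩, ?_, ?_, ?_, ?_⟩
  · exact hwp.symm.nodup g.wn
  · exact (List.nodup_cons.1 (hss.symm.nodup g.sn)).2
  · intro b hb
    rw [hcard] at hb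
    unfold subPi at hb
    rw [Finset.mem_erase, Finset.mem_erase] at hb
    have h1 : b ∈ (a + A.card + 1) :: (s' ++ top a A.card) := hss.mem_iff.2 (g.sub b hb.2.2)
    rcases List.mem_cons.1 h1 with h1 | h1
    · exact absurd h1 hb.2.1
    · exact h1
  · intro b hb
    exact g.pos b (hss.mem_iff.1 (List.mem_cons_of_mem _ hb))
  · intro b hb
    show b < (swp Y'.w (a + A.card + 1)).length
    rw [hwp.length_eq]
    exact g.lt b (hss.mem_iff.1 (List.mem_cons_of_mem _ hb))
  · exact hwp
  · show ((s' ++ top a A.card) ++ top a (insert x A).card).Perm X.s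
    have h1 : top a (insert x A).card = [a + A.card + 1] := by
      rw [hcard]
      unfold top
      rw [if_neg (by omega), Nat.add_assoc]
    rw [h1]
    exact (List.perm_append_comm).trans hss
  · intro b hb
    show pre (swp Y'.w (a + A.card + 1)) b = pre X.w b
    have hne : b ≠ a + A.card + 1 := by
      rintro rfl
      exact hb hrPi
    rw [pre_swp hr0 hr1 hne]
    exact hp.same.fix b hb
  · rw [hcard]
    exact hn
  · show (swp Y'.w (a + A.card + 1))[a + (insert x A).card]? = some z
    rw [hcard, ← Nat.add_assoc, swp_right hr0 hr1]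
    exact hp.atz
  · rw [Finset.disjoint_insert_right]
    exact ⟨hxa, hp.disj⟩
  · show pre (swp Y'.w (a + A.card + 1)) (a + (insert x A).card) = pre X.w a ∪ insert x A
    have h1 : (swp Y'.w (a + A.card + 1))[a + A.card]? = some x := by
      have := swp_left hr0 hr1
      rw [Nat.add_sub_cancel] at this
      rw [this]
      exact hx
    rw [hcard, ← Nat.add_assoc, pre_succ h1, pre_swp hr0 hr1 (by omega), hp.pre,
      Finset.union_insert]

/-- transition L (`A` → `A \\ {y}`): flag of the new phase; `n = A.card`, if `2 ≤ n` then the bar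
`a + n - 1` is on the top of `Y'.s` -/
theorem phaseAt_L (g : Good Pi X) (c : IsComp Pi X a k) (hp : PhaseAt Pi X a k z A Y')
    (hn : A.Nonempty) {y : ℕ} (hy : Y'.w[a + A.card - 1]? = some y) {s' : List ℕ}
    (hs : Y'.s = s' ++ top a (A.card - 1)) :
    PhaseAt Pi X a k z (A.erase y) ⟨swp Y'.w (a + A.card), (a + A.card) :: s'⟩ := by
  have hpos : 0 < A.card := Finset.card_pos.2 hn
  have hlt := hp.lt
  have hlen : Y'.w.length = X.w.length := hp.same.w.length_eq
  have hr0 : 0 < a + A.card := by omega
  have hr1 : a + A.card < Y'.w.length := by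
    have := c.le
    rw [hlen]
    omega
  have hrPi : a + A.card ∈ Pi := c.mem _ (by omega) (by omega)
  have hprea : pre Y'.w a = pre X.w a := hp.same.fix a c.left
  obtain ⟨m, hm⟩ : ∃ m, A.card = m + 1 := ⟨A.card - 1, by omega⟩
  have hy' : Y'.w[a + m]? = some y := by
    rw [hm] at hy
    exact hy
  have hyn : y ∉ pre Y'.w (a + m) := notMem_pre hp.good.wn hy' le_rfl
  have hya : y ∉ pre X.w a := by
    rw [← hprea]
    exact notMem_pre hp.good.wn hy' (by omega)
  have hpre : pre Y'.w (a + A.card) = insert y (pre Y'.w (a + m)) := by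
    rw [hm, ← Nat.add_assoc]
    exact pre_succ hy'
  have hyA : y ∈ A := by
    have h1 : y ∈ pre Y'.w (a + A.card) := by
      rw [hpre]
      exact Finset.mem_insert_self _ _
    rw [hp.pre, Finset.mem_union] at h1
    rcases h1 with h1 | h1
    · exact absurd h1 hya
    · exact h1
  have hcard : (A.erase y).card = m := by
    rw [Finset.card_erase_of_mem hyA, hm]
    rfl
  have hs' : Y'.s = s' ++ top a m := by
    rw [hs, hm]
    rfl
  have htop : top a A.card = [a + A.card] := by
    unfold top
    rw [if_neg (by omega)]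
  have hss : ((a + A.card) :: (s' ++ top a m)).Perm X.s := by
    have h1 := hp.same.s
    rw [hs', htop] at h1
    exact (List.perm_append_comm (l₁ := [a + A.card])).trans h1
  have hsub : ∀ b, b ∈ (a + A.card) :: s' → b ∈ X.s := by
    intro b hb
    refine hss.mem_iff.1 ?_
    rcases List.mem_cons.1 hb with h | h
    · exact h ▸ List.mem_cons_self
    · exact List.mem_cons_of_mem _ (List.mem_append_left _ h)
  have hwp : (swp Y'.w (a + A.card)).Perm X.w := (swp_perm hr0 hr1).trans hp.same.w
  refine ⟨⟨?_, ?_, ?_, ?_, ?_⟩, ⟨?_, ?_, ?_⟩, ?_, ?_, ?_, ?_⟩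
  · exact hwp.symm.nodup g.wn
  · have h1 := hss.symm.nodup g.sn
    rw [List.nodup_cons] at h1
    refine List.nodup_cons.2 ⟨fun h => h1.1 (List.mem_append_left _ h), ?_⟩
    exact h1.2.of_append_left
  · intro b hb
    rw [hcard] at hb
    unfold subPi at hb
    rw [Finset.mem_erase, Finset.mem_erase] at hb
    have h1 := hss.mem_iff.2 (g.sub b hb.2.2)
    rcases List.mem_cons.1 h1 with h1 | h1
    · exact h1 ▸ List.mem_cons_self
    · rcases List.mem_append.1 h1 with h1 | h1
      · exact List.mem_cons_of_mem _ h1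
      · exfalso
        unfold top at h1
        split_ifs at h1
        · exact List.not_mem_nil h1
        · exact hb.2.1 (List.mem_singleton.1 h1)
  · intro b hb
    exact g.pos b (hsub b hb)
  · intro b hb
    show b < (swp Y'.w (a + A.card)).length
    rw [hwp.length_eq]
    exact g.lt b (hsub b hb)
  · exact hwp
  · show (((a + A.card) :: s') ++ top a (A.erase y).card).Perm X.s
    rw [hcard, List.cons_append]
    exact hss
  · intro b hb
    show pre (swp Y'.w (a + A.card)) b = pre X.w b
    have hne : b ≠ a + A.card := by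
      rintro rfl
      exact hb hrPi
    rw [pre_swp hr0 hr1 hne]
    exact hp.same.fix b hb
  · rw [hcard]
    omega
  · show (swp Y'.w (a + A.card))[a + (A.erase y).card]? = some z
    have h1 := swp_left hr0 hr1
    have h2 : a + A.card - 1 = a + m := by omega
    rw [h2] at h1
    rw [hcard, h1]
    exact hp.atz
  · exact Finset.disjoint_of_subset_right (Finset.erase_subset _ _) hp.disj
  · show pre (swp Y'.w (a + A.card)) (a + (A.erase y).card) = pre X.w a ∪ A.erase y
    rw [hcard, pre_swp hr0 hr1 (by omega)]
    have h1 : (pre Y'.w (a + A.card)).erase y = pre Y'.w (a + m) := by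
      rw [hpre, Finset.erase_insert hyn]
    rw [← h1, hp.pre, Finset.erase_union_distrib, Finset.erase_eq_of_notMem hya]

end

end Pool.Agent.RS
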