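import Pool.Agent.RS.RunStep
import Pool.Agent.RS.Path

/-!
# RS module RunFrom: runs along a path of flips

Providers: in every phase (with a possible start flag, `St`) one can end with a prescribed first
letter after `z` (`hU`, to add it), and with a prescribed last letter of `A` (`hL`, to remove it).
-/

set_option autoImplicit false

namespace Pool.Agent.RS

open Finset

namespace RunFromAux

theorem flip_true (A : Finset ℕ) (x : ℕ) : flip A (true, x) = insert x A := by simp [flip]

theorem flip_false (A : Finset ℕ) (x : ℕ) : flip A (false, x) = A.erase x := by simp [flip]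

theorem sets_true (A : Finset ℕ) (x : ℕ) (fs : List Flip) :
    setsOf A ((true, x) :: fs) = insert x A :: setsOf (insert x A) fs := by
  simp only [setsOf, flip_true]

theorem sets_false (A : Finset ℕ) (x : ℕ) (fs : List Flip) :
    setsOf A ((false, x) :: fs) = A.erase x :: setsOf (A.erase x) fs := by
  simp only [setsOf, flip_false]

theorem end_true (A : Finset ℕ) (x : ℕ) (fs : List Flip) :
    endOf A ((true, x) :: fs) = endOf (insert x A) fs := by
  simp only [endOf, flip_true]

theorem end_false (A : Finset ℕ) (x : ℕ) (fs : List Flip) :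
    endOf A ((false, x) :: fs) = endOf (A.erase x) fs := by
  simp only [endOf, flip_false]

theorem getLast_eq (A : Finset ℕ) (fs : List Flip) :
    (A :: setsOf A fs).dropLast ++ [endOf A fs] = A :: setsOf A fs := by
  induction fs generalizing A with
  | nil => rfl
  | cons f fs ih =>
    simp only [setsOf, endOf, List.dropLast_cons_cons, List.cons_append]
    rw [ih]

theorem drop_toFinset {S : Finset ℕ} {x : ℕ} {fs : List Flip}
    (h1 : StepsOK S ∅ fs) (h2 : (∅ :: setsOf ∅ fs).Nodup)
    (h3 : ∀ B, B ⊆ S → B ∈ ∅ :: setsOf ∅ fs) (h4 : endOf ∅ fs = {x}) :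
    (∅ :: setsOf ∅ fs).dropLast.toFinset = S.powerset.erase {x} := by
  have h5 := getLast_eq ∅ fs
  rw [h4] at h5
  have h6 : ((∅ :: setsOf ∅ fs).dropLast ++ [{x}]).Nodup := by rw [h5]; exact h2
  have h7 : ({x} : Finset ℕ) ∉ (∅ :: setsOf ∅ fs).dropLast := by
    intro hm
    rw [List.nodup_append] at h6
    exact h6.2.2 _ hm _ (List.mem_singleton.2 rfl) rfl
  ext B
  rw [List.mem_toFinset, Finset.mem_erase, Finset.mem_powerset]
  constructor
  · intro hB
    refine ⟨fun h => h7 (h ▸ hB), ?_⟩
    refine setsOf_subset (Finset.empty_subset S) h1 B ?_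
    rw [← h5]
    exact List.mem_append_left _ hB
  · rintro ⟨hB, hBS⟩
    have h8 := h3 B hBS
    rw [← h5] at h8
    rcases List.mem_append.1 h8 with h9 | h9
    · exact h9
    · exact absurd (List.mem_singleton.1 h9) hB

end RunFromAux

open RunFromAux

section

variable {Pi : Finset ℕ} {X : Fl} {a k z : ℕ}

/-- MAIN LEMMA: run along a path of flips. Since `∅` is visited at the beginning of every run
(`∅ = A0` or `∅ ∈ vis`) no flip leads to `∅`. -/
theorem run_from (g : Good Pi X) (c : IsComp Pi X a k) (hz : X.w[a]? = some z)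
    (hU : ∀ A X', A.card + 1 < k → St Pi X a k z A X' →
      EUc (subPi Pi a A.card) X' (a + A.card + 1) (k - 1 - A.card))
    (hL : ∀ A X', 2 ≤ A.card → St Pi X a k z A X' → ELc (subPi Pi a A.card) X' a A.card)
    {vis : Finset (Finset ℕ)} {A0 : Finset ℕ} {X0 : Fl} {lam : Option ℕ} {fs : List Flip}
    (hv : ∀ B ∈ vis, B ⊆ compS X a k z) (hst : St Pi X a k z A0 X0)
    (hr : RunS Pi X a z vis ⟨X0.w, X0.s ++ top a A0.card⟩)
    (h0 : A0 = ∅ ∨ ∅ ∈ vis)
    (hlam : A0.Nonempty → lam = X0.w[a + A0.card - 1]?)
    (h1 : StepsOK (compS X a k z) A0 fs) (h2 : (A0 :: setsOf A0 fs).Nodup)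
    (h3 : ∀ B ∈ A0 :: setsOf A0 fs, B ∉ vis) (h4 : LamOK A0 lam fs) :
    ∃ X', St Pi X a k z (endOf A0 fs) X' ∧
      RunS Pi X a z (vis ∪ (A0 :: setsOf A0 fs).dropLast.toFinset)
        ⟨X'.w, X'.s ++ top a (endOf A0 fs).card⟩ ∧
      ((endOf A0 fs).Nonempty → lamEnd lam fs = X'.w[a + (endOf A0 fs).card - 1]?) ∧
      ∀ y, fs.getLast? = some (false, y) → X'.w[a + (endOf A0 fs).card + 1]? = some y ∧
        ∃ s, X'.s = (a + (endOf A0 fs).card + 1) :: s := by
  induction fs generalizing vis A0 X0 lam with
  | nil =>
    refine ⟨X0, hst, ?_, hlam, fun y hy => ?_⟩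
    · have : vis ∪ (A0 :: setsOf A0 []).dropLast.toFinset = vis := by simp [setsOf]
      rw [this]
      exact hr
    · simp at hy
  | cons f fs ih =>
    have hAS : A0 ⊆ compS X a k z := hst.ph.sub g c
    have hv' : ∀ B ∈ insert A0 vis, B ⊆ compS X a k z := by
      intro B hB
      rcases Finset.mem_insert.1 hB with h | h
      · rw [h]
        exact hAS
      · exact hv B h
    have hA0 : A0 ∉ vis := h3 A0 List.mem_cons_self
    have hk : 0 < k := c.one
    obtain ⟨b, x⟩ := f
    cases b with
    | true =>
      rw [sets_true] at h2 h3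
      obtain ⟨hx, hxA, h1'⟩ := h1
      have hcard : (insert x A0).card = A0.card + 1 := Finset.card_insert_of_notMem hxA
      have hlt : A0.card + 1 < k := by
        have e1 := compS_card g c (z := z) ⟨0, hk, by simpa using hz⟩
        have e2 := Finset.card_le_card (Finset.insert_subset hx hAS)
        omega
      obtain ⟨X'', k1, k2, k3⟩ := step_U g c hz hv hst hr hA0 hx hxA
        (h3 _ (List.mem_cons_of_mem _ List.mem_cons_self)) (hU A0 X0 hlt hst)
      have h2' := (List.nodup_cons.1 h2)
      obtain ⟨X', m1, m2, m3, m4⟩ := ih (vis := insert A0 vis) (A0 := insert x A0) (X0 := X'')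
        (lam := some x) hv' k1 k2
        (Or.inr (by
          rcases h0 with h | h
          · rw [h]
            exact Finset.mem_insert_self _ _
          · exact Finset.mem_insert_of_mem h))
        (fun _ => by
          have e : a + (insert x A0).card - 1 = a + A0.card := by omega
          rw [e]
          exact k3.symm)
        h1' h2'.2
        (fun B hB hB' => by
          rcases Finset.mem_insert.1 hB' with h | h
          · exact h2'.1 (h ▸ hB)
          · exact h3 B (List.mem_cons_of_mem _ hB) h)
        h4
      rw [sets_true, end_true]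
      refine ⟨X', m1, ?_, m3, ?_⟩
      · have e : vis ∪ (A0 :: insert x A0 :: setsOf (insert x A0) fs).dropLast.toFinset =
            insert A0 vis ∪ (insert x A0 :: setsOf (insert x A0) fs).dropLast.toFinset := by
          rw [List.dropLast_cons_cons, List.toFinset_cons]
          ext B
          simp only [Finset.mem_union, Finset.mem_insert]
          tauto
        rw [e]
        exact m2
      · intro y hy
        refine m4 y ?_
        cases fs with
        | nil => simp at hy
        | cons f' fs' => rwa [List.getLast?_cons_cons] at hy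
    | false =>
      rw [sets_false] at h2 h3
      obtain ⟨hx, h1'⟩ := h1
      obtain ⟨hl, h4'⟩ := h4
      have hne : A0.Nonempty := ⟨x, hx⟩
      have hev : ∅ ∈ vis := by
        rcases h0 with h | h
        · rw [h] at hx
          simp at hx
        · exact h
      have hcard : (A0.erase x).card = A0.card - 1 := Finset.card_erase_of_mem hx
      have hnz : A0.erase x ≠ ∅ := fun h =>
        h3 _ (List.mem_cons_of_mem _ List.mem_cons_self) (h ▸ hev)
      have h2c : 2 ≤ A0.card := by
        have := Finset.card_pos.2 (Finset.nonempty_iff_ne_empty.2 hnz)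
        omega
      obtain ⟨X'', k1, k2, k3, k4, k5⟩ := step_L g c hz hv hst hr hA0 hx h2c
        (fun h => hl h2c (by rw [hlam hne, h]))
        (h3 _ (List.mem_cons_of_mem _ List.mem_cons_self)) (hL A0 X0 h2c hst)
      have h2' := (List.nodup_cons.1 h2)
      rw [sets_false, end_false]
      cases fs with
      | nil =>
        refine ⟨X'', k1, ?_, ?_, ?_⟩
        · have e : vis ∪ (A0 :: A0.erase x :: setsOf (A0.erase x) []).dropLast.toFinset =
              insert A0 vis := by
            ext B
            simp [setsOf]
          rw [e]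
          exact k2
        · intro _
          change lam = _
          rw [hlam hne]
          exact k3.symm
        · intro y hy
          have hxy : y = x := by
            simp at hy
            exact hy.symm
          rw [hxy]
          exact ⟨k4, k5⟩
      | cons f' fs' =>
        obtain ⟨X', m1, m2, m3, m4⟩ := ih (vis := insert A0 vis) (A0 := A0.erase x) (X0 := X'')
          (lam := lam) hv' k1 k2
          (Or.inr (Finset.mem_insert_of_mem hev))
          (fun _ => by rw [hlam hne]; exact k3.symm)
          h1' h2'.2
          (fun B hB hB' => by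
            rcases Finset.mem_insert.1 hB' with h | h
            · exact h2'.1 (h ▸ hB)
            · exact h3 B (List.mem_cons_of_mem _ hB) h)
          h4'
        refine ⟨X', m1, ?_, m3, ?_⟩
        · have e : vis ∪ (A0 :: A0.erase x :: setsOf (A0.erase x) (f' :: fs')).dropLast.toFinset =
              insert A0 vis ∪ (A0.erase x :: setsOf (A0.erase x) (f' :: fs')).dropLast.toFinset := by
            rw [List.dropLast_cons_cons, List.toFinset_cons]
            ext B
            simp only [Finset.mem_union, Finset.mem_insert]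
            tauto
          rw [e]
          exact m2
        · intro y hy
          refine m4 y ?_
          rwa [List.getLast?_cons_cons] at hy

/-- the complete run: from `X` to the start flag of the phase of `{x}`, the last phase. `c` is the
letter removed last. -/
theorem run_to_last (g : Good Pi X) (c : IsComp Pi X a k) (hz : X.w[a]? = some z)
    (hU : ∀ A X', A.card + 1 < k → St Pi X a k z A X' →
      EUc (subPi Pi a A.card) X' (a + A.card + 1) (k - 1 - A.card))
    (hL : ∀ A X', 2 ≤ A.card → St Pi X a k z A X' → ELc (subPi Pi a A.card) X' a A.card)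
    {x y : ℕ} (hx : x ∈ compS X a k z) (hy : y ∈ compS X a k z) (hxy : x ≠ y) :
    ∃ X', St Pi X a k z {x} X' ∧
      RunS Pi X a z ((compS X a k z).powerset.erase {x}) ⟨X'.w, X'.s ++ [a + 1]⟩ ∧
      X'.w[a]? = some x ∧ X'.w[a + 1]? = some z ∧ X'.w[a + 2]? = some y ∧
      ∃ s, X'.s = (a + 2) :: s := by
  obtain ⟨fs, p1, p2, p3, p4, p5, p6⟩ := exists_path hx hy hxy
  obtain ⟨X', m1, m2, _, m4⟩ := run_from g c hz hU hL (vis := ∅) (A0 := ∅) (X0 := X)
    (lam := none) (fs := fs) (by simp) (st_init g c hz)
    (by
      have h := runS_init (z := z) g c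
      have e : X.s ++ top a (∅ : Finset ℕ).card = X.s := by simp [top]
      rw [e]
      exact h)
    (Or.inl rfl) (by simp) p1 p2 (by simp) p5
  rw [p4] at m1 m2 m4
  rw [Finset.empty_union, drop_toFinset p1 p2 p3 p4] at m2
  obtain ⟨m5, s, hs⟩ := m4 y p6
  refine ⟨X', m1, ?_, ?_, ?_, ?_, s, ?_⟩
  · simpa [top] using m2
  · obtain ⟨i, hi, hi'⟩ := (m1.ph.mem_A g c).1 (Finset.mem_singleton_self x)
    rw [Finset.card_singleton] at hi
    have : i = 0 := by omega
    rw [this] at hi'
    simpa using hi'
  · have := m1.ph.atz
    rwa [Finset.card_singleton] at this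
  · rwa [Finset.card_singleton] at m5
  · rw [hs, Finset.card_singleton]

/-- the complete run, without condition on the last flip -/
theorem run_to_last' (g : Good Pi X) (c : IsComp Pi X a k) (hz : X.w[a]? = some z)
    (hU : ∀ A X', A.card + 1 < k → St Pi X a k z A X' →
      EUc (subPi Pi a A.card) X' (a + A.card + 1) (k - 1 - A.card))
    (hL : ∀ A X', 2 ≤ A.card → St Pi X a k z A X' → ELc (subPi Pi a A.card) X' a A.card)
    {x : ℕ} (hx : x ∈ compS X a k z) :
    ∃ X', St Pi X a k z {x} X' ∧
      RunS Pi X a z ((compS X a k z).powerset.erase {x}) ⟨X'.w, X'.s ++ [a + 1]⟩ ∧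
      X'.w[a]? = some x ∧ X'.w[a + 1]? = some z := by
  obtain ⟨fs, p1, p2, p3, p4, p5⟩ := exists_path_one hx
  obtain ⟨X', m1, m2, _, _⟩ := run_from g c hz hU hL (vis := ∅) (A0 := ∅) (X0 := X)
    (lam := none) (fs := fs) (by simp) (st_init g c hz)
    (by
      have h := runS_init (z := z) g c
      have e : X.s ++ top a (∅ : Finset ℕ).card = X.s := by simp [top]
      rw [e]
      exact h)
    (Or.inl rfl) (by simp) p1 p2 (by simp) p5
  rw [p4] at m1 m2
  rw [Finset.empty_union, drop_toFinset p1 p2 p3 p4] at m2
  refine ⟨X', m1, ?_, ?_, ?_⟩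
  · simpa [top] using m2
  · obtain ⟨i, hi, hi'⟩ := (m1.ph.mem_A g c).1 (Finset.mem_singleton_self x)
    rw [Finset.card_singleton] at hi
    have : i = 0 := by omega
    rw [this] at hi'
    simpa using hi'
  · have := m1.ph.atz
    rwa [Finset.card_singleton] at this

end

end Pool.Agent.RS
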