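import Pool.Agent.RS.Run
import Pool.Agent.RS.Path

/-!
# RS module RunGen: runs along a path of flips with an arbitrary invariant
-/

set_option autoImplicit false

namespace Pool.Agent.RS

open Finset

/-- `I A fs X'`: invariant of the start flag `X'` of the phase of `A` when the flips `fs` remain.
Induction on `fs`: `runS_phase`, then `phaseAt_U`, `runE_U` or `phaseAt_L`, `runE_L`. A flip
`(false, y)` with `A = {y}` would lead to `∅`, which is visited. -/
theorem run_gen {Pi : Finset ℕ} {X : Fl} {a k z : ℕ} (g : Good Pi X) (c : IsComp Pi X a k)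
    (I : Finset ℕ → List Flip → Fl → Prop)
    (hU : ∀ A x fs X', PhaseAt Pi X a k z A X' → I A ((true, x) :: fs) X' →
      x ∈ compS X a k z → x ∉ A → ∃ Y s', Strip (subPi Pi a A.card) X' Y ∧
        Y.s = (a + A.card + 1) :: s' ∧ Y.w[a + A.card + 1]? = some x ∧
        I (insert x A) fs ⟨swp Y.w (a + A.card + 1), s' ++ top a A.card⟩)
    (hL : ∀ A y fs X', PhaseAt Pi X a k z A X' → I A ((false, y) :: fs) X' →
      y ∈ A → 2 ≤ A.card → ∃ Y s', Strip (subPi Pi a A.card) X' Y ∧
        Y.s = s' ++ top a (A.card - 1) ∧ Y.w[a + A.card - 1]? = some y ∧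
        I (A.erase y) fs ⟨swp Y.w (a + A.card), (a + A.card) :: s'⟩)
    {vis : Finset (Finset ℕ)} {A0 : Finset ℕ} {X0 : Fl} {fs : List Flip}
    (hv : ∀ B ∈ vis, B ⊆ compS X a k z) (hp : PhaseAt Pi X a k z A0 X0)
    (hr : RunS Pi X a z vis ⟨X0.w, X0.s ++ top a A0.card⟩) (h0 : A0 = ∅ ∨ ∅ ∈ vis)
    (hi : I A0 fs X0) (h1 : StepsOK (compS X a k z) A0 fs) (h2 : (A0 :: setsOf A0 fs).Nodup)
    (h3 : ∀ B ∈ A0 :: setsOf A0 fs, B ∉ vis) :
    ∃ X', PhaseAt Pi X a k z (endOf A0 fs) X' ∧
      RunS Pi X a z (vis ∪ (A0 :: setsOf A0 fs).dropLast.toFinset)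
        ⟨X'.w, X'.s ++ top a (endOf A0 fs).card⟩ ∧ I (endOf A0 fs) [] X' := by
  classical
  induction fs generalizing A0 X0 vis with
  | nil =>
    refine ⟨X0, hp, ?_, hi⟩
    have h5 : vis ∪ (A0 :: setsOf A0 []).dropLast.toFinset = vis := by
      show vis ∪ (∅ : Finset (Finset ℕ)) = vis
      rw [Finset.union_empty]
    rw [h5]
    exact hr
  | cons f fs ih =>
    have hA : A0 ∉ vis := h3 A0 List.mem_cons_self
    have hv' : ∀ B ∈ insert A0 vis, B ⊆ compS X a k z := by
      intro B hB
      rcases Finset.mem_insert.1 hB with rfl | hB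
      · exact hp.sub g c
      · exact hv B hB
    have h0' : flip A0 f = ∅ ∨ ∅ ∈ insert A0 vis := by
      right
      rcases h0 with h0 | h0
      · rw [h0]
        exact Finset.mem_insert_self _ _
      · exact Finset.mem_insert_of_mem h0
    have h2' : (flip A0 f :: setsOf (flip A0 f) fs).Nodup := (List.nodup_cons.1 h2).2
    have h2A : A0 ∉ flip A0 f :: setsOf (flip A0 f) fs := (List.nodup_cons.1 h2).1
    have h3' : ∀ B ∈ flip A0 f :: setsOf (flip A0 f) fs, B ∉ insert A0 vis := by
      intro B hB h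
      rcases Finset.mem_insert.1 h with h | h
      · rw [h] at hB
        exact h2A hB
      · exact h3 B (List.mem_cons_of_mem _ hB) h
    have hset : vis ∪ (A0 :: setsOf A0 (f :: fs)).dropLast.toFinset =
        insert A0 vis ∪ (flip A0 f :: setsOf (flip A0 f) fs).dropLast.toFinset := by
      have h5 : (A0 :: setsOf A0 (f :: fs)).dropLast =
          A0 :: (flip A0 f :: setsOf (flip A0 f) fs).dropLast := rfl
      rw [h5, List.toFinset_cons, Finset.union_insert, Finset.insert_union]
    have hfl : flip A0 f ∉ insert A0 vis := h3' _ List.mem_cons_self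
    rw [hset]
    show ∃ X', PhaseAt Pi X a k z (endOf (flip A0 f) fs) X' ∧
      RunS Pi X a z (insert A0 vis ∪ (flip A0 f :: setsOf (flip A0 f) fs).dropLast.toFinset)
        ⟨X'.w, X'.s ++ top a (endOf (flip A0 f) fs).card⟩ ∧ I (endOf (flip A0 f) fs) [] X'
    obtain ⟨b, x⟩ := f
    cases b with
    | true =>
      have hfe : flip A0 (true, x) = insert x A0 := rfl
      rw [hfe] at h0' h2' h3' hfl ⊢
      obtain ⟨hx, hxA, h1'⟩ := h1
      obtain ⟨Y, s', hs, hr', hw, hI⟩ := hU A0 x fs X0 hp hi hx hxA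
      obtain ⟨i, hi', hxi⟩ := (hp.mem_B g c).1 ⟨hx, hxA⟩
      have hnk : A0.card + 1 < k := by omega
      have hp' : PhaseAt Pi X a k z A0 Y := hp.strip g c hs
      have hE := runS_phase g c hr hp hv hA hs
      exact ih hv' (phaseAt_U g c hp' hnk hr' hw) (runE_U g c hE hp' hv' hnk hr' hw hfl) h0' hI
        h1' h2' h3'
    | false =>
      have hfe : flip A0 (false, x) = A0.erase x := rfl
      rw [hfe] at h0' h2' h3' hfl ⊢
      obtain ⟨hx, h1'⟩ := h1
      have hc2 : 2 ≤ A0.card := by
        by_contra hcon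
        have h5 : A0.card = 1 := by
          have : 0 < A0.card := Finset.card_pos.2 ⟨x, hx⟩
          omega
        obtain ⟨y, hy⟩ := Finset.card_eq_one.1 h5
        rw [hy, Finset.mem_singleton] at hx
        have h6 : A0.erase x = ∅ := by
          rw [hy, hx, Finset.erase_singleton]
        rw [h6] at hfl
        rcases h0 with h0 | h0
        · rw [hy] at h0
          exact Finset.singleton_ne_empty _ h0
        · exact hfl (Finset.mem_insert_of_mem h0)
      obtain ⟨Y, s', hs, hr', hw, hI⟩ := hL A0 x fs X0 hp hi hx hc2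
      have hp' : PhaseAt Pi X a k z A0 Y := hp.strip g c hs
      have hE := runS_phase g c hr hp hv hA hs
      exact ih hv' (phaseAt_L g c hp' ⟨x, hx⟩ hw hr') (runE_L g c hE hp' hv' ⟨x, hx⟩ hw hr' hfl)
        h0' hI h1' h2' h3'

end Pool.Agent.RS
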