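import Pool.Agent.RS.Step6

/-!
# RS module Zl: configurations without ε-bars and with one component
-/

set_option autoImplicit false

namespace Pool.Agent.RS

open Finset

/-- one component of size `k`, no other bars, the last bar of the component on the top: one can end
with a prescribed last letter (see `ELc`) -/
def ZL (k : ℕ) : Prop := ∀ (Pi : Finset ℕ) (X : Fl) (a : ℕ), Good Pi X → IsComp Pi X a k →
  (∀ b ∈ X.s, a < b ∧ b < a + k) → X.s.getLast? = some (a + k - 1) → ELc Pi X a k

/-- the bars of such a configuration -/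
theorem zl_bars {Pi : Finset ℕ} {X : Fl} {a k : ℕ} (g : Good Pi X) (c : IsComp Pi X a k)
    (h : ∀ b ∈ X.s, a < b ∧ b < a + k) :
    Pi = X.s.toFinset ∧ Pi.card = k - 1 ∧ X.s.length = k - 1 := by
  have h1 : Pi = X.s.toFinset := by
    ext b
    rw [List.mem_toFinset]
    exact ⟨fun hb => g.sub b hb, fun hb => c.mem b (h b hb).1 (h b hb).2⟩
  have h2 : Pi = Finset.Ioo a (a + k) := by
    ext b
    rw [Finset.mem_Ioo]
    refine ⟨fun hb => h b (g.sub b hb), fun hb => c.mem b hb.1 hb.2⟩
  have h3 : Pi.card = k - 1 := by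
    rw [h2, Nat.card_Ioo]
    omega
  refine ⟨h1, h3, ?_⟩
  rw [← h3, h1, List.toFinset_card_of_nodup g.sn]

/-- providers for the phases with `A.card + 1 < k`, `8 ≤ k`: in the phase `∅` there are `k - 2` bars
in `subPi` and `k - 1` bars, in the others `k - 3 ≥ 5` and `k - 2` -/
theorem zl_phase (h4 : E4) (h5 : E5) {Pi : Finset ℕ} {X X' : Fl} {a k z : ℕ} {A : Finset ℕ}
    (hk : 8 ≤ k) (g : Good Pi X) (c : IsComp Pi X a k) (h : ∀ b ∈ X.s, a < b ∧ b < a + k)
    (hp : PhaseAt Pi X a k z A X') (hA : A.card + 1 < k) :
    EU (subPi Pi a A.card) X' ∧ EL (subPi Pi a A.card) X' := by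
  obtain ⟨-, h2, h3⟩ := zl_bars g c h
  have h4' := hp.picard g c
  have h5' := hp.slength g c
  rw [if_neg (by omega : ¬ (A.card + 1 = k))] at h4'
  apply all_E6 h4 h5 (V := (subPi Pi a A.card).card) _ _ _ hp.good rfl
  · split_ifs at h4' h5' <;> omega
  · split_ifs at h4' h5' <;> omega

/-- `ELc_of_mirror`; in the reflected configuration `run_to_last'` (first letter `z`, target `{y}`):
`zl_phase` for `A.card + 1 < k`, and for the phase of all letters `ZL (k - 1)` (by `St.full` the last
bar of its component is on the top). In the last phase `EU` with `low = []`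
(`Low Pi X low` implies `low = []` here), `last_phase`. The hypothesis on the top bar of `X` is not
needed for `8 ≤ k`. -/
theorem zl_step (h4 : E4) (h5 : E5) {k : ℕ} (hk : 8 ≤ k) (h : ZL (k - 1)) : ZL k := by
  intro Pi0 X0 a0 g0 c0 hs0 _
  apply ELc_of_mirror g0 c0 (by omega)
  have g := g0.refl
  have c := c0.refl g0
  have hs : ∀ b ∈ X0.refl.s, X0.w.length - (a0 + k) < b ∧ b < X0.w.length - (a0 + k) + k := by
    intro b hb
    have hb' : b ∈ X0.s.map (fun b => X0.w.length - b) := hb
    rw [List.mem_map] at hb'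
    obtain ⟨b', hb1, rfl⟩ := hb'
    have h1 := hs0 b' hb1
    have h2 := c0.le
    omega
  generalize X0.w.length - (a0 + k) = a at c hs ⊢
  generalize reflPi X0.w.length Pi0 = Pi at g c ⊢
  generalize X0.refl = X at g c hs ⊢
  clear hs0 c0 g0
  intro y low hy hlow
  have hz : ∃ z, X.w[a]? = some z := by
    have h1 := c.le
    have h2 : a < X.w.length := by omega
    exact ⟨X.w[a], List.getElem?_eq_getElem h2⟩
  obtain ⟨z, hz⟩ := hz
  obtain ⟨hPi, hcard, hlen⟩ := zl_bars g c hs
  have hlow0 : low = [] := by
    rcases low with _ | ⟨β, t⟩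
    · rfl
    · exfalso
      obtain ⟨h1, h2⟩ := hlow.mem β (by simp)
      apply h2
      rw [hPi, List.mem_toFinset]
      exact h1
  subst hlow0
  have hyS : y ∈ compS X a k z := by
    rw [mem_compS g c]
    obtain ⟨i, hi0, hik, hi⟩ := hy
    refine ⟨?_, i, hik, hi⟩
    rintro rfl
    have h1 := c.le
    have h2 : a + i < X.w.length := by omega
    have h3 : a < X.w.length := by omega
    rw [List.getElem?_eq_getElem h2] at hi
    rw [List.getElem?_eq_getElem h3] at hz
    have h4 : X.w[a + i] = X.w[a] := by
      rw [Option.some.injEq] at hi hz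
      rw [hi, hz]
    have := (List.Nodup.getElem_inj_iff g.wn).mp h4
    omega
  obtain ⟨X', hst, hrun, hy', hz'⟩ := run_to_last' g c hz
    (fun A X' hA hst => (zl_phase h4 h5 hk g c hs hst.ph hA).1 _ _ (hst.ph.compB g c hA))
    (by
      intro A X' hA hst
      rcases Nat.lt_or_ge (A.card + 1) k with h1 | h1
      · refine (zl_phase h4 h5 hk g c hs hst.ph h1).2 _ _ hA (hst.ph.compA g c ?_)
        rw [← Finset.card_pos]
        omega
      · have h2 := hst.ph.lt
        have h3 : A.card + 1 = k := by omega
        have hAne : A.Nonempty := by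
          rw [← Finset.card_pos]
          omega
        have h4 := hst.full hA h3
        have hc := hst.ph.compA g c hAne
        have hck : A.card = k - 1 := by omega
        have hZ := h (subPi Pi a A.card) X' a hst.ph.good (hck ▸ hc) ?_ (by rw [h4, hck])
        · rw [← hck] at hZ
          exact hZ
        · intro b hb
          have hperm := hst.ph.same.s
          have htop : top a A.card = [a + A.card] := by
            unfold top
            rw [if_neg (by omega)]
          simp only [htop] at hperm
          have hb1 : b ∈ X.s := hperm.mem_iff.mp (by simp [hb])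
          have hnd : (X'.s ++ [a + A.card]).Nodup := hperm.nodup_iff.mpr g.sn
          have hb2 : b ≠ a + A.card := by
            rintro rfl
            rw [List.nodup_append] at hnd
            exact hnd.2.2 _ hb _ (by simp) rfl
          have hb3 := hs b hb1
          omega)
    hyS
  have hA1 : ({y} : Finset ℕ).card + 1 < k := by
    rw [Finset.card_singleton]
    omega
  have hEU := (zl_phase h4 h5 hk g c hs hst.ph hA1).1
  have hcB := hst.ph.compB g c hA1
  have hx : ∃ x, X'.w[a + ({y} : Finset ℕ).card + 1 + 0]? = some x := by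
    have h1 := hcB.le
    have h2 : a + ({y} : Finset ℕ).card + 1 + 0 < X'.w.length := by
      rw [Finset.card_singleton] at h1 ⊢
      omega
    exact ⟨_, List.getElem?_eq_getElem h2⟩
  obtain ⟨x, hx⟩ := hx
  obtain ⟨Y', hY1, -, -⟩ := hEU _ _ hcB x [] ⟨0, by rw [Finset.card_singleton]; omega, hx⟩
    ⟨by simp, by simp, by simp⟩
  have htop1 : top a ({y} : Finset ℕ).card = [a + 1] := by
    simp [top]
  have hfin := last_phase g c hz hst.ph (by rw [htop1]; exact hrun) hY1
  rw [htop1] at hfin
  have hsame := hY1.same hst.ph.good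
  have hn0 : a ∉ subPi Pi a ({y} : Finset ℕ).card := by
    intro hh
    unfold subPi at hh
    exact c.left (Finset.mem_of_mem_erase (Finset.mem_of_mem_erase hh))
  have hn1 : a + 1 ∉ subPi Pi a ({y} : Finset ℕ).card := by
    simp [subPi]
  have hn2 : a + 1 + 1 ∉ subPi Pi a ({y} : Finset ℕ).card := by
    simp [subPi]
  refine ⟨_, hfin, List.nil_prefix, by simp, ?_, ?_⟩
  · show Y'.w[a]? = some y
    rw [hsame.getElem hst.ph.good hn0 hn1]
    exact hy'
  · show Y'.w[a + 1]? = X.w[a]?
    rw [hsame.getElem hst.ph.good hn1 hn2, hz', hz]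

theorem zl_all (h4 : E4) (h5 : E5) (h7 : ZL 7) {k : ℕ} (hk : 7 ≤ k) : ZL k := by
  induction k, hk using Nat.le_induction with
  | base => exact h7
  | succ m hm ih => exact zl_step h4 h5 (by omega) (by simpa using ih)

end Pool.Agent.RS
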