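import Pool.Agent.RS.Z7A
import Pool.Agent.RS.RunGen
import Pool.Agent.RS.Zl

/-!
# RS module Z7: one component of size seven, no other bars

Reflected configuration (`ELc_of_mirror`), component `(a, 7)`, `z` = first letter, target `{y}`,
`d = 6` bars. Phases: `A = ∅`: five bars in `subPi`, six bars: `E5` (prescribed first letter `e₁`,
lowest bar `a + 1`). `A = {e₁}`: components `{e₁}`, `z`, and one of size five (`subPi` has four bars,
five bars, one ε-bar `a + 2`), arbitrary start: `N1s` gives an end with lowest bars `a + 2, a + 3` and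
some first letter `e₂` after `z`. From then on the invariant is: for `1 ≤ |A| ≤ 5` the bottom bar of
the start is the ε-bar `a + |A| + 1`; for `|A| = 6` the last bar `a + 5` is on the top and the first
letter of the arrangement is the letter which is removed next. Path: `exists_path_first_two`.
-/

set_option autoImplicit false

namespace Pool.Agent.RS

open Finset

namespace Z7Aux

variable {Pi : Finset ℕ} {X X' Y' : Fl} {a k z : ℕ} {A : Finset ℕ} {vis : Finset (Finset ℕ)}

/-- one transition U after a finished phase -/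
theorem tranU (g : Good Pi X) (c : IsComp Pi X a k) (hv : ∀ B ∈ vis, B ⊆ compS X a k z)
    (hp : PhaseAt Pi X a k z A X') (hr : RunS Pi X a z vis ⟨X'.w, X'.s ++ top a A.card⟩)
    (hA : A ∉ vis) (hn : A.card + 1 < k) {Y : Fl} {s' : List ℕ}
    (hs : Strip (subPi Pi a A.card) X' Y) (hYs : Y.s = (a + A.card + 1) :: s') {x : ℕ}
    (hYw : Y.w[a + A.card + 1]? = some x) (hx : insert x A ∉ vis) :
    PhaseAt Pi X a k z (insert x A) ⟨swp Y.w (a + A.card + 1), s' ++ top a A.card⟩ ∧
      RunS Pi X a z (insert A vis) ⟨swp Y.w (a + A.card + 1),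
        (s' ++ top a A.card) ++ top a (insert x A).card⟩ := by
  have hp' : PhaseAt Pi X a k z A Y := hp.strip g c hs
  have hE := runS_phase g c hr hp hv hA hs
  have hv' : ∀ B ∈ insert A vis, B ⊆ compS X a k z := by
    intro B hB
    rcases Finset.mem_insert.1 hB with rfl | hB
    · exact hp.sub g c
    · exact hv B hB
  have hxA : x ∉ A := ((hp'.mem_B g c).2 ⟨0, by omega, hYw⟩).2
  have hn' : insert x A ∉ insert A vis := by
    intro h
    rcases Finset.mem_insert.1 h with h | h
    · exact hxA (h ▸ Finset.mem_insert_self x A)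
    · exact hx h
  exact ⟨phaseAt_U g c hp' hn hYs hYw, runE_U g c hE hp' hv' hn hYs hYw hn'⟩

/-- the invariant -/
structure Inv (Pi : Finset ℕ) (X : Fl) (a z : ℕ) (A : Finset ℕ) (fs : List Flip) (X' : Fl) :
    Prop where
  one : 1 ≤ A.card
  ok : StepsOK (compS X a 7 z) A fs
  lam : LamOK A (X'.w[a + A.card - 1]?) fs
  eps : A.card ≤ 5 → HeadEps (subPi Pi a A.card) X'
  last : A.card = 6 → X'.s.getLast? = some (a + 5)
  first : A.card = 6 → ∀ v fs', fs = (false, v) :: fs' → X'.w[a]? = some v

theorem notSub2 (Pi : Finset ℕ) (a n : ℕ) : a + n + 1 ∉ subPi Pi a n := by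
  unfold subPi
  exact Finset.notMem_erase _ _

theorem notSub1 (Pi : Finset ℕ) (a n : ℕ) : a + n ∉ subPi Pi a n := by
  unfold subPi
  intro h
  exact Finset.notMem_erase _ _ (Finset.mem_of_mem_erase h)

theorem card_compS (g : Good Pi X) (c : IsComp Pi X a 7) (hz : X.w[a]? = some z) :
    (compS X a 7 z).card = 6 := by
  have := compS_card g c (z := z) ⟨0, by omega, by simpa using hz⟩
  omega

/-- providers for the flips which add a letter -/
theorem provU (D : D7) (g : Good Pi X) (c : IsComp Pi X a 7)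
    (h : ∀ b ∈ X.s, a < b ∧ b < a + 7) (hz : X.w[a]? = some z) {x : ℕ} {fs : List Flip}
    (hp : PhaseAt Pi X a 7 z A X') (hi : Inv Pi X a z A ((true, x) :: fs) X')
    (hx : x ∈ compS X a 7 z) (hxA : x ∉ A) :
    ∃ Y s', Strip (subPi Pi a A.card) X' Y ∧
      Y.s = (a + A.card + 1) :: s' ∧ Y.w[a + A.card + 1]? = some x ∧
      Inv Pi X a z (insert x A) fs ⟨swp Y.w (a + A.card + 1), s' ++ top a A.card⟩ := by
  have hcS := card_compS g c hz
  have hcard : (insert x A).card = A.card + 1 := Finset.card_insert_of_notMem hxA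
  have hle : (insert x A).card ≤ 6 := by
    rw [← hcS]
    exact Finset.card_le_card (Finset.insert_subset hx (hp.sub g c))
  have hone := hi.one
  have hok : StepsOK (compS X a 7 z) (insert x A) fs := hi.ok.2.2
  have hlam : LamOK (insert x A) (some x) fs := hi.lam
  rcases Nat.lt_or_ge A.card 5 with h5 | h5
  · obtain ⟨Y, s', h1, h2, h3⟩ := z7_U D g c h hp hone (by omega) (hi.eps (by omega)) hx hxA
    have hlt : a + A.card + 1 < Y.w.length := (List.getElem?_eq_some_iff.1 h3).1
    have hsw := swp_left (w := Y.w) (b := a + A.card + 1) (by omega) hlt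
    refine ⟨Y, (a + A.card + 2) :: s', h1, h2, h3, ?_⟩
    refine
      { one := by omega
        ok := hok
        lam := ?_
        eps := fun _ => ?_
        last := fun h6 => by omega
        first := fun h6 => by omega }
    · have e : a + (insert x A).card - 1 = a + A.card + 1 - 1 := by omega
      rw [e]
      show LamOK (insert x A) ((swp Y.w (a + A.card + 1))[a + A.card + 1 - 1]?) fs
      rw [hsw, h3]
      exact hlam
    · refine ⟨a + A.card + 2, s' ++ top a A.card, rfl, ?_⟩
      rw [hcard]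
      exact notSub2 Pi a (A.card + 1)
  · have hA5 : A.card = 5 := by omega
    have hne : A.Nonempty := by
      rw [← Finset.card_pos]
      omega
    obtain ⟨v, hvA, hv⟩ : ∃ v ∈ A, ∀ v' fs', fs = (false, v') :: fs' → v' = v := by
      cases fs with
      | nil =>
        obtain ⟨v, hv⟩ := hne
        exact ⟨v, hv, fun v' fs' h => by simp at h⟩
      | cons f fs' =>
        obtain ⟨b, v⟩ := f
        cases b with
        | true =>
          obtain ⟨v, hv⟩ := hne
          exact ⟨v, hv, fun v' fs' h => by simp at h⟩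
        | false =>
          refine ⟨v, ?_, fun v' fs'' h => ?_⟩
          · have h1 : v ∈ insert x A := hok.1
            have h2 : 2 ≤ (insert x A).card → some x ≠ some v := hlam.1
            rcases Finset.mem_insert.1 h1 with h3 | h3
            · exact absurd (by rw [h3]) (h2 (by omega))
            · exact h3
          · simp only [List.cons.injEq, Prod.mk.injEq, true_and] at h
            exact h.1.symm
    obtain ⟨Y, s', h1, h2, h3⟩ := z7_U5 D g c h hp hA5 (hi.eps (by omega)) hvA
    have hp' := hp.strip g c h1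
    have hY : Y.w[a + A.card + 1]? = some x := by
      obtain ⟨i, hi, hix⟩ := (hp'.mem_B g c).1 ⟨hx, hxA⟩
      have : i = 0 := by omega
      rw [this] at hix
      simpa using hix
    have hlt : a + A.card + 1 < Y.w.length := (List.getElem?_eq_some_iff.1 hY).1
    have hsw := swp_left (w := Y.w) (b := a + A.card + 1) (by omega) hlt
    refine ⟨Y, s', h1, ?_, hY, ?_⟩
    · rw [h2, hA5]
    refine
      { one := by omega
        ok := hok
        lam := ?_
        eps := fun h6 => by omega
        last := fun _ => ?_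
        first := fun _ v' fs' hfs => ?_ }
    · have e : a + (insert x A).card - 1 = a + A.card + 1 - 1 := by omega
      rw [e]
      show LamOK (insert x A) ((swp Y.w (a + A.card + 1))[a + A.card + 1 - 1]?) fs
      rw [hsw, hY]
      exact hlam
    · show (s' ++ top a A.card).getLast? = some (a + 5)
      unfold top
      rw [if_neg (by omega), List.getLast?_concat, hA5]
    · show (swp Y.w (a + A.card + 1))[a]? = some v'
      rw [swp_other (w := Y.w) (b := a + A.card + 1) (by omega) hlt (by omega) (by omega), h3,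
        hv v' fs' hfs]

/-- the strip of a phase which ends with the letter `y`, `2 ≤ A.card` -/
theorem stripL (D : D7) (g : Good Pi X) (c : IsComp Pi X a 7)
    (h : ∀ b ∈ X.s, a < b ∧ b < a + 7) {y : ℕ} {fs : List Flip}
    (hp : PhaseAt Pi X a 7 z A X') (hi : Inv Pi X a z A ((false, y) :: fs) X')
    (hy : y ∈ A) (h2 : 2 ≤ A.card) :
    ∃ Y, Strip (subPi Pi a A.card) X' Y ∧ Y.s.getLast? = some (a + A.card - 1) ∧
      Y.w[a + A.card - 1]? = some y ∧ Y.w[a + A.card - 2]? = X'.w[a + A.card - 1]? := by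
  have hlt := hp.lt
  have hlam : X'.w[a + A.card - 1]? ≠ some y := hi.lam.1 h2
  rcases Nat.lt_or_ge A.card 6 with h5 | h5
  · have hE := z7_L D g c h hp h2 (by omega) (hi.eps (by omega))
    obtain ⟨i, hi1, hi2⟩ := (hp.mem_A g c).1 hy
    have hi' : i + 1 < A.card := by
      by_contra hc
      have h1 : i = A.card - 1 := by omega
      apply hlam
      rw [← hi2, h1]
      congr 1
      omega
    obtain ⟨Y, hs, -, hlast, hw1, hw2⟩ := hE y [] ⟨i, hi', hi2⟩ ⟨by simp, by simp, by simp⟩
    exact ⟨Y, hs, hlast, hw1, hw2⟩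
  · have h6 : A.card = 6 := by omega
    have hc := hp.compA g c ⟨y, hy⟩
    have hbars : ∀ b ∈ X'.s, a < b ∧ b < a + 6 := by
      intro b hb
      have hperm := hp.same.s
      have htop : top a A.card = [a + A.card] := by
        unfold top
        rw [if_neg (by omega)]
      simp only [htop] at hperm
      have hb1 : b ∈ X.s := hperm.mem_iff.mp (by simp [hb])
      have hnd : (X'.s ++ [a + A.card]).Nodup := hperm.nodup_iff.mpr g.sn
      have hb2 : b ≠ a + A.card := by
        rintro rfl
        rw [List.nodup_append] at hnd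
        exact hnd.2.2 _ hb _ (by simp) rfl
      have hb3 := h b hb1
      omega
    rw [h6] at hc
    have hg := hp.good
    rw [h6] at hg
    obtain ⟨Y, hs, hlast, hw1, hw2⟩ := D.z6 (subPi Pi a 6) X' a hg hc hbars (hi.last h6)
    refine ⟨Y, ?_, ?_, ?_, ?_⟩
    · rw [h6]
      exact hs
    · rw [hlast, h6]
      rfl
    · have e : a + A.card - 1 = a + 5 := by omega
      rw [e, hw1]
      exact hi.first h6 y fs rfl
    · have e : a + A.card - 1 = a + 5 := by omega
      have e' : a + A.card - 2 = a + 4 := by omega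
      rw [e, e', hw2]

/-- providers for the flips which remove a letter -/
theorem provL (D : D7) (g : Good Pi X) (c : IsComp Pi X a 7)
    (h : ∀ b ∈ X.s, a < b ∧ b < a + 7) {y : ℕ} {fs : List Flip}
    (hp : PhaseAt Pi X a 7 z A X') (hi : Inv Pi X a z A ((false, y) :: fs) X')
    (hy : y ∈ A) (h2 : 2 ≤ A.card) :
    ∃ Y s', Strip (subPi Pi a A.card) X' Y ∧
      Y.s = s' ++ top a (A.card - 1) ∧ Y.w[a + A.card - 1]? = some y ∧
      Inv Pi X a z (A.erase y) fs ⟨swp Y.w (a + A.card), (a + A.card) :: s'⟩ := by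
  have hcard : (A.erase y).card = A.card - 1 := Finset.card_erase_of_mem hy
  have hlt7 := hp.lt
  obtain ⟨Y, hs, hlast, hw1, hw2⟩ := stripL D g c h hp hi hy h2
  have hp' := hp.strip g c hs
  have hok : StepsOK (compS X a 7 z) (A.erase y) fs := hi.ok.2
  have hlam : LamOK (A.erase y) (X'.w[a + A.card - 1]?) fs := hi.lam.2
  have htop : top a (A.card - 1) = [a + A.card - 1] := by
    unfold top
    rw [if_neg (by omega)]
    congr 1
    omega
  obtain ⟨s', hs'⟩ : ∃ s', Y.s = s' ++ [a + A.card - 1] := by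
    rcases List.eq_nil_or_concat Y.s with h | ⟨L, b, h⟩
    · rw [h] at hlast
      simp at hlast
    · rw [h, List.concat_eq_append, List.getLast?_concat] at hlast
      refine ⟨L, ?_⟩
      rw [h, List.concat_eq_append, Option.some.inj hlast]
  have hlt : a + A.card < Y.w.length := (List.getElem?_eq_some_iff.1 hp'.atz).1
  refine ⟨Y, s', hs, by rw [htop, hs'], hw1, ?_⟩
  refine
    { one := by omega
      ok := hok
      lam := ?_
      eps := fun _ => ?_
      last := fun h6 => by omega
      first := fun h6 => by omega }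
  · have e : a + (A.erase y).card - 1 = a + A.card - 2 := by omega
    rw [e]
    show LamOK (A.erase y) ((swp Y.w (a + A.card))[a + A.card - 2]?) fs
    rw [swp_other (w := Y.w) (b := a + A.card) (by omega) hlt (by omega) (by omega), hw2]
    exact hlam
  · refine ⟨a + A.card, s', rfl, ?_⟩
    rw [hcard]
    have e : a + A.card = a + (A.card - 1) + 1 := by omega
    rw [e]
    exact notSub2 Pi a (A.card - 1)

/-- the union of the visited sets and the rest of the path -/
theorem drop_toFinset {S : Finset ℕ} {e₁ e₂ y : ℕ} {fs : List Flip}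
    (p1 : StepsOK S ∅ ((true, e₁) :: (true, e₂) :: fs))
    (p2 : (∅ :: setsOf ∅ ((true, e₁) :: (true, e₂) :: fs)).Nodup)
    (p3 : ∀ B, B ⊆ S → B ∈ ∅ :: setsOf ∅ ((true, e₁) :: (true, e₂) :: fs))
    (p4 : endOf ∅ ((true, e₁) :: (true, e₂) :: fs) = {y}) :
    ({∅, {e₁}} : Finset (Finset ℕ)) ∪ ((insert e₂ {e₁} : Finset ℕ) ::
      setsOf (insert e₂ {e₁}) fs).dropLast.toFinset = S.powerset.erase {y} := by
  obtain ⟨L, hL⟩ : ∃ L, L = ((insert e₂ {e₁} : Finset ℕ) :: setsOf (insert e₂ {e₁}) fs) :=
    ⟨_, rfl⟩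
  have hne : L ≠ [] := by rw [hL]; exact List.cons_ne_nil _ _
  have hlast : L.getLast? = some {y} := by
    have key : ∀ (fs : List Flip) (A : Finset ℕ),
        (A :: setsOf A fs).getLast? = some (endOf A fs) := by
      intro fs
      induction fs with
      | nil => intro A; rfl
      | cons f fs ih =>
        intro A
        show (A :: flip A f :: setsOf (flip A f) fs).getLast? = some (endOf (flip A f) fs)
        rw [List.getLast?_cons_cons]
        exact ih _
    rw [hL, key]
    exact congrArg some p4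
  have hall : ∅ :: setsOf ∅ ((true, e₁) :: (true, e₂) :: fs) = ∅ :: {e₁} :: L := by
    rw [hL]
    rfl
  rw [← hL]
  have hsplit : L = L.dropLast ++ [{y}] := by
    have h1 := List.dropLast_append_getLast hne
    rw [List.getLast?_eq_some_getLast hne] at hlast
    rw [Option.some.inj hlast] at h1
    exact h1.symm
  rw [hall] at p2 p3
  have hsub : ∀ B ∈ ∅ :: {e₁} :: L, B ⊆ S := by
    rw [← hall]
    exact setsOf_subset (Finset.empty_subset S) p1
  ext B
  simp only [Finset.mem_union, Finset.mem_insert, Finset.mem_singleton, List.mem_toFinset,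
    Finset.mem_erase, Finset.mem_powerset]
  constructor
  · intro hB
    have hBm : B ∈ ∅ :: {e₁} :: L.dropLast := by
      simp only [List.mem_cons]
      tauto
    have hnd : ((∅ :: {e₁} :: L.dropLast) ++ [({y} : Finset ℕ)]).Nodup := by
      have : (∅ :: {e₁} :: L.dropLast) ++ [({y} : Finset ℕ)] = ∅ :: {e₁} :: L := by
        rw [List.cons_append, List.cons_append, ← hsplit]
      rw [this]
      exact p2
    refine ⟨?_, ?_⟩
    · rintro rfl
      exact (List.nodup_append.1 hnd).2.2 _ hBm _ (List.mem_singleton.2 rfl) rfl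
    · apply hsub
      simp only [List.mem_cons] at hBm ⊢
      rcases hBm with h | h | h
      · exact Or.inl h
      · exact Or.inr (Or.inl h)
      · exact Or.inr (Or.inr (List.mem_of_mem_dropLast h))
  · rintro ⟨hne', hBS⟩
    have := p3 B hBS
    rw [hsplit] at this
    simp only [List.mem_cons, List.mem_append, List.not_mem_nil, or_false] at this
    tauto

end Z7Aux

open Z7Aux

section

variable {Pi : Finset ℕ} {X X' : Fl} {a z : ℕ} {A : Finset ℕ}

/-- the reflected form: prescribed first letter `y`, old first letter as second letter, first bar on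
the top -/
theorem z7_core (h5 : E5) (D : D7) (g : Good Pi X) (c : IsComp Pi X a 7)
    (h : ∀ b ∈ X.s, a < b ∧ b < a + 7) (hz : X.w[a]? = some z) {y : ℕ}
    (hy : y ∈ compS X a 7 z) :
    ∃ Y, Strip Pi X Y ∧ Y.s.getLast? = some (a + 1) ∧ Y.w[a]? = some y ∧
      Y.w[a + 1]? = some z := by
  classical
  obtain ⟨hPi, hPc, hXl⟩ := zl_bars g c h
  have hcS := card_compS g c hz
  -- the letters `e₁`, `f`
  obtain ⟨e₁, he₁S, he₁y⟩ : ∃ e₁ ∈ compS X a 7 z, e₁ ≠ y := by
    by_contra hcon
    push Not at hcon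
    have h1 : compS X a 7 z ⊆ {y} := fun x hx => Finset.mem_singleton.2 (hcon x hx)
    have h2 := Finset.card_le_card h1
    rw [Finset.card_singleton] at h2
    omega
  obtain ⟨f, hfS, hf⟩ : ∃ f ∈ compS X a 7 z, f ∉ ({y, e₁} : Finset ℕ) := by
    by_contra hcon
    push Not at hcon
    have h1 := Finset.card_le_card (show compS X a 7 z ⊆ ({y, e₁} : Finset ℕ) from hcon)
    have h2 : ({y, e₁} : Finset ℕ).card ≤ 2 := Finset.card_le_two
    omega
  simp only [Finset.mem_insert, Finset.mem_singleton, not_or] at hf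
  obtain ⟨hfy, hfe⟩ := hf
  -- phase of the empty set
  have hp0 : PhaseAt Pi X a 7 z ∅ X := phaseAt_init g c hz
  have hr0 : RunS Pi X a z ∅ ⟨X.w, X.s ++ top a (∅ : Finset ℕ).card⟩ := by
    have h1 := runS_init (z := z) g c
    have e : X.s ++ top a (∅ : Finset ℕ).card = X.s := by simp [top]
    rw [e]
    exact h1
  have hE0 : EU (subPi Pi a (∅ : Finset ℕ).card) X := by
    refine (h5 _ _ hp0.good ?_ (by omega)).1
    have := hp0.picard g c
    simp only [if_true] at this
    rw [if_neg (by simp)] at this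
    omega
  obtain ⟨i, hi, hix⟩ := (hp0.mem_B g c).1 ⟨he₁S, Finset.notMem_empty e₁⟩
  obtain ⟨Y0, hY0, ⟨t0, ht0⟩, hYw0⟩ := hE0 _ _ (hp0.compB g c (by simp)) e₁
    [a + (∅ : Finset ℕ).card + 1] ⟨i, hi, hix⟩ (by
      refine ⟨by simp, by simp, ?_⟩
      intro β hβ
      rw [List.mem_singleton] at hβ
      rw [hβ]
      exact ⟨g.sub _ (c.mem _ (by simp) (by simp)), notSub2 Pi a _⟩)
  have hYs0 : Y0.s = (a + (∅ : Finset ℕ).card + 1) :: t0 := by
    rw [← ht0]
    rfl
  obtain ⟨hp1, hr1⟩ := tranU g c (vis := ∅) (by simp) hp0 hr0 (by simp) (by simp) hY0 hYs0 hYw0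
    (by simp)
  have ins1 : (insert e₁ ∅ : Finset ℕ) = {e₁} := rfl
  rw [ins1] at hp1 hr1
  -- phase of `{e₁}`
  obtain ⟨X1, hX1⟩ : ∃ X1 : Fl, X1 = ⟨swp Y0.w (a + (∅ : Finset ℕ).card + 1),
    t0 ++ top a (∅ : Finset ℕ).card⟩ := ⟨_, rfl⟩
  rw [← hX1] at hp1
  have hr1' : RunS Pi X a z {∅} ⟨X1.w, X1.s ++ top a ({e₁} : Finset ℕ).card⟩ := by
    rw [hX1]
    exact hr1
  clear hr1 hX1
  obtain ⟨-, k1, k2, k3⟩ := z7_blk g c h hp1 (by simp) (by simp)
  have hcB := hp1.compB g c (by simp)
  rw [Finset.card_singleton] at hcB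
  have hg1 := hp1.good
  rw [Finset.card_singleton] at hg1 k2 k3
  obtain ⟨Y1, t1, β, e₂, hY1, hβ, hYs1, hYw1⟩ := D.n1 _ X1 (a + 2) hg1 hcB k1 k2
  have hβ2 : β = a + 1 + 1 := by
    refine k3 β ?_ hβ
    have hsame := hY1.same hg1
    rw [← hsame.s.mem_iff, hYs1]
    exact List.mem_cons_self
  rw [hβ2] at hYs1
  have hY1' : Strip (subPi Pi a ({e₁} : Finset ℕ).card) X1 Y1 := by
    rw [Finset.card_singleton]
    exact hY1
  have hYw1' : Y1.w[a + ({e₁} : Finset ℕ).card + 1]? = some e₂ := by
    rw [Finset.card_singleton]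
    exact hYw1
  have hmem2 := ((hp1.strip g c hY1').mem_B g c).2 ⟨0, by simp, hYw1'⟩
  have he₂S := hmem2.1
  have he₂₁ : e₂ ≠ e₁ := fun hh => hmem2.2 (Finset.mem_singleton.2 hh)
  have hn1 : ({e₁} : Finset ℕ) ∉ ({∅} : Finset (Finset ℕ)) := by
    rw [Finset.mem_singleton]
    exact Finset.singleton_ne_empty e₁
  have hn2 : insert e₂ ({e₁} : Finset ℕ) ∉ ({∅} : Finset (Finset ℕ)) := by
    rw [Finset.mem_singleton]
    exact Finset.insert_ne_empty _ _
  obtain ⟨hp2, hr2⟩ := tranU g c (vis := {∅}) (by simp) hp1 hr1' hn1 (by simp) hY1'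
    (s' := (a + 2 + 1) :: t1) (by rw [hYs1, Finset.card_singleton]) hYw1' hn2
  -- the path
  obtain ⟨fs, p1, p2, p3, p4, p5, -⟩ := exists_path_first_two (S := compS X a 7 z) (x := y) (c := f)
    (e₁ := e₁) (e₂ := e₂) (by omega) hy hfS (Ne.symm hfy) he₁S he₁y (Ne.symm hfe) he₂S he₂₁
  have hall : ∅ :: setsOf ∅ ((true, e₁) :: (true, e₂) :: fs) =
      ∅ :: {e₁} :: insert e₂ {e₁} :: setsOf (insert e₂ {e₁}) fs := rfl
  have p1' : StepsOK (compS X a 7 z) (insert e₂ {e₁}) fs := p1.2.2.2.2
  have p4' : endOf (insert e₂ {e₁}) fs = {y} := p4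
  have p5' : LamOK (insert e₂ {e₁}) (some e₂) fs := p5
  have p2' := p2
  rw [hall] at p2'
  have q1 := List.nodup_cons.1 p2'
  have q2 := List.nodup_cons.1 q1.2
  have hcard2 : (insert e₂ {e₁} : Finset ℕ).card = 2 := by
    rw [Finset.card_insert_of_notMem (by simpa using he₂₁), Finset.card_singleton]
  obtain ⟨X2, hX2⟩ : ∃ X2 : Fl, X2 = ⟨swp Y1.w (a + ({e₁} : Finset ℕ).card + 1),
    ((a + 2 + 1) :: t1) ++ top a ({e₁} : Finset ℕ).card⟩ := ⟨_, rfl⟩
  rw [← hX2] at hp2
  have hr2' : RunS Pi X a z {∅, {e₁}} ⟨X2.w, X2.s ++ top a (insert e₂ {e₁} : Finset ℕ).card⟩ := by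
    rw [hX2, Finset.pair_comm]
    exact hr2
  have hinv : Inv Pi X a z (insert e₂ {e₁}) fs X2 := by
    refine
      { one := by omega
        ok := p1'
        lam := ?_
        eps := fun _ => ?_
        last := fun h6 => by omega
        first := fun h6 => by omega }
    · have hlt : a + ({e₁} : Finset ℕ).card + 1 < Y1.w.length :=
        (List.getElem?_eq_some_iff.1 hYw1').1
      have e : a + (insert e₂ {e₁} : Finset ℕ).card - 1 = a + ({e₁} : Finset ℕ).card + 1 - 1 := by
        rw [hcard2, Finset.card_singleton]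
      rw [e, hX2]
      show LamOK (insert e₂ {e₁}) ((swp Y1.w (a + ({e₁} : Finset ℕ).card + 1))[a +
        ({e₁} : Finset ℕ).card + 1 - 1]?) fs
      rw [swp_left (w := Y1.w) (by omega) hlt, hYw1']
      exact p5'
    · refine ⟨a + 2 + 1, t1 ++ top a ({e₁} : Finset ℕ).card, ?_, ?_⟩
      · rw [hX2]
        rfl
      · rw [hcard2]
        exact notSub2 Pi a 2
  have hv2 : ∀ B ∈ ({∅, {e₁}} : Finset (Finset ℕ)), B ⊆ compS X a 7 z := by
    intro B hB
    rw [Finset.mem_insert, Finset.mem_singleton] at hB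
    rcases hB with rfl | rfl
    · exact Finset.empty_subset _
    · exact Finset.singleton_subset_iff.2 he₁S
  obtain ⟨X', m1, m2, m3⟩ := run_gen g c (Inv Pi X a z)
    (fun A x fs X' hp hi hx hxA => provU D g c h hz hp hi hx hxA)
    (fun A y fs X' hp hi hy h2 => provL D g c h hp hi hy h2)
    (vis := {∅, {e₁}}) (A0 := insert e₂ {e₁}) (X0 := X2) (fs := fs) hv2 hp2 hr2'
    (Or.inr (by simp)) hinv p1' q2.2 (by
      intro B hB hB'
      rw [Finset.mem_insert, Finset.mem_singleton] at hB'
      rcases hB' with rfl | rfl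
      · exact q1.1 (List.mem_cons_of_mem _ hB)
      · exact q2.1 hB)
  rw [drop_toFinset p1 p2 p3 p4, p4'] at m2
  rw [p4'] at m1 m3
  -- the last phase
  obtain ⟨-, k1, k2, -⟩ := z7_blk g c h m1 (by simp) (by simp)
  have hcB := m1.compB g c (by simp)
  rw [Finset.card_singleton] at hcB k2
  have hg := m1.good
  rw [Finset.card_singleton] at hg
  obtain ⟨Y', t', β', x', hY', -, -, -⟩ := D.n1 _ X' (a + 2) hg hcB k1 k2
  have hY'' : Strip (subPi Pi a ({y} : Finset ℕ).card) X' Y' := by
    rw [Finset.card_singleton]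
    exact hY'
  have hfin := last_phase g c hz m1 m2 hY''
  have htop1 : top a ({y} : Finset ℕ).card = [a + 1] := by
    simp [top]
  rw [htop1] at hfin
  have hsame := hY'.same hg
  have hn0 : a ∉ subPi Pi a 1 := by
    intro hh
    unfold subPi at hh
    exact c.left (Finset.mem_of_mem_erase (Finset.mem_of_mem_erase hh))
  have hn1 : a + 1 ∉ subPi Pi a 1 := notSub1 Pi a 1
  have hn2 : a + 1 + 1 ∉ subPi Pi a 1 := notSub2 Pi a 1
  refine ⟨_, hfin, by simp, ?_, ?_⟩
  · show Y'.w[a]? = some y
    rw [hsame.getElem hg hn0 hn1]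
    obtain ⟨i, hi, hi'⟩ := (m1.mem_A g c).1 (Finset.mem_singleton_self y)
    rw [Finset.card_singleton] at hi
    have : i = 0 := by omega
    rw [this] at hi'
    simpa using hi'
  · show Y'.w[a + 1]? = some z
    rw [hsame.getElem hg hn1 hn2]
    have := m1.atz
    rwa [Finset.card_singleton] at this

theorem zl7 (h5 : E5) (D : D7) : ZL 7 := by
  intro Pi0 X0 a0 g0 c0 hs0 _
  apply ELc_of_mirror g0 c0 (by omega)
  have g := g0.refl
  have c := c0.refl g0
  have hs : ∀ b ∈ X0.refl.s, X0.w.length - (a0 + 7) < b ∧ b < X0.w.length - (a0 + 7) + 7 := by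
    intro b hb
    have hb' : b ∈ X0.s.map (fun b => X0.w.length - b) := hb
    rw [List.mem_map] at hb'
    obtain ⟨b', hb1, rfl⟩ := hb'
    have h1 := hs0 b' hb1
    have h2 := c0.le
    omega
  generalize X0.w.length - (a0 + 7) = a at c hs ⊢
  generalize reflPi X0.w.length Pi0 = Pi at g c ⊢
  generalize X0.refl = X at g c hs ⊢
  clear hs0 c0 g0
  intro y low hy hlow
  have hz : ∃ z, X.w[a]? = some z := by
    have h1 := c.le
    have h2 : a < X.w.length := by omega
    exact ⟨X.w[a], List.getElem?_eq_getElem h2⟩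
  obtain ⟨z, hz⟩ := hz
  obtain ⟨hPi, hcard, hlen⟩ := zl_bars g c hs
  have hlow0 : low = [] := by
    rcases low with _ | ⟨β, t⟩
    · rfl
    · exfalso
      obtain ⟨h1, h2⟩ := hlow.mem β (by simp)
      apply h2
      rw [hPi, List.mem_toFinset]
      exact h1
  subst hlow0
  have hyS : y ∈ compS X a 7 z := by
    rw [mem_compS g c]
    obtain ⟨i, hi0, hik, hi⟩ := hy
    refine ⟨?_, i, hik, hi⟩
    rintro rfl
    have h1 := c.le
    have h2 : a + i < X.w.length := by omega
    have h3 : a < X.w.length := by omega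
    rw [List.getElem?_eq_getElem h2] at hi
    rw [List.getElem?_eq_getElem h3] at hz
    have h4 : X.w[a + i] = X.w[a] := by
      rw [Option.some.injEq] at hi hz
      rw [hi, hz]
    have := (List.Nodup.getElem_inj_iff g.wn).mp h4
    omega
  obtain ⟨Y, h1, h2, h3, h4⟩ := z7_core h5 D g c hs hz hyS
  exact ⟨Y, h1, List.nil_prefix, h2, h3, h4.trans hz.symm⟩

end

end Pool.Agent.RS
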