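import Pool.Agent.RS.CovAll
import Pool.Agent.RS.Hold
import Pool.Agent.RS.DbE
import Pool.Agent.RS.DbG
import Pool.Agent.RS.GL3
import Pool.Agent.RS.GL4
import Pool.Agent.RS.Cov7
import Pool.Agent.RS.Z7
import Pool.Agent.RS.E45
import Pool.Agent.RS.CertM56
import Pool.Agent.RS.CertM7c
import Pool.Agent.RS.Final

/-!
# RS: assembly of the small facts
-/

set_option autoImplicit false

namespace Pool.Agent.RS

theorem d05 : D05 := by
  intro w s t m g hl ht h1 h2 hp
  refine D05_of_cert (cs_e5.map Cer.o') ?_ cov0 w s t m g hl ht h1 h2 hp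
  intro o' ho'
  obtain ⟨c, hc, rfl⟩ := List.mem_map.1 ho'
  have h3 := cs_e5_ok c hc
  have h4 := (List.all_eq_true.1 cov0') c hc
  simp only [Bool.and_eq_true, beq_iff_eq] at h4
  rw [h4.1, h4.2] at h3
  exact h3

theorem holds2 : ∀ f ∈ fb2, Holds f := by
  intro f hf
  have h1 : f = ⟨[2], none, [[1, 0]], 1, true⟩ := by
    simpa [fb2] using hf
  have hc := (List.all_eq_true.1 cov2) f hf
  subst h1
  simp only [Bool.not_true, Bool.false_or, Bool.and_eq_true] at hc
  exact Holds_of_five (e := 4) (cs := cs2_e4) (by decide) rfl rfl (by decide) (by norm_num)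
    cs2_e4_ok hc.2 (fact_two d05)

theorem hdb1 : ∀ gr ∈ dbV1, ∀ f ∈ gr, Holds f := by
  intro gr hgr
  simp only [dbV1, List.mem_singleton] at hgr
  subst hgr
  exact holds2

theorem holds3 : ∀ f ∈ fb3, Holds f :=
  holds_group d05 hdb1 fb3_chk cs3_e3_ok (by decide) (by norm_num) cov3

theorem holds2_2 : ∀ f ∈ fb2_2, Holds f :=
  holds_group d05 hdb1 fb2_2_chk cs2_2_e3_ok (by decide) (by norm_num) cov2_2

theorem hdb2 : ∀ gr ∈ dbV2, ∀ f ∈ gr, Holds f := by
  intro gr hgr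
  simp only [dbV2, List.mem_cons, List.not_mem_nil, or_false] at hgr
  rcases hgr with rfl | rfl | rfl
  · exact holds2
  · exact holds3
  · exact holds2_2

theorem holds4 : ∀ f ∈ fb4, Holds f :=
  holds_group d05 hdb2 fb4_chk cs4_e2_ok (by decide) (by norm_num) cov4

theorem holds3_2 : ∀ f ∈ fb3_2, Holds f :=
  holds_group d05 hdb2 fb3_2_chk cs3_2_e2_ok (by decide) (by norm_num) cov3_2

theorem holds2_3 : ∀ f ∈ fb2_3, Holds f :=
  holds_group d05 hdb2 fb2_3_chk cs2_3_e2_ok (by decide) (by norm_num) cov2_3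

theorem holds2_2_2 : ∀ f ∈ fb2_2_2, Holds f :=
  holds_group d05 hdb2 fb2_2_2_chk cs2_2_2_e2_ok (by decide) (by norm_num) cov2_2_2

theorem hdb3 : ∀ gr ∈ dbV3, ∀ f ∈ gr, Holds f := by
  intro gr hgr
  simp only [dbV3, List.mem_cons, List.not_mem_nil, or_false] at hgr
  rcases hgr with rfl | rfl | rfl | rfl | rfl | rfl | rfl
  · exact holds2
  · exact holds3
  · exact holds2_2
  · exact holds4
  · exact holds3_2
  · exact holds2_3
  · exact holds2_2_2

theorem holds5 : ∀ f ∈ fb5, Holds f :=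
  holds_group d05 hdb3 fb5_chk cs5_e1_ok (by decide) (by norm_num) cov5

theorem holds4_2 : ∀ f ∈ fb4_2, Holds f :=
  holds_group d05 hdb3 fb4_2_chk cs4_2_e1_ok (by decide) (by norm_num) cov4_2

theorem holds3_3 : ∀ f ∈ fb3_3, Holds f :=
  holds_group d05 hdb3 fb3_3_chk cs3_3_e1_ok (by decide) (by norm_num) cov3_3

theorem holds2_4 : ∀ f ∈ fb2_4, Holds f :=
  holds_group d05 hdb3 fb2_4_chk cs2_4_e1_ok (by decide) (by norm_num) cov2_4

theorem holds3_2_2 : ∀ f ∈ fb3_2_2, Holds f :=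
  holds_group d05 hdb3 fb3_2_2_chk cs3_2_2_e1_ok (by decide) (by norm_num) cov3_2_2

theorem holds2_3_2 : ∀ f ∈ fb2_3_2, Holds f :=
  holds_group d05 hdb3 fb2_3_2_chk cs2_3_2_e1_ok (by decide) (by norm_num) cov2_3_2

theorem holds2_2_3 : ∀ f ∈ fb2_2_3, Holds f :=
  holds_group d05 hdb3 fb2_2_3_chk cs2_2_3_e1_ok (by decide) (by norm_num) cov2_2_3

theorem holds2_2_2_2 : ∀ f ∈ fb2_2_2_2, Holds f :=
  holds_group d05 hdb3 fb2_2_2_2_chk cs2_2_2_2_e1_ok (by decide) (by norm_num) cov2_2_2_2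

theorem hdb4 : ∀ gr ∈ dbV4, ∀ f ∈ gr, Holds f := by
  intro gr hgr
  simp only [dbV4, List.mem_cons, List.not_mem_nil, or_false] at hgr
  rcases hgr with rfl | rfl | rfl | rfl | rfl | rfl | rfl | rfl | rfl | rfl | rfl | rfl | rfl | rfl | rfl
  · exact holds2
  · exact holds3
  · exact holds2_2
  · exact holds4
  · exact holds3_2
  · exact holds2_3
  · exact holds2_2_2
  · exact holds5
  · exact holds4_2
  · exact holds3_3
  · exact holds2_4
  · exact holds3_2_2
  · exact holds2_3_2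
  · exact holds2_2_3
  · exact holds2_2_2_2

theorem hfs4 : ∀ f ∈ fs4, okF f = true ∧ HoldsAt 6 f := by
  intro f hf
  simp only [fs4, List.mem_append] at hf
  rcases hf with h | h | h | h | h | h | h | h
  · exact six_of_check d05 hdb3 fb2_2_2_2_chk f h
  · exact six_of_check d05 hdb3 fb2_2_3_chk f h
  · exact six_of_check d05 hdb3 fb2_3_2_chk f h
  · exact six_of_check d05 hdb3 fb2_4_chk f h
  · exact six_of_check d05 hdb3 fb3_2_2_chk f h
  · exact six_of_check d05 hdb3 fb3_3_chk f h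
  · exact six_of_check d05 hdb3 fb4_2_chk f h
  · exact six_of_check d05 hdb3 fb5_chk f h

theorem hfs5 : ∀ f ∈ fs5, okF f = true ∧ HoldsAt 6 f := by
  intro f hf
  simp only [fs5, List.mem_append] at hf
  rcases hf with h | h | h | h | h | h | h | h | h | h | h | h | h | h | h | h
  · exact six_of_check d05 hdb4 fb2_2_2_2_2_chk f h
  · exact six_of_check d05 hdb4 fb2_2_2_3_chk f h
  · exact six_of_check d05 hdb4 fb2_2_3_2_chk f h
  · exact six_of_check d05 hdb4 fb2_2_4_chk f h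
  · exact six_of_check d05 hdb4 fb2_3_2_2_chk f h
  · exact six_of_check d05 hdb4 fb2_3_3_chk f h
  · exact six_of_check d05 hdb4 fb2_4_2_chk f h
  · exact six_of_check d05 hdb4 fb2_5_chk f h
  · exact six_of_check d05 hdb4 fb3_2_2_2_chk f h
  · exact six_of_check d05 hdb4 fb3_2_3_chk f h
  · exact six_of_check d05 hdb4 fb3_3_2_chk f h
  · exact six_of_check d05 hdb4 fb3_4_chk f h
  · exact six_of_check d05 hdb4 fb4_2_2_chk f h
  · exact six_of_check d05 hdb4 fb4_3_chk f h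
  · exact six_of_check d05 hdb4 fb5_2_chk f h
  · exact six_of_check d05 hdb4 fb6_chk f h

theorem e4_ok : E4 := E4_of_db hfs4 e4_chk

theorem e5_ok : E5 := E5_of_db hfs5 e5_chk

theorem holdsf2 : Holds f2 := by
  apply holds2
  decide

theorem g3_ok : GLs 3 5 := gl_join (gl3_five cs3_e3_ok covG3) (gl3_six d05 holdsf2)

theorem g4_ok : GLs 4 5 := gl_join (gl4_five cs4_e2_ok covG4) (gl4_six d05 g3_ok hdb4 path4_chk)

theorem g5_ok : GLs 5 6 := gl5_six d05 g3_ok hdb4 paths5_chk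

theorem g6_ok : GLs 6 6 := gl6_six d05 g4_ok hdb4 paths6_chk

theorem d7_ok : D7 where
  u5 := UEs_of_cover (by decide) cs5_e1_ok covU5
  u24 := UEs_of_cover (by decide) cs2_4_e1_ok covU2_4
  u33 := UEs_of_cover (by decide) cs3_3_e1_ok covU3_3
  u42 := UEs_of_cover (by decide) cs4_2_e1_ok covU4_2
  l5 := ELs_of_cover (by decide) cs5_e1_ok covL5
  l24 := ELs_of_cover (by decide) cs2_4_e1_ok covL2_4
  l33 := ELs_of_cover (by decide) cs3_3_e1_ok covL3_3
  l42 := ELs_of_cover (by decide) cs4_2_e1_ok covL4_2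
  n1 := N1s_of_cover cs5_e1_ok covN1
  z6 := Z6s_of_cover cs6_e0_ok covZ6

theorem small_ok : Small where
  e4 := e4_ok
  e5 := e5_ok
  z7 := zl7 e5_ok d7_ok
  g5 := g5_ok
  g6 := g6_ok
  c5 := closed5
  c6 := closed6
  c7 := closed7

end Pool.Agent.RS
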