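import Pool.Agent.RS.Step6A

/-!
# RS module Step6B: the general induction step, part B
-/

set_option autoImplicit false

namespace Pool.Agent.RS

open Finset

namespace Step6BAux

/-- the first letter of a component -/
theorem first {Pi : Finset ℕ} {X : Fl} {a k : ℕ} (c : IsComp Pi X a k) :
    ∃ z, X.w[a]? = some z := by
  have h1 := c.one
  have h2 := c.le
  exact ⟨X.w[a], List.getElem?_eq_getElem (by omega)⟩

/-- the prescription is allowed in a phase -/
theorem low {Pi : Finset ℕ} {X X' : Fl} {a k z : ℕ} {A : Finset ℕ} (g : Good Pi X)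
    (c : IsComp Pi X a k) (h : PhaseAt Pi X a k z A X') {l : List ℕ} (hl : Low Pi X l) :
    Low (subPi Pi a A.card) X' l := by
  refine ⟨hl.nd, hl.len, fun β hβ => ?_⟩
  obtain ⟨h1, h2⟩ := hl.mem β hβ
  obtain ⟨h3, h4, _⟩ := h.eps g c h1 h2
  exact ⟨h3, h4⟩

/-- run to the last phase and finish it there -/
theorem finish (h4 : E4) {V : ℕ} (hV : 6 ≤ V) (ih : ∀ V', 5 ≤ V' → V' < V → E6 V')
    {Pi : Finset ℕ} {X : Fl} {a k z : ℕ} (g : Good Pi X) (hc : Pi.card = V)
    (hd : V < X.s.length) (c : IsComp Pi X a k) (hk : 2 ≤ k) (hz : X.w[a]? = some z)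
    {v : ℕ} (hv : v ∈ compS X a k z) (P : Fl → Prop)
    (h : ∀ X', St Pi X a k z {v} X' → ∃ Y', Strip (subPi Pi a 1) X' Y' ∧ P Y') :
    ∃ Y', Strip Pi X ⟨Y'.w, Y'.s ++ [a + 1]⟩ ∧ P Y' := by
  obtain ⟨X', hst, hr, _, _⟩ := run_to_last' g c hz
    (fun A X' hA hst => (phase_E h4 hV ih g hc hd c hk hst).1.1 _ _ (hst.ph.compB g c hA))
    (fun A X' hA hst => (phase_E h4 hV ih g hc hd c hk hst).1.2 _ _ hA
      (hst.ph.compA g c (Finset.card_pos.1 (by omega)))) hv
  obtain ⟨Y', hs, hP⟩ := h X' hst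
  have h1 : ({v} : Finset ℕ).card = 1 := Finset.card_singleton v
  refine ⟨Y', ?_, hP⟩
  have h2 := last_phase (Y' := Y') g c hz hst.ph (by
    rw [h1]
    exact hr) (by
    rw [h1]
    exact hs)
  rw [h1] at h2
  exact h2

end Step6BAux

open Step6BAux

/-- R-rule with target `{v}`, then (`3 ≤ k`) any letter `x` different from `v` and from the old first
letter as LAST letter of the component: in the last phase use the mirrored `EUc` for the component
`(a + 2, k - 2)`. For `x` = last letter of `X` this gives the missing case of `EUc` after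
reflection. -/
theorem step_other (h4 : E4) {V : ℕ} (hV : 6 ≤ V) (ih : ∀ V', 5 ≤ V' → V' < V → E6 V')
    {Pi : Finset ℕ} {X : Fl} {a k : ℕ} (g : Good Pi X) (hc : Pi.card = V)
    (hd : V < X.s.length) (c : IsComp Pi X a k) (hk : 3 ≤ k) (x : ℕ)
    (hx : ∃ i, 0 < i ∧ i < k ∧ X.w[a + i]? = some x) {low : List ℕ} (hl : Low Pi X low) :
    ∃ Y, Strip Pi X Y ∧ low <+: Y.s ∧ Y.w[a + k - 1]? = some x := by
  obtain ⟨z, hz⟩ := first c
  obtain ⟨i, hi0, hik, hxi⟩ := hx
  have hxz : x ≠ z := by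
    rintro rfl
    obtain ⟨h1, h2⟩ := List.getElem?_eq_some_iff.1 hxi
    obtain ⟨h3, h4⟩ := List.getElem?_eq_some_iff.1 hz
    have h5 := (g.wn.getElem_inj_iff (hi := h1) (hj := h3)).1 (h2.trans h4.symm)
    omega
  have hxS : x ∈ compS X a k z := (mem_compS g c).2 ⟨hxz, i, hik, hxi⟩
  have hcard : (compS X a k z).card = k - 1 := compS_card g c ⟨0, by omega, hz⟩
  obtain ⟨v, hv, hvx⟩ : ∃ v ∈ compS X a k z, v ≠ x := by
    refine Finset.exists_mem_ne ?_ x
    rw [hcard]
    omega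
  obtain ⟨Y', hs, h5, h6⟩ := finish h4 hV ih g hc hd c (by omega) hz hv
    (fun Y' => low <+: Y'.s ∧ Y'.w[a + k - 1]? = some x) (by
      intro X' hst
      have h1 : ({v} : Finset ℕ).card = 1 := Finset.card_singleton v
      have hE := phase_E h4 hV ih g hc hd c (by omega) hst
      have hcB := hst.ph.compB g c (by rw [h1]; omega)
      have hg := hst.ph.good
      have hlow := Step6BAux.low g c hst.ph hl
      obtain ⟨j, hj, hxj⟩ := (hst.ph.mem_B g c (x := x)).1
        ⟨hxS, fun h => hvx (Finset.mem_singleton.1 h).symm⟩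
      rw [h1] at hE hcB hg hlow hj hxj
      have hcr := IsComp.refl hg hcB
      obtain ⟨Y', hs, h5, h6⟩ := EUc_mirror hg hcB (hE.2.1 _ _ hcr) x low ⟨j, hj, hxj⟩ hlow
      refine ⟨Y', hs, h5, ?_⟩
      rw [← h6]
      congr 1
      omega)
  exact ⟨⟨Y'.w, Y'.s ++ [a + 1]⟩, hs, h5.trans (List.prefix_append _ _), h6⟩

/-- a component of size `2` keeps its first letter `x`: R-rule for another component (there is one
with `2 ≤ k`, since `6 ≤ Pi.card`), in the last phase `EUc` for the component `(a, 2)`. -/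
theorem step_two (h4 : E4) {V : ℕ} (hV : 6 ≤ V) (ih : ∀ V', 5 ≤ V' → V' < V → E6 V')
    {Pi : Finset ℕ} {X : Fl} {a : ℕ} (g : Good Pi X) (hc : Pi.card = V)
    (hd : V < X.s.length) (c : IsComp Pi X a 2) (x : ℕ)
    (hx : X.w[a]? = some x) {low : List ℕ} (hl : Low Pi X low) :
    ∃ Y, Strip Pi X Y ∧ low <+: Y.s ∧ Y.w[a]? = some x := by
  obtain ⟨b, hb, hba⟩ : ∃ b ∈ Pi, b ≠ a + 1 := Finset.exists_mem_ne (by omega) _
  obtain ⟨a', k', c', h1, h2⟩ := exists_comp g hb
  have haa : a' ≠ a := by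
    rintro rfl
    have h3 := comp_unique g c c'
    omega
  obtain ⟨z, hz⟩ := first c'
  have hcard : (compS X a' k' z).card = k' - 1 := compS_card g c' ⟨0, by omega, hz⟩
  obtain ⟨v, hv⟩ : (compS X a' k' z).Nonempty := by
    rw [← Finset.card_pos, hcard]
    omega
  obtain ⟨Y', hs, h5, h6⟩ := finish h4 hV ih g hc hd c' (by omega) hz hv
    (fun Y' => low <+: Y'.s ∧ Y'.w[a]? = some x) (by
      intro X' hst
      have h3 : ({v} : Finset ℕ).card = 1 := Finset.card_singleton v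
      have hE := phase_E h4 hV ih g hc hd c' (by omega) hst
      have hca := hst.ph.comp_other g c' c haa.symm
      have hlow := Step6BAux.low g c' hst.ph hl
      have hxx := (Same.comp g hst.ph.same (x := x) c).1 ⟨0, by omega, hx⟩
      rw [h3] at hE hca hlow
      exact hE.1.1 _ _ hca x low hxx hlow)
  exact ⟨⟨Y'.w, Y'.s ++ [a' + 1]⟩, hs, h5.trans (List.prefix_append _ _), h6⟩

end Pool.Agent.RS
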