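import Pool.Agent.RS.Cyl

/-!
# RS module Times: introduction times and positions in a closed flag walk

`F.T j r` is the last time `i ≤ j` with `ρ i = r` (`0 < r < n`), `F.P j r` the position of the
element `ch j r` in the universal cover of the cylinder: `T j r / N` for `0 < r < n`; for `r = 0` the
integer part of the position of `ch j 1`, for `r = n` the integer part of the position of
`ch j (n - 1)`.
-/

set_option autoImplicit false

namespace Pool.Agent.RS

section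

variable {V : Type} {rk : V → ℕ} {Cov : V → V → Prop} {n N : ℕ}

/-- last time `≤ j` at which an element of rank `r` was introduced -/
noncomputable def FlagWalk.T (F : FlagWalk rk Cov n N) (j : ℤ) (r : ℕ) : ℤ :=
  sSup {i : ℤ | i ≤ j ∧ F.ρ i = r}

/-- position in the universal cover -/
noncomputable def FlagWalk.P (F : FlagWalk rk Cov n N) (j : ℤ) (r : ℕ) : ℝ :=
  if r = 0 then (⌊(F.T j 1 : ℝ) / N⌋ : ℝ)
  else if n ≤ r then (⌊(F.T j (n - 1) : ℝ) / N⌋ : ℝ)
  else (F.T j r : ℝ) / N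

variable (F : FlagWalk rk Cov n N)

private theorem rho_mul (j m : ℤ) : F.ρ (j + m * N) = F.ρ j := by
  induction m using Int.induction_on with
  | zero => simp
  | succ k ih =>
    have : j + ((k : ℤ) + 1) * N = (j + (k : ℤ) * N) + N := by ring
    rw [this, F.perρ, ih]
  | pred k ih =>
    have h : j + (-(k : ℤ)) * N = (j + (-(k : ℤ) - 1) * N) + N := by ring
    rw [h, F.perρ] at ih
    exact ih

private theorem ch_mul (j m : ℤ) (r : ℕ) : F.ch (j + m * N) r = F.ch j r := by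
  induction m using Int.induction_on with
  | zero => simp
  | succ k ih =>
    have : j + ((k : ℤ) + 1) * N = (j + (k : ℤ) * N) + N := by ring
    rw [this, F.per, ih]
  | pred k ih =>
    have h : j + (-(k : ℤ)) * N = (j + (-(k : ℤ) - 1) * N) + N := by ring
    rw [h, F.per] at ih
    exact ih

/-- every rank occurs (`once` for `ch 0 r`, then periodicity) -/
theorem FlagWalk.exists_le (hN : 0 < N) {r : ℕ} (h0 : 0 < r) (h1 : r < n) (j : ℤ) :
    ∃ i ≤ j, F.ρ i = r := by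
  have hr : rk (F.ch 0 r) = r := F.rank 0 r h1.le
  obtain ⟨i, -, -, hi, -⟩ := F.once (F.ch 0 r) (by omega) (by omega)
  rw [hr] at hi
  refine ⟨i + (-(|i| + |j|)) * N, ?_, by rw [rho_mul]; exact hi⟩
  have hN' : (1 : ℤ) ≤ N := by exact_mod_cast hN
  have h2 : |i| + |j| ≤ (|i| + |j|) * N := by
    nlinarith [abs_nonneg i, abs_nonneg j]
  have h3 := le_abs_self i
  have h4 := neg_abs_le j
  nlinarith

private theorem T_unique {r : ℕ} {j t : ℤ} (h1 : t ≤ j) (h2 : F.ρ t = r)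
    (h3 : ∀ i, i ≤ j → F.ρ i = r → i ≤ t) : F.T j r = t := by
  have hg : IsGreatest {i : ℤ | i ≤ j ∧ F.ρ i = r} t := ⟨⟨h1, h2⟩, fun i hi => h3 i hi.1 hi.2⟩
  exact hg.csSup_eq

theorem FlagWalk.T_spec (hN : 0 < N) {r : ℕ} (h0 : 0 < r) (h1 : r < n) (j : ℤ) :
    F.T j r ≤ j ∧ F.ρ (F.T j r) = r ∧ ∀ i, i ≤ j → F.ρ i = r → i ≤ F.T j r := by
  obtain ⟨i, hi, hr⟩ := F.exists_le hN h0 h1 j
  have hb : BddAbove {i : ℤ | i ≤ j ∧ F.ρ i = r} := ⟨j, fun x hx => hx.1⟩
  have hne : {i : ℤ | i ≤ j ∧ F.ρ i = r}.Nonempty := ⟨i, hi, hr⟩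
  have hm : F.T j r ∈ {i : ℤ | i ≤ j ∧ F.ρ i = r} := Int.csSup_mem hne hb
  exact ⟨hm.1, hm.2, fun x hx hxr => le_csSup hb ⟨hx, hxr⟩⟩

theorem FlagWalk.T_ch (hN : 0 < N) {r : ℕ} (h0 : 0 < r) (h1 : r < n) (j : ℤ) :
    F.ch (F.T j r) r = F.ch j r := by
  obtain ⟨hle, hρ, hmax⟩ := F.T_spec hN h0 h1 j
  have key : ∀ k : ℕ, F.T j r + k ≤ j → F.ch (F.T j r + k) r = F.ch (F.T j r) r := by
    intro k
    induction k with
    | zero => intro _; simp
    | succ k ih =>
      intro hk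
      push_cast at hk ⊢
      have hne : r ≠ F.ρ (F.T j r + (k + 1)) := by
        intro he
        have := hmax _ hk he.symm
        omega
      rw [F.same _ r hne, ← ih (by omega)]
      congr 1
      ring
  have := key (j - F.T j r).toNat (by omega)
  rw [← this]
  congr 1
  omega

/-- `T j r` is determined mod `N` by the element -/
theorem FlagWalk.T_ch_eq (hN : 0 < N) {r : ℕ} (h0 : 0 < r) (h1 : r < n) {i j : ℤ} :
    F.ch i r = F.ch j r ↔ ∃ m : ℤ, F.T i r = F.T j r + m * N := by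
  have hN' : (0 : ℤ) < N := by exact_mod_cast hN
  constructor
  · intro h
    rw [← F.T_ch hN h0 h1 i, ← F.T_ch hN h0 h1 j] at h
    obtain ⟨-, hi, -⟩ := F.T_spec hN h0 h1 i
    obtain ⟨-, hj, -⟩ := F.T_spec hN h0 h1 j
    generalize F.T i r = a at h hi ⊢
    generalize F.T j r = b at h hj ⊢
    have ha : a % N = a + (-(a / N)) * N := by
      have := Int.emod_add_mul_ediv a N
      linarith
    have hb : b % N = b + (-(b / N)) * N := by
      have := Int.emod_add_mul_ediv b N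
      linarith
    have hρa : F.ρ (a % N) = r := by rw [ha, rho_mul]; exact hi
    have hρb : F.ρ (b % N) = r := by rw [hb, rho_mul]; exact hj
    have hab : a % N = b % N := by
      apply F.uniq _ _ (Int.emod_nonneg _ hN'.ne') (Int.emod_lt_of_pos _ hN')
        (Int.emod_nonneg _ hN'.ne') (Int.emod_lt_of_pos _ hN')
      · rw [hρa, hρb]
      · rw [hρa, hρb, ha, ch_mul, hb, ch_mul]
        exact h
    refine ⟨a / N - b / N, ?_⟩
    rw [ha, hb] at hab
    linarith
  · rintro ⟨m, hm⟩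
    rw [← F.T_ch hN h0 h1 i, ← F.T_ch hN h0 h1 j, hm, ch_mul]

theorem FlagWalk.T_add (hN : 0 < N) {r : ℕ} (h0 : 0 < r) (h1 : r < n) (j : ℤ) :
    F.T (j + N) r = F.T j r + N := by
  obtain ⟨hle, hρ, hmax⟩ := F.T_spec hN h0 h1 j
  apply T_unique F (by linarith) (by rw [F.perρ]; exact hρ)
  intro i hi hr
  have h2 := F.perρ (i - N)
  rw [sub_add_cancel] at h2
  have := hmax (i - N) (by linarith) (by rw [← h2]; exact hr)
  linarith

theorem FlagWalk.T_self (hN : 0 < N) (j : ℤ) : F.T j (F.ρ j) = j := by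
  have _ := hN
  exact T_unique F le_rfl rfl (fun i hi _ => hi)

theorem FlagWalk.T_succ (hN : 0 < N) {r : ℕ} (h0 : 0 < r) (h1 : r < n) {j : ℤ} (h : r ≠ F.ρ j) :
    F.T j r = F.T (j - 1) r := by
  obtain ⟨hle, hρ, hmax⟩ := F.T_spec hN h0 h1 (j - 1)
  apply T_unique F (by linarith) hρ
  intro i hi hr
  apply hmax i _ hr
  have : i ≠ j := by
    rintro rfl
    exact h hr.symm
  omega

private theorem T_mono (hN : 0 < N) {r : ℕ} (h0 : 0 < r) (h1 : r < n) {i j : ℤ} (h : i ≤ j) :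
    F.T i r ≤ F.T j r := by
  obtain ⟨hle, hρ, hmax⟩ := F.T_spec hN h0 h1 i
  exact (F.T_spec hN h0 h1 j).2.2 _ (hle.trans h) hρ

private theorem P_zero (j : ℤ) : F.P j 0 = (⌊(F.T j 1 : ℝ) / N⌋ : ℝ) := by
  simp [FlagWalk.P]

private theorem P_big (j : ℤ) {r : ℕ} (h0 : 0 < r) (h : n ≤ r) :
    F.P j r = (⌊(F.T j (n - 1) : ℝ) / N⌋ : ℝ) := by
  unfold FlagWalk.P
  rw [if_neg h0.ne', if_pos h]

private theorem P_mid (j : ℤ) {r : ℕ} (h0 : 0 < r) (h : r < n) :
    F.P j r = (F.T j r : ℝ) / N := by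
  unfold FlagWalk.P
  rw [if_neg h0.ne', if_neg (by omega)]

theorem FlagWalk.P_mono (hN : 0 < N) (hn : 2 ≤ n) (r : ℕ) : Monotone (fun j => F.P j r) := by
  have hN' : (0 : ℝ) < N := by exact_mod_cast hN
  have key : ∀ q, 0 < q → q < n → ∀ i j : ℤ, i ≤ j → (F.T i q : ℝ) / N ≤ (F.T j q : ℝ) / N := by
    intro q h0 h1 i j hij
    have := T_mono F hN h0 h1 hij
    have h2 : (F.T i q : ℝ) ≤ F.T j q := by exact_mod_cast this
    gcongr
  intro i j hij
  show F.P i r ≤ F.P j r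
  rcases Nat.eq_zero_or_pos r with rfl | h0
  · rw [P_zero, P_zero]
    exact_mod_cast Int.floor_le_floor (key 1 one_pos (by omega) i j hij)
  · rcases lt_or_ge r n with h | h
    · rw [P_mid F i h0 h, P_mid F j h0 h]
      exact key r h0 h i j hij
    · rw [P_big F i h0 h, P_big F j h0 h]
      exact_mod_cast Int.floor_le_floor (key (n - 1) (by omega) (by omega) i j hij)

theorem FlagWalk.P_add (hN : 0 < N) (hn : 2 ≤ n) (j : ℤ) (r : ℕ) : F.P (j + N) r = F.P j r + 1 := by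
  have hN' : (N : ℝ) ≠ 0 := by exact_mod_cast hN.ne'
  have key : ∀ q, 0 < q → q < n → (F.T (j + N) q : ℝ) / N = (F.T j q : ℝ) / N + 1 := by
    intro q h0 h1
    rw [F.T_add hN h0 h1]
    push_cast
    field_simp
  rcases Nat.eq_zero_or_pos r with rfl | h0
  · rw [P_zero, P_zero, key 1 one_pos (by omega), Int.floor_add_one]
    push_cast
    ring
  · rcases lt_or_ge r n with h | h
    · rw [P_mid F _ h0 h, P_mid F _ h0 h]
      exact key r h0 h
    · rw [P_big F _ h0 h, P_big F _ h0 h, key (n - 1) (by omega) (by omega), Int.floor_add_one]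
      push_cast
      ring

theorem FlagWalk.P_add_mul (hN : 0 < N) (hn : 2 ≤ n) (j m : ℤ) (r : ℕ) :
    F.P (j + m * N) r = F.P j r + m := by
  induction m using Int.induction_on with
  | zero => simp
  | succ k ih =>
    have : j + ((k : ℤ) + 1) * N = (j + (k : ℤ) * N) + N := by ring
    rw [this, F.P_add hN hn, ih]
    push_cast
    ring
  | pred k ih =>
    have h : j + (-(k : ℤ)) * N = (j + (-(k : ℤ) - 1) * N) + N := by ring
    rw [h, F.P_add hN hn] at ih
    push_cast at ih ⊢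
    linarith

theorem FlagWalk.P_lt (hN : 0 < N) (j : ℤ) : F.P (j - 1) (F.ρ j) < F.P j (F.ρ j) := by
  have hN' : (0 : ℝ) < N := by exact_mod_cast hN
  obtain ⟨h0, h1⟩ := F.ρpos j
  rw [P_mid F _ h0 h1, P_mid F _ h0 h1, F.T_self hN]
  have h2 := (F.T_spec hN h0 h1 (j - 1)).1
  have h3 : (F.T (j - 1) (F.ρ j) : ℝ) < j := by
    have : F.T (j - 1) (F.ρ j) < j := by omega
    exact_mod_cast this
  gcongr

/-- equal positions up to an integer: same element -/
theorem FlagWalk.P_ch (hN : 0 < N) (hn : 2 ≤ n) {r : ℕ} (h1 : r ≤ n) {i j : ℤ} {m : ℤ}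
    (h : F.P i r = F.P j r + m) : F.ch i r = F.ch j r := by
  have hN' : (N : ℝ) ≠ 0 := by exact_mod_cast hN.ne'
  rcases Nat.eq_zero_or_pos r with rfl | h0
  · rw [F.bot _ (F.rank i 0 (by omega)), F.bot _ (F.rank j 0 (by omega))]
  · rcases lt_or_eq_of_le h1 with h2 | rfl
    · rw [F.T_ch_eq hN h0 h2]
      rw [P_mid F _ h0 h2, P_mid F _ h0 h2] at h
      refine ⟨m, ?_⟩
      field_simp at h
      have h3 : (F.T i r : ℝ) = ((F.T j r + m * N : ℤ) : ℝ) := by
        push_cast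
        linarith
      exact_mod_cast h3
    · rw [F.top _ (F.rank i r le_rfl), F.top _ (F.rank j r le_rfl)]

/-- the position changes only in rank `ρ j`, and possibly in rank `0` if `ρ j = 1`, in rank `n` if
`ρ j = n - 1` -/
theorem FlagWalk.P_succ (hN : 0 < N) {r : ℕ} {j : ℤ} (h : r ≠ F.ρ j)
    (h0 : r = 0 → F.ρ j ≠ 1) (h1 : r = n → F.ρ j ≠ n - 1) (hr : r ≤ n) (hn : 2 ≤ n) :
    F.P j r = F.P (j - 1) r := by
  rcases Nat.eq_zero_or_pos r with rfl | h0'
  · rw [P_zero, P_zero, F.T_succ hN one_pos (by omega) (h0 rfl).symm]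
  · rcases lt_or_eq_of_le hr with h2 | rfl
    · rw [P_mid F _ h0' h2, P_mid F _ h0' h2, F.T_succ hN h0' h2 h]
    · rw [P_big F _ h0' le_rfl, P_big F _ h0' le_rfl,
        F.T_succ hN (by omega) (by omega) (h1 rfl).symm]

/-- in rank `0` and `n` the position is an integer which increases by at most `1` -/
theorem FlagWalk.P_int (hN : 0 < N) (hn : 2 ≤ n) (j : ℤ) {r : ℕ} (hr : r = 0 ∨ r = n) :
    (∃ m : ℤ, F.P j r = m) ∧ (F.P j r = F.P (j - 1) r ∨ F.P j r = F.P (j - 1) r + 1) := by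
  have hint : ∀ i, ∃ m : ℤ, F.P i r = m := by
    intro i
    rcases hr with rfl | rfl
    · exact ⟨_, P_zero F i⟩
    · exact ⟨_, P_big F i (by omega) le_rfl⟩
  refine ⟨hint j, ?_⟩
  obtain ⟨a, ha⟩ := hint j
  obtain ⟨b, hb⟩ := hint (j - 1)
  have hmono := F.P_mono hN hn r
  have h1 : F.P (j - 1) r ≤ F.P j r := hmono (by omega)
  have hN1 : (1 : ℤ) ≤ N := by exact_mod_cast hN
  have h2 : F.P j r ≤ F.P (j - 1 + N) r := hmono (by omega)
  rw [F.P_add hN hn] at h2
  rw [ha, hb] at h1 h2 ⊢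
  have h3 : b ≤ a := by exact_mod_cast h1
  have h4 : a ≤ b + 1 := by exact_mod_cast h2
  rcases eq_or_lt_of_le h3 with h5 | h5
  · left; rw [h5]
  · right
    have : a = b + 1 := by omega
    rw [this]
    push_cast
    ring

end

end Pool.Agent.RS
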