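import Pool.Agent.RS.TopA
import Pool.Agent.RS.ParityC

/-!
# RS module Top: the strip of the full configuration, `8 ≤ M`
-/

set_option autoImplicit false

namespace Pool.Agent.RS

open Finset

namespace TopAux

theorem inv_sorted {l : List ℕ} (h : l.Pairwise (· < ·)) : inv l = 0 := by
  induction l with
  | nil => rfl
  | cons x l ih =>
    rw [List.pairwise_cons] at h
    have h1 : l.countP (fun y => decide (y < x)) = 0 := by
      rw [List.countP_eq_zero]
      intro y hy
      have := h.1 y hy
      rw [decide_eq_true_eq]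
      omega
    rw [inv, h1, ih h.2]

theorem countP_lt {l : List ℕ} {m : ℕ} (h : ∀ y ∈ l, m ≤ y) :
    l.countP (fun y => decide (y < m)) = 0 := by
  rw [List.countP_eq_zero]
  intro y hy
  have := h y hy
  rw [decide_eq_true_eq]
  omega

theorem range_split {M : ℕ} (hM : 2 ≤ M) : List.range M = 0 :: 1 :: (List.range M).drop 2 := by
  obtain ⟨m, rfl⟩ : ∃ m, M = m + 2 := ⟨M - 2, by omega⟩
  rw [List.range_succ_eq_map, List.range_succ_eq_map]
  simp

end TopAux

open TopAux

/-- from `X0 = ⟨range M, 1 :: τ⟩`, `τ = ω ++ ordT (M - 2) 2`, to the flag `⟨[1, 0, 2, …, M - 1],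
τ ++ [1]⟩`: `run_to_last` with `x = 1` and last removed letter `3`, then `GLs (M - 2)` with the end
arrangement `[2, …, M - 1]` and the end order `τ`; parity: `runS_parity` with `p = 0` (`Npar_full`),
`q = 0`, `p' = 1`, `q' = 0`. -/
theorem top_strip (h4 : E4) (h5 : E5) {M : ℕ} (hM : 8 ≤ M) (hz : ZL (M - 1))
    (hg : GLs (M - 2) (M - 2)) {ω : List ℕ}
    (hω : (ω ++ ordT (M - 2) 2).Perm ((List.range M).drop 2))
    (hl : ω.getLast? = some (spc (M - 2) 2)) :
    Strip (Ioo 0 M) ⟨List.range M, 1 :: (ω ++ ordT (M - 2) 2)⟩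
      ⟨swp (List.range M) 1, (ω ++ ordT (M - 2) 2) ++ [1]⟩ := by
  obtain ⟨τ, hτ⟩ : ∃ τ, τ = ω ++ ordT (M - 2) 2 := ⟨_, rfl⟩
  rw [← hτ] at hω ⊢
  have hsplit := range_split (show 2 ≤ M by omega)
  have hdlen : ((List.range M).drop 2).length = M - 2 := by simp
  have hdget : ∀ i, i < M - 2 → ((List.range M).drop 2)[i]? = some (i + 2) := by
    intro i hi
    rw [List.getElem?_drop, List.getElem?_range (by omega)]
    congr 1
    omega
  have hdmem : ∀ b, b ∈ (List.range M).drop 2 ↔ 2 ≤ b ∧ b < M := by
    intro b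
    constructor
    · intro h
      obtain ⟨i, hi⟩ := List.mem_iff_getElem?.1 h
      have h1 : i < M - 2 := by
        have := (List.getElem?_eq_some_iff.1 hi).1
        omega
      rw [hdget i h1] at hi
      have := Option.some.inj hi
      omega
    · rintro ⟨h1, h2⟩
      exact List.mem_iff_getElem?.2 ⟨b - 2, by rw [hdget _ (by omega)]; congr 1; omega⟩
  have hτmem : ∀ b, b ∈ τ ↔ 2 ≤ b ∧ b < M := fun b => by rw [hω.mem_iff, hdmem]
  have hτnd : τ.Nodup := hω.nodup_iff.2 (List.nodup_range.sublist (List.drop_sublist _ _))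
  have hτlen : τ.length = M - 2 := by rw [hω.length_eq, hdlen]
  have hs : (1 :: τ).Perm (List.range M).tail := by
    have h1 : (List.range M).tail = 1 :: (List.range M).drop 2 := by
      conv_lhs => rw [hsplit]
      rfl
    rw [h1]
    exact hω.cons 1
  obtain ⟨X, hX⟩ : ∃ X : Fl, X = ⟨List.range M, 1 :: τ⟩ := ⟨_, rfl⟩
  have hXw : X.w = List.range M := by rw [hX]
  have hXs : X.s = 1 :: τ := by rw [hX]
  have hXmem : ∀ b, b ∈ X.s ↔ 1 ≤ b ∧ b < M := by
    intro b
    rw [hXs, List.mem_cons, hτmem]
    omega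
  have hXnd : X.s.Nodup := by
    rw [hXs, List.nodup_cons]
    exact ⟨fun h => by have := (hτmem 1).1 h; omega, hτnd⟩
  have hXlen : X.s.length = M - 1 := by
    rw [hXs, List.length_cons, hτlen]
    omega
  have g : Good (Ioo 0 M) X := by
    refine ⟨by rw [hXw]; exact List.nodup_range, hXnd, ?_, ?_, ?_⟩
    · intro b hb
      rw [Finset.mem_Ioo] at hb
      exact (hXmem b).2 ⟨hb.1, hb.2⟩
    · intro b hb
      exact ((hXmem b).1 hb).1
    · intro b hb
      rw [hXw, List.length_range]
      exact ((hXmem b).1 hb).2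
  have c : IsComp (Ioo 0 M) X 0 M := by
    refine ⟨by omega, by rw [hXw, List.length_range]; omega, by simp, by simp, ?_⟩
    intro b h1 h2
    rw [Finset.mem_Ioo]
    omega
  have hXget : ∀ i, i < M → X.w[i]? = some i := fun i hi => by
    rw [hXw, List.getElem?_range hi]
  have hz0 : X.w[0]? = some 0 := hXget 0 (by omega)
  have hS : ∀ y, 0 < y → y < M → y ∈ compS X 0 M 0 := by
    intro y h1 h2
    rw [mem_compS g c]
    exact ⟨by omega, y, h2, by rw [Nat.zero_add]; exact hXget y h2⟩
  obtain ⟨X', hst, hr, hw0, hw1, hw2, s', hs'⟩ := run_to_last g c hz0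
    (fun A X' hA hst => by
      rw [hX] at hst
      exact (top_U h4 h5 hM hs hA hst).1 _ _ (by
        rw [← hX] at hst
        exact hst.ph.compB g c hA))
    (fun A X' hA hst => by
      rcases Nat.lt_or_ge (A.card + 1) M with h1 | h1
      · have h2 := hst.ph.compA g c (Finset.card_pos.1 (by omega))
        rw [hX] at hst
        exact (top_U h4 h5 hM hs h1 hst).2 _ _ hA h2
      · have h2 := hst.ph.lt
        rw [hX] at hst
        exact top_full hM hz hs (by omega) hst)
    (hS 1 (by omega) (by omega)) (hS 3 (by omega) (by omega)) (by norm_num)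
  rw [Nat.zero_add] at hr hw1
  have hcard : ({1} : Finset ℕ).card = 1 := Finset.card_singleton 1
  have hp := hst.ph
  -- the words
  have hperm : X'.w.Perm X.w := hp.same.w
  have hlen : X'.w.length = M := by rw [hperm.length_eq, hXw, List.length_range]
  obtain ⟨u, hu⟩ : ∃ u, u = X'.w.drop 2 := ⟨_, rfl⟩
  have hwsplit : X'.w = 1 :: 0 :: u := by
    rw [hu]
    apply List.ext_getElem?
    intro i
    rcases i with _ | _ | i
    · rw [hw0]; rfl
    · rw [hw1]; rfl
    · show X'.w[i + 2]? = (X'.w.drop 2)[i]?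
      rw [List.getElem?_drop, Nat.add_comm]
  have huperm : u.Perm ((List.range M).drop 2) := by
    have h1 : (1 :: 0 :: u).Perm (0 :: 1 :: (List.range M).drop 2) := by
      rw [← hwsplit, ← hsplit, ← hXw]
      exact hperm
    have h2 : (1 :: 0 :: u).Perm (1 :: 0 :: (List.range M).drop 2) :=
      h1.trans (List.Perm.swap 1 0 _)
    exact (List.perm_cons _).1 ((List.perm_cons _).1 h2)
  have hutake : (X'.w.drop 2).take (M - 2) = u := by
    rw [← hu]
    exact List.take_of_length_le (by rw [huperm.length_eq, hdlen])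
  -- the bars
  have hsperm : (X'.s ++ [1]).Perm (1 :: τ) := by
    have h1 := hp.same.s
    rw [hXs] at h1
    have h2 : top 0 ({1} : Finset ℕ).card = [1] := by rw [hcard]; rfl
    rw [h2] at h1
    exact h1
  have hsperm' : X'.s.Perm τ := by
    have h1 : (X'.s ++ [1]).Perm (1 :: X'.s) := List.perm_append_singleton 1 X'.s
    exact (List.perm_cons _).1 (h1.symm.trans hsperm)
  have hslen : X'.s.length = M - 2 := by rw [hsperm'.length_eq, hτlen]
  have hsmem : ∀ b, b ∈ X'.s ↔ 2 ≤ b ∧ b < M := fun b => by rw [hsperm'.mem_iff, hτmem]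
  -- the last phase
  have hPi : ∀ b, b ∈ subPi (Ioo 0 M) 0 ({1} : Finset ℕ).card ↔ 2 < b ∧ b < M := by
    intro b
    rw [hcard]
    unfold subPi
    rw [Finset.mem_erase, Finset.mem_erase, Finset.mem_Ioo]
    omega
  have hcB : IsComp (subPi (Ioo 0 M) 0 ({1} : Finset ℕ).card) X' 2 (M - 2) := by
    have h1 := hp.compB g c (by rw [hcard]; omega)
    rw [hcard] at h1 ⊢
    have h2 : M - 1 - 1 = M - 2 := by omega
    rw [h2] at h1
    exact h1
  have hpar := runS_parity g c ⟨0, by omega, hz0⟩ hp (Finset.singleton_nonempty 1)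
    (by rw [hcard]; exact hr) (by omega) (Npar_full g c (fun b hb => by
      have := (hXmem b).1 hb
      omega)) (Fpar_pos g ⟨1, by rw [Finset.mem_Ioo]; omega⟩)
    (Npar_eps hp.good ⟨2, (hsmem 2).2 (by omega), fun h => by have := (hPi 2).1 h; omega⟩)
    (Fpar_pos hp.good ⟨3, (hPi 3).2 (by omega)⟩)
  have hinvX : inv X.w = 0 := by
    rw [hXw]
    exact inv_sorted List.pairwise_lt_range
  have hinvD : inv ((List.range M).drop 2) = 0 :=
    inv_sorted (List.pairwise_lt_range.sublist (List.drop_sublist _ _))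
  have hinvX' : inv X'.w = 1 + inv u := by
    rw [hwsplit, inv, inv, List.countP_cons, countP_lt (m := 1), countP_lt (m := 0)]
    · simp
    · intro y _
      exact Nat.zero_le y
    · intro y hy
      have := (hdmem y).1 (huperm.mem_iff.1 hy)
      omega
  have hinvXs : inv X.s = inv τ := by
    rw [hXs, inv, countP_lt, Nat.zero_add]
    intro y hy
    have := (hτmem y).1 hy
    omega
  have hinvXs' : inv (X'.s ++ [1]) = inv X'.s + X'.s.length := by
    have h1 : ∀ l : List ℕ, inv (l ++ [1]) = inv l + l.countP (fun y => decide (1 < y)) := by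
      intro l
      induction l with
      | nil => rfl
      | cons x l ih =>
        rw [List.cons_append, inv, inv, ih, List.countP_append, List.countP_cons,
          List.countP_cons, List.countP_nil]
        omega
    rw [h1]
    congr 1
    rw [List.countP_eq_length]
    intro y hy
    have := (hsmem y).1 hy
    rw [decide_eq_true_eq]
    omega
  rw [hcard, Nat.zero_add] at hpar
  have hstrip := hg (subPi (Ioo 0 M) 0 ({1} : Finset ℕ).card) X' 2 ((List.range M).drop 2) ω
    hp.good hcB (fun b hb => by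
      have := (hPi b).1 hb
      omega)
    ⟨2, s', hs', fun h => by have := (hPi 2).1 h; omega⟩ (by show M - 2 ≤ X'.s.length; omega)
    (by rw [hutake]; exact huperm.symm)
    (by
      unfold WC
      rw [if_neg (by omega), if_neg (by omega), if_neg (by omega), hutake, hdget 1 (by omega)]
      rw [hwsplit] at hw2
      exact hw2.symm)
    (by rw [← hτ]; exact hsperm'.symm) hl
    (by rw [hutake, hinvD]; omega)
    (by rw [← hτ]; omega)
  rw [← hτ] at hstrip
  have hfin := last_phase g c hz0 hp (by
    rw [hcard]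
    exact hr) hstrip
  rw [hX] at hfin
  have e1 : X'.w.take 2 ++ ((List.range M).drop 2 ++ X'.w.drop (2 + (M - 2))) =
      swp (List.range M) 1 := by
    have e0 : X'.w.drop (2 + (M - 2)) = [] := List.drop_of_length_le (by omega)
    rw [e0, List.append_nil, hwsplit]
    unfold swp
    have e2 : (List.range M).take (1 - 1) = [] := rfl
    have e3 : ((List.range M).drop 1).take 1 = [1] := by
      rw [hsplit]
      rfl
    have e4 : ((List.range M).drop (1 - 1)).take 1 = [0] := by
      rw [hsplit]
      rfl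
    rw [e2, e3, e4]
    rfl
  have e2 : top 0 ({1} : Finset ℕ).card = [1] := by rw [hcard]; rfl
  have hfin' : Strip (Ioo 0 M) ⟨List.range M, 1 :: τ⟩
      ⟨X'.w.take 2 ++ ((List.range M).drop 2 ++ X'.w.drop (2 + (M - 2))),
        τ ++ top 0 ({1} : Finset ℕ).card⟩ := hfin
  rw [e1, e2] at hfin'
  exact hfin'

end Pool.Agent.RS
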