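import Pool.Agent.RS.GStep
import Pool.Agent.RS.Zl

/-!
# RS module TopA: preparations for the top level
-/

set_option autoImplicit false

namespace Pool.Agent.RS

open Finset

namespace TopAAux

theorem bars {M : ℕ} {s : List ℕ} (hs : s.Perm (List.range M).tail) :
    ∀ b, b ∈ s ↔ 0 < b ∧ b < M := by
  intro b
  rw [hs.mem_iff, List.tail_range, List.mem_range']
  constructor
  · rintro ⟨i, hi, rfl⟩
    omega
  · intro hb
    exact ⟨b - 1, by omega, by omega⟩

theorem good {M : ℕ} {s : List ℕ} (hs : s.Perm (List.range M).tail) :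
    Good (Ioo 0 M) ⟨List.range M, s⟩ := by
  have hmem := bars hs
  refine ⟨List.nodup_range, ?_, ?_, ?_, ?_⟩
  · exact hs.nodup_iff.mpr (List.nodup_range.sublist (List.tail_sublist _))
  · intro b hb
    exact (hmem b).2 (Finset.mem_Ioo.1 hb)
  · intro b hb
    exact ((hmem b).1 hb).1
  · intro b hb
    show b < (List.range M).length
    rw [List.length_range]
    exact ((hmem b).1 hb).2

theorem comp {M : ℕ} (hM : 1 ≤ M) (s : List ℕ) : IsComp (Ioo 0 M) ⟨List.range M, s⟩ 0 M := by
  refine ⟨hM, ?_, by simp, by simp, ?_⟩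
  · show 0 + M ≤ (List.range M).length
    rw [List.length_range]
    omega
  · intro b h1 h2
    rw [Finset.mem_Ioo]
    omega

end TopAAux

open TopAAux

/-- an order of the bars `2, …, M - 1` of the form `ω ++ ordT (M - 2) 2` with last bar of `ω` equal
to `spc (M - 2) 2` -/
theorem exists_omega {M : ℕ} (hM : 5 ≤ M) :
    ∃ ω : List ℕ, (ω ++ ordT (M - 2) 2).Perm ((List.range M).drop 2) ∧
      ω.getLast? = some (spc (M - 2) 2) := by
  obtain ⟨h1, h2⟩ := ordT_spec (k := M - 2) (a := 2) (by omega)
  obtain ⟨T, hT⟩ : ∃ T, T = spc (M - 2) 2 :: ordT (M - 2) 2 := ⟨_, rfl⟩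
  have hmem : ∀ b, b ∈ (List.range M).drop 2 ↔ 2 ≤ b ∧ b < M := by
    intro b
    constructor
    · intro h
      obtain ⟨i, hi⟩ := List.mem_iff_getElem?.1 h
      rw [List.getElem?_drop] at hi
      have h3 := (List.getElem?_eq_some_iff.1 hi).1
      rw [List.length_range] at h3
      rw [List.getElem?_range h3] at hi
      have := Option.some.inj hi
      omega
    · rintro ⟨h3, h4⟩
      refine List.mem_iff_getElem?.2 ⟨b - 2, ?_⟩
      rw [List.getElem?_drop, List.getElem?_range (by omega)]
      congr 1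
      omega
  have hnd : ((List.range M).drop 2).Nodup := List.nodup_range.sublist (List.drop_sublist _ _)
  refine ⟨((List.range M).drop 2).filter (fun b => decide (b ∉ T)) ++ [spc (M - 2) 2], ?_, by simp⟩
  have he : ((List.range M).drop 2).filter (fun b => decide (b ∉ T)) ++ [spc (M - 2) 2] ++
      ordT (M - 2) 2 = ((List.range M).drop 2).filter (fun b => decide (b ∉ T)) ++ T := by
    rw [hT]
    simp
  rw [he, List.perm_ext_iff_of_nodup _ hnd]
  · intro b
    rw [List.mem_append, List.mem_filter, decide_eq_true_eq]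
    constructor
    · rintro (h | h)
      · exact h.1
      · rw [hT] at h
        have := h2 b h
        exact (hmem b).2 (by omega)
    · intro h
      by_cases hb : b ∈ T
      · exact Or.inr hb
      · exact Or.inl ⟨h, hb⟩
  · rw [List.nodup_append]
    refine ⟨hnd.filter _, by rw [hT]; exact h1, ?_⟩
    rintro x hx y hy rfl
    rw [List.mem_filter, decide_eq_true_eq] at hx
    exact hx.2 hy

/-- providers of `run_to_last` for the full configuration: `A = ∅`: `M - 2` bars in `subPi`, `M - 1`
bars; `A ≠ ∅`, `A.card + 1 < M`: `M - 3 ≥ 5` and `M - 2`; all letters: `ZL (M - 1)` -/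
theorem top_U (h4 : E4) (h5 : E5) {M : ℕ} (hM : 8 ≤ M) {s : List ℕ}
    (hs : s.Perm (List.range M).tail) {A : Finset ℕ} {X' : Fl} (hA : A.card + 1 < M)
    (hst : St (Ioo 0 M) ⟨List.range M, s⟩ 0 M 0 A X') :
    EU (subPi (Ioo 0 M) 0 A.card) X' ∧ EL (subPi (Ioo 0 M) 0 A.card) X' :=
  zl_phase h4 h5 hM (good hs) (comp (by omega) s) (fun b hb => by
    have := (bars hs b).1 hb
    omega) hst.ph hA

theorem top_full {M : ℕ} (hM : 8 ≤ M) (hz : ZL (M - 1)) {s : List ℕ}
    (hs : s.Perm (List.range M).tail) {A : Finset ℕ} {X' : Fl} (hA : A.card + 1 = M)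
    (hst : St (Ioo 0 M) ⟨List.range M, s⟩ 0 M 0 A X') :
    ELc (subPi (Ioo 0 M) 0 A.card) X' 0 A.card := by
  have g := good hs
  have c := comp (M := M) (by omega) s
  have hAne : A.Nonempty := by
    rw [← Finset.card_pos]
    omega
  have h4 := hst.full (by omega) hA
  have hc := hst.ph.compA g c hAne
  have hck : A.card = M - 1 := by omega
  have hZ := hz (subPi (Ioo 0 M) 0 A.card) X' 0 hst.ph.good (hck ▸ hc) ?_ (by rw [h4, hck])
  · rw [← hck] at hZ
    exact hZ
  · intro b hb
    have hperm := hst.ph.same.s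
    have htop : top 0 A.card = [0 + A.card] := by
      unfold top
      rw [if_neg (by omega)]
    simp only [htop] at hperm
    have hb1 : b ∈ s := hperm.mem_iff.mp (by simp [hb])
    have hnd : (X'.s ++ [0 + A.card]).Nodup := hperm.nodup_iff.mpr g.sn
    have hb2 : b ≠ 0 + A.card := by
      rintro rfl
      rw [List.nodup_append] at hnd
      exact hnd.2.2 _ hb _ (by simp) rfl
    have hb3 := (bars hs b).1 hb1
    omega

/-- closing: transition L (`walk_L`) with `l = 1` goes back to the start and introduces its faces -/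
theorem closed_of_strip {M : ℕ} (hM : 2 ≤ M) {τ : List ℕ} (hτ : τ.Perm ((List.range M).drop 2))
    (h : Strip (Ioo 0 M) ⟨List.range M, 1 :: τ⟩ ⟨swp (List.range M) 1, τ ++ [1]⟩) :
    Closed (Ioo 0 M) ⟨List.range M, 1 :: τ⟩ := by
  obtain ⟨L, hw, hn, hm⟩ := h
  have hlen : 1 < (List.range M).length := by
    rw [List.length_range]
    omega
  have h1 : 1 ∉ τ := by
    intro h
    have h2 := hτ.mem_iff.1 h
    obtain ⟨i, hi⟩ := List.mem_iff_getElem?.1 h2
    rw [List.getElem?_drop] at hi
    have h3 := (List.getElem?_eq_some_iff.1 hi).1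
    rw [List.length_range] at h3
    rw [List.getElem?_range h3] at hi
    have := Option.some.inj hi
    omega
  obtain ⟨L', hw', hp'⟩ := walk_L (Pi := Ioo 0 M) (w := swp (List.range M) 1) (T := τ) (l := 1)
    (by rw [Finset.mem_Ioo]; omega) (by omega)
    (by rw [swp_length (by omega) hlen]; exact hlen) h1
  rw [swp_swp (by omega) hlen] at hw' hp'
  have hperm : (L ++ L').Perm (faces (List.range M) (1 :: τ) ++ L) :=
    (List.Perm.append_left L hp').trans List.perm_append_comm
  exact ⟨L ++ L', hw.append hw', hperm.nodup_iff.2 hn, fun F => by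
    rw [hperm.mem_iff]
    exact hm F⟩

end Pool.Agent.RS
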