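import Pool.Agent.RS.Walks

/-!
# RS module Trans: exchange of two letters, transitions between phases
-/

set_option autoImplicit false

namespace Pool.Agent.RS

open Finset

theorem swp_eq {u v : List ℕ} {x y : ℕ} : swp (u ++ x :: y :: v) (u.length + 1) = u ++ y :: x :: v := by
  unfold swp
  have h1 : (u ++ x :: y :: v).drop (u.length + 1) = y :: v := by
    rw [List.drop_length_add_append]
    rfl
  have h2 : (u ++ x :: y :: v).drop (u.length + 1 + 1) = v := by
    rw [Nat.add_assoc, List.drop_length_add_append]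
    rfl
  simp [h1, h2]

/-- every bar between two letters gives a decomposition of the word -/
theorem split_bar {w : List ℕ} {b : ℕ} (h0 : 0 < b) (h1 : b < w.length) :
    ∃ u v x y, w = u ++ x :: y :: v ∧ u.length + 1 = b := by
  obtain ⟨b, rfl⟩ : ∃ b', b = b' + 1 := ⟨b - 1, by omega⟩
  refine ⟨w.take b, w.drop (b + 2), w[b], w[b + 1], ?_, ?_⟩
  · rw [← List.drop_eq_getElem_cons, ← List.drop_eq_getElem_cons, List.take_append_drop]
  · rw [List.length_take]
    omega

theorem swp_perm {w : List ℕ} {b : ℕ} (h0 : 0 < b) (h1 : b < w.length) : (swp w b).Perm w := by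
  obtain ⟨u, v, x, y, rfl, rfl⟩ := split_bar h0 h1
  rw [swp_eq]
  exact List.Perm.append_left u (List.Perm.swap x y v)

theorem swp_length {w : List ℕ} {b : ℕ} (h0 : 0 < b) (h1 : b < w.length) :
    (swp w b).length = w.length := (swp_perm h0 h1).length_eq

theorem swp_swp {w : List ℕ} {b : ℕ} (h0 : 0 < b) (h1 : b < w.length) : swp (swp w b) b = w := by
  obtain ⟨u, v, x, y, rfl, rfl⟩ := split_bar h0 h1
  rw [swp_eq, swp_eq]

theorem pre_swp {w : List ℕ} {b c : ℕ} (h0 : 0 < b) (h1 : b < w.length) (hc : c ≠ b) :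
    pre (swp w b) c = pre w c := by
  obtain ⟨u, v, x, y, rfl, rfl⟩ := split_bar h0 h1
  rw [swp_eq]
  unfold pre
  rcases Nat.lt_or_ge c (u.length + 1) with h | h
  · rw [List.take_append_of_le_length (by omega), List.take_append_of_le_length (by omega)]
  · obtain ⟨d, rfl⟩ : ∃ d, c = u.length + (d + 2) := ⟨c - u.length - 2, by omega⟩
    rw [List.take_length_add_append, List.take_length_add_append]
    ext z
    simp only [List.take_succ_cons, List.toFinset_append, List.toFinset_cons, Finset.mem_union,
      Finset.mem_insert]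
    tauto

theorem swp_left {w : List ℕ} {b : ℕ} (h0 : 0 < b) (h1 : b < w.length) :
    (swp w b)[b - 1]? = w[b]? := by
  obtain ⟨u, v, x, y, rfl, rfl⟩ := split_bar h0 h1
  rw [swp_eq]
  simp

theorem swp_right {w : List ℕ} {b : ℕ} (h0 : 0 < b) (h1 : b < w.length) :
    (swp w b)[b]? = w[b - 1]? := by
  obtain ⟨u, v, x, y, rfl, rfl⟩ := split_bar h0 h1
  rw [swp_eq]
  simp

theorem swp_other {w : List ℕ} {b c : ℕ} (h0 : 0 < b) (h1 : b < w.length) (hc : c ≠ b)
    (hc1 : c ≠ b - 1) : (swp w b)[c]? = w[c]? := by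
  obtain ⟨u, v, x, y, rfl, rfl⟩ := split_bar h0 h1
  rw [swp_eq]
  rcases Nat.lt_or_ge c u.length with h | h
  · rw [List.getElem?_append_left h, List.getElem?_append_left h]
  · obtain ⟨d, rfl⟩ : ∃ d, c = u.length + (d + 2) := ⟨c - u.length - 2, by omega⟩
    rw [List.getElem?_append_right (by omega), List.getElem?_append_right (by omega),
      Nat.add_sub_cancel_left]
    simp

namespace TransAux

theorem fc_rot (w T : List ℕ) (r : ℕ) : fc w (T ++ [r]) = fc w (r :: T) := by
  unfold fc
  ext S
  simp

theorem faces_head (w T : List ℕ) (r : ℕ) :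
    faces w (T ++ [r]) = fc w (r :: T) :: (faces w (T ++ [r])).tail := by
  rw [← fc_rot]
  cases T <;> rfl

/-- the bar `r` moves to the top -/
theorem up (Pi : Finset ℕ) (w T : List ℕ) (r : ℕ) (t : List ℕ) :
    Walk Pi ⟨w, t ++ r :: T⟩ ⟨w, t ++ (T ++ [r])⟩ (faces w (T ++ [r])).tail := by
  induction T generalizing t with
  | nil => exact Walk.nil _
  | cons b T ih =>
    have h := ih (t ++ [b])
    simp only [List.append_assoc, List.cons_append, List.nil_append] at h
    have h2 : (faces w (b :: T ++ [r])).tail = fc w (r :: T) :: (faces w (T ++ [r])).tail := by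
      rw [← faces_head]
      rfl
    rw [h2]
    exact Walk.cons (Step.order w t T r b) h

/-- the bar `l` moves to the bottom -/
theorem down (Pi : Finset ℕ) (w T : List ℕ) (l : ℕ) (t : List ℕ) :
    Walk Pi ⟨w, t ++ (T ++ [l])⟩ ⟨w, t ++ l :: T⟩ (faces w T).reverse := by
  induction T generalizing t with
  | nil => exact Walk.nil _
  | cons b T ih =>
    have h := ih (t ++ [b])
    simp only [List.append_assoc, List.cons_append, List.nil_append] at h
    have h2 : (faces w (b :: T)).reverse = (faces w T).reverse ++ [fc w (b :: T)] := by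
      simp [faces]
    rw [h2]
    exact h.append (Walk.cons (Step.order w t T b l) (Walk.nil _))

theorem word_step {Pi : Finset ℕ} {w : List ℕ} {r : ℕ} (hr : r ∈ Pi) (h0 : 0 < r)
    (h1 : r < w.length) (T : List ℕ) :
    Step Pi ⟨w, r :: T⟩ ⟨swp w r, r :: T⟩ (fc (swp w r) (r :: T)) := by
  obtain ⟨u, v, x, y, rfl, rfl⟩ := split_bar h0 h1
  rw [swp_eq]
  exact Step.word u v T x y hr

theorem faces_swp {w : List ℕ} {l : ℕ} (h0 : 0 < l) (h1 : l < w.length) (T : List ℕ) (hT : l ∉ T) :
    faces (swp w l) T = faces w T := by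
  induction T with
  | nil => rfl
  | cons b T ih =>
    have hT' : l ∉ T := fun h => hT (List.mem_cons_of_mem _ h)
    have h2 : (b :: T).map (pre (swp w l)) = (b :: T).map (pre w) := by
      refine List.map_congr_left fun c hc => pre_swp h0 h1 ?_
      rintro rfl
      exact hT hc
    simp only [faces, fc, ih hT', h2]

end TransAux

open TransAux

/-- transition U: exchange the letters at the bottom bar `r`, then `r` moves to the top. The new
faces are exactly the faces of the new flag (word step: `fc w' (r :: T) = fc w' (T ++ [r])`; order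
steps: `r` passes the bars of `T` one after the other, new faces `fc w' (r :: T')`, `T'` the
remaining bars). -/
theorem walk_U {Pi : Finset ℕ} {w T : List ℕ} {r : ℕ} (hr : r ∈ Pi) (h0 : 0 < r)
    (h1 : r < w.length) :
    Walk Pi ⟨w, r :: T⟩ ⟨swp w r, T ++ [r]⟩ (faces (swp w r) (T ++ [r])) := by
  rw [faces_head]
  exact Walk.cons (word_step hr h0 h1 T) (up Pi (swp w r) T r [])

/-- transition L: the top bar `l` moves to the bottom, then the letters at `l` are exchanged. The
new faces are the faces of the new flag in some order. -/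
theorem walk_L {Pi : Finset ℕ} {w T : List ℕ} {l : ℕ} (hl : l ∈ Pi) (h0 : 0 < l)
    (h1 : l < w.length) (hT : l ∉ T) :
    ∃ L, Walk Pi ⟨w, T ++ [l]⟩ ⟨swp w l, l :: T⟩ L ∧ L.Perm (faces (swp w l) (l :: T)) := by
  refine ⟨(faces w T).reverse ++ [fc (swp w l) (l :: T)],
    (down Pi w T l []).append (Walk.cons (word_step hl h0 h1 T) (Walk.nil _)), ?_⟩
  have h2 : faces (swp w l) (l :: T) = fc (swp w l) (l :: T) :: faces w T := by
    rw [← faces_swp h0 h1 T hT]
    rfl
  rw [h2]
  exact (List.perm_append_singleton _ _).trans (List.Perm.cons _ (List.reverse_perm _))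

end Pool.Agent.RS
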