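import Pool.Agent.RS.Z7Defs
import Pool.Agent.RS.Run

/-!
# RS module Z7A: the phases with `1 ≤ |A| ≤ 5` for one component of size seven
-/

set_option autoImplicit false

namespace Pool.Agent.RS

open Finset

/-- the data for five bars -/
structure D7 : Prop where
  u5 : UEs [5]
  u24 : UEs [2, 4]
  u33 : UEs [3, 3]
  u42 : UEs [4, 2]
  l5 : ELs [5]
  l24 : ELs [2, 4]
  l33 : ELs [3, 3]
  l42 : ELs [4, 2]
  n1 : N1s
  z6 : Z6s

namespace Z7AAux

theorem mem_subPi {Pi : Finset ℕ} {a n b : ℕ} :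
    b ∈ subPi Pi a n ↔ b ≠ a + n + 1 ∧ b ≠ a + n ∧ b ∈ Pi := by
  unfold subPi
  rw [Finset.mem_erase, Finset.mem_erase]

end Z7AAux

section

variable {Pi : Finset ℕ} {X X' : Fl} {a z : ℕ} {A : Finset ℕ}

/-- the blocks of size `≥ 2` of the phase of `A`, `1 ≤ |A| ≤ 5`: `(a, |A|)` if `2 ≤ |A|` and
`(a + |A| + 1, 6 - |A|)` if `|A| ≤ 4` -/
theorem z7_blk (g : Good Pi X) (c : IsComp Pi X a 7) (h : ∀ b ∈ X.s, a < b ∧ b < a + 7)
    (hp : PhaseAt Pi X a 7 z A X') (h1 : 1 ≤ A.card) (h5 : A.card ≤ 5) :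
    Blk (subPi Pi a A.card) X' (((a, A.card) :: [(a + A.card + 1, 6 - A.card)]).filter
      (fun p => 2 ≤ p.2)) ∧ X'.s.length = 5 ∧ (subPi Pi a A.card).card = 4 ∧
      ∀ β, β ∈ X'.s → β ∉ subPi Pi a A.card → β = a + A.card + 1 := by
  have hA : A ≠ ∅ := by
    rintro rfl
    rw [Finset.card_empty] at h1
    omega
  have hPi : ∀ b, b ∈ Pi ↔ a < b ∧ b < a + 7 :=
    fun b => ⟨fun hb => h b (g.sub b hb), fun hb => c.mem b hb.1 hb.2⟩
  have hPieq : Pi = Finset.Ioo a (a + 7) := by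
    ext b
    rw [hPi b, Finset.mem_Ioo]
  have hcard : Pi.card = 6 := by
    rw [hPieq, Nat.card_Ioo]
    omega
  have hXs : X.s.toFinset = Finset.Ioo a (a + 7) := by
    ext b
    rw [List.mem_toFinset, Finset.mem_Ioo]
    exact ⟨fun hb => h b hb, fun hb => g.sub b (c.mem b hb.1 hb.2)⟩
  have hXl : X.s.length = 6 := by
    rw [← List.toFinset_card_of_nodup g.sn, hXs, Nat.card_Ioo]
    omega
  have hl := hp.slength g c
  have hc4 := hp.picard g c
  rw [if_neg hA] at hl hc4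
  rw [if_neg (by omega : ¬ A.card + 1 = 7)] at hc4
  have hB : Blk (subPi Pi a A.card) X' ((a, A.card) :: [(a + A.card + 1, 6 - A.card)]) := by
    refine ⟨?_, ?_, ?_⟩
    · intro p hpm _
      rcases List.mem_cons.1 hpm with rfl | hpm
      · exact hp.compA g c (Finset.nonempty_iff_ne_empty.2 hA)
      · rw [List.mem_singleton] at hpm
        subst hpm
        have h3 := hp.compB g c (by omega)
        have e : 7 - 1 - A.card = 6 - A.card := by omega
        rw [e] at h3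
        exact h3
    · intro b hb
      obtain ⟨h3, h4, h6⟩ := Z7AAux.mem_subPi.1 hb
      obtain ⟨h7, h8⟩ := (hPi b).1 h6
      rcases Nat.lt_or_ge b (a + A.card) with h9 | h9
      · exact ⟨(a, A.card), List.mem_cons_self, h7, h9⟩
      · refine ⟨(a + A.card + 1, 6 - A.card), List.mem_cons_of_mem _ (List.mem_singleton.2 rfl),
          ?_, ?_⟩
        · simp only
          omega
        · simp only
          omega
    · rw [List.pairwise_cons]
      refine ⟨?_, List.pairwise_singleton _ _⟩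
      intro q hq
      rw [List.mem_singleton] at hq
      subst hq
      simp only
      omega
  refine ⟨hB.filter, by omega, by omega, ?_⟩
  intro β hβ hn
  have hm : β ∈ X'.s ++ top a A.card := List.mem_append_left _ hβ
  have hβX : β ∈ X.s := (hp.same.s.mem_iff).1 hm
  have hβ2 := h β hβX
  have hne : β ≠ a + A.card := by
    rintro rfl
    have hnd : (X'.s ++ top a A.card).Nodup := (hp.same.s.nodup_iff).2 g.sn
    unfold top at hnd
    rw [if_neg (by omega : ¬ A.card = 0), List.nodup_append] at hnd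
    exact hnd.2.2 _ hβ _ (List.mem_singleton.2 rfl) rfl
  by_contra hcon
  exact hn (Z7AAux.mem_subPi.2 ⟨hcon, hne, c.mem β hβ2.1 hβ2.2⟩)

/-- adding a letter, `1 ≤ |A| ≤ 4` -/
theorem z7_U (D : D7) (g : Good Pi X) (c : IsComp Pi X a 7)
    (h : ∀ b ∈ X.s, a < b ∧ b < a + 7) (hp : PhaseAt Pi X a 7 z A X') (h1 : 1 ≤ A.card)
    (h4 : A.card ≤ 4) (he : HeadEps (subPi Pi a A.card) X') {x : ℕ} (hx : x ∈ compS X a 7 z)
    (hxA : x ∉ A) :
    ∃ Y s', Strip (subPi Pi a A.card) X' Y ∧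
      Y.s = (a + A.card + 1) :: (a + A.card + 2) :: s' ∧ Y.w[a + A.card + 1]? = some x := by
  obtain ⟨hb, hl, hc4, hβ⟩ := z7_blk g c h hp h1 (by omega)
  obtain ⟨i, hi, hix⟩ := (hp.mem_B g c).1 ⟨hx, hxA⟩
  have key : ∀ ks, UEs ks → (((a, A.card) :: [(a + A.card + 1, 6 - A.card)]).filter
      (fun p => 2 ≤ p.2)).map Prod.snd = ks →
      (((a, A.card) :: [(a + A.card + 1, 6 - A.card)]).filter
      (fun p => 2 ≤ p.2)).getLast? = some (a + A.card + 1, 6 - A.card) →
      ∃ Y s', Strip (subPi Pi a A.card) X' Y ∧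
      Y.s = (a + A.card + 1) :: (a + A.card + 2) :: s' ∧ Y.w[a + A.card + 1]? = some x := by
    intro ks hU hks hlast
    obtain ⟨Y, s', β, hY, hβn, hYs, hYw⟩ := hU (subPi Pi a A.card) X' _ hp.good hb hks hl hc4 he
      _ hlast x ⟨i, by simp only; omega, hix⟩
    have hβm : β ∈ X'.s := by
      have h3 : β ∈ Y.s := by
        rw [hYs]
        exact List.mem_cons_self
      exact ((hY.same hp.good).s.mem_iff).1 h3
    have h5 := hβ β hβm hβn
    subst h5
    exact ⟨Y, s', hY, hYs, hYw⟩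
  have hcases : A.card = 1 ∨ A.card = 2 ∨ A.card = 3 ∨ A.card = 4 := by omega
  rcases hcases with e | e | e | e
  · exact key [5] D.u5 (by rw [e]; rfl) (by rw [e]; rfl)
  · exact key [2, 4] D.u24 (by rw [e]; rfl) (by rw [e]; rfl)
  · exact key [3, 3] D.u33 (by rw [e]; rfl) (by rw [e]; rfl)
  · exact key [4, 2] D.u42 (by rw [e]; rfl) (by rw [e]; rfl)

/-- `|A| = 5`, the first letter `v` of the arrangement of `A` can be prescribed -/
theorem z7_U5 (D : D7) (g : Good Pi X) (c : IsComp Pi X a 7)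
    (h : ∀ b ∈ X.s, a < b ∧ b < a + 7) (hp : PhaseAt Pi X a 7 z A X')
    (h5 : A.card = 5) (he : HeadEps (subPi Pi a A.card) X') {v : ℕ} (hv : v ∈ A) :
    ∃ Y s', Strip (subPi Pi a A.card) X' Y ∧ Y.s = (a + 6) :: s' ∧ Y.w[a]? = some v := by
  obtain ⟨hb, hl, hc4, hβ⟩ := z7_blk g c h hp (by omega) (by omega)
  obtain ⟨i, hi, hix⟩ := (hp.mem_A g c).1 hv
  obtain ⟨Y, s', β, hY, hβn, hYs, hYw⟩ := D.u5 (subPi Pi a A.card) X' _ hp.good hb
    (by rw [h5]; rfl) hl hc4 he (a, A.card) (by rw [h5]; rfl) v ⟨i, hi, hix⟩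
  have hβm : β ∈ X'.s := by
    have h3 : β ∈ Y.s := by
      rw [hYs]
      exact List.mem_cons_self
    exact ((hY.same hp.good).s.mem_iff).1 h3
  have h6 := hβ β hβm hβn
  rw [h5] at h6
  refine ⟨Y, (a + 1) :: s', hY, ?_, hYw⟩
  rw [hYs, h6]

/-- removing a letter, `2 ≤ |A| ≤ 5` -/
theorem z7_L (D : D7) (g : Good Pi X) (c : IsComp Pi X a 7)
    (h : ∀ b ∈ X.s, a < b ∧ b < a + 7) (hp : PhaseAt Pi X a 7 z A X') (h1 : 2 ≤ A.card)
    (h5 : A.card ≤ 5) (he : HeadEps (subPi Pi a A.card) X') :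
    ELc (subPi Pi a A.card) X' a A.card := by
  obtain ⟨hb, hl, hc4, hβ⟩ := z7_blk g c h hp (by omega) h5
  have key : ∀ ks, ELs ks → (((a, A.card) :: [(a + A.card + 1, 6 - A.card)]).filter
      (fun p => 2 ≤ p.2)).map Prod.snd = ks →
      (((a, A.card) :: [(a + A.card + 1, 6 - A.card)]).filter
      (fun p => 2 ≤ p.2)).head? = some (a, A.card) →
      ELc (subPi Pi a A.card) X' a A.card := by
    intro ks hU hks hhead
    exact hU (subPi Pi a A.card) X' _ hp.good hb hks hl hc4 he _ hhead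
  have hcases : A.card = 2 ∨ A.card = 3 ∨ A.card = 4 ∨ A.card = 5 := by omega
  rcases hcases with e | e | e | e
  · exact key [2, 4] D.l24 (by rw [e]; rfl) (by rw [e]; rfl)
  · exact key [3, 3] D.l33 (by rw [e]; rfl) (by rw [e]; rfl)
  · exact key [4, 2] D.l42 (by rw [e]; rfl) (by rw [e]; rfl)
  · exact key [5] D.l5 (by rw [e]; rfl) (by rw [e]; rfl)

end

end Pool.Agent.RS
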